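import Pool.Statements.S00249
import Pool.Agent.H737R3.Points

set_option autoImplicit false
open Pool Pool.MP_70675a_ag

namespace Pool.Agent.S00249

/-- Over an algebraically closed field of char 0, for n≥1, any nonempty finite set W of points in P^n and r≥1, every nonzero degree-d form vanishing to order rn at all points of W has d ≥ r·α(W) + r(n−1). -/
theorem result :
    ∀ (k : Type) [Field k] [IsAlgClosed k] [CharZero k] (n : ℕ), 1 ≤ n →
    ∀ (W : Finset (Projectivization k (Fin (n+1) → k))), W.Nonempty →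
    ∀ (r : ℕ), 1 ≤ r →
    ∀ (d : ℕ) (f : MvPolynomial (Fin (n+1)) k), f ≠ 0 → f.IsHomogeneous d →
      (∀ P ∈ W, f ∈ (Ideal.span {g : MvPolynomial (Fin (n+1)) k |
          g.IsHomogeneous 1 ∧ MvPolynomial.eval P.rep g = 0}) ^ (r * n)) →
      ∃ (e : ℕ) (g : MvPolynomial (Fin (n+1)) k), g ≠ 0 ∧ g.IsHomogeneous e ∧
        (∀ P ∈ W, g ∈ Ideal.span {h : MvPolynomial (Fin (n+1)) k |
          h.IsHomogeneous 1 ∧ MvPolynomial.eval P.rep h = 0}) ∧
        r * e + r * (n - 1) ≤ d := by
  intro k _ _ _ n hn W hW r hr d f hf0 hfd hfW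
  have key : ∀ P : Projectivization k (Fin (n + 1) → k),
      Ideal.span {g : MvPolynomial (Fin (n+1)) k |
          g.IsHomogeneous 1 ∧ MvPolynomial.eval P.rep g = 0} =
        Pool.Agent.H737R3.ptIdeal P := fun P => (Pool.Agent.H737R3.ptIdeal_eq P).symm
  simp only [key] at hfW ⊢
  obtain ⟨g, hg, hg0, hgh⟩ := Pool.Agent.H737R3.alpha_wIdeal_spec hn W (fun _ => 1 * 1)
  refine ⟨_, g, hg0, hgh, ?_, ?_⟩
  · intro P hP
    have := (Pool.Agent.H737R3.mem_wIdeal).1 hg P hP
    simpa using this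
  · obtain ⟨q, hq⟩ := hW
    have h1 := Pool.Agent.H737R3.demailly_w hn W (fun _ => 1) ⟨q, hq, le_rfl⟩ 1 (r * n) le_rfl
    have hf : f ∈ Pool.Agent.H737R3.wIdeal W (fun _ => r * n * 1) := by
      rw [Pool.Agent.H737R3.mem_wIdeal]
      intro P hP
      rw [mul_one]
      exact hfW P hP
    have h2 := Pool.Agent.H737R3.alpha_wIdeal_le hf hf0
    rw [hfd.totalDegree hf0] at h2
    generalize Pool.Agent.H737R3.alpha (Pool.Agent.H737R3.wIdeal W (fun _ => 1 * 1)) = a at *
    have h3 : n * (r * (a + n - 1)) ≤ n * d := by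
      calc n * (r * (a + n - 1)) = r * n * (a + n - 1) := by ring
        _ ≤ _ := h1
        _ ≤ d * (1 + n - 1) := Nat.mul_le_mul_right _ h2
        _ = n * d := by rw [Nat.add_sub_cancel_left, mul_comm]
    have h4 := Nat.le_of_mul_le_mul_left h3 hn
    have h5 : a + n - 1 = a + (n - 1) := by omega
    rw [h5, mul_add] at h4
    exact h4

end Pool.Agent.S00249
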