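import Pool.Statements.S00275
import Pool.Agent.Y234.GS.All

set_option autoImplicit false
open Pool Pool.MP_8049df_ag

namespace Pool.Agent.S00275

/-- If a simplicial complex on n vertices is the initial ideal, for some monomial order, of a homogeneous prime ideal whose projective variety is nonempty and smooth over K, then over K every face link has no reduced homology below its dimension and the complex has no reduced homology at all. -/
theorem result :
  ∀ (K : Type) [Field K] (n : ℕ) (Δ : Finset (Finset (Fin n))),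
    (∀ F ∈ Δ, ∀ G : Finset (Fin n), G ⊆ F → G ∈ Δ) →
    (∃ (I : Ideal (MvPolynomial (Fin n) K)) (ord : MonomialOrder (Fin n)),
      (∀ f ∈ I, ∀ d : ℕ, MvPolynomial.homogeneousComponent d f ∈ I) ∧
      I.IsPrime ∧
      (∃ i : Fin n, MvPolynomial.X i ∉ I) ∧
      (∀ i : Fin n, Algebra.Smooth K
        (Localization.Away (Ideal.Quotient.mk I (MvPolynomial.X i)))) ∧
      Ideal.span {p : MvPolynomial (Fin n) K | ∃ f ∈ I, f ≠ 0 ∧
          p = MvPolynomial.monomial (ord.degree f) (1 : K)} =
        Ideal.span {p : MvPolynomial (Fin n) K | ∃ S : Finset (Fin n), S ∉ Δ ∧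
          p = MvPolynomial.monomial (∑ i ∈ S, Finsupp.single i 1) (1 : K)}) →
    ∀ r : Finset (Finset (Fin n)) → ℕ → ℕ,
      (∀ (L : Finset (Finset (Fin n))) (j : ℕ),
        r L j = (Matrix.of
          (fun (G : {G // G ∈ L.filter (fun G => G.card = j)})
               (F : {F // F ∈ L.filter (fun F => F.card = j + 1)}) =>
            if G.1 ⊆ F.1 then
              (-1 : K) ^ ((G.1.filter (fun u => ∀ w ∈ F.1 \ G.1, u < w)).card)
            else 0) :
          Matrix {G // G ∈ L.filter (fun G => G.card = j)}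
                 {F // F ∈ L.filter (fun F => F.card = j + 1)} K).rank) →
      ((∀ F ∈ Δ, ∀ k : ℕ,
          (∃ G ∈ Δ, G ∩ F = ∅ ∧ G ∪ F ∈ Δ ∧ k < G.card) →
          ((Δ.filter (fun G => G ∩ F = ∅ ∧ G ∪ F ∈ Δ)).filter
              (fun G => G.card = k)).card =
            r (Δ.filter (fun G => G ∩ F = ∅ ∧ G ∪ F ∈ Δ)) k +
              (if k = 0 then 0 else
                r (Δ.filter (fun G => G ∩ F = ∅ ∧ G ∪ F ∈ Δ)) (k - 1))) ∧
       (∀ k : ℕ,
          (Δ.filter (fun G => G.card = k)).card =
            r Δ k + (if k = 0 then 0 else r Δ (k - 1)))) := by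
  intro K _ n Δ hdown hex r hr
  obtain ⟨h1, h2⟩ := Pool.Agent.Y234.GS.final' K n Δ hdown hex
  constructor
  · intro F hF k hk
    have h := h1 F hF k hk
    rw [hr, hr]
    exact h
  · intro k
    have h := h2 k
    rw [hr, hr]
    exact h

end Pool.Agent.S00275
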