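import Pool.Statements.S00348
import Pool.Agent.Y238.UW.Net

set_option autoImplicit false
open Pool Pool.MP_a30cf1_ag

namespace Pool.Agent.S00348

/-- The negation of the preceding statement: For L ≥ 1 and r ≥ 2, any coordinatewise-minimal positive width vector (with d_0, d_L fixed) whose depth-L polynomial network with x^r activation has Zariski-dense output set in the ambient space is unimodal. -/
theorem result :
    ¬ (∀ (L r : ℕ), 1 ≤ L → 2 ≤ r →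
  ∀ Filling : (Fin (L+1) → ℕ) → Prop,
  (∀ e : Fin (L+1) → ℕ, Filling e ↔
    ∀ P : MvPolynomial (ℕ × (ℕ →₀ ℕ)) ℂ,
      (∀ W : Fin L → ℕ → ℕ → ℂ,
        MvPolynomial.eval (fun p : ℕ × (ℕ →₀ ℕ) => MvPolynomial.coeff p.2
          ((List.finRange L).foldl
            (fun (h : ℕ → MvPolynomial ℕ ℂ) (k : Fin L) (a : ℕ) =>
              ∑ b ∈ Finset.range (e k.castSucc),
                MvPolynomial.C (W k a b) * h b ^ (if (k : ℕ) = 0 then 1 else r))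
            (fun b : ℕ => (MvPolynomial.X b : MvPolynomial ℕ ℂ)) p.1)) P = 0) →
      ∀ c : ℕ × (ℕ →₀ ℕ) → ℂ,
        (∀ p : ℕ × (ℕ →₀ ℕ), c p ≠ 0 →
          p.1 < e (Fin.last L) ∧ (∑ b ∈ p.2.support, p.2 b) = r ^ (L - 1) ∧
            ∀ b ∈ p.2.support, b < e 0) →
        MvPolynomial.eval c P = 0) →
  ∀ d : Fin (L+1) → ℕ, (∀ i, 1 ≤ d i) → Filling d →
  (∀ d' : Fin (L+1) → ℕ, (∀ i, 1 ≤ d' i) → d' 0 = d 0 →
      d' (Fin.last L) = d (Fin.last L) → d' ≤ d → Filling d' → d' = d) →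
  ∃ i : Fin (L+1), (∀ j k : Fin (L+1), j ≤ k → k ≤ i → d j ≤ d k) ∧
    (∀ j k : Fin (L+1), i ≤ j → j ≤ k → d k ≤ d j)) := by
  intro H
  have H1 := H 7 2 (by norm_num) le_rfl Pool.Agent.Y238.UW.Fill (fun e => Iff.rfl)
  have hstar : Pool.Agent.Y238.UW.Fill Pool.Agent.Y238.UW.dstar :=
    Pool.Agent.Y238.UW.fill_of_dense _ rfl rfl Pool.Agent.Y238.UW.dense
  let S : Set (Fin 8 → ℕ) := {d | (∀ i, 1 ≤ d i) ∧ d 0 = 2 ∧ d 7 = 1 ∧
    d ≤ Pool.Agent.Y238.UW.dstar ∧ Pool.Agent.Y238.UW.Fill d}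
  have hS : S.Nonempty := by
    refine ⟨Pool.Agent.Y238.UW.dstar, ?_, rfl, rfl, le_rfl, hstar⟩
    intro i
    fin_cases i <;> decide
  obtain ⟨d, hd, hmin⟩ := (wellFounded_lt (α := Fin 8 → ℕ)).has_min S hS
  obtain ⟨hpos, h0, h7, hle, hF⟩ := hd
  have hmin' : ∀ d' : Fin 8 → ℕ, (∀ i, 1 ≤ d' i) → d' 0 = d 0 →
      d' (Fin.last 7) = d (Fin.last 7) → d' ≤ d → Pool.Agent.Y238.UW.Fill d' → d' = d := by
    intro d' h1 h2 h3 h4 h5
    by_contra hne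
    refine hmin d' ⟨h1, h2.trans h0, ?_, h4.trans hle, h5⟩ (lt_of_le_of_ne h4 hne)
    have : (Fin.last 7 : Fin 8) = 7 := rfl
    rw [← this, h3, this, h7]
  obtain ⟨i, hi1, hi2⟩ := H1 d hpos hF hmin'
  have h4 : d 4 ≤ 4 := hle 4
  have hA : ¬ d 4 ≤ 3 := by
    intro h
    obtain ⟨Q, hQ, hQ'⟩ := Pool.Agent.Y238.UW.lowA
    exact Pool.Agent.Y238.UW.not_fill d h0 h7 Q hQ (hQ' d h) hF
  have hB : ¬ d 3 ≤ 4 := by
    intro h
    obtain ⟨Q, hQ, hQ'⟩ := Pool.Agent.Y238.UW.lowB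
    exact Pool.Agent.Y238.UW.not_fill d h0 h7 Q hQ (hQ' d h4 h) hF
  have hC : ¬ d 5 ≤ 4 := by
    intro h
    obtain ⟨Q, hQ, hQ'⟩ := Pool.Agent.Y238.UW.lowC
    exact Pool.Agent.Y238.UW.not_fill d h0 h7 Q hQ (hQ' d h4 h) hF
  rcases le_total i 4 with hi | hi
  · have := hi2 4 5 hi (by decide)
    omega
  · have := hi1 3 4 (by decide) hi
    omega

end Pool.Agent.S00348
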