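import Pool.Statements.S00360
import Pool.Agent.Y217.GC.Main

set_option autoImplicit false
open Pool Pool.MP_a907e8_ag

namespace Pool.Agent.S00360

/-- The negation of the preceding statement: For every Noetherian local ring A and nonzero finitely generated A-module M with a finite projective resolution, the maximal length of an A-regular sequence in ann M plus the Krull dimension of A/ann M equals the Krull dimension of A. -/
theorem result :
    ¬ (∀ (A : Type) [CommRing A] [IsLocalRing A] [IsNoetherianRing A]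
      (M : Type) [AddCommGroup M] [Module A M] [Module.Finite A M] [Nontrivial M],
      (∃ P : CategoryTheory.ProjectiveResolution (ModuleCat.of A M), ∃ n : ℕ,
          ∀ i : ℕ, n ≤ i → CategoryTheory.Limits.IsZero (P.complex.X i)) →
      ∀ g : ℕ,
        (∃ rs : List A, rs.length = g ∧ (∀ r ∈ rs, r ∈ Module.annihilator A M) ∧
            RingTheory.Sequence.IsWeaklyRegular A rs) →
        (¬ ∃ rs : List A, rs.length = g + 1 ∧ (∀ r ∈ rs, r ∈ Module.annihilator A M) ∧
            RingTheory.Sequence.IsWeaklyRegular A rs) →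
        (g : WithBot ℕ∞) + ringKrullDim (A ⧸ Module.annihilator A M) = ringKrullDim A) := by
  intro h
  obtain ⟨A, iA, iL, iN, I, hI, hres, h2, h3, hd, hA⟩ := Pool.Agent.Y217.GC.main
  have hnt : Nontrivial (A ⧸ I) := Ideal.Quotient.nontrivial_iff.2 hI
  have e : Module.annihilator A (A ⧸ I) = I := Ideal.annihilator_quotient
  have h4 := h A (A ⧸ I) hres 2 (by rw [e]; exact h2) (by rw [e]; exact h3)
  rw [e] at h4
  have h5 : (4 : WithBot ℕ∞) ≤ ((2 : ℕ) : WithBot ℕ∞) + 1 := by
    calc (4 : WithBot ℕ∞) ≤ ringKrullDim A := hA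
      _ = ((2 : ℕ) : WithBot ℕ∞) + ringKrullDim (A ⧸ I) := h4.symm
      _ ≤ ((2 : ℕ) : WithBot ℕ∞) + 1 := by gcongr
  have h6 : ((4 : ℕ) : WithBot ℕ∞) ≤ ((3 : ℕ) : WithBot ℕ∞) := by
    have e3 : ((2 : ℕ) : WithBot ℕ∞) + 1 = ((3 : ℕ) : WithBot ℕ∞) := by norm_num
    rw [← e3]
    exact_mod_cast h5
  have h7 : (4 : ℕ) ≤ 3 := by exact_mod_cast h6
  omega

end Pool.Agent.S00360
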