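import Pool.Statements.S00526
import Pool.Agent.Y234.PlaneLine

set_option autoImplicit false
open Pool Pool.MP_e9da60_ag

namespace Pool.Agent.S00526

/-- The negation of the preceding statement: For an analytically unramified Noetherian local ring of dimension d>0 and an m-primary ideal I, if length(R/closure(I^(n+1))) equals sum of (-1)^i e_i C(n+d-i,d-i) for large n, then e_1 is nonnegative. -/
theorem result :
    ¬ (∀ (R : Type) [CommRing R] [IsNoetherianRing R] [IsLocalRing R],
      IsReduced (AdicCompletion (IsLocalRing.maximalIdeal R) R) →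
      ∀ (d : ℕ), ringKrullDim R = (d : WithBot ℕ∞) → 0 < d →
      ∀ (I : Ideal R), I.radical = IsLocalRing.maximalIdeal R →
      ∀ (Ibar : ℕ → Ideal R),
        (∀ (n : ℕ) (x : R), x ∈ Ibar n ↔
          ∃ k : ℕ, 0 < k ∧ ∃ a : ℕ → R, (∀ j, a j ∈ (I ^ n) ^ j) ∧
            x ^ k + ∑ j ∈ Finset.range k, a (k - j) * x ^ j = 0) →
      ∀ (e : ℕ → ℚ),
        (∀ᶠ n in Filter.atTop, ∃ m : ℕ,
          Module.length R (R ⧸ Ibar (n + 1)) = (m : ℕ∞) ∧
          (m : ℚ) = ∑ i ∈ Finset.range (d + 1),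
            (-1 : ℚ) ^ i * e i * (((n + d - i).choose (d - i) : ℕ) : ℚ)) →
        0 ≤ e 1) := by
  intro h
  have hd : ringKrullDim Pool.Agent.Y234.PL.R = ((2 : ℕ) : WithBot ℕ∞) :=
    le_antisymm Pool.Agent.Y234.PL.dim_le_two Pool.Agent.Y234.PL.two_le_dim
  have h1 := h Pool.Agent.Y234.PL.R Pool.Agent.Y234.PL.isReduced_completion 2 hd (by norm_num)
    (IsLocalRing.maximalIdeal Pool.Agent.Y234.PL.R)
    (IsLocalRing.maximalIdeal.isMaximal _).isPrime.isRadical.radical
    Pool.Agent.Y234.PL.J (fun n x => (Pool.Agent.Y234.PL.integral_iff n x).symm)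
    (fun i => if i = 0 then 1 else -1)
    (Filter.Eventually.of_forall (fun n => by
      obtain ⟨m, hm, hm2⟩ := Pool.Agent.Y234.PL.length_J n
      refine ⟨m, hm, ?_⟩
      have h3 : (2 * (m : ℚ)) = n * n + 5 * n + 2 := by exact_mod_cast hm2
      rw [Finset.sum_range_succ, Finset.sum_range_succ, Finset.sum_range_one]
      have h4 : (((n + 2 - 0).choose (2 - 0) : ℕ) : ℚ) = (n + 2) * (n + 1) / 2 := by
        rw [Nat.cast_choose_two]
        push_cast
        ring
      have h5 : (((n + 2 - 1).choose (2 - 1) : ℕ) : ℚ) = n + 1 := by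
        norm_num
      have h6 : (((n + 2 - 2).choose (2 - 2) : ℕ) : ℚ) = 1 := by
        norm_num
      rw [h4, h5, h6]
      norm_num
      linarith))
  norm_num at h1

end Pool.Agent.S00526
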