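import Pool.Statements.S00541
import Pool.Agent.H737R3.Points

set_option autoImplicit false
open Pool Pool.MP_ef83ea_ag

namespace Pool.Agent.S00541

open MvPolynomial Pool.Agent.H737R3 in
theorem exists_form {N : ℕ} (hN : 1 ≤ N) (S : Finset (Fin (N + 1) → ℂ)) (m : ℕ) :
    ∃ f ∈ (⨅ p ∈ S, linI p ^ m : Ideal (MvPolynomial (Fin (N + 1)) ℂ)),
      f ≠ 0 ∧ f.IsHomogeneous (sInf {d : ℕ | ∃ f ∈ (⨅ p ∈ S, linI p ^ m :
        Ideal (MvPolynomial (Fin (N + 1)) ℂ)), f ≠ 0 ∧ f.totalDegree = d}) := by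
  classical
  have hne : {d : ℕ | ∃ f ∈ (⨅ p ∈ S, linI p ^ m : Ideal (MvPolynomial (Fin (N + 1)) ℂ)),
      f ≠ 0 ∧ f.totalDegree = d}.Nonempty := by
    choose l hl hl0 using fun p : Fin (N + 1) → ℂ => linI_ne_bot hN p
    refine ⟨_, ∏ p ∈ S, l p ^ m, ?_, Finset.prod_ne_zero_iff.2 fun p _ => pow_ne_zero _ (hl0 p),
      rfl⟩
    simp only [Submodule.mem_iInf]
    intro p hp
    rw [← Finset.mul_prod_erase _ _ hp]
    exact Ideal.mul_mem_right _ _ (Ideal.pow_mem_pow (hl p) _)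
  obtain ⟨F, hF, hF0, hFd⟩ := Nat.sInf_mem hne
  refine ⟨homogeneousComponent F.totalDegree F, ?_, top_component hF0, ?_⟩
  · simp only [Submodule.mem_iInf] at hF ⊢
    intro p hp
    exact component_mem p m (hF p hp) _
  · have := homogeneousComponent_isHomogeneous F.totalDegree F
    rwa [hFd] at this ⊢

/-- For any nonempty finite set of points in complex projective N-space (N at least 1) with ideal I, every m ≥ 1 satisfies alpha(I^(m))/m ≥ (alpha(I^(3)) + N - 1)/(N + 2), i.e. the Waldschmidt constant is at least that bound. -/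
theorem result :
    ∀ (N : ℕ), 1 ≤ N → ∀ S : Finset (Fin (N + 1) → ℂ), S.Nonempty → (∀ p ∈ S, p ≠ 0) →
      ∀ m : ℕ, 1 ≤ m →
        (((sInf {d : ℕ | ∃ f ∈ (⨅ p ∈ S,
              (Ideal.span (Set.range (fun ij : Fin (N + 1) × Fin (N + 1) =>
                (MvPolynomial.X ij.1 * MvPolynomial.C (p ij.2)
                  - MvPolynomial.X ij.2 * MvPolynomial.C (p ij.1) :
                  MvPolynomial (Fin (N + 1)) ℂ)))) ^ 3),
              f ≠ 0 ∧ f.totalDegree = d} : ℕ) : ℝ) + (N : ℝ) - 1) / ((N : ℝ) + 2)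
          ≤ ((sInf {d : ℕ | ∃ f ∈ (⨅ p ∈ S,
              (Ideal.span (Set.range (fun ij : Fin (N + 1) × Fin (N + 1) =>
                (MvPolynomial.X ij.1 * MvPolynomial.C (p ij.2)
                  - MvPolynomial.X ij.2 * MvPolynomial.C (p ij.1) :
                  MvPolynomial (Fin (N + 1)) ℂ)))) ^ m),
              f ≠ 0 ∧ f.totalDegree = d} : ℕ) : ℝ) / (m : ℝ) := by
  classical
  intro N hN S hS hS0 m hm
  have key : ∀ e : ℕ, (⨅ p ∈ S,
      (Ideal.span (Set.range (fun ij : Fin (N + 1) × Fin (N + 1) =>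
        (MvPolynomial.X ij.1 * MvPolynomial.C (p ij.2)
          - MvPolynomial.X ij.2 * MvPolynomial.C (p ij.1) :
            MvPolynomial (Fin (N + 1)) ℂ)))) ^ e) =
      ⨅ p ∈ S, Pool.Agent.H737R3.linI p ^ e := by
    intro e
    refine iInf_congr fun p => iInf_congr fun hp => ?_
    rw [Pool.Agent.H737R3.span_eq_linI (hS0 p hp)]
  simp only [key]
  obtain ⟨F, hF, hF0, hFh⟩ := exists_form hN S m
  generalize sInf {d : ℕ | ∃ f ∈ (⨅ p ∈ S, Pool.Agent.H737R3.linI p ^ m :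
        Ideal (MvPolynomial (Fin (N + 1)) ℂ)), f ≠ 0 ∧ f.totalDegree = d} = D at hFh ⊢
  have hlow : Pool.Agent.H737R3.LowW (S : Set (Fin (N + 1) → ℂ)) (fun v => 3 * (fun _ => 1) v)
      (sInf {d : ℕ | ∃ f ∈ (⨅ p ∈ S, Pool.Agent.H737R3.linI p ^ 3 :
        Ideal (MvPolynomial (Fin (N + 1)) ℂ)), f ≠ 0 ∧ f.totalDegree = d}) := by
    intro G d hG0 hG hGv
    apply Nat.sInf_le
    refine ⟨G, ?_, hG0, hG.totalDegree hG0⟩
    simp only [Submodule.mem_iInf]
    intro p hp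
    exact Pool.Agent.H737R3.mem_linI_pow hG (hS0 p hp) (hGv p hp)
  simp only [Submodule.mem_iInf] at hF
  obtain ⟨z, hz⟩ := hS
  have h := Pool.Agent.H737R3.demailly_fat ℂ N 3 _ m D (S : Set (Fin (N + 1) → ℂ)) (fun _ => 1) F
    hN (by norm_num) S.finite_toSet ⟨z, hz, le_rfl⟩ (fun v hv => hS0 v hv) hlow hF0 hFh
    (fun v hv => by
      rw [mul_one]
      exact Ideal.pow_right_mono (Pool.Agent.H737R3.linI_le_mI v) _ (hF v hv))
  have h2 := Pool.Agent.H737R3.real_of_nat hN (by norm_num : 1 ≤ 3) hm h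
  have e3 : (N : ℝ) + 2 = ((3 : ℕ) : ℝ) + N - 1 := by push_cast; ring
  rw [e3]
  exact h2

end Pool.Agent.S00541
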