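import Pool.Statements.S00566
import Pool.Agent.Results.MP_fa7d23_ag.NefNotB

set_option autoImplicit false
open Pool Pool.MP_fa7d23_ag

namespace Pool.Agent.S00566

open MvPolynomial Pool.Agent.Results.MP_fa7d23_ag.NefNotB

/-- `f` lies in a power of the ideal of a point with maximal exponent. -/
lemma exists_exact {k : Type} [Field k] (q : Fin 3 → k)
    (g : MvPolynomial (Fin 3) k) (hg : g ≠ 0) :
    ∃ c : ℕ, g ∈ pointIdeal q ^ c ∧ g ∉ pointIdeal q ^ (c + 1) := by
  classical
  have hne : pointIdeal q ≠ ⊤ := by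
    intro h
    have h1 : (1 : MvPolynomial (Fin 3) k) ∈ pointIdeal q := by rw [h]; trivial
    have hle : pointIdeal q ≤ RingHom.ker (eval q) := by
      unfold pointIdeal
      rw [Ideal.span_le]
      rintro _ ⟨ij, rfl⟩
      simp [RingHom.mem_ker, mul_comm]
    have := hle h1
    simp [RingHom.mem_ker] at this
  have hinf : (⨅ i : ℕ, pointIdeal q ^ i) = ⊥ := Ideal.iInf_pow_eq_bot_of_isDomain _ hne
  have hex : ∃ n : ℕ, g ∉ pointIdeal q ^ n := by
    by_contra hcon
    push Not at hcon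
    apply hg
    have : g ∈ (⨅ i : ℕ, pointIdeal q ^ i) := by
      rw [Ideal.mem_iInf]; exact hcon
    rw [hinf] at this
    simpa using this
  have h0 : Nat.find hex ≠ 0 := by
    intro h
    have := Nat.find_spec hex
    rw [h] at this
    simp at this
  refine ⟨Nat.find hex - 1, ?_, ?_⟩
  · by_contra hcon
    exact Nat.find_min hex (m := Nat.find hex - 1) (by omega) hcon
  · have := Nat.find_spec hex
    rwa [show Nat.find hex - 1 + 1 = Nat.find hex by omega]

lemma even_key {r : ℕ} (e : ℤ) (γ : Fin r → ℤ) :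
    (2 : ℤ) ∣ e ^ 2 - ∑ i, (γ i) ^ 2 - 3 * e + ∑ i, γ i := by
  have h1 : (2 : ℤ) ∣ e ^ 2 - 3 * e := by
    have := Int.even_mul_succ_self (e - 1)
    have h2 : e ^ 2 - 3 * e = (e - 1) * (e - 1 + 1) - 2 * e := by ring
    rw [h2]
    exact dvd_sub this.two_dvd (dvd_mul_right _ _)
  have h3 : (2 : ℤ) ∣ ∑ i, ((γ i) ^ 2 - γ i) := by
    apply Finset.dvd_sum
    intro i _
    have := Int.even_mul_succ_self (γ i - 1)
    have h2 : γ i ^ 2 - γ i = (γ i - 1) * (γ i - 1 + 1) := by ring
    rw [h2]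
    exact this.two_dvd
  have h4 : e ^ 2 - ∑ i, (γ i) ^ 2 - 3 * e + ∑ i, γ i =
      (e ^ 2 - 3 * e) - ∑ i, ((γ i) ^ 2 - γ i) := by
    rw [Finset.sum_sub_distrib]; ring
  rw [h4]
  exact dvd_sub h1 h3

/-- The negation of the preceding statement: For any r≥1 distinct points of the plane over an algebraically closed field and any effective nef L on the blow-up failing (B), some multiple mL has h^0(mL) equal to its Riemann–Roch value, i.e. h^1(mL)=0. -/
theorem result :
    ¬ (∀ (k : Type) [Field k] [IsAlgClosed k] (r : ℕ), 1 ≤ r →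
  ∀ (p : Fin r → Fin 3 → k),
    (∀ i, p i ≠ 0) →
    (∀ i j, i ≠ j → ∀ c : k, p i ≠ c • p j) →
  ∀ (d : ℕ) (a : Fin r → ℕ),
    (∃ f : MvPolynomial (Fin 3) k, f ≠ 0 ∧ f.IsHomogeneous d ∧
        ∀ i, f ∈ (Ideal.span (Set.range fun ab : Fin 3 × Fin 3 =>
            MvPolynomial.C (p i ab.1) * MvPolynomial.X ab.2
              - MvPolynomial.C (p i ab.2) * MvPolynomial.X ab.1) :
              Ideal (MvPolynomial (Fin 3) k)) ^ a i) →
    (∀ (e : ℕ) (g : MvPolynomial (Fin 3) k), g.IsHomogeneous e → Irreducible g →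
        ∀ μ : Fin r → ℕ,
          (∀ i, g ∈ (Ideal.span (Set.range fun ab : Fin 3 × Fin 3 =>
            MvPolynomial.C (p i ab.1) * MvPolynomial.X ab.2
              - MvPolynomial.C (p i ab.2) * MvPolynomial.X ab.1) :
              Ideal (MvPolynomial (Fin 3) k)) ^ μ i) →
          ∑ i, a i * μ i ≤ d * e) →
    (¬ ∃ (e : ℕ) (γ : Fin r → ℤ), (e ≠ 0 ∨ γ ≠ 0) ∧
        (∃ f : MvPolynomial (Fin 3) k, f ≠ 0 ∧ f.IsHomogeneous e ∧
          ∀ i, f ∈ (Ideal.span (Set.range fun ab : Fin 3 × Fin 3 =>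
            MvPolynomial.C (p i ab.1) * MvPolynomial.X ab.2
              - MvPolynomial.C (p i ab.2) * MvPolynomial.X ab.1) :
              Ideal (MvPolynomial (Fin 3) k)) ^ (γ i).toNat) ∧
        e ≤ d ∧
        (∃ f : MvPolynomial (Fin 3) k, f ≠ 0 ∧ f.IsHomogeneous (d - e) ∧
          ∀ i, f ∈ (Ideal.span (Set.range fun ab : Fin 3 × Fin 3 =>
            MvPolynomial.C (p i ab.1) * MvPolynomial.X ab.2
              - MvPolynomial.C (p i ab.2) * MvPolynomial.X ab.1) :
              Ideal (MvPolynomial (Fin 3) k)) ^ ((a i : ℤ) - γ i).toNat) ∧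
        (e : ℤ) ^ 2 - ∑ i, (γ i) ^ 2 - 3 * (e : ℤ) + ∑ i, γ i > -2 ∧
        (d : ℤ) * (e : ℤ) - ∑ i, (a i : ℤ) * γ i = 0) →
    ∃ m : ℕ, 1 ≤ m ∧
      2 * (Module.finrank k
        ↥(MvPolynomial.homogeneousSubmodule (Fin 3) k (m * d) ⊓
          ⨅ i, Submodule.restrictScalars k
            ((Ideal.span (Set.range fun ab : Fin 3 × Fin 3 =>
              MvPolynomial.C (p i ab.1) * MvPolynomial.X ab.2
                - MvPolynomial.C (p i ab.2) * MvPolynomial.X ab.1) :
                Ideal (MvPolynomial (Fin 3) k)) ^ (m * a i))) : ℤ)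
        = 2 + ((m * d : ℕ) : ℤ) ^ 2 - ∑ i, ((m * a i : ℕ) : ℤ) ^ 2
            + 3 * ((m * d : ℕ) : ℤ) - ∑ i, ((m * a i : ℕ) : ℤ)) := by
  intro H
  obtain ⟨p, hdist, heff, hnef, hB, hh1⟩ :=
    Pool.Agent.Results.MP_fa7d23_ag.NefNotB.result ℂ
  refine Exists.elim (H ℂ 15 (by norm_num) p hdist.1 hdist.2 4 (fun _ => 1) ?_ ?_ ?_) ?_
  rotate_left 3
  · -- contradiction with positivity of `h¹`
    rintro m ⟨hm, hmeq⟩
    have h := hh1 m hm
    have hcls : m • ((4, fun _ => 1) : Cls 15) = (((4 * m : ℕ) : ℤ), fun _ => ((m : ℕ) : ℤ)) :=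
      smul_L15 m
    rw [hcls] at h
    have hsup := h1_eq_superabundance p (4 * m) (fun _ => m)
    have k1 := key_choose (4 * m + 1)
    have k2 := key_choose m
    rw [hsup] at h
    have hH0 : H0 p (((4 * m : ℕ) : ℤ), fun _ => ((m : ℕ) : ℤ)) =
        (MvPolynomial.homogeneousSubmodule (Fin 3) ℂ (m * 4) ⊓
          ⨅ i, Submodule.restrictScalars ℂ
            ((Ideal.span (Set.range fun ab : Fin 3 × Fin 3 =>
              MvPolynomial.C (p i ab.1) * MvPolynomial.X ab.2
                - MvPolynomial.C (p i ab.2) * MvPolynomial.X ab.1) :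
                Ideal (MvPolynomial (Fin 3) ℂ)) ^ (m * 1))) := by
      unfold H0
      rw [if_pos (by positivity)]
      simp only [Int.toNat_natCast, mul_one, mul_comm 4 m]
      rfl
    have hmeq' : 2 * (Module.finrank ℂ (H0 p (((4 * m : ℕ) : ℤ), fun _ => ((m : ℕ) : ℤ))) : ℤ) =
        2 + ((m * 4 : ℕ) : ℤ) ^ 2 - ∑ _i : Fin 15, ((m * 1 : ℕ) : ℤ) ^ 2
            + 3 * ((m * 4 : ℕ) : ℤ) - ∑ _i : Fin 15, ((m * 1 : ℕ) : ℤ) := by
      rw [hH0]; exact hmeq
    generalize (Module.finrank ℂ (H0 p (((4 * m : ℕ) : ℤ), fun _ => ((m : ℕ) : ℤ))) : ℤ) = F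
      at h hmeq'
    simp only [Finset.sum_const, Finset.card_univ, Fintype.card_fin] at h hmeq'
    push_cast at h hmeq' k1 k2
    have : ((4 * m + 1 + 1).choose 2 : ℤ) = ((4 * m + 2).choose 2 : ℤ) := by norm_num
    rw [this] at k1
    simp only [nsmul_eq_mul] at h hmeq'
    push_cast at h hmeq'
    nlinarith
  · -- effectivity
    obtain ⟨G, hG, hG0⟩ := Submodule.exists_mem_ne_zero_of_ne_bot heff
    rw [mem_H0 _ _ _ hG0] at hG
    exact ⟨G, hG0, hG.2.1, fun i => hG.2.2 i⟩
  · -- nefness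
    intro e g hg hirr μ hμ
    have hex : ∀ i, ∃ c : ℕ, g ∈ pointIdeal (p i) ^ c ∧ g ∉ pointIdeal (p i) ^ (c + 1) :=
      fun i => exists_exact (p i) g hirr.ne_zero
    choose c hc using hex
    have h := hnef.2 e g c hg hirr hc
    have hle : ∀ i, μ i ≤ c i := by
      intro i
      by_contra hlt
      push Not at hlt
      exact (hc i).2 (Ideal.pow_le_pow_right (by omega) (hμ i))
    have hs : ∑ i, μ i ≤ ∑ i, c i := Finset.sum_le_sum fun i _ => hle i
    simp only [inter, one_mul] at h ⊢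
    have h' : ((∑ i, c i : ℕ) : ℤ) ≤ ((4 * e : ℕ) : ℤ) := by push_cast; linarith
    have h'' : ∑ i, c i ≤ 4 * e := by exact_mod_cast h'
    omega
  · -- condition (B)
    rintro ⟨e, γ, hne, ⟨f, hf0, hfh, hfm⟩, hed, ⟨f', hf'0, hf'h, hf'm⟩, hpa, hint⟩
    apply hB
    refine ⟨((e : ℤ), γ), ?_, ?_, ?_, ?_, ?_⟩
    · intro h
      rw [Prod.mk_eq_zero] at h
      rcases hne with h1 | h1
      · exact h1 (by exact_mod_cast h.1)
      · exact h1 h.2
    · intro h
      have : f ∈ H0 p ((e : ℤ), γ) := by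
        rw [mem_H0 _ _ _ hf0]
        exact ⟨by positivity, by simpa using hfh, fun i => hfm i⟩
      rw [h] at this
      exact hf0 (by simpa using this)
    · intro h
      have : f' ∈ H0 p ((4, fun _ => 1) - ((e : ℤ), γ)) := by
        rw [mem_H0 _ _ _ hf'0]
        refine ⟨?_, ?_, fun i => ?_⟩
        · simp only [Prod.fst_sub]
          have : (e : ℤ) ≤ 4 := by exact_mod_cast hed
          linarith
        · simp only [Prod.fst_sub]
          have : ((4 : ℤ) - (e : ℤ)).toNat = 4 - e := by omega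
          rw [this]
          exact hf'h
        · have := hf'm i
          simpa [pointIdeal] using this
      rw [h] at this
      exact hf'0 (by simpa using this)
    · have hev := even_key (e : ℤ) γ
      obtain ⟨z, hz⟩ := hev
      have : inter ((e : ℤ), γ) ((e : ℤ), γ) + inter (canon 15) ((e : ℤ), γ) = 2 * z := by
        rw [← hz]
        simp only [inter, canon, neg_mul, one_mul, Finset.sum_neg_distrib]
        have : ∑ i, γ i * γ i = ∑ i, γ i ^ 2 := Finset.sum_congr rfl fun i _ => by ring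
        rw [this]
        ring
      unfold pa
      rw [this, Int.mul_ediv_cancel_left _ (by norm_num)]
      rw [hz] at hpa
      omega
    · simp only [inter, one_mul]
      simp only [Nat.cast_one, one_mul] at hint
      push_cast at hint
      linarith

end Pool.Agent.S00566
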