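import Pool.Statements.S00609
import Pool.Agent.Y39.BinTree

set_option autoImplicit false
open Pool Pool.MP_042d8e_al

namespace Pool.Agent.S00609

/-- There is a branch group (faithful, level-transitive on a locally finite rooted tree, finite-index rigid level stabilizers) with infinitely many pairwise inequivalent descending sequences of finite-index normal subgroups with trivial intersection. -/
theorem result :
    ∃ (G : Type) (_ : Group G) (V : Type) (_ : MulAction G V) (lev : V → ℕ) (par : V → V),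
      (∀ v w : V, lev v = 0 → lev w = 0 → v = w) ∧
      (∃ v : V, lev v = 0) ∧
      (∀ w : V, lev w = 0 → par w = w) ∧
      (∀ w : V, lev w ≠ 0 → lev (par w) + 1 = lev w) ∧
      (∀ n : ℕ, {v : V | lev v = n}.Finite) ∧
      (∀ v : V, ∃ w₁ w₂ : V, w₁ ≠ w₂ ∧ par w₁ = v ∧ par w₂ = v ∧
          lev w₁ = lev v + 1 ∧ lev w₂ = lev v + 1) ∧
      (∀ (g : G) (w : V), lev (g • w) = lev w ∧ par (g • w) = g • par w) ∧
      (∀ g : G, (∀ v : V, g • v = v) → g = 1) ∧
      (∀ v w : V, lev v = lev w → ∃ g : G, g • v = w) ∧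
      (∀ n : ℕ, (Subgroup.closure {g : G | ∃ v : V, lev v = n ∧
          ∀ w : V, (∀ k : ℕ, par^[k] w ≠ v) → g • w = w}).FiniteIndex) ∧
      ∃ M : ℕ → ℕ → Subgroup G,
        (∀ a : ℕ, Antitone (M a) ∧ (∀ i : ℕ, (M a i).Normal ∧ (M a i).FiniteIndex) ∧
            (⨅ i : ℕ, M a i) = ⊥) ∧
        (∀ a b : ℕ, a ≠ b →
            ¬ ((∀ i : ℕ, ∃ j : ℕ, M b j ≤ M a i) ∧ (∀ i : ℕ, ∃ j : ℕ, M a j ≤ M b i))) := by
  classical
  open Pool.Agent.Y39.BinTree in
  refine ⟨Aut, inferInstance, List Bool, inferInstance, List.length, List.tail, ?_, ?_, ?_, ?_, ?_,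
    ?_, ?_, ?_, ?_, ?_, fun a i => St i ⊓ KU (UU a), ?_, ?_⟩
  · intro v w hv hw
    rw [List.length_eq_zero_iff.1 hv, List.length_eq_zero_iff.1 hw]
  · exact ⟨[], rfl⟩
  · intro w hw
    rw [List.length_eq_zero_iff.1 hw]
    rfl
  · intro w hw
    rw [List.length_tail]
    omega
  · intro n
    exact List.finite_length_eq Bool n
  · intro v
    exact ⟨true :: v, false :: v, by simp, rfl, rfl, rfl, rfl⟩
  · intro g w
    exact ⟨length_smul g w, tail_smul g w⟩
  · intro g hg
    apply ext_smul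
    intro v
    rw [hg, one_smul]
  · intro v w hvw
    exact exists_smul_eq v w hvw
  · intro n
    exact Subgroup.finiteIndex_of_le (St_le_closure n)
  · intro a
    refine ⟨?_, fun i => ⟨inferInstance, inferInstance⟩, ?_⟩
    · intro i j hij
      exact inf_le_inf_right _ (St_anti hij)
    · rw [eq_bot_iff, ← iInf_St]
      exact le_iInf fun i => (iInf_le _ i).trans inf_le_left
  · rintro a b hab ⟨h1, -⟩
    obtain ⟨j, hj⟩ := h1 0
    exact separated a b hab j (hj.trans inf_le_right)

end Pool.Agent.S00609
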