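import Pool.Statements.S00753
import Pool.Agent.Y681.Para.Assemble

set_option autoImplicit false
open Pool Pool.MP_104382_al

namespace Pool.Agent.S00753

/-- The open unit square in the plane can be split into finitely many pairwise disjoint pieces forming two groups, and each group can be moved by determinant-one real linear maps so that its images exactly cover the square again. -/
theorem result :
    ∃ (n m : ℕ) (A : Fin n → Set (Fin 2 → ℝ)) (B : Fin m → Set (Fin 2 → ℝ))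
      (g : Fin n → Matrix.SpecialLinearGroup (Fin 2) ℝ)
      (h : Fin m → Matrix.SpecialLinearGroup (Fin 2) ℝ),
      (∀ i, A i ⊆ {v : Fin 2 → ℝ | ∀ k, 0 < v k ∧ v k < 1}) ∧
      (∀ j, B j ⊆ {v : Fin 2 → ℝ | ∀ k, 0 < v k ∧ v k < 1}) ∧
      Pairwise (fun i i' => Disjoint (A i) (A i')) ∧
      Pairwise (fun j j' => Disjoint (B j) (B j')) ∧
      (∀ i j, Disjoint (A i) (B j)) ∧
      (⋃ i, (fun v => Matrix.mulVec ((g i : Matrix (Fin 2) (Fin 2) ℝ)) v) '' A i)
        = {v : Fin 2 → ℝ | ∀ k, 0 < v k ∧ v k < 1} ∧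
      (⋃ j, (fun v => Matrix.mulVec ((h j : Matrix (Fin 2) (Fin 2) ℝ)) v) '' B j)
        = {v : Fin 2 → ℝ | ∀ k, 0 < v k ∧ v k < 1} := by
  classical
  obtain ⟨D, d, h1, h2⟩ := Pool.Agent.Y681.Para.full
  let e := D.equivFin.symm
  let P : Bool → Fin D.card → Set (Fin 2 → ℝ) := fun b k =>
    {x | ∃ v : Fin 2 → ℝ, (∀ i, 0 < v i ∧ v i < 1) ∧ d v b = (e k).1 ∧ x = (d v b).1.mulVec v}
  have hsub : ∀ b k, P b k ⊆ {v : Fin 2 → ℝ | ∀ k, 0 < v k ∧ v k < 1} := by
    rintro b k x ⟨v, hv, hd, rfl⟩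
    exact (h1 v hv b).2
  have hdisj : ∀ b, Pairwise (fun i i' => Disjoint (P b i) (P b i')) := by
    intro b i j hij
    rw [Set.disjoint_left]
    rintro x ⟨v, hv, hd, hx⟩ ⟨w, hw, hd', hx'⟩
    have h3 := (h2 v hv w hw b b (hx.symm.trans hx')).1
    subst h3
    rw [hd] at hd'
    exact hij (e.injective (Subtype.ext hd'))
  have hcross : ∀ i j, Disjoint (P false i) (P true j) := by
    intro i j
    rw [Set.disjoint_left]
    rintro x ⟨v, hv, hd, hx⟩ ⟨w, hw, hd', hx'⟩
    have h3 := (h2 v hv w hw false true (hx.symm.trans hx')).2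
    exact absurd h3 (by decide)
  have himg : ∀ b, (⋃ i, (fun v => Matrix.mulVec ((((e i).1⁻¹ : Matrix.SpecialLinearGroup (Fin 2) ℝ) :
      Matrix (Fin 2) (Fin 2) ℝ)) v) '' P b i) = {v : Fin 2 → ℝ | ∀ k, 0 < v k ∧ v k < 1} := by
    intro b
    ext w
    simp only [Set.mem_iUnion, Set.mem_image, Set.mem_setOf_eq]
    constructor
    · rintro ⟨i, x, ⟨v, hv, hd, rfl⟩, rfl⟩
      have : Matrix.mulVec ((((e i).1⁻¹ : Matrix.SpecialLinearGroup (Fin 2) ℝ) :
          Matrix (Fin 2) (Fin 2) ℝ)) ((d v b).1.mulVec v) = v := by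
        rw [hd]
        have h4 := Pool.Agent.Y681.Para.sl_mul ((e i).1⁻¹) ((e i).1) v
        rw [inv_mul_cancel, Pool.Agent.Y681.Para.sl_one] at h4
        exact h4.symm
      rw [this]
      exact hv
    · intro hw
      refine ⟨e.symm ⟨d w b, (h1 w hw b).1⟩, (d w b).1.mulVec w, ⟨w, hw, ?_, rfl⟩, ?_⟩
      · rw [Equiv.apply_symm_apply]
      · rw [Equiv.apply_symm_apply]
        have h4 := Pool.Agent.Y681.Para.sl_mul ((d w b)⁻¹) (d w b) w
        rw [inv_mul_cancel, Pool.Agent.Y681.Para.sl_one] at h4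
        exact h4.symm
  exact ⟨D.card, D.card, P false, P true, fun i => (e i).1⁻¹, fun i => (e i).1⁻¹,
    hsub false, hsub true, hdisj false, hdisj true, hcross, himg false, himg true⟩

end Pool.Agent.S00753
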