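import Pool.Statements.S00777
import Pool.Agent.Y25.Asc

set_option autoImplicit false
open Pool Pool.MP_1358e2_al

/-!
The group is `⟨a, t ∣ t² a t⁻² = [a, t a t⁻¹]⟩`. It is an ascending HNN extension of the free group on
`a`, `t a t⁻¹`, hence residually finite, and `a` lies in every term of the derived series.
-/

namespace Pool.Agent.S00777

theorem result :
    ∃ (n : ℕ) (r : FreeGroup (Fin n)),
      (∀ g : PresentedGroup ({r} : Set (FreeGroup (Fin n))), g ≠ 1 →
        ∃ N : Subgroup (PresentedGroup ({r} : Set (FreeGroup (Fin n)))),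
          N.Normal ∧ N.FiniteIndex ∧ g ∉ N) ∧
      ∃ g : PresentedGroup ({r} : Set (FreeGroup (Fin n))), g ≠ 1 ∧
        ∀ k : ℕ, g ∈ derivedSeries (PresentedGroup ({r} : Set (FreeGroup (Fin n)))) k :=
  ⟨2, Pool.Agent.Y25.Asc.rel, Pool.Agent.Y25.Asc.rf, Pool.Agent.Y25.Asc.a,
    Pool.Agent.Y25.Asc.a_ne_one, Pool.Agent.Y25.Asc.a_mem⟩

end Pool.Agent.S00777
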