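import Pool.Statements.S00830
import Pool.Agent.Y35.PD.Conc

set_option autoImplicit false
open Pool Pool.MP_196888_al

namespace Pool.Agent.S00830

/-- The negation of the preceding statement: For every group G, every m ≥ 2 and every lattice isomorphism φ from the subgroups of G^m to the subgroups of a group H such that H is the internal direct product of the images of the coordinate subgroups, the image of the first coordinate subgroup is isomorphic to G. -/
theorem result :
    ¬ (∀ (G : Type) [Group G] (n : ℕ) (H : Type) [Group H]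
      (φ : Subgroup (Fin (n + 2) → G) ≃o Subgroup H),
      (∀ i : Fin (n + 2),
          (φ (MonoidHom.mulSingle (fun _ : Fin (n + 2) => G) i).range).Normal) →
      (⨆ i : Fin (n + 2), φ (MonoidHom.mulSingle (fun _ : Fin (n + 2) => G) i).range) = ⊤ →
      iSupIndep (fun i : Fin (n + 2) =>
          φ (MonoidHom.mulSingle (fun _ : Fin (n + 2) => G) i).range) →
      Nonempty (↥(φ (MonoidHom.mulSingle (fun _ : Fin (n + 2) => G) 0).range) ≃* G)) := by
  intro h
  have key := h Pool.Agent.Y35.PD.G1 0 (Fin (0 + 2) → Pool.Agent.Y35.PD.G2)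
    (Pool.Agent.Y35.PD.tw.iso (Fin (0 + 2)))
    (fun i => by
      rw [Pool.Agent.Y35.PD.Tw.iso_range]
      exact Pool.Agent.Y35.PD.Tw.range_normal _ i)
    (by
      simp_rw [Pool.Agent.Y35.PD.Tw.iso_range]
      exact Pool.Agent.Y35.PD.Tw.range_sup _)
    (by
      simp_rw [Pool.Agent.Y35.PD.Tw.iso_range]
      exact Pool.Agent.Y35.PD.Tw.range_indep _)
  obtain ⟨e⟩ := key
  apply Pool.Agent.Y35.PD.not_iso
  exact ⟨((MonoidHom.ofInjective
    (f := MonoidHom.mulSingle (fun _ : Fin (0 + 2) => Pool.Agent.Y35.PD.G2) 0)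
    (Pi.mulSingle_injective (M := fun _ : Fin (0 + 2) => Pool.Agent.Y35.PD.G2) 0)).trans
    (MulEquiv.subgroupCongr (Pool.Agent.Y35.PD.Tw.iso_range Pool.Agent.Y35.PD.tw 0).symm)).trans e⟩

end Pool.Agent.S00830
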