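import Pool.Statements.S00878
import Pool.Agent.Y49.NubNotProduct

set_option autoImplicit false
open scoped Pointwise
open Pool Pool.MP_1dd661_al

namespace Pool.Agent.S00878

/-- The negation of the preceding statement: For a t.d.l.c. group G and a finitely generated flat group H of topological automorphisms, there are finitely many distinct elements of H whose nubs multiply, as sets, to the nub of H. -/
theorem result :
    ¬ (∀ (G : Type) [Group G] [TopologicalSpace G] [IsTopologicalGroup G]
      [LocallyCompactSpace G] [TotallyDisconnectedSpace G]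
      (H : Subgroup (MulAut G)) (tidy : MulAut G → Subgroup G → Prop),
      (∀ (a : MulAut G) (U : Subgroup G), tidy a U ↔
          ((U : Set G) =
              (⋂ n : ℕ, Set.image (⇑(a ^ n)) (U : Set G)) *
                (⋂ n : ℕ, Set.image (⇑(a⁻¹ ^ n)) (U : Set G)) ∧
            IsClosed (⋃ m : ℕ, Set.image (⇑(a ^ m))
                (⋂ n : ℕ, Set.image (⇑(a ^ n)) (U : Set G))))) →
      (∀ a ∈ H, Continuous (⇑a)) →
      H.FG →
      (∃ U : Subgroup G, IsCompact (U : Set G) ∧ IsOpen (U : Set G) ∧
          ∀ a ∈ H, tidy a U) →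
      ∃ l : List (MulAut G), l.Nodup ∧ (∀ a ∈ l, a ∈ H) ∧
        (⋂ (U : Subgroup G)
            (_ : IsCompact (U : Set G) ∧ IsOpen (U : Set G) ∧ ∀ a ∈ H, tidy a U),
            (U : Set G)) =
          (l.map (fun a => ⋂ (U : Subgroup G)
              (_ : IsCompact (U : Set G) ∧ IsOpen (U : Set G) ∧ tidy a U),
              (U : Set G))).prod) := by
  intro h
  obtain ⟨l, _, hl, heq⟩ := h Pool.Agent.Y49.NubNotProduct.G Pool.Agent.Y49.NubNotProduct.HH
    Pool.Agent.Y49.NubNotProduct.Tidy (fun _ _ => Iff.rfl)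
    Pool.Agent.Y49.NubNotProduct.HH_continuous Pool.Agent.Y49.NubNotProduct.HH_fg
    ⟨⊤, isCompact_univ, isOpen_univ, fun A _ => Pool.Agent.Y49.NubNotProduct.top_tidy A⟩
  exact Pool.Agent.Y49.NubNotProduct.main l hl heq

end Pool.Agent.S00878
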