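import Pool.Statements.S00905
import Pool.Agent.Y49.ZariskiProd

set_option autoImplicit false
open Pool Pool.MP_207b86_al

namespace Pool.Agent.S00905

/-- There is an infinite group whose Zariski topology is both compact and Hausdorff. The closed sets of that topology are generated by solution sets of one-variable equations with constants from the group. -/
theorem result :
    ∃ (G : Type) (_ : Group G) (T : TopologicalSpace G),
      Infinite G ∧
      T = TopologicalSpace.generateFrom
        {U : Set G | ∃ w : Monoid.Coprod G (FreeGroup Unit),
          U = {g : G | Monoid.Coprod.lift (MonoidHom.id G) (FreeGroup.lift (fun _ => g)) w = 1}ᶜ} ∧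
      @CompactSpace G T ∧ @T2Space G T := by
  refine ⟨Pool.Agent.Y49.ZariskiProd.G, inferInstance, inferInstance,
    Pool.Agent.Y49.ZariskiProd.infinite_G,
    Pool.Agent.Y49.ZariskiProd.zariski_free_eq.symm, inferInstance, inferInstance⟩

end Pool.Agent.S00905
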