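import Pool.Statements.S00938
import Pool.Agent.Y938.AQ.Asm
import Pool.Agent.Y938.AQ.Top
import Pool.Agent.Y938.AQ.Pol
import Pool.Agent.Y938.AQ.Bump
import Pool.Agent.Y938.AQ.Hom
import Pool.Agent.Y938.AQ.NotOB
import Pool.Agent.Y938.AQ.Weak
import Pool.Agent.Y938.AQ.Mazur
import Pool.Agent.Y938.AQ.Bdd
import Pool.Agent.Y938.AQ.FixV
import Pool.Agent.Y938.AQ.Fin

set_option autoImplicit false
open Pool Pool.MP_23009a_al

namespace Pool.Agent.S00938

/-- The negation of the preceding statement: For every non-Archimedean Polish group G: all continuous isometric actions of G on metric spaces have bounded orbits if and only if every continuous affine isometric action of G on a reflexive real Banach space has a fixed point. -/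
theorem result :
    ¬ (∀ (G : Type) [Group G] [TopologicalSpace G] [NonarchimedeanGroup G] [PolishSpace G],
      (∀ (X : Type) [MetricSpace X] (ρ : G →* (X ≃ᵢ X)),
          (∀ x : X, Continuous (fun g : G => ρ g x)) →
          ∀ x : X, Bornology.IsBounded (Set.range (fun g : G => ρ g x)))
      ↔
      (∀ (E : Type) [NormedAddCommGroup E] [NormedSpace ℝ E] [CompleteSpace E],
          Function.Surjective (NormedSpace.inclusionInDoubleDual ℝ E) →
          ∀ ρ : G →* (E ≃ᵃⁱ[ℝ] E),
            (∀ v : E, Continuous (fun g : G => ρ g v)) →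
            ∃ v : E, ∀ g : G, ρ g v = v)) := by
  have hhom := Y938.AQ.hom_spec Y938.AQ.bump_spec
  have hdense := Y938.AQ.dense_spec Y938.AQ.nhd_spec hhom
  have hfix := Y938.AQ.fixV_spec Y938.AQ.nhd_spec Y938.AQ.bump_spec
    (Y938.AQ.bdd_spec Y938.AQ.nhd_spec Y938.AQ.bump_spec hhom) hdense Y938.AQ.wlim_spec Y938.AQ.wuniq_spec
    Y938.AQ.wnear_spec Y938.AQ.wmap_spec
  exact Y938.AQ.asm_spec Y938.AQ.na_spec Y938.AQ.pol_spec (Y938.AQ.notOB_spec Y938.AQ.ev_spec)
    (Y938.AQ.fin_spec hhom hdense hfix Y938.AQ.wlim_spec Y938.AQ.wuniq_spec Y938.AQ.wmap_spec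
      Y938.AQ.amap_spec Y938.AQ.mazur_spec Y938.AQ.bump_spec)

end Pool.Agent.S00938
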