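import Pool.Statements.S00971
import Pool.Agent.Y208.BH.Final

set_option autoImplicit false
open Pool Pool.MP_24fec0_al

namespace Pool.Agent.S00971

/-- Every finitely presented group with decidable word problem embeds in a finitely presented group acting faithfully on ℕ with finitely many orbits on k-tuples for each k, and finitely generated pointwise stabilizers of finite sets. -/
theorem result :
    ∀ (n : ℕ) (rels : Finset (FreeGroup (Fin n))),
      ComputablePred (fun w : List (Fin n × Bool) =>
        PresentedGroup.mk (rels : Set (FreeGroup (Fin n))) (FreeGroup.mk w) = 1) →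
      ∃ (m : ℕ) (rels' : Finset (FreeGroup (Fin m)))
        (φ : PresentedGroup (rels : Set (FreeGroup (Fin n))) →*
              PresentedGroup (rels' : Set (FreeGroup (Fin m))))
        (ρ : PresentedGroup (rels' : Set (FreeGroup (Fin m))) →* Equiv.Perm ℕ),
        Function.Injective φ ∧ Function.Injective ρ ∧
        (∀ k : ℕ, (Set.range (fun x : Fin k → ℕ =>
            {y : Fin k → ℕ | ∃ h : PresentedGroup (rels' : Set (FreeGroup (Fin m))),
              y = fun i => ρ h (x i)})).Finite) ∧
        ∀ F : Finset ℕ,
          ((⨅ a ∈ F, MulAction.stabilizer (Equiv.Perm ℕ) a).comap ρ).FG := by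
  intro n rels hwp
  exact Pool.Agent.Results.MP_24fec0_al.TypeAOligomorphic.three_imp_two _
    (Pool.Agent.Results.MP_24fec0_al.TypeAOligomorphic.one_imp_three _
      (Y208.BH.typeA n rels hwp))

end Pool.Agent.S00971
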