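import Pool.Statements.S01012
import Mathlib

set_option autoImplicit false
open Pool Pool.MP_293fae_al

namespace Pool.Agent.S01012

/-!
The ring `R` is the localization of `ℤ[i][X]` at the maximal ideal `(1 + i, X)`. As `-1` is a
square and `2` is invertible in the fraction field `K`, every element of `K` is a sum of two
squares. The element `2 X = (1 + X)² + i² + (i X)²` of `R` is a sum of squares but not a sum of two
squares of elements of `R`.
-/

open Polynomial

/-- The imaginary unit. -/
def I : GaussianInt := ⟨0, 1⟩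

/-- The prime `1 + i`. -/
def π : GaussianInt := ⟨1, 1⟩

theorem I_sq : I * I = -1 := by decide

theorem pi_sq : π * π = 2 * I := by decide

/-- The reduction modulo `1 + i`. -/
def ψ : GaussianInt →+* ZMod 2 := Zsqrtd.lift ⟨1, by decide⟩

theorem psi_apply (z : GaussianInt) : ψ z = (z.re : ZMod 2) + (z.im : ZMod 2) := by
  simp [ψ, Zsqrtd.lift]

theorem ker_psi : RingHom.ker ψ = Ideal.span {π} := by
  ext z
  rw [RingHom.mem_ker, psi_apply, Ideal.mem_span_singleton]
  constructor
  · intro h
    have h1 : ((z.re + z.im : ℤ) : ZMod 2) = 0 := by push_cast; exact h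
    rw [ZMod.intCast_zmod_eq_zero_iff_dvd] at h1
    obtain ⟨k, hk⟩ := h1
    refine ⟨⟨k, z.im - k⟩, ?_⟩
    ext
    · rw [Zsqrtd.re_mul]
      simp only [π]
      push_cast at hk
      linarith
    · rw [Zsqrtd.im_mul]
      simp only [π]
      ring
  · rintro ⟨w, rfl⟩
    have h2 : ψ (π * w) = 0 := by
      rw [map_mul, psi_apply π]
      have : ((π.re : ℤ) : ZMod 2) + ((π.im : ℤ) : ZMod 2) = 0 := by decide
      rw [this, zero_mul]
    rw [psi_apply] at h2
    exact h2

/-- The polynomial ring `ℤ[i][X]`. -/
abbrev P : Type := GaussianInt[X]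

/-- Evaluation at `X = 0` modulo `1 + i`. -/
noncomputable def θ : P →+* ZMod 2 := ψ.comp (evalRingHom 0)

theorem theta_apply (p : P) : θ p = ψ (p.coeff 0) := by
  simp [θ, coeff_zero_eq_eval_zero]

/-- The maximal ideal `(1 + i, X)`. -/
noncomputable def m : Ideal P := RingHom.ker θ

instance m_prime : m.IsPrime := RingHom.ker_isPrime θ

theorem theta_surj : Function.Surjective θ := by
  intro a
  have : a = 0 ∨ a = 1 := by revert a; decide
  rcases this with rfl | rfl
  · exact ⟨0, map_zero _⟩
  · exact ⟨1, map_one _⟩

instance m_max : m.IsMaximal := RingHom.ker_isMaximal_of_surjective θ theta_surj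

theorem m_eq : m = Ideal.span {C π, X} := by
  ext p
  rw [m, RingHom.mem_ker, theta_apply]
  constructor
  · intro h
    have h1 : p.coeff 0 ∈ RingHom.ker ψ := h
    rw [ker_psi, Ideal.mem_span_singleton] at h1
    obtain ⟨w, hw⟩ := h1
    rw [← divX_mul_X_add p, hw, C_mul]
    apply Ideal.add_mem
    · exact Ideal.mul_mem_left _ _ (Ideal.subset_span (by simp))
    · exact Ideal.mul_mem_right _ _ (Ideal.subset_span (by simp))
  · intro h
    have h1 : Ideal.span {C π, X} ≤ RingHom.ker θ := by
      rw [Ideal.span_le]
      rintro x hx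
      simp only [Set.mem_insert_iff, Set.mem_singleton_iff] at hx
      rcases hx with rfl | rfl
      · show θ _ = 0
        rw [theta_apply, coeff_C_zero, psi_apply]
        decide
      · show θ _ = 0
        rw [theta_apply, coeff_X_zero, map_zero]
    have h2 := h1 h
    rw [RingHom.mem_ker, theta_apply] at h2
    exact h2

/-- The two-dimensional regular local ring. -/
abbrev R : Type := Localization.AtPrime m

theorem max_eq : IsLocalRing.maximalIdeal R =
    Ideal.span {algebraMap P R (C π), algebraMap P R X} := by
  rw [← Localization.AtPrime.map_eq_maximalIdeal]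
  have h : (Ideal.span {C π, X} : Ideal P).map (algebraMap P R) =
      Ideal.span {algebraMap P R (C π), algebraMap P R X} := by
    rw [Ideal.map_span, Set.image_pair]
  rw [← h, ← m_eq]

theorem height_m : m.height = 2 := by
  apply le_antisymm
  · have h1 : (m.height : WithBot ℕ∞) ≤ ringKrullDim P := Ideal.height_le_ringKrullDim_of_ne_top
      m_prime.ne_top
    have h2 : ringKrullDim P = 2 := by
      have h3 : ringKrullDim P = ringKrullDim GaussianInt + 1 :=
        Polynomial.ringKrullDim_of_isNoetherianRing
      rw [h3]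
      have h4 : ringKrullDim GaussianInt = 1 := by
        apply IsPrincipalIdealRing.ringKrullDim_eq_one
        intro hf
        obtain ⟨y, hy⟩ := hf.mul_inv_cancel (a := (2 : GaussianInt)) (by decide)
        have := congrArg Zsqrtd.re hy
        rw [Zsqrtd.re_mul] at this
        simp at this
        omega
      rw [h4]
      norm_num
    rw [h2] at h1
    exact WithBot.coe_le_coe.1 h1
  · have hX : (Ideal.span {X} : Ideal P).IsPrime := by
      rw [Ideal.span_singleton_prime X_ne_zero]
      exact prime_X
    have h1 : (⊥ : Ideal P) < Ideal.span {X} := by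
      rw [bot_lt_iff_ne_bot, Ne, Ideal.span_singleton_eq_bot]
      exact X_ne_zero
    have h2 : Ideal.span {X} < m := by
      rw [m_eq]
      constructor
      · apply Ideal.span_mono
        simp
      · intro h
        have h3 : C π ∈ Ideal.span {(X : P)} := h (Ideal.subset_span (by simp))
        rw [Ideal.mem_span_singleton, X_dvd_iff, coeff_C_zero] at h3
        exact absurd h3 (by decide)
    have e1 := Ideal.height_add_one_le_of_lt_of_isPrime h1
    have e2 := Ideal.height_add_one_le_of_lt_of_isPrime h2
    calc (2 : ℕ∞) = 0 + 1 + 1 := by norm_num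
      _ ≤ (⊥ : Ideal P).height + 1 + 1 := by gcongr; exact bot_le
      _ ≤ (Ideal.span {X} : Ideal P).height + 1 := by gcongr
      _ ≤ m.height := e2

theorem dim_R : ringKrullDim R = 2 := by
  rw [IsLocalization.AtPrime.ringKrullDim_eq_height m R, height_m]
  rfl

/-- No `a, b, s` with `s ∉ m` satisfy `a² + b² = 2 X s²`. -/
theorem no_sol (a b s : P) (hs : s ∉ m) : a ^ 2 + b ^ 2 ≠ 2 * X * s ^ 2 := by
  intro h
  have hk : RingHom.ker (mapRingHom ψ) = Ideal.span {(C π : P)} := by
    rw [ker_mapRingHom, ker_psi, Ideal.map_span, Set.image_singleton]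
  -- reduce modulo `π`
  have h2 : (2 : (ZMod 2)[X]) = 0 := by
    have : ((2 : ℕ) : (ZMod 2)[X]) = 0 := CharP.cast_eq_zero _ 2
    exact_mod_cast this
  have h1 : (mapRingHom ψ a + mapRingHom ψ b) ^ 2 = 0 := by
    have e1 := congrArg (mapRingHom ψ) h
    simp only [map_add, map_pow, map_mul] at e1
    have e2 : mapRingHom ψ (2 : P) = 0 := by
      rw [map_ofNat, h2]
    rw [e2] at e1
    linear_combination e1 + (mapRingHom ψ a) * (mapRingHom ψ b) * h2
  have h3 : mapRingHom ψ a + mapRingHom ψ b = 0 := by
    exact pow_eq_zero_iff (two_ne_zero) |>.1 h1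
  have hI : mapRingHom ψ (C I : P) = 1 := by
    rw [coe_mapRingHom, map_C]
    have : ψ I = 1 := by rw [psi_apply]; decide
    rw [this, C_1]
  have h4 : a - C I * b ∈ Ideal.span {(C π : P)} := by
    rw [← hk, RingHom.mem_ker, map_sub, map_mul, hI, one_mul]
    linear_combination h3 - (mapRingHom ψ b) * h2
  rw [Ideal.mem_span_singleton] at h4
  obtain ⟨e, he⟩ := h4
  have hIC : (C I : P) * C I = -1 := by rw [← C_mul, I_sq, C_neg, C_1]
  have hπC : (C π : P) * C π = 2 * C I := by
    rw [← C_mul, pi_sq, C_mul]
    rfl
  have ha : a = C I * b + C π * e := by linear_combination he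
  have h5 : (C π * C π) * (e ^ 2 + C π * b * e) = (C π * C π) * (-(C I) * X * s ^ 2) := by
    have h6 : (2 : P) = -(C I) * (C π * C π) := by
      linear_combination (C I) * hπC + 2 * hIC
    have h7 : a ^ 2 + b ^ 2 = (C π * C π) * (e ^ 2 + C π * b * e) := by
      rw [ha]
      linear_combination (b ^ 2) * hIC - (C π * b * e) * hπC
    rw [← h7, h, h6]
    ring
  have hπ0 : (C π * C π : P) ≠ 0 := by
    rw [← C_mul, Ne, C_eq_zero]
    decide
  have h8 := mul_left_cancel₀ hπ0 h5
  have e1 := congrArg (mapRingHom ψ) h8
  have hπm : mapRingHom ψ (C π : P) = 0 := by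
    rw [coe_mapRingHom, map_C]
    have : ψ π = 0 := by rw [psi_apply]; decide
    rw [this, C_0]
  simp only [map_add, map_mul, map_pow, map_neg, hπm, hI, zero_mul, add_zero] at e1
  have hXX : mapRingHom ψ (X : P) = X := by rw [coe_mapRingHom, map_X]
  rw [hXX] at e1
  have e2 : mapRingHom ψ e ^ 2 = X * mapRingHom ψ s ^ 2 := by
    linear_combination e1 - X * mapRingHom ψ s ^ 2 * h2
  have e3 : X ∣ mapRingHom ψ e := by
    apply prime_X.dvd_of_dvd_pow (n := 2)
    rw [e2]
    exact dvd_mul_right _ _
  obtain ⟨u, hu⟩ := e3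
  rw [hu] at e2
  have e4 : X * (X * u ^ 2) = X * mapRingHom ψ s ^ 2 := by
    linear_combination e2
  have e5 := mul_left_cancel₀ X_ne_zero e4
  have e6 : X ∣ mapRingHom ψ s := by
    apply prime_X.dvd_of_dvd_pow (n := 2)
    rw [← e5]
    exact dvd_mul_right _ _
  rw [X_dvd_iff, coe_mapRingHom, coeff_map] at e6
  apply hs
  rw [m, RingHom.mem_ker, theta_apply]
  exact e6

theorem not_two_squares (c d : R) : c ^ 2 + d ^ 2 ≠ 2 * algebraMap P R X := by
  intro h
  obtain ⟨⟨a, s⟩, ha⟩ := IsLocalization.surj m.primeCompl c
  obtain ⟨⟨b, t⟩, hb⟩ := IsLocalization.surj m.primeCompl d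
  simp only at ha hb
  have hinj : Function.Injective (algebraMap P R) :=
    IsLocalization.injective R m.primeCompl_le_nonZeroDivisors
  apply no_sol (a * t) (b * s) (s * t) (s * t).2
  apply hinj
  simp only [map_add, map_mul, map_pow, map_ofNat]
  rw [← ha, ← hb]
  linear_combination (algebraMap P R s * algebraMap P R t) ^ 2 * h

theorem exists_frac (A : Type) [CommRing A] [IsDomain A] :
    ∃ (K : Type) (_ : Field K) (_ : Algebra A K), IsFractionRing A K :=
  ⟨FractionRing A, inferInstance, inferInstance, inferInstance⟩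

/-- The negation of the preceding statement: For every 2-dimensional regular local ring R with fraction field K, and every n, every sum of squares in R is a sum of n squares iff the same holds in K; that is, the Pythagoras numbers of R and K agree. -/
theorem result :
    ¬ (∀ (R : Type) [CommRing R] [IsDomain R] [IsLocalRing R] [IsNoetherianRing R],
      ringKrullDim R = 2 →
      (∃ a b : R, IsLocalRing.maximalIdeal R = Ideal.span {a, b}) →
      ∀ (K : Type) [Field K] [Algebra R K] [IsFractionRing R K],
      ∀ n : ℕ,
        ((∀ x : R, IsSumSq x → ∃ f : Fin n → R, x = ∑ i, f i ^ 2) ↔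
          (∀ x : K, IsSumSq x → ∃ f : Fin n → K, x = ∑ i, f i ^ 2))) := by
  intro hall
  have hdom : IsDomain R := IsLocalization.isDomain_localization m.primeCompl_le_nonZeroDivisors
  have hnoeth : IsNoetherianRing R := IsLocalization.isNoetherianRing m.primeCompl R inferInstance
  obtain ⟨K, hKf, hKa, hfrac⟩ := exists_frac R
  have key := (hall R dim_R ⟨_, _, max_eq⟩ K 2).2
  have hI : (algebraMap P R (C I)) * algebraMap P R (C I) = -1 := by
    rw [← map_mul, ← C_mul, I_sq, C_neg, C_1, map_neg, map_one]
  have hK : ∀ x : K, IsSumSq x → ∃ f : Fin 2 → K, x = ∑ i, f i ^ 2 := by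
    intro x _
    have hinj : Function.Injective (algebraMap R K) := IsFractionRing.injective _ _
    have hinj2 : Function.Injective (algebraMap P R) :=
      IsLocalization.injective R m.primeCompl_le_nonZeroDivisors
    have h2 : (2 : K) ≠ 0 := by
      have h3 : (2 : P) ≠ 0 := by
        intro h
        have := congrArg (fun p : P => p.coeff 0) h
        simp at this
      intro h
      apply h3
      apply hinj2
      apply hinj
      rw [map_ofNat, map_ofNat, map_zero, map_zero]
      exact h
    have hI2 : (algebraMap R K (algebraMap P R (C I))) ^ 2 = -1 := by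
      rw [← map_pow, pow_two, hI, map_neg, map_one]
    refine ⟨![(x + 1) / 2, algebraMap R K (algebraMap P R (C I)) * ((x - 1) / 2)],
      ?_⟩
    rw [Fin.sum_univ_two]
    simp only [Matrix.cons_val_zero, Matrix.cons_val_one]
    rw [mul_pow, hI2]
    field_simp
    ring
  obtain ⟨f, hf⟩ := key hK (2 * algebraMap P R X) (by
    have e : 2 * algebraMap P R X = (1 + algebraMap P R X) * (1 + algebraMap P R X) +
        (algebraMap P R (C I) * algebraMap P R (C I) +
          (algebraMap P R (C I) * algebraMap P R X) * (algebraMap P R (C I) * algebraMap P R X)) := by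
      linear_combination -(1 + algebraMap P R X * algebraMap P R X) * hI
    rw [e]
    exact (IsSumSq.mul_self _).add ((IsSumSq.mul_self _).add (IsSumSq.mul_self _)))
  rw [Fin.sum_univ_two] at hf
  exact not_two_squares _ _ hf.symm

end Pool.Agent.S01012
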