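import Pool.Statements.S01090
import Pool.Agent.Y789.DI.IC

/-!
Counterexample: `I = (x₃, x₄) · (x₁x₂x₃⁴x₄⁷, x₂x₃⁸x₄⁴, x₃¹²x₅, x₁x₂²x₄¹⁰)` in five variables.  The
depths of the quotients by the integral closures of `I, I², I³, I⁴` are `2, 1, 2, 0`; we prove that
the second one is at most one and that the third one is at least two.
-/

set_option autoImplicit false
open Pool Pool.MP_30655b_al

namespace Pool.Agent.S01090

/-- The negation of the preceding statement: For every field K, every monomial ideal I of K[X_1..X_r] and every m ≥ 1, the depth of R modulo the integral closure of I^(m+1) is at most the depth of R modulo the integral closure of I^m. -/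
theorem result :
    ¬ (∀ (K : Type) [Field K] (r : ℕ) (S : Set (Fin r →₀ ℕ)) (m : ℕ), 1 ≤ m →
      ∀ rs : List (MvPolynomial (Fin r) K),
        (∀ x ∈ rs, x ∈ Ideal.span
            (Set.range (fun i : Fin r => (MvPolynomial.X i : MvPolynomial (Fin r) K)))) →
        RingTheory.Sequence.IsRegular
          (MvPolynomial (Fin r) K ⧸ Ideal.span
            {f : MvPolynomial (Fin r) K | ∃ n : ℕ, 1 ≤ n ∧
              ∃ a : ℕ → MvPolynomial (Fin r) K,
                (∀ i : ℕ, a i ∈ ((Ideal.span
                    ((fun s : Fin r →₀ ℕ => MvPolynomial.monomial s (1 : K)) '' S)) ^ (m + 1)) ^ i) ∧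
                f ^ n + ∑ i ∈ Finset.range n, a (n - i) * f ^ i = 0}) rs →
        ∃ ss : List (MvPolynomial (Fin r) K), ss.length = rs.length ∧
          (∀ x ∈ ss, x ∈ Ideal.span
            (Set.range (fun i : Fin r => (MvPolynomial.X i : MvPolynomial (Fin r) K)))) ∧
          RingTheory.Sequence.IsRegular
            (MvPolynomial (Fin r) K ⧸ Ideal.span
              {f : MvPolynomial (Fin r) K | ∃ n : ℕ, 1 ≤ n ∧
                ∃ a : ℕ → MvPolynomial (Fin r) K,
                  (∀ i : ℕ, a i ∈ ((Ideal.span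
                      ((fun s : Fin r →₀ ℕ => MvPolynomial.monomial s (1 : K)) '' S)) ^ m) ^ i) ∧
                  f ^ n + ∑ i ∈ Finset.range n, a (n - i) * f ^ i = 0}) ss) := by
  intro h
  obtain ⟨rs, hlen, hrs, hreg⟩ := Y789.DI.level3 ℚ
  have h1 := h ℚ 5 Y789.DI.S 2 (by norm_num) rs hrs
  have e3 := Y789.DI.closure_eq ℚ (2 + 1) (by norm_num) (by norm_num)
  have e2 := Y789.DI.closure_eq ℚ 2 (by norm_num) (by norm_num)
  rw [e3, e2] at h1
  obtain ⟨ss, hsl, hss, hsreg⟩ := h1 hreg
  rw [hlen] at hsl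
  match ss, hsl, hss, hsreg with
  | [f, g], _, hss, hsreg =>
    have hf : f ∈ Y789.DI.MM 5 ℚ := hss f (by simp)
    have hg : g ∈ Y789.DI.MM 5 ℚ := hss g (by simp)
    have hw := hsreg.toIsWeaklyRegular
    rw [RingTheory.Sequence.isWeaklyRegular_cons_iff,
      RingTheory.Sequence.isWeaklyRegular_singleton_iff] at hw
    exact Y789.DI.level2 hf hg ((Y789.DI.reg_iff _ _).mp hw.1) ((Y789.DI.reg_iff₂ _ _ _).mp hw.2)

end Pool.Agent.S01090
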