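import Pool.Statements.S01246
import Pool.Agent.Y66.HC.BBGen
import Pool.Agent.Y66.HC.Fib
import Pool.Agent.Y66.HC.G1RM
import Pool.Agent.Y66.HC.Free
import Pool.Agent.Y448.HC.M1
import Pool.Agent.Y448.HC.M2
import Pool.Agent.Y369.HC.M8

set_option autoImplicit false
open CategoryTheory
open Pool Pool.MP_3ca9d5_al

namespace Pool.Agent.S01246

/-- The negation of the preceding statement: For surjections G₁→Q, G₂→Q with finitely generated kernel in G₁, G₁ and G₂ of type FP₂ and Q of type FP₃, the fibre product {(a,b) : π₁a = π₂b} is of type FP₂. -/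
theorem result :
    ¬ (∀ (G₁ G₂ Q : Type) [Group G₁] [Group G₂] [Group Q] (π₁ : G₁ →* Q) (π₂ : G₂ →* Q),
      Function.Surjective π₁ → Function.Surjective π₂ → Group.FG π₁.ker →
      (∃ R : ProjectiveResolution (Rep.trivial ℤ G₁ ℤ), ∀ k ≤ 2,
        ∃ s : Finset (R.complex.X k).V, ∀ x : (R.complex.X k).V,
          x ∈ Submodule.span ℤ
            (Set.range (fun p : G₁ × s => (R.complex.X k).ρ p.1 (p.2 : (R.complex.X k).V)))) →
      (∃ R : ProjectiveResolution (Rep.trivial ℤ G₂ ℤ), ∀ k ≤ 2,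
        ∃ s : Finset (R.complex.X k).V, ∀ x : (R.complex.X k).V,
          x ∈ Submodule.span ℤ
            (Set.range (fun p : G₂ × s => (R.complex.X k).ρ p.1 (p.2 : (R.complex.X k).V)))) →
      (∃ R : ProjectiveResolution (Rep.trivial ℤ Q ℤ), ∀ k ≤ 3,
        ∃ s : Finset (R.complex.X k).V, ∀ x : (R.complex.X k).V,
          x ∈ Submodule.span ℤ
            (Set.range (fun p : Q × s => (R.complex.X k).ρ p.1 (p.2 : (R.complex.X k).V)))) →
      (∃ R : ProjectiveResolution (Rep.trivial ℤ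
          ↥((π₁.comp (MonoidHom.fst G₁ G₂)).eqLocus (π₂.comp (MonoidHom.snd G₁ G₂))) ℤ),
        ∀ k ≤ 2,
        ∃ s : Finset (R.complex.X k).V, ∀ x : (R.complex.X k).V,
          x ∈ Submodule.span ℤ
            (Set.range (fun p : ↥((π₁.comp (MonoidHom.fst G₁ G₂)).eqLocus
                (π₂.comp (MonoidHom.snd G₁ G₂))) × s =>
              (R.complex.X k).ρ p.1 (p.2 : (R.complex.X k).V))))) := by
  intro H
  obtain ⟨V, iF, iD, ad, γ, l, p, D⟩ := Pool.Agent.Y369.HC.m8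
  have hfp : Pool.Agent.Y66.HC.FPc 3 (Pool.Agent.Y66.HC.HH ad) :=
    Pool.Agent.Y66.HC.fp_bb D.symm D.irr D.acyc D.k4 (p 0) 3
  have hfp2 : Pool.Agent.Y66.HC.FPc 2 (Pool.Agent.Y66.HC.HH ad) :=
    Pool.Agent.Y66.HC.fp_bb D.symm D.irr D.acyc D.k4 (p 0) 2
  have hsurj : Function.Surjective (Pool.Agent.Y66.HC.piB ad) :=
    Pool.Agent.Y66.HC.piB_surj D.conn (p 0)
  have hf : Subgroup.closure (Set.range (FreeGroup.of : V × V → FreeGroup (V × V))) = ⊤ :=
    FreeGroup.closure_range_of _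
  have hx : Subgroup.closure (Set.range (fun e : V × V =>
      Pool.Agent.Y66.HC.piB ad (FreeGroup.of e))) = ⊤ := by
    have h1 := congrArg (Subgroup.map (Pool.Agent.Y66.HC.piB ad)) hf
    rw [MonoidHom.map_closure, ← Set.range_comp, ← MonoidHom.range_eq_map,
      MonoidHom.range_eq_top.2 hsurj] at h1
    exact h1
  have hRM := Pool.Agent.Y448.HC.m1 _ _ _ hx hfp2
  have hG1 : Pool.Agent.Y66.HC.FPc 2 (Pool.Agent.Y66.HC.G1 (Pool.Agent.Y66.HC.piB ad)) :=
    Pool.Agent.Y448.HC.m2 _ _ _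
      (Pool.Agent.Y66.HC.ygen_closure (Pool.Agent.Y66.HC.piB ad) _ _ hf hx)
      (Pool.Agent.Y66.HC.g1_rm (Pool.Agent.Y66.HC.piB ad) _ _ hf hx
        (Pool.Agent.Y66.HC.rm_free _) hRM)
  have hF : Pool.Agent.Y66.HC.FPc 2 (FreeGroup (V × V)) :=
    Pool.Agent.Y448.HC.m2 _ _ _ hf (by
      rw [Pool.Agent.Y66.HC.rm_free]
      exact Submodule.fg_bot)
  have hP := H (Pool.Agent.Y66.HC.G1 (Pool.Agent.Y66.HC.piB ad)) (FreeGroup (V × V))
    (Pool.Agent.Y66.HC.HH ad) (Pool.Agent.Y66.HC.p1 (Pool.Agent.Y66.HC.piB ad))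
    (Pool.Agent.Y66.HC.piB ad) (Pool.Agent.Y66.HC.p1_surj _) hsurj
    (Pool.Agent.Y66.HC.ker_p1_fg _ FreeGroup.of hsurj hf) hG1 hF hfp
  refine Pool.Agent.Y66.HC.not_fp2 (Pool.Agent.Y66.HC.piB ad) FreeGroup.of
    Pool.Agent.Y448.HC.m1 hsurj hf ?_ hP
  rw [Pool.Agent.Y66.HC.piB_ker]
  exact Pool.Agent.Y66.HC.not_fp D

end Pool.Agent.S01246
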