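import Pool.Statements.S01262
import Pool.Agent.Y938.QU.Exist
import Pool.Agent.Y938.QU.Uhom
import Pool.Agent.Y938.QU.Ext
import Pool.Agent.Y938.QU.Vbdd
import Pool.Agent.Y938.QU.Vfix
import Pool.Agent.Y938.QU.Kalton
import Pool.Agent.Y938.QU.Gbdd
import Pool.Agent.Y938.QU.Gfix
import Pool.Agent.Y938.AQ.Weak
import Pool.Agent.Y938.AQ.Mazur

set_option autoImplicit false
open Pool Pool.MP_3e1351_al

namespace Pool.Agent.S01262

/-- The negation of the preceding statement: For the rational Urysohn space X, the isometry group of X (with the topology of pointwise agreement on finite sets) has a continuous action by affine isometries on some reflexive real Banach space with no fixed vector. -/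
theorem result :
    ¬ (∀ (X : Type) [MetricSpace X], Countable X →
      (∀ x y : X, ∃ q : ℚ, dist x y = (q : ℝ)) →
      (∀ (A : Finset X) (f : X → ℚ), (∀ a ∈ A, 0 < f a) →
        (∀ a ∈ A, ∀ b ∈ A, |(f a : ℝ) - (f b : ℝ)| ≤ dist a b ∧ dist a b ≤ (f a : ℝ) + (f b : ℝ)) →
        ∃ x : X, ∀ a ∈ A, dist x a = (f a : ℝ)) →
      ∃ (E : Type) (_ : NormedAddCommGroup E) (_ : NormedSpace ℝ E),
        CompleteSpace E ∧
        Function.Surjective (NormedSpace.inclusionInDoubleDual ℝ E) ∧
        ∃ α : (X ≃ᵢ X) →* (E ≃ᵃⁱ[ℝ] E),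
          (∀ (v : E) (g : X ≃ᵢ X) (ε : ℝ), 0 < ε →
            ∃ F : Finset X, ∀ h : X ≃ᵢ X, (∀ x ∈ F, h x = g x) →
              dist (α h v) (α g v) < ε) ∧
          (∀ v : E, ∃ g : X ≃ᵢ X, α g v ≠ v)) := by
  have one := Pool.Agent.Y938.QU.one_spec
  have uhom := Pool.Agent.Y938.QU.uhom_spec one
  have univ := Pool.Agent.Y938.QU.univ_spec one
  have am := Pool.Agent.Y938.QU.am_spec one uhom
  have wlim := Pool.Agent.Y938.AQ.wlim_spec
  have amap := Pool.Agent.Y938.AQ.amap_spec
  have wmap := Pool.Agent.Y938.AQ.wmap_spec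
  have mazurT := Pool.Agent.Y938.QU.mazurT_spec
  have vbdd := Pool.Agent.Y938.QU.vbdd_spec uhom am
  have vfix := Pool.Agent.Y938.QU.vfix_spec uhom am vbdd wlim amap mazurT wmap
  have kalton := Pool.Agent.Y938.QU.kalton_spec wlim
  have gbdd := Pool.Agent.Y938.QU.gbdd_spec one uhom univ kalton
  have gfix := Pool.Agent.Y938.QU.gfix_spec one uhom vfix gbdd wlim amap mazurT
  exact Pool.Agent.Y938.QU.asm_spec Pool.Agent.Y938.QU.exist_spec gfix

end Pool.Agent.S01262
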