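import Pool.Statements.S01386
import Pool.Agent.Y314.HM.Main

set_option autoImplicit false
open Pool Pool.MP_4b59b0_al

namespace Pool.Agent.S01386

/-- The negation of the preceding statement: For every word v in finitely many variables and every group G, if the marginal subgroup of v in G has finite index, then the verbal subgroup generated by all values of v in G is finite. -/
theorem result :
    ¬ (∀ (n : ℕ) (v : FreeGroup (Fin n)) (G : Type) [Group G],
      (Subgroup.closure
          {a : G | ∀ (f : Fin n → G) (i : Fin n),
            FreeGroup.lift (Function.update f i (f i * a)) v = FreeGroup.lift f v}).index ≠ 0 →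
      ((Subgroup.closure (Set.range (fun f : Fin n → G => FreeGroup.lift f v)) : Subgroup G)
          : Set G).Finite) := by
  intro h
  obtain ⟨w, p, A, Γ, iA, iΓ, fΓ, z, Θ, F, hz, hv, a, b, hab⟩ := Pool.Agent.Y314.HM.core
  let v : FreeGroup (Fin 2) := Pool.Agent.Y45.MON.vv w 0 (FreeGroup.of 0) (FreeGroup.of 1) ^ p
  have hl : ∀ f : Fin 2 → A, FreeGroup.lift f v = z ^ F (Θ (f 0)) (Θ (f 1)) := by
    intro f
    show FreeGroup.lift f (Pool.Agent.Y45.MON.vv w 0 (FreeGroup.of 0) (FreeGroup.of 1) ^ p) = _
    rw [map_pow, Pool.Agent.Y314.HM.map_vv, FreeGroup.lift_apply_of, FreeGroup.lift_apply_of, hv]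
  have h1 := h 2 v A ?_
  · have h2 : z ∈ Subgroup.closure (Set.range (fun f : Fin 2 → A => FreeGroup.lift f v)) := by
      apply Subgroup.subset_closure
      refine ⟨![a, b], ?_⟩
      show FreeGroup.lift ![a, b] v = z
      rw [hl]
      show z ^ F (Θ a) (Θ b) = z
      rw [hab, zpow_one]
    have h3 : Set.range (fun k : ℤ => z ^ k) ⊆
        (Subgroup.closure (Set.range (fun f : Fin 2 → A => FreeGroup.lift f v)) : Set A) := by
      rintro _ ⟨k, rfl⟩
      exact Subgroup.zpow_mem _ h2 k
    have h4 : Function.Injective (fun k : ℤ => z ^ k) := by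
      intro k l hkl
      have h5 : z ^ (k - l) = 1 := by
        rw [zpow_sub]
        exact mul_inv_eq_one.2 hkl
      have := hz _ h5
      omega
    exact Set.infinite_range_of_injective h4 (h1.subset h3)
  · have h2 : Θ.ker ≤ Subgroup.closure {a : A | ∀ (f : Fin 2 → A) (i : Fin 2),
        FreeGroup.lift (Function.update f i (f i * a)) v = FreeGroup.lift f v} := by
      intro c hc
      have hc' : Θ c = 1 := hc
      apply Subgroup.subset_closure
      intro f i
      have h5 : ∀ k, Θ (Function.update f i (f i * c) k) = Θ (f k) := by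
        intro k
        by_cases hk : k = i
        · subst hk
          rw [Function.update_self, map_mul, hc', mul_one]
        · rw [Function.update_of_ne hk]
      rw [hl, hl, h5, h5]
    have h3 : Θ.ker.FiniteIndex := Subgroup.finiteIndex_ker Θ
    exact (Subgroup.finiteIndex_of_le h2).index_ne_zero

end Pool.Agent.S01386
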