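import Pool.Statements.S01554

set_option autoImplicit false
open Pool Pool.MP_58cc81_al

namespace Pool.Agent.S01554

/-- the discrete group `⊕_ℕ ℤ/2` -/
def E : Type := ℕ →₀ ZMod 2

noncomputable instance : AddCommGroup E := inferInstanceAs (AddCommGroup (ℕ →₀ ZMod 2))
noncomputable instance : Module (ZMod 2) E := inferInstanceAs (Module (ZMod 2) (ℕ →₀ ZMod 2))
instance : TopologicalSpace E := ⊥
instance : DiscreteTopology E := ⟨rfl⟩
instance : Infinite E := inferInstanceAs (Infinite (ℕ →₀ ZMod 2))

/-- evaluation at a coordinate -/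
noncomputable def ev (a : E) (i : ℕ) : ZMod 2 := (show ℕ →₀ ZMod 2 from a) i

@[simp] lemma ev_add (a b : E) (i : ℕ) : ev (a + b) i = ev a i + ev b i := rfl
@[simp] lemma ev_zero (i : ℕ) : ev 0 i = 0 := rfl
@[simp] lemma ev_neg (a : E) (i : ℕ) : ev (-a) i = - ev a i := rfl
lemma ev_ext {a b : E} (h : ∀ i, ev a i = ev b i) : a = b := Finsupp.ext h

/-- the compact abelian group `∏_{ℕ×ℕ} ℤ/2 × ℝ/ℤ` -/
abbrev Z : Type := (ℕ → ℕ → ZMod 2) × AddCircle (1 : ℝ)

/-- the cocycle -/
noncomputable def β (a b : E) : Z := (fun i j => ev a i * ev b j, 0)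

lemma β_add_left (a b c : E) : β (a + b) c = β a c + β b c := by
  ext <;> simp [β, add_mul]

lemma β_add_right (a b c : E) : β a (b + c) = β a b + β a c := by
  ext <;> simp [β, mul_add]

@[simp] lemma β_zero_left (a : E) : β 0 a = 0 := by
  ext <;> simp [β]

@[simp] lemma β_zero_right (a : E) : β a 0 = 0 := by
  ext <;> simp [β]

lemma β_neg_right (a b : E) : β a (-b) = - β a b := by
  ext <;> simp [β]

lemma β_neg_left (a b : E) : β (-a) b = - β a b := by
  ext <;> simp [β]

lemma zmod2_cases (x : ZMod 2) : x = 0 ∨ x = 1 := by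
  revert x; decide

lemma dep_of_comm {a b : E} (h : β a b = β b a) : a = 0 ∨ b = 0 ∨ a = b := by
  have h' : ∀ i j, ev a i * ev b j = ev b i * ev a j := by
    intro i j
    have := congrArg (fun z : Z => z.1 i j) h
    simpa [β] using this
  by_cases ha : a = 0
  · exact Or.inl ha
  by_cases hb : b = 0
  · exact Or.inr (Or.inl hb)
  right; right
  obtain ⟨i, hi⟩ : ∃ i, ev a i ≠ 0 := by
    by_contra hc
    push Not at hc
    exact ha (ev_ext hc)
  obtain ⟨j, hj⟩ : ∃ j, ev b j ≠ 0 := by
    by_contra hc
    push Not at hc
    exact hb (ev_ext hc)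
  have hi1 : ev a i = 1 := (zmod2_cases _).resolve_left hi
  have hj1 : ev b j = 1 := (zmod2_cases _).resolve_left hj
  have h1 := h' i j
  rw [hi1, hj1, one_mul] at h1
  have hbi : ev b i = 1 := by
    rcases zmod2_cases (ev b i) with h0 | h0
    · rw [h0, zero_mul] at h1
      exact absurd h1 (by decide)
    · exact h0
  apply ev_ext
  intro k
  have h2 := h' i k
  rw [hi1, hbi, one_mul, one_mul] at h2
  exact h2.symm

/-- the group -/
def G : Type := E × Z

instance : TopologicalSpace G := inferInstanceAs (TopologicalSpace (E × Z))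
instance : LocallyCompactSpace G := inferInstanceAs (LocallyCompactSpace (E × Z))
instance : T2Space G := inferInstanceAs (T2Space (E × Z))

noncomputable instance : Group G where
  mul x y := (x.1 + y.1, x.2 + y.2 + β x.1 y.1)
  one := ((0, 0) : E × Z)
  inv x := (-x.1, -x.2 + β x.1 x.1)
  mul_assoc x y z := by
    apply Prod.ext
    · exact add_assoc _ _ _
    · change x.2 + y.2 + β x.1 y.1 + z.2 + β (x.1 + y.1) z.1
        = x.2 + (y.2 + z.2 + β y.1 z.1) + β x.1 (y.1 + z.1)
      rw [β_add_left, β_add_right]; abel
  one_mul x := by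
    apply Prod.ext
    · exact zero_add _
    · change 0 + x.2 + β 0 x.1 = x.2
      simp
  mul_one x := by
    apply Prod.ext
    · exact add_zero _
    · change x.2 + 0 + β x.1 0 = x.2
      simp
  inv_mul_cancel x := by
    apply Prod.ext
    · exact neg_add_cancel _
    · change -x.2 + β x.1 x.1 + x.2 + β (-x.1) x.1 = 0
      rw [β_neg_left]; abel

lemma mul_def (x y : G) : x * y = ((x.1 + y.1, x.2 + y.2 + β x.1 y.1) : E × Z) := rfl
lemma one_def : (1 : G) = ((0, 0) : E × Z) := rfl
lemma inv_def (x : G) : x⁻¹ = ((-x.1, -x.2 + β x.1 x.1) : E × Z) := rfl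

instance : IsTopologicalGroup G where
  continuous_mul := by
    have h1 : Continuous fun p : (E × Z) × (E × Z) => p.1.1 + p.2.1 := by fun_prop
    have hβ : Continuous fun q : E × E => β q.1 q.2 := continuous_of_discreteTopology
    have h2 : Continuous fun p : (E × Z) × (E × Z) => p.1.2 + p.2.2 + β p.1.1 p.2.1 := by
      refine ((continuous_snd.comp continuous_fst).add (continuous_snd.comp continuous_snd)).add ?_
      exact hβ.comp ((continuous_fst.comp continuous_fst).prodMk
        (continuous_fst.comp continuous_snd))
    exact h1.prodMk h2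
  continuous_inv := by
    have h1 : Continuous fun p : E × Z => -p.1 := by fun_prop
    have hβ : Continuous fun q : E => β q q := continuous_of_discreteTopology
    have h2 : Continuous fun p : E × Z => -p.2 + β p.1 p.1 :=
      continuous_snd.neg.add (hβ.comp continuous_fst)
    exact h1.prodMk h2

/-- the set of elements whose first coordinate lies in `S` -/
def fib (S : Set E) : Set G := {x | x.1 ∈ S}

lemma isCompact_fib {S : Set E} (hS : S.Finite) : IsCompact (fib S) := by
  have : fib S = (S ×ˢ (Set.univ : Set Z) : Set (E × Z)) := by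
    ext x
    constructor
    · intro h; exact ⟨h, Set.mem_univ _⟩
    · intro h; exact h.1
  rw [this]
  exact hS.isCompact.prod isCompact_univ

lemma continuous_proj : Continuous (fun x : G => x.1) := continuous_fst

lemma isCompact_closure_of_subset {A : Set G} {S : Set E} (hS : S.Finite) (h : A ⊆ fib S) :
    IsCompact (closure A) :=
  (isCompact_fib hS).closure_of_subset h

/-- the negated statement -/
theorem result :
    ¬ (∀ (G : Type) [Group G] [TopologicalSpace G] [IsTopologicalGroup G]
      [LocallyCompactSpace G] [T2Space G],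
      (∀ U ∈ nhds (1 : G), ∃ V ∈ nhds (1 : G), V ⊆ U ∧
          ∀ g x : G, x ∈ V → g * x * g⁻¹ ∈ V) →
      (∀ H : Subgroup G, (∀ a ∈ H, ∀ b ∈ H, a * b = b * a) →
          IsCompact (closure (H : Set G))) →
      (∀ K : Set G, IsCompact (closure K) →
          IsCompact (closure ((Subgroup.closure K : Subgroup G) : Set G))) →
      TotallyDisconnectedSpace G ∨ CompactSpace G) := by
  intro hall
  have key := hall G ?_ ?_ ?_
  · rcases key with h | h
    · -- not totally disconnected
      have hf : @Continuous ℝ G _ _ (fun t : ℝ => (((0 : E), ((0 : ℕ → ℕ → ZMod 2),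
          (t : AddCircle (1 : ℝ)))) : E × Z)) := by
        have : Continuous (fun t : ℝ => (((0 : E), ((0 : ℕ → ℕ → ZMod 2),
          (t : AddCircle (1 : ℝ)))) : E × Z)) := by
          refine continuous_const.prodMk (continuous_const.prodMk ?_)
          exact AddCircle.continuous_mk' (1 : ℝ)
        exact this
      have hc : (Set.image (β := G) (fun t : ℝ => (((0 : E), ((0 : ℕ → ℕ → ZMod 2),
          (t : AddCircle (1 : ℝ)))) : E × Z)) Set.univ).Subsingleton :=
        ((isPreconnected_univ (α := ℝ)).image _ hf.continuousOn).subsingleton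
      have h0 := hc (Set.mem_image_of_mem _ (Set.mem_univ (0 : ℝ)))
        (Set.mem_image_of_mem _ (Set.mem_univ (1 / 2 : ℝ)))
      have h1 : ((0 : ℝ) : AddCircle (1 : ℝ)) = ((1 / 2 : ℝ) : AddCircle (1 : ℝ)) :=
        congrArg (fun x : E × Z => x.2.2) h0
      have h2 : ((1 / 2 : ℝ) : AddCircle (1 : ℝ)) = 0 := by rw [← h1]; simp
      rw [AddCircle.coe_eq_zero_iff] at h2
      obtain ⟨n, hn⟩ := h2
      have h3 : (n : ℝ) = 1 / 2 := by simpa using hn
      have h4 : ((2 * n : ℤ) : ℝ) = ((1 : ℤ) : ℝ) := by push_cast; rw [h3]; norm_num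
      have h5 : 2 * n = 1 := by exact_mod_cast h4
      omega
    · -- not compact
      have h1 : IsCompact (Set.univ : Set E) := by
        have := (isCompact_univ (X := G)).image continuous_proj
        rwa [Set.image_univ, Set.range_eq_univ.2] at this
        intro e
        exact ⟨((e, 0) : E × Z), rfl⟩
      exact Set.infinite_univ (h1.finite_of_discrete)
  · -- small invariant neighbourhoods
    intro U hU
    refine ⟨U ∩ fib {0}, Filter.inter_mem hU ?_, Set.inter_subset_left, ?_⟩
    · have hopen : IsOpen (fib ({0} : Set E)) := (isOpen_discrete ({0} : Set E)).preimage continuous_proj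
      exact hopen.mem_nhds rfl
    · intro g x hx
      have hx0 : x.1 = 0 := hx.2
      have : g * x * g⁻¹ = x := by
        rw [mul_inv_eq_iff_eq_mul, mul_def, mul_def, hx0]
        simp only [add_zero, zero_add, β_zero_left, β_zero_right]
        rw [add_comm g.2 x.2]
      rw [this]; exact hx
  · -- abelian subgroups
    intro H hH
    have hdep : ∀ x ∈ H, ∀ y ∈ H, x.1 = 0 ∨ y.1 = 0 ∨ x.1 = y.1 := by
      intro x hx y hy
      have h := hH x hx y hy
      rw [mul_def, mul_def] at h
      have h2 := congrArg Prod.snd h
      apply dep_of_comm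
      simpa [add_comm, add_left_cancel_iff] using h2
    by_cases hex : ∃ x ∈ H, x.1 ≠ 0
    · obtain ⟨x0, hx0, hne⟩ := hex
      refine isCompact_closure_of_subset (S := {0, x0.1}) (by simp) ?_
      intro y hy
      rcases hdep x0 hx0 y hy with h | h | h
      · exact absurd h hne
      · exact Or.inl h
      · exact Or.inr h.symm
    · push Not at hex
      refine isCompact_closure_of_subset (S := {0}) (by simp) ?_
      intro y hy
      exact hex y hy
  · -- topologically locally finite
    intro K hK
    have hfin : ((fun x : G => x.1) '' closure K).Finite :=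
      (hK.image continuous_proj).finite_of_discrete
    set S : Set E := (fun x : G => x.1) '' closure K with hS
    have hspan : ((Submodule.span (ZMod 2) S : Submodule (ZMod 2) E) : Set E).Finite := by
      have : Module.Finite (ZMod 2) (Submodule.span (ZMod 2) S) :=
        Module.Finite.span_of_finite (ZMod 2) hfin
      have : Finite (Submodule.span (ZMod 2) S) := Module.finite_of_finite (ZMod 2)
      exact Set.toFinite _
    refine isCompact_closure_of_subset hspan ?_
    intro x hx
    change x ∈ Subgroup.closure K at hx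
    change x.1 ∈ Submodule.span (ZMod 2) S
    induction hx using Subgroup.closure_induction with
    | mem x hx => exact Submodule.subset_span ⟨x, subset_closure hx, rfl⟩
    | one => exact Submodule.zero_mem _
    | mul x y _ _ hx hy => exact Submodule.add_mem _ hx hy
    | inv x _ hx => exact Submodule.neg_mem _ hx

end Pool.Agent.S01554
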