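import Pool.Statements.S01591
import Pool.Agent.W386.Conv

set_option autoImplicit false
open Pool Pool.MP_5c61b4_al

namespace Pool.Agent.S01591

open Pool.Agent.W386

theorem fibre (n : ℕ) (hn : 2 ≤ n) (Γ₁ Γ₂ Q : Type) [Group Γ₁] [Group Γ₂] [Group Q]
    (π₁ : Γ₁ →* Q) (π₂ : Γ₂ →* Q) (h₁ : Function.Surjective π₁) (h₂ : Function.Surjective π₂)
    (hN : Group.IsFinitelyPresented π₁.ker ∧ IsFdata n π₁.ker)
    (hG₁ : Group.IsFinitelyPresented Γ₁ ∧ IsFdata (n + 1) Γ₁)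
    (hG₂ : Group.IsFinitelyPresented Γ₂ ∧ IsFdata (n + 1) Γ₂)
    (hQ : Group.IsFinitelyPresented Q ∧ IsFdata (n + 2) Q) :
    Group.IsFinitelyPresented
      (MonoidHom.eqLocus (π₁.comp (MonoidHom.fst Γ₁ Γ₂)) (π₂.comp (MonoidHom.snd Γ₁ Γ₂))) ∧
    IsFdata (n + 1)
      (MonoidHom.eqLocus (π₁.comp (MonoidHom.fst Γ₁ Γ₂)) (π₂.comp (MonoidHom.snd Γ₁ Γ₂))) := by
  set P := MonoidHom.eqLocus (π₁.comp (MonoidHom.fst Γ₁ Γ₂)) (π₂.comp (MonoidHom.snd Γ₁ Γ₂))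
    with hP
  have hmem : ∀ x : Γ₁ × Γ₂, x ∈ P ↔ π₁ x.1 = π₂ x.2 := fun x => Iff.rfl
  let π : P →* Γ₁ := (MonoidHom.fst Γ₁ Γ₂).comp P.subtype
  let b : P →* Γ₂ := (MonoidHom.snd Γ₁ Γ₂).comp P.subtype
  let j : π₁.ker →* P :=
    { toFun := fun x => ⟨((x : Γ₁), 1), by
        rw [hmem]
        change π₁ (x : Γ₁) = π₂ 1
        rw [map_one]
        exact x.2⟩
      map_one' := rfl
      map_mul' := fun x y => by
        apply Subtype.ext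
        exact Prod.ext rfl (one_mul (1 : Γ₂)).symm }
  have hπ : Function.Surjective π := by
    intro g
    obtain ⟨g', hg'⟩ := h₂ (π₁ g)
    exact ⟨⟨(g, g'), (hmem _).2 hg'.symm⟩, rfl⟩
  have hb : Function.Surjective b := by
    intro g
    obtain ⟨g', hg'⟩ := h₁ (π₂ g)
    exact ⟨⟨(g', g), (hmem _).2 hg'⟩, rfl⟩
  have hj : Function.Injective (π.comp j) := by
    intro x y hxy
    exact Subtype.ext hxy
  have hj0 : Function.Injective j := by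
    intro x y hxy
    exact hj (congrArg π hxy)
  have hjb : b.ker = j.range := by
    ext x
    constructor
    · intro hx
      have hx2 : (x : Γ₁ × Γ₂).2 = 1 := hx
      refine ⟨⟨(x : Γ₁ × Γ₂).1, ?_⟩, ?_⟩
      · have := (hmem _).1 x.2
        rw [hx2, map_one] at this
        exact this
      · apply Subtype.ext
        exact Prod.ext rfl hx2.symm
    · rintro ⟨y, rfl⟩
      rfl
  have hjc : π₁.ker = (π.comp j).range := by
    ext x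
    constructor
    · intro hx
      exact ⟨⟨x, hx⟩, rfl⟩
    · rintro ⟨y, rfl⟩
      exact y.2
  have hfp : Group.IsFinitelyPresented P := fp_ext j hj0 b hb hjb hN.1 hG₂.1
  refine ⟨hfp, ?_⟩
  have hfg : Group.FG P := fp_fg hfp
  have hK : π.ker.IsFinitelyNormallyGenerated := ker_ifng π hπ hfg hG₁.1
  have h := main_fp j π b π₁ hπ hb h₁ hj hjb hjc hfg hK n
    (fps_of_data (by omega) hN.2) (fps_of_data (by omega) hG₁.2)
    (fps_of_data (by omega) hQ.2) (fps_of_data (by omega) hG₂.2)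
  exact data_of_fps h

/-- For n ≥ 2, if π₁: Γ₁→Q and π₂: Γ₂→Q are surjective, ker π₁ is of type F_n, Γ₁ and Γ₂ are F_{n+1}, and Q is F_{n+2}, then the fibre product of Γ₁ and Γ₂ over Q is of type F_{n+1}. -/
theorem result :
  ∀ (IsF : ℕ → (G : Type) → Group G → Prop),
    (∀ (m : ℕ) (G : Type) (inst : Group G), IsF m G inst ↔
      ((∃ (r : ℕ) (f : FreeGroup (Fin r) →* G) (S : Finset (FreeGroup (Fin r))),
          Function.Surjective f ∧ f.ker = Subgroup.normalClosure (↑S : Set (FreeGroup (Fin r)))) ∧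
       (∃ (k : ℕ → ℕ) (ε : MonoidAlgebra ℤ G →+* ℤ)
          (d : ∀ i : ℕ, (Fin (k (i+1)) → MonoidAlgebra ℤ G) →ₗ[MonoidAlgebra ℤ G]
                (Fin (k i) → MonoidAlgebra ℤ G)),
          (∀ g : G, ε (MonoidAlgebra.of ℤ G g) = 1) ∧
          (∃ x : Fin (k 0) → MonoidAlgebra ℤ G, ∑ j, ε (x j) = 1) ∧
          (0 < m → ∀ x : Fin (k 0) → MonoidAlgebra ℤ G,
              (∑ j, ε (x j) = 0 ↔ x ∈ LinearMap.range (d 0))) ∧
          (∀ j : ℕ, j + 2 ≤ m → LinearMap.range (d (j+1)) = LinearMap.ker (d j))))) →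
    ∀ (n : ℕ), 2 ≤ n →
    ∀ (Γ₁ Γ₂ Q : Type) [Group Γ₁] [Group Γ₂] [Group Q] (π₁ : Γ₁ →* Q) (π₂ : Γ₂ →* Q),
      Function.Surjective π₁ → Function.Surjective π₂ →
      IsF n (↥π₁.ker) inferInstance →
      IsF (n+1) Γ₁ inferInstance →
      IsF (n+1) Γ₂ inferInstance →
      IsF (n+2) Q inferInstance →
      IsF (n+1)
        (↥(MonoidHom.eqLocus (π₁.comp (MonoidHom.fst Γ₁ Γ₂)) (π₂.comp (MonoidHom.snd Γ₁ Γ₂))))
        inferInstance := by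
  intro IsF hIsF n hn Γ₁ Γ₂ Q _ _ _ π₁ π₂ h₁ h₂ hN hG₁ hG₂ hQ
  rw [hIsF] at hN hG₁ hG₂ hQ ⊢
  obtain ⟨h3, h4⟩ := fibre n hn Γ₁ Γ₂ Q π₁ π₂ h₁ h₂ ⟨fp_iff.2 hN.1, hN.2⟩
    ⟨fp_iff.2 hG₁.1, hG₁.2⟩ ⟨fp_iff.2 hG₂.1, hG₂.2⟩ ⟨fp_iff.2 hQ.1, hQ.2⟩
  exact ⟨fp_iff.1 h3, h4⟩

end Pool.Agent.S01591
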