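import Pool.Statements.S01673
import Pool.Agent.Y314.CT.Final
import Pool.Agent.Y328.CT.Cay

set_option autoImplicit false
open Pool Pool.MP_616471_al

namespace Pool.Agent.S01673

/-- There is a connected locally finite graph with polynomial growth, finite asymptotic dimension, and uniformly coarsely transitive quasi-isometries, which is not quasi-isometric to the Cayley graph of any finitely generated group. -/
theorem result :
    ∃ (V : Type) (G : SimpleGraph V),
      G.Connected ∧ (∀ v, (G.neighborSet v).Finite) ∧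
      (∃ (v₀ : V) (c d : ℕ), ∀ r : ℕ,
          Set.ncard {w | G.dist v₀ w ≤ r} ≤ c * (r + 1) ^ d) ∧
      (∃ n : ℕ, ∀ R : ℕ, ∃ (ι : Type) (U : ι → Set V) (D : ℕ),
          (∀ i, ∀ x ∈ U i, ∀ y ∈ U i, G.dist x y ≤ D) ∧
          (∀ x, ∃ i, x ∈ U i) ∧
          ∀ x, {i | ∃ y ∈ U i, G.dist x y ≤ R}.Finite ∧
            Set.ncard {i | ∃ y ∈ U i, G.dist x y ≤ R} ≤ n + 1) ∧
      (∃ K C : ℝ, 0 < K ∧ ∀ x y : V, ∃ f : V → V,
          (∀ a b : V, (G.dist a b : ℝ) / K - C ≤ (G.dist (f a) (f b) : ℝ) ∧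
              (G.dist (f a) (f b) : ℝ) ≤ K * (G.dist a b : ℝ) + C) ∧
          (∀ z : V, ∃ a : V, (G.dist (f a) z : ℝ) ≤ C) ∧
          (G.dist (f x) y : ℝ) ≤ C) ∧
      ∀ (H : Type) [Group H] (S : Set H), S.Finite → Subgroup.closure S = ⊤ →
        ¬ ∃ (φ : V → H) (K C : ℝ), 0 < K ∧
          (∀ a b : V,
              (G.dist a b : ℝ) / K - C ≤
                ((SimpleGraph.fromRel (fun g h : H => ∃ s ∈ S, h = g * s)).dist (φ a) (φ b) : ℝ) ∧
              ((SimpleGraph.fromRel (fun g h : H => ∃ s ∈ S, h = g * s)).dist (φ a) (φ b) : ℝ) ≤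
                K * (G.dist a b : ℝ) + C) ∧
          (∀ h : H, ∃ a : V,
              ((SimpleGraph.fromRel (fun g h : H => ∃ s ∈ S, h = g * s)).dist (φ a) h : ℝ) ≤ C) := by
  exact Pool.Agent.Y314.CT.final_of
    (Pool.Agent.Y328.CT.t_CAY Pool.Agent.Y314.CT.f_RD Pool.Agent.Y314.CT.f_CMP)

end Pool.Agent.S01673
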