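import Pool.Statements.S01696
import Pool.Agent.Y45.MON.Main


set_option autoImplicit false
open Pool Pool.MP_626817_al

namespace Pool.Agent.S01696

/-- The negation of the preceding statement: There is an algorithm that, given a word w in countably many variables, decides whether there are at most countably many fully invariant subgroups of the free group containing w, i.e. whether the variety defined by w = 1 has countably many subvarieties. -/
theorem result :
    ¬ (ComputablePred (fun L : List (ℕ × Bool) =>
      {N : Subgroup (FreeGroup ℕ) |
        (∀ f : FreeGroup ℕ →* FreeGroup ℕ, ∀ x ∈ N, f x ∈ N) ∧
          FreeGroup.mk L ∈ N}.Countable)) := by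
  exact Pool.Agent.Y45.MON.aSub

end Pool.Agent.S01696
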