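import Pool.Statements.S01996
-- import your own Pool.Agent.* helpers here
import Pool.Agent.Y36.PG.Fin

set_option autoImplicit false
open Pool Pool.MP_794d84_al

namespace Pool.Agent.S01996

/-- The negation of the preceding statement: For a group with a finite symmetric generating set S, if the number of geodesic words over S of length at most n is bounded by C(n+1)^d, then some finite-index subgroup has nilpotency class at most 2. -/
theorem result :
    ¬ (∀ (G : Type) [Group G] (S : Finset G),
      (∀ s ∈ S, s⁻¹ ∈ S) →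
      Subgroup.closure (S : Set G) = ⊤ →
      (∃ C d : ℕ, ∀ n : ℕ,
        Set.ncard {w : List G | w.length ≤ n ∧ (∀ x ∈ w, x ∈ S) ∧
          ∀ v : List G, (∀ x ∈ v, x ∈ S) → v.prod = w.prod → w.length ≤ v.length}
          ≤ C * (n + 1) ^ d) →
      ∃ H : Subgroup G, H.FiniteIndex ∧ lowerCentralSeries H 2 = ⊥) := by
  classical
  intro hmain
  obtain ⟨C, hC⟩ := Pool.Agent.Y36.PG.tc_bounded
  obtain ⟨H, hH, hH2⟩ := hmain Pool.Agent.Y36.PG.GG
    (Finset.univ.image Pool.Agent.Y36.PG.slG) (by
      intro s hs
      rw [Finset.mem_image] at hs ⊢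
      obtain ⟨x, -, rfl⟩ := hs
      obtain ⟨y, hy⟩ := Pool.Agent.Y36.PG.slG_inv x
      exact ⟨y, Finset.mem_univ _, hy.symm⟩) (by
      rw [Finset.coe_image, Finset.coe_univ, Set.image_univ]
      exact Pool.Agent.Y36.PG.closure_slG)
    ⟨4 ^ (2 * C + 1), 2 * C + 1, fun n => by
      obtain ⟨hfin, hcard⟩ := Pool.Agent.Y36.PG.count_blocks (2 * C + 1) n
      have hsub : {w : List Pool.Agent.Y36.PG.GG | w.length ≤ n ∧
          (∀ x ∈ w, x ∈ Finset.univ.image Pool.Agent.Y36.PG.slG) ∧
          ∀ v : List Pool.Agent.Y36.PG.GG,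
            (∀ x ∈ v, x ∈ Finset.univ.image Pool.Agent.Y36.PG.slG) →
            v.prod = w.prod → w.length ≤ v.length} ⊆
          (fun w => List.map Pool.Agent.Y36.PG.slG w) ''
            {w : List (Bool ⊕ Bool) | Pool.Agent.Y36.PG.Blk w (2 * C + 1) ∧ w.length ≤ n} := by
        rintro w ⟨hw1, hw2, hw3⟩
        have hw4 : w ∈ Set.range (List.map Pool.Agent.Y36.PG.slG) := by
          rw [Set.range_list_map]
          intro x hx
          have := hw2 x hx
          rw [Finset.mem_image] at this
          obtain ⟨y, -, hy⟩ := this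
          exact ⟨y, hy⟩
        obtain ⟨w', rfl⟩ := hw4
        have hgeo : ∀ v, Pool.Agent.Y36.PG.val Pool.Agent.Y36.PG.sl v =
            Pool.Agent.Y36.PG.val Pool.Agent.Y36.PG.sl w' → w'.length ≤ v.length := by
          intro v hv
          have := hw3 (v.map Pool.Agent.Y36.PG.slG) (by
            intro x hx
            rw [List.mem_map] at hx
            obtain ⟨y, -, rfl⟩ := hx
            exact Finset.mem_image_of_mem _ (Finset.mem_univ _)) (by
            apply Subtype.ext
            rw [Pool.Agent.Y36.PG.coe_val, Pool.Agent.Y36.PG.coe_val, hv])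
          simpa using this
        refine ⟨w', ⟨(Pool.Agent.Y36.PG.blocks w' hgeo).mono ?_, by simpa using hw1⟩, rfl⟩
        have := hC w' hgeo
        omega
      refine (Set.ncard_le_ncard hsub (hfin.image _)).trans ?_
      refine (Set.ncard_image_le hfin).trans (hcard.trans ?_)
      rw [mul_pow]⟩
  exact Pool.Agent.Y36.PG.not_class_two H hH hH2

end Pool.Agent.S01996
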