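import Pool.Statements.S02012
import Pool.Agent.Y39.KleinTransport

set_option autoImplicit false
open Pool Pool.MP_79f901_al

namespace Pool.Agent.S02012

/-- The negation of the preceding statement: For every branch group L acting on a spherically homogeneous rooted tree, every automorphism of L is conjugation by a unique tree automorphism, so Aut L equals the normalizer of L in Aut T. -/
theorem result :
    ¬ (∀ (m : ℕ → ℕ), (∀ n, 2 ≤ m n) →
    ∀ L : Subgroup (Equiv.Perm {l : List ℕ // ∀ i (h : i < l.length), l.get ⟨i, h⟩ < m i}),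
    (∀ g ∈ L, ∀ v w : {l : List ℕ // ∀ i (h : i < l.length), l.get ⟨i, h⟩ < m i},
        (List.IsPrefix v.1 w.1 ↔ List.IsPrefix (g v).1 (g w).1)) →
    (∀ v w : {l : List ℕ // ∀ i (h : i < l.length), l.get ⟨i, h⟩ < m i},
        v.1.length = w.1.length → ∃ g ∈ L, g v = w) →
    (∀ n : ℕ, ((Subgroup.closure
        {g : Equiv.Perm {l : List ℕ // ∀ i (h : i < l.length), l.get ⟨i, h⟩ < m i} |
          g ∈ L ∧ ∃ u : {l : List ℕ // ∀ i (h : i < l.length), l.get ⟨i, h⟩ < m i},
            u.1.length = n ∧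
            ∀ v : {l : List ℕ // ∀ i (h : i < l.length), l.get ⟨i, h⟩ < m i},
              ¬ List.IsPrefix u.1 v.1 → g v = v}).subgroupOf L).index ≠ 0) →
    ∀ φ : L ≃* L,
      ∃! σ : Equiv.Perm {l : List ℕ // ∀ i (h : i < l.length), l.get ⟨i, h⟩ < m i},
        (∀ v w : {l : List ℕ // ∀ i (h : i < l.length), l.get ⟨i, h⟩ < m i},
          (List.IsPrefix v.1 w.1 ↔ List.IsPrefix (σ v).1 (σ w).1)) ∧
        ∀ g : L, ((φ g : L) : Equiv.Perm {l : List ℕ // ∀ i (h : i < l.length), l.get ⟨i, h⟩ < m i})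
          = σ * (g : Equiv.Perm {l : List ℕ // ∀ i (h : i < l.length), l.get ⟨i, h⟩ < m i}) * σ⁻¹) := by
  intro H
  obtain ⟨σ, ⟨h1, h2⟩, -⟩ := H (fun _ => 2) (fun _ => le_rfl) Pool.Agent.Y39.BinTree.LW
    Pool.Agent.Y39.BinTree.LW_pres Pool.Agent.Y39.BinTree.LW_trans
    Pool.Agent.Y39.BinTree.LW_branch Pool.Agent.Y39.BinTree.phW
  exact Pool.Agent.Y39.BinTree.phW_not_conj σ h1 h2

end Pool.Agent.S02012
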