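import Pool.Statements.S02038
import Pool.Agent.Y45.TG.Main

set_option autoImplicit false
open Pool Pool.MP_7d16da_al

namespace Pool.Agent.S02038

/-- The negation of the preceding statement: For any set of group laws whose variety contains a nonabelian group but only abelian finite groups, every group satisfying those laws has all its subnormal subgroups normal. -/
theorem result :
    ¬ (∀ L : Set (FreeGroup ℕ),
      (∃ (G : Type) (_ : Group G),
          (∀ w ∈ L, ∀ φ : FreeGroup ℕ →* G, φ w = 1) ∧ ∃ a b : G, a * b ≠ b * a) →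
      (∀ (G : Type) [Group G] [Finite G],
          (∀ w ∈ L, ∀ φ : FreeGroup ℕ →* G, φ w = 1) → ∀ a b : G, a * b = b * a) →
      ∀ (G : Type) [Group G],
        (∀ w ∈ L, ∀ φ : FreeGroup ℕ →* G, φ w = 1) →
        ∀ H : Subgroup G,
          (∃ n : ℕ, ∃ f : ℕ → Subgroup G, f 0 = H ∧ f n = ⊤ ∧
              ∀ i < n, f i ≤ f (i + 1) ∧ ((f i).subgroupOf (f (i + 1))).Normal) →
          H.Normal) :=
  Pool.Agent.Y45.TG.goal

end Pool.Agent.S02038
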