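import Pool.Statements.S02070
import Pool.Agent.Y58.Onn.Inst

set_option autoImplicit false
open Pool Pool.MP_7ed69f_al

namespace Pool.Agent.S02070

/-- The negation of the preceding statement: For all N,r ≥ 2 there is a finite set of integer polynomials of degree ≤ C(N,2)·r whose values at q are exactly the dimensions of irreducible complex reps of GL_N(o/p^r) nontrivial on the level-(r−1) kernel, for every compact DVR o. -/
theorem result :
    ¬ (∀ N r : ℕ, 2 ≤ N → 2 ≤ r →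
    ∃ P : Finset (Polynomial ℤ), (∀ d ∈ P, d.natDegree ≤ N.choose 2 * r) ∧
    ∀ (R : Type) [CommRing R] [IsDomain R] [IsDiscreteValuationRing R]
      [Finite (IsLocalRing.ResidueField R)]
      [IsAdicComplete (IsLocalRing.maximalIdeal R) R],
    {z : ℤ | ∃ (V : Type) (_ : AddCommGroup V) (_ : Module ℂ V)
        (ρ : Representation ℂ
          (Matrix.GeneralLinearGroup (Fin N) (R ⧸ IsLocalRing.maximalIdeal R ^ r)) V),
        FiniteDimensional ℂ V ∧ Nontrivial V ∧
        (∀ W : Submodule ℂ V, (∀ g v, v ∈ W → ρ g v ∈ W) → W = ⊥ ∨ W = ⊤) ∧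
        (∃ g : Matrix.GeneralLinearGroup (Fin N) (R ⧸ IsLocalRing.maximalIdeal R ^ r),
          (∀ i j, ∃ a ∈ IsLocalRing.maximalIdeal R ^ (r - 1),
            g.val i j
              - (1 : Matrix (Fin N) (Fin N) (R ⧸ IsLocalRing.maximalIdeal R ^ r)) i j
              = Ideal.Quotient.mk (IsLocalRing.maximalIdeal R ^ r) a) ∧ ρ g ≠ 1) ∧
        (Module.finrank ℂ V : ℤ) = z}
    = (fun d : Polynomial ℤ => d.eval (Nat.card (IsLocalRing.ResidueField R) : ℤ)) ''
        (P : Set (Polynomial ℤ))) := by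
  classical
  intro hall
  obtain ⟨P, -, hP⟩ := hall 3 2 (by norm_num) (by norm_num)
  -- at every odd prime the value of `D` is attained
  have hD : Pool.Agent.Y58.Onn.D ∈ P := by
    apply Pool.Agent.Y58.Onn.D_mem
    intro p hp hp2
    haveI : Fact p.Prime := ⟨hp⟩
    have hcard := Pool.Agent.Y58.Onn.card_residueField p
    haveI hfin : Finite (IsLocalRing.ResidueField ℤ_[p]) :=
      Nat.finite_of_card_ne_zero (by rw [hcard]; exact hp.ne_zero)
    have hset := hP ℤ_[p]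
    let L := Pool.Agent.Y58.Onn.ofDVR ℤ_[p] (p : ℤ_[p]) PadicInt.irreducible_p
    haveI : Finite (ℤ_[p] ⧸ IsLocalRing.maximalIdeal ℤ_[p] ^ 2) := L.finite
    have h2 : (2 : IsLocalRing.ResidueField ℤ_[p]) ≠ 0 := by
      intro h
      have h1 := congrArg (PadicInt.residueField (p := p)) h
      rw [map_ofNat, map_zero] at h1
      have h3 : ((2 : ℕ) : ZMod p) = 0 := by exact_mod_cast h1
      rw [ZMod.natCast_eq_zero_iff] at h3
      exact hp2 ((Nat.prime_dvd_prime_iff_eq hp Nat.prime_two).1 h3)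
    obtain ⟨V, _, _, ρ, hfd, hnt, hirr, hprim, hdim⟩ := L.exists_rep h2
    have hz : ((Module.finrank ℂ V : ℕ) : ℤ) ∈ (fun d : Polynomial ℤ =>
        d.eval (Nat.card (IsLocalRing.ResidueField ℤ_[p]) : ℤ)) '' (P : Set (Polynomial ℤ)) := by
      rw [← hset]
      refine ⟨V, inferInstance, inferInstance, ρ, hfd, hnt, hirr, ⟨L.u (Matrix.single 1 1 1), ?_,
        hprim⟩, rfl⟩
      intro i j
      obtain ⟨a, ha⟩ := Ideal.Quotient.mk_surjective
        ((Matrix.single 1 1 1 : Matrix (Fin 3) (Fin 3)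
          (ℤ_[p] ⧸ IsLocalRing.maximalIdeal ℤ_[p] ^ 2)) i j)
      refine ⟨(p : ℤ_[p]) * a, ?_, ?_⟩
      · rw [show 2 - 1 = 1 from rfl, pow_one, PadicInt.maximalIdeal_eq_span_p,
          Ideal.mem_span_singleton]
        exact ⟨a, rfl⟩
      · rw [map_mul, ha]
        change (1 + L.π • (Matrix.single 1 1 1 : Matrix (Fin 3) (Fin 3)
          (ℤ_[p] ⧸ IsLocalRing.maximalIdeal ℤ_[p] ^ 2))) i j - _ = _
        rw [Matrix.add_apply, Matrix.smul_apply, smul_eq_mul, add_sub_cancel_left]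
        rfl
    obtain ⟨d, hd, hdz⟩ := hz
    refine ⟨d, hd, ?_⟩
    simp only [hcard, hdim] at hdz
    rw [hdz, Pool.Agent.Y58.Onn.D_eval]
    push_cast
    ring
  -- the prime two
  haveI : Fact (Nat.Prime 2) := ⟨Nat.prime_two⟩
  have hcard := Pool.Agent.Y58.Onn.card_residueField 2
  haveI hfin : Finite (IsLocalRing.ResidueField ℤ_[2]) :=
    Nat.finite_of_card_ne_zero (by rw [hcard]; norm_num)
  have hset := hP ℤ_[2]
  have hz : (Pool.Agent.Y58.Onn.D).eval (2 : ℤ) ∈ (fun d : Polynomial ℤ =>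
        d.eval (Nat.card (IsLocalRing.ResidueField ℤ_[2]) : ℤ)) '' (P : Set (Polynomial ℤ)) := by
    refine ⟨_, hD, ?_⟩
    simp only [hcard]
    norm_num
  rw [← hset] at hz
  obtain ⟨V, _, _, ρ, hfd, hnt, hirr, -, hdim⟩ := hz
  let L := (Pool.Agent.Y58.Onn.ofDVR ℤ_[2] ((2 : ℕ) : ℤ_[2]) PadicInt.irreducible_p).trans
    (PadicInt.residueField (p := 2))
  haveI : Finite (ℤ_[2] ⧸ IsLocalRing.maximalIdeal ℤ_[2] ^ 2) := L.finite
  have h84 := Pool.Agent.Y58.Onn.finrank_le_84 L (ρ := ρ) hirr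
  rw [Pool.Agent.Y58.Onn.D_eval] at hdim
  norm_num at hdim
  omega

end Pool.Agent.S02070
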