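import Pool.Statements.S02286
import Pool.Agent.Y49.ZariskiProd

set_option autoImplicit false
open Pool Pool.MP_91b10e_al

namespace Pool.Agent.S02286

/-- The negation of the preceding statement: For every group G, if the Zariski topology (closed subbasis: solution sets of one-variable equations with constants from G) is compact, then it is Noetherian. -/
theorem result :
    ¬ (∀ (G : Type) [Group G],
      @IsCompact G
        (TopologicalSpace.generateFrom
          {U : Set G | ∃ w : Monoid.Coprod G (Multiplicative ℤ),
            U = {x : G | Monoid.Coprod.lift (MonoidHom.id G) (zpowersHom G x) w ≠ 1}})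
        Set.univ →
      @TopologicalSpace.NoetherianSpace G
        (TopologicalSpace.generateFrom
          {U : Set G | ∃ w : Monoid.Coprod G (Multiplicative ℤ),
            U = {x : G | Monoid.Coprod.lift (MonoidHom.id G) (zpowersHom G x) w ≠ 1}})) := by
  intro h
  have h1 := h Pool.Agent.Y49.ZariskiProd.G
  rw [Pool.Agent.Y49.ZariskiProd.zariski_int_eq] at h1
  have h2 := h1 isCompact_univ
  have h3 : Finite Pool.Agent.Y49.ZariskiProd.G :=
    @TopologicalSpace.NoetherianSpace.finite _ _ h2 inferInstance
  exact (@not_finite _ Pool.Agent.Y49.ZariskiProd.infinite_G h3)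

end Pool.Agent.S02286
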