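import Pool.Statements.S02340
import Pool.Agent.Y52.RS.Fin
import Pool.Agent.Y899.RS.GenJob
import Pool.Agent.Y899.RS.SegJob
import Pool.Agent.Y48.RS.BT
import Pool.Agent.Y43.RS.ELL
import Pool.Agent.Y43.RS.FR
import Pool.Agent.Y434.RS.TT
import Pool.Agent.Y44.RS.TH
import Pool.Agent.Y67.RS.RT
import Pool.Agent.Y44.RS.FRS

set_option autoImplicit false
open Pool Pool.MP_94a9ea_al

namespace Pool.Agent.S02340

/-- The negation of the preceding statement: Every group in which no nonempty product of conjugates of a non-identity element equals the identity admits a linear order invariant under right multiplication. -/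
theorem result :
    ¬ (∀ (G : Type) [Group G],
      (∀ g : G, g ≠ 1 → ∀ l : List G, l ≠ [] →
        (l.map (fun h => h * g * h⁻¹)).prod ≠ 1) →
      ∃ o : LinearOrder G, ∀ a b c : G, a ≤ b → a * c ≤ b * c) := by
  exact Pool.Agent.Y52.RS.final Pool.Agent.Y899.RS.GenJob.main Pool.Agent.Y899.RS.SegJob.main
    Pool.Agent.Y48.RS.BT.main Pool.Agent.Y43.RS.ELL.main Pool.Agent.Y43.RS.FR.main
    Pool.Agent.Y434.RS.TT.main Pool.Agent.Y44.RS.main Pool.Agent.Y67.RT.main
    Pool.Agent.Y44.RS.FRS.main

end Pool.Agent.S02340
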