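import Pool.Statements.S02436
import Pool.Agent.TH646.Kerv

set_option autoImplicit false
open Pool Pool.MP_9999b4_al

namespace Pool.Agent.S02436

/-- The negation of the preceding statement: For every group G and every nonsingular system of n words in G free-product F_n, with H the quotient by their normal closure: if a product of conjugates in H of the images of g_1..g_r equals 1, then some product of G-conjugates of g_1..g_r equals 1. -/
theorem result :
    ¬ (∀ (G : Type) [Group G] (n : ℕ), 1 ≤ n →
    ∀ (w : Fin n → Monoid.Coprod G (FreeGroup (Fin n))),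
      (Matrix.of (fun i j : Fin n => Multiplicative.toAdd
        (Monoid.Coprod.lift (1 : G →* Multiplicative ℤ)
          (FreeGroup.lift (fun k : Fin n =>
            if k = i then Multiplicative.ofAdd (1 : ℤ) else 1)) (w j)))).det ≠ 0 →
      ∀ (r : ℕ), 1 ≤ r → ∀ g : Fin r → G,
        (∃ h : Fin r → (Monoid.Coprod G (FreeGroup (Fin n)) ⧸
              Subgroup.normalClosure (Set.range w)),
          (List.ofFn (fun i => h i *
              QuotientGroup.mk' (Subgroup.normalClosure (Set.range w))
                (Monoid.Coprod.inl (g i)) * (h i)⁻¹)).prod = 1) →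
        ∃ x : Fin r → G, (List.ofFn (fun i => x i * g i * (x i)⁻¹)).prod = 1) := by
  intro H
  exact Pool.Agent.TH646.Kerv.no_lift (H _ 1 le_rfl Pool.Agent.TH646.Kerv.w
    Pool.Agent.TH646.Kerv.det_ne 23 (by norm_num) Pool.Agent.TH646.Kerv.g
    Pool.Agent.TH646.Kerv.in_H)

end Pool.Agent.S02436
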