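import Pool.Statements.S02558
import Pool.Agent.Y40.HRSeq

set_option autoImplicit false
open Pool Pool.MP_a2d0bb_al

namespace Pool.Agent.S02558

/-- The negation of the preceding statement: There is a countable set of increasing homeomorphisms of the real line that is not contained in the subgroup generated by any two increasing homeomorphisms of the real line. -/
theorem result :
    ¬ (∃ S : Set (Equiv.Perm ℝ), S.Countable ∧ (∀ σ ∈ S, StrictMono ⇑σ) ∧
      ∀ f g : Equiv.Perm ℝ, StrictMono ⇑f → StrictMono ⇑g →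
        ¬ S ⊆ (Subgroup.closure ({f, g} : Set (Equiv.Perm ℝ)) : Set (Equiv.Perm ℝ))) := by
  rintro ⟨S, hS, hm, h⟩
  rcases S.eq_empty_or_nonempty with rfl | hne
  · exact h 1 1 (fun _ _ h => h) (fun _ _ h => h) (Set.empty_subset _)
  · obtain ⟨s, rfl⟩ := hS.exists_eq_range hne
    obtain ⟨f, g, hf, hg, hfg⟩ := Pool.Agent.Y40.HR.main_seq s (fun i => hm _ ⟨i, rfl⟩)
    apply h f g hf hg
    rintro _ ⟨i, rfl⟩
    exact hfg i

end Pool.Agent.S02558
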