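import Pool.Statements.S02592
import Pool.Agent.S02725

set_option autoImplicit false
open Pool Pool.MP_a5fc06_al

namespace Pool.Agent.S02592

/-- A homomorphism from the free group on `ℕ` into a quotient of a free group lifts. -/
theorem lift_hom {β : Type} (R : Subgroup (FreeGroup β)) [R.Normal]
    (φ : FreeGroup ℕ →* FreeGroup β ⧸ R) :
    ∃ ψ : FreeGroup ℕ →* FreeGroup β, (QuotientGroup.mk' R).comp ψ = φ := by
  choose a ha using fun n : ℕ => QuotientGroup.mk'_surjective R (φ (FreeGroup.of n))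
  refine ⟨FreeGroup.lift a, ?_⟩
  apply FreeGroup.ext_hom
  intro n
  rw [MonoidHom.comp_apply, FreeGroup.lift_apply_of, ha]

/-- Finitely many homomorphisms from a quotient of a free group of finite rank to a finite group. -/
theorem finite_homs {n : ℕ} (R : Subgroup (FreeGroup (Fin n))) [R.Normal]
    (Q : Type) [Group Q] [Finite Q] : Finite (FreeGroup (Fin n) ⧸ R →* Q) := by
  refine Finite.of_injective
    (fun φ : FreeGroup (Fin n) ⧸ R →* Q => fun i : Fin n => φ (QuotientGroup.mk (FreeGroup.of i))) ?_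
  intro φ ψ h
  apply QuotientGroup.monoidHom_ext
  apply FreeGroup.ext_hom
  intro i
  exact congrFun h i

/-- Malcev: a residually finite quotient of a free group of finite rank is Hopfian. -/
theorem malcev {n : ℕ} (R : Subgroup (FreeGroup (Fin n))) [R.Normal]
    (hrf : ∀ g : FreeGroup (Fin n) ⧸ R, g ≠ 1 →
      ∃ H : Subgroup (FreeGroup (Fin n) ⧸ R), H.index ≠ 0 ∧ g ∉ H)
    (f : (FreeGroup (Fin n) ⧸ R) →* (FreeGroup (Fin n) ⧸ R)) (hs : Function.Surjective f) :
    Function.Injective f := by
  rw [injective_iff_map_eq_one]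
  intro g hg
  by_contra hne
  obtain ⟨H, hH, hgH⟩ := hrf g hne
  have : H.FiniteIndex := ⟨hH⟩
  let K : Subgroup (FreeGroup (Fin n) ⧸ R) := H.normalCore
  have : Finite ((FreeGroup (Fin n) ⧸ R) ⧸ K) := inferInstance
  have := finite_homs R ((FreeGroup (Fin n) ⧸ R) ⧸ K)
  have hinj : Function.Injective
      (fun φ : (FreeGroup (Fin n) ⧸ R) →* ((FreeGroup (Fin n) ⧸ R) ⧸ K) => φ.comp f) := by
    intro φ ψ h
    refine MonoidHom.ext (fun x => ?_)
    obtain ⟨y, rfl⟩ := hs x
    exact DFunLike.congr_fun h y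
  obtain ⟨φ, hφ⟩ := (Finite.injective_iff_surjective.mp hinj) (QuotientGroup.mk' K)
  have h1 : QuotientGroup.mk' K g = 1 := by
    rw [← hφ]
    change φ (f g) = 1
    rw [hg, map_one]
  have h2 : g ∈ K := (QuotientGroup.eq_one_iff g).mp h1
  exact hgH (H.normalCore_le h2)

/-- The negation of the preceding statement: For every set of group laws and every rank, if the relatively free group (free group modulo the verbal subgroup of those laws) is soluble, then every nontrivial element avoids some finite-index subgroup, i.e. the group is residually finite. -/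
theorem result :
    ¬ (∀ (W : Set (FreeGroup ℕ)) (α : Type),
      IsSolvable (FreeGroup α ⧸ Subgroup.normalClosure
        {x : FreeGroup α | ∃ w ∈ W, ∃ φ : FreeGroup ℕ →* FreeGroup α, φ w = x}) →
      ∀ g : FreeGroup α ⧸ Subgroup.normalClosure
          {x : FreeGroup α | ∃ w ∈ W, ∃ φ : FreeGroup ℕ →* FreeGroup α, φ w = x},
        g ≠ 1 →
          ∃ H : Subgroup (FreeGroup α ⧸ Subgroup.normalClosure
              {x : FreeGroup α | ∃ w ∈ W, ∃ φ : FreeGroup ℕ →* FreeGroup α, φ w = x}),
            H.index ≠ 0 ∧ g ∉ H) := by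
  intro hall
  obtain ⟨L, d, hd, n, f, hs, hi⟩ := Pool.Agent.S02725.result
  apply hi
  refine malcev _ (hall L (Fin n) ?_) f hs
  refine ⟨⟨d, ?_⟩⟩
  apply hd
  intro w hw φ
  obtain ⟨ψ, rfl⟩ := lift_hom _ φ
  change (QuotientGroup.mk (ψ w) : FreeGroup (Fin n) ⧸ _) = 1
  rw [QuotientGroup.eq_one_iff]
  exact Subgroup.subset_normalClosure ⟨w, hw, ψ, rfl⟩

end Pool.Agent.S02592
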