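import Pool.Statements.S02672
import Pool.Agent.Results.MP_ac3292_al.NoSplit

set_option autoImplicit false
open Pool Pool.MP_ac3292_al

namespace Pool.Agent.S02672

/-- The negation of the preceding statement: For all f.g. G with Cayley graph Γ and m:ℕ: if asdim G ≥ m+2 and some X with asdim X ≤ m coarsely separates Γ (two distinct deep components of the complement of the r-neighbourhood), then G is a nontrivial amalgam K₀ *_H K₁ or an HNN extension A*_H over some subgroup H with asdim H ≤ m+1. -/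
theorem result :
    ¬ (∀ (G : Type) [Group G] (S : Finset G), Subgroup.closure (S : Set G) = ⊤ →
  ∀ (Γ : SimpleGraph G), Γ = SimpleGraph.fromRel (fun g h : G => g⁻¹ * h ∈ S) →
  ∀ (asdimLE : Set G → ℕ → Prop),
    (∀ (Y : Set G) (k : ℕ), asdimLE Y k ↔
      ∀ R : ℕ, ∃ 𝒰 : Set (Set G), (∀ U ∈ 𝒰, U ⊆ Y) ∧ Y ⊆ ⋃₀ 𝒰 ∧
        (∃ D : ℕ, ∀ U ∈ 𝒰, ∀ a ∈ U, ∀ b ∈ U, Γ.dist a b ≤ D) ∧
        ∀ y ∈ Y, {U ∈ 𝒰 | ∃ z ∈ U, Γ.dist y z ≤ R}.encard ≤ (k + 1 : ℕ∞)) →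
  ∀ (m : ℕ), ¬ asdimLE Set.univ (m + 1) →
  ∀ (X : Set G), asdimLE X m →
  (∃ r : ℕ, ∃ Ω : Set G, Ω = {v : G | ∀ x ∈ X, r < Γ.dist v x} ∧
    ∃ C₁ C₂ : (Γ.induce Ω).ConnectedComponent, C₁ ≠ C₂ ∧
      ∀ C : (Γ.induce Ω).ConnectedComponent, (C = C₁ ∨ C = C₂) →
        ∀ D : ℕ, ∃ v : Ω, (Γ.induce Ω).connectedComponentMk v = C ∧
          ∀ x ∈ X, D < Γ.dist (v : G) x) →
  ∃ H : Subgroup G, asdimLE (H : Set G) (m + 1) ∧
    ((∃ (K : Bool → Subgroup G) (hK : ∀ i, H ≤ K i), (∀ i, H ≠ K i) ∧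
        ∃ e : Monoid.PushoutI (fun i : Bool => Subgroup.inclusion (hK i)) ≃* G,
          ∀ (i : Bool) (a : K i), e (Monoid.PushoutI.of i a) = (a : G)) ∨
     (∃ (A : Subgroup G) (B₁ B₂ : Subgroup A) (φ : B₁ ≃* B₂)
        (e : HNNExtension A B₁ B₂ φ ≃* G),
          (∀ a : A, e (HNNExtension.of a) = (a : G)) ∧ H = B₁.map A.subtype))) := by
  classical
  intro H
  obtain ⟨G, instG, S, hS, hasd, ⟨X, hX, hsep⟩, hns⟩ :=
    Pool.Agent.Results.MP_ac3292_al.NoSplit.result 2 le_rfl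
  obtain ⟨r, hr, C₁, C₂, hne, hC₁, hC₂⟩ := hsep
  have key := H G S hS (Pool.Agent.Results.MP_ac3292_al.NoSplit.cayley S) rfl
    (fun Y k => ∀ R : ℕ, ∃ 𝒰 : Set (Set G), (∀ U ∈ 𝒰, U ⊆ Y) ∧ Y ⊆ ⋃₀ 𝒰 ∧
        (∃ D : ℕ, ∀ U ∈ 𝒰, ∀ a ∈ U, ∀ b ∈ U,
          (Pool.Agent.Results.MP_ac3292_al.NoSplit.cayley S).dist a b ≤ D) ∧
        ∀ y ∈ Y, {U ∈ 𝒰 | ∃ z ∈ U,
          (Pool.Agent.Results.MP_ac3292_al.NoSplit.cayley S).dist y z ≤ R}.encard ≤ (k + 1 : ℕ∞))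
    (fun _ _ => Iff.rfl) 0
  -- the asymptotic dimension of the group
  have a1 : ¬ ∀ R : ℕ, ∃ 𝒰 : Set (Set G), (∀ U ∈ 𝒰, U ⊆ Set.univ) ∧ Set.univ ⊆ ⋃₀ 𝒰 ∧
        (∃ D : ℕ, ∀ U ∈ 𝒰, ∀ a ∈ U, ∀ b ∈ U,
          (Pool.Agent.Results.MP_ac3292_al.NoSplit.cayley S).dist a b ≤ D) ∧
        ∀ y ∈ Set.univ, {U ∈ 𝒰 | ∃ z ∈ U,
          (Pool.Agent.Results.MP_ac3292_al.NoSplit.cayley S).dist y z ≤ R}.encard ≤
            ((0 + 1 : ℕ) + 1 : ℕ∞) := by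
    intro h
    refine hasd (fun R => ?_)
    obtain ⟨𝒰, h1, h2, ⟨D, h3⟩, h4⟩ := h R
    refine ⟨𝒰, fun U => U.1, D, fun U => h1 U.1 U.2, fun y hy => ?_,
      fun U => h3 U.1 U.2, fun y hy => ?_⟩
    · obtain ⟨U, hU, hyU⟩ := h2 hy
      exact ⟨⟨U, hU⟩, hyU⟩
    · have h5 := h4 y hy
      have h6 : (Subtype.val '' {U : 𝒰 | ∃ z ∈ U.1,
          (Pool.Agent.Results.MP_ac3292_al.NoSplit.cayley S).dist y z ≤ R}) =
          {U ∈ 𝒰 | ∃ z ∈ U,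
          (Pool.Agent.Results.MP_ac3292_al.NoSplit.cayley S).dist y z ≤ R} := by
        ext U
        constructor
        · rintro ⟨V, hV, rfl⟩
          exact ⟨V.2, hV⟩
        · rintro ⟨hU, hV⟩
          exact ⟨⟨U, hU⟩, hV, rfl⟩
      rw [← Subtype.val_injective.encard_image, h6]
      exact h5
  -- the asymptotic dimension of the separating set
  have a2 : ∀ R : ℕ, ∃ 𝒰 : Set (Set G), (∀ U ∈ 𝒰, U ⊆ X) ∧ X ⊆ ⋃₀ 𝒰 ∧
        (∃ D : ℕ, ∀ U ∈ 𝒰, ∀ a ∈ U, ∀ b ∈ U,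
          (Pool.Agent.Results.MP_ac3292_al.NoSplit.cayley S).dist a b ≤ D) ∧
        ∀ y ∈ X, {U ∈ 𝒰 | ∃ z ∈ U,
          (Pool.Agent.Results.MP_ac3292_al.NoSplit.cayley S).dist y z ≤ R}.encard ≤
            ((0 : ℕ) + 1 : ℕ∞) := by
    intro R
    obtain ⟨ι, U, D, h1, h2, h3, h4⟩ := hX R
    refine ⟨Set.range U, ?_, ?_, ⟨D, ?_⟩, ?_⟩
    · rintro _ ⟨i, rfl⟩
      exact h1 i
    · intro y hy
      obtain ⟨i, hi⟩ := h2 y hy
      exact ⟨U i, ⟨i, rfl⟩, hi⟩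
    · rintro _ ⟨i, rfl⟩
      exact h3 i
    · intro y hy
      have h5 := h4 y hy
      have h6 : {V ∈ Set.range U | ∃ z ∈ V,
          (Pool.Agent.Results.MP_ac3292_al.NoSplit.cayley S).dist y z ≤ R} ⊆
          U '' {i | ∃ z ∈ U i,
          (Pool.Agent.Results.MP_ac3292_al.NoSplit.cayley S).dist y z ≤ R} := by
        rintro _ ⟨⟨i, rfl⟩, h7⟩
        exact ⟨i, h7, rfl⟩
      exact (Set.encard_le_encard h6).trans ((Set.encard_image_le _ _).trans h5)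
  -- the separation
  have a3 := key a1 X a2 ⟨r, _, rfl, C₁, C₂, hne, by
    rintro C (rfl | rfl) D
    · obtain ⟨v, hv, h⟩ := hC₁ D
      exact ⟨v, hv, h⟩
    · obtain ⟨v, hv, h⟩ := hC₂ D
      exact ⟨v, hv, h⟩⟩
  obtain ⟨K, hK1, hK2⟩ := a3
  -- the conclusion contradicts the absence of splittings
  refine hns K ?_
  rcases hK2 with ⟨P, hP, hPne, e, he⟩ | ⟨A, B₁, B₂, φ, e, he, hKB⟩
  · refine Or.inl ⟨fun i => P i, fun i => inferInstance, fun i => Subgroup.inclusion (hP i),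
      fun i => Subgroup.inclusion_injective (hP i), fun i hsurj => hPne i ?_, e, fun h => ?_⟩
    · refine le_antisymm (hP i) (fun x hx => ?_)
      obtain ⟨y, hy⟩ := hsurj ⟨x, hx⟩
      have := congrArg Subtype.val hy
      have h2 : (y : G) = x := this
      rw [← h2]
      exact y.2
    · have h1 := Monoid.PushoutI.of_apply_eq_base (fun i : Bool => Subgroup.inclusion (hP i))
        true h
      rw [← h1, he]
      rfl
  · refine Or.inr ⟨A, inferInstance, B₁, B₂, φ, e, ?_⟩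
    rw [hKB]
    ext x
    simp only [Subgroup.mem_map]
    constructor
    · rintro ⟨a, ha, rfl⟩
      exact ⟨_, ⟨a, ha, rfl⟩, he a⟩
    · rintro ⟨_, ⟨a, ha, rfl⟩, rfl⟩
      exact ⟨a, ha, (he a).symm⟩

end Pool.Agent.S02672
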