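import Pool.Statements.S02695
import Pool.Agent.Y38.CC.Final

set_option autoImplicit false
open Pool Pool.MP_aed2d0_al

namespace Pool.Agent.S02695

/-- For every characteristic-zero field F and k ≥ 1, the ratio of central codimensions to ordinary codimensions of k×k matrices over F converges to some real limit between 0 and 1 as n goes to infinity. -/
theorem result :
    ∀ (F : Type) [Field F] [CharZero F] (k : ℕ), 1 ≤ k →
      ∃ α : ℝ, 0 ≤ α ∧ α ≤ 1 ∧
        Filter.Tendsto (fun n : ℕ =>
          (Module.finrank F (Submodule.span F (Set.range (fun σ : Equiv.Perm (Fin n) =>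
              fun x : Fin n → Matrix (Fin k) (Fin k) F =>
                Submodule.mkQ (Subalgebra.toSubmodule (Subalgebra.center F (Matrix (Fin k) (Fin k) F)))
                  (List.ofFn (fun i => x (σ i))).prod))) : ℝ) /
          (Module.finrank F (Submodule.span F (Set.range (fun σ : Equiv.Perm (Fin n) =>
              fun x : Fin n → Matrix (Fin k) (Fin k) F =>
                (List.ofFn (fun i => x (σ i))).prod))) : ℝ))
          Filter.atTop (nhds α) := by
  intro F _ _ k hk
  exact Pool.Agent.Y38.CC.main_result F k hk

end Pool.Agent.S02695
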