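import Pool.Statements.S02795
import Pool.Agent.Y33.RN.Final

set_option autoImplicit false
open Pool Pool.MP_b587bd_al

namespace Pool.Agent.S02795

/-- There is a finitely generated group G with an infinite, finitely generated normal subgroup H such that G's Cayley graph has a Morse geodesic ray (nonempty Morse boundary) but no Cayley graph of H does (empty Morse boundary). -/
theorem result :
    ∃ (G : Type) (_ : Group G) (H : Subgroup G),
      H.Normal ∧ Infinite ↥H ∧ Group.FG ↥H ∧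
      (∃ S : Finset G, Subgroup.closure (S : Set G) = ⊤ ∧
        ∃ γ : ℕ → G,
          (∀ m n : ℕ,
            (((SimpleGraph.fromRel (fun x y : G => x⁻¹ * y ∈ S)).dist (γ m) (γ n) : ℕ) : ℝ)
              = |(m : ℝ) - (n : ℝ)|) ∧
          ∃ N : ℝ → ℝ → ℝ, ∀ K C : ℝ, 1 ≤ K → 0 ≤ C →
            ∀ (L : ℕ) (q : ℕ → G),
              (∀ i j : ℕ, i ≤ L → j ≤ L →
                |(i : ℝ) - (j : ℝ)| / K - C
                    ≤ (((SimpleGraph.fromRel (fun x y : G => x⁻¹ * y ∈ S)).dist (q i) (q j) : ℕ) : ℝ) ∧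
                (((SimpleGraph.fromRel (fun x y : G => x⁻¹ * y ∈ S)).dist (q i) (q j) : ℕ) : ℝ)
                    ≤ K * |(i : ℝ) - (j : ℝ)| + C) →
              (∃ a : ℕ, q 0 = γ a) → (∃ b : ℕ, q L = γ b) →
              ∀ i : ℕ, i ≤ L → ∃ t : ℕ,
                (((SimpleGraph.fromRel (fun x y : G => x⁻¹ * y ∈ S)).dist (q i) (γ t) : ℕ) : ℝ)
                  ≤ N K C) ∧
      (∀ S : Finset ↥H, Subgroup.closure (S : Set ↥H) = ⊤ →
        ¬ ∃ γ : ℕ → ↥H,
          (∀ m n : ℕ,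
            (((SimpleGraph.fromRel (fun x y : ↥H => x⁻¹ * y ∈ S)).dist (γ m) (γ n) : ℕ) : ℝ)
              = |(m : ℝ) - (n : ℝ)|) ∧
          ∃ N : ℝ → ℝ → ℝ, ∀ K C : ℝ, 1 ≤ K → 0 ≤ C →
            ∀ (L : ℕ) (q : ℕ → ↥H),
              (∀ i j : ℕ, i ≤ L → j ≤ L →
                |(i : ℝ) - (j : ℝ)| / K - C
                    ≤ (((SimpleGraph.fromRel (fun x y : ↥H => x⁻¹ * y ∈ S)).dist (q i) (q j) : ℕ) : ℝ) ∧
                (((SimpleGraph.fromRel (fun x y : ↥H => x⁻¹ * y ∈ S)).dist (q i) (q j) : ℕ) : ℝ)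
                    ≤ K * |(i : ℝ) - (j : ℝ)| + C) →
              (∃ a : ℕ, q 0 = γ a) → (∃ b : ℕ, q L = γ b) →
              ∀ i : ℕ, i ≤ L → ∃ t : ℕ,
                (((SimpleGraph.fromRel (fun x y : ↥H => x⁻¹ * y ∈ S)).dist (q i) (γ t) : ℕ) : ℝ)
                  ≤ N K C) := by
  exact Pool.Agent.Y33.RN.final

end Pool.Agent.S02795
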