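import Pool.Statements.S02882
import Pool.Agent.Y26.FreeCW
import Pool.Agent.Y26.PalGen

set_option autoImplicit false
open Pool Pool.MP_bb0bfc_al

namespace Pool.Agent.S02882

open Pool.Agent.Y26

/-- The free group on `x, y` has finite palindromic width with respect to `{x, y, x y}`. -/
lemma free_pw : ∃ S : Finset (FreeGroup (Fin 2)), Subgroup.closure (S : Set (FreeGroup (Fin 2))) = ⊤ ∧
    ∃ n : ℕ, ∀ g : FreeGroup (Fin 2), ∃ L : List (List (FreeGroup (Fin 2))), L.length ≤ n ∧
      (∀ w ∈ L, w.reverse = w ∧ ∀ x ∈ w, x ∈ S ∨ x⁻¹ ∈ S) ∧ (L.map List.prod).prod = g := by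
  classical
  let x : FreeGroup (Fin 2) := FreeGroup.of 0
  let y : FreeGroup (Fin 2) := FreeGroup.of 1
  have hA : Subgroup.closure ({x, y} : Set (FreeGroup (Fin 2))) = ⊤ := by
    rw [eq_top_iff, ← FreeGroup.closure_range_of]
    apply Subgroup.closure_mono
    rintro _ ⟨i, rfl⟩
    fin_cases i
    · exact Or.inl rfl
    · exact Or.inr rfl
  let S : Finset (FreeGroup (Fin 2)) := {x, y, x * y}
  have hAS : ({x, y} : Set (FreeGroup (Fin 2))) ⊆ (S : Set (FreeGroup (Fin 2))) := by
    rintro z (rfl | rfl)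
    · simp [S]
    · simp [S]
  have hS : Subgroup.closure (S : Set (FreeGroup (Fin 2))) = ⊤ := by
    rw [eq_top_iff, ← hA]; exact Subgroup.closure_mono hAS
  have hcomm : commutator (FreeGroup (Fin 2)) ≤ PalGen.relSub (S : Set (FreeGroup (Fin 2))) := by
    apply PalGen.commutator_le hA hAS
    rintro a (rfl | rfl) b (rfl | rfl)
    · right; right; rfl
    · left; simp [S]
    · right; left; simp [S]
    · right; right; rfl
  refine ⟨S, hS, 3, fun g => ?_⟩
  -- every element is `x ^ a * y ^ b` modulo the commutator subgroup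
  have key : ∃ a b : ℤ, (x ^ a * y ^ b)⁻¹ * g ∈ commutator (FreeGroup (Fin 2)) := by
    have hg : g ∈ Subgroup.closure ({x, y} : Set (FreeGroup (Fin 2))) := by rw [hA]; trivial
    have h2 : ∃ a b : ℤ, Abelianization.of g =
        Abelianization.of x ^ a * Abelianization.of y ^ b := by
      induction hg using Subgroup.closure_induction with
      | mem z hz =>
        rcases hz with rfl | rfl
        · exact ⟨1, 0, by simp⟩
        · exact ⟨0, 1, by simp⟩
      | one => exact ⟨0, 0, by simp⟩
      | mul u v _ _ ihu ihv =>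
        obtain ⟨a, b, h⟩ := ihu
        obtain ⟨a', b', h'⟩ := ihv
        refine ⟨a + a', b + b', ?_⟩
        rw [map_mul, h, h', zpow_add, zpow_add]
        exact mul_mul_mul_comm _ _ _ _
      | inv u _ ih =>
        obtain ⟨a, b, h⟩ := ih
        refine ⟨-a, -b, ?_⟩
        rw [map_inv, h, mul_inv, zpow_neg, zpow_neg]
    obtain ⟨a, b, h⟩ := h2
    refine ⟨a, b, ?_⟩
    rw [← Abelianization.ker_of, MonoidHom.mem_ker, map_mul, map_inv, map_mul, map_zpow, map_zpow,
      h, inv_mul_cancel]
  obtain ⟨a, b, hab⟩ := key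
  obtain ⟨w1, e1, f1, g1⟩ := PalGen.zpow_pal (X := (S : Set (FreeGroup (Fin 2)))) (s := x)
    (by simp [S]) a
  obtain ⟨w2, e2, f2, g2⟩ := PalGen.zpow_pal (X := (S : Set (FreeGroup (Fin 2)))) (s := y)
    (by simp [S]) b
  obtain ⟨w3, e3, f3, g3⟩ := PalGen.relSub_pal (hcomm hab)
  refine ⟨[w1, w2, w3], by simp, ?_, ?_⟩
  · intro w hw
    simp only [List.mem_cons, List.not_mem_nil, or_false] at hw
    rcases hw with rfl | rfl | rfl
    · exact ⟨e1, fun z hz => f1 z hz⟩
    · exact ⟨e2, fun z hz => f2 z hz⟩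
    · exact ⟨e3, fun z hz => f3 z hz⟩
  · simp only [List.map_cons, List.map_nil, List.prod_cons, List.prod_nil, g1, g2, g3]
    group

/-- The negation of the preceding statement: For every finitely generated group G: some finite generating set gives a uniform bound on the number of palindromic words needed to write any element iff there is a uniform bound on the number of commutators needed to write any element of the derived subgroup. -/
theorem result :
    ¬ (∀ (G : Type) [Group G] [Group.FG G],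
      (∃ S : Finset G, Subgroup.closure (S : Set G) = ⊤ ∧
        ∃ n : ℕ, ∀ g : G, ∃ L : List (List G), L.length ≤ n ∧
          (∀ w ∈ L, w.reverse = w ∧ ∀ x ∈ w, x ∈ S ∨ x⁻¹ ∈ S) ∧
          (L.map List.prod).prod = g) ↔
      (∃ n : ℕ, ∀ g ∈ commutator G, ∃ l : List G, l.length ≤ n ∧
          (∀ c ∈ l, c ∈ commutatorSet G) ∧ l.prod = g)) := by
  intro H
  obtain ⟨n, hn⟩ := (H (FreeGroup (Fin 2))).1 free_pw
  obtain ⟨g, hg, h⟩ := FreeCW.infinite_width n
  obtain ⟨l, h1, h2, h3⟩ := hn g hg
  exact h l h1 h2 h3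

end Pool.Agent.S02882
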