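import Pool.Statements.S02883
import Pool.Agent.TH82.PC.Am

set_option autoImplicit false
open scoped Pointwise
open Pool Pool.MP_bb8083_al

namespace Pool.Agent.S02883

/-- For every group G and every partition of G into n pairwise disjoint sets, some cell A has (A·A⁻¹) raised to the power 4^(n−1) equal to a subgroup of G of finite index at most n. -/
theorem result :
    ∀ (G : Type) [Group G] (n : ℕ) (A : Fin n → Set G),
      Pairwise (fun i j => Disjoint (A i) (A j)) →
      (⋃ i, A i) = Set.univ →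
      ∃ i : Fin n, ∃ H : Subgroup G,
        ((A i * (A i)⁻¹) ^ (4 ^ (n - 1)) : Set G) = (H : Set G) ∧
        H.index ≠ 0 ∧ H.index ≤ n := by
  intro G _ n A _ hA
  match n, A, hA with
  | 0, A, hA =>
    have h : (1 : G) ∈ ⋃ i, A i := by rw [hA]; trivial
    obtain ⟨i, -⟩ := Set.mem_iUnion.1 h
    exact i.elim0
  | 1, A, hA =>
    obtain ⟨i, H, h1, h2, h3⟩ := Pool.Agent.TH82.PC.cover_one A hA
    refine ⟨i, H, h3 _ ?_, h1, h2⟩
    exact (Nat.div_le_self _ _).trans (by norm_num)
  | 2, A, hA =>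
    obtain ⟨i, H, h1, h2, h3⟩ := Pool.Agent.TH82.PC.cover_two A hA
    refine ⟨i, H, h3 _ ?_, h1, h2⟩
    exact (Nat.div_le_self _ _).trans (by norm_num)
  | n + 3, A, hA =>
    obtain ⟨i, H, h1, h2, h3⟩ := Pool.Agent.TH82.PC.cover_general (n + 3) A hA
    refine ⟨i, H, h3 _ ?_, h1, h2⟩
    have h4 : 3 * ((n + 3) / H.index) / 2 + 1 ≤ 3 * (n + 3) + 1 := by
      have := Nat.div_le_self (n + 3) H.index
      omega
    refine h4.trans ?_
    have h5 : ∀ m : ℕ, 3 * (m + 3) + 1 ≤ 4 ^ (m + 2) := by
      intro m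
      induction m with
      | zero => norm_num
      | succ m ih =>
        rw [show m + 1 + 2 = (m + 2) + 1 by ring, pow_succ]
        omega
    exact h5 n

end Pool.Agent.S02883
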