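import Pool.Statements.S03052
import Pool.Agent.Y651.PIU3

set_option autoImplicit false
open Pool Pool.MP_cacfbf_al

namespace Pool.Agent.S03052

/-- The negation of the preceding statement: For every prime p, field F of char p, Lie p-algebra L and PI non-unital subalgebra R of u(L): if n is the least positive integer such that some power of the standard polynomial S_2n vanishes on R, then n is a power of p. -/
theorem result :
    ¬ (∀ (p : ℕ), p.Prime → ∀ (F : Type) [Field F] [CharP F p] (L : Type) [LieRing L] [LieAlgebra F L]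
    (f : L → L),
    (∀ (a : F) (x : L), f (a • x) = a ^ p • f x) →
    (∀ x y : L, (LieAlgebra.ad F L x ^ p) y = ⁅f x, y⁆) →
    (∀ x y : L,
      UniversalEnvelopingAlgebra.ι F (f (x + y)) - UniversalEnvelopingAlgebra.ι F (f x)
        - UniversalEnvelopingAlgebra.ι F (f y)
      = (UniversalEnvelopingAlgebra.ι F x + UniversalEnvelopingAlgebra.ι F y) ^ p
        - UniversalEnvelopingAlgebra.ι F x ^ p - UniversalEnvelopingAlgebra.ι F y ^ p) →
    ∀ R : NonUnitalSubalgebra F (RingQuot (fun a b : UniversalEnvelopingAlgebra F L =>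
        ∃ x : L, a = UniversalEnvelopingAlgebra.ι F x ^ p ∧ b = UniversalEnvelopingAlgebra.ι F (f x))),
    (∃ m : ℕ, ∃ φ : FreeAlgebra F (Fin m), φ ≠ 0 ∧
      ∀ r : Fin m → RingQuot (fun a b : UniversalEnvelopingAlgebra F L =>
        ∃ x : L, a = UniversalEnvelopingAlgebra.ι F x ^ p ∧ b = UniversalEnvelopingAlgebra.ι F (f x)),
        (∀ i, r i ∈ R) → FreeAlgebra.lift F r φ = 0) →
    ∀ n : ℕ, 1 ≤ n →
      (∃ t : ℕ, 1 ≤ t ∧
        ∀ r : Fin (2 * n) → RingQuot (fun a b : UniversalEnvelopingAlgebra F L =>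
          ∃ x : L, a = UniversalEnvelopingAlgebra.ι F x ^ p ∧ b = UniversalEnvelopingAlgebra.ι F (f x)),
          (∀ i, r i ∈ R) →
          (∑ σ : Equiv.Perm (Fin (2 * n)),
            ((Equiv.Perm.sign σ : ℤˣ) : ℤ) • (List.ofFn fun i => r (σ i)).prod) ^ t = 0) →
      (∀ m : ℕ, 1 ≤ m → m < n →
        ¬ ∃ t : ℕ, 1 ≤ t ∧
          ∀ r : Fin (2 * m) → RingQuot (fun a b : UniversalEnvelopingAlgebra F L =>
            ∃ x : L, a = UniversalEnvelopingAlgebra.ι F x ^ p ∧ b = UniversalEnvelopingAlgebra.ι F (f x)),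
            (∀ i, r i ∈ R) →
            (∑ σ : Equiv.Perm (Fin (2 * m)),
              ((Equiv.Perm.sign σ : ℤˣ) : ℤ) • (List.ofFn fun i => r (σ i)).prod) ^ t = 0) →
      ∃ k : ℕ, n = p ^ k) := by
  intro hall
  let i1 : LieRing Y651.PIU.L := LieRing.ofAssociativeRing
  let i2 : LieAlgebra Y651.PIU.K Y651.PIU.L := LieAlgebra.ofAssociativeAlgebra
  have h := hall 3 Nat.prime_three Y651.PIU.K Y651.PIU.L Y651.PIU.cube Y651.PIU.cube_smul
    Y651.PIU.ad_cube' Y651.PIU.cube_add' (NonUnitalAlgHom.range Y651.PIU.Phi)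
    ⟨1, FreeAlgebra.ι _ 0 ^ 26 - FreeAlgebra.ι _ 0 ^ 2, ?_, ?_⟩ 2 (by norm_num) ⟨1, le_rfl, ?_⟩ ?_
  · obtain ⟨k, hk⟩ := h
    rcases k with _ | k
    · norm_num at hk
    · have : 3 ∣ 2 := ⟨3 ^ k, by rw [hk, pow_succ]; ring⟩
      omega
  · intro h0
    have := congrArg (FreeAlgebra.lift Y651.PIU.K (fun _ : Fin 1 => (Polynomial.X : Polynomial Y651.PIU.K))) h0
    simp only [map_sub, map_pow, FreeAlgebra.lift_ι_apply, map_zero] at this
    have := congrArg (fun q => q.coeff 26) this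
    simp [Polynomial.coeff_X_pow] at this
  · intro r hr
    obtain ⟨x, hx⟩ := (NonUnitalAlgHom.mem_range _).1 (hr 0)
    simp only [map_sub, map_pow, FreeAlgebra.lift_ι_apply]
    rw [← hx]
    rw [← Y651.PIU.Phi_pow x 26 (by norm_num), ← Y651.PIU.Phi_pow x 2 (by norm_num), Y651.PIU.pow26,
      sub_self]
  · intro r hr
    choose x hx using fun i => (NonUnitalAlgHom.mem_range _).1 (hr i)
    have key := congrArg Y651.PIU.Phi (Y651.PIU.s4 x)
    rw [map_sum, map_zero] at key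
    rw [pow_one, ← key]
    refine Finset.sum_congr rfl fun σ _ => ?_
    rw [map_zsmul]
    congr 1
    have e : ∀ i, r i = Y651.PIU.Phi (x i) := fun i => (hx i).symm
    simp only [e]
    simp [List.ofFn_succ, map_mul]
  · intro m hm1 hm2
    have hm : m = 1 := by omega
    subst hm
    rintro ⟨t, ht, h⟩
    have h1 := h (fun i => Y651.PIU.Phi (![Y651.PIU.mu 1, Y651.PIU.mu 2] i))
      (fun i => (NonUnitalAlgHom.mem_range _).2 ⟨_, rfl⟩)
    have h2 : (∑ σ : Equiv.Perm (Fin 2), ((Equiv.Perm.sign σ : ℤˣ) : ℤ) •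
        (List.ofFn fun i => ![Y651.PIU.mu 1, Y651.PIU.mu 2] (σ i)).prod) =
        Y651.PIU.mu 0 - Y651.PIU.mu 3 := by decide +kernel
    have h3 := congrArg Y651.PIU.Phi h2
    rw [map_sum] at h3
    have h4 : (∑ σ : Equiv.Perm (Fin (2 * 1)), ((Equiv.Perm.sign σ : ℤˣ) : ℤ) •
        (List.ofFn fun i => Y651.PIU.Phi (![Y651.PIU.mu 1, Y651.PIU.mu 2] (σ i))).prod) =
        Y651.PIU.Phi (Y651.PIU.mu 0 - Y651.PIU.mu 3) := by
      rw [← h3]
      refine Finset.sum_congr rfl fun σ _ => ?_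
      rw [map_zsmul]
      congr 1
      simp [List.ofFn_succ, map_mul]
    rw [h4, ← Y651.PIU.Phi_pow _ t ht] at h1
    have h5 := Y651.PIU.Phi_inj h1
    have h6 : (Y651.PIU.mu 0 - Y651.PIU.mu 3) ^ t * (Y651.PIU.mu 0 - Y651.PIU.mu 3) ^ t = 1 := by
      rw [← (Commute.refl (Y651.PIU.mu 0 - Y651.PIU.mu 3)).mul_pow, show (Y651.PIU.mu 0 - Y651.PIU.mu 3) * (Y651.PIU.mu 0 - Y651.PIU.mu 3) = 1 by decide,
        one_pow]
    rw [h5, mul_zero] at h6
    exact zero_ne_one h6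

end Pool.Agent.S03052
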