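import Pool.Statements.S03154
import Pool.Agent.Y42.FA.Final
-- import your own Pool.Agent.* helpers here

set_option autoImplicit false
open Pool Pool.MP_d2e081_al

namespace Pool.Agent.S03154

/-- The negation of the preceding statement: For residually finite groups G, H and injective u: G→H inducing an isomorphism of profinite completions (given via finite-index normal subgroups), if every inversion-free action of G on a tree has a fixed vertex, the same holds for H. -/
theorem result :
    ¬ (∀ (G H : Type) [Group G] [Group H] (u : G →* H),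
      (∀ g : G, g ≠ 1 → ∃ N : Subgroup G, N.Normal ∧ N.index ≠ 0 ∧ g ∉ N) →
      (∀ h : H, h ≠ 1 → ∃ M : Subgroup H, M.Normal ∧ M.index ≠ 0 ∧ h ∉ M) →
      Function.Injective u →
      (∀ N : Subgroup G, N.Normal → N.index ≠ 0 →
        ∃ M : Subgroup H, M.Normal ∧ M.index ≠ 0 ∧ M.comap u ≤ N) →
      (∀ M : Subgroup H, M.Normal → M.index ≠ 0 →
        ∀ h : H, ∃ g : G, ∃ m ∈ M, h = u g * m) →
      (∀ (V : Type) [MulAction G V] (T : SimpleGraph V), T.IsTree →
        (∀ g : G, ∀ x y : V, T.Adj x y → T.Adj (g • x) (g • y)) →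
        (∀ g : G, ∀ x y : V, T.Adj x y → ¬ (g • x = y ∧ g • y = x)) →
        ∃ v : V, ∀ g : G, g • v = v) →
      (∀ (V : Type) [MulAction H V] (T : SimpleGraph V), T.IsTree →
        (∀ h : H, ∀ x y : V, T.Adj x y → T.Adj (h • x) (h • y)) →
        (∀ h : H, ∀ x y : V, T.Adj x y → ¬ (h • x = y ∧ h • y = x)) →
        ∃ v : V, ∀ h : H, h • v = v)) := by
  intro hall
  obtain ⟨V, instV, T, h1, h2, h3, h4⟩ := Pool.Agent.Y42.FA.H0_not_fixed
  exact h4 (hall Pool.Agent.Y42.FA.G0 Pool.Agent.Y42.FA.H0
    (Subgroup.inclusion Pool.Agent.Y42.FA.G0_le_H0)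
    (fun g hg => Pool.Agent.Y42.FA.residual _ g hg)
    (fun h hh => Pool.Agent.Y42.FA.residual _ h hh)
    (Subgroup.inclusion_injective _)
    Pool.Agent.Y42.FA.completion1
    Pool.Agent.Y42.FA.completion2
    (fun V _ T => Pool.Agent.Y42.FA.G0_fixed V T)
    V T h1 h2 h3)

end Pool.Agent.S03154
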