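import Pool.Statements.S03334
import Pool.Agent.Y44.FG.Lim

set_option autoImplicit false
open Pool Pool.MP_e1b29e_al

namespace Pool.Agent.S03334

/-- The negation of the preceding statement: For every group G and subgroups A, B with every element of G a product ab (a in A, b in B), if A and B have no infinite strictly descending chains of subgroups, then neither does G. -/
theorem result :
    ¬ (∀ (G : Type) [Group G] (A B : Subgroup G),
      (∀ g : G, ∃ a ∈ A, ∃ b ∈ B, a * b = g) →
      WellFoundedLT (Subgroup ↥A) →
      WellFoundedLT (Subgroup ↥B) →
      WellFoundedLT (Subgroup G)) := by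
  intro h
  obtain ⟨G, _, A, B, h1, h2, h3, h4⟩ := Pool.Agent.Y44.FG.product_min
  exact h4 (h G A B h1 h2 h3)

end Pool.Agent.S03334
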