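import Pool.Statements.S03469
import Pool.Agent.Helper58.EN.JZ

set_option autoImplicit false
open Pool Pool.MP_ecbc69_al

namespace Pool.Agent.S03469

/-- For every unital ring satisfying a multilinear polynomial identity with a coefficient 1, and every n ≥ 3, the subgroup of GL_n(R) generated by elementary transvections I + rE_ij (i ≠ j) is normal in GL_n(R). -/
theorem result :
    ∀ (R : Type) [Ring R],
      (∃ d : ℕ, 0 < d ∧ ∃ c : Equiv.Perm (Fin d) → ℤ, c 1 = 1 ∧
        ∀ x : Fin d → R,
          ∑ σ : Equiv.Perm (Fin d), ((c σ : ℤ) : R) * (List.ofFn (fun i => x (σ i))).prod = 0) →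
      ∀ n : ℕ, 3 ≤ n →
        (Subgroup.closure
          {g : Matrix.GeneralLinearGroup (Fin n) R |
            ∃ i j : Fin n, i ≠ j ∧ ∃ r : R,
              (g : Matrix (Fin n) (Fin n) R) =
                1 + Matrix.of (fun a b => if a = i ∧ b = j then r else 0)}).Normal := by
  intro R _ hPI n hn
  obtain ⟨d, -, c, hc, hPI⟩ := hPI
  have hP : Pool.Agent.Helper58.EN.PI d c R := hPI
  have hmain := Pool.Agent.Helper58.EN.main (ι := Fin n) (by simpa using hn) d c hc R hP
  have hset : {g : Matrix.GeneralLinearGroup (Fin n) R |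
            ∃ i j : Fin n, i ≠ j ∧ ∃ r : R,
              (g : Matrix (Fin n) (Fin n) R) =
                1 + Matrix.of (fun a b => if a = i ∧ b = j then r else 0)} =
      {g | ∃ i j, ∃ h : i ≠ j, ∃ x ∈ (Set.univ : Set R), g = Pool.Agent.Helper58.EN.tv i j h x} := by
    ext g
    constructor
    · rintro ⟨i, j, hij, r, hg⟩
      refine ⟨i, j, hij, r, Set.mem_univ r, ?_⟩
      apply Units.ext
      rw [hg, Pool.Agent.Helper58.EN.tv_val]
      congr 1
      ext a b
      simp only [Matrix.of_apply, Matrix.single_apply]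
      congr 1
      simp only [eq_comm]
    · rintro ⟨i, j, hij, r, -, rfl⟩
      refine ⟨i, j, hij, r, ?_⟩
      rw [Pool.Agent.Helper58.EN.tv_val]
      congr 1
      ext a b
      simp only [Matrix.of_apply, Matrix.single_apply]
      congr 1
      simp only [eq_comm]
  have hEl : Subgroup.closure {g : Matrix.GeneralLinearGroup (Fin n) R |
            ∃ i j : Fin n, i ≠ j ∧ ∃ r : R,
              (g : Matrix (Fin n) (Fin n) R) =
                1 + Matrix.of (fun a b => if a = i ∧ b = j then r else 0)} =
      Pool.Agent.Helper58.EN.El (Fin n) R := by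
    rw [hset]
    rfl
  rw [hEl]
  exact ⟨fun e he g => hmain g e he⟩

end Pool.Agent.S03469
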