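import Pool.Statements.S03595
import Pool.Agent.Y55.TIG.C
import Pool.Agent.Y55.TIG.D

set_option autoImplicit false
open Pool Pool.MP_f8d790_al

namespace Pool.Agent.S03595

/-- An infinite compact Hausdorff group G has every choice of conjugates of its elements topologically generating G if and only if G has a closed, connected, abelian normal subgroup with totally disconnected (profinite) quotient. -/
theorem result :
    ∀ (G : Type) [Group G] [TopologicalSpace G] [IsTopologicalGroup G] [CompactSpace G]
      [T2Space G] [Infinite G],
      (∀ f : G → G,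
          (Subgroup.closure (Set.range (fun x : G => f x * x * (f x)⁻¹))).topologicalClosure = ⊤) ↔
        ∃ N : Subgroup G, N.Normal ∧ IsClosed (N : Set G) ∧ IsConnected (N : Set G) ∧
          (∀ a ∈ N, ∀ b ∈ N, a * b = b * a) ∧ TotallyDisconnectedSpace (G ⧸ N) := by
  intro G _ _ _ _ _ _
  constructor
  · intro h
    refine ⟨Subgroup.connectedComponentOfOne G, ?_, isClosed_connectedComponent,
      isConnected_connectedComponent, ?_, Y55.TIG.totallyDisconnected_quotient G⟩
    · refine ⟨fun n hn g => ?_⟩
      have hc : Continuous (fun x : G => g * x * g⁻¹) := by fun_prop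
      have h1 := hc.image_connectedComponent_subset (1 : G)
      rw [mul_one, mul_inv_cancel] at h1
      exact h1 ⟨n, hn, rfl⟩
    · intro a ha b hb
      by_contra hab
      obtain ⟨H, hH, hHtop, hmeet⟩ := Y55.TIG.exists_meet_compact G
        (Subgroup.connectedComponentOfOne G) isConnected_connectedComponent a b ha hb hab
      choose f hf using hmeet
      apply hHtop
      rw [eq_top_iff, ← h f]
      refine Subgroup.topologicalClosure_minimal _ ?_ hH
      rw [Subgroup.closure_le]
      rintro _ ⟨x, rfl⟩
      exact hf x
  · rintro ⟨N, hN, hNc, -, hab, htd⟩ f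
    apply Y55.TIG.eq_top_of_abelian N hNc hab htd
    · exact Subgroup.isClosed_topologicalClosure _
    · intro x
      exact ⟨f x, Subgroup.le_topologicalClosure _ (Subgroup.subset_closure ⟨x, rfl⟩)⟩

end Pool.Agent.S03595
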