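import Pool.Statements.S04153
import Pool.Agent.Y256.RZ.Zero

set_option autoImplicit false
open Pool Pool.MP_29b974_an

namespace Pool.Agent.S04153

/-- For every n>1 there is a function holomorphic on the Euclidean unit ball of C^n, nonzero somewhere there, whose limit along the radius toward z/∣z∣ is 0 for Lebesgue-almost every z, i.e. for almost every sphere direction. -/
theorem result :
    ∀ n : ℕ, 1 < n → ∃ f : (Fin n → ℂ) → ℂ,
      DifferentiableOn ℂ f {z : Fin n → ℂ | ∑ i, ‖z i‖ ^ 2 < 1} ∧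
      (∃ z : Fin n → ℂ, ∑ i, ‖z i‖ ^ 2 < 1 ∧ f z ≠ 0) ∧
      ∀ᵐ z ∂(MeasureTheory.volume : MeasureTheory.Measure (Fin n → ℂ)),
        Filter.Tendsto
          (fun r : ℝ => f (((r / Real.sqrt (∑ i, ‖z i‖ ^ 2) : ℝ) : ℂ) • z))
          (nhdsWithin (1 : ℝ) (Set.Iio 1)) (nhds (0 : ℂ)) := by
  intro n hn
  obtain ⟨f, hf, hf0, hlim⟩ := Pool.Agent.Y256.RZ.radial_zero n
  have hset : {z : Fin n → ℂ | ∑ i, ‖z i‖ ^ 2 < 1} = {z | Pool.Agent.Y256.RZ.nrm z < 1} := by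
    ext z
    show ∑ i, ‖z i‖ ^ 2 < 1 ↔ Real.sqrt (∑ i, ‖z i‖ ^ 2) < 1
    rw [Real.sqrt_lt' one_pos, one_pow]
  refine ⟨f, ?_, ⟨0, by simp, hf0⟩, ?_⟩
  · rw [hset]; exact hf
  · have hne : ∀ᵐ z : Fin n → ℂ, z ≠ 0 := by
      have : Nonempty (Fin n) := ⟨⟨0, by omega⟩⟩
      exact MeasureTheory.Measure.ae_ne MeasureTheory.volume 0
    filter_upwards [hlim, hne] with z hz hz0
    exact hz hz0

end Pool.Agent.S04153
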