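import Pool.Statements.S04165
import Pool.Agent.Y306.Four

set_option autoImplicit false
open MeasureTheory
open Pool Pool.MP_2a8753_an

namespace Pool.Agent.S04165

/-- Proof through the Fourier transform of a chirped window: the four shifts become a three-term
recursion on `ℓ²(ℤ)` over almost every fibre. -/
theorem result :
    ∀ g : ℝ → ℂ, MemLp g 2 volume →
      ¬ (g =ᵐ[volume] 0) →
      ∀ c : Fin 4 → ℂ,
        (∀ᵐ x ∂(volume : Measure ℝ),
          c 0 * g x + c 1 * g (x - 1)
            + c 2 * (Complex.exp (2 * (Real.pi : ℂ) * Complex.I * (x : ℂ)) * g x)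
            + c 3 * (Complex.exp (2 * (Real.pi : ℂ) * Complex.I * ((Real.sqrt 2 : ℂ) * (x : ℂ)))
                * g (x - Real.sqrt 2)) = 0) →
        c = 0 := by
  intro g hg hne c h
  by_contra hc
  apply hne
  refine Pool.Agent.Y306.four_shifts hg (c 0) (c 1) (c 2) (c 3) ?_ ?_
  · filter_upwards [h] with x hx
    have e1 : Pool.Agent.Y306.ee x = Complex.exp (2 * (Real.pi : ℂ) * Complex.I * (x : ℂ)) := rfl
    have e2 : Pool.Agent.Y306.ee (Real.sqrt 2 * x) =
        Complex.exp (2 * (Real.pi : ℂ) * Complex.I * ((Real.sqrt 2 : ℂ) * (x : ℂ))) := by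
      unfold Pool.Agent.Y306.ee
      push_cast
      rfl
    rw [e1, e2]
    exact hx
  · rintro ⟨h0, h1, h2, h3⟩
    apply hc
    funext i
    fin_cases i
    · exact h0
    · exact h1
    · exact h2
    · exact h3

end Pool.Agent.S04165
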