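import Pool.Statements.S04252
-- import your own Pool.Agent.* helpers here

set_option autoImplicit false
open Filter Topology
open Pool Pool.MP_309e42_an

namespace Pool.Agent.S04252

/-- coefficients of `sin √z / √z` -/
noncomputable def cf (n : ℕ) : ℂ := (-1) ^ n / ((2 * n + 1).factorial : ℂ)

lemma cf_ne (n : ℕ) : cf n ≠ 0 := by
  unfold cf
  apply div_ne_zero
  · exact pow_ne_zero _ (by norm_num)
  · exact_mod_cast (Nat.factorial_pos _).ne'

noncomputable def F (z : ℂ) : ℂ := ∑' n : ℕ, cf n * z ^ n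

lemma norm_cf (n : ℕ) : ‖cf n‖ = 1 / ((2 * n + 1).factorial : ℝ) := by
  unfold cf
  simp [norm_pow]

lemma hp : HasFPowerSeriesOnBall F (FormalMultilinearSeries.ofScalars ℂ cf) 0 ⊤ := by
  have hr : (FormalMultilinearSeries.ofScalars ℂ cf).radius = ⊤ := by
    apply FormalMultilinearSeries.ofScalars_radius_eq_top_of_tendsto
    · exact Eventually.of_forall cf_ne
    · have h1 : ∀ n : ℕ, ‖cf n.succ‖ / ‖cf n‖ = 1 / ((2 * n + 2) * (2 * n + 3) : ℝ) := by
        intro n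
        rw [norm_cf, norm_cf]
        have h2 : 2 * n.succ + 1 = (2 * n + 1) + 1 + 1 := by simp; ring
        rw [h2, Nat.factorial_succ, Nat.factorial_succ]
        have h3 : ((2 * n + 1).factorial : ℝ) ≠ 0 := by exact_mod_cast (Nat.factorial_pos _).ne'
        push_cast
        field_simp
        ring
      simp_rw [h1]
      have h4 : Tendsto (fun n : ℕ => 1 / ((n : ℝ) + 1)) atTop (𝓝 0) :=
        tendsto_one_div_add_atTop_nhds_zero_nat
      refine squeeze_zero (fun n => by positivity) (fun n => ?_) h4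
      apply one_div_le_one_div_of_le (by positivity)
      have : (0 : ℝ) ≤ n := Nat.cast_nonneg n
      nlinarith
  have h := (FormalMultilinearSeries.ofScalars ℂ cf).hasFPowerSeriesOnBall (by rw [hr]; simp)
  rw [hr] at h
  have he : (FormalMultilinearSeries.ofScalars ℂ cf).sum = F := by
    funext z
    show FormalMultilinearSeries.ofScalarsSum cf z = F z
    rw [FormalMultilinearSeries.ofScalars_sum_eq]
    simp [F]
  rw [he] at h
  exact h

lemma F_diff : Differentiable ℂ F := by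
  have h := hp.differentiableOn
  intro z
  have := h z (by simp)
  exact this.differentiableAt (by simp)

lemma hasSum_F (z : ℂ) : HasSum (fun n : ℕ => cf n * z ^ n) (F z) := by
  have h := hp.hasSum (y := z) (by simp)
  simpa [mul_comm] using h

lemma iter (n : ℕ) : iteratedDeriv n F 0 ≠ 0 := by
  rw [iteratedDeriv_eq_iteratedFDeriv, ← hp.factorial_smul (1 : ℂ) n]
  simp only [FormalMultilinearSeries.ofScalars, _root_.smul_apply,
    ContinuousMultilinearMap.mkPiAlgebraFin_apply, List.ofFn_const, List.prod_replicate, one_pow,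
    smul_eq_mul, mul_one, nsmul_eq_mul]
  exact mul_ne_zero (by exact_mod_cast (Nat.factorial_pos _).ne') (cf_ne n)

lemma F_bound (z : ℂ) : ‖F z‖ ≤ Real.exp (Real.sqrt ‖z‖) := by
  have h1 := Real.hasSum_cosh (Real.sqrt ‖z‖)
  have hle : ∀ n : ℕ, ‖cf n * z ^ n‖ ≤ Real.sqrt ‖z‖ ^ (2 * n) / ((2 * n).factorial : ℝ) := by
    intro n
    rw [norm_mul, norm_cf, norm_pow, pow_mul, Real.sq_sqrt (norm_nonneg z)]
    rw [div_mul_eq_mul_div, one_mul]
    apply div_le_div_of_nonneg_left (by positivity)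
    · exact_mod_cast Nat.factorial_pos _
    · exact_mod_cast Nat.factorial_le (by omega)
  have h2 : ‖F z‖ ≤ Real.cosh (Real.sqrt ‖z‖) := by
    rw [← (hasSum_F z).tsum_eq]
    exact tsum_of_norm_bounded h1 hle
  refine h2.trans ?_
  rw [Real.cosh_eq]
  have : Real.exp (-Real.sqrt ‖z‖) ≤ Real.exp (Real.sqrt ‖z‖) :=
    Real.exp_le_exp.mpr (by linarith [Real.sqrt_nonneg ‖z‖])
  linarith

lemma F_sq (x : ℝ) (hx : x ≠ 0) : F ((x : ℂ) ^ 2) = Complex.sin x / x := by
  have hx' : (x : ℂ) ≠ 0 := by exact_mod_cast hx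
  have h1 := Complex.hasSum_sin (x : ℂ)
  have h2 := h1.div_const (x : ℂ)
  rw [← (hasSum_F _).tsum_eq, ← h2.tsum_eq]
  congr 1
  funext n
  unfold cf
  have h3 : ((2 * n + 1).factorial : ℂ) ≠ 0 := by exact_mod_cast (Nat.factorial_pos _).ne'
  field_simp
  ring

lemma F_zero : F 0 = 1 := by
  rw [← (hasSum_F 0).tsum_eq, tsum_eq_single 0]
  · simp [cf]
  · intro n hn
    simp [hn]

lemma F_pi : F ((Real.pi : ℂ) ^ 2) = 0 := by
  rw [F_sq _ Real.pi_ne_zero]
  simp

lemma card_le (t : ℝ) (ht : 0 ≤ t) :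
    (Nat.card {n : ℕ // iteratedDeriv n F 0 ≠ 0 ∧ (n : ℝ) ≤ t} : ℕ) = ⌊t⌋₊ + 1 := by
  have h : {n : ℕ | iteratedDeriv n F 0 ≠ 0 ∧ (n : ℝ) ≤ t} = ↑(Finset.range (⌊t⌋₊ + 1)) := by
    ext n
    simp only [Set.mem_ofPred_eq, Finset.coe_range, Set.mem_Iio]
    constructor
    · rintro ⟨-, h⟩
      exact Nat.lt_succ_of_le (Nat.le_floor h)
    · intro h
      exact ⟨iter n, (Nat.le_floor_iff ht).mp (Nat.lt_succ_iff.mp h)⟩
  have h2 : Nat.card {n : ℕ // iteratedDeriv n F 0 ≠ 0 ∧ (n : ℝ) ≤ t} =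
      Set.ncard {n : ℕ | iteratedDeriv n F 0 ≠ 0 ∧ (n : ℝ) ≤ t} := rfl
  rw [h2, h, Set.ncard_coe_finset, Finset.card_range]

lemma dens (ξ : ℝ) (h0 : 0 < ξ) (h1 : ξ < 1) :
    Filter.limsup (fun t : ℝ =>
          (((Nat.card {n : ℕ // iteratedDeriv n F 0 ≠ 0 ∧ (n : ℝ) ≤ t} : ℕ) : ℝ) -
            ((Nat.card {n : ℕ // iteratedDeriv n F 0 ≠ 0 ∧ (n : ℝ) ≤ ξ * t} : ℕ) : ℝ)) /
            ((1 - ξ) * t)) atTop = 1 := by
  apply Tendsto.limsup_eq
  have hξ : 0 < 1 - ξ := by linarith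
  have e1 : (fun t : ℝ => 1 - 1 / ((1 - ξ) * t)) ≤ᶠ[atTop] (fun t : ℝ =>
          (((Nat.card {n : ℕ // iteratedDeriv n F 0 ≠ 0 ∧ (n : ℝ) ≤ t} : ℕ) : ℝ) -
            ((Nat.card {n : ℕ // iteratedDeriv n F 0 ≠ 0 ∧ (n : ℝ) ≤ ξ * t} : ℕ) : ℝ)) /
            ((1 - ξ) * t)) := by
    filter_upwards [eventually_gt_atTop 0] with t ht
    rw [card_le t ht.le, card_le (ξ * t) (by positivity)]
    have hf1 := Nat.lt_floor_add_one t
    have hf2 := Nat.floor_le (show 0 ≤ ξ * t by positivity)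
    have hp : 0 < (1 - ξ) * t := by positivity
    rw [le_div_iff₀ hp, sub_mul, one_mul, one_div_mul_cancel hp.ne']
    push_cast
    linarith
  have e2 : (fun t : ℝ =>
          (((Nat.card {n : ℕ // iteratedDeriv n F 0 ≠ 0 ∧ (n : ℝ) ≤ t} : ℕ) : ℝ) -
            ((Nat.card {n : ℕ // iteratedDeriv n F 0 ≠ 0 ∧ (n : ℝ) ≤ ξ * t} : ℕ) : ℝ)) /
            ((1 - ξ) * t)) ≤ᶠ[atTop] (fun t : ℝ => 1 + 1 / ((1 - ξ) * t)) := by
    filter_upwards [eventually_gt_atTop 0] with t ht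
    rw [card_le t ht.le, card_le (ξ * t) (by positivity)]
    have hf1 := Nat.lt_floor_add_one (ξ * t)
    have hf2 := Nat.floor_le ht.le
    have hp : 0 < (1 - ξ) * t := by positivity
    rw [div_le_iff₀ hp, add_mul, one_mul, one_div_mul_cancel hp.ne']
    push_cast
    linarith
  have l0 : Tendsto (fun t : ℝ => 1 / ((1 - ξ) * t)) atTop (𝓝 0) := by
    have := (tendsto_id (α := ℝ) (x := atTop)).const_mul_atTop hξ
    refine this.inv_tendsto_atTop.congr (fun t => ?_)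
    simp only [Pi.inv_apply, id_eq, one_div]
  refine tendsto_of_tendsto_of_tendsto_of_le_of_le' ?_ ?_ e1 e2
  · simpa using l0.const_sub 1
  · simpa using l0.const_add 1

/-- The negation of the preceding statement: Every non-constant entire f of finite order ρ whose exponent set (nonzero Taylor coefficients) has maximal Pólya density Δ with ρΔ<1 has no finite asymptotic value along any curve tending to infinity. -/
theorem result :
    ¬ (∀ f : ℂ → ℂ, Differentiable ℂ f → (∃ z w : ℂ, f z ≠ f w) →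
    ∀ ρ Δ : ℝ,
      (∀ ε : ℝ, 0 < ε → ∀ᶠ r : ℝ in atTop, ∀ z : ℂ, ‖z‖ = r →
          ‖f z‖ ≤ Real.exp (r ^ (ρ + ε))) →
      Tendsto (fun ξ : ℝ => Filter.limsup (fun t : ℝ =>
          (((Nat.card {n : ℕ // iteratedDeriv n f 0 ≠ 0 ∧ (n : ℝ) ≤ t} : ℕ) : ℝ) -
            ((Nat.card {n : ℕ // iteratedDeriv n f 0 ≠ 0 ∧ (n : ℝ) ≤ ξ * t} : ℕ) : ℝ)) /
            ((1 - ξ) * t)) atTop)
        (𝓝[<] (1 : ℝ)) (𝓝 Δ) →
      ρ * Δ < 1 →
      ¬ ∃ a : ℂ, ∃ γ : ℝ → ℂ, Continuous γ ∧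
          Tendsto (fun t : ℝ => ‖γ t‖) atTop atTop ∧
          Tendsto (fun t : ℝ => f (γ t)) atTop (𝓝 a)) := by
  intro H
  refine H F F_diff ⟨0, (Real.pi : ℂ) ^ 2, ?_⟩ (1 / 2) 1 ?_ ?_ (by norm_num) ?_
  · rw [F_zero, F_pi]; norm_num
  · intro ε hε
    filter_upwards [eventually_ge_atTop 1] with r hr z hz
    refine (F_bound z).trans (Real.exp_le_exp.mpr ?_)
    rw [hz, Real.sqrt_eq_rpow]
    exact Real.rpow_le_rpow_of_exponent_le hr (by linarith)
  · refine Tendsto.congr' ?_ tendsto_const_nhds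
    have : Set.Ioo (0 : ℝ) 1 ∈ 𝓝[<] (1 : ℝ) := Ioo_mem_nhdsLT (by norm_num)
    filter_upwards [this] with ξ hξ
    exact (dens ξ hξ.1 hξ.2).symm
  · refine ⟨0, fun t => ((t : ℂ)) ^ 2, by fun_prop, ?_, ?_⟩
    · have h : (fun t : ℝ => ‖((t : ℂ)) ^ 2‖) = fun t : ℝ => t ^ 2 := by
        funext t
        simp
      rw [h]
      exact tendsto_pow_atTop (by norm_num)
    · have h1 : Tendsto (fun t : ℝ => 1 / t) atTop (𝓝 0) := by
        simpa [one_div] using tendsto_inv_atTop_zero (𝕜 := ℝ)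
      rw [tendsto_zero_iff_norm_tendsto_zero]
      refine squeeze_zero' (Eventually.of_forall fun t => norm_nonneg _) ?_ h1
      filter_upwards [eventually_gt_atTop 0] with t ht
      rw [F_sq t ht.ne', norm_div]
      have hs : ‖Complex.sin (t : ℂ)‖ ≤ 1 := by
        rw [← Complex.ofReal_sin, Complex.norm_real]
        exact Real.abs_sin_le_one t
      have ht' : ‖(t : ℂ)‖ = t := by simp [abs_of_pos ht]
      rw [ht']
      exact div_le_div_of_nonneg_right hs ht.le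

end Pool.Agent.S04252
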