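import Pool.Statements.S04319
import Pool.Agent.Y329.NS.All
import Pool.Agent.Y761.NS.Red

set_option autoImplicit false
open Pool Pool.MP_35c333_an

namespace Pool.Agent.S04319

/-- For G/Γ with G a nilpotent Lie group, Γ discrete cocompact, and translation by g with every power minimal: for integer polynomials p_i with p_i(0)=0, k≥1, 0≤j<k, and nonempty open U, some n≥1 has x in U with g^{p_i(kn+j)}x in U for all i. -/
theorem result :
  ∀ (E : Type) [NormedAddCommGroup E] [NormedSpace ℝ E] [FiniteDimensional ℝ E]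
    (G : Type) [Group G] [TopologicalSpace G] [ChartedSpace E G]
    [LieGroup (modelWithCornersSelf ℝ E) ((⊤ : ℕ∞) : WithTop ℕ∞) G] [Group.IsNilpotent G]
    (Γ : Subgroup G), DiscreteTopology Γ → CompactSpace (G ⧸ Γ) →
    ∀ g : G, (∀ m : ℕ, 0 < m → ∀ x : G ⧸ Γ,
        Dense (Set.range (fun n : ℤ => (g ^ m) ^ n • x))) →
    ∀ (d : ℕ) (p : Fin d → Polynomial ℤ), (∀ i, (p i).eval 0 = 0) →
    ∀ k : ℕ, 0 < k → ∀ j : ℕ, j < k →
    ∀ U : Set (G ⧸ Γ), IsOpen U → U.Nonempty →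
    ∃ n : ℕ, 0 < n ∧ ∃ x ∈ U, ∀ i, g ^ ((p i).eval ((k : ℤ) * (n : ℤ) + (j : ℤ))) • x ∈ U := by
  intro E _ _ _ G _ _ _ _ _ Γ _ hc g hmin d p hp k hk j hj U hU hne
  exact Pool.Agent.Y329.NS.final
    (Pool.Agent.Y761.NS.Red.done Pool.Agent.Y329.NS.doneM Pool.Agent.Y179.NS.done_X
      Pool.Agent.Y329.NS.doneOE) Pool.Agent.Y329.NS.trg_all Pool.Agent.Y329.NS.doneOE
    E G Γ hc g hmin d p hp k hk j hj U hU hne

end Pool.Agent.S04319
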