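import Pool.Statements.S04349
import Pool.Agent.Y276.HRFinal

set_option autoImplicit false
open Pool Pool.MP_37b94e_an

namespace Pool.Agent.S04349

/-- For n ≥ 2 and each k there is c such that any real-analytic p on ℂⁿ whose restriction to every affine complex hyperplane is a sum of k terms ±∣holomorphic∣² is itself a sum of c terms ±∣entire holomorphic∣². -/
theorem result :
    ∀ n : ℕ, 2 ≤ n → ∀ k : ℕ, ∃ c : ℕ, ∀ p : (Fin n → ℂ) → ℝ,
      AnalyticOnNhd ℝ p Set.univ →
      (∀ (a : Fin n → ℂ) (L : (Fin (n - 1) → ℂ) →ₗ[ℂ] (Fin n → ℂ)),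
        Function.Injective L →
        ∃ (ε : Fin k → ℝ) (g : Fin k → (Fin (n - 1) → ℂ) → ℂ),
          (∀ j, ε j = 1 ∨ ε j = -1) ∧ (∀ j, Differentiable ℂ (g j)) ∧
          ∀ x, p (a + L x) = ∑ j, ε j * Complex.normSq (g j x)) →
      ∃ (ε : Fin c → ℝ) (f : Fin c → (Fin n → ℂ) → ℂ),
        (∀ j, ε j = 1 ∨ ε j = -1) ∧ (∀ j, Differentiable ℂ (f j)) ∧
        ∀ z, p z = ∑ j, ε j * Complex.normSq (f j z) := by
  intro n hn k
  obtain ⟨m, rfl⟩ : ∃ m, n = m + 2 := ⟨n - 2, by omega⟩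
  refine ⟨Pool.Agent.Y276.HR.tri (Pool.Agent.Y276.HR.tri k) +
    Pool.Agent.Y276.HR.tri (Pool.Agent.Y276.HR.tri k), fun p ha h => ?_⟩
  refine Pool.Agent.Y276.HR.main_aux (k := k) ?_ ha
  intro cl
  let L : (Fin (m + 1) → ℂ) →ₗ[ℂ] (Fin (m + 2) → ℂ) :=
    { toFun := fun x => Fin.cons (cl.2 * x 0) x
      map_add' := by
        intro x y
        funext i
        refine Fin.cases ?_ (fun i => ?_) i
        · simp [mul_add]
        · simp
      map_smul' := by
        intro t x
        funext i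
        refine Fin.cases ?_ (fun i => ?_) i
        · simp [mul_left_comm]
        · simp }
  have hL : Function.Injective L := by
    intro x y hxy
    funext i
    have := congrFun hxy i.succ
    simpa [L] using this
  obtain ⟨ε, g, -, hg, hpg⟩ := h (Fin.cons cl.1 0) L hL
  refine ⟨ε, g, hg, fun x => ?_⟩
  rw [← hpg x]
  congr 1
  funext i
  refine Fin.cases ?_ (fun i => ?_) i
  · simp [Pool.Agent.Y276.HR.emb, L]
  · simp [Pool.Agent.Y276.HR.emb, L]

end Pool.Agent.S04349
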