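import Pool.Statements.S04381
import Pool.Agent.Y325.DD.B7

set_option autoImplicit false
open scoped InnerProductSpace
open Pool Pool.MP_3a1c55_an

namespace Pool.Agent.S04381

/-- For a tracial von Neumann algebra generated by self-adjoint y with free-derivation dimension Delta(y)=n, any tuple z of self-adjoint noncommutative polynomials in y has Delta(z) at most m-1 or exactly m. -/
theorem result :
  ∀ (H : Type) [NormedAddCommGroup H] [InnerProductSpace ℂ H] [CompleteSpace H]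
    (ι : Type) (b : HilbertBasis ι ℂ H) (n : ℕ) (y : Fin n → (H →L[ℂ] H))
    (M : Set (H →L[ℂ] H)) (ξ : H)
    (Δ : (m : ℕ) → (Fin m → (H →L[ℂ] H)) → ℝ),
    (∀ i, IsSelfAdjoint (y i)) →
    M = Set.centralizer (Set.centralizer (Set.range y)) →
    ‖ξ‖ = 1 →
    Dense ((fun x : H →L[ℂ] H => x ξ) '' M) →
    (∀ a ∈ M, ∀ c ∈ M, ⟪(a * c) ξ, ξ⟫_ℂ = ⟪(c * a) ξ, ξ⟫_ℂ) →
    (∀ (m : ℕ) (z : Fin m → (H →L[ℂ] H)), Δ m z =
      ∑ j : Fin m, ⨅ T : {T : Fin m → (H →L[ℂ] H) //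
          (∀ k, FiniteDimensional ℂ
            (LinearMap.range ((T k : H →L[ℂ] H) : H →ₗ[ℂ] H))) ∧
          ∃ r : Fin m → (H →L[ℂ] H),
            (∀ k, r k ∈ Set.centralizer M ∧ r k ξ = z k ξ) ∧
            ∑ k, (T k * r k - r k * T k) = 0},
        ∑ k : Fin m, ∑' i : ι,
          ‖(T.1 k) (b i) - (if k = j then ⟪ξ, b i⟫_ℂ • ξ else 0)‖ ^ 2) →
    Δ n y = (n : ℝ) →
    ∀ (m : ℕ) (P : Fin m → FreeAlgebra ℂ (Fin n)),
      (∀ j, IsSelfAdjoint (FreeAlgebra.lift ℂ y (P j))) →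
      (Δ m (fun j => FreeAlgebra.lift ℂ y (P j)) ≤ (m : ℝ) - 1 ∨
       Δ m (fun j => FreeAlgebra.lift ℂ y (P j)) = (m : ℝ)) := by
  intro H _ _ _ ι b n y M ξ Δ hy hM hξ hd htr hΔ hn m P hP
  have hfull : ∑ j : Fin n, ⨅ T : {T : Fin n → (H →L[ℂ] H) // Pool.Agent.Y325.DD.KK M ξ y T},
      Pool.Agent.Y325.DD.cost b ξ T.1 j = n := (hΔ n y).symm.trans hn
  rw [hΔ m]
  exact Pool.Agent.Y325.DD.main_thm b hy hM hξ hd htr hfull P hP

end Pool.Agent.S04381
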