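import Pool.Statements.S04503
import Pool.Agent.H352R4.CA.End

set_option autoImplicit false
open Filter Topology
open scoped ENNReal NNReal
open Pool Pool.MP_437602_an

namespace Pool.Agent.S04503

open Pool.Agent.H352R4.CA in
theorem ofReal_alpha_le {α : Set ℂ → ℝ≥0∞}
    (hα : ∀ S : Set ℂ, α S =
        ⨆ (F : Set ℂ) (_ : IsCompact F) (_ : F ⊆ S) (f : ℂ → ℂ) (c : ℂ)
          (_ : Continuous f ∧ DifferentiableOn ℂ f Fᶜ ∧ (∀ z, ‖f z‖ ≤ 1) ∧
                Tendsto f (cocompact ℂ) (𝓝 0) ∧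
                Tendsto (fun z => z * f z) (cocompact ℂ) (𝓝 c)),
          ((‖c‖₊ : ℝ≥0) : ℝ≥0∞)) {F S : Set ℂ} (hF : IsCompact F) (hFS : F ⊆ S) :
    ENNReal.ofReal (alpha F) ≤ α S := by
  by_cases hT : α S = ⊤
  · rw [hT]; exact le_top
  rw [ENNReal.ofReal_le_iff_le_toReal hT]
  refine Real.sSup_le ?_ ENNReal.toReal_nonneg
  rintro c ⟨f, l, H, hb, rfl⟩
  have h1 : ((‖l‖₊ : ℝ≥0) : ℝ≥0∞) ≤ α S := by
    rw [hα]
    exact le_iSup_of_le F (le_iSup_of_le hF (le_iSup_of_le hFS (le_iSup_of_le f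
      (le_iSup_of_le l (le_iSup_of_le ⟨H.cont, H.hol, hb, H.zero, H.lim⟩ le_rfl)))))
  have h2 := ENNReal.toReal_mono hT h1
  simpa using h2

open Pool.Agent.H352R4.CA in
theorem le_ofReal_alpha {α : Set ℂ → ℝ≥0∞}
    (hα : ∀ S : Set ℂ, α S =
        ⨆ (F : Set ℂ) (_ : IsCompact F) (_ : F ⊆ S) (f : ℂ → ℂ) (c : ℂ)
          (_ : Continuous f ∧ DifferentiableOn ℂ f Fᶜ ∧ (∀ z, ‖f z‖ ≤ 1) ∧
                Tendsto f (cocompact ℂ) (𝓝 0) ∧
                Tendsto (fun z => z * f z) (cocompact ℂ) (𝓝 c)),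
          ((‖c‖₊ : ℝ≥0) : ℝ≥0∞)) {S : Set ℂ} (hS : IsCompact S) :
    α S ≤ ENNReal.ofReal (alpha S) := by
  rw [hα]
  refine iSup_le fun F => iSup_le fun hF => iSup_le fun hFS => iSup_le fun f => iSup_le fun c =>
    iSup_le fun h => ?_
  have h1 : ‖c‖ ≤ alpha S :=
    le_csSup (alpha_bdd hS) ⟨f, c, ⟨h.1, h.2.1.mono (Set.compl_subset_compl.2 hFS), h.2.2.2.2⟩,
      h.2.2.1, rfl⟩
  have h2 : ((‖c‖₊ : ℝ≥0) : ℝ≥0∞) = ENNReal.ofReal ‖c‖ := by
    rw [ENNReal.ofReal, norm_toNNReal]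
  rw [h2]
  exact ENNReal.ofReal_le_ofReal h1

open Pool.Agent.H352R4.CA in
/-- For the (uniquely determined) continuous analytic capacity α(S)=sup over compact F⊆S and continuous f on ℂ, holomorphic off F, ∣f∣≤1, f(∞)=0, of ∣lim z f(z)∣: for compact K,E with α(K)=0, α(E\K)=α(E). -/
theorem result :
    ∀ α : Set ℂ → ℝ≥0∞,
      (∀ S : Set ℂ, α S =
        ⨆ (F : Set ℂ) (_ : IsCompact F) (_ : F ⊆ S) (f : ℂ → ℂ) (c : ℂ)
          (_ : Continuous f ∧ DifferentiableOn ℂ f Fᶜ ∧ (∀ z, ‖f z‖ ≤ 1) ∧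
                Tendsto f (cocompact ℂ) (𝓝 0) ∧
                Tendsto (fun z => z * f z) (cocompact ℂ) (𝓝 c)),
          ((‖c‖₊ : ℝ≥0) : ℝ≥0∞)) →
      ∀ K E : Set ℂ, IsCompact K → IsCompact E → α K = 0 → α (E \ K) = α E := by
  intro α hα K E hK hE h0
  apply le_antisymm
  · rw [hα (E \ K)]
    refine iSup_le fun F => iSup_le fun hF => iSup_le fun hFS => iSup_le fun f => iSup_le fun c =>
      iSup_le fun h => ?_
    rw [hα E]
    exact le_iSup_of_le F (le_iSup_of_le hF (le_iSup_of_le (hFS.trans Set.sdiff_subset)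
      (le_iSup_of_le f (le_iSup_of_le c (le_iSup_of_le h le_rfl)))))
  · have hK0 : alpha K = 0 := by
      have h1 := ofReal_alpha_le hα hK (Set.Subset.refl K)
      rw [h0, nonpos_iff_eq_zero, ENNReal.ofReal_eq_zero] at h1
      exact le_antisymm h1 (alpha_nonneg K)
    refine (le_ofReal_alpha hα hE).trans ?_
    rw [← alpha_remove hE hK hK0]
    by_cases hT : α (E \ K) = ⊤
    · rw [hT]; exact le_top
    rw [ENNReal.ofReal_le_iff_le_toReal hT]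
    refine Real.sSup_le ?_ ENNReal.toReal_nonneg
    rintro c ⟨L, hL, hLE, rfl⟩
    rw [← ENNReal.ofReal_le_iff_le_toReal hT]
    exact ofReal_alpha_le hα hL hLE

end Pool.Agent.S04503
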