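import Pool.Statements.S04554
import Pool.Agent.Y834.IETUE

/-!
Counterexample: `d = 4`, the intervals come back in the order 3, 1, 4, 2, lengths
`a = (α, 1 - α, α, 1 - α)` with `α = √2 - 1`, direction `b = (0, 0, 1, -1)`. At `a` the exchange is
a tower of constant height two over the irrational rotation by `α`, so it is uniquely ergodic; for
every `t ∈ (0, 1 - α)` all points of `[α, α + t)` have period two for the lengths `a + t b`.
-/

set_option autoImplicit false
open Pool Pool.MP_483d01_an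

namespace Pool.Agent.S04554

open MeasureTheory Set

/-- the permutation: the images of the four intervals are in the places 2, 4, 1, 3 -/
def pp : Equiv.Perm (Fin 4) := ⟨![1, 3, 0, 2], ![2, 0, 3, 1], by decide, by decide⟩

/-- the interval exchange map in the form of the frozen statement -/
noncomputable def F (v : Fin 4 → ℝ) (x : ℝ) : ℝ := x + ∑ j : Fin 4,
          (Set.Ico (∑ i ∈ (Finset.univ : Finset (Fin 4)).filter (fun i : Fin 4 => i < j), v i)
             ((∑ i ∈ (Finset.univ : Finset (Fin 4)).filter (fun i : Fin 4 => i < j), v i) + v j)).indicator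
            (fun _ : ℝ => (∑ i ∈ (Finset.univ : Finset (Fin 4)).filter (fun i : Fin 4 => pp i < pp j), v i) -
                      ∑ i ∈ (Finset.univ : Finset (Fin 4)).filter (fun i : Fin 4 => i < j), v i) x

theorem F_eq (v : Fin 4 → ℝ) (x : ℝ) : F v x = x +
    ((Ico 0 (v 0)).indicator (fun _ => v 2) x
    + (Ico (v 0) (v 0 + v 1)).indicator (fun _ => v 2 + v 3) x
    + (Ico (v 0 + v 1) (v 0 + v 1 + v 2)).indicator (fun _ => -(v 0 + v 1)) x
    + (Ico (v 0 + v 1 + v 2) (v 0 + v 1 + v 2 + v 3)).indicator (fun _ => -(v 1)) x) := by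
  have l0 : (Finset.univ : Finset (Fin 4)).filter (fun i : Fin 4 => i < 0) = ∅ := by decide
  have l1 : (Finset.univ : Finset (Fin 4)).filter (fun i : Fin 4 => i < 1) = {0} := by decide
  have l2 : (Finset.univ : Finset (Fin 4)).filter (fun i : Fin 4 => i < 2) = {0, 1} := by decide
  have l3 : (Finset.univ : Finset (Fin 4)).filter (fun i : Fin 4 => i < 3) = {0, 1, 2} := by decide
  have m0 : (Finset.univ : Finset (Fin 4)).filter (fun i : Fin 4 => pp i < pp 0) = {2} := by decide
  have m1 : (Finset.univ : Finset (Fin 4)).filter (fun i : Fin 4 => pp i < pp 1) = {0, 2, 3} := by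
    decide
  have m2 : (Finset.univ : Finset (Fin 4)).filter (fun i : Fin 4 => pp i < pp 2) = ∅ := by decide
  have m3 : (Finset.univ : Finset (Fin 4)).filter (fun i : Fin 4 => pp i < pp 3) = {0, 2} := by
    decide
  have s2 : ∑ i ∈ ({0, 1} : Finset (Fin 4)), v i = v 0 + v 1 := by
    rw [Finset.sum_pair (by decide)]
  have s3 : ∑ i ∈ ({0, 1, 2} : Finset (Fin 4)), v i = v 0 + v 1 + v 2 := by
    rw [Finset.sum_insert (by decide), Finset.sum_pair (by decide)]; ring
  have t1 : ∑ i ∈ ({0, 2, 3} : Finset (Fin 4)), v i = v 0 + v 2 + v 3 := by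
    rw [Finset.sum_insert (by decide), Finset.sum_pair (by decide)]; ring
  have t3 : ∑ i ∈ ({0, 2} : Finset (Fin 4)), v i = v 0 + v 2 := by
    rw [Finset.sum_pair (by decide)]
  unfold F
  rw [Fin.sum_univ_four, l0, l1, l2, l3, m0, m1, m2, m3, s2, s3, t1, t3, Finset.sum_empty,
    Finset.sum_singleton, Finset.sum_singleton]
  have r0 : v 2 - 0 = v 2 := by ring
  have r1 : v 0 + v 2 + v 3 - v 0 = v 2 + v 3 := by ring
  have r2 : 0 - (v 0 + v 1) = -(v 0 + v 1) := by ring
  have r3 : v 0 + v 2 - (v 0 + v 1 + v 2) = -(v 1) := by ring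
  rw [r0, r1, r2, r3, zero_add]

theorem F_meas (v : Fin 4 → ℝ) : Measurable (F v) := by
  have : F v = fun x => x +
    ((Ico 0 (v 0)).indicator (fun _ => v 2) x
    + (Ico (v 0) (v 0 + v 1)).indicator (fun _ => v 2 + v 3) x
    + (Ico (v 0 + v 1) (v 0 + v 1 + v 2)).indicator (fun _ => -(v 0 + v 1)) x
    + (Ico (v 0 + v 1 + v 2) (v 0 + v 1 + v 2 + v 3)).indicator (fun _ => -(v 1)) x) :=
    funext fun x => F_eq v x
  rw [this]
  refine measurable_id.add (((Measurable.add ?_ ?_).add ?_).add ?_) <;>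
    exact measurable_const.indicator measurableSet_Ico

theorem F1 {v : Fin 4 → ℝ} (hv : ∀ i, 0 < v i) {x : ℝ} (hx : x ∈ Ico 0 (v 0)) :
    F v x = x + v 2 := by
  have h0 := hv 0; have h1 := hv 1; have h2 := hv 2; have h3 := hv 3
  rw [F_eq, indicator_of_mem hx, indicator_of_notMem, indicator_of_notMem, indicator_of_notMem]
  · ring
  · rintro ⟨h, h'⟩; linarith [hx.1, hx.2]
  · rintro ⟨h, h'⟩; linarith [hx.1, hx.2]
  · rintro ⟨h, h'⟩; linarith [hx.1, hx.2]

theorem F2 {v : Fin 4 → ℝ} (hv : ∀ i, 0 < v i) {x : ℝ} (hx : x ∈ Ico (v 0) (v 0 + v 1)) :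
    F v x = x + (v 2 + v 3) := by
  have h0 := hv 0; have h1 := hv 1; have h2 := hv 2; have h3 := hv 3
  rw [F_eq, indicator_of_notMem, indicator_of_mem hx, indicator_of_notMem, indicator_of_notMem]
  · ring
  · rintro ⟨h, h'⟩; linarith [hx.1, hx.2]
  · rintro ⟨h, h'⟩; linarith [hx.1, hx.2]
  · rintro ⟨h, h'⟩; linarith [hx.1, hx.2]

theorem F3 {v : Fin 4 → ℝ} (hv : ∀ i, 0 < v i) {x : ℝ}
    (hx : x ∈ Ico (v 0 + v 1) (v 0 + v 1 + v 2)) :
    F v x = x - (v 0 + v 1) := by
  have h0 := hv 0; have h1 := hv 1; have h2 := hv 2; have h3 := hv 3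
  rw [F_eq, indicator_of_notMem, indicator_of_notMem, indicator_of_mem hx, indicator_of_notMem]
  · ring
  · rintro ⟨h, h'⟩; linarith [hx.1, hx.2]
  · rintro ⟨h, h'⟩; linarith [hx.1, hx.2]
  · rintro ⟨h, h'⟩; linarith [hx.1, hx.2]

theorem F4 {v : Fin 4 → ℝ} (hv : ∀ i, 0 < v i) {x : ℝ}
    (hx : x ∈ Ico (v 0 + v 1 + v 2) (v 0 + v 1 + v 2 + v 3)) :
    F v x = x - v 1 := by
  have h0 := hv 0; have h1 := hv 1; have h2 := hv 2; have h3 := hv 3
  rw [F_eq, indicator_of_notMem, indicator_of_notMem, indicator_of_notMem, indicator_of_mem hx]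
  · ring
  · rintro ⟨h, h'⟩; linarith [hx.1, hx.2]
  · rintro ⟨h, h'⟩; linarith [hx.1, hx.2]
  · rintro ⟨h, h'⟩; linarith [hx.1, hx.2]

/-- the rotation number -/
noncomputable def al : ℝ := Real.sqrt 2 - 1

theorem al_irr : Irrational al := by
  have := irrational_sqrt_two.sub_intCast 1
  simpa [al] using this

theorem al_pos : 0 < al := by
  have : (1:ℝ) < Real.sqrt 2 := by
    rw [show (1:ℝ) = Real.sqrt 1 by simp]
    exact Real.sqrt_lt_sqrt (by norm_num) (by norm_num)
  unfold al; linarith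

theorem al_lt : al < 1 := by
  have : Real.sqrt 2 < 2 := by
    rw [show (2:ℝ) = Real.sqrt 4 by rw [show (4:ℝ) = 2 ^ 2 by norm_num]; simp]
    exact Real.sqrt_lt_sqrt (by norm_num) (by norm_num)
  unfold al; linarith

/-- the lengths `a` -/
noncomputable def aa : Fin 4 → ℝ := ![al, 1 - al, al, 1 - al]

/-- the direction `b` -/
noncomputable def bb : Fin 4 → ℝ := ![0, 0, 1, -1]

/-- invariant probability measures of the exchange with lengths `v` -/
def Inv (v : Fin 4 → ℝ) (μ : Measure ℝ) : Prop :=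
  IsProbabilityMeasure μ ∧ μ ((Set.Ico (0 : ℝ) (∑ i : Fin 4, v i))ᶜ) = 0 ∧
    Measure.map (F v) μ = μ

theorem ue_aa : ∃! μ : Measure ℝ, Inv aa μ := by
  have hp := al_pos
  have hl := al_lt
  have hv : ∀ i, 0 < aa i := by
    intro i; fin_cases i <;> simp [aa] <;> linarith
  have v0 : aa 0 = al := rfl
  have v1 : aa 1 = 1 - al := rfl
  have v2 : aa 2 = al := rfl
  have v3 : aa 3 = 1 - al := rfl
  have hS : ∑ i : Fin 4, aa i = 2 := by
    rw [Fin.sum_univ_four, v0, v1, v2, v3]; ring
  have f1 : ∀ z ∈ Ico 0 al, F aa z = z + al := fun z hz => by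
    rw [F1 hv (by rw [v0]; exact hz), v2]
  have f2 : ∀ z ∈ Ico al 1, F aa z = z + 1 := fun z hz => by
    rw [F2 hv (by rw [v0, v1]; exact ⟨hz.1, by linarith [hz.2]⟩), v2, v3]; ring
  have f3 : ∀ z ∈ Ico 1 (1 + al), F aa z = z - 1 := fun z hz => by
    rw [F3 hv (by rw [v0, v1, v2]; exact ⟨by linarith [hz.1], by linarith [hz.2]⟩), v0, v1]; ring
  have f4 : ∀ z ∈ Ico (1 + al) 2, F aa z = z + al - 1 := fun z hz => by
    rw [F4 hv (by rw [v0, v1, v2, v3]; exact ⟨by linarith [hz.1], by linarith [hz.2]⟩), v1]; ring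
  obtain ⟨s, hs, hsec⟩ := Pool.Agent.Y834.IET.exists_section al
  have key := Pool.Agent.Y834.IET.ue_aux hp hl al_irr s hs hsec (F aa) (F_meas aa) f1 f2 f3 f4
  have h0 : Inv aa ((2⁻¹ : ENNReal) • (volume.restrict (Ico (0:ℝ) 2))) := by
    refine ⟨⟨?_⟩, ?_, ?_⟩
    · rw [Measure.smul_apply, Measure.restrict_apply_univ, Real.volume_Ico, smul_eq_mul]
      norm_num
      exact ENNReal.inv_mul_cancel (by norm_num) (by norm_num)
    · rw [hS, Measure.smul_apply, Measure.restrict_apply measurableSet_Ico.compl]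
      simp
    · rw [Measure.map_smul, Pool.Agent.Y834.IET.leb_inv hp hl (F aa) (F_meas aa) f1 f2 f3 f4]
  refine ⟨_, h0, ?_⟩
  intro μ hμ
  rw [key μ hμ.1 (by have := hμ.2.1; rwa [hS] at this) hμ.2.2]
  exact (key _ h0.1 (by have := h0.2.1; rwa [hS] at this) h0.2.2).symm

theorem not_ue {t : ℝ} (h0 : 0 < t) (h1 : t < 1 - al) :
    ¬ ∃! μ : Measure ℝ, Inv (aa + t • bb) μ := by
  have hp := al_pos
  have hl := al_lt
  set v : Fin 4 → ℝ := aa + t • bb with hvdef
  have v0 : v 0 = al := by simp [hvdef, aa, bb]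
  have v1 : v 1 = 1 - al := by simp [hvdef, aa, bb]
  have v2 : v 2 = al + t := by simp [hvdef, aa, bb]
  have v3 : v 3 = 1 - al - t := by simp [hvdef, aa, bb]; ring
  have hv : ∀ i, 0 < v i := by
    intro i
    fin_cases i
    · change 0 < v 0; rw [v0]; exact hp
    · change 0 < v 1; rw [v1]; linarith
    · change 0 < v 2; rw [v2]; linarith
    · change 0 < v 3; rw [v3]; linarith
  have hS : ∑ i : Fin 4, v i = 2 := by
    rw [Fin.sum_univ_four, v0, v1, v2, v3]; ring
  have hper : ∀ p ∈ Ico al (al + t), F v p = p + 1 ∧ F v (p + 1) = p := by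
    intro p hp'
    constructor
    · rw [F2 hv (by rw [v0, v1]; exact ⟨hp'.1, by linarith [hp'.2]⟩), v2, v3]; ring
    · rw [F3 hv (by rw [v0, v1, v2]; exact ⟨by linarith [hp'.1], by linarith [hp'.2]⟩), v0, v1]
      ring
  have hinv : ∀ p ∈ Ico al (al + t),
      Inv v ((2⁻¹ : ENNReal) • (Measure.dirac p + Measure.dirac (p + 1))) := by
    intro p hp'
    refine ⟨⟨?_⟩, ?_, ?_⟩
    · simp only [Measure.smul_apply, Measure.add_apply, measure_univ, smul_eq_mul]
      rw [one_add_one_eq_two]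
      exact ENNReal.inv_mul_cancel (by norm_num) (by norm_num)
    · rw [hS]
      have m1 : p ∉ (Ico (0:ℝ) 2)ᶜ := by
        simp only [mem_compl_iff, not_not]
        exact ⟨by linarith [hp'.1], by linarith [hp'.2]⟩
      have m2 : p + 1 ∉ (Ico (0:ℝ) 2)ᶜ := by
        simp only [mem_compl_iff, not_not]
        exact ⟨by linarith [hp'.1], by linarith [hp'.2]⟩
      rw [Measure.smul_apply, Measure.add_apply, Measure.dirac_apply' _ measurableSet_Ico.compl,
        Measure.dirac_apply' _ measurableSet_Ico.compl, indicator_of_notMem m1,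
        indicator_of_notMem m2]
      simp
    · rw [Measure.map_smul, Measure.map_add _ _ (F_meas v), Measure.map_dirac' (F_meas v),
        Measure.map_dirac' (F_meas v), (hper p hp').1, (hper p hp').2, add_comm]
  rintro ⟨μ, _, hu⟩
  have e1 := hu _ (hinv al ⟨le_rfl, by linarith⟩)
  have e2 := hu _ (hinv (al + t / 2) ⟨by linarith, by linarith⟩)
  have e3 := congrArg (fun m : Measure ℝ => m {al}) (e1.trans e2.symm)
  have k1 : al + 1 ∉ ({al} : Set ℝ) := by
    simp
  have k2 : al + t / 2 ∉ ({al} : Set ℝ) := by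
    simp only [mem_singleton_iff]; intro h; linarith
  have k3 : al + t / 2 + 1 ∉ ({al} : Set ℝ) := by
    simp only [mem_singleton_iff]; intro h; linarith
  simp only [Measure.smul_apply, Measure.add_apply,
    Measure.dirac_apply' _ (measurableSet_singleton al), indicator_of_notMem k1,
    indicator_of_notMem k2, indicator_of_notMem k3, indicator_of_mem (mem_singleton al),
    smul_eq_mul, Pi.one_apply] at e3
  simp at e3

/-- The negation of the preceding statement: For any permutation and any positive length vector a whose interval exchange has a unique invariant probability measure, and any direction b, there is ε>0 such that for almost every t in (−ε,ε) the lengths a+tb are again uniquely ergodic. -/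
theorem result :
    ¬ (∀ (d : ℕ) (π : Equiv.Perm (Fin d)) (UE : (Fin d → ℝ) → Prop),
    (∀ v : Fin d → ℝ, UE v ↔ ∃! μ : MeasureTheory.Measure ℝ,
        MeasureTheory.IsProbabilityMeasure μ ∧
        μ ((Set.Ico (0 : ℝ) (∑ i : Fin d, v i))ᶜ) = 0 ∧
        MeasureTheory.Measure.map (fun x : ℝ => x + ∑ j : Fin d,
          (Set.Ico (∑ i ∈ (Finset.univ : Finset (Fin d)).filter (fun i : Fin d => i < j), v i)
             ((∑ i ∈ (Finset.univ : Finset (Fin d)).filter (fun i : Fin d => i < j), v i) + v j)).indicator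
            (fun _ : ℝ => (∑ i ∈ (Finset.univ : Finset (Fin d)).filter (fun i : Fin d => π i < π j), v i) -
                      ∑ i ∈ (Finset.univ : Finset (Fin d)).filter (fun i : Fin d => i < j), v i) x) μ = μ) →
    ∀ a b : Fin d → ℝ, (∀ i, 0 < a i) → UE a →
      ∃ ε : ℝ, 0 < ε ∧
        ∀ᵐ t : ℝ ∂(MeasureTheory.volume.restrict (Set.Ioo (-ε) ε)), UE (a + t • b)) := by
  intro H
  have H2 := H 4 pp (fun v => ∃! μ : MeasureTheory.Measure ℝ,
        MeasureTheory.IsProbabilityMeasure μ ∧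
        μ ((Set.Ico (0 : ℝ) (∑ i : Fin 4, v i))ᶜ) = 0 ∧
        MeasureTheory.Measure.map (fun x : ℝ => x + ∑ j : Fin 4,
          (Set.Ico (∑ i ∈ (Finset.univ : Finset (Fin 4)).filter (fun i : Fin 4 => i < j), v i)
             ((∑ i ∈ (Finset.univ : Finset (Fin 4)).filter (fun i : Fin 4 => i < j), v i) + v j)).indicator
            (fun _ : ℝ => (∑ i ∈ (Finset.univ : Finset (Fin 4)).filter (fun i : Fin 4 => pp i < pp j), v i) -
                      ∑ i ∈ (Finset.univ : Finset (Fin 4)).filter (fun i : Fin 4 => i < j), v i) x) μ = μ)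
    (fun v => Iff.rfl) aa bb
    (by
      have hp := al_pos
      have hl := al_lt
      intro i; fin_cases i <;> simp [aa] <;> linarith)
    ue_aa
  obtain ⟨ε, hε, hae⟩ := H2
  have hl := al_lt
  have hnull := MeasureTheory.ae_iff.1 hae
  have hsub : Ioo 0 (min ε (1 - al)) ⊆ {t : ℝ | ¬ ∃! μ : MeasureTheory.Measure ℝ,
      Inv (aa + t • bb) μ} := by
    intro t ht
    exact not_ue ht.1 (lt_of_lt_of_le ht.2 (min_le_right _ _))
  have hz := MeasureTheory.measure_mono_null hsub hnull
  rw [MeasureTheory.Measure.restrict_apply measurableSet_Ioo] at hz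
  have hin : Ioo 0 (min ε (1 - al)) ∩ Ioo (-ε) ε = Ioo 0 (min ε (1 - al)) := by
    apply inter_eq_left.2
    intro t ht
    exact ⟨by linarith [ht.1], lt_of_lt_of_le ht.2 (min_le_left _ _)⟩
  rw [hin, Real.volume_Ioo] at hz
  have hpos : 0 < min ε (1 - al) := lt_min hε (by linarith)
  rw [ENNReal.ofReal_eq_zero] at hz
  linarith

end Pool.Agent.S04554
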