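import Pool.Statements.S04575
import Pool.Agent.Y279.EX5

set_option autoImplicit false
open Pool Pool.MP_49bdf6_an

namespace Pool.Agent.S04575

/-- Over ℝ or ℂ, in every separable Banach space, every strictly bounded minimal sequence extends, by adding countably many vectors, to a minimal, strictly bounded sequence whose closed linear span is the whole space. -/
theorem result :
    ∀ (𝕜 : Type) [RCLike 𝕜] (E : Type) [NormedAddCommGroup E] [NormedSpace 𝕜 E]
      [CompleteSpace E] [TopologicalSpace.SeparableSpace E] (x : ℕ → E),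
      (∃ (C D : ℝ) (f : ℕ → (E →L[𝕜] 𝕜)),
        (∀ i j : ℕ, (i = j → f i (x j) = 1) ∧ (i ≠ j → f i (x j) = 0)) ∧
        (∀ n : ℕ, ‖x n‖ ≤ C ∧ ‖f n‖ ≤ D)) →
      ∃ (ι : Type) (_ : Countable ι) (y : ι → E) (C D : ℝ) (g : ℕ ⊕ ι → (E →L[𝕜] 𝕜)),
        (∀ i j : ℕ ⊕ ι, (i = j → g i (Sum.elim x y j) = 1) ∧
            (i ≠ j → g i (Sum.elim x y j) = 0)) ∧
        (∀ i : ℕ ⊕ ι, ‖Sum.elim x y i‖ ≤ C ∧ ‖g i‖ ≤ D) ∧
        (Submodule.span 𝕜 (Set.range (Sum.elim x y))).topologicalClosure = ⊤ := by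
  classical
  rintro 𝕜 _ E _ _ _ _ x ⟨C, D, f, hf, hb⟩
  obtain ⟨ι, hι, y, K, F, W, h1, h2, h3, h4, h5, h6, h7⟩ :=
    Pool.Agent.Y279.EX.main x C (fun n => (hb n).1) f (fun i j => by
      by_cases h : i = j
      · rw [if_pos h]; exact (hf i j).1 h
      · rw [if_neg h]; exact (hf i j).2 h) D (fun n => (hb n).2)
  refine ⟨ι, hι, y, max C K, K, Sum.elim F W, ?_, ?_, ?_⟩
  · rintro (i | i) (j | j)
    · refine ⟨fun h => ?_, fun h => ?_⟩
      · simp only [Sum.elim_inl]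
        rw [h1, if_pos (Sum.inl.inj h)]
      · simp only [Sum.elim_inl]
        rw [h1, if_neg (fun h' => h (by rw [h']))]
    · exact ⟨fun h => by simp at h, fun _ => h2 i j⟩
    · exact ⟨fun h => by simp at h, fun _ => h3 i j⟩
    · exact ⟨fun h => (h4 i j).1 (Sum.inr.inj h), fun h => (h4 i j).2 fun h' => h (by rw [h'])⟩
  · rintro (i | i)
    · exact ⟨(hb i).1.trans (le_max_left _ _), h6 i⟩
    · exact ⟨(h5 i).1.trans (le_max_right _ _), (h5 i).2⟩
  · rw [Set.Sum.elim_range]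
    exact h7

end Pool.Agent.S04575
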