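import Pool.Statements.S04624

set_option autoImplicit false
open MeasureTheory
open Pool Pool.MP_4d58d7_an

namespace Pool.Agent.S04624

/-- The atom `S₊` (`s = 1`) or `S₋` (`s = -1`): the `2 × 3` matrix with rows `(a, 0, b)` and
`(0, a, s b)`. -/
def atom (a b s : ℝ) : Fin 2 → Fin 3 → ℝ := ![![a, 0, b], ![0, a, s * b]]

/-- The matrix `A` of the example. -/
def A1 : Matrix (Fin 2) (Fin 1) ℝ := !![1; 0]

/-- The matrix `B` of the example. -/
def B1 : Matrix (Fin 2) (Fin 1) ℝ := !![1; 1]

/-- The distribution: `0` with probability `1/100`, and each of two atoms with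
probability `99/200`. -/
noncomputable def law (a b : ℝ) : Measure (Fin 2 → Fin 3 → ℝ) :=
  ENNReal.ofReal (1 / 100) • Measure.dirac 0 +
    (ENNReal.ofReal (99 / 200) • Measure.dirac (atom a b 1) +
      ENNReal.ofReal (99 / 200) • Measure.dirac (atom a b (-1)))

instance (a b : ℝ) : IsProbabilityMeasure (law a b) := by
  refine ⟨?_⟩
  unfold law
  simp only [Measure.add_apply, Measure.smul_apply, measure_univ, smul_eq_mul, mul_one]
  rw [← ENNReal.ofReal_add (by norm_num) (by norm_num), ← ENNReal.ofReal_add (by norm_num)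
    (by norm_num)]
  norm_num

lemma law_integral (a b : ℝ) (f : (Fin 2 → Fin 3 → ℝ) → ℝ) :
    ∫ ω, f ω ∂(law a b) = 1 / 100 * f 0 + (99 / 200 * f (atom a b 1) +
      99 / 200 * f (atom a b (-1))) := by
  have hi : ∀ (c : ℝ) (x : Fin 2 → Fin 3 → ℝ),
      Integrable f (ENNReal.ofReal c • Measure.dirac x) := fun c x =>
    (integrable_dirac (by simp)).smul_measure ENNReal.ofReal_ne_top
  unfold law
  rw [integral_add_measure (hi _ _) ((hi _ _).add_measure (hi _ _)),
    integral_add_measure (hi _ _) (hi _ _)]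
  simp only [integral_smul_measure, integral_dirac, smul_eq_mul]
  rw [ENNReal.toReal_ofReal (by norm_num), ENNReal.toReal_ofReal (by norm_num)]

lemma law_apply (a b : ℝ) (E : Set (Fin 2 → Fin 3 → ℝ)) (h0 : (0 : Fin 2 → Fin 3 → ℝ) ∉ E)
    (h1 : atom a b 1 ∉ E) (h2 : atom a b (-1) ∉ E) : law a b E = 0 := by
  unfold law
  simp [Measure.dirac_apply, h0, h1, h2]

lemma law_ge (a b : ℝ) (E : Set (Fin 2 → Fin 3 → ℝ))
    (h1 : atom a b 1 ∈ E) (h2 : atom a b (-1) ∈ E) : ENNReal.ofReal (99 / 100) ≤ law a b E := by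
  unfold law
  simp only [Measure.add_apply, Measure.smul_apply, Measure.dirac_apply, smul_eq_mul,
    Set.indicator_of_mem h1, Set.indicator_of_mem h2, Pi.one_apply, mul_one]
  rw [← ENNReal.ofReal_add (by norm_num) (by norm_num)]
  refine le_trans (ENNReal.ofReal_le_ofReal ?_) le_add_self
  norm_num


lemma sqrt_sum_ne {y u C ε : ℝ} (hu : 1 + 1 / 10000 ≤ u) (h1 : |C| * ε ≤ 1 / 100000)
    (hε : 0 < ε) (hy : Real.sqrt u ≤ (1 + C * ε) * Real.sqrt y) (hy1 : y = 1) : False := by
  subst hy1
  rw [Real.sqrt_one, mul_one] at hy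
  have h2 : C * ε ≤ 1 / 100000 := le_trans (mul_le_mul_of_nonneg_right (le_abs_self C) hε.le) h1
  have h3 : Real.sqrt (1 + 1 / 10000) ≤ 1 + 1 / 100000 :=
    (Real.sqrt_le_sqrt hu).trans (by linarith)
  rw [Real.sqrt_le_left (by norm_num)] at h3
  norm_num at h3

/-- The negation of the preceding statement: There are constants C and c₀>0 such that, for any isotropic n×k random matrix Ω that is a dimension-d OSI with injectivity 1−ε and failure 0.01, sketch-and-solve has error at most (1+Cε)·OPT with probability at least c₀. -/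
theorem result :
    ¬ (∃ C : ℝ, ∃ c₀ : ℝ, 0 < c₀ ∧
    ∀ (n d p k : ℕ), 0 < n → 0 < d → 0 < p → 0 < k →
    ∀ ε : ℝ, 0 < ε → ε < 1 →
    ∀ (A : Matrix (Fin n) (Fin d) ℝ), A.rank = d →
    ∀ (B : Matrix (Fin n) (Fin p) ℝ),
    ∀ (μ : Measure (Fin n → Fin k → ℝ)) [IsProbabilityMeasure μ],
      (∀ x : Fin n → ℝ, ∫ ω, (∑ j, (∑ i, ω i j * x i) ^ 2) ∂μ = ∑ i, x i ^ 2) →
      (∀ V : Submodule ℝ (Fin n → ℝ), Module.finrank ℝ V = d →
         ENNReal.ofReal (99 / 100) ≤
           μ {ω | ∀ x ∈ V, (1 - ε) * ∑ i, x i ^ 2 ≤ ∑ j, (∑ i, ω i j * x i) ^ 2}) →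
      ENNReal.ofReal c₀ ≤ μ {ω | ∀ G : Matrix (Fin d) (Fin k) ℝ,
          (Matrix.transpose (Matrix.of ω) * A) * G * (Matrix.transpose (Matrix.of ω) * A)
              = Matrix.transpose (Matrix.of ω) * A →
          G * (Matrix.transpose (Matrix.of ω) * A) * G = G →
          Matrix.transpose ((Matrix.transpose (Matrix.of ω) * A) * G)
              = (Matrix.transpose (Matrix.of ω) * A) * G →
          Matrix.transpose (G * (Matrix.transpose (Matrix.of ω) * A))
              = G * (Matrix.transpose (Matrix.of ω) * A) →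
          ∀ X : Matrix (Fin d) (Fin p) ℝ,
            Real.sqrt (∑ i, ∑ j, ((A * (G * Matrix.transpose (Matrix.of ω) * B) - B) i j) ^ 2) ≤
              (1 + C * ε) * Real.sqrt (∑ i, ∑ j, ((A * X - B) i j) ^ 2)}) := by
  rintro ⟨C, c₀, hc₀, h⟩
  -- the parameter
  set ε : ℝ := 1 / (100000 * (|C| + 1)) with hε
  have hC1 : 0 < |C| + 1 := by positivity
  have hε0 : 0 < ε := by positivity
  have hεC : |C| * ε ≤ 1 / 100000 := by
    rw [hε, mul_one_div, div_le_div_iff₀ (by positivity) (by norm_num)]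
    nlinarith [abs_nonneg C]
  have hε1 : ε ≤ 1 / 100000 := by
    rw [hε, div_le_div_iff₀ (by positivity) (by norm_num)]
    nlinarith [abs_nonneg C]
  set a : ℝ := Real.sqrt (1 - ε) with ha
  set b : ℝ := Real.sqrt (1 / 99 + ε) with hb
  have ha2 : a * a = 1 - ε := Real.mul_self_sqrt (by linarith)
  have hb2 : b * b = 1 / 99 + ε := Real.mul_self_sqrt (by linarith)
  have hA : A1.rank = 1 := by
    rw [← Matrix.rank_transpose_mul_self]
    have : A1.transpose * A1 = 1 := by
      ext i j
      fin_cases i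
      fin_cases j
      simp [Matrix.mul_apply, Fin.sum_univ_succ, A1]
    rw [this, Matrix.rank_one]
    simp
  have key := h 2 1 1 3 (by norm_num) (by norm_num) (by norm_num) (by norm_num) ε hε0
    (by linarith) A1 hA B1 (law a b)
  have hval : ∀ (s : ℝ) (x : Fin 2 → ℝ), ∑ j, (∑ i, atom a b s i j * x i) ^ 2 =
      a * a * (x 0 ^ 2 + x 1 ^ 2) + b * b * (x 0 + s * x 1) ^ 2 := by
    intro s x
    simp only [atom, Fin.sum_univ_succ, Fin.sum_univ_zero, Matrix.cons_val_zero,
      Matrix.cons_val_succ, Fin.succ_zero_eq_one, Matrix.cons_val_one, Fin.succ_one_eq_two,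
      Matrix.cons_val]
    ring
  have bad : ∀ s : ℝ, s = 1 ∨ s = -1 → ¬ (∀ G : Matrix (Fin 1) (Fin 3) ℝ,
          (Matrix.transpose (Matrix.of (atom a b s)) * A1) * G *
            (Matrix.transpose (Matrix.of (atom a b s)) * A1)
              = Matrix.transpose (Matrix.of (atom a b s)) * A1 →
          G * (Matrix.transpose (Matrix.of (atom a b s)) * A1) * G = G →
          Matrix.transpose ((Matrix.transpose (Matrix.of (atom a b s)) * A1) * G)
              = (Matrix.transpose (Matrix.of (atom a b s)) * A1) * G →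
          Matrix.transpose (G * (Matrix.transpose (Matrix.of (atom a b s)) * A1))
              = G * (Matrix.transpose (Matrix.of (atom a b s)) * A1) →
          ∀ X : Matrix (Fin 1) (Fin 1) ℝ,
            Real.sqrt (∑ i, ∑ j, ((A1 * (G * Matrix.transpose (Matrix.of (atom a b s)) *
              B1) - B1) i j) ^ 2) ≤
              (1 + C * ε) * Real.sqrt (∑ i, ∑ j, ((A1 * X - B1) i j) ^ 2)) := by
    intro s hs hmem
    have hab : a * a + b * b = 100 / 99 := by rw [ha2, hb2]; ring
    have hM : Matrix.transpose (Matrix.of (atom a b s)) * A1 = !![a; 0; b] := by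
      ext i j
      fin_cases i <;> fin_cases j <;> simp [Matrix.mul_apply, Fin.sum_univ_succ, atom, A1]
    rw [hM] at hmem
    have hGM : !![99 / 100 * a, 0, 99 / 100 * b] * !![a; 0; b] = (1 : Matrix (Fin 1) (Fin 1) ℝ) := by
      ext i j
      fin_cases i
      fin_cases j
      simp [Matrix.mul_apply, Fin.sum_univ_succ]
      linear_combination (99 / 100) * hab
    have h1 := hmem !![99 / 100 * a, 0, 99 / 100 * b] (by rw [Matrix.mul_assoc, hGM, Matrix.mul_one])
      (by rw [hGM, Matrix.one_mul])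
      (by
        ext i j
        fin_cases i <;> fin_cases j <;> simp [Matrix.mul_apply, Fin.sum_univ_succ] <;> ring)
      (by rw [hGM, Matrix.transpose_one]) !![1]
    have hB : Matrix.transpose (Matrix.of (atom a b s)) * B1 = !![a; a; b + s * b] := by
      ext i j
      fin_cases i <;> fin_cases j <;> simp [Matrix.mul_apply, Fin.sum_univ_succ, atom, B1]
    have hGB : !![99 / 100 * a, 0, 99 / 100 * b] * !![a; a; b + s * b] =
        !![1 + 99 / 100 * s * (b * b)] := by
      ext i j
      fin_cases i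
      fin_cases j
      simp [Matrix.mul_apply, Fin.sum_univ_succ]
      linear_combination (99 / 100) * hab
    have hval2 : A1 * (!![99 / 100 * a, 0, 99 / 100 * b] *
        Matrix.transpose (Matrix.of (atom a b s)) * B1) - B1 = !![99 / 100 * s * (b * b); -1] := by
      rw [Matrix.mul_assoc !![99 / 100 * a, 0, 99 / 100 * b], hB, hGB]
      ext i j
      fin_cases i <;> fin_cases j <;> simp [Matrix.mul_apply, A1, B1]
    rw [hval2] at h1
    refine sqrt_sum_ne ?_ hεC hε0 h1 ?_
    · have h2 : s * s = 1 := by rcases hs with rfl | rfl <;> norm_num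
      have h3 : 1 / 99 ≤ b * b := by rw [hb2]; linarith
      simp [Fin.sum_univ_succ]
      have h4 : (99 / 100 * s * (b * b)) ^ 2 = (99 / 100 * (b * b)) ^ 2 := by
        linear_combination ((99 / 100) * (b * b)) ^ 2 * h2
      rw [h4]
      nlinarith
    · simp [Fin.sum_univ_succ, Matrix.mul_apply, A1, B1]
  have key2 := key ?_ ?_
  · refine absurd key2 (not_le.2 ?_)
    rw [law_apply a b _ ?_ ?_ ?_]
    · exact ENNReal.ofReal_pos.2 hc₀
    · -- the zero outcome
      intro hmem
      rw [Set.mem_ofPred_eq] at hmem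
      have h1 := hmem 0 (by ext i j; simp [Matrix.mul_apply]) (by simp)
        (by ext i j; simp [Matrix.mul_apply]) (by ext i j; simp [Matrix.mul_apply]) !![1]
      refine sqrt_sum_ne ?_ hεC hε0 h1 ?_
      · simp [Fin.sum_univ_succ, B1]
        norm_num
      · simp [Fin.sum_univ_succ, Matrix.mul_apply, A1, B1]
    · exact fun hmem => bad 1 (Or.inl rfl) hmem
    · exact fun hmem => bad (-1) (Or.inr rfl) hmem
  · intro x
    rw [law_integral, hval, hval]
    simp only [Fin.sum_univ_succ, Fin.sum_univ_zero, Pi.zero_apply, zero_mul,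
      Fin.succ_zero_eq_one, add_zero]
    have : a * a + b * b = 100 / 99 := by rw [ha2, hb2]; ring
    linear_combination (99 / 100) * (x 0 ^ 2 + x 1 ^ 2) * this
  · intro V hV
    refine law_ge a b _ ?_ ?_
    · rw [Set.mem_ofPred_eq]
      intro x hx
      rw [hval, ha2]
      simp only [Fin.sum_univ_succ, Fin.sum_univ_zero, Fin.succ_zero_eq_one, add_zero]
      have : 0 ≤ b * b * (x 0 + 1 * x 1) ^ 2 := mul_nonneg (mul_self_nonneg b) (sq_nonneg _)
      linarith
    · rw [Set.mem_ofPred_eq]
      intro x hx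
      rw [hval, ha2]
      simp only [Fin.sum_univ_succ, Fin.sum_univ_zero, Fin.succ_zero_eq_one, add_zero]
      have : 0 ≤ b * b * (x 0 + (-1) * x 1) ^ 2 := mul_nonneg (mul_self_nonneg b) (sq_nonneg _)
      linarith

end Pool.Agent.S04624
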