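import Pool.Statements.S04652
import Pool.Agent.Y306.HRT.Final

set_option autoImplicit false
open Pool Pool.MP_505f06_an

namespace Pool.Agent.S04652

open Pool.Agent.Y306.HRT MeasureTheory

/-- points of the first family -/
noncomputable def P1 (k : Fin 2 → ℤ) : (Fin 1 → ℝ) × (Fin 1 → ℝ) :=
  (fun _ => -(k 1 : ℝ), fun _ => (k 0 : ℝ))

/-- points of the second family -/
noncomputable def P2 (k : Fin 2 → ℤ) : (Fin 1 → ℝ) × (Fin 1 → ℝ) :=
  (fun _ => 1 / 2 - (k 1 : ℝ), fun _ => (k 0 : ℝ))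

/-- the extra point -/
noncomputable def P3 : (Fin 1 → ℝ) × (Fin 1 → ℝ) := (fun _ => √2 / 2, fun _ => √3)

lemma P1_ne (k : Fin 2 → ℤ) : P1 k ≠ P3 := by
  intro h
  have h1 : -(k 1 : ℝ) = √2 / 2 := congrFun (congrArg Prod.fst h) 0
  apply irr_two
  refine ⟨((-2 * k 1 : ℤ) : ℚ), ?_⟩
  push_cast
  linarith

lemma P2_ne (k : Fin 2 → ℤ) : P2 k ≠ P3 := by
  intro h
  have h1 : 1 / 2 - (k 1 : ℝ) = √2 / 2 := congrFun (congrArg Prod.fst h) 0
  apply irr_two
  refine ⟨((1 - 2 * k 1 : ℤ) : ℚ), ?_⟩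
  push_cast
  linarith

lemma sum_ite_image {ι κ : Type*} [DecidableEq κ] (F : Finset ι) (P : ι → κ) (A : ι → ℂ)
    (s : Finset κ) (h : ∀ k ∈ F, P k ∈ s) (f : κ → ℂ) :
    ∑ p ∈ s, (∑ k ∈ F, if P k = p then A k else 0) * f p = ∑ k ∈ F, A k * f (P k) := by
  simp_rw [Finset.sum_mul, ite_mul, zero_mul]
  rw [Finset.sum_comm]
  refine Finset.sum_congr rfl (fun k hk => ?_)
  rw [Finset.sum_ite_eq s (P k) (fun p => A k * f p), if_pos (h k hk)]

/-- The negation of the preceding statement: For every n and every nonzero square-integrable g on ℝⁿ: if a finite linear combination of distinct time-frequency shifts e^{2πi⟨ω,t⟩} g(t−x) vanishes almost everywhere, then all its coefficients are zero. -/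
theorem result :
    ¬ (∀ n : ℕ, ∀ g : (Fin n → ℝ) → ℂ,
      MeasureTheory.MemLp g 2 MeasureTheory.volume →
      ¬ (g =ᵐ[MeasureTheory.volume] 0) →
      ∀ (s : Finset ((Fin n → ℝ) × (Fin n → ℝ))) (c : (Fin n → ℝ) × (Fin n → ℝ) → ℂ),
        (fun t : Fin n → ℝ =>
            ∑ p ∈ s, c p *
              (Complex.exp (2 * (Real.pi : ℂ) * Complex.I * ((∑ i, p.2 i * t i : ℝ) : ℂ)) *
                g (t - p.1))) =ᵐ[MeasureTheory.volume] 0 →
        ∀ p ∈ s, c p = 0) := by
  classical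
  intro H
  obtain ⟨g, F, G, A, B, C, hg, hg0, hC, hrel⟩ := exists_relation
  have hmp := volume_preserving_funUnique (Fin 1) ℝ
  have hmp' := hmp.symm
  set e := MeasurableEquiv.funUnique (Fin 1) ℝ with he
  have hev : ∀ w : Fin 1 → ℝ, e w = w 0 := fun w => rfl
  set s : Finset ((Fin 1 → ℝ) × (Fin 1 → ℝ)) := F.image P1 ∪ (G.image P2 ∪ {P3}) with hs
  set c : (Fin 1 → ℝ) × (Fin 1 → ℝ) → ℂ := fun p =>
    ((∑ k ∈ F, if P1 k = p then A k else 0) + (∑ k ∈ G, if P2 k = p then B k else 0)) +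
      (if P3 = p then -C else 0) with hc
  have h1 : MemLp (g ∘ e) 2 volume := hg.comp_measurePreserving hmp
  have h2 : ¬ ((g ∘ e) =ᵐ[volume] 0) := by
    intro h
    apply hg0
    have h3 := hmp'.quasiMeasurePreserving.tendsto_ae.eventually h
    filter_upwards [h3] with x hx
    simpa using hx
  have h3 := H 1 (g ∘ e) h1 h2 s c ?_ P3 (by simp [hs])
  · have h4 : c P3 = -C := by
      simp only [hc]
      rw [Finset.sum_eq_zero, Finset.sum_eq_zero]
      · simp
      · intro k _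
        rw [if_neg (P2_ne k)]
      · intro k _
        rw [if_neg (P1_ne k)]
    rw [h4, neg_eq_zero] at h3
    exact hC h3
  · refine Filter.Eventually.of_forall (fun w => ?_)
    simp only [hc, add_mul, Finset.sum_add_distrib, Pi.zero_apply]
    rw [sum_ite_image F P1 A s (fun k hk => by
        rw [hs]; exact Finset.mem_union_left _ (Finset.mem_image_of_mem _ hk)),
      sum_ite_image G P2 B s (fun k hk => by
        rw [hs]; exact Finset.mem_union_right _ (Finset.mem_union_left _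
          (Finset.mem_image_of_mem _ hk)))]
    simp_rw [ite_mul, zero_mul]
    rw [Finset.sum_ite_eq s P3, if_pos (by simp [hs])]
    have h5 := hrel (w 0)
    have a1 : ∀ k : Fin 2 → ℤ, A k * (Complex.exp (2 * (Real.pi : ℂ) * Complex.I *
        ((∑ i, (P1 k).2 i * w i : ℝ) : ℂ)) * (g ∘ e) (w - (P1 k).1)) =
        A k * (E (k 0 * ((w 0 : ℝ) : ℂ)) * g (w 0 + k 1)) := by
      intro k
      simp only [P1, Function.comp, hev, Pi.sub_apply, sub_neg_eq_add, E, Fin.sum_univ_one]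
      push_cast
      rfl
    have a2 : ∀ k : Fin 2 → ℤ, B k * (Complex.exp (2 * (Real.pi : ℂ) * Complex.I *
        ((∑ i, (P2 k).2 i * w i : ℝ) : ℂ)) * (g ∘ e) (w - (P2 k).1)) =
        B k * (E (k 0 * ((w 0 : ℝ) : ℂ)) * g (w 0 - 1 / 2 + k 1)) := by
      intro k
      simp only [P2, Function.comp, hev, Pi.sub_apply, E, Fin.sum_univ_one]
      push_cast
      congr 3
      ring
    have a3 : -C * (Complex.exp (2 * (Real.pi : ℂ) * Complex.I *
        ((∑ i, P3.2 i * w i : ℝ) : ℂ)) * (g ∘ e) (w - P3.1)) =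
        -C * (E (((√3 : ℝ) : ℂ) * ((w 0 : ℝ) : ℂ)) * g (w 0 - √2 / 2)) := by
      simp only [P3, Function.comp, hev, Pi.sub_apply, E, Fin.sum_univ_one]
      push_cast
      rfl
    simp_rw [a1, a2]
    rw [a3, h5]
    ring

end Pool.Agent.S04652
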