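import Pool.Statements.S04683
import Pool.Agent.Y249.SU.Final

set_option autoImplicit false
open Filter Topology
open scoped ENNReal
open Pool Pool.MP_535d13_an

namespace Pool.Agent.S04683

/-- For every gauge φ (increasing, φ(0)=0, positive, continuous at 0) with r/φ(r)→0, there is a closed set of uniqueness K⊆[0,1] on the circle whose set of absolutely normal points has positive φ-Hausdorff measure. -/
theorem result :
    ∀ φ : ℝ → ℝ, MonotoneOn φ (Set.Ici 0) → φ 0 = 0 → (∀ r : ℝ, 0 < r → 0 < φ r) →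
      Tendsto φ (𝓝[>] (0:ℝ)) (𝓝 0) →
      Tendsto (fun r : ℝ => r / φ r) (𝓝[>] (0:ℝ)) (𝓝 0) →
      ∃ K : Set ℝ, IsClosed K ∧ K ⊆ Set.Icc (0:ℝ) 1 ∧
        (∀ c : ℤ → ℂ,
          (∀ x : ℝ, (∀ m : ℤ, x + (m:ℝ) ∉ K) →
            Tendsto (fun N : ℕ => ∑ n ∈ Finset.Icc (-(N:ℤ)) (N:ℤ),
              c n * Complex.exp (2 * (Real.pi:ℂ) * Complex.I * (n:ℂ) * (x:ℂ))) atTop (𝓝 0)) →
          ∀ n : ℤ, c n = 0) ∧
        0 < MeasureTheory.Measure.mkMetric (fun r : ℝ≥0∞ => ENNReal.ofReal (φ r.toReal))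
          (K ∩ {x : ℝ | ∀ b : ℕ, 2 ≤ b → ∀ k : ℕ, ∀ w : Fin k → ℤ,
            (∀ j : Fin k, 0 ≤ w j ∧ w j < (b:ℤ)) →
            Tendsto (fun N : ℕ =>
              ((((Finset.range N).filter (fun i : ℕ =>
                ∀ j : Fin k, ⌊x * (b:ℝ) ^ (i + j.val + 1)⌋ % (b:ℤ) = w j)).card : ℝ) / (N:ℝ)))
              atTop (𝓝 (1 / (b:ℝ) ^ k))}) := by
  exact Pool.Agent.Y249.SU.main

end Pool.Agent.S04683
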