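import Pool.Statements.S04693
import Pool.Agent.Y281.PiBase2

set_option autoImplicit false
open Pool Pool.MP_53fbd4_an

namespace Pool.Agent.S04693

open Filter Topology Pool.Agent.Y281.UB Pool.Agent.Y281.PiBase

/-- For every real Banach space with a 1-unconditional basis, the closed unit ball in the relative weak topology has a countable family of nonempty relatively open sets such that every nonempty relatively open subset of the ball contains one of them. -/
theorem result :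
    ∀ (X : Type) [NormedAddCommGroup X] [NormedSpace ℝ X] [CompleteSpace X] (e : ℕ → X),
      (∀ x : X, ∃! a : ℕ → ℝ, HasSum (fun n => a n • e n) x) →
      (∀ (s : Finset ℕ) (a ε : ℕ → ℝ), (∀ n, ε n = 1 ∨ ε n = -1) →
          ‖∑ n ∈ s, (ε n * a n) • e n‖ ≤ ‖∑ n ∈ s, a n • e n‖) →
      ∃ U : ℕ → Set (WeakSpace ℝ X),
        (∀ n, IsOpen (U n) ∧
            (U n ∩ (toWeakSpace ℝ X) '' Metric.closedBall (0 : X) 1).Nonempty) ∧
        ∀ V : Set (WeakSpace ℝ X), IsOpen V →
          (V ∩ (toWeakSpace ℝ X) '' Metric.closedBall (0 : X) 1).Nonempty →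
            ∃ n, U n ∩ (toWeakSpace ℝ X) '' Metric.closedBall (0 : X) 1 ⊆ V := by
  intro X _ _ _ e hB hU
  classical
  -- the coordinate sets
  let W : (Σ N : ℕ, (Fin N → ℚ)) × ℕ → Set (WeakSpace ℝ X) := fun p =>
    {y | ∀ n : Fin p.1.1, |A hB ((toWeakSpace ℝ X).symm y) n - p.1.2 n| < 1 / (p.2 + 1 : ℝ)}
  have hWo : ∀ p, IsOpen (W p) := by
    intro p
    have h1 : W p = ⋂ n : Fin p.1.1, {y : WeakSpace ℝ X |
        |A hB ((toWeakSpace ℝ X).symm y) n - p.1.2 n| < 1 / (p.2 + 1 : ℝ)} := by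
      ext y; simp [W]
    rw [h1]
    refine isOpen_iInter_of_finite fun n => ?_
    have hc : Continuous fun y : WeakSpace ℝ X => A hB ((toWeakSpace ℝ X).symm y) n := by
      have := WeakBilin.eval_continuous (topDualPairing ℝ X).flip (coord hB hU (n : ℕ))
      exact this
    exact isOpen_lt (continuous_abs.comp (hc.sub continuous_const)) continuous_const
  let 𝒰 : Set (Set (WeakSpace ℝ X)) :=
    {S | S ∈ Set.range W ∧ (S ∩ (toWeakSpace ℝ X) '' Metric.closedBall (0 : X) 1).Nonempty}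
  have hcount : 𝒰.Countable := (Set.countable_range W).mono fun S hS => hS.1
  have hne : 𝒰.Nonempty := by
    refine ⟨W (⟨0, fun n => 0⟩, 0), ⟨_, rfl⟩, 0, ?_, 0, ?_, ?_⟩
    · intro n; exact n.elim0
    · simp
    · simp
  obtain ⟨U, hUr⟩ := hcount.exists_eq_range hne
  refine ⟨U, fun n => ?_, ?_⟩
  · have h1 : U n ∈ 𝒰 := by rw [hUr]; exact ⟨n, rfl⟩
    obtain ⟨⟨p, hp⟩, h2⟩ := h1
    exact ⟨hp ▸ hWo p, h2⟩
  · intro V hV hVne
    obtain ⟨_, hx0V, x0, hx0, rfl⟩ := hVne
    rw [Metric.mem_closedBall, dist_zero_right] at hx0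
    -- a basic weak neighbourhood
    obtain ⟨O, hO, rfl⟩ := isOpen_induced_iff.1 hV
    obtain ⟨I, u, hu, hsub⟩ := isOpen_pi_iff.1 hO _ hx0V
    have hball : ∀ g ∈ I, ∃ r > 0, Metric.ball (g x0) r ⊆ u g := fun g hg =>
      Metric.isOpen_iff.1 (hu g hg).1 _ (hu g hg).2
    obtain ⟨r, hr0, hr⟩ : ∃ r > 0, ∀ g ∈ I, Metric.ball (g x0) r ⊆ u g := by
      choose! ρ hρ0 hρ using hball
      rcases I.eq_empty_or_nonempty with rfl | hI
      · exact ⟨1, one_pos, by simp⟩
      · refine ⟨I.inf' hI ρ, ?_, fun g hg => ?_⟩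
        · rw [gt_iff_lt, Finset.lt_inf'_iff]; exact hρ0
        · exact (Metric.ball_subset_ball (Finset.inf'_le _ hg)).trans (hρ g hg)
    set ε : ℝ := r / 4 with hε
    have hε0 : 0 < ε := by positivity
    -- a finitely supported vector of norm less than one
    obtain ⟨s, hs⟩ : ∃ s : Finset ℕ, ∀ g ∈ I, |g (T e (tr hB s x0)) - g x0| < ε / 2 := by
      have h1 : ∀ g ∈ I, ∀ᶠ s : Finset ℕ in atTop, |g (T e (tr hB s x0)) - g x0| < ε / 2 := by
        intro g _
        have h2 := (g.continuous.tendsto x0).comp (tendsto_T_tr hB x0)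
        have h3 := Metric.tendsto_nhds.1 h2 (ε / 2) (by positivity)
        filter_upwards [h3] with s hs
        rwa [Real.dist_eq] at hs
      exact ((Filter.eventually_all_finset I).2 h1).exists
    set S : ℝ := ∑ g ∈ I, ‖g‖ with hS
    have hS0 : 0 ≤ S := by rw [hS]; positivity
    set κ : ℝ := min (1 / 2) (ε / (2 * (S + 1))) with hκ
    have hκ0 : 0 < κ := lt_min (by norm_num) (by positivity)
    have hκh : κ ≤ 1 / 2 := min_le_left _ _
    have hκS : κ * (2 * (S + 1)) ≤ ε := by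
      have : κ ≤ ε / (2 * (S + 1)) := min_le_right _ _
      rwa [le_div_iff₀ (by positivity)] at this
    have htr : ‖T e (tr hB s x0)‖ ≤ 1 := (norm_T_tr_le hB hU s x0).trans hx0
    set w : ℕ →₀ ℝ := (1 - κ) • tr hB s x0 with hw
    have hwn : ‖T e w‖ ≤ 1 - κ := by
      rw [hw, map_smul, norm_smul, Real.norm_eq_abs, abs_of_nonneg (by linarith)]
      exact mul_le_of_le_one_right (by linarith) htr
    have hwg : ∀ g ∈ I, |g (T e w) - g x0| ≤ ε := by
      intro g hg
      have h1 : g (T e w) - g x0 = (g (T e (tr hB s x0)) - g x0) - κ * g (T e (tr hB s x0)) := by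
        rw [hw, map_smul, map_smul, smul_eq_mul]; ring
      have h2 : |κ * g (T e (tr hB s x0))| ≤ ε / 2 := by
        rw [abs_mul, abs_of_pos hκ0]
        have h3 : |g (T e (tr hB s x0))| ≤ ‖g‖ := by
          have := g.le_opNorm (T e (tr hB s x0))
          exact this.trans (mul_le_of_le_one_right (norm_nonneg _) htr)
        have h4 : ‖g‖ ≤ S :=
          Finset.single_le_sum (f := fun g : X →L[ℝ] ℝ => ‖g‖) (fun _ _ => norm_nonneg _) hg
        have h5 : κ * |g (T e (tr hB s x0))| ≤ κ * (S + 1) :=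
          mul_le_mul_of_nonneg_left (by linarith) hκ0.le
        linarith
      rw [h1]
      have h6 := abs_sub (g (T e (tr hB s x0)) - g x0) (κ * g (T e (tr hB s x0)))
      have h7 := (hs g hg).le
      linarith
    obtain ⟨w', hw'1, hw'g, N, η, hη, hkey⟩ :=
      key I hB hU w hκ0 (by linarith) hwn hε0
    obtain ⟨k, hk⟩ := exists_nat_gt (2 / η)
    have hk1 : 1 / (k + 1 : ℝ) + 1 / (k + 1 : ℝ) ≤ η := by
      have h1 : (0 : ℝ) < k + 1 := by positivity
      rw [← add_div, div_le_iff₀ h1]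
      rw [div_lt_iff₀ hη] at hk
      nlinarith
    have hq : ∀ n : Fin N, ∃ q : ℚ, |w' n - q| < 1 / (k + 1 : ℝ) := fun n =>
      exists_rat_near _ (by positivity)
    choose q hq using hq
    have hmem : W (⟨N, q⟩, k) ∈ 𝒰 := by
      refine ⟨⟨_, rfl⟩, toWeakSpace ℝ X (T e w'), ?_, T e w', ?_, rfl⟩
      · intro n
        change |A hB (T e w') n - q n| < 1 / (k + 1 : ℝ)
        rw [A_T]
        exact hq n
      · simpa using hw'1
    rw [hUr] at hmem
    obtain ⟨n, hn⟩ := hmem
    refine ⟨n, ?_⟩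
    rw [hn]
    rintro _ ⟨hy, y, hyb, rfl⟩
    rw [Metric.mem_closedBall, dist_zero_right] at hyb
    have h1 : ∀ m < N, |A hB y m - w' m| < η := by
      intro m hm
      have h2 : |A hB y m - q ⟨m, hm⟩| < 1 / (k + 1 : ℝ) := hy ⟨m, hm⟩
      have h3 : |w' m - q ⟨m, hm⟩| < 1 / (k + 1 : ℝ) := hq ⟨m, hm⟩
      have h4 := abs_sub_le (A hB y m) (q ⟨m, hm⟩) (w' m)
      rw [abs_sub_comm (q ⟨m, hm⟩ : ℝ) (w' m)] at h4
      linarith
    have h2 := hkey y hyb h1
    apply hsub
    intro g hg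
    apply hr g hg
    rw [Metric.mem_ball, Real.dist_eq]
    change |g y - g x0| < r
    have h3 := h2 g hg
    have h4 := hw'g g hg
    have h5 := hwg g hg
    have h6 := abs_sub_le (g y) (g (T e w')) (g x0)
    have h7 := abs_sub_le (g (T e w')) (g (T e w)) (g x0)
    have h8 : r = 4 * ε := by rw [hε]; ring
    linarith

end Pool.Agent.S04693
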