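import Pool.Statements.S04820
import Pool.Agent.Y291.SpecHad

set_option autoImplicit false
open MeasureTheory Matrix
open scoped ENNReal Real
open Pool Pool.MP_5f557b_an
open Pool.Agent.Y291

namespace Pool.Agent.S04820

/-- the expanding matrix -/
def R0 : Matrix (Fin 2) (Fin 2) ℤ := !![4, 0; 0, 3]

/-- the digits -/
def B0 : Finset (Fin 2 → ℤ) := {![0, 0], ![1, 0], ![8, 1], ![9, 1]}

lemma B0_card : B0.card = 4 := by decide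

lemma inv_R0 : (R0.map (Int.cast : ℤ → ℝ))⁻¹ = !![1 / 4, 0; 0, 1 / 3] := by
  unfold R0
  apply Matrix.inv_eq_right_inv
  ext i j
  fin_cases i <;> fin_cases j <;> simp [Matrix.mul_apply, Fin.sum_univ_two]

lemma expanding : ∀ z : ℂ, (R0.map (Int.cast : ℤ → ℂ)).charpoly.IsRoot z → 1 < ‖z‖ := by
  intro z hz
  unfold R0 at hz
  rw [Matrix.charpoly_fin_two] at hz
  simp [Matrix.trace_fin_two, Matrix.det_fin_two] at hz
  have h : (z - 4) * (z - 3) = 0 := by linear_combination hz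
  rcases mul_eq_zero.1 h with h1 | h1
  · rw [sub_eq_zero] at h1; rw [h1]; norm_num
  · rw [sub_eq_zero] at h1; rw [h1]; norm_num

lemma simple : ∀ b ∈ B0, ∀ b' ∈ B0, b ≠ b' → ¬ ∃ v : Fin 2 → ℤ, R0 *ᵥ v = b - b' := by
  intro b hb b' hb' hne ⟨v, hv⟩
  have h0 := congrFun hv 0
  have h1 := congrFun hv 1
  simp only [B0, Finset.mem_insert, Finset.mem_singleton] at hb hb'
  rcases hb with rfl | rfl | rfl | rfl <;> rcases hb' with rfl | rfl | rfl | rfl <;>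
    first
    | exact hne rfl
    | (simp [R0, Matrix.mulVec, dotProduct, Fin.sum_univ_two] at h0 h1; omega)

lemma closure_top :
    AddSubgroup.closure {v : Fin 2 → ℤ | ∃ k : ℕ, ∃ b ∈ B0, v = (R0 ^ k) *ᵥ b} = ⊤ := by
  rw [eq_top_iff]
  intro v _
  have h1 : (![1, 0] : Fin 2 → ℤ) ∈
      AddSubgroup.closure {v : Fin 2 → ℤ | ∃ k : ℕ, ∃ b ∈ B0, v = (R0 ^ k) *ᵥ b} :=
    AddSubgroup.subset_closure ⟨0, ![1, 0], by simp [B0], by simp⟩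
  have h2 : (![8, 1] : Fin 2 → ℤ) ∈
      AddSubgroup.closure {v : Fin 2 → ℤ | ∃ k : ℕ, ∃ b ∈ B0, v = (R0 ^ k) *ᵥ b} :=
    AddSubgroup.subset_closure ⟨0, ![8, 1], by simp [B0], by simp⟩
  have h3 : v = (v 0 - 8 * v 1) • (![1, 0] : Fin 2 → ℤ) + (v 1) • (![8, 1] : Fin 2 → ℤ) := by
    funext i
    fin_cases i
    · simp; ring
    · simp
  rw [h3]
  exact AddSubgroup.add_mem _ (AddSubgroup.zsmul_mem _ h1 _) (AddSubgroup.zsmul_mem _ h2 _)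

lemma map_eq_phi (a c : ℤ) :
    (fun x : Fin 2 → ℝ => (R0.map (Int.cast : ℤ → ℝ))⁻¹ *ᵥ (x + fun i => ((![a, c] : Fin 2 → ℤ) i : ℝ))) =
      SpecHad.phi a c := by
  rw [inv_R0]
  funext x i
  fin_cases i
  · simp [SpecHad.phi, Matrix.mulVec, dotProduct, Fin.sum_univ_two]; ring
  · simp [SpecHad.phi, Matrix.mulVec, dotProduct, Fin.sum_univ_two]; ring

lemma sum_B0 {M : Type*} [AddCommMonoid M] (f : (Fin 2 → ℤ) → M) :
    ∑ b ∈ B0, f b = f ![0, 0] + (f ![1, 0] + (f ![8, 1] + f ![9, 1])) := by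
  unfold B0
  rw [Finset.sum_insert (by decide), Finset.sum_insert (by decide), Finset.sum_insert (by decide),
    Finset.sum_singleton]

lemma self_affine : SpecHad.mu = ((B0.card : ℝ≥0∞)⁻¹) • ∑ b ∈ B0,
    SpecHad.mu.map (fun x => (R0.map (Int.cast : ℤ → ℝ))⁻¹ *ᵥ (x + fun i => (b i : ℝ))) := by
  rw [sum_B0, map_eq_phi, map_eq_phi, map_eq_phi, map_eq_phi, B0_card]
  conv_lhs => rw [SpecHad.mu_self]
  push_cast
  rw [add_assoc, add_assoc]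

lemma exp_eq_e (t : ℝ) : Complex.exp (2 * π * Complex.I * (t : ℂ)) = SpecHad.e t := rfl

lemma spectral : ∃ Λ : Set (Fin 2 → ℝ),
    (∀ l ∈ Λ, ∀ l' ∈ Λ,
      (l = l' → ∫ x, Complex.exp (2 * π * Complex.I * ((∑ i, (l i - l' i) * x i : ℝ) : ℂ)) ∂SpecHad.mu = 1) ∧
      (l ≠ l' → ∫ x, Complex.exp (2 * π * Complex.I * ((∑ i, (l i - l' i) * x i : ℝ) : ℂ)) ∂SpecHad.mu = 0)) ∧
    (∀ f : (Fin 2 → ℝ) → ℂ, MemLp f 2 SpecHad.mu →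
      (∀ l ∈ Λ, ∫ x, f x * Complex.exp (-(2 * π * Complex.I * ((∑ i, l i * x i : ℝ) : ℂ))) ∂SpecHad.mu = 0) →
      f =ᵐ[SpecHad.mu] 0) := by
  refine ⟨SpecHad.Lam, ?_, ?_⟩
  · intro l hl l' hl'
    constructor
    · rintro rfl
      simp
    · intro hne
      rw [← SpecHad.integral_zero_of_ne l l' hl hl' hne]
      congr 1
      funext x
      rw [exp_eq_e]
      congr 1
      rw [Fin.sum_univ_two, hl.1, hl'.1]
      ring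
  · intro f hf h
    refine SpecHad.complete_mu f hf (fun l hl => ?_)
    rw [← h l hl]
    congr 1
    funext x
    congr 1
    unfold SpecHad.e
    congr 1
    rw [Fin.sum_univ_two, hl.1]
    push_cast
    ring

lemma mask (l l' : Fin 2 → ℤ) : ∑ b ∈ B0, Complex.exp (2 * π * Complex.I *
      ((∑ i, ((R0.map (Int.cast : ℤ → ℝ))⁻¹ *ᵥ (fun j => (b j : ℝ))) i * ((l i : ℝ) - (l' i : ℝ)) : ℝ) : ℂ)) =
    (1 + SpecHad.e (((l 0 - l' 0 : ℤ) : ℝ) / 4)) * (1 + SpecHad.e (((l 1 - l' 1 : ℤ) : ℝ) / 3)) := by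
  have hb : ∀ a c : ℤ, Complex.exp (2 * π * Complex.I *
      ((∑ i, ((R0.map (Int.cast : ℤ → ℝ))⁻¹ *ᵥ (fun j => ((![a, c] : Fin 2 → ℤ) j : ℝ))) i * ((l i : ℝ) - (l' i : ℝ)) : ℝ) : ℂ)) =
      SpecHad.e (a * (((l 0 - l' 0 : ℤ) : ℝ) / 4) + c * (((l 1 - l' 1 : ℤ) : ℝ) / 3)) := by
    intro a c
    rw [exp_eq_e]
    congr 1
    rw [inv_R0]
    simp [Matrix.mulVec, dotProduct, Fin.sum_univ_two]
    ring
  rw [sum_B0, hb, hb, hb, hb]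
  have h8 : SpecHad.e (((8 : ℤ) : ℝ) * (((l 0 - l' 0 : ℤ) : ℝ) / 4) + ((1 : ℤ) : ℝ) * (((l 1 - l' 1 : ℤ) : ℝ) / 3)) =
      SpecHad.e (((l 1 - l' 1 : ℤ) : ℝ) / 3) := by
    rw [show ((8 : ℤ) : ℝ) * (((l 0 - l' 0 : ℤ) : ℝ) / 4) + ((1 : ℤ) : ℝ) * (((l 1 - l' 1 : ℤ) : ℝ) / 3) =
      ((2 * (l 0 - l' 0) : ℤ) : ℝ) + ((l 1 - l' 1 : ℤ) : ℝ) / 3 by push_cast; ring, SpecHad.e_add,
      SpecHad.e_int, one_mul]
  have h9 : SpecHad.e (((9 : ℤ) : ℝ) * (((l 0 - l' 0 : ℤ) : ℝ) / 4) + ((1 : ℤ) : ℝ) * (((l 1 - l' 1 : ℤ) : ℝ) / 3)) =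
      SpecHad.e (((l 0 - l' 0 : ℤ) : ℝ) / 4) * SpecHad.e (((l 1 - l' 1 : ℤ) : ℝ) / 3) := by
    rw [show ((9 : ℤ) : ℝ) * (((l 0 - l' 0 : ℤ) : ℝ) / 4) + ((1 : ℤ) : ℝ) * (((l 1 - l' 1 : ℤ) : ℝ) / 3) =
      ((2 * (l 0 - l' 0) : ℤ) : ℝ) + (((l 0 - l' 0 : ℤ) : ℝ) / 4 + ((l 1 - l' 1 : ℤ) : ℝ) / 3) by
        push_cast; ring, SpecHad.e_add, SpecHad.e_int, one_mul, SpecHad.e_add]
  rw [h8, h9]
  rw [show ((0 : ℤ) : ℝ) * (((l 0 - l' 0 : ℤ) : ℝ) / 4) + ((0 : ℤ) : ℝ) * (((l 1 - l' 1 : ℤ) : ℝ) / 3) = 0 by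
      push_cast; ring,
    show ((1 : ℤ) : ℝ) * (((l 0 - l' 0 : ℤ) : ℝ) / 4) + ((0 : ℤ) : ℝ) * (((l 1 - l' 1 : ℤ) : ℝ) / 3) =
      ((l 0 - l' 0 : ℤ) : ℝ) / 4 by push_cast; ring, SpecHad.e_zero]
  ring

/-- The negation of the preceding statement: For expanding integer R and simple digits B with 0 in B, 2 ≤ #B < ∣det R∣ and ℤ[R,B] = ℤ^d: if the self-affine measure has an orthonormal basis of exponentials, then some L in ℤ^d with #L = #B makes (R,B,L) a Hadamard triple. -/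
theorem result :
    ¬ (∀ (d : ℕ), 1 ≤ d → ∀ (R : Matrix (Fin d) (Fin d) ℤ) (B : Finset (Fin d → ℤ)),
    (∀ z : ℂ, (R.map (Int.cast : ℤ → ℂ)).charpoly.IsRoot z → 1 < ‖z‖) →
    (∀ b ∈ B, ∀ b' ∈ B, b ≠ b' → ¬ ∃ v : Fin d → ℤ, R *ᵥ v = b - b') →
    2 ≤ B.card → (B.card : ℤ) < |R.det| → (0 : Fin d → ℤ) ∈ B →
    AddSubgroup.closure {v : Fin d → ℤ | ∃ k : ℕ, ∃ b ∈ B, v = (R ^ k) *ᵥ b} = ⊤ →
    ∀ μ : Measure (Fin d → ℝ), IsProbabilityMeasure μ →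
      μ = ((B.card : ℝ≥0∞)⁻¹) • ∑ b ∈ B,
            μ.map (fun x => (R.map (Int.cast : ℤ → ℝ))⁻¹ *ᵥ (x + fun i => (b i : ℝ))) →
      (∃ Λ : Set (Fin d → ℝ),
        (∀ l ∈ Λ, ∀ l' ∈ Λ,
          (l = l' → ∫ x, Complex.exp (2 * π * Complex.I * ((∑ i, (l i - l' i) * x i : ℝ) : ℂ)) ∂μ = 1) ∧
          (l ≠ l' → ∫ x, Complex.exp (2 * π * Complex.I * ((∑ i, (l i - l' i) * x i : ℝ) : ℂ)) ∂μ = 0)) ∧
        (∀ f : (Fin d → ℝ) → ℂ, MemLp f 2 μ →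
          (∀ l ∈ Λ, ∫ x, f x * Complex.exp (-(2 * π * Complex.I * ((∑ i, l i * x i : ℝ) : ℂ))) ∂μ = 0) →
          f =ᵐ[μ] 0)) →
      ∃ L : Finset (Fin d → ℤ), L.card = B.card ∧
        ∀ l ∈ L, ∀ l' ∈ L,
          (l = l' → ∑ b ∈ B, Complex.exp (2 * π * Complex.I *
              ((∑ i, ((R.map (Int.cast : ℤ → ℝ))⁻¹ *ᵥ (fun j => (b j : ℝ))) i * ((l i : ℝ) - (l' i : ℝ)) : ℝ) : ℂ))
              = (B.card : ℂ)) ∧
          (l ≠ l' → ∑ b ∈ B, Complex.exp (2 * π * Complex.I *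
              ((∑ i, ((R.map (Int.cast : ℤ → ℝ))⁻¹ *ᵥ (fun j => (b j : ℝ))) i * ((l i : ℝ) - (l' i : ℝ)) : ℝ) : ℂ))
              = 0)) := by
  intro hall
  obtain ⟨L, hL, hH⟩ := hall 2 (by norm_num) R0 B0 expanding simple (by rw [B0_card]; norm_num)
    (by rw [B0_card]; unfold R0; rw [Matrix.det_fin_two_of]; norm_num)
    (by decide) closure_top SpecHad.mu inferInstance self_affine spectral
  rw [B0_card] at hL
  obtain ⟨l, l', l'', hl, hl', hl'', h1, h2, h3⟩ :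
      ∃ l l' l'', l ∈ L ∧ l' ∈ L ∧ l'' ∈ L ∧ l ≠ l' ∧ l ≠ l'' ∧ l' ≠ l'' := by
    obtain ⟨a, ha, b, hb, c, hc, h1, h2, h3⟩ := (Finset.two_lt_card (s := L)).1 (by omega)
    exact ⟨a, b, c, ha, hb, hc, h1, h2, h3⟩
  have k1 := (hH l hl l' hl').2 h1
  have k2 := (hH l hl l'' hl'').2 h2
  have k3 := (hH l' hl' l'' hl'').2 h3
  rw [mask] at k1 k2 k3
  refine SpecHad.no_three (l 0, l 1) (l' 0, l' 1) (l'' 0, l'' 1) (fun p hp => ?_)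
  simp only [List.mem_cons, List.not_mem_nil, or_false] at hp
  rcases hp with rfl | rfl | rfl
  · exact k1
  · exact k2
  · exact k3

end Pool.Agent.S04820
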