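import Pool.Statements.S04862
import Pool.Agent.Y265.Fc

set_option autoImplicit false
open Pool Pool.MP_63a02b_an

namespace Pool.Agent.S04862

/-- The negation of the preceding statement: Every operator on a real or complex separable F-space that is chaotic, topologically mixing and frequently hypercyclic admits a dense set X0 and a self-map S of X0 with the series of T^n x and S^n x unconditionally convergent and TSx = x on X0. -/
theorem result :
    ¬ (∀ (𝕂 : Type) [RCLike 𝕂] (X : Type) [AddCommGroup X] [Module 𝕂 X] [UniformSpace X]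
      [IsUniformAddGroup X] [CompleteSpace X] [TopologicalSpace.MetrizableSpace X]
      [TopologicalSpace.SeparableSpace X] [ContinuousSMul 𝕂 X] (T : X →L[𝕂] X),
      ((∃ x : X, Dense (Set.range (fun n : ℕ => (T ^ n) x))) ∧
        Dense {x : X | ∃ n : ℕ, 0 < n ∧ (T ^ n) x = x}) →
      (∀ U V : Set X, IsOpen U → IsOpen V → U.Nonempty → V.Nonempty →
        ∃ N : ℕ, ∀ n : ℕ, N ≤ n → ((⇑(T ^ n)) ⁻¹' V ∩ U).Nonempty) →
      (∃ x : X, ∀ U : Set X, IsOpen U → U.Nonempty →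
        ∃ δ : ℝ, 0 < δ ∧ ∃ N₀ : ℕ, ∀ N : ℕ, N₀ ≤ N →
          δ * (N : ℝ) ≤ (Nat.card {n : ℕ // n < N ∧ (T ^ n) x ∈ U} : ℝ)) →
      ∃ X₀ : Set X, Dense X₀ ∧ ∃ S : X → X, (∀ x ∈ X₀, S x ∈ X₀) ∧
        ∀ x ∈ X₀, Summable (fun n : ℕ => (T ^ n) x) ∧
          Summable (fun n : ℕ => S^[n] x) ∧ T (S x) = x) := by
  intro hall
  exact Y265.Fc.no_fhcc (hall ℝ Y265.Fc.X Y265.Fc.T ⟨Y265.Fc.hyper, Y265.Fc.chaos⟩
    (fun U V hU hV hUn hVn => Y265.Fc.mixing U V hU hV hUn hVn) Y265.Fc.fhc)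

end Pool.Agent.S04862
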