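import Pool.Statements.S05106
import Mathlib.Analysis.SpecialFunctions.Sigmoid

set_option autoImplicit false
open Pool Pool.MP_7987d1_an

namespace Pool.Agent.S05106

open Real in
/-- The explicit front `u(x, t) = σ(x / √2 + 3 t / 2)` of the equation `u_t = u_xx + u - u³`, which
connects the unstable state `0` with the stable state `1`; it increases in `x` and in `t`. -/
theorem front_line (x t : ℝ) :
    HasDerivAt (fun y : ℝ => sigmoid (y / √2 + 3 / 2 * t))
      (1 / √2 * (sigmoid (x / √2 + 3 / 2 * t) * (1 - sigmoid (x / √2 + 3 / 2 * t)))) x := by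
  have h1 : HasDerivAt (fun y : ℝ => y / √2 + 3 / 2 * t) (1 / √2) x :=
    ((hasDerivAt_id x).div_const _).add_const _
  exact ((hasDerivAt_sigmoid (x / √2 + 3 / 2 * t)).comp x h1).congr_deriv (mul_comm _ _)

open Real in
theorem front_line2 (x t : ℝ) :
    HasDerivAt (fun y : ℝ => 1 / √2 * (sigmoid (y / √2 + 3 / 2 * t) *
        (1 - sigmoid (y / √2 + 3 / 2 * t))))
      (1 / 2 * (sigmoid (x / √2 + 3 / 2 * t) * (1 - sigmoid (x / √2 + 3 / 2 * t)) *
        (1 - 2 * sigmoid (x / √2 + 3 / 2 * t)))) x := by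
  have h1 := front_line x t
  have h2 := (h1.mul (h1.const_sub 1)).const_mul (1 / √2)
  refine h2.congr_deriv ?_
  have hs : (1 / √2) * (1 / √2) = (1 / 2 : ℝ) := by
    rw [one_div_mul_one_div, Real.mul_self_sqrt (by norm_num)]
  linear_combination ((sigmoid (x / √2 + 3 / 2 * t) * (1 - sigmoid (x / √2 + 3 / 2 * t)) *
        (1 - 2 * sigmoid (x / √2 + 3 / 2 * t)))) * hs

open Real in
theorem front_time (x t : ℝ) :
    HasDerivAt (fun s : ℝ => sigmoid (x / √2 + 3 / 2 * s))
      (3 / 2 * (sigmoid (x / √2 + 3 / 2 * t) * (1 - sigmoid (x / √2 + 3 / 2 * t)))) t := by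
  have h1 : HasDerivAt (fun s : ℝ => x / √2 + 3 / 2 * s) (3 / 2) t := by
    simpa using ((hasDerivAt_id t).const_mul (3 / 2 : ℝ)).const_add (x / √2)
  exact ((hasDerivAt_sigmoid (x / √2 + 3 / 2 * t)).comp t h1).congr_deriv (mul_comm _ _)

/-- The negation of the preceding statement: For 1≤n≤8, every C² solution of Δu−u_t=u³−u for t<0 with ∣u∣≤1, ∂u/∂x_n>0 and u_t≥0 has the form u(x,t)=g(ν·x) for a unit vector ν, i.e. is one-dimensional and time-independent. -/
theorem result :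
    ¬ (∀ m : ℕ, m + 1 ≤ 8 → ∀ u : EuclideanSpace ℝ (Fin (m + 1)) × ℝ → ℝ,
    ContDiffOn ℝ 2 u {p | p.2 < 0} →
    (∀ x : EuclideanSpace ℝ (Fin (m + 1)), ∀ t : ℝ, t < 0 →
      |u (x, t)| ≤ 1 ∧
      (∑ i : Fin (m + 1), iteratedFDeriv ℝ 2 (fun y => u (y, t)) x
          (fun _ => EuclideanSpace.single i (1 : ℝ)))
        - deriv (fun s => u (x, s)) t = u (x, t) ^ 3 - u (x, t) ∧
      0 < fderiv ℝ (fun y => u (y, t)) x (EuclideanSpace.single (Fin.last m) (1 : ℝ)) ∧
      0 ≤ deriv (fun s => u (x, s)) t) →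
    ∃ ν : EuclideanSpace ℝ (Fin (m + 1)), ‖ν‖ = 1 ∧
      ∃ g : ℝ → ℝ, ∀ x : EuclideanSpace ℝ (Fin (m + 1)), ∀ t : ℝ, t < 0 →
        u (x, t) = g (inner ℝ ν x)) := by
  intro H
  -- the counterexample, in dimension `n = 2`
  let L : EuclideanSpace ℝ (Fin (1 + 1)) →L[ℝ] ℝ := EuclideanSpace.proj (Fin.last 1)
  have hL0 : L (EuclideanSpace.single 0 1) = 0 := by
    simp [L]
  have hL1 : L (EuclideanSpace.single 1 1) = 1 := by
    simp [L]
  let u : EuclideanSpace ℝ (Fin (1 + 1)) × ℝ → ℝ :=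
    fun p => Real.sigmoid (L p.1 / √2 + 3 / 2 * p.2)
  have hsig : ContDiff ℝ 2 Real.sigmoid :=
    contDiff_iff_contDiffAt.2 fun x => (analyticAt_sigmoid (x := x)).contDiffAt
  have hu : ContDiff ℝ 2 u := by
    apply hsig.comp
    fun_prop
  -- space derivatives
  have d1 : ∀ (t : ℝ) (x : EuclideanSpace ℝ (Fin (1 + 1))),
      HasFDerivAt (fun y => u (y, t))
        ((1 / √2 * (u (x, t) * (1 - u (x, t)))) • L) x := by
    intro t x
    exact (front_line (L x) t).comp_hasFDerivAt x L.hasFDerivAt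
  have d1' : ∀ t : ℝ, fderiv ℝ (fun y => u (y, t)) =
      fun x => (1 / √2 * (u (x, t) * (1 - u (x, t)))) • L := by
    intro t
    funext x
    exact (d1 t x).fderiv
  have d2 : ∀ (t : ℝ) (x : EuclideanSpace ℝ (Fin (1 + 1))),
      HasFDerivAt (fun x => (1 / √2 * (u (x, t) * (1 - u (x, t)))) • L)
        (((1 / 2 * (u (x, t) * (1 - u (x, t)) * (1 - 2 * u (x, t)))) • L).smulRight L) x := by
    intro t x
    exact ((front_line2 (L x) t).comp_hasFDerivAt x L.hasFDerivAt).smul_const L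
  have dt : ∀ (t : ℝ) (x : EuclideanSpace ℝ (Fin (1 + 1))),
      deriv (fun s => u (x, s)) t = 3 / 2 * (u (x, t) * (1 - u (x, t))) := by
    intro t x
    exact (front_time (L x) t).deriv
  have h0 : ∀ p, 0 < u p := fun p => Real.sigmoid_pos _
  have h1 : ∀ p, u p < 1 := fun p => Real.sigmoid_lt_one _
  obtain ⟨ν, -, g, hg⟩ := H 1 (by norm_num) u hu.contDiffOn (by
    intro x t _
    have hp := h0 (x, t)
    have hp1 := h1 (x, t)
    refine ⟨by rw [abs_of_pos hp]; exact hp1.le, ?_, ?_, ?_⟩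
    · rw [Fin.sum_univ_two, iteratedFDeriv_two_apply, iteratedFDeriv_two_apply, d1' t,
        (d2 t x).fderiv, dt t x]
      simp only [ContinuousLinearMap.smulRight_apply, smul_apply, hL0, hL1,
        smul_eq_mul]
      ring
    · rw [d1' t]
      have e : (EuclideanSpace.single (Fin.last 1) (1 : ℝ)) =
        (EuclideanSpace.single (1 : Fin (1 + 1)) (1 : ℝ)) := rfl
      rw [e, smul_apply, hL1, smul_eq_mul, mul_one]
      have : 0 < 1 - u (x, t) := by linarith
      positivity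
    · rw [dt t x]
      have : 0 < 1 - u (x, t) := by linarith
      positivity)
  have e1 := hg 0 (-1) (by norm_num)
  have e2 := hg 0 (-2) (by norm_num)
  have e3 : u (0, -1) = u (0, -2) := e1.trans e2.symm
  have e4 := Real.sigmoid_injective e3
  simp only [map_zero] at e4
  norm_num at e4

end Pool.Agent.S05106
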