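import Pool.Statements.S05156

set_option autoImplicit false
open Pool Pool.MP_7d5b5f_an

namespace Pool.Agent.S05156

/-- The negation of the preceding statement: For each p>1 there is C, independent of dimension d and coordinate k, so the discrete Riesz transform with kernel Γ((d+1)/2)π^{-(d+1)/2} x_k/∣x∣^{d+1} on ℤ^d is bounded on ℓ^p with norm at most C (tested on finitely supported f). -/
theorem result :
    ¬ (∀ p : ℝ, 1 < p → ∃ C : ℝ, 0 < C ∧
      ∀ (d : ℕ) (k : Fin d) (S T : Finset (Fin d → ℤ)) (f : (Fin d → ℤ) → ℝ),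
        ∑ n ∈ T, |∑ m ∈ S,
            ((Real.Gamma (((d : ℝ) + 1) / 2) / Real.pi ^ (((d : ℝ) + 1) / 2)) *
              (((n k - m k : ℤ) : ℝ) /
                (Real.sqrt (∑ i, (((n i - m i : ℤ) : ℝ)) ^ 2)) ^ (d + 1))) * f m| ^ p
          ≤ C ^ p * ∑ m ∈ S, |f m| ^ p) := by
  intro h
  obtain ⟨C, hC, hbound⟩ := h 2 (by norm_num)
  -- test the operator on the delta function at the origin, in the dimensions `d = 2 j + 1`
  have key : ∀ j : ℕ, (j.factorial : ℝ) / Real.pi ^ (j + 1) ≤ C := by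
    intro j
    have h1 := hbound (2 * j + 1) 0 {0} {Pi.single 0 1} (fun _ => 1)
    have hsum : (∑ i : Fin (2 * j + 1),
        ((((Pi.single 0 1 : Fin (2 * j + 1) → ℤ) i - (0 : Fin (2 * j + 1) → ℤ) i : ℤ) : ℝ)) ^ 2) = 1 := by
      rw [Finset.sum_eq_single (0 : Fin (2 * j + 1))]
      · simp
      · intro i _ hi
        simp [Pi.single_eq_of_ne hi]
      · simp
    have hd : ((((2 * j + 1 : ℕ) : ℝ) + 1) / 2) = (j : ℝ) + 1 := by push_cast; ring
    have hk : ((((Pi.single 0 1 : Fin (2 * j + 1) → ℤ) 0 - (0 : Fin (2 * j + 1) → ℤ) 0 : ℤ) : ℝ)) = 1 := by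
      simp
    rw [Finset.sum_singleton, Finset.sum_singleton, Finset.sum_singleton, hsum, hd, hk,
      Real.Gamma_nat_eq_factorial] at h1
    have hpi : Real.pi ^ ((j : ℝ) + 1) = Real.pi ^ (j + 1) := by
      rw [← Real.rpow_natCast]; push_cast; rfl
    rw [hpi] at h1
    simp only [Real.sqrt_one, one_pow, div_one, mul_one, abs_one, Real.one_rpow] at h1
    have h2 : ((j.factorial : ℝ) / Real.pi ^ (j + 1)) ^ 2 ≤ C ^ 2 := by
      have := h1
      rw [Real.rpow_two, Real.rpow_two, sq_abs] at this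
      exact this
    exact le_of_sq_le_sq h2 hC.le
  -- but `j! / π ^ (j + 1)` is unbounded
  have hlim := FloorSemiring.tendsto_pow_div_factorial_atTop Real.pi
  have hpi := Real.pi_pos
  have hev : ∀ᶠ j : ℕ in Filter.atTop, Real.pi ^ j / (j.factorial : ℝ) < 1 / (Real.pi * C) :=
    hlim.eventually (gt_mem_nhds (by positivity))
  obtain ⟨j, hj⟩ := hev.exists
  have hk := key j
  have hf : (0 : ℝ) < j.factorial := by exact_mod_cast j.factorial_pos
  rw [div_le_iff₀ (by positivity), pow_succ] at hk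
  rw [div_lt_div_iff₀ hf (by positivity)] at hj
  nlinarith

end Pool.Agent.S05156
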