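import Pool.Statements.S05168
import Pool.Agent.Y307.HS.Fin

/-!
The outer body is the open cube. The inner body is the interior of the contact set of the obstacle
problem: minimise the Coulomb energy of densities between 0 and the density of the cube minus a
constant multiple of the mass. The potential of the minimizer is the constant on the contact set and
the minimizer is the density of the rest of the cube. Moving planes in the nine directions of the
reflections of the cube show that the contact set is strictly star-shaped.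
-/

set_option autoImplicit false
open MeasureTheory
open Pool Pool.MP_7dd24e_an

namespace Pool.Agent.S05168

theorem result :
    ¬ (∀ (S S₁ U T₁ : Set (EuclideanSpace ℝ (Fin 3))),
    Nonempty (S ≃ₜ Metric.sphere (0 : EuclideanSpace ℝ (Fin 3)) 1) →
    Nonempty (S₁ ≃ₜ Metric.sphere (0 : EuclideanSpace ℝ (Fin 3)) 1) →
    IsOpen U → IsConnected U → Bornology.IsBounded U → frontier U = S →
    IsOpen T₁ → IsConnected T₁ → Bornology.IsBounded T₁ → frontier T₁ = S₁ →
    closure T₁ ⊆ U →
    (∃ c : ℝ, ∀ P ∈ T₁, ∫ M in U \ closure T₁, (dist P M)⁻¹ = c) →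
    ∃ (f : EuclideanSpace ℝ (Fin 3) ≃ᵃ[ℝ] EuclideanSpace ℝ (Fin 3)) (k : ℝ),
      0 < k ∧ k < 1 ∧
      S = f '' Metric.sphere (0 : EuclideanSpace ℝ (Fin 3)) 1 ∧
      S₁ = f '' Metric.sphere (0 : EuclideanSpace ℝ (Fin 3)) k) := by
  intro h
  obtain ⟨T₁, h1, h2, h3, h4, h5, h6⟩ := Pool.Agent.Y307.HS.exists_cavity
  obtain ⟨f, k, _, _, hf, _⟩ := h (frontier Y307.HS.U) (frontier T₁) Y307.HS.U T₁
    Y307.HS.cube_body.2.2 h4 Y307.HS.U_open Y307.HS.cube_body.2.1
    ((Metric.isBounded_closedBall (x := (0 : EuclideanSpace ℝ (Fin 3))) (r := 2)).subset fun x hx => by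
      rw [mem_closedBall_zero_iff]; exact (Y307.HS.U_norm hx).le) rfl h1 h2 h3 rfl h5 h6
  exact Y307.HS.cube_not_ellipsoid f hf

end Pool.Agent.S05168
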