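import Pool.Statements.S05176
import Pool.Agent.Y273.Frac1

set_option autoImplicit false
open MeasureTheory
open Pool Pool.MP_7e0f1f_an

namespace Pool.Agent.S05176

/-- The negation of the preceding statement: Assume 0<α<n, 1<p, and A, B Young functions with Ā in B_{p'} and B̄ in B_p. Then for all weights u, σ whose two separated-bump cube constants are finite, there is C with ‖I_α(fσ)‖_{L^p(u)} ≤ C‖f‖_{L^p(σ)} for every f ≥ 0. -/
theorem result :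
    ¬ (∀ (n : ℕ), 1 ≤ n → ∀ (α p : ℝ), 0 < α → α < (n : ℝ) → 1 < p →
    ∀ (A B : ℝ → ℝ),
      (ConvexOn ℝ (Set.Ici 0) A ∧ MonotoneOn A (Set.Ici 0) ∧ A 0 = 0 ∧
        (∀ t : ℝ, 0 ≤ t → 0 ≤ A t) ∧
        Filter.Tendsto (fun t : ℝ => A t / t) Filter.atTop Filter.atTop) →
      (ConvexOn ℝ (Set.Ici 0) B ∧ MonotoneOn B (Set.Ici 0) ∧ B 0 = 0 ∧
        (∀ t : ℝ, 0 ≤ t → 0 ≤ B t) ∧
        Filter.Tendsto (fun t : ℝ => B t / t) Filter.atTop Filter.atTop) →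
      (∫⁻ t in Set.Ioi (1 : ℝ),
          ENNReal.ofReal ((⨆ s : Set.Ioi (0 : ℝ), ((s : ℝ) * t - A s)) *
            t ^ (-(p / (p - 1)) - 1)) < ⊤) →
      (∫⁻ t in Set.Ioi (1 : ℝ),
          ENNReal.ofReal ((⨆ s : Set.Ioi (0 : ℝ), ((s : ℝ) * t - B s)) *
            t ^ (-p - 1)) < ⊤) →
      ∀ (u σ : (Fin n → ℝ) → ℝ), (∀ x, 0 ≤ u x) → (∀ x, 0 ≤ σ x) →
        LocallyIntegrable u volume → LocallyIntegrable σ volume →
        (∃ K : ℝ, ∀ Q : Set (Fin n → ℝ),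
          (∃ (a : Fin n → ℝ) (ℓ : ℝ), 0 < ℓ ∧
            Q = Set.univ.pi (fun i => Set.Ico (a i) (a i + ℓ))) →
          (volume Q) ^ (α / (n : ℝ)) *
            ((∫⁻ x in Q, ENNReal.ofReal (u x)) / volume Q) ^ (1 / p) *
            (⨅ (c : ℝ) (_ : 0 < c ∧
                (∫⁻ x in Q, ENNReal.ofReal (B (σ x ^ (1 - 1 / p) / c))) ≤ volume Q),
              ENNReal.ofReal c) ≤ ENNReal.ofReal K) →
        (∃ K : ℝ, ∀ Q : Set (Fin n → ℝ),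
          (∃ (a : Fin n → ℝ) (ℓ : ℝ), 0 < ℓ ∧
            Q = Set.univ.pi (fun i => Set.Ico (a i) (a i + ℓ))) →
          (volume Q) ^ (α / (n : ℝ)) *
            (⨅ (c : ℝ) (_ : 0 < c ∧
                (∫⁻ x in Q, ENNReal.ofReal (A (u x ^ (1 / p) / c))) ≤ volume Q),
              ENNReal.ofReal c) *
            ((∫⁻ x in Q, ENNReal.ofReal (σ x)) / volume Q) ^ (1 - 1 / p)
            ≤ ENNReal.ofReal K) →
        ∃ C : ℝ, ∀ f : (Fin n → ℝ) → ℝ, Measurable f → (∀ x, 0 ≤ f x) →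
          (∫⁻ x, (∫⁻ y, ENNReal.ofReal (f y * σ y *
              (Real.sqrt (∑ i, (x i - y i) ^ 2)) ^ (α - (n : ℝ)))) ^ p *
              ENNReal.ofReal (u x))
            ≤ ENNReal.ofReal C * ∫⁻ x, ENNReal.ofReal (f x ^ p * σ x)) := by
  intro H
  have h2 : ((2:ℝ) / (2 - 1)) = 2 := by norm_num
  have hyoung : ConvexOn ℝ (Set.Ici 0) Pool.Agent.Helper66.Frac.Y ∧
      MonotoneOn Pool.Agent.Helper66.Frac.Y (Set.Ici 0) ∧ Pool.Agent.Helper66.Frac.Y 0 = 0 ∧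
        (∀ t : ℝ, 0 ≤ t → 0 ≤ Pool.Agent.Helper66.Frac.Y t) ∧
        Filter.Tendsto (fun t : ℝ => Pool.Agent.Helper66.Frac.Y t / t) Filter.atTop
          Filter.atTop :=
    ⟨Pool.Agent.Helper66.Frac.Y_convex, Pool.Agent.Helper66.Frac.Y_mono,
      Pool.Agent.Helper66.Frac.Y_zero, fun t _ => Pool.Agent.Helper66.Frac.Y_nonneg t,
      Pool.Agent.Helper66.Frac.Y_tendsto⟩
  have key := H 1 le_rfl (1 / 2) 2 (by norm_num) (by norm_num) (by norm_num)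
    Pool.Agent.Helper66.Frac.Y Pool.Agent.Helper66.Frac.Y hyoung hyoung
    (Pool.Agent.Y273.Frac1.conj_int _ (by norm_num))
    (Pool.Agent.Y273.Frac1.conj_int _ (by norm_num))
    Pool.Agent.Y273.Frac1.w0 Pool.Agent.Y273.Frac1.w0
    Pool.Agent.Y273.Frac1.w0_nonneg Pool.Agent.Y273.Frac1.w0_nonneg
    Pool.Agent.Y273.Frac1.w0_loc Pool.Agent.Y273.Frac1.w0_loc
    ⟨9, ?_⟩ ⟨9, ?_⟩
  · obtain ⟨C, hC⟩ := key
    refine Pool.Agent.Y273.Frac1.strong_fail0 ((1 / 2 : ℝ) - ((1 : ℕ) : ℝ)) (by norm_num)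
      ⟨C, fun f hf hf0 => hC f hf hf0⟩
  · rintro Q ⟨a, l, hl, rfl⟩
    rw [Pool.Agent.Y273.Frac1.pi_eq]
    have h3 := Pool.Agent.Y273.Frac1.prod_le a l hl (1 - 1 / 2) (by norm_num)
    have h4 : ((1 / 2 : ℝ) / ((1 : ℕ) : ℝ)) = 1 / 2 := by norm_num
    rw [h4]
    refine h3.trans ?_
    norm_num
  · rintro Q ⟨a, l, hl, rfl⟩
    rw [Pool.Agent.Y273.Frac1.pi_eq]
    have h3 := Pool.Agent.Y273.Frac1.prod_le a l hl (1 / 2) (by norm_num)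
    have h4 : ((1 / 2 : ℝ) / ((1 : ℕ) : ℝ)) = 1 / 2 := by norm_num
    have h5 : (1 - 1 / 2 : ℝ) = 1 / 2 := by norm_num
    rw [h4, h5, mul_right_comm]
    refine h3.trans ?_
    norm_num

end Pool.Agent.S05176
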