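import Pool.Statements.S05228
import Pool.Agent.H345R3.HomP

set_option autoImplicit false
open Pool Pool.MP_8222c7_an

namespace Pool.Agent.S05228

/-- The negation of the preceding statement: Every non-radical commutative amenable complex Banach algebra A has this property: two continuous homomorphisms from A into a commutative Banach algebra whose difference takes only quasinilpotent (radical) values are equal. -/
theorem result :
    ¬ (∀ (A : Type) [NonUnitalNormedCommRing A] [NormedSpace ℂ A] [IsScalarTower ℂ A A]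
      [SMulCommClass ℂ A A] [CompleteSpace A],
      (∃ a : A, ¬ quasispectrum ℂ a ⊆ {0}) →
      (∀ (E : Type) [NormedAddCommGroup E] [NormedSpace ℂ E] [CompleteSpace E]
        (l r : A →L[ℂ] (E →L[ℂ] E)),
        (∀ a b : A, l (a * b) = (l a).comp (l b)) →
        (∀ a b : A, r (a * b) = (r b).comp (r a)) →
        (∀ a b : A, (l a).comp (r b) = (r b).comp (l a)) →
        ∀ D : A →L[ℂ] (E →L[ℂ] ℂ),
          (∀ (a b : A) (x : E), D (a * b) x = D b (r a x) + D a (l b x)) →
          ∃ f : E →L[ℂ] ℂ, ∀ (a : A) (x : E), D a x = f (r a x) - f (l a x)) →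
      ∀ (B : Type) [NonUnitalNormedCommRing B] [NormedSpace ℂ B] [IsScalarTower ℂ B B]
        [SMulCommClass ℂ B B] [CompleteSpace B]
        (φ ψ : A →ₙₐ[ℂ] B), Continuous φ → Continuous ψ →
        (∀ a : A, quasispectrum ℂ (φ a - ψ a) ⊆ {0}) → φ = ψ) := by
  intro h
  obtain ⟨A, i1, i2, i3, -, -, hA, B, j1, j2, j3, -, φ, ψ, hφ, hψ, -, -, hJ, hne⟩ :=
    Pool.Agent.H345R3.HomP.main
  rw [H611R3.ZL.amenable_iff] at hA
  have hnt : Nontrivial A := by
    by_contra hn
    rw [not_nontrivial_iff_subsingleton] at hn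
    apply hne
    ext a
    rw [Subsingleton.elim a 0, map_zero, map_zero]
  have h1 := h A ⟨1, ?_⟩ ?_ B (φ : A →ₙₐ[ℂ] B) (ψ : A →ₙₐ[ℂ] B) hφ hψ ?_
  · apply hne
    ext a
    exact DFunLike.congr_fun h1 a
  · intro hs
    have h2 : (1 : ℂ) ∈ quasispectrum ℂ (1 : A) := by
      rw [quasispectrum_eq_spectrum_union_zero]
      left
      rw [spectrum.one_eq]
      rfl
    have h3 := hs h2
    simp at h3
  · intro E _ _ _ l r hl hr hlr D hD
    exact hA E inferInstance inferInstance inferInstance l r
      (fun a b x => by rw [hl]; rfl) (fun a b x => by rw [hr]; rfl)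
      (fun a b x => DFunLike.congr_fun (hlr a b) x) D hD
  · intro a
    intro z hz
    rw [quasispectrum_eq_spectrum_union_zero] at hz
    rcases hz with hz | hz
    · by_contra hz0
      have hz0' : z ≠ 0 := hz0
      apply hz
      have h4 := hJ a
      rw [Ideal.mem_jacobson_bot] at h4
      have h5 := h4 (algebraMap ℂ B (-z⁻¹))
      have h6 : algebraMap ℂ B z - ((φ : A →ₙₐ[ℂ] B) a - (ψ : A →ₙₐ[ℂ] B) a) =
          algebraMap ℂ B z * ((φ a - ψ a) * algebraMap ℂ B (-z⁻¹) + 1) := by
        have h7 : algebraMap ℂ B z * algebraMap ℂ B (-z⁻¹) = -1 := by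
          rw [← map_mul]
          have : z * (-z⁻¹) = -1 := by field_simp
          rw [this, map_neg, map_one]
        have h8 : algebraMap ℂ B z * ((φ a - ψ a) * algebraMap ℂ B (-z⁻¹) + 1) =
          (φ a - ψ a) * (algebraMap ℂ B z * algebraMap ℂ B (-z⁻¹)) + algebraMap ℂ B z := by ring
        rw [h8, h7]
        show algebraMap ℂ B z - (φ a - ψ a) = _
        ring
      have h9 : IsUnit (algebraMap ℂ B z - ((φ : A →ₙₐ[ℂ] B) a - (ψ : A →ₙₐ[ℂ] B) a)) := by
        rw [h6]
        exact ((IsUnit.mk0 z hz0').map (algebraMap ℂ B)).mul h5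
      exact h9
    · exact hz

end Pool.Agent.S05228
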