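import Pool.Statements.S05242
import Pool.Agent.Y278.Cham.Spec

set_option autoImplicit false
open Pool Pool.MP_830bfa_an

namespace Pool.Agent.S05242

/-- The negation of the preceding statement: For every n ≥ 2, a C¹ map f from ℝⁿ to ℝⁿ whose Jacobian is everywhere invertible, with every complex eigenvalue of every Jacobian of modulus at least some fixed ε > 0, is injective. -/
theorem result :
    ¬ (∀ n : ℕ, 2 ≤ n → ∀ f : (Fin n → ℝ) → (Fin n → ℝ), ContDiff ℝ 1 f →
      (∀ x : Fin n → ℝ,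
        (LinearMap.toMatrix' ((fderiv ℝ f x : (Fin n → ℝ) →L[ℝ] (Fin n → ℝ)) :
          (Fin n → ℝ) →ₗ[ℝ] (Fin n → ℝ))).det ≠ 0) →
      (∃ ε : ℝ, 0 < ε ∧ ∀ x : Fin n → ℝ, ∀ z : ℂ,
        Polynomial.aeval z
          (LinearMap.toMatrix' ((fderiv ℝ f x : (Fin n → ℝ) →L[ℝ] (Fin n → ℝ)) :
            (Fin n → ℝ) →ₗ[ℝ] (Fin n → ℝ))).charpoly = 0 → ε ≤ ‖z‖) →
      Function.Injective f) := by
  intro H
  have hM : ∀ x : Fin 4 → ℝ,
      LinearMap.toMatrix' ((fderiv ℝ Pool.Agent.Y278.Cham.F x : (Fin 4 → ℝ) →L[ℝ] (Fin 4 → ℝ)) :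
        (Fin 4 → ℝ) →ₗ[ℝ] (Fin 4 → ℝ)) = Pool.Agent.Y278.Cham.Mat x := by
    intro x
    rw [(Pool.Agent.Y278.Cham.hasFDerivAt_F x).fderiv]
    rw [LinearMap.coe_toContinuousLinearMap, LinearMap.toMatrix'_toLin']
  have hroot : ∀ x : Fin 4 → ℝ, ∀ z : ℂ,
      Polynomial.aeval z (Pool.Agent.Y278.Cham.Mat x).charpoly = 0 → (1 / 5 : ℝ) ≤ ‖z‖ :=
    fun x z h => Pool.Agent.Y278.Cham.root_bound x z h
  have hinj := H 4 (by norm_num) Pool.Agent.Y278.Cham.F Pool.Agent.Y278.Cham.contDiff_F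
    (by
      intro x
      rw [hM]
      intro hdet
      have h1 : Polynomial.aeval (0 : ℂ) (Pool.Agent.Y278.Cham.Mat x).charpoly = 0 := by
        rw [Polynomial.aeval_def, Polynomial.eval₂_at_zero]
        have h2 := Matrix.det_eq_sign_charpoly_coeff (Pool.Agent.Y278.Cham.Mat x)
        rw [hdet] at h2
        have h3 : (Pool.Agent.Y278.Cham.Mat x).charpoly.coeff 0 = 0 := by
          rcases mul_eq_zero.mp h2.symm with h4 | h4
          · exact absurd h4 (pow_ne_zero _ (by norm_num))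
          · exact h4
        rw [h3, map_zero]
      have h5 := hroot x 0 h1
      rw [norm_zero] at h5
      norm_num at h5)
    ⟨1 / 5, by norm_num, by
      intro x z h
      rw [hM] at h
      exact hroot x z h⟩
  have heq : Pool.Agent.Y278.Cham.F ![0, 0, 0, 0] =
      Pool.Agent.Y278.Cham.F ![0, 2 * Real.pi, 0, 0] := by
    funext i
    fin_cases i <;> simp [Pool.Agent.Y278.Cham.F, Pool.Agent.Y278.Cham.S]
  have h6 := congrFun (hinj heq) 1
  simp only [Matrix.cons_val_one, Matrix.cons_val_zero] at h6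
  have := Real.pi_pos
  linarith

end Pool.Agent.S05242
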