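import Pool.Statements.S05316
import Pool.Agent.Y265.Gb

set_option autoImplicit false
open Pool Pool.MP_8a8b2f_an

namespace Pool.Agent.S05316

/-- The negation of the preceding statement: Take a strongly continuous contraction semigroup on a complex Hilbert space with generator A, and some m>0 with ‖(μ−A)x‖ ≥ m∣Re μ∣‖x‖ for all x in D(A) and Re μ<0. Then some m₁>0 gives ‖T(t)x‖ ≥ m₁‖x‖ for all t≥0 and all x. -/
theorem result :
    ¬ (∀ (H : Type) [NormedAddCommGroup H] [InnerProductSpace ℂ H] [CompleteSpace H]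
      (T : ℝ → H →L[ℂ] H),
      T 0 = ContinuousLinearMap.id ℂ H →
      (∀ s t : ℝ, 0 ≤ s → 0 ≤ t → T (s + t) = (T s).comp (T t)) →
      (∀ x : H, ContinuousOn (fun t : ℝ => T t x) (Set.Ici 0)) →
      (∀ t : ℝ, 0 ≤ t → ‖T t‖ ≤ 1) →
      ∀ m : ℝ, 0 < m →
      (∀ x y : H,
        Filter.Tendsto (fun h : ℝ => ((h : ℂ)⁻¹) • (T h x - x))
          (nhdsWithin 0 (Set.Ioi 0)) (nhds y) →
        ∀ μ : ℂ, μ.re < 0 → m * |μ.re| * ‖x‖ ≤ ‖μ • x - y‖) →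
      ∃ m₁ : ℝ, 0 < m₁ ∧ ∀ t : ℝ, 0 ≤ t → ∀ x : H, m₁ * ‖x‖ ≤ ‖T t x‖) := by
  intro hall
  obtain ⟨m₁, hm₁, hT⟩ := hall Y265.Gb.H Y265.Gb.T Y265.Gb.T_zero Y265.Gb.T_add Y265.Gb.T_cont
    (fun t _ => Y265.Gb.T_norm t) (1 / 7) (by norm_num)
    (fun x y hlim μ hμ => Y265.Gb.lower x y hlim μ hμ)
  have h1 := (Y265.Gb.T_decay Y265.Gb.x0).norm
  rw [norm_zero] at h1
  have hpos : 0 < m₁ * ‖Y265.Gb.x0‖ := mul_pos hm₁ (norm_pos_iff.mpr Y265.Gb.x0_ne)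
  have h2 := h1.eventually (gt_mem_nhds hpos)
  obtain ⟨t, ht0, ht⟩ := ((Filter.eventually_ge_atTop (0 : ℝ)).and h2).exists
  exact absurd (hT t ht0 Y265.Gb.x0) (not_le.mpr ht)

end Pool.Agent.S05316
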