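import Pool.Statements.S05318
import Pool.Agent.W696.AU.Final

set_option autoImplicit false
open Pool Pool.MP_8abf6a_an

namespace Pool.Agent.S05318

/-- A closed subspace of finite codimension contains the common kernel of finitely many
continuous functionals. -/
lemma exists_finset {E : Type} [NormedAddCommGroup E] [NormedSpace ℝ E] (W : Submodule ℝ E)
    (hW : IsClosed (W : Set E)) (hf : FiniteDimensional ℝ (E ⧸ W)) :
    ∃ F : Finset (E →L[ℝ] ℝ), ∀ y : E, (∀ g ∈ F, g y = 0) → y ∈ W := by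
  classical
  have := hW
  let b := Module.finBasis ℝ (E ⧸ W)
  let φ : Fin (Module.finrank ℝ (E ⧸ W)) → (E →L[ℝ] ℝ) := fun i =>
    (LinearMap.toContinuousLinearMap (b.coord i)).comp (W.mkQL)
  refine ⟨Finset.univ.image φ, fun y hy => ?_⟩
  have h1 : ∀ i, b.coord i (W.mkQ y) = 0 := by
    intro i
    have := hy (φ i) (Finset.mem_image_of_mem _ (Finset.mem_univ i))
    exact this
  have h2 : W.mkQ y = 0 := by
    apply b.ext_elem
    intro i
    simpa using h1 i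
  simpa using h2

/-- The common kernel of finitely many continuous functionals is closed of finite codimension. -/
lemma exists_submodule {E : Type} [NormedAddCommGroup E] [NormedSpace ℝ E]
    (F : Finset (E →L[ℝ] ℝ)) :
    ∃ W : Submodule ℝ E, IsClosed (W : Set E) ∧ FiniteDimensional ℝ (E ⧸ W) ∧
      ∀ y ∈ W, ∀ g ∈ F, g y = 0 := by
  let L : E →L[ℝ] (F → ℝ) := ContinuousLinearMap.pi (fun g => (g : E →L[ℝ] ℝ))
  refine ⟨LinearMap.ker (L : E →ₗ[ℝ] (F → ℝ)), L.isClosed_ker, ?_, ?_⟩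
  · exact LinearEquiv.finiteDimensional
      (LinearMap.quotKerEquivRange (L : E →ₗ[ℝ] (F → ℝ))).symm
  · intro y hy g hg
    have h := congrFun (LinearMap.mem_ker.1 hy) ⟨g, hg⟩
    exact h

/-- The negation of the preceding statement: If a real Banach space X coarse Lipschitz embeds into a reflexive real Banach space admitting an equivalent asymptotically uniformly smooth norm, then X is itself reflexive and admits an equivalent asymptotically uniformly smooth norm. -/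
theorem result :
    ¬ (∀ (X Y : Type) [NormedAddCommGroup X] [NormedSpace ℝ X] [CompleteSpace X]
      [NormedAddCommGroup Y] [NormedSpace ℝ Y] [CompleteSpace Y],
      Function.Surjective (NormedSpace.inclusionInDoubleDual ℝ Y) →
      (∃ N : Y → ℝ, (∀ x y, N (x + y) ≤ N x + N y) ∧ (∀ (a : ℝ) x, N (a • x) = |a| * N x) ∧
        (∃ c C : ℝ, 0 < c ∧ 0 < C ∧ ∀ x, c * ‖x‖ ≤ N x ∧ N x ≤ C * ‖x‖) ∧
        ∀ ε : ℝ, 0 < ε → ∃ δ : ℝ, 0 < δ ∧ ∀ t : ℝ, 0 < t → t < δ → ∀ x : Y, N x = 1 →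
          ∃ F : Finset (Y →L[ℝ] ℝ), ∀ y : Y, (∀ g ∈ F, g y = 0) → N y ≤ t →
            N (x + y) ≤ 1 + ε * t) →
      (∃ (f : X → Y) (A B : ℝ), 0 < A ∧ 0 < B ∧ ∀ x x' : X,
        ‖x - x'‖ / A - B ≤ ‖f x - f x'‖ ∧ ‖f x - f x'‖ ≤ A * ‖x - x'‖ + B) →
      (Function.Surjective (NormedSpace.inclusionInDoubleDual ℝ X) ∧
      (∃ N : X → ℝ, (∀ x y, N (x + y) ≤ N x + N y) ∧ (∀ (a : ℝ) x, N (a • x) = |a| * N x) ∧
        (∃ c C : ℝ, 0 < c ∧ 0 < C ∧ ∀ x, c * ‖x‖ ≤ N x ∧ N x ≤ C * ‖x‖) ∧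
        ∀ ε : ℝ, 0 < ε → ∃ δ : ℝ, 0 < δ ∧ ∀ t : ℝ, 0 < t → t < δ → ∀ x : X, N x = 1 →
          ∃ F : Finset (X →L[ℝ] ℝ), ∀ y : X, (∀ g ∈ F, g y = 0) → N y ≤ t →
            N (x + y) ≤ 1 + ε * t))) := by
  intro H
  obtain ⟨f, A, B, hA, hB, hf⟩ := Pool.Agent.W696.AU.embedding
  obtain ⟨-, N, hadd, hsm, ⟨c, C, hc, -, hcC⟩, haus⟩ :=
    H Pool.Agent.W696.AU.XX Pool.Agent.W696.AU.YY Pool.Agent.W696.AU.yy_reflexive
      ⟨fun y => ‖y‖, fun x y => norm_add_le x y, fun a x => by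
          show ‖a • x‖ = |a| * ‖x‖
          rw [norm_smul, Real.norm_eq_abs],
        ⟨1, 1, one_pos, one_pos, fun x => ⟨by rw [one_mul], by rw [one_mul]⟩⟩, by
          intro ε hε
          obtain ⟨δ, hδ, h⟩ := Pool.Agent.W696.AU.yy_upp.aus ε hε
          refine ⟨δ, hδ, fun t ht htδ x hx => ?_⟩
          obtain ⟨W, hW, hWf, hWt⟩ := h t ht htδ x hx
          obtain ⟨F, hF⟩ := exists_finset W hW hWf
          exact ⟨F, fun y hy => hWt y (hF y hy)⟩⟩
      ⟨f, A, B + 1, hA, by linarith, fun x x' => by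
        obtain ⟨h1, h2⟩ := hf x x'
        constructor
        · linarith
        · linarith⟩
  refine Pool.Agent.W696.AU.not_aus N hadd hsm hc hcC ?_
  intro ε hε
  obtain ⟨δ, hδ, h⟩ := haus ε hε
  refine ⟨δ, hδ, fun t ht htδ x hx => ?_⟩
  obtain ⟨F, hF⟩ := h t ht htδ x hx
  obtain ⟨W, hW, hWf, hWF⟩ := exists_submodule F
  exact ⟨W, hW, hWf, fun y hy => hF y (hWF y hy)⟩

end Pool.Agent.S05318
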