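import Pool.Statements.S05335
import Pool.Agent.Y265.NumInd
-- import your own Pool.Agent.* helpers here

set_option autoImplicit false
open Pool Pool.MP_8c09cc_an

namespace Pool.Agent.S05335

/-- For every k ≥ 1, nontrivial complex Banach space X and nonempty compact Hausdorff K, the k-th polynomial numerical index of C(K,X) equals that of X: a constant c bounds v(P) ≥ c‖P‖ for all k-homogeneous P on X iff it does on C(K,X). -/
theorem result :
  ∀ (k : ℕ), 1 ≤ k →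
  ∀ (X : Type) [NormedAddCommGroup X] [NormedSpace ℂ X] [CompleteSpace X] [Nontrivial X],
  ∀ (K : Type) [TopologicalSpace K] [CompactSpace K] [T2Space K] [Nonempty K],
  ∀ c : ℝ,
    (∀ (A : ContinuousMultilinearMap ℂ (fun _ : Fin k => X) X) (y : X), ‖y‖ ≤ 1 →
      ∀ ε : ℝ, 0 < ε →
        ∃ (x : X) (f : X →L[ℂ] ℂ), ‖x‖ = 1 ∧ ‖f‖ = 1 ∧ f x = 1 ∧
          c * ‖A (fun _ => y)‖ - ε < ‖f (A (fun _ => x))‖) ↔
    (∀ (A : ContinuousMultilinearMap ℂ (fun _ : Fin k => C(K, X)) C(K, X)) (y : C(K, X)),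
      ‖y‖ ≤ 1 → ∀ ε : ℝ, 0 < ε →
        ∃ (x : C(K, X)) (f : C(K, X) →L[ℂ] ℂ), ‖x‖ = 1 ∧ ‖f‖ = 1 ∧ f x = 1 ∧
          c * ‖A (fun _ => y)‖ - ε < ‖f (A (fun _ => x))‖) := by
  intro k _ X _ _ _ _ K _ _ _ _ c
  constructor
  · intro hX A y hy ε hε
    rcases lt_or_ge 0 c with hc | hc
    · exact Pool.Agent.Y265.NumInd.up c hc hX A y hy ε hε
    · obtain ⟨x, f, hx, hf, hfx⟩ := Pool.Agent.Y265.NumInd.exists_pair (E := C(K, X))
      refine ⟨x, f, hx, hf, hfx, lt_of_lt_of_le ?_ (norm_nonneg _)⟩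
      have := mul_nonpos_of_nonpos_of_nonneg hc (norm_nonneg (A (fun _ => y)))
      linarith
  · intro hC A y hy ε hε
    exact Pool.Agent.Y265.NumInd.down c hC A y hy ε hε


end Pool.Agent.S05335
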