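import Pool.Statements.S05488
import Pool.Agent.Y282.QPfin

set_option autoImplicit false
open Pool Pool.MP_97b573_an

namespace Pool.Agent.S05488

/-- The negation of the preceding statement: For every radical weight ω on the nonnegative rationals, every closed ideal of the weighted convolution algebra ℓ¹(ℚ⁺,ω) is {0} or consists of all elements vanishing below some real α ≥ 0 (strictly or non-strictly). -/
theorem result :
    ¬ (∀ ω : ℚ → ℝ,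
    (∀ q : ℚ, 0 ≤ q → 0 < ω q) →
    (∀ s t : ℚ, 0 ≤ s → 0 ≤ t → ω (s + t) ≤ ω s * ω t) →
    (∀ t : ℚ, 0 < t →
      Filter.Tendsto (fun n : ℕ => ω ((n : ℚ) * t) ^ ((1 : ℝ) / (n : ℝ)))
        Filter.atTop (nhds 0)) →
    ∀ I : Set (ℚ → ℂ),
      (∀ f ∈ I, (∀ q : ℚ, q < 0 → f q = 0) ∧ Summable (fun q : ℚ => ‖f q‖ * ω q)) →
      (0 : ℚ → ℂ) ∈ I →
      (∀ f ∈ I, ∀ g ∈ I, f + g ∈ I) →
      (∀ c : ℂ, ∀ f ∈ I, c • f ∈ I) →
      (∀ a : ℚ → ℂ, (∀ q : ℚ, q < 0 → a q = 0) →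
         Summable (fun q : ℚ => ‖a q‖ * ω q) →
         ∀ f ∈ I, (fun t : ℚ => ∑' s : ℚ, a s * f (t - s)) ∈ I) →
      (∀ f : ℚ → ℂ, (∀ q : ℚ, q < 0 → f q = 0) →
         Summable (fun q : ℚ => ‖f q‖ * ω q) →
         (∀ ε : ℝ, 0 < ε → ∃ g ∈ I, ∑' q : ℚ, ‖f q - g q‖ * ω q < ε) → f ∈ I) →
      (I = {(0 : ℚ → ℂ)} ∨ ∃ α : ℝ, 0 ≤ α ∧
        (I = {f : ℚ → ℂ | (∀ q : ℚ, q < 0 → f q = 0) ∧
                Summable (fun q : ℚ => ‖f q‖ * ω q) ∧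
                ∀ q : ℚ, (q : ℝ) < α → f q = 0} ∨
         I = {f : ℚ → ℂ | (∀ q : ℚ, q < 0 → f q = 0) ∧
                Summable (fun q : ℚ => ‖f q‖ * ω q) ∧
                ∀ q : ℚ, (q : ℝ) ≤ α → f q = 0}))) := by
  intro h
  exact Pool.Agent.Y282.QP.fin_contra (h Pool.Agent.Y282.QP.om
    (fun q _ => Pool.Agent.Y282.QP.om_pos q) Pool.Agent.Y282.QP.om_submul
    Pool.Agent.Y282.QP.om_radical Pool.Agent.Y282.QP.II
    (fun f hf => ⟨hf.1.1, hf.1.2⟩) Pool.Agent.Y282.QP.zero_mem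
    (fun f hf g hg => Pool.Agent.Y282.QP.add_mem hf hg)
    (fun c f hf => Pool.Agent.Y282.QP.smul_mem c hf)
    (fun a h1 h2 f hf => Pool.Agent.Y282.QP.conv_mem ⟨h1, h2⟩ hf)
    (fun f h1 h2 h3 => Pool.Agent.Y282.QP.closed_mem ⟨h1, h2⟩ h3))

end Pool.Agent.S05488
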