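import Pool.Statements.S05680
import Pool.Agent.Y257.EnnB

set_option autoImplicit false
open Pool Pool.MP_a50f86_an

namespace Pool.Agent.S05680

open Pool.Agent.Y257.Enn in
/-- The negation of the preceding statement: For every bounded convex smoothly bounded domain in R^n (n≥3), point p and nonzero conformal frame (u,v), there is a conformal harmonic disc with maximal scaling at p, unique on the disc, and it is an injective immersion proper into the domain. -/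
theorem result :
    ¬ (∀ n : ℕ, 3 ≤ n → ∀ Ω : Set (EuclideanSpace ℝ (Fin n)),
    IsOpen Ω → Bornology.IsBounded Ω → Convex ℝ Ω →
    (∃ U : Set (EuclideanSpace ℝ (Fin n)), ∃ ρ : EuclideanSpace ℝ (Fin n) → ℝ,
        IsOpen U ∧ closure Ω ⊆ U ∧ ContDiffOn ℝ ((⊤ : ℕ∞) : WithTop ℕ∞) ρ U ∧
        Ω = {x | x ∈ U ∧ ρ x < 0} ∧ ∀ x ∈ frontier Ω, fderiv ℝ ρ x ≠ 0) →
    ∀ p ∈ Ω, ∀ u v : EuclideanSpace ℝ (Fin n),
      ‖u‖ = ‖v‖ → inner ℝ u v = 0 → u ≠ 0 →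
      ∃ f : ℂ → EuclideanSpace ℝ (Fin n),
        (∃ r : ℝ, 0 < r ∧
          (ContDiffOn ℝ 2 f (Metric.ball (0 : ℂ) 1) ∧
            (∀ z ∈ Metric.ball (0 : ℂ) 1, f z ∈ Ω) ∧
            (∀ z ∈ Metric.ball (0 : ℂ) 1,
              ‖fderiv ℝ f z (1 : ℂ)‖ = ‖fderiv ℝ f z Complex.I‖ ∧
              inner ℝ (fderiv ℝ f z (1 : ℂ)) (fderiv ℝ f z Complex.I) = 0) ∧
            (∀ z ∈ Metric.ball (0 : ℂ) 1,
              fderiv ℝ (fun w => fderiv ℝ f w (1 : ℂ)) z (1 : ℂ) +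
                fderiv ℝ (fun w => fderiv ℝ f w Complex.I) z Complex.I = 0)) ∧
          f 0 = p ∧ fderiv ℝ f 0 (1 : ℂ) = r • u ∧ fderiv ℝ f 0 Complex.I = r • v ∧
          ∀ g : ℂ → EuclideanSpace ℝ (Fin n), ∀ s : ℝ, 0 < s →
            (ContDiffOn ℝ 2 g (Metric.ball (0 : ℂ) 1) ∧
              (∀ z ∈ Metric.ball (0 : ℂ) 1, g z ∈ Ω) ∧
              (∀ z ∈ Metric.ball (0 : ℂ) 1,
                ‖fderiv ℝ g z (1 : ℂ)‖ = ‖fderiv ℝ g z Complex.I‖ ∧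
                inner ℝ (fderiv ℝ g z (1 : ℂ)) (fderiv ℝ g z Complex.I) = 0) ∧
              (∀ z ∈ Metric.ball (0 : ℂ) 1,
                fderiv ℝ (fun w => fderiv ℝ g w (1 : ℂ)) z (1 : ℂ) +
                  fderiv ℝ (fun w => fderiv ℝ g w Complex.I) z Complex.I = 0)) →
            g 0 = p → fderiv ℝ g 0 (1 : ℂ) = s • u → fderiv ℝ g 0 Complex.I = s • v →
            s ≤ r) ∧
        (∀ h : ℂ → EuclideanSpace ℝ (Fin n),
          (∃ r : ℝ, 0 < r ∧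
            (ContDiffOn ℝ 2 h (Metric.ball (0 : ℂ) 1) ∧
              (∀ z ∈ Metric.ball (0 : ℂ) 1, h z ∈ Ω) ∧
              (∀ z ∈ Metric.ball (0 : ℂ) 1,
                ‖fderiv ℝ h z (1 : ℂ)‖ = ‖fderiv ℝ h z Complex.I‖ ∧
                inner ℝ (fderiv ℝ h z (1 : ℂ)) (fderiv ℝ h z Complex.I) = 0) ∧
              (∀ z ∈ Metric.ball (0 : ℂ) 1,
                fderiv ℝ (fun w => fderiv ℝ h w (1 : ℂ)) z (1 : ℂ) +
                  fderiv ℝ (fun w => fderiv ℝ h w Complex.I) z Complex.I = 0)) ∧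
            h 0 = p ∧ fderiv ℝ h 0 (1 : ℂ) = r • u ∧ fderiv ℝ h 0 Complex.I = r • v ∧
            ∀ g : ℂ → EuclideanSpace ℝ (Fin n), ∀ s : ℝ, 0 < s →
              (ContDiffOn ℝ 2 g (Metric.ball (0 : ℂ) 1) ∧
                (∀ z ∈ Metric.ball (0 : ℂ) 1, g z ∈ Ω) ∧
                (∀ z ∈ Metric.ball (0 : ℂ) 1,
                  ‖fderiv ℝ g z (1 : ℂ)‖ = ‖fderiv ℝ g z Complex.I‖ ∧
                  inner ℝ (fderiv ℝ g z (1 : ℂ)) (fderiv ℝ g z Complex.I) = 0) ∧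
                (∀ z ∈ Metric.ball (0 : ℂ) 1,
                  fderiv ℝ (fun w => fderiv ℝ g w (1 : ℂ)) z (1 : ℂ) +
                    fderiv ℝ (fun w => fderiv ℝ g w Complex.I) z Complex.I = 0)) →
              g 0 = p → fderiv ℝ g 0 (1 : ℂ) = s • u → fderiv ℝ g 0 Complex.I = s • v →
              s ≤ r) →
          Set.EqOn h f (Metric.ball (0 : ℂ) 1)) ∧
        Set.InjOn f (Metric.ball (0 : ℂ) 1) ∧
        (∀ z ∈ Metric.ball (0 : ℂ) 1, fderiv ℝ f z (1 : ℂ) ≠ 0) ∧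
        (∀ K : Set (EuclideanSpace ℝ (Fin n)), IsCompact K → K ⊆ Ω →
          IsCompact (Metric.ball (0 : ℂ) 1 ∩ f ⁻¹' K))) := by
  intro H
  have hsm : ∃ U : Set (EuclideanSpace ℝ (Fin 3)), ∃ ρ : EuclideanSpace ℝ (Fin 3) → ℝ,
        IsOpen U ∧ closure Om ⊆ U ∧ ContDiffOn ℝ ((⊤ : ℕ∞) : WithTop ℕ∞) ρ U ∧
        Om = {x | x ∈ U ∧ ρ x < 0} ∧ ∀ x ∈ frontier Om, fderiv ℝ ρ x ≠ 0 := by
    refine ⟨Set.univ, rho, isOpen_univ, Set.subset_univ _, contDiff_rho.contDiffOn, ?_, ?_⟩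
    · ext x
      simp [mem_Om]
    · intro x hx h0
      have h1 := fderiv_rho_self x
      rw [h0, frontier_Om hx] at h1
      simp at h1
  have h0 : (0 : E3) ∈ Om := by
    rw [mem_Om]
    simp [rho]
  have hn : ‖e0‖ = ‖e1‖ := by simp [e0, e1]
  have hi : inner ℝ e0 e1 = 0 := by
    rw [PiLp.inner_apply]
    simp [e0, e1, Fin.sum_univ_three]
  have hne : e0 ≠ 0 := by simp [e0]
  obtain ⟨f, ⟨r, hr, hCH, hf0, hf1, hfI, hmax⟩, huniq, -, -, -⟩ :=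
    H 3 le_rfl Om isOpen_Om isBounded_Om convex_Om hsm 0 h0 e0 e1 hn hi hne
  have h1 : (13 / 12 : ℝ) ≤ r := hmax enn (13 / 12) (by norm_num) CH_enn enn_zero enn_d1 enn_dI
  have h2 : Set.EqOn (fun z => sg (f z)) f (Metric.ball (0 : ℂ) 1) := by
    apply huniq
    refine ⟨r, hr, CH_sg hCH, ?_, ?_, ?_, hmax⟩
    · simp [hf0]
    · rw [fderiv_sg, hf1, map_smul, sg_e0]
    · rw [fderiv_sg, hfI, map_smul, sg_e1]
  have h3 : ∀ z ∈ Metric.ball (0 : ℂ) 1, f z 2 = 0 := by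
    intro z hz
    have h4 := congrArg (fun x : E3 => x 2) (h2 hz)
    simp only [sg_apply] at h4
    simp at h4
    linarith
  have h5 := planar hCH h3 hf0 hf1 hfI hr
  linarith

end Pool.Agent.S05680
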