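import Pool.Statements.S05731
import Pool.Agent.Y262.Main

set_option autoImplicit false
open MeasureTheory
open Pool Pool.MP_a7cd91_an

namespace Pool.Agent.S05731

/-- On every bounded pseudoconvex domain in C^n with Lipschitz boundary, each weakly dbar-closed (0,1)-form with W^{1,2} coefficients equals dbar u weakly for some u in W^{1,2}, i.e. the W^1 dbar-cohomology in degree (0,1) vanishes. -/
theorem result :
  ∀ (n : ℕ) (Ω : Set (Fin n → ℂ)),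
    IsOpen Ω → IsConnected Ω → Bornology.IsBounded Ω →
    (∃ φ : (Fin n → ℂ) → ℝ, ContinuousOn φ Ω ∧
      (∀ c : ℝ, IsCompact {z | z ∈ Ω ∧ φ z ≤ c}) ∧
      (∀ z ∈ Ω, ∀ w : Fin n → ℂ, (∀ ζ : ℂ, ‖ζ‖ ≤ 1 → z + ζ • w ∈ Ω) →
        φ z ≤ (2 * Real.pi)⁻¹ *
          ∫ θ in Set.Ioc (0 : ℝ) (2 * Real.pi), φ (z + Complex.exp ((θ : ℂ) * Complex.I) • w))) →
    (∀ p ∈ frontier Ω, ∃ U ∈ nhds p, ∃ L : (Fin n → ℂ) →L[ℝ] ℝ, ∃ v : Fin n → ℂ, L v = 1 ∧
      ∃ g : (Fin n → ℂ) → ℝ, ∃ K : NNReal, LipschitzWith K g ∧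
        (∀ (x : Fin n → ℂ) (t : ℝ), g (x + t • v) = g x) ∧
        Ω ∩ U = {x | x ∈ U ∧ L x < g x}) →
    ∀ f : Fin n → (Fin n → ℂ) → ℂ,
      (∀ j : Fin n, MemLp (f j) 2 (volume.restrict Ω) ∧
        ∀ e : Fin n → ℂ, ∃ h : (Fin n → ℂ) → ℂ, MemLp h 2 (volume.restrict Ω) ∧
          ∀ ψ : (Fin n → ℂ) → ℂ, ContDiff ℝ ((⊤ : ℕ∞) : WithTop ℕ∞) ψ → HasCompactSupport ψ →
            tsupport ψ ⊆ Ω →
            ∫ x in Ω, f j x * fderiv ℝ ψ x e = - ∫ x in Ω, h x * ψ x) →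
      (∀ j k : Fin n, ∀ ψ : (Fin n → ℂ) → ℂ, ContDiff ℝ ((⊤ : ℕ∞) : WithTop ℕ∞) ψ →
          HasCompactSupport ψ → tsupport ψ ⊆ Ω →
          ∫ x in Ω, f j x * (fderiv ℝ ψ x (Pi.single k (1 : ℂ) : Fin n → ℂ)
              + Complex.I * fderiv ℝ ψ x (Pi.single k Complex.I : Fin n → ℂ))
            = ∫ x in Ω, f k x * (fderiv ℝ ψ x (Pi.single j (1 : ℂ) : Fin n → ℂ)
              + Complex.I * fderiv ℝ ψ x (Pi.single j Complex.I : Fin n → ℂ))) →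
      ∃ u : (Fin n → ℂ) → ℂ,
        (MemLp u 2 (volume.restrict Ω) ∧
          ∀ e : Fin n → ℂ, ∃ h : (Fin n → ℂ) → ℂ, MemLp h 2 (volume.restrict Ω) ∧
            ∀ ψ : (Fin n → ℂ) → ℂ, ContDiff ℝ ((⊤ : ℕ∞) : WithTop ℕ∞) ψ → HasCompactSupport ψ →
              tsupport ψ ⊆ Ω →
              ∫ x in Ω, u x * fderiv ℝ ψ x e = - ∫ x in Ω, h x * ψ x) ∧
        ∀ j : Fin n, ∀ ψ : (Fin n → ℂ) → ℂ, ContDiff ℝ ((⊤ : ℕ∞) : WithTop ℕ∞) ψ →
          HasCompactSupport ψ → tsupport ψ ⊆ Ω →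
          ∫ x in Ω, u x * ((fderiv ℝ ψ x (Pi.single j (1 : ℂ) : Fin n → ℂ)
              + Complex.I * fderiv ℝ ψ x (Pi.single j Complex.I : Fin n → ℂ)) / 2)
            = - ∫ x in Ω, f j x * ψ x := by
  intro n Ω ho _ hb hφ hL f hf hcl
  rcases Nat.eq_zero_or_pos n with hn | hn
  · subst hn
    refine ⟨fun _ => 0, ⟨by simp, fun e => ⟨fun _ => 0, by simp, fun ψ _ _ _ => by simp⟩⟩,
      fun j => j.elim0⟩
  · have hnt : Nontrivial (Fin n → ℂ) := by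
      haveI : Nonempty (Fin n) := ⟨⟨0, hn⟩⟩
      infer_instance
    have hne : (Ωᶜ).Nonempty := by
      rw [Set.nonempty_compl]
      intro h
      rw [h] at hb
      exact NormedSpace.unbounded_univ ℝ (Fin n → ℂ) hb
    have hP : BK.PscC Ω := by
      obtain ⟨φ, h1, h2, h3⟩ := hφ
      refine ⟨φ, h1, h2, fun a b hab => ?_⟩
      have ha : a ∈ Ω := by
        have := hab 0 (by simp)
        simpa using this
      have h4 := h3 a ha b hab
      rw [intervalIntegral.integral_of_le (by positivity)]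
      exact h4
    have key := Y262.main Ω ho hb hne hP hL f
      (fun j => ⟨(hf j).1, fun e => by
        obtain ⟨h, h1, h2⟩ := (hf j).2 e
        exact ⟨h, h1, fun ψ hψ => h2 ψ hψ.smooth hψ.compact hψ.supp⟩⟩)
      (fun j k ψ hψ => by
        have h := hcl j k ψ hψ.smooth hψ.compact hψ.supp
        have e1 : ∀ j k : Fin n, ∫ x in Ω, f j x * BK.dbar k ψ x = (1 / 2) *
            ∫ x in Ω, f j x * (fderiv ℝ ψ x (Pi.single k (1 : ℂ) : Fin n → ℂ)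
              + Complex.I * fderiv ℝ ψ x (Pi.single k Complex.I : Fin n → ℂ)) := by
          intro j k
          rw [← integral_const_mul]
          congr 1
          funext x
          unfold BK.dbar
          ring
        rw [e1, e1, h])
    obtain ⟨u, ⟨hu, hu1⟩, hu2⟩ := key
    refine ⟨u, ⟨hu, fun e => ?_⟩, fun j ψ h1 h2 h3 => ?_⟩
    · obtain ⟨h, hh, hh2⟩ := hu1 e
      exact ⟨h, hh, fun ψ h1 h2 h3 => hh2 ψ ⟨h1, h2, h3⟩⟩
    · rw [← hu2 j ψ ⟨h1, h2, h3⟩]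
      congr 1
      funext x
      unfold BK.dbar
      ring

end Pool.Agent.S05731
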