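import Pool.Statements.S05816
import Pool.Agent.Y265.Raj3

set_option autoImplicit false
open Filter Topology
open Pool Pool.MP_ae9c87_an

namespace Pool.Agent.S05816

/-- The negation of the preceding statement: For every contractive strongly continuous semigroup T on a complex Hilbert space with cogenerator V = I − 2∫₀^∞ e^{−t}T(t)dt, T(t)x → 0 weakly for all x iff Vⁿx → 0 weakly for all x. -/
theorem result :
    ¬ (∀ (H : Type) [NormedAddCommGroup H] [InnerProductSpace ℂ H] [CompleteSpace H]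
      (T : ℝ → H →L[ℂ] H),
      T 0 = 1 →
      (∀ s t : ℝ, 0 ≤ s → 0 ≤ t → T (s + t) = T s * T t) →
      (∀ x : H, ContinuousOn (fun t : ℝ => T t x) (Set.Ici 0)) →
      (∀ t : ℝ, 0 ≤ t → ‖T t‖ ≤ 1) →
      ((∀ x y : H, Tendsto (fun t : ℝ => inner ℂ (T t x) y) atTop (𝓝 0)) ↔
        (∀ x y : H, Tendsto (fun n : ℕ =>
            inner ℂ ((fun z : H => z - (2 : ℂ) •
              ∫ t in Set.Ioi (0 : ℝ), ((Real.exp (-t) : ℝ) : ℂ) • T t z)^[n] x) y)
            atTop (𝓝 0)))) := by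
  intro hall
  obtain ⟨μ, hfin, hdecay, hlow⟩ := Y265.Raj.exists_measure
  have h := hall (Y265.Raj.H μ) (Y265.Raj.TH μ) (Y265.Raj.TH_zero μ)
    (fun s t _ _ => Y265.Raj.TH_add μ s t) (fun x => (Y265.Raj.TH_cont μ x).continuousOn)
    (fun t _ => Y265.Raj.TH_norm μ t)
  have h1 := h.mp (fun x y => Y265.Raj.weak μ hdecay x y x.2 y.2)
  have h2 := (h1 (Y265.Raj.oneH μ) (Y265.Raj.oneH μ)).norm
  rw [norm_zero] at h2
  have h3 := h2.eventually (gt_mem_nhds (show (0 : ℝ) < 1 / 4 by norm_num))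
  rw [eventually_atTop] at h3
  obtain ⟨N, hN⟩ := h3
  have h4 := hN (Y265.Raj.nn N) (Y265.Raj.le_nn N)
  have h5 := Y265.Raj.VH_inner μ (Y265.Raj.nn N)
  have h6 := hlow N
  rw [← h5] at h6
  exact absurd h4 (not_lt.mpr h6)

end Pool.Agent.S05816
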