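import Pool.Statements.S06025
import Pool.Agent.H780R2.CX.E1

set_option autoImplicit false
open MeasureTheory ENNReal
open Pool Pool.MP_c1e612_an

namespace Pool.Agent.S06025

open Pool.Agent.H780R2.CX Pool.Agent.H780R2.CX.TE1 in
/-- value of the deterministic errors in the example -/
theorem det_eq (n : ℕ) :
    (⨅ (L : Fin n → (BX →L[ℝ] ℝ)) (φ : (Fin n → ℝ) → BX),
      ⨆ f ∈ FF, ‖(ContinuousLinearMap.id ℝ BX) f - φ (fun i => L i f)‖ₑ) =
    ENNReal.ofReal ((1 / 2) ^ n) := by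
  refine le_antisymm ?_ ?_
  · refine iInf₂_le_of_le (fun i => coord i) (emb n) (iSup₂_le fun f hf => ?_)
    rw [← ofReal_norm]
    exact ENNReal.ofReal_le_ofReal (err_le n f hf)
  · refine le_iInf₂ fun L φ => ?_
    obtain ⟨x, hxF, hxn, hL⟩ := exists_ker n L
    have hxF' : -x ∈ FF := fun k => by
      have h1 : (-x) k = -x k := rfl
      rw [h1, abs_neg]; exact hxF k
    set y0 : BX := φ (fun _ => 0) with hy0
    have e1 : (fun i => L i x) = fun _ => (0 : ℝ) := funext hL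
    have e2 : (fun i => L i (-x)) = fun _ => (0 : ℝ) := funext fun i => by
      rw [map_neg, hL, neg_zero]
    have htri : 2 * (1 / 2 : ℝ) ^ n ≤ ‖x - y0‖ + ‖-x - y0‖ := by
      have h1 : (2 : ℝ) • x = (x - y0) - (-x - y0) := by
        rw [two_smul]; abel
      have h2 : ‖(2 : ℝ) • x‖ = 2 * (1 / 2 : ℝ) ^ n := by
        rw [norm_smul, hxn]; norm_num
      rw [← h2, h1]
      exact norm_sub_le _ _
    have hor : (1 / 2 : ℝ) ^ n ≤ ‖x - y0‖ ∨ (1 / 2 : ℝ) ^ n ≤ ‖-x - y0‖ := by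
      by_contra hcon
      push Not at hcon
      linarith [hcon.1, hcon.2]
    rcases hor with h | h
    · refine le_trans ?_ (le_iSup₂ x hxF)
      rw [← ofReal_norm, e1]
      exact ENNReal.ofReal_le_ofReal h
    · refine le_trans ?_ (le_iSup₂ (-x) hxF')
      rw [← ofReal_norm, e2]
      exact ENNReal.ofReal_le_ofReal h

open Pool.Agent.H780R2.CX Pool.Agent.H780R2.CX.TE1 in
theorem convex_FF : Convex ℝ FF := by
  intro f hf g hg s t hs ht hst k
  have h1 : (s • f + t • g) k = s * f k + t * g k := rfl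
  rw [h1]
  calc |s * f k + t * g k| ≤ |s * f k| + |t * g k| := abs_add_le _ _
    _ = s * |f k| + t * |g k| := by rw [abs_mul, abs_mul, abs_of_nonneg hs, abs_of_nonneg ht]
    _ ≤ s * (1 / 2) ^ k + t * (1 / 2) ^ k :=
        add_le_add (mul_le_mul_of_nonneg_left (hf k) hs) (mul_le_mul_of_nonneg_left (hg k) ht)
    _ = (1 / 2) ^ k := by rw [← add_mul, hst, one_mul]

open Pool.Agent.H780R2.CX Pool.Agent.H780R2.CX.TE1 in
/-- There exist real Banach spaces X, Y, a bounded operator S, a nonempty convex F with every deterministic non-adaptive n-error positive and finite, and C>0 such that the randomized non-adaptive 2n-error is at most C/n times the deterministic n-error for all n≥1. -/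
theorem result :
    ∃ (X : Type) (hX : NormedAddCommGroup X) (hXs : NormedSpace ℝ X) (hXc : CompleteSpace X)
      (Y : Type) (hY : NormedAddCommGroup Y) (hYs : NormedSpace ℝ Y) (hYc : CompleteSpace Y)
      (S : X →L[ℝ] Y) (F : Set X) (C : ℝ),
      F.Nonempty ∧ Convex ℝ F ∧ 0 < C ∧
      (∀ n : ℕ, 0 < n →
        0 < (⨅ (L : Fin n → (X →L[ℝ] ℝ)) (φ : (Fin n → ℝ) → Y),
              ⨆ f ∈ F, ‖S f - φ (fun i => L i f)‖ₑ) ∧
        (⨅ (L : Fin n → (X →L[ℝ] ℝ)) (φ : (Fin n → ℝ) → Y),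
              ⨆ f ∈ F, ‖S f - φ (fun i => L i f)‖ₑ) < ⊤) ∧
      (∀ n : ℕ, 0 < n →
        (⨅ (Ω : Type) (mΩ : MeasurableSpace Ω) (P : Measure Ω)
            (_ : IsProbabilityMeasure P)
            (L : Ω → Fin (2 * n) → (X →L[ℝ] ℝ)) (φ : Ω → (Fin (2 * n) → ℝ) → Y)
            (_ : ∀ f ∈ F, Measurable (fun ω => ‖S f - φ ω (fun i => L ω i f)‖)),
            ⨆ f ∈ F, ∫⁻ ω, ‖S f - φ ω (fun i => L ω i f)‖ₑ ∂P)
          ≤ ENNReal.ofReal (C / (n : ℝ)) *
            (⨅ (L : Fin n → (X →L[ℝ] ℝ)) (φ : (Fin n → ℝ) → Y),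
              ⨆ f ∈ F, ‖S f - φ (fun i => L i f)‖ₑ)) := by
  refine ⟨BX, inferInstance, inferInstance, inferInstance, BX, inferInstance, inferInstance,
    inferInstance, ContinuousLinearMap.id ℝ BX, FF, 1, ⟨0, fun k => by simp⟩, convex_FF,
    one_pos, fun n _ => ?_, fun n hn => ?_⟩
  · rw [det_eq n]
    exact ⟨ENNReal.ofReal_pos.2 (by positivity), ENNReal.ofReal_lt_top⟩
  · rw [det_eq n]
    have hn0 : (0 : ℝ) < n := by exact_mod_cast hn
    refine iInf_le_of_le Unit (iInf_le_of_le ⊤ (iInf_le_of_le (Measure.dirac ())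
      (iInf_le_of_le inferInstance (iInf_le_of_le (fun _ i => coord i)
      (iInf_le_of_le (fun _ => emb (2 * n)) (iInf_le_of_le (fun f _ => measurable_const) ?_))))))
    refine iSup₂_le fun f hf => ?_
    rw [lintegral_const, measure_univ, mul_one]
    have h1 : ‖(ContinuousLinearMap.id ℝ BX) f - emb (2 * n) (fun i => (coord (i : ℕ)) f)‖ₑ ≤
        ENNReal.ofReal ((1 / 2) ^ (2 * n)) := by
      rw [← ofReal_norm]
      exact ENNReal.ofReal_le_ofReal (err_le (2 * n) f hf)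
    refine h1.trans ?_
    rw [← ENNReal.ofReal_mul (by positivity)]
    apply ENNReal.ofReal_le_ofReal
    have h2 : ((1 : ℝ) / 2) ^ n ≤ 1 / n := by
      rw [one_div_pow]
      apply one_div_le_one_div_of_le hn0
      exact_mod_cast Nat.lt_two_pow_self.le
    calc ((1 : ℝ) / 2) ^ (2 * n) = (1 / 2) ^ n * (1 / 2) ^ n := by rw [two_mul, pow_add]
      _ ≤ 1 / n * (1 / 2) ^ n := by gcongr

end Pool.Agent.S06025
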