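import Pool.Statements.S06280

/-!
# The orders of the iterates of a germ need not satisfy a linear recursion

The germ is the monomial map `f(x, y, z) = (x^13 z, x^9 y^6, x y^25 z^2)` of `ℂ³`. Its matrix of
exponents `A` has characteristic polynomial `(X - 15)(X² - 6 X + 25)`, with Perron vector
`(1, 1, 2)`. With `u(k) = A^k (1, 1, 1)` one has `c(f^k) = min (u₁(k), u₂(k))` and
`u₁(k) - u₂(k) = - Im ((3 + 4 i)^k) / 4`. Modulo `5` this difference is `-1` for `k ≥ 1`. A linear
recursion for `c(f^k)` would make its reduction modulo `5`, hence the sign of `u₁(k) - u₂(k)`,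
eventually periodic, which is impossible since no power of `3 + 4 i` is real.
-/

set_option autoImplicit false
open Pool Pool.MP_d4c9a2_an

namespace Pool.Agent.S06280

/-- The exponents: `V k = A^k (1, 1, 1)`. -/
def V : ℕ → Fin 3 → ℕ
  | 0 => fun _ => 1
  | k + 1 => ![13 * V k 0 + V k 2, 9 * V k 0 + 6 * V k 1, V k 0 + 25 * V k 1 + 2 * V k 2]

/-- The germ. -/
def f (z : Fin 3 → ℂ) : Fin 3 → ℂ := ![z 0 ^ 13 * z 2, z 0 ^ 9 * z 1 ^ 6, z 0 * z 1 ^ 25 * z 2 ^ 2]

lemma f_contDiff : ContDiff ℂ ⊤ f := by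
  rw [contDiff_pi]
  intro i
  fin_cases i <;> simp [f] <;> fun_prop

lemma iter_contDiff (k : ℕ) : ContDiff ℂ ⊤ (f^[k]) := by
  induction k with
  | zero => exact contDiff_id
  | succ k ih =>
    rw [Function.iterate_succ']
    exact f_contDiff.comp ih

lemma iter_homog (k : ℕ) (c : ℂ) (z : Fin 3 → ℂ) (i : Fin 3) :
    f^[k] (c • z) i = c ^ V k i * f^[k] z i := by
  induction k generalizing i with
  | zero => simp [V]
  | succ k ih =>
    rw [Function.iterate_succ_apply', Function.iterate_succ_apply']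
    fin_cases i
    · simp only [f, V, Fin.zero_eta, Fin.isValue, Matrix.cons_val_zero, ih]; ring
    · simp only [f, V, Fin.mk_one, Fin.isValue, Matrix.cons_val_one, Matrix.cons_val_zero, ih]; ring
    · simp only [f, V, Fin.reduceFinMk, Fin.isValue, Matrix.cons_val, ih]; ring

lemma iter_one (k : ℕ) : f^[k] (fun _ => 1) = fun _ => 1 := by
  induction k with
  | zero => rfl
  | succ k ih =>
    rw [Function.iterate_succ_apply', ih]
    funext i
    fin_cases i <;> simp [f]

/-- The derivatives at the origin of a homogeneous function. -/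
lemma homog_deriv {G : (Fin 3 → ℂ) → ℂ} (hG : ContDiff ℂ ⊤ G) {r : ℕ}
    (h : ∀ (c : ℂ) z, G (c • z) = c ^ r * G z) {m : ℕ} (hm : m ≠ r) :
    iteratedFDeriv ℂ m G 0 = 0 := by
  set L : (Fin 3 → ℂ) →L[ℂ] (Fin 3 → ℂ) := (2 : ℂ) • ContinuousLinearMap.id ℂ (Fin 3 → ℂ) with hL
  have h1 : G ∘ L = fun z => (2 : ℂ) ^ r • G z := by
    funext z
    simp [hL, h]
  have h2 : iteratedFDeriv ℂ m (G ∘ L) 0 =
      (iteratedFDeriv ℂ m G (L 0)).compContinuousLinearMap fun _ => L :=
    L.iteratedFDeriv_comp_right (hG.of_le le_top) 0 (i := m) (by exact_mod_cast le_top)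
  have h3 : iteratedFDeriv ℂ m (fun z => (2 : ℂ) ^ r • G z) 0 =
      (2 : ℂ) ^ r • iteratedFDeriv ℂ m G 0 := by
    exact iteratedFDeriv_const_smul_apply (a := (2 : ℂ) ^ r) (f := G)
      (hG.of_le le_top).contDiffAt
  rw [h1, h3, map_zero] at h2
  ext v
  have h4 := congrArg (fun T => T v) h2
  simp only [smul_apply,
    ContinuousMultilinearMap.compContinuousLinearMap_apply, smul_eq_mul] at h4
  have h5 : (fun i => L (v i)) = fun i => (2 : ℂ) • v i := by
    funext i; simp [hL]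
  rw [h5, ContinuousMultilinearMap.map_smul_univ] at h4
  simp only [Finset.prod_const, Finset.card_univ, Fintype.card_fin, smul_eq_mul] at h4
  have h6 : ((2 : ℂ) ^ r - 2 ^ m) * iteratedFDeriv ℂ m G 0 v = 0 := by
    linear_combination h4
  rcases mul_eq_zero.1 h6 with h7 | h7
  · exfalso
    apply hm
    have h8 : ((2 ^ r : ℕ) : ℂ) = ((2 ^ m : ℕ) : ℂ) := by
      push_cast; linear_combination h7
    have h9 : (2 : ℕ) ^ r = 2 ^ m := by exact_mod_cast h8
    exact (Nat.pow_right_injective (le_refl 2) h9).symm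
  · simpa using h7

lemma homog_deriv_ne {G : (Fin 3 → ℂ) → ℂ} (hG : ContDiff ℂ ⊤ G) {r : ℕ}
    (h : ∀ (c : ℂ) z, G (c • z) = c ^ r * G z) (h1 : G (fun _ => 1) = 1) :
    iteratedFDeriv ℂ r G 0 ≠ 0 := by
  intro h0
  set L : ℂ →L[ℂ] (Fin 3 → ℂ) := ContinuousLinearMap.toSpanSingleton ℂ (fun _ => 1) with hL
  have h2 : G ∘ L = fun t : ℂ => t ^ r := by
    funext t
    simp only [Function.comp_apply, hL, ContinuousLinearMap.toSpanSingleton_apply, h, h1, mul_one]
  have h3 : iteratedFDeriv ℂ r (G ∘ L) 0 =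
      (iteratedFDeriv ℂ r G (L 0)).compContinuousLinearMap fun _ => L :=
    L.iteratedFDeriv_comp_right (hG.of_le le_top) 0 (i := r) (by exact_mod_cast le_top)
  rw [h2, map_zero, h0] at h3
  have h4 : iteratedDeriv r (fun t : ℂ => t ^ r) 0 = 0 := by
    rw [iteratedDeriv_eq_iteratedFDeriv, h3]
    simp
  simp only [iteratedDeriv_eq_iterate, iter_deriv_pow'] at h4
  simp only [tsub_self, pow_zero, mul_one] at h4
  rw [Finset.prod_eq_zero_iff] at h4
  obtain ⟨i, hi, h5⟩ := h4
  have h6 : (r : ℂ) = (i : ℂ) := by linear_combination h5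
  have h7 : r = i := by exact_mod_cast h6
  rw [Finset.mem_range] at hi
  omega

lemma order_eq (k : ℕ) :
    sInf {m : ℕ | iteratedFDeriv ℂ m (f^[k]) 0 ≠ 0} = min (V k 0) (min (V k 1) (V k 2)) := by
  have hc := iter_contDiff k
  have hci : ∀ i, ContDiff ℂ ⊤ (fun z => f^[k] z i) := fun i => by
    rw [contDiff_pi] at hc
    exact hc i
  have hproj : ∀ (m : ℕ) (i : Fin 3), iteratedFDeriv ℂ m (fun z => f^[k] z i) 0 =
      (ContinuousLinearMap.proj (R := ℂ) (φ := fun _ : Fin 3 => ℂ) i).compContinuousMultilinearMap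
        (iteratedFDeriv ℂ m (f^[k]) 0) := by
    intro m i
    exact ContinuousLinearMap.iteratedFDeriv_comp_left
      (ContinuousLinearMap.proj (R := ℂ) (φ := fun _ : Fin 3 => ℂ) i)
      (hc.of_le le_top).contDiffAt (i := m) (by exact_mod_cast le_top)
  have hmem : ∀ i, V k i ∈ {m : ℕ | iteratedFDeriv ℂ m (f^[k]) 0 ≠ 0} := by
    intro i h0
    apply homog_deriv_ne (hci i) (fun c z => iter_homog k c z i) (by rw [iter_one])
    rw [hproj, h0]
    ext v
    simp
  apply le_antisymm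
  · rcases min_choice (V k 0) (min (V k 1) (V k 2)) with h | h
    · rw [h]; exact Nat.sInf_le (hmem 0)
    · rw [h]
      rcases min_choice (V k 1) (V k 2) with h' | h'
      · rw [h']; exact Nat.sInf_le (hmem 1)
      · rw [h']; exact Nat.sInf_le (hmem 2)
  · apply le_csInf ⟨_, hmem 0⟩
    intro m hm
    by_contra hlt
    push Not at hlt
    apply hm
    ext v i
    have h1 : iteratedFDeriv ℂ m (fun z => f^[k] z i) 0 = 0 := by
      apply homog_deriv (hci i) (fun c z => iter_homog k c z i)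
      intro h
      have : min (V k 0) (min (V k 1) (V k 2)) ≤ V k i := by
        fin_cases i <;> simp
      omega
    have h2 := hproj m i
    rw [h1] at h2
    have h3 := congrArg (fun T => T v) h2
    simpa using h3.symm

/-! ### Arithmetic of the exponents -/

/-- The Gaussian integer `3 + 4 i`. -/
def w : GaussianInt := ⟨3, 4⟩

/-- The difference of the two competing exponents. -/
def D (k : ℕ) : ℤ := (V k 0 : ℤ) - V k 1

lemma D_aux (k : ℕ) : 4 * D k = -(w ^ k).im ∧
    4 * ((V k 2 : ℤ) - 2 * V k 0) = -4 * (w ^ k).re + 3 * (w ^ k).im := by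
  induction k with
  | zero => simp [D, V]
  | succ k ih =>
    obtain ⟨h1, h2⟩ := ih
    have hre : (w ^ (k + 1)).re = 3 * (w ^ k).re - 4 * (w ^ k).im := by
      rw [pow_succ, Zsqrtd.re_mul]; simp [w]; ring
    have him : (w ^ (k + 1)).im = 4 * (w ^ k).re + 3 * (w ^ k).im := by
      rw [pow_succ, Zsqrtd.im_mul]; simp [w]; ring
    rw [hre, him]
    simp only [D, V, Matrix.cons_val_zero, Matrix.cons_val_one, Matrix.cons_val, Nat.cast_add,
      Nat.cast_mul, Nat.cast_ofNat] at h1 h2 ⊢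
    constructor
    · linear_combination 6 * h1 + h2
    · linear_combination (-25) * h1

lemma w_mod (k : ℕ) : (w ^ (k + 1)).re % 5 = 3 ∧ (w ^ (k + 1)).im % 5 = 4 := by
  induction k with
  | zero => simp [w]
  | succ k ih =>
    obtain ⟨h1, h2⟩ := ih
    have hre : (w ^ (k + 1 + 1)).re = 3 * (w ^ (k + 1)).re - 4 * (w ^ (k + 1)).im := by
      rw [pow_succ w (k + 1), Zsqrtd.re_mul]; simp [w]; ring
    have him : (w ^ (k + 1 + 1)).im = 4 * (w ^ (k + 1)).re + 3 * (w ^ (k + 1)).im := by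
      rw [pow_succ w (k + 1), Zsqrtd.im_mul]; simp [w]; ring
    rw [hre, him]
    omega

lemma D_mod (k : ℕ) : D (k + 1) % 5 = 4 := by
  have h1 := (D_aux (k + 1)).1
  have h2 := (w_mod k).2
  omega

lemma V_ineq (k : ℕ) : V k 0 ≤ 2 * V k 1 ∧ V k 2 ≤ 5 * V k 0 + 12 * V k 1 ∧ V k 0 ≤ V k 2 := by
  induction k with
  | zero => simp [V]
  | succ k ih =>
    simp only [V, Matrix.cons_val_zero, Matrix.cons_val_one, Matrix.cons_val]
    omega

/-- The order of the `k`-th iterate. -/
noncomputable def c (k : ℕ) : ℤ := ((sInf {m : ℕ | iteratedFDeriv ℂ m (f^[k]) 0 ≠ 0} : ℕ) : ℤ)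

lemma c_eq (k : ℕ) : c k = min (V k 0 : ℤ) (V k 1) := by
  unfold c
  rw [order_eq]
  have := V_ineq k
  push_cast
  omega

/-- A real sequence with `x (j+2) = 2 R x (j+1) - M x j`, `R² < M`, does not stay positive. -/
lemma not_pos (x : ℕ → ℝ) (R M : ℝ) (hRM : R ^ 2 < M)
    (hx : ∀ j, x (j + 2) = 2 * R * x (j + 1) - M * x j) : ¬ ∀ j, 0 < x j := by
  intro hpos
  set y : ℕ → ℝ := fun j => x (j + 1) / x j with hy
  have hy0 : ∀ j, 0 < y j := fun j => div_pos (hpos _) (hpos _)
  have hrec : ∀ j, y (j + 1) = 2 * R - M / y j := by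
    intro j
    have h1 := (hpos j).ne'
    have h2 := (hpos (j + 1)).ne'
    simp only [hy]
    rw [show j + 1 + 1 = j + 2 from rfl, hx]
    field_simp
  set δ : ℝ := (M - R ^ 2) / y 0 with hδ
  have hδ0 : 0 < δ := div_pos (by linarith) (hy0 0)
  have hle : ∀ j : ℕ, y j ≤ y 0 - j * δ := by
    intro j
    induction j with
    | zero => simp
    | succ j ih =>
      have h1 : y j ≤ y 0 := by
        have : 0 ≤ (j : ℝ) * δ := by positivity
        linarith
      have h2 : y (j + 1) = y j - ((y j - R) ^ 2 + (M - R ^ 2)) / y j := by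
        rw [hrec]
        have := (hy0 j).ne'
        field_simp
        ring
      have h3 : δ ≤ ((y j - R) ^ 2 + (M - R ^ 2)) / y j := by
        rw [hδ]
        apply div_le_div₀
        · nlinarith [sq_nonneg (y j - R)]
        · nlinarith [sq_nonneg (y j - R)]
        · exact hy0 j
        · exact h1
      rw [h2]
      push_cast
      linarith
  obtain ⟨n, hn⟩ := exists_nat_gt (y 0 / δ)
  have h1 := hle n
  have h2 := hy0 n
  rw [div_lt_iff₀ hδ0] at hn
  linarith

/-- The sign of `D` is not constant on any arithmetic progression. -/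
lemma not_const (k₀ N : ℕ) (hN : 0 < N) (s : ℤ) : ¬ ∀ j : ℕ, 0 < s * D (k₀ + j * N) := by
  intro h
  obtain ⟨n, rfl⟩ : ∃ n, N = n + 1 := ⟨N - 1, by omega⟩
  set W : GaussianInt := w ^ (n + 1) with hW
  have him : W.im ≠ 0 := by
    intro h0
    have := (w_mod n).2
    rw [← hW, h0] at this
    omega
  apply not_pos (fun j => (s * D (k₀ + j * (n + 1)) : ℤ)) (W.re : ℝ) ((W.re : ℝ) ^ 2 + (W.im : ℝ) ^ 2)
  · have : (0 : ℝ) < (W.im : ℝ) ^ 2 := by
      have : (W.im : ℝ) ≠ 0 := by exact_mod_cast him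
      positivity
    linarith
  · intro j
    have key : D (k₀ + (j + 2) * (n + 1)) = 2 * W.re * D (k₀ + (j + 1) * (n + 1)) -
        (W.re ^ 2 + W.im ^ 2) * D (k₀ + j * (n + 1)) := by
      have h0 := (D_aux (k₀ + j * (n + 1))).1
      have h1 := (D_aux (k₀ + (j + 1) * (n + 1))).1
      have h2 := (D_aux (k₀ + (j + 2) * (n + 1))).1
      set z : GaussianInt := w ^ (k₀ + j * (n + 1)) with hz
      have e1 : w ^ (k₀ + (j + 1) * (n + 1)) = z * W := by
        rw [hz, hW, ← pow_add]; ring_nf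
      have e2 : w ^ (k₀ + (j + 2) * (n + 1)) = z * W * W := by
        rw [hz, hW, ← pow_add, ← pow_add]; ring_nf
      rw [e1] at h1
      rw [e2] at h2
      have h4 : (z * W * W).im = 2 * W.re * (z * W).im - (W.re ^ 2 + W.im ^ 2) * z.im := by
        simp only [Zsqrtd.im_mul, Zsqrtd.re_mul]
        ring
      rw [h4] at h2
      have h5 : 4 * D (k₀ + (j + 2) * (n + 1)) = 4 * (2 * W.re * D (k₀ + (j + 1) * (n + 1)) -
        (W.re ^ 2 + W.im ^ 2) * D (k₀ + j * (n + 1))) := by
        linear_combination h2 - 2 * W.re * h1 + (W.re ^ 2 + W.im ^ 2) * h0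
      linarith
    rw [key]
    push_cast
    ring
  · intro j
    exact_mod_cast h j

/-- The orders `c k` do not satisfy an integer linear recursion. -/
lemma no_recursion (d : ℕ) (a : Fin d → ℤ) (K : ℕ)
    (h : ∀ k, K ≤ k → c (k + d) = ∑ i : Fin d, a i * c (k + i)) : False := by
  classical
  let st : ℕ → (Fin (d + 1) → ZMod 5) × (Fin 3 → ZMod 5) := fun k =>
    (fun i => ((c (k + i) : ℤ) : ZMod 5), fun i => ((V k i : ℕ) : ZMod 5))
  have hstep : ∀ k l, K ≤ k → K ≤ l → st k = st l → st (k + 1) = st (l + 1) := by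
    intro k l hk hl hkl
    have h1 : ∀ i : Fin (d + 1), ((c (k + i) : ℤ) : ZMod 5) = ((c (l + i) : ℤ) : ZMod 5) :=
      fun i => congrFun (congrArg Prod.fst hkl) i
    have h2 : ∀ i : Fin 3, ((V k i : ℕ) : ZMod 5) = ((V l i : ℕ) : ZMod 5) :=
      fun i => congrFun (congrArg Prod.snd hkl) i
    have h1' : ∀ i : ℕ, i ≤ d → ((c (k + i) : ℤ) : ZMod 5) = ((c (l + i) : ℤ) : ZMod 5) :=
      fun i hi => h1 ⟨i, by omega⟩
    apply Prod.ext
    · funext i
      show ((c (k + 1 + i) : ℤ) : ZMod 5) = ((c (l + 1 + i) : ℤ) : ZMod 5)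
      rcases Nat.lt_or_ge (i : ℕ) d with hi | hi
      · have := h1' (i + 1) hi
        rw [show k + 1 + (i : ℕ) = k + (i + 1) by ring, show l + 1 + (i : ℕ) = l + (i + 1) by ring]
        exact this
      · have hid : (i : ℕ) = d := by have := i.2; omega
        rw [hid, h (k + 1) (by omega), h (l + 1) (by omega)]
        push_cast
        apply Finset.sum_congr rfl
        intro j _
        have := h1' (j + 1) (by have := j.2; omega)
        rw [show k + 1 + (j : ℕ) = k + (j + 1) by ring, show l + 1 + (j : ℕ) = l + (j + 1) by ring,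
          this]
    · funext i
      show ((V (k + 1) i : ℕ) : ZMod 5) = ((V (l + 1) i : ℕ) : ZMod 5)
      fin_cases i <;>
        simp only [V, Fin.zero_eta, Fin.mk_one, Fin.reduceFinMk, Matrix.cons_val_zero,
          Matrix.cons_val_one, Matrix.cons_val, Nat.cast_add, Nat.cast_mul, h2]
  obtain ⟨k₁, k₂, hne, heq⟩ := Finite.exists_ne_map_eq_of_infinite (fun n => st (K + 1 + n))
  obtain ⟨p, N, hN, hpN⟩ : ∃ p N, 0 < N ∧ st (K + 1 + p) = st (K + 1 + p + N) := by
    rcases Nat.lt_or_ge k₁ k₂ with hlt | hge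
    · exact ⟨k₁, k₂ - k₁, by omega, by
        rw [show K + 1 + k₁ + (k₂ - k₁) = K + 1 + k₂ by omega]; exact heq⟩
    · exact ⟨k₂, k₁ - k₂, by omega, by
        rw [show K + 1 + k₂ + (k₁ - k₂) = K + 1 + k₁ by omega]; exact heq.symm⟩
  set k₀ := K + 1 + p with hk₀
  have hper : ∀ n, st (k₀ + n) = st (k₀ + n + N) := by
    intro n
    induction n with
    | zero => exact hpN
    | succ n ih =>
      have := hstep (k₀ + n) (k₀ + n + N) (by omega) (by omega) ih
      rw [show k₀ + (n + 1) = k₀ + n + 1 by ring, show k₀ + n + 1 + N = k₀ + n + N + 1 by ring]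
      exact this
  have hper' : ∀ j : ℕ, st (k₀ + j * N) = st k₀ := by
    intro j
    induction j with
    | zero => simp
    | succ j ih =>
      rw [← ih, hper (j * N)]
      congr 1
      ring
  -- the sign is determined by the state
  have hsign : ∀ k, 1 ≤ k → (0 < D k ↔ ((c k : ℤ) : ZMod 5) = ((V k 1 : ℕ) : ZMod 5)) := by
    intro k hk
    obtain ⟨m, rfl⟩ : ∃ m, k = m + 1 := ⟨k - 1, by omega⟩
    have hmod := D_mod m
    have hc := c_eq (m + 1)
    have e : (((c (m + 1) : ℤ) : ZMod 5) = ((V (m + 1) 1 : ℕ) : ZMod 5)) ↔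
        (c (m + 1) - (V (m + 1) 1 : ℤ)) % 5 = 0 := by
      rw [show (((V (m + 1) 1 : ℕ)) : ZMod 5) = (((V (m + 1) 1 : ℤ) : ℤ) : ZMod 5) by push_cast; rfl,
        ZMod.intCast_eq_intCast_iff_dvd_sub]
      constructor
      · intro h
        have : ((5 : ℕ) : ℤ) = 5 := rfl
        rw [this] at h
        omega
      · intro h
        have : ((5 : ℕ) : ℤ) = 5 := rfl
        rw [this]
        omega
    rw [e, hc]
    simp only [D] at hmod ⊢
    omega
  have hst1 : ∀ j : ℕ, (((c (k₀ + j * N) : ℤ) : ZMod 5) = ((V (k₀ + j * N) 1 : ℕ) : ZMod 5)) ↔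
      (((c k₀ : ℤ) : ZMod 5) = ((V k₀ 1 : ℕ) : ZMod 5)) := by
    intro j
    have h1 := congrFun (congrArg Prod.fst (hper' j)) 0
    have h2 := congrFun (congrArg Prod.snd (hper' j)) 1
    simp only [st, Fin.val_zero, add_zero] at h1 h2
    rw [h1, h2]
  have hD0 : ∀ k, 1 ≤ k → D k ≠ 0 := by
    intro k hk h0
    obtain ⟨m, rfl⟩ : ∃ m, k = m + 1 := ⟨k - 1, by omega⟩
    have := D_mod m
    omega
  by_cases hs : 0 < D k₀
  · apply not_const k₀ N hN 1
    intro j
    rw [one_mul, hsign _ (by omega), hst1 j, ← hsign _ (by omega)]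
    exact hs
  · apply not_const k₀ N hN (-1)
    intro j
    have h1 : ¬ 0 < D (k₀ + j * N) := by
      rw [hsign _ (by omega), hst1 j, ← hsign _ (by omega)]
      exact hs
    have h2 := hD0 (k₀ + j * N) (by omega)
    omega

/-! ### The germ is dominant and not invertible -/

/-- The differential of `f`. -/
noncomputable def df (z : Fin 3 → ℂ) : Matrix (Fin 3) (Fin 3) ℂ :=
  !![13 * z 0 ^ 12 * z 2, 0, z 0 ^ 13;
     9 * z 0 ^ 8 * z 1 ^ 6, 6 * z 0 ^ 9 * z 1 ^ 5, 0;
     z 1 ^ 25 * z 2 ^ 2, 25 * z 0 * z 1 ^ 24 * z 2 ^ 2, 2 * z 0 * z 1 ^ 25 * z 2]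

lemma hasFDerivAt_f (z : Fin 3 → ℂ) :
    HasFDerivAt f (LinearMap.toContinuousLinearMap (Matrix.toLin' (df z))) z := by
  rw [hasFDerivAt_pi']
  have hp : ∀ i : Fin 3, HasFDerivAt (fun z : Fin 3 → ℂ => z i)
      (ContinuousLinearMap.proj (R := ℂ) (φ := fun _ : Fin 3 => ℂ) i) z := fun i =>
    hasFDerivAt_apply i z
  intro i
  fin_cases i
  · have h := ((hp 0).pow 13).mul (hp 2)
    refine HasFDerivAt.congr_fderiv (f := fun z => f z 0) h ?_
    ext v
    simp [df, Matrix.toLin'_apply, dotProduct, Fin.sum_univ_three]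
    ring
  · have h := ((hp 0).pow 9).mul ((hp 1).pow 6)
    refine HasFDerivAt.congr_fderiv (f := fun z => f z 1) h ?_
    ext v
    simp [df, Matrix.toLin'_apply, dotProduct, Fin.sum_univ_three]
    ring
  · have h := ((hp 0).mul ((hp 1).pow 25)).mul ((hp 2).pow 2)
    refine HasFDerivAt.congr_fderiv (f := fun z => f z 2) h ?_
    ext v
    simp [df, Matrix.toLin'_apply, dotProduct, Fin.sum_univ_three]
    ring

lemma det_f (z : Fin 3 → ℂ) : (fderiv ℂ f z).det = (df z).det := by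
  rw [(hasFDerivAt_f z).fderiv]
  show LinearMap.det _ = _
  simp

/-- The negation of the preceding statement: For every holomorphic germ f of ℂⁿ fixing 0 that is non-invertible and dominant, the orders of vanishing c(f^k) of its iterates at 0 eventually satisfy a linear recursion with integer coefficients. -/
theorem result :
    ¬ (∀ (n : ℕ) (f : (Fin n → ℂ) → (Fin n → ℂ)),
      AnalyticAt ℂ f 0 → f 0 = 0 →
      (fderiv ℂ f 0).det = 0 →
      (∀ ε : ℝ, 0 < ε → ∃ z : Fin n → ℂ, ‖z‖ < ε ∧ (fderiv ℂ f z).det ≠ 0) →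
      ∃ (d : ℕ) (a : Fin d → ℤ) (K : ℕ), ∀ k : ℕ, K ≤ k →
        ((sInf {m : ℕ | iteratedFDeriv ℂ m (f^[k + d]) 0 ≠ 0} : ℕ) : ℤ) =
          ∑ i : Fin d, a i *
            ((sInf {m : ℕ | iteratedFDeriv ℂ m (f^[k + (i : ℕ)]) 0 ≠ 0} : ℕ) : ℤ)) := by
  intro hall
  have ha : AnalyticAt ℂ f 0 := (f_contDiff.contDiffAt (x := (0 : Fin 3 → ℂ))).analyticAt
  have h0 : f 0 = 0 := by
    funext i
    fin_cases i <;> simp [f]
  have hni : (fderiv ℂ f 0).det = 0 := by
    rw [det_f]
    simp [df, Matrix.det_fin_three]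
  have hdom : ∀ ε : ℝ, 0 < ε → ∃ z : Fin 3 → ℂ, ‖z‖ < ε ∧ (fderiv ℂ f z).det ≠ 0 := by
    intro ε hε
    refine ⟨fun _ => ((min ε 1 / 2 : ℝ) : ℂ), ?_, ?_⟩
    · have h1 : 0 < min ε 1 := lt_min hε one_pos
      have h2 : min ε 1 ≤ ε := min_le_left _ _
      rw [pi_norm_lt_iff hε]
      intro i
      rw [Complex.norm_real, Real.norm_eq_abs, abs_of_pos (by positivity)]
      linarith
    · rw [det_f]
      have h1 : 0 < min ε 1 := lt_min hε one_pos
      have h2 : ((min ε 1 / 2 : ℝ) : ℂ) ≠ 0 := by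
        exact_mod_cast (by positivity : (min ε 1 / 2 : ℝ) ≠ 0)
      have h3 : (df fun _ => ((min ε 1 / 2 : ℝ) : ℂ)).det =
          375 * ((min ε 1 / 2 : ℝ) : ℂ) ^ 54 := by
        rw [df, Matrix.det_fin_three]
        simp only [Matrix.of_apply, Matrix.cons_val', Matrix.cons_val_zero, Matrix.cons_val_one,
          Matrix.cons_val, Matrix.cons_val_fin_one]
        ring
      rw [h3]
      exact mul_ne_zero (by norm_num) (pow_ne_zero _ h2)
  obtain ⟨d, a, K, hrec⟩ := hall 3 f ha h0 hni hdom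
  exact no_recursion d a K hrec

end Pool.Agent.S06280
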