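import Pool.Statements.S06327
import Pool.Agent.W250.RKJ.Thm2
import Pool.Agent.W340.RKJ.Pic

set_option autoImplicit false
open Pool Pool.MP_d743a5_an

namespace Pool.Agent.S06327

/-- In each dimension d ≥ 1 there is Q > 1 such that for every q ≥ Q and every nonempty open set of finite volume, λ₁·T^q/∣Ω∣^((q(d+2)−2)/d) is at most its value on the unit ball. -/
theorem result :
    ∀ d : ℕ, 1 ≤ d → ∃ Q : ℝ, 1 < Q ∧ ∀ q : ℝ, Q ≤ q →
      ∀ Ω : Set (EuclideanSpace ℝ (Fin d)), IsOpen Ω → Ω.Nonempty →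
        MeasureTheory.volume Ω < ⊤ →
        sInf {r : ℝ | ∃ u : EuclideanSpace ℝ (Fin d) → ℝ, ContDiff ℝ 1 u ∧
              HasCompactSupport u ∧ tsupport u ⊆ Ω ∧ u ≠ 0 ∧
              r = (∫ x, ‖fderiv ℝ u x‖ ^ 2) / (∫ x, u x ^ 2)} *
            (sSup {r : ℝ | ∃ u : EuclideanSpace ℝ (Fin d) → ℝ, ContDiff ℝ 1 u ∧
              HasCompactSupport u ∧ tsupport u ⊆ Ω ∧ u ≠ 0 ∧
              r = (∫ x, u x) ^ 2 / (∫ x, ‖fderiv ℝ u x‖ ^ 2)}) ^ q /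
            ((MeasureTheory.volume Ω).toReal) ^ ((q * ((d : ℝ) + 2) - 2) / (d : ℝ))
          ≤
        sInf {r : ℝ | ∃ u : EuclideanSpace ℝ (Fin d) → ℝ, ContDiff ℝ 1 u ∧
              HasCompactSupport u ∧
              tsupport u ⊆ Metric.ball (0 : EuclideanSpace ℝ (Fin d)) 1 ∧ u ≠ 0 ∧
              r = (∫ x, ‖fderiv ℝ u x‖ ^ 2) / (∫ x, u x ^ 2)} *
            (sSup {r : ℝ | ∃ u : EuclideanSpace ℝ (Fin d) → ℝ, ContDiff ℝ 1 u ∧
              HasCompactSupport u ∧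
              tsupport u ⊆ Metric.ball (0 : EuclideanSpace ℝ (Fin d)) 1 ∧ u ≠ 0 ∧
              r = (∫ x, u x) ^ 2 / (∫ x, ‖fderiv ℝ u x‖ ^ 2)}) ^ q /
            ((MeasureTheory.volume (Metric.ball (0 : EuclideanSpace ℝ (Fin d)) 1)).toReal) ^
              ((q * ((d : ℝ) + 2) - 2) / (d : ℝ)) := by
  intro d hd
  have hpic : Pool.Agent.W250.RKJ.SPIC := Pool.Agent.W340.RKJ.pic Pool.Agent.W250.RKJ.hSF
  have hd0 : (0 : ℝ) < d := by exact_mod_cast hd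
  obtain ⟨z, hz⟩ := Pool.Agent.W250.RKJ.hSEX ((d : ℝ) / 2) (by positivity)
  set A : ℝ := 2 / ((d : ℝ) + 2) * (Real.log (1 - 1 / 2) /
      Real.log (1 - 1 / 2 / (1 / Pool.Agent.W250.RKJ.F ((d : ℝ) / 2 + 1) z ^ 2))) with hA
  set B : ℝ := 1 + Real.log ((d : ℝ) * ((d : ℝ) + 2) / z) /
      (-Real.log (1 - 1 / 2 / (1 / Pool.Agent.W250.RKJ.F ((d : ℝ) / 2 + 1) z ^ 2))) with hB
  refine ⟨max 2 (max A B), lt_of_lt_of_le one_lt_two (le_max_left _ _), ?_⟩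
  intro q hq Ω ho hne hfin
  have h2 : (2 : ℝ) ≤ q := (le_max_left _ _).trans hq
  have hAq : A ≤ q := ((le_max_left _ _).trans (le_max_right _ _)).trans hq
  have hBq : B ≤ q := ((le_max_right _ _).trans (le_max_right _ _)).trans hq
  have h := Pool.Agent.W250.RKJ.general hpic hd hz (y0 := 1 / 2) (q := q) (by norm_num)
    (by norm_num) (by linarith) hAq hBq ho hne hfin
  exact h

end Pool.Agent.S06327
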