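import Pool.Statements.S06521
import Pool.Agent.Y279.NU2

set_option autoImplicit false
open Pool Pool.MP_e7ec4f_an

namespace Pool.Agent.S06521

open Pool.Agent.Y279 in
/-- There is a real or complex quasi-Banach space with a bounded biorthogonal basis that is nearly unconditional (coordinates at least a can be projected boundedly) but not truncation quasi-greedy. -/
theorem result :
    ∃ (𝕂 : Type) (_ : RCLike 𝕂) (X : Type) (_ : AddCommGroup X) (_ : Module 𝕂 X)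
      (q : X → ℝ) (κ : ℝ) (x : ℕ → X) (xs : ℕ → X →ₗ[𝕂] 𝕂),
      (∀ f : X, 0 ≤ q f) ∧
      (∀ f : X, q f = 0 → f = 0) ∧
      (∀ (c : 𝕂) (f : X), q (c • f) = ‖c‖ * q f) ∧
      (∀ f g : X, q (f + g) ≤ κ * (q f + q g)) ∧
      (∀ u : ℕ → X, (∀ ε : ℝ, 0 < ε → ∃ N : ℕ, ∀ m ≥ N, ∀ n ≥ N, q (u m - u n) < ε) →
        ∃ f : X, ∀ ε : ℝ, 0 < ε → ∃ N : ℕ, ∀ n ≥ N, q (u n - f) < ε) ∧
      (∃ B : ℝ, ∀ n : ℕ, q (x n) ≤ B) ∧
      (∃ M : ℝ, ∀ (n : ℕ) (f : X), ‖xs n f‖ ≤ M * q f) ∧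
      (∀ m n : ℕ, xs m (x n) = if m = n then 1 else 0) ∧
      (∀ f : X, ∀ ε : ℝ, 0 < ε → ∃ g ∈ Submodule.span 𝕂 (Set.range x), q (f - g) < ε) ∧
      (∀ a : ℝ, 0 < a → a ≤ 1 → ∃ C : ℝ, ∀ f : X, (∀ n : ℕ, ‖xs n f‖ ≤ 1) →
        ∀ A : Finset ℕ, (∀ n ∈ A, a ≤ ‖xs n f‖) →
          q (∑ n ∈ A, xs n f • x n) ≤ C * q f) ∧
      ¬ (∃ C : ℝ, ∀ f : X, ∀ A : Finset ℕ, A.Nonempty →
          (∀ n ∈ A, ∀ k : ℕ, k ∉ A → ‖xs k f‖ ≤ ‖xs n f‖) →
          ∀ t : ℝ, (∀ n ∈ A, t ≤ ‖xs n f‖) →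
            t * q (∑ n ∈ A, (xs n f / ((‖xs n f‖ : ℝ) : 𝕂)) • x n) ≤ C * q f) := by
  classical
  have : Infinite NU.Idx :=
    Infinite.of_injective (fun K : ℕ => (⟨K, ⟨0, ⟨0, by positivity⟩⟩⟩ : NU.Idx))
      (fun a b h => (Sigma.mk.inj_iff.1 h).1)
  obtain ⟨e⟩ : Nonempty (ℕ ≃ NU.Idx) := nonempty_equiv_of_countable
  refine ⟨ℝ, inferInstance, NU.X, inferInstance, inferInstance, fun f => ‖f‖, 1,
    fun n => NU.xi (e n), fun n => NU.xis (e n), fun f => norm_nonneg f,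
    fun f hf => norm_eq_zero.1 hf, fun c f => norm_smul c f,
    fun f g => by simpa using norm_add_le f g, ?_, ⟨1, fun n => NU.norm_xi _⟩,
    ⟨1, fun n f => by simpa using NU.xis_le (e n) f⟩, ?_, ?_, ?_, ?_⟩
  · intro u hu
    have hc : CauchySeq u := by
      rw [Metric.cauchySeq_iff]
      intro ε hε
      obtain ⟨N, hN⟩ := hu ε hε
      exact ⟨N, fun m hm n hn => by rw [dist_eq_norm]; exact hN m hm n hn⟩
    obtain ⟨f, hf⟩ := cauchySeq_tendsto_of_complete hc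
    refine ⟨f, fun ε hε => ?_⟩
    obtain ⟨N, hN⟩ := Metric.tendsto_atTop.1 hf ε hε
    exact ⟨N, fun n hn => by have := hN n hn; rwa [dist_eq_norm] at this⟩
  · intro m n
    rw [NU.biorth]
    simp [e.injective.eq_iff]
  · intro f ε hε
    have hr : Set.range (fun n => NU.xi (e n)) = Set.range NU.xi := by
      rw [← e.surjective.range_comp NU.xi]; rfl
    rw [hr]
    exact NU.dense f ε hε
  · intro a ha ha1
    obtain ⟨m, hm⟩ := pow_unbounded_of_one_lt (4 / a) (by norm_num : (1 : ℝ) < 4)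
    refine ⟨_, fun f h1 A hA => le_trans ?_
      (NU.near a ha m hm.le f (fun i => ?_) (A.map e.toEmbedding) ?_)⟩
    · rw [Finset.sum_map]
      refine (norm_sum_le _ _).trans (Finset.sum_le_sum fun n _ => ?_)
      rw [norm_smul]
      exact mul_le_of_le_one_right (norm_nonneg _) (NU.norm_xi _)
    · have := h1 (e.symm i)
      simpa using this
    · intro i hi
      rw [Finset.mem_map] at hi
      obtain ⟨n, hn, rfl⟩ := hi
      exact hA n hn
  · rintro ⟨C, hC⟩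
    obtain ⟨K, hK⟩ := pow_unbounded_of_one_lt (16 * |C|) (by norm_num : (1 : ℝ) < 4)
    -- use K + 1
    set L := K + 1 with hL
    let f : NU.X := NU.Z.mkQ (NU.sgl (Sum.inr L))
    have hf1 : ‖f‖ ≤ 1 := (NU.norm_mk_le _).trans (NU.norm_sgl _).le
    have hcoord : ∀ i : NU.Idx, NU.xis i f = if i.1 = L then (1 / 4 : ℝ) ^ (i.2.1 : ℕ) else 0 := by
      intro i
      simp only [f]
      rw [NU.xis_mk, NU.phi_apply, NU.sgl_apply, NU.sgl_apply]
      simp
    let A : Finset ℕ := (Finset.univ : Finset (NU.Blk L)).map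
      ⟨fun p => e.symm ⟨L, p⟩, fun p p' h => by simpa using h⟩
    have hA : ∀ n, n ∈ A ↔ (e n).1 = L := by
      intro n
      simp only [A, Finset.mem_map, Finset.mem_univ, true_and, Function.Embedding.coeFn_mk]
      constructor
      · rintro ⟨p, rfl⟩
        simp
      · intro h
        obtain ⟨p, hp⟩ : ∃ p : NU.Blk L, (⟨L, p⟩ : NU.Idx) = e n := by
          generalize e n = i at h
          obtain ⟨K', p⟩ := i
          simp only at h
          subst h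
          exact ⟨p, rfl⟩
        exact ⟨p, by rw [hp, Equiv.symm_apply_apply]⟩
    have hne : A.Nonempty := ⟨e.symm ⟨L, ⟨0, ⟨0, by positivity⟩⟩⟩, by rw [hA]; simp⟩
    have hpos : ∀ n ∈ A, (0 : ℝ) < NU.xis (e n) f := by
      intro n hn
      rw [hcoord, if_pos ((hA n).1 hn)]
      positivity
    have h := hC f A hne (by
      intro n hn k hk
      rw [hcoord (e k), if_neg (fun h => hk ((hA k).2 h))]
      simp) ((1 / 4 : ℝ) ^ L) (by
      intro n hn
      rw [hcoord, if_pos ((hA n).1 hn), Real.norm_eq_abs, abs_of_pos (by positivity)]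
      refine pow_le_pow_of_le_one (by norm_num) (by norm_num) ?_
      have h1 := (e n).2.1.2
      have h2 := (hA n).1 hn
      omega)
    have hsum : ∑ n ∈ A, (NU.xis (e n) f / ((‖NU.xis (e n) f‖ : ℝ) : ℝ)) • NU.xi (e n)
        = ∑ p : NU.Blk L, NU.xi ⟨L, p⟩ := by
      have h1 : ∀ n ∈ A, (NU.xis (e n) f / ((‖NU.xis (e n) f‖ : ℝ) : ℝ)) • NU.xi (e n) =
          NU.xi (e n) := by
        intro n hn
        have h2 := hpos n hn
        rw [Real.norm_eq_abs, abs_of_pos h2, div_self h2.ne', one_smul]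
      rw [Finset.sum_congr rfl h1]
      simp only [A, Finset.sum_map, Function.Embedding.coeFn_mk, Equiv.apply_symm_apply]
    have h' : (1 / 4 : ℝ) ^ L * ‖∑ p : NU.Blk L, NU.xi ⟨L, p⟩‖ ≤ C * ‖f‖ := by
      rw [← hsum]
      exact h
    have h2 := NU.flat L (by omega)
    have h3 : (1 / 4 : ℝ) ^ L * (16 ^ L / 16) ≤ |C| := by
      calc (1 / 4 : ℝ) ^ L * (16 ^ L / 16) ≤ (1 / 4 : ℝ) ^ L * ‖∑ p : NU.Blk L, NU.xi ⟨L, p⟩‖ :=
            mul_le_mul_of_nonneg_left h2 (by positivity)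
        _ ≤ C * ‖f‖ := h'
        _ ≤ |C| * ‖f‖ := mul_le_mul_of_nonneg_right (le_abs_self C) (norm_nonneg _)
        _ ≤ |C| * 1 := mul_le_mul_of_nonneg_left hf1 (abs_nonneg _)
        _ = |C| := mul_one _
    have h4 : (1 / 4 : ℝ) ^ L * (16 ^ L / 16) = 4 ^ L / 16 := by
      rw [mul_div_assoc', ← mul_pow]; norm_num
    rw [h4] at h3
    have h5 : (4 : ℝ) ^ K ≤ 4 ^ L := pow_le_pow_right₀ (by norm_num) (by omega)
    linarith

end Pool.Agent.S06521
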