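import Pool.Statements.S06533
import Pool.Agent.Y312.OR.Main

set_option autoImplicit false
open MeasureTheory Filter Topology
open Pool Pool.MP_e8a8db_an

namespace Pool.Agent.S06533

/-- Every nontrivial mixing measure-preserving system on a probability space has an over-recurrent set, or a bounded non-constant function f with ∫ f·f∘T^n ≥ (∫ f)^2 for all n ≥ 1. -/
theorem result :
    ∀ (X : Type) [MeasurableSpace X] (μ : Measure X) [IsProbabilityMeasure μ] (T : X → X),
      MeasurePreserving T μ μ →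
      (∃ A : Set X, MeasurableSet A ∧ 0 < μ A ∧ μ A < 1) →
      (∀ A B : Set X, MeasurableSet A → MeasurableSet B →
        Tendsto (fun n : ℕ => μ (A ∩ T^[n] ⁻¹' B)) atTop (𝓝 (μ A * μ B))) →
      (∃ A : Set X, MeasurableSet A ∧ 0 < μ A ∧ μ A < 1 ∧
          ∀ n : ℕ, 1 ≤ n → μ A ^ 2 ≤ μ (A ∩ T^[n] ⁻¹' A)) ∨
      (∃ f : X → ℝ, MemLp f ⊤ μ ∧ (¬ ∃ c : ℝ, f =ᵐ[μ] fun _ => c) ∧
          ∀ n : ℕ, 1 ≤ n → (∫ x, f x ∂μ) ^ 2 ≤ ∫ x, f x * f (T^[n] x) ∂μ) := by
  intro X _ μ _ T hT hA hmix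
  left
  have hM : Pool.Agent.Y312.OverRec.Mix μ T := by
    intro A B hAm hBm
    have h := hmix A B hAm hBm
    have hne : μ A * μ B ≠ ⊤ := ENNReal.mul_ne_top (measure_ne_top _ _) (measure_ne_top _ _)
    have h2 := (ENNReal.tendsto_toReal hne).comp h
    rw [ENNReal.toReal_mul] at h2
    exact h2
  have hA' : ∃ A : Set X, MeasurableSet A ∧ 0 < μ.real A ∧ μ.real A < 1 := by
    obtain ⟨A, hAm, hA0, hA1⟩ := hA
    refine ⟨A, hAm, ?_, ?_⟩
    · exact ENNReal.toReal_pos hA0.ne' (measure_ne_top _ _)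
    · have := (ENNReal.toReal_lt_toReal (measure_ne_top μ A) ENNReal.one_ne_top).mpr hA1
      rw [measureReal_def]
      simpa using this
  obtain ⟨D, hD, hD0, hDn⟩ := Pool.Agent.Y312.OverRec.exists_overrec hT hM hA'
  refine ⟨D, hD, ?_, ?_, ?_⟩
  · by_contra h
    have h0 : μ D = 0 := by simpa using h
    rw [measureReal_def, h0] at hD0
    simp at hD0
  · have h1 := hDn 1 le_rfl
    have h2 : μ.real (D ∩ T^[1] ⁻¹' D) ≤ μ.real D := measureReal_mono Set.inter_subset_left
    have h3 : μ.real D < 1 := by nlinarith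
    rw [← ENNReal.toReal_lt_toReal (measure_ne_top μ D) ENNReal.one_ne_top, ENNReal.toReal_one]
    exact h3
  · intro n hn
    have h1 := hDn n hn
    rw [← ENNReal.toReal_le_toReal (ENNReal.pow_ne_top (measure_ne_top _ _)) (measure_ne_top _ _),
      ENNReal.toReal_pow]
    exact h1.le

end Pool.Agent.S06533
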