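import Pool.Statements.S07056
import Pool.Agent.Y681.WCyc.Main

set_option autoImplicit false
open Pool Pool.MP_0959cd_co

namespace Pool.Agent.S07056

/-- The negation of the preceding statement: In every finite nonempty loopless digraph with arc weights in [0,1] where each vertex has total out-weight at least 1 and total in-weight at least 1, some directed cycle has total weight at least 1. -/
theorem result :
    ¬ (∀ (V : Type) [Fintype V] [Nonempty V] (G : Digraph V) (p : V → V → ℝ),
      (∀ v, ¬ G.Adj v v) →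
      (∀ u v, 0 ≤ p u v ∧ p u v ≤ 1) →
      (∀ u v, ¬ G.Adj u v → p u v = 0) →
      (∀ u, 1 ≤ ∑ v, p u v) →
      (∀ u, 1 ≤ ∑ v, p v u) →
      ∃ (k : ℕ) (c : Fin (k + 2) → V),
        Function.Injective c ∧
        (∀ i, G.Adj (c i) (c (i + 1))) ∧
        1 ≤ ∑ i, p (c i) (c (i + 1))) := by
  intro H
  obtain ⟨k, c, hc, hadj, hsum⟩ := H Pool.Agent.Y681.WCyc.V
    ⟨fun u v => Pool.Agent.Y681.WCyc.p u v ≠ 0⟩ Pool.Agent.Y681.WCyc.p
    (fun v hv => hv (Pool.Agent.Y681.WCyc.p_self v))
    Pool.Agent.Y681.WCyc.p_bound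
    (fun u v huv => not_not.mp huv)
    Pool.Agent.Y681.WCyc.p_out
    Pool.Agent.Y681.WCyc.p_in
  exact absurd hsum (not_le.mpr (Pool.Agent.Y681.WCyc.pcyc k c hc hadj))

end Pool.Agent.S07056
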