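import Pool.Statements.S07091
import Pool.Agent.Y490.HS.Psd
import Pool.Agent.Y490.HS.Clq

set_option autoImplicit false
open Pool Pool.MP_0a407b_co

namespace Pool.Agent.S07091

open Pool.Agent.Y490.HS

/-- For every c>0 and k there are ε>0 and N so that any graph on n≥N vertices with ⌊cn²⌋ edges, in which every ⌊n/2⌋-vertex set spans at least (1−ε)c(n/2)² edges, contains a k-clique. -/
theorem result :
    ∀ c : ℝ, 0 < c → ∀ k : ℕ, ∃ ε : ℝ, 0 < ε ∧ ∃ N : ℕ, ∀ n : ℕ, N ≤ n →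
      ∀ G : SimpleGraph (Fin n),
        G.edgeSet.ncard = ⌊c * (n : ℝ) ^ 2⌋₊ →
        (∀ W : Finset (Fin n), W.card = n / 2 →
          (1 - ε) * c * ((n : ℝ) / 2) ^ 2 ≤
            (({e : Sym2 (Fin n) | e ∈ G.edgeSet ∧ ∀ v ∈ e, v ∈ W}).ncard : ℝ)) →
        ∃ s : Finset (Fin n), G.IsNClique k s := by
  classical
  intro c hc k
  rcases k with _ | k
  · refine ⟨1, one_pos, 0, fun n _ G _ _ => ⟨∅, ?_⟩⟩
    rw [SimpleGraph.isNClique_iff]
    simp
  have hδ := dl_pos k c hc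
  set δ := dl k c with hδdef
  -- choice of η
  set A : ℝ := 6 * (1 + c / 2) + 18 * c with hA
  have hA0 : 0 < A := by positivity
  set η : ℝ := min (1 / 3) (δ / A) with hη
  have hη0 : 0 < η := lt_min (by norm_num) (by positivity)
  have hη1 : η ≤ 1 / 3 := min_le_left _ _
  have hη2 : η * A ≤ δ := by
    have := min_le_right (1 / 3 : ℝ) (δ / A)
    rw [← hη, le_div_iff₀ hA0] at this
    exact this
  obtain ⟨M, hM⟩ := exists_nat_ge (2 / c)
  refine ⟨η ^ 2, by positivity, max 3 M, fun n hn G he hW => ?_⟩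
  have hn3 : 3 ≤ n := (le_max_left _ _).trans hn
  have hnM : M ≤ n := (le_max_right _ _).trans hn
  have hn1 : (1 : ℝ) ≤ n := by
    have : 1 ≤ n := by omega
    exact_mod_cast this
  have hpsd := psd hn3 G c η hc hη0 hη1 he hW
  have hpsd' : ∀ h : Fin n → ℝ, (∀ i, |h i| ≤ 1) → -(δ * (n : ℝ) ^ 2) ≤ B G h h := by
    intro h hh
    refine le_trans ?_ (hpsd h hh)
    have h1 : 6 * η * (1 + c / 2) + 18 * η ^ 2 * c ≤ δ := by
      refine le_trans ?_ hη2
      rw [hA]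
      have h2 : η ^ 2 ≤ η * 1 := by
        rw [sq]; exact mul_le_mul_of_nonneg_left (by linarith) hη0.le
      nlinarith
    have h2 : (6 * η * (1 + c / 2) + 18 * η ^ 2 * c) * (n : ℝ) ^ 2 ≤ δ * (n : ℝ) ^ 2 := by gcongr
    linarith
  have hE : B G (ind Finset.univ) (ind Finset.univ) = 2 * (G.edgeSet.ncard : ℝ) := by
    rw [two_card]
    unfold B
    simp [ind]
  have hE1 : c * (n : ℝ) ^ 2 ≤ B G (ind Finset.univ) (ind Finset.univ) := by
    rw [hE, he]
    have h1 := Nat.lt_floor_add_one (c * (n : ℝ) ^ 2)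
    have h2 : 2 ≤ c * (n : ℝ) ^ 2 := by
      have h3 : 2 / c ≤ n := hM.trans (by exact_mod_cast hnM)
      rw [div_le_iff₀ hc] at h3
      nlinarith
    linarith
  obtain ⟨s, _, hs⟩ := clique (by omega) G δ hpsd' k c hc le_rfl Finset.univ hE1
  exact ⟨s, hs⟩

end Pool.Agent.S07091
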