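import Pool.Statements.S07114
-- import your own Pool.Agent.* helpers here

set_option autoImplicit false
open Filter Topology
open Pool Pool.MP_0b90e2_co

namespace Pool.Agent.S07114

/-- the colour of the pair `a < b`: arbitrary for cross pairs, `0` otherwise -/
def hcol (m : ℕ) (g : Fin m → Fin m → Fin 50) (a b : Fin (2 * m)) : Fin 50 :=
  if h : a.val < m ∧ m ≤ b.val then g ⟨a.val, h.1⟩ ⟨b.val - m, by have := b.2; omega⟩ else 0

/-- the colouring given by `g` -/
def col (m : ℕ) (g : Fin m → Fin m → Fin 50) (e : {e : Sym2 (Fin (2 * m)) // ¬ e.IsDiag}) :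
    Fin 50 := hcol m g e.1.inf e.1.sup

theorem col_good (m : ℕ) (g : Fin m → Fin m → Fin 50) (S : Finset (Fin (2 * m)))
    (hS : S.card = 4) :
    ((Finset.univ.filter
      (fun e : {e : Sym2 (Fin (2 * m)) // ¬ e.IsDiag} => e.1 ∈ S.sym2)).image (col m g)).card < 6 := by
  classical
  set L := S.filter (fun a => a.val < m) with hL
  set H := S.filter (fun a => ¬ a.val < m) with hH
  have hLH : L.card + H.card = 4 := by
    rw [hL, hH, Finset.card_filter_add_card_filter_not, hS]
  have hsub : (Finset.univ.filter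
      (fun e : {e : Sym2 (Fin (2 * m)) // ¬ e.IsDiag} => e.1 ∈ S.sym2)).image (col m g) ⊆
      insert 0 ((L ×ˢ H).image (fun p => hcol m g p.1 p.2)) := by
    intro x hx
    rw [Finset.mem_image] at hx
    obtain ⟨e, he, rfl⟩ := hx
    rw [Finset.mem_filter] at he
    obtain ⟨-, he⟩ := he
    rw [Finset.mem_insert, Finset.mem_image]
    by_cases h : (e.1.inf).val < m ∧ m ≤ (e.1.sup).val
    · right
      refine ⟨(e.1.inf, e.1.sup), ?_, rfl⟩
      have hin : e.1.inf ∈ S ∧ e.1.sup ∈ S := by
        obtain ⟨e, hd⟩ := e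
        induction e using Sym2.ind with
        | _ a b =>
          rw [Finset.mk_mem_sym2_iff] at he
          simp only [Sym2.inf_mk, Sym2.sup_mk]
          rcases le_total a b with hab | hab
          · rw [inf_eq_left.2 hab, sup_eq_right.2 hab]; exact he
          · rw [inf_eq_right.2 hab, sup_eq_left.2 hab]; exact ⟨he.2, he.1⟩
      rw [Finset.mem_product, hL, hH, Finset.mem_filter, Finset.mem_filter]
      exact ⟨⟨hin.1, h.1⟩, hin.2, not_lt.2 h.2⟩
    · left
      rw [col, hcol, dif_neg h]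
  refine lt_of_le_of_lt (Finset.card_le_card hsub) ?_
  refine lt_of_le_of_lt (Finset.card_insert_le _ _) ?_
  have h1 : ((L ×ˢ H).image (fun p => hcol m g p.1 p.2)).card ≤ L.card * H.card := by
    refine le_trans Finset.card_image_le ?_
    rw [Finset.card_product]
  have h2 : L.card * H.card ≤ 4 := by
    generalize L.card = a at hLH
    generalize H.card = b at hLH
    have h3 : a ≤ 4 := by omega
    interval_cases a <;> omega
  omega

theorem col_injective (m : ℕ) : Function.Injective (col m) := by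
  intro g g' h
  funext i j
  have hi : (⟨i.val, by have := i.2; omega⟩ : Fin (2 * m)) ≤ ⟨m + j.val, by have := j.2; omega⟩ := by
    rw [Fin.mk_le_mk]; have := i.2; omega
  have hne : ¬ (s((⟨i.val, by have := i.2; omega⟩ : Fin (2 * m)),
      ⟨m + j.val, by have := j.2; omega⟩)).IsDiag := by
    rw [Sym2.mk_isDiag_iff, Fin.mk.injEq]
    have := i.2
    omega
  have h1 := congrFun h ⟨_, hne⟩
  simp only [col, Sym2.inf_mk, Sym2.sup_mk] at h1
  rw [inf_eq_left.2 hi, sup_eq_right.2 hi] at h1
  have hc : i.val < m ∧ m ≤ m + j.val := ⟨i.2, by omega⟩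
  rw [hcol, hcol, dif_pos hc, dif_pos hc] at h1
  simpa using h1

theorem count (m : ℕ) : 50 ^ (m * m) ≤
    Nat.card {c : {e : Sym2 (Fin (2 * m)) // ¬ e.IsDiag} → Fin 50 //
      ∀ S : Finset (Fin (2 * m)), S.card = 4 →
        ((Finset.univ.filter
          (fun e : {e : Sym2 (Fin (2 * m)) // ¬ e.IsDiag} => e.1 ∈ S.sym2)).image c).card < 6} := by
  have h1 : Nat.card (Fin m → Fin m → Fin 50) = 50 ^ (m * m) := by
    rw [Nat.card_eq_fintype_card]
    simp [pow_mul]
  rw [← h1]
  refine Nat.card_le_card_of_injective (fun g => ⟨col m g, col_good m g⟩) ?_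
  intro g g' h
  exact col_injective m (congrArg Subtype.val h)

/-- The negation of the preceding statement: For all k≥3, 3≤s≤C(k,2), r≥s: the number of r-colorings of the edges of K_n in which every k-vertex set spans fewer than s colors, divided by C(r,s-1)·(s-1)^{C(n,2)}, tends to 1 as n→∞. -/
theorem result :
    ¬ (∀ k s r : ℕ, 3 ≤ k → 3 ≤ s → s ≤ k.choose 2 → s ≤ r →
      Tendsto
        (fun n : ℕ =>
          (Nat.card {c : {e : Sym2 (Fin n) // ¬ e.IsDiag} → Fin r //
              ∀ S : Finset (Fin n), S.card = k →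
                ((Finset.univ.filter
                    (fun e : {e : Sym2 (Fin n) // ¬ e.IsDiag} => e.1 ∈ S.sym2)).image c).card < s} : ℝ)
            / ((r.choose (s - 1) : ℝ) * ((s : ℝ) - 1) ^ (n.choose 2)))
        atTop (𝓝 1)) := by
  intro hall
  have h := hall 4 6 50 (by norm_num) (by norm_num) (by decide) (by norm_num)
  have hev := h.eventually (gt_mem_nhds (show (1 : ℝ) < 2 by norm_num))
  rw [Filter.eventually_atTop] at hev
  obtain ⟨N, hN⟩ := hev
  set m := max N 5 with hm
  have hm5 : 5 ≤ m := le_max_right _ _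
  have hlt := hN (2 * m) (by have : N ≤ m := le_max_left _ _; omega)
  have hc := count m
  have hch : (2 * m).choose 2 ≤ 2 * (m * m) := by
    rw [Nat.choose_two_right]
    apply Nat.div_le_of_le_mul
    nlinarith [Nat.sub_le (2 * m) 1]
  have hD : (0 : ℝ) < ((50 : ℕ).choose (6 - 1) : ℝ) * (((6 : ℕ) : ℝ) - 1) ^ ((2 * m).choose 2) := by
    have : 0 < (50 : ℕ).choose (6 - 1) := Nat.choose_pos (by norm_num)
    positivity
  rw [div_lt_iff₀ hD] at hlt
  have h5 : (((6 : ℕ) : ℝ) - 1) ^ ((2 * m).choose 2) ≤ 25 ^ (m * m) := by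
    have : (((6 : ℕ) : ℝ) - 1) = 5 := by norm_num
    rw [this]
    calc (5 : ℝ) ^ ((2 * m).choose 2) ≤ 5 ^ (2 * (m * m)) := pow_le_pow_right₀ (by norm_num) hch
      _ = 25 ^ (m * m) := by rw [pow_mul]; norm_num
  have hcR := (Nat.cast_le (α := ℝ)).2 hc
  rw [Nat.cast_pow] at hcR
  have hch5 : ((50 : ℕ).choose (6 - 1) : ℝ) = 2118760 := by
    have : (50 : ℕ).choose (6 - 1) = 2118760 := by decide +kernel
    rw [this]; norm_num
  have h6 : (50 : ℝ) ^ (m * m) < 2 * (2118760 * 25 ^ (m * m)) := by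
    refine lt_of_le_of_lt (by simpa using hcR) (lt_of_lt_of_le hlt ?_)
    rw [hch5]
    have := mul_le_mul_of_nonneg_left h5 (show (0 : ℝ) ≤ 2118760 by norm_num)
    linarith
  have h7 : (50 : ℝ) ^ (m * m) = 2 ^ (m * m) * 25 ^ (m * m) := by
    rw [← mul_pow]; norm_num
  rw [h7] at h6
  have h8 : (2 : ℝ) ^ 25 ≤ 2 ^ (m * m) := pow_le_pow_right₀ (by norm_num) (by nlinarith)
  have h9 : (0 : ℝ) < 25 ^ (m * m) := by positivity
  have h10 : (2 : ℝ) ^ (m * m) < 2 * 2118760 := by
    by_contra hcon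
    push Not at hcon
    have := mul_le_mul_of_nonneg_right hcon h9.le
    linarith
  norm_num at h8
  linarith

end Pool.Agent.S07114
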