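import Pool.Statements.S07160

set_option autoImplicit false
open Pool Pool.MP_0cd801_co

namespace Pool.Agent.S07160

/-- the out-neighbours in a 3-diregular oriented graph on 13 vertices without Hamilton cycle -/
def nb : ℕ → List ℕ
  | 0 => [4, 5, 8]
  | 1 => [0, 3, 4]
  | 2 => [3, 6, 10]
  | 3 => [5, 9, 12]
  | 4 => [7, 9, 11]
  | 5 => [2, 8, 9]
  | 6 => [1, 4, 10]
  | 7 => [0, 10, 11]
  | 8 => [2, 6, 12]
  | 9 => [7, 8, 12]
  | 10 => [1, 3, 11]
  | 11 => [0, 1, 6]
  | 12 => [2, 5, 7]
  | _ => []

/-- is there a path with `k` further vertices, starting at `v` and avoiding the vertices of the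
mask `m`, whose last vertex is joined to `0`? -/
def go : ℕ → ℕ → ℕ → Bool
  | 0, v, _ => (nb v).contains 0
  | k + 1, v, m => (nb v).any (fun w => !(m.testBit w) && go k w (m ||| (1 <<< w)))

theorem go_false : go 12 0 1 = false := by decide +kernel

theorem go_true (x : ℕ → ℕ) (hinj : ∀ i j, i < 13 → j < 13 → x i = x j → i = j)
    (harc : ∀ i, i < 12 → x (i + 1) ∈ nb (x i)) (hlast : 0 ∈ nb (x 12)) :
    ∀ k i : ℕ, i + k = 12 → ∀ m : ℕ, (∀ w, m.testBit w = true ↔ ∃ j, j ≤ i ∧ x j = w) →
      go k (x i) m = true := by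
  intro k
  induction k with
  | zero =>
    intro i hi m _
    have : i = 12 := by omega
    subst this
    simp only [go, List.contains_iff_mem]
    exact hlast
  | succ k ih =>
    intro i hi m hm
    simp only [go, List.any_eq_true]
    refine ⟨x (i + 1), harc i (by omega), ?_⟩
    rw [Bool.and_eq_true]
    constructor
    · rw [Bool.not_eq_true', ← Bool.not_eq_true]
      intro h
      obtain ⟨j, hj, hj'⟩ := (hm _).1 h
      have := hinj j (i + 1) (by omega) (by omega) hj'
      omega
    · apply ih (i + 1) (by omega)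
      intro w
      rw [Nat.testBit_or, Bool.or_eq_true, hm, Nat.one_shiftLeft, Nat.testBit_two_pow]
      simp only [decide_eq_true_eq]
      constructor
      · rintro (⟨j, hj, hj'⟩ | h)
        · exact ⟨j, by omega, hj'⟩
        · exact ⟨i + 1, le_rfl, h⟩
      · rintro ⟨j, hj, hj'⟩
        by_cases c : j ≤ i
        · exact Or.inl ⟨j, c, hj'⟩
        · right
          rw [← hj']
          congr 1
          omega

def G : Digraph (Fin 13) := ⟨fun u v => (v : ℕ) ∈ nb (u : ℕ)⟩

theorem out_card : ∀ v : Fin 13,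
    (Finset.univ.filter (fun u : Fin 13 => (u : ℕ) ∈ nb (v : ℕ))).card = 3 := by decide

theorem in_card : ∀ v : Fin 13,
    (Finset.univ.filter (fun u : Fin 13 => (v : ℕ) ∈ nb (u : ℕ))).card = 3 := by decide

theorem no_ham : ¬ ∃ f : Fin 13 → Fin 13, Function.Bijective f ∧
    ∀ i j : Fin 13, j.val = (i.val + 1) % 13 → G.Adj (f i) (f j) := by
  rintro ⟨f, hf, harc⟩
  obtain ⟨i0, hi0⟩ := hf.2 0
  let x : ℕ → ℕ := fun k => (f ⟨(i0.val + k) % 13, Nat.mod_lt _ (by norm_num)⟩ : Fin 13).val
  have hx0 : x 0 = 0 := by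
    show (f ⟨(i0.val + 0) % 13, _⟩ : Fin 13).val = 0
    have : (⟨(i0.val + 0) % 13, Nat.mod_lt _ (by norm_num)⟩ : Fin 13) = i0 := by
      apply Fin.ext
      show (i0.val + 0) % 13 = i0.val
      have := i0.isLt
      omega
    rw [this, hi0]
    rfl
  have harc' : ∀ k, x (k + 1) ∈ nb (x k) := by
    intro k
    exact harc ⟨(i0.val + k) % 13, Nat.mod_lt _ (by norm_num)⟩
      ⟨(i0.val + (k + 1)) % 13, Nat.mod_lt _ (by norm_num)⟩ (by
        show (i0.val + (k + 1)) % 13 = ((i0.val + k) % 13 + 1) % 13
        omega)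
  have hinj : ∀ i j, i < 13 → j < 13 → x i = x j → i = j := by
    intro i j hi hj h
    have h1 := hf.1 (Fin.ext h)
    have h2 := congrArg Fin.val h1
    simp only at h2
    omega
  have hlast : 0 ∈ nb (x 12) := by
    have h := harc' 12
    have h13 : x (12 + 1) = 0 := by
      rw [← hx0]
      show (f ⟨(i0.val + (12 + 1)) % 13, _⟩ : Fin 13).val = (f ⟨(i0.val + 0) % 13, _⟩ : Fin 13).val
      congr 2
      apply Fin.ext
      show (i0.val + (12 + 1)) % 13 = (i0.val + 0) % 13
      omega
    rw [h13] at h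
    exact h
  have h1 := go_true x hinj (fun i _ => harc' i) hlast 12 0 rfl 1 (by
    intro w
    rw [Nat.testBit_one_eq_true_iff_self_eq_zero]
    constructor
    · intro h
      exact ⟨0, le_rfl, by rw [hx0, h]⟩
    · rintro ⟨j, hj, hj'⟩
      have : j = 0 := by omega
      rw [this, hx0] at hj'
      exact hj'.symm)
  rw [hx0, go_false] at h1
  exact absurd h1 (by decide)

/-- The negation of the preceding statement: For every d > 2 and n ≤ 4d+1, every oriented graph on n vertices in which each vertex has in-degree d and out-degree d has a directed Hamilton cycle, i.e. a cyclic ordering of all n vertices with an arc from each vertex to the next. -/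
theorem result :
    ¬ (∀ (d n : ℕ), 2 < d → n ≤ 4 * d + 1 →
      ∀ G : Digraph (Fin n),
        (∀ u v : Fin n, G.Adj u v → ¬ G.Adj v u) →
        (∀ v : Fin n, Set.ncard {u : Fin n | G.Adj v u} = d) →
        (∀ v : Fin n, Set.ncard {u : Fin n | G.Adj u v} = d) →
        ∃ f : Fin n → Fin n, Function.Bijective f ∧
          ∀ i j : Fin n, j.val = (i.val + 1) % n → G.Adj (f i) (f j)) := by
  intro H
  apply no_ham
  apply H 3 13 (by norm_num) (by norm_num) G
  · show ∀ u v : Fin 13, (v : ℕ) ∈ nb (u : ℕ) → ¬ (u : ℕ) ∈ nb (v : ℕ)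
    decide
  · intro v
    have h := out_card v
    rw [← Set.ncard_coe_finset] at h
    rw [← h]
    congr 1
    ext u
    simp [G]
  · intro v
    have h := in_card v
    rw [← Set.ncard_coe_finset] at h
    rw [← h]
    congr 1
    ext u
    simp [G]

end Pool.Agent.S07160
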