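import Pool.Statements.S07181
import Pool.Agent.Helper635.LLL

set_option autoImplicit false
open Pool Pool.MP_0dd31c_co

namespace Pool.Agent.S07181

open Pool.Agent.Helper635.LLL in
open Classical in
theorem count_agree {T : Type} [Fintype T] (S : Finset T) (g : T → Bool) :
    cnt (fun ω : T → Bool => ∀ t ∈ S, ω t = g t) * 2 ^ S.card = 2 ^ Fintype.card T := by
  have h1 : ev (fun ω : T → Bool => ∀ t ∈ S, ω t = g t)
      = Fintype.piFinset (fun t => if t ∈ S then {g t} else (Finset.univ : Finset Bool)) := by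
    ext ω
    rw [mem_ev]
    simp only [Fintype.mem_piFinset]
    constructor
    · intro h t
      by_cases ht : t ∈ S
      · simp [ht, h t ht]
      · simp [ht]
    · intro h t ht
      have := h t
      simpa [ht] using this
  rw [cnt, h1, Fintype.card_piFinset]
  have h2 : (2 : ℕ) ^ S.card = ∏ t : T, (if t ∈ S then 2 else 1) := by
    rw [Finset.prod_ite_mem, Finset.univ_inter, Finset.prod_const]
  rw [h2, ← Finset.prod_mul_distrib]
  have h3 : ∀ t : T, (if t ∈ S then ({g t} : Finset Bool) else Finset.univ).card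
      * (if t ∈ S then 2 else 1) = 2 := by
    intro t
    by_cases ht : t ∈ S <;> simp [ht]
  rw [Finset.prod_congr rfl (fun t _ => h3 t), Finset.prod_const, Finset.card_univ]

theorem card_fun_bool (k : ℕ) (inst : Fintype (Fin k → Bool)) :
    @Fintype.card (Fin k → Bool) inst = 2 ^ k := by
  have h : @Fintype.card (Fin k → Bool) inst = Nat.card (Fin k → Bool) :=
    (@Nat.card_eq_fintype_card (Fin k → Bool) inst).symm
  rw [h, Nat.card_fun, Nat.card_eq_fintype_card, Nat.card_eq_fintype_card, Fintype.card_bool,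
    Fintype.card_fin]

open Pool.Agent.Helper635.LLL hiding DependsOn

theorem exists_idx (V : Finset ℕ) : ∃ idx : ℕ → ℕ, (∀ x ∈ V, idx x < V.card) ∧
    (∀ x ∈ V, ∀ y ∈ V, idx x = idx y → x = y) ∧ (∀ i < V.card, ∃ x ∈ V, idx x = i) := by
  classical
  refine ⟨fun x => if h : x ∈ V then (V.equivFin ⟨x, h⟩ : ℕ) else 0, ?_, ?_, ?_⟩
  · intro x hx
    simp only [hx, dif_pos]
    exact (V.equivFin ⟨x, hx⟩).2
  · intro x hx y hy h
    simp only [hx, hy, dif_pos] at h
    have := V.equivFin.injective (Fin.ext h)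
    exact congrArg Subtype.val this
  · intro i hi
    refine ⟨(V.equivFin.symm ⟨i, hi⟩ : ℕ), (V.equivFin.symm ⟨i, hi⟩).2, ?_⟩
    simp

/-- value of a bit -/
def bit (b : Bool) : ℕ := if b then 1 else 0

theorem bit_le (b : Bool) : bit b ≤ 1 := by cases b <;> simp [bit]

theorem bit_inj {b b' : Bool} (h : bit b = bit b') : b = b' := by
  cases b <;> cases b' <;> simp [bit] at h ⊢

section
variable (V : Finset ℕ) (idx : ℕ → ℕ)

/-- the red set -/
noncomputable def R (ω : Fin (V.card / 2) → Bool) : Finset ℕ := by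
  classical
  exact V.filter (fun x => ∃ t : Fin (V.card / 2), idx x = 2 * (t : ℕ) + bit (ω t))

theorem mem_R (ω : Fin (V.card / 2) → Bool) (x : ℕ) :
    x ∈ R V idx ω ↔ x ∈ V ∧ ∃ t : Fin (V.card / 2), idx x = 2 * (t : ℕ) + bit (ω t) := by
  unfold R
  rw [Finset.mem_filter]

theorem R_sub (ω : Fin (V.card / 2) → Bool) : R V idx ω ⊆ V := by
  intro x hx
  exact ((mem_R V idx ω x).mp hx).1

theorem R_card (h2 : ∀ x ∈ V, ∀ y ∈ V, idx x = idx y → x = y)
    (h3 : ∀ i < V.card, ∃ x ∈ V, idx x = i) (ω : Fin (V.card / 2) → Bool) :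
    (R V idx ω).card = V.card / 2 := by
  classical
  have e1 : ((R V idx ω).image idx).card = (R V idx ω).card := by
    refine Finset.card_image_of_injOn ?_
    intro x hx y hy hxy
    exact h2 x (R_sub V idx ω hx) y (R_sub V idx ω hy) hxy
  have e2 : (R V idx ω).image idx
      = Finset.univ.image (fun t : Fin (V.card / 2) => 2 * (t : ℕ) + bit (ω t)) := by
    ext i
    simp only [Finset.mem_image, mem_R, Finset.mem_univ, true_and]
    constructor
    · rintro ⟨x, ⟨_, t, ht⟩, rfl⟩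
      exact ⟨t, ht.symm⟩
    · rintro ⟨t, rfl⟩
      have ht := t.2
      have hb := bit_le (ω t)
      obtain ⟨x, hx, hxi⟩ := h3 (2 * (t : ℕ) + bit (ω t)) (by omega)
      exact ⟨x, ⟨hx, t, hxi⟩, hxi⟩
  rw [← e1, e2, Finset.card_image_of_injective, Finset.card_univ, Fintype.card_fin]
  intro t t' htt
  have hb := bit_le (ω t)
  have hb' := bit_le (ω t')
  simp only at htt
  exact Fin.ext (by omega)

/-- the pairs touched by an edge -/
noncomputable def S (A : Finset ℕ) : Finset (Fin (V.card / 2)) := by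
  classical
  exact Finset.univ.filter (fun t => ∃ x ∈ A, idx x / 2 = (t : ℕ))

theorem mem_S (A : Finset ℕ) (t : Fin (V.card / 2)) :
    t ∈ S V idx A ↔ ∃ x ∈ A, idx x / 2 = (t : ℕ) := by
  unfold S
  rw [Finset.mem_filter]
  simp

theorem S_card_le (A : Finset ℕ) : (S V idx A).card ≤ A.card := by
  classical
  have h1 : ((S V idx A).image (fun t : Fin (V.card / 2) => (t : ℕ))).card
      = (S V idx A).card := Finset.card_image_of_injective _ Fin.val_injective
  rw [← h1]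
  refine le_trans (Finset.card_le_card (t := A.image (fun x => idx x / 2)) ?_)
    Finset.card_image_le
  intro i hi
  simp only [Finset.mem_image, mem_S] at hi ⊢
  obtain ⟨t, ⟨x, hx, hxt⟩, rfl⟩ := hi
  exact ⟨x, hx, hxt⟩

/-- the bad event -/
def Bad (A : Finset ℕ) (ω : Fin (V.card / 2) → Bool) : Prop :=
  (∀ x ∈ A, x ∉ R V idx ω) ∨ (∀ x ∈ A, x ∈ R V idx ω)

theorem R_agree (A : Finset ℕ) (ω ω' : Fin (V.card / 2) → Bool)
    (h : ∀ t ∈ S V idx A, ω t = ω' t) (x : ℕ) (hx : x ∈ A) :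
    x ∈ R V idx ω → x ∈ R V idx ω' := by
  rw [mem_R, mem_R]
  rintro ⟨hxV, t, ht⟩
  refine ⟨hxV, t, ?_⟩
  have hb := bit_le (ω t)
  have : t ∈ S V idx A := (mem_S V idx A t).mpr ⟨x, hx, by omega⟩
  rw [← h t this]
  exact ht

theorem Bad_dep (A : Finset ℕ) :
    Pool.Agent.Helper635.LLL.DependsOn (Bad V idx A) (S V idx A) := by
  intro ω ω' h hB
  have h' : ∀ t ∈ S V idx A, ω' t = ω t := fun t ht => (h t ht).symm
  rcases hB with hB | hB
  · left
    intro x hx hxR
    exact hB x hx (R_agree V idx A ω' ω h' x hx hxR)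
  · right
    intro x hx
    exact R_agree V idx A ω ω' h x hx (hB x hx)

variable (h1 : ∀ x ∈ V, idx x < V.card) (h2 : ∀ x ∈ V, ∀ y ∈ V, idx x = idx y → x = y)

include h1 in
/-- an edge whose elements lie in distinct pairs touches at least `n - 1` pairs -/
theorem S_card_ge (A : Finset ℕ) (hA : A ⊆ V)
    (hinj : ∀ x ∈ A, ∀ y ∈ A, idx x / 2 = idx y / 2 → x = y) :
    A.card ≤ (S V idx A).card + 1 := by
  classical
  have e1 : (A.image (fun x => idx x / 2)).card = A.card :=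
    Finset.card_image_of_injOn (fun x hx y hy h => hinj x hx y hy h)
  rw [← e1]
  refine le_trans (Finset.card_le_card (t := insert (V.card / 2)
    ((S V idx A).image (fun t : Fin (V.card / 2) => (t : ℕ)))) ?_) ?_
  · intro i hi
    rw [Finset.mem_image] at hi
    obtain ⟨x, hx, rfl⟩ := hi
    by_cases hlt : idx x / 2 < V.card / 2
    · refine Finset.mem_insert_of_mem (Finset.mem_image.mpr ⟨⟨idx x / 2, hlt⟩, ?_, rfl⟩)
      exact (mem_S V idx A _).mpr ⟨x, hx, rfl⟩
    · have := h1 x (hA hx)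
      have : idx x / 2 = V.card / 2 := by omega
      rw [this]
      exact Finset.mem_insert_self _ _
  · refine le_trans (Finset.card_insert_le _ _) ?_
    exact Nat.add_le_add_right Finset.card_image_le 1

include h1 h2 in
theorem inj_of_none (A : Finset ℕ) (hA : A ⊆ V) (ω : Fin (V.card / 2) → Bool)
    (h : ∀ x ∈ A, x ∉ R V idx ω) :
    ∀ x ∈ A, ∀ y ∈ A, idx x / 2 = idx y / 2 → x = y := by
  intro x hx y hy hxy
  by_contra hne
  have hne' : idx x ≠ idx y := fun he => hne (h2 x (hA hx) y (hA hy) he)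
  have hlx := h1 x (hA hx)
  have hly := h1 y (hA hy)
  have hlt : idx x / 2 < V.card / 2 := by omega
  have hx' := h x hx
  have hy' := h y hy
  rw [mem_R] at hx' hy'
  have hx2 : idx x ≠ 2 * (idx x / 2) + bit (ω ⟨idx x / 2, hlt⟩) := fun he =>
    hx' ⟨hA hx, ⟨idx x / 2, hlt⟩, he⟩
  have hy2 : idx y ≠ 2 * (idx x / 2) + bit (ω ⟨idx x / 2, hlt⟩) := fun he =>
    hy' ⟨hA hy, ⟨idx x / 2, hlt⟩, he⟩
  have hb := bit_le (ω ⟨idx x / 2, hlt⟩)
  omega

include h2 in
theorem inj_of_all (A : Finset ℕ) (hA : A ⊆ V) (ω : Fin (V.card / 2) → Bool)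
    (h : ∀ x ∈ A, x ∈ R V idx ω) :
    ∀ x ∈ A, ∀ y ∈ A, idx x / 2 = idx y / 2 → x = y := by
  intro x hx y hy hxy
  have hx' := h x hx
  have hy' := h y hy
  rw [mem_R] at hx' hy'
  obtain ⟨_, t, ht⟩ := hx'
  obtain ⟨_, s, hs⟩ := hy'
  have hb := bit_le (ω t)
  have hb' := bit_le (ω s)
  have hts : t = s := Fin.ext (by omega)
  subst hts
  exact h2 x (hA hx) y (hA hy) (by omega)

theorem agree_of_none (A : Finset ℕ) (hA : A ⊆ V) (ω ω' : Fin (V.card / 2) → Bool)
    (h : ∀ x ∈ A, x ∉ R V idx ω) (h' : ∀ x ∈ A, x ∉ R V idx ω') :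
    ∀ t ∈ S V idx A, ω t = ω' t := by
  intro t ht
  obtain ⟨x, hx, hxt⟩ := (mem_S V idx A t).mp ht
  have e := h x hx
  have e' := h' x hx
  rw [mem_R] at e e'
  have e2 : idx x ≠ 2 * (t : ℕ) + bit (ω t) := fun he => e ⟨hA hx, t, he⟩
  have e2' : idx x ≠ 2 * (t : ℕ) + bit (ω' t) := fun he => e' ⟨hA hx, t, he⟩
  have hb := bit_le (ω t)
  have hb' := bit_le (ω' t)
  exact bit_inj (by omega)

theorem agree_of_all (A : Finset ℕ) (ω ω' : Fin (V.card / 2) → Bool)
    (h : ∀ x ∈ A, x ∈ R V idx ω) (h' : ∀ x ∈ A, x ∈ R V idx ω') :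
    ∀ t ∈ S V idx A, ω t = ω' t := by
  intro t ht
  obtain ⟨x, hx, hxt⟩ := (mem_S V idx A t).mp ht
  have e := h x hx
  have e' := h' x hx
  rw [mem_R] at e e'
  obtain ⟨_, s, hs⟩ := e
  obtain ⟨_, s', hs'⟩ := e'
  have hb := bit_le (ω s)
  have hb' := bit_le (ω' s')
  have h3 : s = t := Fin.ext (by omega)
  have h4 : s' = t := Fin.ext (by omega)
  subst h3
  subst h4
  exact bit_inj (by omega)

theorem cnt_of_agree (A : Finset ℕ) (n : ℕ) (P : (Fin (V.card / 2) → Bool) → Prop)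
    (hn : ∀ ω, P ω → n ≤ (S V idx A).card + 1)
    (hP : ∀ ω ω', P ω → P ω' → ∀ t ∈ S V idx A, ω t = ω' t) :
    cnt P * 2 ^ n ≤ 2 * 2 ^ (V.card / 2) := by
  classical
  by_cases hex : ∃ ω, P ω
  · obtain ⟨ω0, h0⟩ := hex
    have hle : cnt P ≤ cnt (fun ω : Fin (V.card / 2) → Bool =>
        ∀ t ∈ S V idx A, ω t = ω0 t) := cnt_mono (fun ω hω => hP ω ω0 hω h0)
    have hc := count_agree (S V idx A) ω0
    rw [Fintype.card_fin] at hc
    have hpow : 2 ^ n ≤ 2 * 2 ^ (S V idx A).card := by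
      rw [← pow_succ']
      exact Nat.pow_le_pow_right (by norm_num) (hn ω0 h0)
    calc cnt P * 2 ^ n ≤ cnt (fun ω : Fin (V.card / 2) → Bool =>
        ∀ t ∈ S V idx A, ω t = ω0 t) * (2 * 2 ^ (S V idx A).card) :=
          Nat.mul_le_mul hle hpow
      _ = 2 * (cnt (fun ω : Fin (V.card / 2) → Bool =>
        ∀ t ∈ S V idx A, ω t = ω0 t) * 2 ^ (S V idx A).card) := by ring
      _ = 2 * 2 ^ (V.card / 2) := by rw [hc]
  · have : cnt P = 0 := by
      unfold cnt
      rw [Finset.card_eq_zero]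
      ext ω
      rw [mem_ev]
      simp only [Finset.notMem_empty, iff_false]
      exact fun h => hex ⟨ω, h⟩
    rw [this]
    simp

include h1 h2 in
theorem cnt_bad (A : Finset ℕ) (hA : A ⊆ V) (n : ℕ) (hn : A.card = n) :
    cnt (Bad V idx A) * 2 ^ n ≤ 4 * 2 ^ (V.card / 2) := by
  classical
  have e1 := cnt_of_agree V idx A n (fun ω => ∀ x ∈ A, x ∉ R V idx ω)
    (fun ω hω => by
      rw [← hn]
      exact S_card_ge V idx h1 A hA (inj_of_none V idx h1 h2 A hA ω hω))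
    (fun ω ω' h h' => agree_of_none V idx A hA ω ω' h h')
  have e2 := cnt_of_agree V idx A n (fun ω => ∀ x ∈ A, x ∈ R V idx ω)
    (fun ω hω => by
      rw [← hn]
      exact S_card_ge V idx h1 A hA (inj_of_all V idx h2 A hA ω hω))
    (fun ω ω' h h' => agree_of_all V idx A ω ω' h h')
  have e3 : cnt (Bad V idx A) ≤ cnt (fun ω => ∀ x ∈ A, x ∉ R V idx ω)
      + cnt (fun ω => ∀ x ∈ A, x ∈ R V idx ω) := by
    unfold cnt
    refine le_trans (Finset.card_le_card ?_) (Finset.card_union_le _ _)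
    intro ω hω
    rw [mem_ev] at hω
    rw [Finset.mem_union, mem_ev, mem_ev]
    exact hω
  calc cnt (Bad V idx A) * 2 ^ n ≤ (cnt (fun ω => ∀ x ∈ A, x ∉ R V idx ω)
      + cnt (fun ω => ∀ x ∈ A, x ∈ R V idx ω)) * 2 ^ n := Nat.mul_le_mul_right _ e3
    _ = cnt (fun ω => ∀ x ∈ A, x ∉ R V idx ω) * 2 ^ n
      + cnt (fun ω => ∀ x ∈ A, x ∈ R V idx ω) * 2 ^ n := by ring
    _ ≤ 2 * 2 ^ (V.card / 2) + 2 * 2 ^ (V.card / 2) := Nat.add_le_add e1 e2
    _ = 4 * 2 ^ (V.card / 2) := by ring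

include h2 in
open Classical in
theorem deg_bound (F : Finset (Finset ℕ)) (hF : ∀ A ∈ F, A ⊆ V) (D : ℝ) (hD0 : 0 ≤ D)
    (hD : ∀ v : ℕ, ((F.filter (fun A => v ∈ A)).card : ℝ) ≤ D) (A : Finset ℕ)
    (n : ℕ) (hn : A.card = n) :
    ((F.filter (fun j => ¬ Disjoint (S V idx A) (S V idx j))).card : ℝ) ≤ 2 * n * D := by
  set P : Finset ℕ := V.filter (fun x => ∃ t ∈ S V idx A, idx x / 2 = ((t : Fin (V.card / 2)) : ℕ))
    with hP
  have hPcard : P.card ≤ 2 * n := by
    have e1 : (P.image idx).card = P.card := by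
      refine Finset.card_image_of_injOn ?_
      intro x hx y hy hxy
      exact h2 x (Finset.mem_filter.mp hx).1 y (Finset.mem_filter.mp hy).1 hxy
    rw [← e1]
    have hsub : P.image idx ⊆ (S V idx A).biUnion
        (fun t : Fin (V.card / 2) => ({2 * (t : ℕ), 2 * (t : ℕ) + 1} : Finset ℕ)) := by
      intro i hi
      rw [Finset.mem_image] at hi
      obtain ⟨x, hx, rfl⟩ := hi
      obtain ⟨_, t, ht, htx⟩ := Finset.mem_filter.mp hx
      rw [Finset.mem_biUnion]
      refine ⟨t, ht, ?_⟩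
      rw [Finset.mem_insert, Finset.mem_singleton]
      omega
    refine le_trans (Finset.card_le_card hsub) (le_trans Finset.card_biUnion_le ?_)
    refine le_trans (Finset.sum_le_sum (fun t _ => Finset.card_le_two)) ?_
    rw [Finset.sum_const, smul_eq_mul]
    have := S_card_le V idx A
    omega
  have hsub : F.filter (fun j => ¬ Disjoint (S V idx A) (S V idx j))
      ⊆ P.biUnion (fun v => F.filter (fun B => v ∈ B)) := by
    intro B hB
    obtain ⟨hBF, hnd⟩ := Finset.mem_filter.mp hB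
    rw [Finset.not_disjoint_iff] at hnd
    obtain ⟨t, htA, htB⟩ := hnd
    obtain ⟨x, hx, hxt⟩ := (mem_S V idx B t).mp htB
    rw [Finset.mem_biUnion]
    refine ⟨x, Finset.mem_filter.mpr ⟨hF B hBF hx, t, htA, hxt⟩, Finset.mem_filter.mpr ⟨hBF, hx⟩⟩
  have hle : ((F.filter (fun j => ¬ Disjoint (S V idx A) (S V idx j))).card : ℝ)
      ≤ ∑ v ∈ P, ((F.filter (fun B => v ∈ B)).card : ℝ) := by
    have := (Finset.card_le_card hsub).trans Finset.card_biUnion_le
    exact_mod_cast this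
  refine hle.trans ?_
  refine (Finset.sum_le_sum (fun v _ => hD v)).trans ?_
  rw [Finset.sum_const, nsmul_eq_mul]
  have : (P.card : ℝ) ≤ 2 * n := by exact_mod_cast hPcard
  exact mul_le_mul_of_nonneg_right this hD0

end

theorem main_n (c : ℝ) (hc : 1 < c) (n : ℕ) (hn1 : 1 ≤ n)
    (hbig : 32 * ((n : ℝ) * (c / 2) ^ n) ≤ 1) (F : Finset (Finset ℕ))
    (hunif : ∀ A ∈ F, A.card = n)
    (hdeg : ∀ v : ℕ, ((F.filter (fun A => v ∈ A)).card : ℝ) ≤ c ^ n) :
    ∃ R : Finset ℕ, R ⊆ F.biUnion id ∧ R.card = (F.biUnion id).card / 2 ∧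
      ∀ A ∈ F, (A ∩ R).Nonempty ∧ ¬ A ⊆ R := by
  classical
  obtain ⟨V, hV⟩ : ∃ V, V = F.biUnion id := ⟨_, rfl⟩
  rw [← hV]
  have hsub : ∀ A ∈ F, A ⊆ V := fun A hA => by
    rw [hV]
    exact Finset.subset_biUnion_of_mem id hA
  obtain ⟨idx, h1, h2, h3⟩ := exists_idx V
  have hcn : 1 ≤ c ^ n := one_le_pow₀ hc.le
  have hn1' : (1 : ℝ) ≤ n := by exact_mod_cast hn1
  set d : ℕ := ⌊2 * (n : ℝ) * c ^ n⌋₊ with hd
  have hdle : (d : ℝ) ≤ 2 * n * c ^ n := Nat.floor_le (by positivity)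
  have hd1 : 1 ≤ d := by
    refine Nat.le_floor ?_
    push_cast
    nlinarith
  have h2n : (0 : ℝ) < 2 ^ n := by positivity
  have hcnt : ∀ A ∈ F, (cnt (Bad V idx A) : ℝ)
      ≤ (4 / 2 ^ n) * (2 : ℝ) ^ (V.card / 2) := by
    intro A hA
    have := cnt_bad V idx h1 h2 A (hsub A hA) n (hunif A hA)
    have h' : (cnt (Bad V idx A) : ℝ) * 2 ^ n ≤ 4 * 2 ^ (V.card / 2) := by exact_mod_cast this
    rw [div_mul_eq_mul_div, le_div_iff₀ h2n]
    exact h'
  have hdeg' : ∀ A ∈ F, (F.filter (fun j => ¬ Disjoint (S V idx A) (S V idx j))).card ≤ d := by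
    intro A hA
    refine Nat.le_floor ?_
    exact deg_bound V idx h2 F hsub (c ^ n) (by positivity) hdeg A n (hunif A hA)
  have h4 : 4 * (4 / 2 ^ n : ℝ) * d ≤ 1 := by
    have hdn : (4 : ℝ) * (4 / 2 ^ n) * d ≤ 4 * (4 / 2 ^ n) * (2 * n * c ^ n) :=
      mul_le_mul_of_nonneg_left hdle (by positivity)
    refine hdn.trans ?_
    have : 4 * (4 / 2 ^ n) * (2 * (n : ℝ) * c ^ n) = 32 * ((n : ℝ) * (c / 2) ^ n) := by
      rw [div_pow]
      ring
    rw [this]
    exact hbig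
  have hp0 : (0 : ℝ) ≤ 4 / 2 ^ n := by positivity
  have hlll := lll F (Bad V idx) (S V idx) (fun A _ => Bad_dep V idx A) (4 / 2 ^ n) d hp0
  rw [card_fun_bool] at hlll
  obtain ⟨ω, hω⟩ := hlll (by push_cast; exact hcnt) (by convert hdeg') h4 hd1 (by positivity)
  refine ⟨R V idx ω, R_sub V idx ω, R_card V idx h2 h3 ω, ?_⟩
  intro A hA
  have hb := hω A hA
  unfold Bad at hb
  push Not at hb
  obtain ⟨⟨x, hx, hxR⟩, ⟨y, hy, hyR⟩⟩ := hb
  exact ⟨⟨x, Finset.mem_inter.mpr ⟨hx, hxR⟩⟩, fun h => hyR (h hy)⟩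

/-- For every c in (1,2) there is n0 such that for n ≥ n0 every n-uniform finite hypergraph with all degrees at most c^n has a red set of exactly half (floor) of its vertices such that no edge is all red or all blue. -/
theorem result :
    ∀ c : ℝ, 1 < c → c < 2 →
      ∃ n₀ : ℕ, ∀ n : ℕ, n₀ ≤ n →
        ∀ F : Finset (Finset ℕ),
          (∀ A ∈ F, A.card = n) →
          (∀ v : ℕ, ((F.filter (fun A => v ∈ A)).card : ℝ) ≤ c ^ n) →
          ∃ R : Finset ℕ, R ⊆ F.biUnion id ∧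
            R.card = (F.biUnion id).card / 2 ∧
            ∀ A ∈ F, (A ∩ R).Nonempty ∧ ¬ A ⊆ R := by
  intro c hc1 hc2
  have ht := tendsto_self_mul_const_pow_of_lt_one (r := c / 2) (by linarith) (by linarith)
  have hev := ht.eventually (ge_mem_nhds (show (0 : ℝ) < 1 / 32 by norm_num))
  obtain ⟨n₁, hn₁⟩ := Filter.eventually_atTop.mp hev
  refine ⟨max n₁ 1, fun n hn F hunif hdeg => ?_⟩
  refine main_n c hc1 n (le_trans (le_max_right _ _) hn) ?_ F hunif hdeg
  have := hn₁ n (le_trans (le_max_left _ _) hn)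
  linarith

end Pool.Agent.S07181
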