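import Pool.Statements.S07316

set_option autoImplicit false
open Pool Pool.MP_150b74_co

namespace Pool.Agent.S07316

open Finset

/-! ### A random graph colouring without large monochromatic cliques (Erdős) -/

/-- if `m ^ t * 2 < 2 ^ (t choose 2)` there is a 2-colouring of the pairs of `Fin m` without
monochromatic clique of size `t` -/
lemma erdos (m t : ℕ) (h : m ^ t * 2 < 2 ^ (t.choose 2)) :
    ∃ φ : Fin m × Fin m → Bool, ∀ S : Finset (Fin m), S.card = t → ∀ b : Bool,
      ∃ i ∈ S, ∃ j ∈ S, i < j ∧ φ (i, j) ≠ b := by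
  classical
  by_contra hcon
  push Not at hcon
  -- the pairs of `S`
  let P : Finset (Fin m) → Finset (Fin m × Fin m) := fun S =>
    (S ×ˢ S).filter (fun p => p.1 < p.2)
  have hP : ∀ S : Finset (Fin m), S.card = t → (P S).card = t.choose 2 := by
    intro S hS
    have h1 : (P S).card = S.card.choose 2 := by
      have h2 : (S.powersetCard 2).card = (P S).card := by
        symm
        refine Finset.card_bij (fun p _ => ({p.1, p.2} : Finset (Fin m))) ?_ ?_ ?_
        · rintro ⟨a, b⟩ hab
          simp only [P, mem_filter, mem_product] at hab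
          rw [mem_powersetCard]
          refine ⟨?_, Finset.card_pair hab.2.ne⟩
          intro x hx
          simp only [mem_insert, mem_singleton] at hx
          rcases hx with rfl | rfl
          · exact hab.1.1
          · exact hab.1.2
        · rintro ⟨a, b⟩ hab ⟨a', b'⟩ hab' heq
          simp only [P, mem_filter, mem_product] at hab hab'
          have h3 : a = a' ∨ a = b' := by
            have : a ∈ ({a', b'} : Finset (Fin m)) := by
              rw [← heq]; simp
            simpa using this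
          have h4 : b = a' ∨ b = b' := by
            have : b ∈ ({a', b'} : Finset (Fin m)) := by
              rw [← heq]; simp
            simpa using this
          have hlt := hab.2
          have hlt' := hab'.2
          rcases h3 with rfl | rfl
          · rcases h4 with rfl | rfl
            · exact absurd hlt (lt_irrefl _)
            · rfl
          · rcases h4 with rfl | rfl
            · exact absurd (hlt.trans hlt') (lt_irrefl _)
            · exact absurd hlt (lt_irrefl _)
        · intro s hs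
          rw [mem_powersetCard] at hs
          obtain ⟨a, b, hne, rfl⟩ := Finset.card_eq_two.1 hs.2
          have ha : a ∈ S := hs.1 (by simp)
          have hb : b ∈ S := hs.1 (by simp)
          rcases lt_or_gt_of_ne hne with hl | hl
          · exact ⟨(a, b), by simp [P, ha, hb, hl], rfl⟩
          · exact ⟨(b, a), by simp [P, ha, hb, hl], by simp [Finset.pair_comm]⟩
      rw [← h2, Finset.card_powersetCard]
    rw [h1, hS]
  -- bad colourings
  let B : Finset (Fin m) × Bool → Finset (Fin m × Fin m → Bool) := fun q =>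
    Fintype.piFinset (fun p => if p ∈ P q.1 then {q.2} else univ)
  have hB : ∀ S : Finset (Fin m), S.card = t → ∀ b, (B (S, b)).card * 2 ^ (t.choose 2) =
      Fintype.card (Fin m × Fin m → Bool) := by
    intro S hS b
    have h1 : (B (S, b)).card = ∏ p : Fin m × Fin m, (if p ∈ P S then 1 else 2) := by
      simp only [B]
      rw [Fintype.card_piFinset]
      refine Finset.prod_congr rfl fun p _ => ?_
      split_ifs <;> simp
    rw [h1, ← hP S hS, Fintype.card_fun, Fintype.card_bool]
    have h2 : (2 : ℕ) ^ (P S).card = ∏ p : Fin m × Fin m, (if p ∈ P S then 2 else 1) := by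
      rw [Finset.prod_ite_mem, Finset.univ_inter, Finset.prod_const]
    rw [h2, ← Finset.prod_mul_distrib]
    have h3 : ∀ p : Fin m × Fin m, (if p ∈ P S then 1 else 2) * (if p ∈ P S then 2 else 1) = 2 := by
      intro p; split_ifs <;> rfl
    rw [Finset.prod_congr rfl fun p _ => h3 p, Finset.prod_const, Finset.card_univ]
  have hcover : (univ : Finset (Fin m × Fin m → Bool)) ⊆
      ((univ.powersetCard t) ×ˢ (univ : Finset Bool)).biUnion B := by
    intro φ _
    obtain ⟨S, hS, b, hb⟩ := hcon φ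
    rw [mem_biUnion]
    refine ⟨(S, b), ?_, ?_⟩
    · rw [mem_product, mem_powersetCard]
      exact ⟨⟨subset_univ _, hS⟩, mem_univ _⟩
    · simp only [B]
      rw [Fintype.mem_piFinset]
      intro p
      split_ifs with hp
      · simp only [P, mem_filter, mem_product] at hp
        rw [mem_singleton]
        exact hb p.1 hp.1.1 p.2 hp.1.2 hp.2
      · exact mem_univ _
  have h1 := Finset.card_le_card hcover
  have h2 := h1.trans Finset.card_biUnion_le
  rw [Finset.card_univ] at h2
  set T := Fintype.card (Fin m × Fin m → Bool) with hT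
  have hTpos : 0 < T := by rw [hT, Fintype.card_fun]; positivity
  have h3 : (∑ q ∈ (univ.powersetCard t) ×ˢ (univ : Finset Bool), (B q).card) * 2 ^ (t.choose 2) ≤
      m ^ t * 2 * T := by
    rw [Finset.sum_mul]
    have h4 : ∀ q ∈ (univ.powersetCard t) ×ˢ (univ : Finset Bool),
        (B q).card * 2 ^ (t.choose 2) = T := by
      rintro ⟨S, b⟩ hq
      rw [mem_product, mem_powersetCard] at hq
      exact hB S hq.1.2 b
    rw [Finset.sum_congr rfl h4, Finset.sum_const, Finset.card_product, Finset.card_powersetCard,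
      smul_eq_mul, Finset.card_univ, Finset.card_univ, Fintype.card_fin, Fintype.card_bool]
    gcongr
    exact Nat.choose_le_pow m t
  have h5 : T * 2 ^ (t.choose 2) ≤ m ^ t * 2 * T := (Nat.mul_le_mul_right _ h2).trans h3
  rw [mul_comm T] at h5
  have h6 := Nat.le_of_mul_le_mul_right h5 hTpos
  omega

/-! ### The separation level of two numbers -/

lemma exists_level (x y : ℕ) : ∃ e : ℕ, x / 2 ^ e = y / 2 ^ e := by
  refine ⟨x + y, ?_⟩
  have h : x + y < 2 ^ (x + y) := Nat.lt_two_pow_self
  rw [Nat.div_eq_of_lt (by omega), Nat.div_eq_of_lt (by omega)]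

/-- the least `e` with `x / 2 ^ e = y / 2 ^ e` -/
def lev (x y : ℕ) : ℕ := Nat.find (exists_level x y)

lemma lev_spec (x y : ℕ) : x / 2 ^ lev x y = y / 2 ^ lev x y := Nat.find_spec (exists_level x y)

lemma div_eq_of_le {x y e f : ℕ} (h : x / 2 ^ e = y / 2 ^ e) (hef : e ≤ f) :
    x / 2 ^ f = y / 2 ^ f := by
  obtain ⟨g, rfl⟩ := Nat.exists_eq_add_of_le hef
  rw [pow_add, ← Nat.div_div_eq_div_mul, ← Nat.div_div_eq_div_mul, h]

lemma lev_le_iff {x y e : ℕ} : lev x y ≤ e ↔ x / 2 ^ e = y / 2 ^ e :=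
  ⟨fun h => div_eq_of_le (lev_spec x y) h, fun h => Nat.find_min' _ h⟩

lemma lev_pos {x y : ℕ} (h : x ≠ y) : 0 < lev x y := by
  by_contra h0
  have h1 : lev x y ≤ 0 := by omega
  rw [lev_le_iff, pow_zero, Nat.div_one, Nat.div_one] at h1
  exact h h1

lemma lev_le {x y L : ℕ} (hx : x < 2 ^ L) (hy : y < 2 ^ L) : lev x y ≤ L := by
  rw [lev_le_iff, Nat.div_eq_of_lt hx, Nat.div_eq_of_lt hy]

lemma lev_max {x y z : ℕ} (hxy : x ≤ y) (hyz : y ≤ z) : lev x z = max (lev x y) (lev y z) := by
  apply le_antisymm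
  · rw [lev_le_iff]
    exact (div_eq_of_le (lev_spec x y) (le_max_left _ _)).trans
      (div_eq_of_le (lev_spec y z) (le_max_right _ _))
  · have h := lev_spec x z
    have h1 : x / 2 ^ lev x z ≤ y / 2 ^ lev x z := Nat.div_le_div_right hxy
    have h2 : y / 2 ^ lev x z ≤ z / 2 ^ lev x z := Nat.div_le_div_right hyz
    apply max_le
    · rw [lev_le_iff]; omega
    · rw [lev_le_iff]; omega

lemma lev_ne {x y z : ℕ} (hxy : x < y) (hyz : y < z) : lev x y ≠ lev y z := by
  intro h
  have hpos := lev_pos hxy.ne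
  obtain ⟨e, he⟩ : ∃ e, lev x y = e + 1 := ⟨lev x y - 1, by omega⟩
  have h1 : ¬ lev x y ≤ e := by omega
  have h2 : ¬ lev y z ≤ e := by omega
  rw [lev_le_iff] at h1 h2
  have h3 : x / 2 ^ (e + 1) = y / 2 ^ (e + 1) := lev_le_iff.1 (by omega)
  have h4 : y / 2 ^ (e + 1) = z / 2 ^ (e + 1) := lev_le_iff.1 (by omega)
  have h5 : x / 2 ^ e ≤ y / 2 ^ e := Nat.div_le_div_right hxy.le
  have h6 : y / 2 ^ e ≤ z / 2 ^ e := Nat.div_le_div_right hyz.le
  rw [pow_succ, ← Nat.div_div_eq_div_mul, ← Nat.div_div_eq_div_mul] at h3 h4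
  omega

/-! ### Stepping up -/

/-- the colour of the triple `x < y < z` -/
def col (ψ : ℕ → ℕ → Bool) (x y z : ℕ) : Fin 5 :=
  if lev x y < lev y z then (if ψ (lev x y) (lev y z) then 0 else 1)
  else (if ψ (lev y z) (lev x y) then 2 else 3)

/-- The colour of a triple given as a set (the colour `4` is not used on triples). -/
noncomputable def colF (ψ : ℕ → ℕ → Bool) {n : ℕ} (e : Finset (Fin n)) : Fin 5 :=
  if h : e.card = 3 then
    col ψ (e.orderEmbOfFin h 0 : Fin n) (e.orderEmbOfFin h 1 : Fin n)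
      (e.orderEmbOfFin h 2 : Fin n)
  else 4

lemma colF_eq (ψ : ℕ → ℕ → Bool) {n : ℕ} {x y z : Fin n} (hxy : x < y) (hyz : y < z) :
    colF ψ ({x, y, z} : Finset (Fin n)) = col ψ x y z := by
  have hc : ({x, y, z} : Finset (Fin n)).card = 3 :=
    Finset.card_eq_three.2 ⟨x, y, z, hxy.ne, (hxy.trans hyz).ne, hyz.ne, rfl⟩
  have hf : ∀ i, ({x, y, z} : Finset (Fin n)).orderEmbOfFin hc i = (![x, y, z] : Fin 3 → Fin n) i := by
    have h1 : (![x, y, z] : Fin 3 → Fin n) = ({x, y, z} : Finset (Fin n)).orderEmbOfFin hc := by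
      apply Finset.orderEmbOfFin_unique
      · intro i
        fin_cases i <;> simp
      · rw [Fin.strictMono_iff_lt_succ]
        intro i
        fin_cases i
        · exact hxy
        · exact hyz
    intro i
    rw [← h1]
  unfold colF
  rw [dif_pos hc, hf 0, hf 1, hf 2]
  rfl

lemma col_ne_four (ψ : ℕ → ℕ → Bool) (x y z : ℕ) : col ψ x y z ≠ 4 := by
  unfold col
  split_ifs <;> decide

/-- a monochromatic set of `k` vertices gives a monochromatic clique with `k - 1` vertices
of levels -/
lemma step {n k : ℕ} (ψ : ℕ → ℕ → Bool) (S : Finset (Fin n)) (hS : k + 1 ≤ S.card)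
    (j : Fin 5) (hmono : ∀ x ∈ S, ∀ y ∈ S, ∀ z ∈ S, x < y → y < z → col ψ x y z = j)
    (L : ℕ) (hn : n ≤ 2 ^ L) :
    ∃ T : Finset ℕ, T.card = k ∧ (∀ a ∈ T, 0 < a ∧ a ≤ L) ∧
      ∃ b : Bool, ∀ a ∈ T, ∀ a' ∈ T, a < a' → ψ a a' = b := by
  classical
  obtain ⟨S', hS', hcard⟩ := Finset.exists_subset_card_eq hS
  set f := S'.orderEmbOfFin hcard with hf
  have hfm : ∀ i, f i ∈ S := fun i => hS' (Finset.orderEmbOfFin_mem _ _ _)
  have hflt : ∀ i j : Fin (k + 1), i < j → f i < f j := fun i j h => f.strictMono h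
  have hL : ∀ i, ((f i : Fin n) : ℕ) < 2 ^ L := fun i => lt_of_lt_of_le (f i).2 hn
  -- the direction
  by_cases hdir : j = 0 ∨ j = 1
  · -- increasing levels
    have hinc : ∀ a b c : Fin (k + 1), a < b → b < c → lev (f a) (f b) < lev (f b) (f c) ∧
        ψ (lev (f a) (f b)) (lev (f b) (f c)) = decide (j = 0) := by
      intro a b c hab hbc
      have h1 := hmono (f a) (hfm a) (f b) (hfm b) (f c) (hfm c) (hflt a b hab) (hflt b c hbc)
      unfold col at h1
      split_ifs at h1 with h2 h3 h4
      · refine ⟨h2, ?_⟩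
        rw [h3, ← h1]; rfl
      · refine ⟨h2, ?_⟩
        rw [Bool.not_eq_true] at h3
        rw [h3, ← h1]; rfl
      · exfalso
        rw [← h1] at hdir
        revert hdir; decide
      · exfalso
        rw [← h1] at hdir
        revert hdir; decide
    have hd : ∀ b c : Fin (k + 1), 0 < b → b < c → lev (f 0) (f b) < lev (f 0) (f c) ∧
        ψ (lev (f 0) (f b)) (lev (f 0) (f c)) = decide (j = 0) := by
      intro b c hb hbc
      obtain ⟨h1, h2⟩ := hinc 0 b c hb hbc
      have h3 : lev (f 0) (f c) = lev (f b) (f c) := by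
        rw [lev_max (Fin.val_le_of_le (hflt 0 b hb).le) (Fin.val_le_of_le (hflt b c hbc).le)]
        exact max_eq_right h1.le
      rw [h3]
      exact ⟨h1, h2⟩
    let g : Fin k → ℕ := fun i => lev (f 0) (f i.succ)
    have hg : StrictMono g := fun a b hab => (hd a.succ b.succ (Fin.succ_pos _)
      (Fin.succ_lt_succ_iff.2 hab)).1
    refine ⟨univ.image g, ?_, ?_, decide (j = 0), ?_⟩
    · rw [Finset.card_image_of_injective _ hg.injective, Finset.card_univ, Fintype.card_fin]
    · intro a ha
      obtain ⟨i, -, rfl⟩ := Finset.mem_image.1 ha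
      refine ⟨lev_pos (fun h => ?_), lev_le (hL _) (hL _)⟩
      have h1 := hflt 0 i.succ (Fin.succ_pos _)
      rw [Fin.lt_def] at h1
      omega
    · intro a ha a' ha' haa
      obtain ⟨i, -, rfl⟩ := Finset.mem_image.1 ha
      obtain ⟨i', -, rfl⟩ := Finset.mem_image.1 ha'
      have hii : i < i' := hg.lt_iff_lt.1 haa
      exact (hd i.succ i'.succ (Fin.succ_pos _) (Fin.succ_lt_succ_iff.2 hii)).2
  · -- decreasing levels
    have hdec : ∀ a b c : Fin (k + 1), a < b → b < c → lev (f b) (f c) < lev (f a) (f b) ∧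
        ψ (lev (f b) (f c)) (lev (f a) (f b)) = decide (j = 2) := by
      intro a b c hab hbc
      have h1 := hmono (f a) (hfm a) (f b) (hfm b) (f c) (hfm c) (hflt a b hab) (hflt b c hbc)
      have hne := lev_ne (Fin.lt_def.1 (hflt a b hab)) (Fin.lt_def.1 (hflt b c hbc))
      unfold col at h1
      split_ifs at h1 with h2 h3 h4
      · exfalso
        rw [← h1] at hdir
        revert hdir; decide
      · exfalso
        rw [← h1] at hdir
        revert hdir; decide
      · refine ⟨by omega, ?_⟩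
        rw [h4, ← h1]; rfl
      · refine ⟨by omega, ?_⟩
        rw [Bool.not_eq_true] at h4
        rw [h4, ← h1]; rfl
    have hd : ∀ a b : Fin (k + 1), a < b → b < Fin.last k →
        lev (f b) (f (Fin.last k)) < lev (f a) (f (Fin.last k)) ∧
        ψ (lev (f b) (f (Fin.last k))) (lev (f a) (f (Fin.last k))) = decide (j = 2) := by
      intro a b hab hb
      obtain ⟨h1, h2⟩ := hdec a b (Fin.last k) hab hb
      have h3 : lev (f a) (f (Fin.last k)) = lev (f a) (f b) := by
        rw [lev_max (Fin.val_le_of_le (hflt a b hab).le) (Fin.val_le_of_le (hflt b _ hb).le)]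
        exact max_eq_left h1.le
      rw [h3]
      exact ⟨h1, h2⟩
    let g : Fin k → ℕ := fun i => lev (f i.castSucc) (f (Fin.last k))
    have hg : StrictAnti g := fun a b hab => (hd a.castSucc b.castSucc
      (Fin.castSucc_lt_castSucc_iff.2 hab) (Fin.castSucc_lt_last _)).1
    refine ⟨univ.image g, ?_, ?_, decide (j = 2), ?_⟩
    · rw [Finset.card_image_of_injective _ hg.injective, Finset.card_univ, Fintype.card_fin]
    · intro a ha
      obtain ⟨i, -, rfl⟩ := Finset.mem_image.1 ha
      refine ⟨lev_pos (fun h => ?_), lev_le (hL _) (hL _)⟩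
      have h1 := hflt i.castSucc (Fin.last k) (Fin.castSucc_lt_last _)
      rw [Fin.lt_def] at h1
      omega
    · intro a ha a' ha' haa
      obtain ⟨i, -, rfl⟩ := Finset.mem_image.1 ha
      obtain ⟨i', -, rfl⟩ := Finset.mem_image.1 ha'
      have hii : i' < i := hg.lt_iff_gt.1 haa
      exact (hd i'.castSucc i.castSucc (Fin.castSucc_lt_castSucc_iff.2 hii)
        (Fin.castSucc_lt_last _)).2

/-- On at most `2 ^ (2 ^ s)` vertices there is a colouring of the triples with the colours
`0, 1, 2, 3` without monochromatic set of `2 s + 4` vertices. -/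
lemma good (s n : ℕ) (hn : n ≤ 2 ^ (2 ^ s)) :
    ∃ ψ : ℕ → ℕ → Bool, ∀ S : Finset (Fin n), 2 * s + 4 ≤ S.card → ∀ j : Fin 5,
      ∃ x ∈ S, ∃ y ∈ S, ∃ z ∈ S, x < y ∧ y < z ∧ col ψ x y z ≠ j := by
  classical
  have hnum : (2 ^ s) ^ (2 * s + 3) * 2 < 2 ^ ((2 * s + 3).choose 2) := by
    rw [← pow_mul, ← pow_succ]
    apply Nat.pow_lt_pow_right (by norm_num)
    rw [Nat.choose_two_right]
    have h1 : (2 * s + 3) * (2 * s + 3 - 1) / 2 = (2 * s + 3) * (s + 1) := by
      have : (2 * s + 3) * (2 * s + 3 - 1) = ((2 * s + 3) * (s + 1)) * 2 := by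
        rw [show 2 * s + 3 - 1 = (s + 1) * 2 by omega]
        ring
      rw [this, Nat.mul_div_cancel _ (by norm_num)]
    rw [h1]
    nlinarith
  obtain ⟨φ, hφ⟩ := erdos (2 ^ s) (2 * s + 3) hnum
  refine ⟨fun a b => if h : a - 1 < 2 ^ s ∧ b - 1 < 2 ^ s then φ (⟨a - 1, h.1⟩, ⟨b - 1, h.2⟩)
    else true, ?_⟩
  intro S hS j
  by_contra hcon
  push Not at hcon
  obtain ⟨T, hT, hT2, b, hb⟩ := step (k := 2 * s + 3) _ S (by omega) j hcon (2 ^ s) hn
  -- shift by one
  have hpos : 0 < 2 ^ s := by positivity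
  let g : ℕ → Fin (2 ^ s) := fun a => if h : a - 1 < 2 ^ s then ⟨a - 1, h⟩ else ⟨0, hpos⟩
  have hgv : ∀ a ∈ T, ((g a : Fin (2 ^ s)) : ℕ) = a - 1 := by
    intro a ha
    have h1 := hT2 a ha
    simp only [g]
    rw [dif_pos (by omega)]
  have hinj : Set.InjOn g T := by
    intro a ha a' ha' h
    have h1 := hgv a ha
    have h2 := hgv a' ha'
    have h3 := hT2 a ha
    have h4 := hT2 a' ha'
    rw [h] at h1
    omega
  obtain ⟨i, hi, i', hi', hlt, hne⟩ := hφ (T.image g) (by rw [Finset.card_image_of_injOn hinj, hT]) b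
  obtain ⟨a, ha, rfl⟩ := Finset.mem_image.1 hi
  obtain ⟨a', ha', rfl⟩ := Finset.mem_image.1 hi'
  apply hne
  have h1 := hgv a ha
  have h2 := hgv a' ha'
  have h3 := hT2 a ha
  have h4 := hT2 a' ha'
  rw [Fin.lt_def, h1, h2] at hlt
  have h5 := hb a ha a' ha' (by omega)
  rw [← h5]
  rw [dif_pos (by omega)]
  congr 1
  rw [Prod.mk.injEq]
  exact ⟨Fin.ext h1, Fin.ext h2⟩

/-- The negation of the preceding statement: For r≥3, q≥2, ε>0 there is D such that for every ρ in [0,1]^q with sum below q−ε, some C gives, for all k≥1, an n with ln n ≤ C·k^D where every q-colouring of r-sets of [n] has an S of size ≥k and colour j with min colour-j degree in S ≥ ρ_j·C(∣S∣−1,r−1). -/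
theorem result :
    ¬ (∀ r q : ℕ, 3 ≤ r → 2 ≤ q → ∀ ε : ℝ, 0 < ε →
      ∃ D : ℝ, ∀ ρ : Fin q → ℝ, (∀ i, 0 ≤ ρ i ∧ ρ i ≤ 1) → ∑ i, ρ i < (q : ℝ) - ε →
        ∃ C : ℝ, ∀ k : ℕ, 1 ≤ k → ∃ n : ℕ, Real.log (n : ℝ) ≤ C * (k : ℝ) ^ D ∧
          ∀ φ : Finset (Fin n) → Fin q, ∃ S : Finset (Fin n), k ≤ S.card ∧ ∃ j : Fin q,
            ∀ v ∈ S, ρ j * (((S.card - 1).choose (r - 1) : ℕ) : ℝ) ≤
              (((S.powersetCard r).filter (fun e => v ∈ e ∧ φ e = j)).card : ℝ)) := by
  intro H
  obtain ⟨D, hD⟩ := H 3 5 (by norm_num) (by norm_num) (1 / 4) (by norm_num)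
  -- all thresholds are one except the last one, which is one half
  obtain ⟨C, hC⟩ := hD (fun i => if i = 4 then 1 / 2 else 1)
    (fun i => by split_ifs <;> norm_num)
    (by
      rw [Fin.sum_univ_five]
      norm_num [Fin.ext_iff])
  -- choice of `s`
  obtain ⟨d, hd⟩ : ∃ d : ℕ, D ≤ d := exists_nat_ge D
  have hlim : Filter.Tendsto (fun s : ℕ => |C| * (6 : ℝ) ^ d * ((s : ℝ) ^ d / 2 ^ s))
      Filter.atTop (nhds (|C| * (6 : ℝ) ^ d * 0)) :=
    (tendsto_pow_const_div_const_pow_of_one_lt d (by norm_num : (1 : ℝ) < 2)).const_mul _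
  rw [mul_zero] at hlim
  have hev := hlim.eventually_lt_const (Real.log_pos (by norm_num : (1 : ℝ) < 2))
  obtain ⟨s, hs, hs1⟩ := (hev.and (Filter.eventually_ge_atTop 1)).exists
  obtain ⟨n, hn, hφ⟩ := hC (2 * s + 4) (by omega)
  -- n is at most 2 ^ 2 ^ s
  have hs1' : (1 : ℝ) ≤ s := by exact_mod_cast hs1
  have hn2 : n ≤ 2 ^ (2 ^ s) := by
    rcases Nat.eq_zero_or_pos n with h0 | h0
    · rw [h0]; exact Nat.zero_le _
    have h0' : (0 : ℝ) < n := by exact_mod_cast h0
    have h1 : ((2 * s + 4 : ℕ) : ℝ) ^ D ≤ (6 : ℝ) ^ d * (s : ℝ) ^ d := by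
      have h2 : (1 : ℝ) ≤ ((2 * s + 4 : ℕ) : ℝ) := by push_cast; linarith
      calc ((2 * s + 4 : ℕ) : ℝ) ^ D ≤ ((2 * s + 4 : ℕ) : ℝ) ^ (d : ℝ) :=
            Real.rpow_le_rpow_of_exponent_le h2 hd
        _ = ((2 * s + 4 : ℕ) : ℝ) ^ d := Real.rpow_natCast _ _
        _ ≤ (6 * s : ℝ) ^ d := by
            gcongr
            push_cast
            linarith
        _ = _ := mul_pow _ _ _
    have h3 : Real.log n ≤ Real.log ((2 : ℝ) ^ (2 ^ s : ℕ)) := by
      rw [Real.log_pow]
      calc Real.log n ≤ C * ((2 * s + 4 : ℕ) : ℝ) ^ D := hn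
        _ ≤ |C| * ((2 * s + 4 : ℕ) : ℝ) ^ D := by
            gcongr
            exact le_abs_self C
        _ ≤ |C| * ((6 : ℝ) ^ d * (s : ℝ) ^ d) := by gcongr
        _ = (|C| * (6 : ℝ) ^ d * ((s : ℝ) ^ d / 2 ^ s)) * 2 ^ s := by field_simp
        _ ≤ Real.log 2 * 2 ^ s := by gcongr
        _ = _ := by push_cast; ring
    have h4 := (Real.log_le_log_iff h0' (by positivity)).1 h3
    exact_mod_cast h4
  obtain ⟨ψ, hψ⟩ := good s n hn2
  obtain ⟨S, hS, j, hj⟩ := hφ (colF ψ)
  obtain ⟨x, hx, y, hy, z, hz, hxy, hyz, hne⟩ := hψ S hS j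
  have hS3 : 3 ≤ S.card := by omega
  have hch : 0 < (S.card - 1).choose (3 - 1) := Nat.choose_pos (by omega)
  have hch' : (0 : ℝ) < (((S.card - 1).choose (3 - 1) : ℕ) : ℝ) := by exact_mod_cast hch
  by_cases hj4 : j = 4
  · -- the last colour is not used
    have h1 := hj x hx
    rw [if_pos hj4] at h1
    have h2 : ((S.powersetCard 3).filter (fun e => x ∈ e ∧ colF ψ e = j)) = ∅ := by
      rw [Finset.filter_eq_empty_iff]
      intro e he
      rw [Finset.mem_powersetCard] at he
      rintro ⟨-, h3⟩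
      unfold colF at h3
      rw [dif_pos he.2, hj4] at h3
      exact col_ne_four _ _ _ _ h3
    rw [h2, Finset.card_empty, Nat.cast_zero] at h1
    linarith
  · -- all triples at `x` have the colour `j`
    have h1 := hj x hx
    rw [if_neg hj4, one_mul] at h1
    have h2 : (S.card - 1).choose (3 - 1) ≤
        ((S.powersetCard 3).filter (fun e => x ∈ e ∧ colF ψ e = j)).card := by exact_mod_cast h1
    -- the triples at `x`
    have h3 : ((S.powersetCard 3).filter (fun e => x ∈ e)).card = (S.card - 1).choose (3 - 1) := by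
      have h4 : ((S.powersetCard 3).filter (fun e => x ∈ e)).card =
          ((S.erase x).powersetCard 2).card := by
        symm
        refine Finset.card_bij (fun e _ => insert x e) ?_ ?_ ?_
        · intro e he
          rw [Finset.mem_powersetCard] at he
          have hxe : x ∉ e := fun h => Finset.notMem_erase x S (he.1 h)
          rw [Finset.mem_filter, Finset.mem_powersetCard]
          refine ⟨⟨?_, by rw [Finset.card_insert_of_notMem hxe, he.2]⟩, Finset.mem_insert_self _ _⟩
          intro a ha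
          rcases Finset.mem_insert.1 ha with rfl | ha
          · exact hx
          · exact Finset.mem_of_mem_erase (he.1 ha)
        · intro e he e' he' heq
          rw [Finset.mem_powersetCard] at he he'
          have hxe : x ∉ e := fun h => Finset.notMem_erase x S (he.1 h)
          have hxe' : x ∉ e' := fun h => Finset.notMem_erase x S (he'.1 h)
          rw [← Finset.erase_insert hxe, ← Finset.erase_insert hxe', heq]
        · intro e he
          rw [Finset.mem_filter, Finset.mem_powersetCard] at he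
          refine ⟨e.erase x, ?_, Finset.insert_erase he.2⟩
          rw [Finset.mem_powersetCard]
          refine ⟨Finset.erase_subset_erase _ he.1.1, ?_⟩
          rw [Finset.card_erase_of_mem he.2, he.1.2]
      rw [h4, Finset.card_powersetCard, Finset.card_erase_of_mem hx]
    have h5 : ((S.powersetCard 3).filter (fun e => x ∈ e ∧ colF ψ e = j)) =
        ((S.powersetCard 3).filter (fun e => x ∈ e)) := by
      apply Finset.eq_of_subset_of_card_le
      · intro e he
        rw [Finset.mem_filter] at he ⊢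
        exact ⟨he.1, he.2.1⟩
      · rw [h3]; exact h2
    have h6 : ({x, y, z} : Finset (Fin n)) ∈ ((S.powersetCard 3).filter (fun e => x ∈ e)) := by
      rw [Finset.mem_filter, Finset.mem_powersetCard]
      refine ⟨⟨?_, Finset.card_eq_three.2 ⟨x, y, z, hxy.ne, (hxy.trans hyz).ne, hyz.ne, rfl⟩⟩,
        by simp⟩
      intro a ha
      simp only [Finset.mem_insert, Finset.mem_singleton] at ha
      rcases ha with rfl | rfl | rfl
      · exact hx
      · exact hy
      · exact hz
    rw [← h5, Finset.mem_filter] at h6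
    apply hne
    rw [← colF_eq ψ hxy hyz]
    exact h6.2.2

end Pool.Agent.S07316
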