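import Pool.Statements.S07487
import Pool.Agent.Helper539.General

set_option autoImplicit false
open Pool Pool.MP_1cfd87_co

namespace Pool.Agent.S07487

open SimpleGraph Pool.Agent.Helper539

theorem contained_iff {V X : Type} (G : SimpleGraph V) (R : SimpleGraph X) :
    G ⊑ R ↔ ∃ f : V → X, Function.Injective f ∧ ∀ a b, G.Adj a b → R.Adj (f a) (f b) := by
  constructor
  · rintro ⟨c⟩
    exact ⟨c, c.injective, fun a b h => c.toHom.map_adj h⟩
  · rintro ⟨f, hf, h⟩
    exact ⟨⟨⟨f, fun {a b} hab => h a b hab⟩, hf⟩⟩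

theorem matching_iff {X : Type} (B : SimpleGraph X) (t : ℕ) :
    matchingGraph t ⊑ B ↔ ∃ g : Fin t ⊕ Fin t → X, Function.Injective g ∧
      ∀ i, B.Adj (g (Sum.inl i)) (g (Sum.inr i)) := by
  rw [matchingGraph_isContained_iff]
  constructor
  · rintro ⟨f, hf, h⟩
    refine ⟨fun s => Sum.elim (fun i => f (i, false)) (fun i => f (i, true)) s, ?_, ?_⟩
    · rintro (i | i) (j | j) hij
      · simp only [Sum.elim_inl] at hij
        have := hf hij
        simp only [Prod.mk.injEq, and_true] at this
        rw [this]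
      · simp only [Sum.elim_inl, Sum.elim_inr] at hij
        have := hf hij
        simp at this
      · simp only [Sum.elim_inl, Sum.elim_inr] at hij
        have := hf hij
        simp at this
      · simp only [Sum.elim_inr] at hij
        have := hf hij
        simp only [Prod.mk.injEq, and_true] at this
        rw [this]
    · intro i
      simpa using h i
  · rintro ⟨g, hg, h⟩
    refine ⟨fun p => if p.2 then g (Sum.inr p.1) else g (Sum.inl p.1), ?_, ?_⟩
    · rintro ⟨i, a⟩ ⟨j, b⟩ hij
      cases a <;> cases b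
      · simp only [Bool.false_eq_true, if_false] at hij
        have := hg hij
        simp only [Sum.inl.injEq] at this
        rw [this]
      · simp only [Bool.false_eq_true, if_false, if_true] at hij
        have := hg hij
        simp at this
      · simp only [Bool.false_eq_true, if_false, if_true] at hij
        have := hg hij
        simp at this
      · simp only [if_true] at hij
        have := hg hij
        simp only [Sum.inr.injEq] at this
        rw [this]
    · intro i
      simpa using h i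

theorem size_eq {K : ℕ} (G : SimpleGraph (Fin K)) (t : ℕ) :
    sInf {e : ℕ | ∃ (m : ℕ) (F : SimpleGraph (Fin m)), F.edgeSet.ncard = e ∧
          ∀ R : SimpleGraph (Fin m), R ≤ F →
            (∃ f : Fin K → Fin m, Function.Injective f ∧
                ∀ a b, G.Adj a b → R.Adj (f a) (f b)) ∨
            (∃ g : Fin t ⊕ Fin t → Fin m, Function.Injective g ∧
                ∀ i, F.Adj (g (Sum.inl i)) (g (Sum.inr i)) ∧
                  ¬ R.Adj (g (Sum.inl i)) (g (Sum.inr i)))} =
      sizeRamsey G (matchingGraph t) := by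
  unfold sizeRamsey Arrows
  congr 1
  ext e
  constructor
  · rintro ⟨m, F, h1, h2⟩
    refine ⟨m, F, h1, fun R hR => ?_⟩
    rcases h2 R hR with h | h
    · exact Or.inl ((contained_iff _ _).2 h)
    · right
      rw [matching_iff]
      obtain ⟨g, hg, h⟩ := h
      exact ⟨g, hg, fun i => by rw [SimpleGraph.sdiff_adj]; exact h i⟩
  · rintro ⟨m, F, h1, h2⟩
    refine ⟨m, F, h1, fun R hR => ?_⟩
    rcases h2 R hR with h | h
    · exact Or.inl ((contained_iff _ _).1 h)
    · right
      rw [matching_iff] at h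
      obtain ⟨g, hg, h⟩ := h
      exact ⟨g, hg, fun i => by have := h i; rwa [SimpleGraph.sdiff_adj] at this⟩

/-- For any sequence of graphs without isolated vertices, with at least one edge, bounded max degree and vertex count tending to infinity, the limsup over t of the size Ramsey number of (G_n, tK_2) divided by t times ∣E(G_n)∣ tends to 0. -/
theorem result :
  ∀ (k : ℕ → ℕ) (G : ∀ n, SimpleGraph (Fin (k n))),
    Filter.Tendsto k Filter.atTop Filter.atTop →
    (∃ D : ℕ, ∀ n v, ((G n).neighborSet v).ncard ≤ D) →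
    (∀ n, ∃ v w, (G n).Adj v w) →
    (∀ n v, ∃ w, (G n).Adj v w) →
    ∀ ε : ℝ, 0 < ε → ∃ N : ℕ, ∀ n ≥ N, ∃ T : ℕ, ∀ t ≥ T,
      ((sInf {e : ℕ | ∃ (m : ℕ) (F : SimpleGraph (Fin m)), F.edgeSet.ncard = e ∧
          ∀ R : SimpleGraph (Fin m), R ≤ F →
            (∃ f : Fin (k n) → Fin m, Function.Injective f ∧
                ∀ a b, (G n).Adj a b → R.Adj (f a) (f b)) ∨
            (∃ g : Fin t ⊕ Fin t → Fin m, Function.Injective g ∧
                ∀ i, F.Adj (g (Sum.inl i)) (g (Sum.inr i)) ∧
                  ¬ R.Adj (g (Sum.inl i)) (g (Sum.inr i)))} : ℕ) : ℝ)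
        / ((t : ℝ) * (((G n).edgeSet.ncard : ℕ) : ℝ)) ≤ ε := by
  intro k G hk ⟨D, hD⟩ hedge hiso ε hε
  obtain ⟨ε', hε', h⟩ := general_case.{0} (ε / 2) (half_pos hε)
  obtain ⟨M, hM⟩ := exists_nat_ge (2 * (D : ℝ) / ε')
  obtain ⟨N, hN⟩ := (Filter.tendsto_atTop_atTop.1 hk) M
  refine ⟨N, fun n hn => ?_⟩
  have hkn : M ≤ k n := hN n hn
  have hne : (G n).edgeSet.Nonempty := by
    obtain ⟨v, w, hvw⟩ := hedge n
    exact ⟨s(v, w), hvw⟩
  have hm : 0 < (G n).edgeSet.ncard := (Set.ncard_pos (Set.toFinite _)).2 hne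
  have hmR : (0 : ℝ) < (G n).edgeSet.ncard := by exact_mod_cast hm
  have hcard : k n ≤ 2 * (G n).edgeSet.ncard := by
    have := card_le_two_mul (G n) (hiso n)
    simpa using this
  have hdeg : ∀ v, (((G n).neighborSet v).ncard : ℝ) ≤ ε' * (G n).edgeSet.ncard := by
    intro v
    have h1 : (((G n).neighborSet v).ncard : ℝ) ≤ D := by exact_mod_cast hD n v
    have h2 : (M : ℝ) ≤ 2 * (G n).edgeSet.ncard := by exact_mod_cast hkn.trans hcard
    have h3 : 2 * (D : ℝ) ≤ M * ε' := by
      rw [div_le_iff₀ hε'] at hM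
      exact hM
    nlinarith
  obtain ⟨t₀, ht₀, hle⟩ := h (Fin (k n)) (G n) hne (hiso n) hdeg
  obtain ⟨ρ, hρ, hρ0, hρle⟩ := exists_limit (G n)
  have ht₀R : (0 : ℝ) < t₀ := by exact_mod_cast ht₀
  have hρε : ρ ≤ ε / 2 := by
    refine (hρle t₀ (by omega)).trans ?_
    rw [div_le_iff₀ (by positivity)]
    exact hle
  have hev : ∀ᶠ t : ℕ in Filter.atTop,
      (sizeRamsey (G n) (matchingGraph t) : ℝ) / (t * (G n).edgeSet.ncard) < ε :=
    (tendsto_order.1 hρ).2 ε (by linarith)
  obtain ⟨T, hT⟩ := Filter.eventually_atTop.1 hev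
  refine ⟨T, fun t ht => ?_⟩
  rw [size_eq]
  exact (hT t ht).le

end Pool.Agent.S07487
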