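import Pool.Statements.S07574

set_option autoImplicit false
open Pool Pool.MP_1f8616_co

namespace Pool.Agent.S07574

/-- The disjoint union of the chains `Fin n`. -/
abbrev P : Type := Σ n : ℕ, Fin n

theorem chain_fst {C : Set P} (hC : IsChain (· ≤ ·) C) {x y : P} (hx : x ∈ C) (hy : y ∈ C) :
    x.1 = y.1 := by
  by_cases h : x = y
  · rw [h]
  · rcases hC hx hy h with h1 | h1
    · exact (Sigma.le_def.1 h1).1
    · exact (Sigma.le_def.1 h1).1.symm

theorem chain_finite {C : Set P} (hC : IsChain (· ≤ ·) C) : C.Finite := by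
  rcases C.eq_empty_or_nonempty with h | ⟨x, hx⟩
  · rw [h]; exact Set.finite_empty
  · apply (Set.finite_range (fun a : Fin x.1 => (⟨x.1, a⟩ : P))).subset
    intro y hy
    have h := chain_fst hC hx hy
    rcases x with ⟨m, a⟩
    rcases y with ⟨n, b⟩
    obtain rfl : m = n := h
    exact ⟨b, rfl⟩

/-- The negation of the preceding statement: Every countable poset with no saturated chain (or its reverse) that is an ω-indexed linear sum of infinite co-wellfounded chains has, for each k≥2, k disjoint chains and a partition into antichains where each antichain A meets at least min(∣A∣,k) chains. -/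
theorem result :
    ¬ (∀ (α : Type) [PartialOrder α] [Countable α],
    (¬ ∃ C : Set α, IsChain (· ≤ ·) C ∧
        (∀ x, x ∉ C → ∀ y ∈ C, ∀ z ∈ C, y < x → x < z → ¬ IsChain (· ≤ ·) (insert x C)) ∧
        ∃ f : α → ℕ,
          ((∀ x ∈ C, ∀ y ∈ C, x ≤ y → f x ≤ f y) ∧
            ∀ i : ℕ, Set.Infinite {x | x ∈ C ∧ f x = i} ∧
              ¬ ∃ s : ℕ → α, StrictMono s ∧ ∀ n, s n ∈ C ∧ f (s n) = i) ∨
          ((∀ x ∈ C, ∀ y ∈ C, x ≤ y → f y ≤ f x) ∧
            ∀ i : ℕ, Set.Infinite {x | x ∈ C ∧ f x = i} ∧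
              ¬ ∃ s : ℕ → α, StrictAnti s ∧ ∀ n, s n ∈ C ∧ f (s n) = i)) →
    ∀ k : ℕ, 2 ≤ k →
      ∃ C : Fin k → Set α, (∀ j, IsChain (· ≤ ·) (C j)) ∧
        Pairwise (fun i j => Disjoint (C i) (C j)) ∧
        ∃ g : α → ℕ, ∀ i : ℕ, IsAntichain (· ≤ ·) {x | g x = i} ∧
          min (Set.encard {x | g x = i}) (k : ℕ∞) ≤
            Set.encard {j : Fin k | (C j ∩ {x | g x = i}).Nonempty}) := by
  intro h
  obtain ⟨C, hC, -, g, hg⟩ := h P (by
    rintro ⟨C, hC, -, f, ⟨-, h⟩ | ⟨-, h⟩⟩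
    · exact (h 0).1 ((chain_finite hC).subset fun x hx => hx.1)
    · exact (h 0).1 ((chain_finite hC).subset fun x hx => hx.1)) 2 le_rfl
  have hU : (⋃ j, C j).Finite := Set.finite_iUnion fun j => chain_finite (hC j)
  -- every fibre of `g` over a value taken meets one of the chains
  have hmeet : ∀ x : P, ∃ u ∈ (⋃ j, C j), g u = g x := by
    intro x
    have h1 := (hg (g x)).2
    have h2 : (1 : ℕ∞) ≤ Set.encard {y | g y = g x} :=
      Set.one_le_encard_iff_nonempty.2 ⟨x, rfl⟩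
    have h3 : (1 : ℕ∞) ≤ min (Set.encard {y | g y = g x}) ((2 : ℕ) : ℕ∞) :=
      le_min h2 (by norm_num)
    obtain ⟨j, u, hu, hu2⟩ := Set.one_le_encard_iff_nonempty.1 (h3.trans h1)
    exact ⟨u, Set.mem_iUnion.2 ⟨j, hu⟩, hu2⟩
  choose φ hφ hφg using hmeet
  set N := hU.toFinset.card with hN
  have hcard : (Finset.univ : Finset (Fin (N + 1))).card ≤ hU.toFinset.card := by
    apply Finset.card_le_card_of_injOn (fun a : Fin (N + 1) => φ ⟨N + 1, a⟩)
    · intro a _
      simpa using hφ ⟨N + 1, a⟩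
    · intro a _ b _ hab
      have hgab : g ⟨N + 1, a⟩ = g ⟨N + 1, b⟩ := by
        rw [← hφg ⟨N + 1, a⟩, ← hφg ⟨N + 1, b⟩]
        exact congrArg g hab
      have hanti := (hg (g ⟨N + 1, b⟩)).1
      by_contra hne
      have hne' : (⟨N + 1, a⟩ : P) ≠ ⟨N + 1, b⟩ := by
        intro h
        apply hne
        simpa using h
      rcases le_total a b with hle | hle
      · exact hanti (show g ⟨N + 1, a⟩ = _ from hgab) (show g ⟨N + 1, b⟩ = _ from rfl) hne'
          (Sigma.mk_le_mk_iff.2 hle)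
      · exact hanti (show g ⟨N + 1, b⟩ = _ from rfl) (show g ⟨N + 1, a⟩ = _ from hgab) hne'.symm
          (Sigma.mk_le_mk_iff.2 hle)
  rw [Finset.card_univ, Fintype.card_fin] at hcard
  omega

end Pool.Agent.S07574
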