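import Pool.Statements.S07719
import Pool.Agent.Y427.Junc.C

set_option autoImplicit false
open Pool Pool.MP_25e1d2_co

namespace Pool.Agent.S07719

/-- For every finite colouring of the naturals there is a sequence of positive integers y_0, y_1, ... such that all nonempty finite sums of distinct terms, and all sums y_n + 2y_{n+1} + y_{n+2}, get one and the same colour. -/
theorem result :
    ∀ (k : ℕ) (c : ℕ → Fin k), ∃ y : ℕ → ℕ, (∀ n, 0 < y n) ∧
      ∃ col : Fin k,
        (∀ s : Finset ℕ, s.Nonempty → c (∑ i ∈ s, y i) = col) ∧
        (∀ n : ℕ, c (y n + 2 * y (n + 1) + y (n + 2)) = col) := by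
  intro k c
  obtain ⟨y, col, hy, h⟩ := Pool.Agent.Y427.Junc.main_nat k c
  refine ⟨y, hy, col, ?_, ?_⟩
  · intro s hs
    have h1 := h (fun m => if m ∈ s then 1 else 0) (fun n => by
        by_cases hn : n ∈ s
        · simp [hn]
        · simp [hn])
      (by by_cases hn : 0 ∈ s
          · simp [hn]
          · simp [hn])
      (fun n hn => by
        exfalso
        by_cases hn' : n ∈ s
        · simp [hn'] at hn
        · simp [hn'] at hn)
      (fun n hn => by
        exfalso
        by_cases hn' : n + 1 ∈ s
        · simp [hn'] at hn
        · simp [hn'] at hn)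
      (s.sup id + 1)
      (by
        have : s.sup id + 1 ∉ s := fun hmem => by
          have := Finset.le_sup (f := id) hmem
          simp only [id] at this
          omega
        simp [this])
      (by
        obtain ⟨m, hm⟩ := hs
        refine ⟨m, ?_, by simp [hm]⟩
        have := Finset.le_sup (f := id) hm
        simp only [id] at this ⊢
        omega)
    rw [← h1]
    congr 1
    have hsub : s ⊆ Finset.range (s.sup id + 1) := by
      intro m hm
      rw [Finset.mem_range]
      have := Finset.le_sup (f := id) hm
      simp only [id] at this ⊢
      omega
    rw [← Finset.sum_subset hsub (f := fun m => (if m ∈ s then 1 else 0) * y m)]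
    · refine Finset.sum_congr rfl fun m hm => ?_
      simp [hm]
    · intro m _ hm
      simp [hm]
  · intro n
    have h1 := h (fun m => if m = n then 1 else if m = n + 1 then 2 else if m = n + 2 then 1 else 0)
      (fun m => by
        split_ifs <;> simp)
      (fun h0 => by
        split_ifs at h0 <;> omega)
      (fun m hm => by
        split_ifs at hm ⊢ <;> omega)
      (fun m hm => by
        split_ifs at hm ⊢ <;> omega)
      (n + 3)
      (by
        split_ifs <;> omega)
      ⟨n, by omega, by simp⟩
    rw [← h1]
    congr 1
    rw [Finset.sum_range_succ, Finset.sum_range_succ, Finset.sum_range_succ]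
    have h0 : ∑ m ∈ Finset.range n, (if m = n then 1 else if m = n + 1 then 2 else
        if m = n + 2 then 1 else 0) * y m = 0 := by
      refine Finset.sum_eq_zero fun m hm => ?_
      rw [Finset.mem_range] at hm
      rw [if_neg (by omega), if_neg (by omega), if_neg (by omega), zero_mul]
    rw [h0]
    simp

end Pool.Agent.S07719
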