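import Pool.Statements.S07822
import Pool.Agent.Y394.CC.Main

set_option autoImplicit false
open Pool Pool.MP_2b2760_co

namespace Pool.Agent.S07822

/-- The negation of the preceding statement: There is f such that every finite graph of layered treewidth at most k with no K_{2,t} subgraph has a 3-colouring in which every monochromatic connected vertex set has at most f(k,t) vertices. -/
theorem result :
    ¬ (∃ f : ℕ → ℕ → ℕ, ∀ (k t : ℕ) (V : Type) [Fintype V] (G : SimpleGraph V),
    (∃ (T : Type) (_ : Fintype T) (TT : SimpleGraph T) (B : T → Finset V) (ℓ : V → ℕ),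
      TT.IsTree ∧
      (∀ v : V, (TT.induce {x | v ∈ B x}).Connected) ∧
      (∀ u v : V, G.Adj u v → ∃ x, u ∈ B x ∧ v ∈ B x) ∧
      (∀ u v : V, G.Adj u v → ℓ u ≤ ℓ v + 1 ∧ ℓ v ≤ ℓ u + 1) ∧
      (∀ x i, ((B x).filter (fun v => ℓ v = i)).card ≤ k)) →
    ¬ (completeBipartiteGraph (Fin 2) (Fin t)).IsContained G →
    ∃ c : V → Fin 3, ∀ S : Finset V, (∀ u ∈ S, ∀ w ∈ S, c u = c w) →
      (G.induce (S : Set V)).Connected → S.card ≤ f k t) := by
  classical
  rintro ⟨f, hf⟩
  obtain ⟨V, iV, G, T, iT, TT, B, ℓ, h1, h2, h3, h4, h5, h6, h7⟩ :=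
    Pool.Agent.Y394.CC.main (f 3 11)
  have hmem : ∀ v : V, {x | v ∈ (Finset.univ.filter (fun v => B x v) : Finset V)} =
      {x | B x v} := by
    intro v
    ext x
    simp
  have hconn : ∀ v : V, (TT.induce {x | v ∈ (Finset.univ.filter (fun v => B x v) : Finset V)}).Connected := by
    intro v
    rw [hmem v]
    exact h2 v
  have hcard : ∀ x i, (((Finset.univ.filter (fun v => B x v) : Finset V)).filter
      (fun v => ℓ v = i)).card ≤ 3 := by
    intro x i
    refine le_trans (le_of_eq ?_) (h5 x i)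
    rw [← Set.ncard_coe_finset]
    congr 1
    ext v
    simp
  have hfree : ¬ (completeBipartiteGraph (Fin 2) (Fin 11)).IsContained G := by
    rintro ⟨φ⟩
    exact h6 11 le_rfl φ φ.injective (fun x y => φ.toHom.map_adj (by simp))
  obtain ⟨χ, hχ⟩ := hf 3 11 V G ⟨T, iT, TT, fun x => Finset.univ.filter (fun v => B x v), ℓ, h1,
    hconn, by simpa using h3, h4, by convert hcard⟩ hfree
  exact h7 χ hχ

end Pool.Agent.S07822
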