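import Pool.Statements.S07874
import Pool.Agent.Results.MP_2d87f2_co.Blowup

set_option autoImplicit false
open Pool Pool.MP_2d87f2_co

namespace Pool.Agent.S07874

open Pool.Agent.Results.MP_2d87f2_co.Blowup in
/-- the ordered boundary pairs of a finite set in the blow-up graph -/
theorem pairs_lower (m : ℕ) (A : Finset (W m)) :
    m * A.card ≤ Set.ncard {p : W m × W m | p.1 ∈ A ∧ p.2 ∉ A ∧ (gr m).Adj p.1 p.2} := by
  classical
  refine (boundary_lower m A).trans ?_
  have hfin : {p : W m × W m | p.1 ∈ A ∧ p.2 ∉ A ∧ (gr m).Adj p.1 p.2}.Finite := by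
    have h1 : (⋃ x ∈ A, (fun y => (x, y)) '' (gr m).neighborSet x).Finite :=
      Set.Finite.biUnion A.finite_toSet (fun x _ => (locFinite m x).image _)
    refine h1.subset ?_
    rintro ⟨u, v⟩ ⟨hu, _, huv⟩
    rw [Set.mem_iUnion₂]
    exact ⟨u, hu, v, huv, rfl⟩
  have hsub : edgeBoundary (gr m) A ⊆
      (fun p : W m × W m => s(p.1, p.2)) ''
        {p : W m × W m | p.1 ∈ A ∧ p.2 ∉ A ∧ (gr m).Adj p.1 p.2} := by
    rintro e ⟨he, u, hu, v, hv, rfl⟩
    exact ⟨(u, v), ⟨hu, hv, he⟩, rfl⟩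
  exact (Set.ncard_le_ncard hsub (hfin.image _)).trans (Set.ncard_image_le hfin)

/-- The negation of the preceding statement: For every infinite connected locally finite vertex-transitive graph G, every k ≥ 1 and every maximal k-separated vertex set S, the Cheeger constant of the graph on S joining points at distance ≤ 2k is at least the Cheeger constant of G. -/
theorem result :
    ¬ (∀ (V : Type) (G : SimpleGraph V), Infinite V → G.Connected →
      (∀ v : V, (G.neighborSet v).Finite) →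
      (∀ u v : V, ∃ φ : G ≃g G, φ u = v) →
      ∀ k : ℕ, 1 ≤ k →
      ∀ S : Set V,
        (∀ u ∈ S, ∀ v ∈ S, u ≠ v → k ≤ G.dist u v) →
        (∀ w : V, w ∉ S → ∃ u ∈ S, G.dist w u < k) →
        sInf {r : ℝ | ∃ A : Finset V, A.Nonempty ∧
            r = (Set.ncard {p : V × V | p.1 ∈ A ∧ p.2 ∉ A ∧ G.Adj p.1 p.2} : ℝ)
              / (A.card : ℝ)}
          ≤
        sInf {r : ℝ | ∃ A : Finset V, A.Nonempty ∧ (↑A : Set V) ⊆ S ∧
            r = (Set.ncard {p : V × V | p.1 ∈ A ∧ p.2 ∈ S ∧ p.2 ∉ A ∧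
                  G.dist p.1 p.2 ≤ 2 * k} : ℝ)
              / (A.card : ℝ)}) := by
  classical
  intro H
  obtain ⟨m, hm⟩ : ∃ m : ℕ, Pool.Agent.Results.MP_2d87f2_co.Blowup.ballCard (2 * 2) < m :=
    ⟨_, Nat.lt_succ_self _⟩
  have hm0 : 0 < m := by omega
  have : NeZero m := ⟨hm0.ne'⟩
  obtain ⟨V', G', hinf, -⟩ := Pool.Agent.Results.MP_2d87f2_co.Blowup.result 2 le_rfl 1 one_pos
  have hF : Infinite Pool.Agent.Results.MP_2d87f2_co.Blowup.F := inferInstance
  have hW : Infinite (Pool.Agent.Results.MP_2d87f2_co.Blowup.W m) := inferInstance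
  obtain ⟨S, hS⟩ := Pool.Agent.Results.MP_2d87f2_co.Blowup.exists_net
    (Pool.Agent.Results.MP_2d87f2_co.Blowup.gr m) 2
  have hsep := hS.1
  have hmax : ∀ w, w ∉ S → ∃ u ∈ S,
      (Pool.Agent.Results.MP_2d87f2_co.Blowup.gr m).dist w u < 2 := by
    intro w hw
    by_contra hcon
    push Not at hcon
    have h1 : Pool.Agent.Results.MP_2d87f2_co.Blowup.Separated
        (Pool.Agent.Results.MP_2d87f2_co.Blowup.gr m) 2 (insert w S) := by
      rintro u (rfl | hu) v (rfl | hv) huv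
      · exact absurd rfl huv
      · exact hcon v hv
      · rw [SimpleGraph.dist_comm]; exact hcon u hu
      · exact hsep u hu v hv huv
    exact hw (hS.2 h1 (Set.subset_insert _ _) (Set.mem_insert _ _))
  have hne : S.Nonempty := by
    by_contra h
    rw [Set.not_nonempty_iff_eq_empty] at h
    obtain ⟨u, hu, -⟩ := hmax ((1 : Pool.Agent.Results.MP_2d87f2_co.Blowup.F), (0 : Fin m))
      (by rw [h]; exact Set.notMem_empty _)
    rw [h] at hu
    exact hu
  have key := H _ (Pool.Agent.Results.MP_2d87f2_co.Blowup.gr m) hW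
    (Pool.Agent.Results.MP_2d87f2_co.Blowup.connected m)
    (Pool.Agent.Results.MP_2d87f2_co.Blowup.locFinite m)
    (Pool.Agent.Results.MP_2d87f2_co.Blowup.transitive m) 2 (by norm_num) S hsep hmax
  have hlow : (m : ℝ) ≤ sInf {r : ℝ | ∃ A : Finset (Pool.Agent.Results.MP_2d87f2_co.Blowup.W m),
      A.Nonempty ∧
            r = (Set.ncard {p : Pool.Agent.Results.MP_2d87f2_co.Blowup.W m ×
              Pool.Agent.Results.MP_2d87f2_co.Blowup.W m | p.1 ∈ A ∧ p.2 ∉ A ∧
              (Pool.Agent.Results.MP_2d87f2_co.Blowup.gr m).Adj p.1 p.2} : ℝ)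
              / (A.card : ℝ)} := by
    refine le_csInf ⟨_, {((1 : Pool.Agent.Results.MP_2d87f2_co.Blowup.F), (0 : Fin m))},
      Finset.singleton_nonempty _, rfl⟩ ?_
    rintro r ⟨A, hA, rfl⟩
    have h1 : (0 : ℝ) < A.card := by exact_mod_cast hA.card_pos
    rw [le_div_iff₀ h1]
    exact_mod_cast pairs_lower m A
  obtain ⟨s, hs⟩ := hne
  have hup : sInf {r : ℝ | ∃ A : Finset (Pool.Agent.Results.MP_2d87f2_co.Blowup.W m),
      A.Nonempty ∧ (↑A : Set (Pool.Agent.Results.MP_2d87f2_co.Blowup.W m)) ⊆ S ∧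
            r = (Set.ncard {p : Pool.Agent.Results.MP_2d87f2_co.Blowup.W m ×
              Pool.Agent.Results.MP_2d87f2_co.Blowup.W m | p.1 ∈ A ∧ p.2 ∈ S ∧ p.2 ∉ A ∧
                  (Pool.Agent.Results.MP_2d87f2_co.Blowup.gr m).dist p.1 p.2 ≤ 2 * 2} : ℝ)
              / (A.card : ℝ)} ≤ Pool.Agent.Results.MP_2d87f2_co.Blowup.ballCard (2 * 2) := by
    have hb : BddBelow {r : ℝ | ∃ A : Finset (Pool.Agent.Results.MP_2d87f2_co.Blowup.W m),
      A.Nonempty ∧ (↑A : Set (Pool.Agent.Results.MP_2d87f2_co.Blowup.W m)) ⊆ S ∧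
            r = (Set.ncard {p : Pool.Agent.Results.MP_2d87f2_co.Blowup.W m ×
              Pool.Agent.Results.MP_2d87f2_co.Blowup.W m | p.1 ∈ A ∧ p.2 ∈ S ∧ p.2 ∉ A ∧
                  (Pool.Agent.Results.MP_2d87f2_co.Blowup.gr m).dist p.1 p.2 ≤ 2 * 2} : ℝ)
              / (A.card : ℝ)} := by
      refine ⟨0, ?_⟩
      rintro r ⟨A, -, -, rfl⟩
      positivity
    have hss : (↑({s} : Finset (Pool.Agent.Results.MP_2d87f2_co.Blowup.W m)) :
        Set (Pool.Agent.Results.MP_2d87f2_co.Blowup.W m)) ⊆ S := by simpa using hs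
    refine (csInf_le hb ⟨{s}, Finset.singleton_nonempty _, hss, rfl⟩).trans ?_
    rw [Finset.card_singleton, Nat.cast_one, div_one]
    have hcol : ∀ y ∈ S, ∀ y' ∈ S, y.1 = y'.1 → y = y' := by
      intro y hy y' hy' h
      by_contra hne'
      have h1 := hsep _ hy _ hy' hne'
      have h2 : (Pool.Agent.Results.MP_2d87f2_co.Blowup.gr m).Adj y y' := by
        rw [Pool.Agent.Results.MP_2d87f2_co.Blowup.gr_adj]
        refine ⟨hne', ?_⟩
        rw [h]
        simp
      rw [SimpleGraph.dist_eq_one_iff_adj.2 h2] at h1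
      omega
    have hle : Set.ncard {p : Pool.Agent.Results.MP_2d87f2_co.Blowup.W m ×
              Pool.Agent.Results.MP_2d87f2_co.Blowup.W m |
              p.1 ∈ ({s} : Finset (Pool.Agent.Results.MP_2d87f2_co.Blowup.W m)) ∧ p.2 ∈ S ∧
              p.2 ∉ ({s} : Finset (Pool.Agent.Results.MP_2d87f2_co.Blowup.W m)) ∧
                  (Pool.Agent.Results.MP_2d87f2_co.Blowup.gr m).dist p.1 p.2 ≤ 2 * 2} ≤
        Set.ncard {x : Pool.Agent.Results.MP_2d87f2_co.Blowup.F | x.norm ≤ 2 * 2} := by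
      refine Set.ncard_le_ncard_of_injOn (fun p => p.2.1 * s.1⁻¹) ?_ ?_
        (Pool.Agent.Results.MP_2d87f2_co.Blowup.ball_finite _)
      · rintro ⟨a, b⟩ ⟨ha, hb, hb', hab⟩
        have ha' : a = s := by simpa using ha
        subst ha'
        exact (Pool.Agent.Results.MP_2d87f2_co.Blowup.norm_le_dist m _ _).trans hab
      · rintro ⟨a, b⟩ ⟨ha, hb, hb', hab⟩ ⟨a', b'⟩ ⟨ha2, hb2, hb2', hab2⟩ h
        have e1 : a = s := by simpa using ha
        have e2 : a' = s := by simpa using ha2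
        have h3 : b.1 = b'.1 := mul_right_cancel h
        rw [e1, e2, hcol b hb b' hb2 h3]
    exact_mod_cast hle
  have hmR : ((Pool.Agent.Results.MP_2d87f2_co.Blowup.ballCard (2 * 2) : ℕ) : ℝ) < m := by
    exact_mod_cast hm
  linarith

end Pool.Agent.S07874
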