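import Pool.Statements.S07891

set_option autoImplicit false
open Pool Pool.MP_2e1090_co

namespace Pool.Agent.S07891

/-- bit mask of a set -/
def mask (B : Finset (Fin 8)) : ℕ := ∑ i ∈ B, 2 ^ (i : ℕ)

/-- the set with a given bit mask -/
def fs (m : ℕ) : Finset (Fin 8) := Finset.univ.filter (fun i : Fin 8 => m.testBit i = true)

/-- the table of values, two bits per set -/
def big : ℕ :=
  2521728997796147859823868076447030334941095218622038636196733560870127969017493419933041114137692418295223109801738240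

/-- value at the set with mask `m` -/
def Wn (m : ℕ) : ℕ := (big / 4 ^ m) % 4

/-- number of elements -/
def pop (m : ℕ) : ℕ := ∑ i : Fin 8, (m.testBit i).toNat

/-- masks of the `4`-subsets -/
def masks : List ℕ :=
  [15, 23, 27, 29, 30, 39, 43, 45, 46, 51, 53, 54, 57, 58, 60, 71, 75, 77, 78, 83, 85, 86, 89, 90,
   92, 99, 101, 102, 105, 106, 108, 113, 114, 116, 120, 135, 139, 141, 142, 147, 149, 150, 153,
   154, 156, 163, 165, 166, 169, 170, 172, 177, 178, 180, 184, 195, 197, 198, 201, 202, 204, 209,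
   210, 212, 216, 225, 226, 228, 232, 240]

/-- the six affine functions whose maximum is the height function -/
def cc (t : Fin 6) (i : Fin 8) : ℤ :=
  (([[0,0,0,0,0,0,0,0], [1,1,0,0,0,0,0,0], [1,1,1,1,0,0,0,0], [1,1,1,1,1,1,0,0],
    [0,0,0,1,1,1,0,0], [2,2,1,1,0,0,1,0]] : List (List ℤ)).getD t []).getD i 0

def kk (t : Fin 6) : ℤ := ([0, 1, 2, 3, 2, 4] : List ℤ).getD t 0

def lin (t : Fin 6) (m : ℕ) : ℤ := ∑ i : Fin 8, (m.testBit i).toNat * cc t i

theorem fs_mask : ∀ B : Finset (Fin 8), B.card = 4 → fs (mask B) = B ∧ mask B ∈ masks := by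
  decide +kernel

theorem fs_masks : ∀ m ∈ masks, (fs m).card = 4 ∧ mask (fs m) = m := by
  decide +kernel

theorem lower : ∀ t : Fin 6, ∀ m ∈ masks, lin t m - kk t ≤ (Wn m : ℤ) := by
  decide +kernel

def Cond (p q r : ℕ) : Prop := (p = q ∧ p ≤ r) ∨ (p = r ∧ p ≤ q) ∨ (q = r ∧ q ≤ p)

instance (p q r : ℕ) : Decidable (Cond p q r) := by unfold Cond; infer_instance

/-- the four-term check at one octahedron -/
def chk (a b i j k l : Fin 8) : Bool :=
  decide (Cond (Wn (2 ^ (i : ℕ) + (2 ^ (j : ℕ) + (2 ^ (a : ℕ) + 2 ^ (b : ℕ)))) +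
        Wn (2 ^ (k : ℕ) + (2 ^ (l : ℕ) + (2 ^ (a : ℕ) + 2 ^ (b : ℕ)))))
      (Wn (2 ^ (i : ℕ) + (2 ^ (k : ℕ) + (2 ^ (a : ℕ) + 2 ^ (b : ℕ)))) +
        Wn (2 ^ (j : ℕ) + (2 ^ (l : ℕ) + (2 ^ (a : ℕ) + 2 ^ (b : ℕ)))))
      (Wn (2 ^ (i : ℕ) + (2 ^ (l : ℕ) + (2 ^ (a : ℕ) + 2 ^ (b : ℕ)))) +
        Wn (2 ^ (j : ℕ) + (2 ^ (k : ℕ) + (2 ^ (a : ℕ) + 2 ^ (b : ℕ))))))

def allF (p : Fin 8 → Bool) : Bool := (List.finRange 8).all p

theorem allF_iff (p : Fin 8 → Bool) : allF p = true ↔ ∀ i, p i = true := by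
  simp [allF]

theorem dressB : (allF fun a => allF fun b => (a == b) ||
    allF fun i => (i == a || i == b) || allF fun j => (j == a || j == b || i == j) ||
    allF fun k => (k == a || k == b || i == k || j == k) ||
    allF fun l => (l == a || l == b || i == l || j == l || k == l) || chk a b i j k l) = true := by
  decide +kernel

theorem dress (a b i j k l : Fin 8) (hab : a ≠ b) (hia : i ≠ a) (hib : i ≠ b) (hja : j ≠ a)
    (hjb : j ≠ b) (hij : i ≠ j) (hka : k ≠ a) (hkb : k ≠ b) (hik : i ≠ k) (hjk : j ≠ k)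
    (hla : l ≠ a) (hlb : l ≠ b) (hil : i ≠ l) (hjl : j ≠ l) (hkl : k ≠ l) :
    chk a b i j k l = true := by
  have h := dressB
  rw [allF_iff] at h
  have h1 := h a
  rw [allF_iff] at h1
  have h2 := h1 b
  simp only [beq_iff_eq, hab, Bool.or_eq_true, false_or] at h2
  rw [allF_iff] at h2
  have h3 := h2 i
  simp only [beq_iff_eq, hia, hib, Bool.or_eq_true, false_or, or_false] at h3
  rw [allF_iff] at h3
  have h4 := h3 j
  simp only [beq_iff_eq, hja, hjb, hij, Bool.or_eq_true, false_or, or_false] at h4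
  rw [allF_iff] at h4
  have h5 := h4 k
  simp only [beq_iff_eq, hka, hkb, hik, hjk, Bool.or_eq_true, false_or, or_false] at h5
  rw [allF_iff] at h5
  have h6 := h5 l
  simpa only [beq_iff_eq, hla, hlb, hil, hjl, hkl, Bool.or_eq_true, false_or, or_false] using h6

/-- the height function -/
noncomputable def w (B : Finset (Fin 8)) : ℝ := (Wn (mask B) : ℝ)

theorem mask_insert {i : Fin 8} {B : Finset (Fin 8)} (h : i ∉ B) :
    mask (insert i B) = 2 ^ (i : ℕ) + mask B := Finset.sum_insert h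

/-- the face of the lifted hypersimplex selected by `c` -/
def A (w : Finset (Fin 8) → ℝ) (c : Fin 8 → ℝ) : Set (Finset (Fin 8)) :=
  {B : Finset (Fin 8) | B.card = 4 ∧ ∀ B' : Finset (Fin 8), B'.card = 4 →
    w B - ∑ i ∈ B, c i ≤ w B' - ∑ i ∈ B', c i}

theorem sum_fs (m : ℕ) (c : Fin 8 → ℝ) :
    ∑ i ∈ fs m, c i = ∑ i : Fin 8, ((m.testBit i).toNat : ℝ) * c i := by
  unfold fs
  rw [Finset.sum_filter]
  apply Finset.sum_congr rfl
  intro i _
  cases m.testBit i <;> simp

theorem sum_cc (t : Fin 6) (m : ℕ) : ∑ i ∈ fs m, (cc t i : ℝ) = (lin t m : ℝ) := by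
  rw [sum_fs]
  unfold lin
  push_cast
  rfl

def cellP (t : Fin 6) (m : ℕ) : Prop := m ∈ masks ∧ (Wn m : ℤ) = lin t m - kk t

instance (t : Fin 6) (m : ℕ) : Decidable (cellP t m) := by unfold cellP; infer_instance

theorem w_fs {m : ℕ} (h : m ∈ masks) : w (fs m) = (Wn m : ℝ) := by
  unfold w
  rw [(fs_masks m h).2]

theorem mem_cell {t : Fin 6} {m : ℕ} (h : cellP t m) : fs m ∈ A w (fun i => (cc t i : ℝ)) := by
  refine ⟨(fs_masks m h.1).1, fun B' hB' => ?_⟩
  obtain ⟨h1, h2⟩ := fs_mask B' hB'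
  rw [← h1, w_fs h.1, w_fs h2, sum_cc, sum_cc]
  have h3 := lower t _ h2
  have h4 := h.2
  have h5 : (Wn m : ℝ) = lin t m - kk t := by exact_mod_cast h4
  have h6 : (lin t (mask B') : ℝ) - kk t ≤ (Wn (mask B') : ℝ) := by exact_mod_cast h3
  linarith

def bal (x o q r : ℕ) : Prop := ∀ i : Fin 8,
  (x.testBit i).toNat + (o.testBit i).toNat = (q.testBit i).toNat + (r.testBit i).toNat

instance (x o q r : ℕ) : Decidable (bal x o q r) := by unfold bal; infer_instance

theorem sum_bal {x o q r : ℕ} (h : bal x o q r) (c : Fin 8 → ℝ) :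
    ∑ i ∈ fs x, c i + ∑ i ∈ fs o, c i = ∑ i ∈ fs q, c i + ∑ i ∈ fs r, c i := by
  rw [sum_fs, sum_fs, sum_fs, sum_fs, ← Finset.sum_add_distrib, ← Finset.sum_add_distrib]
  apply Finset.sum_congr rfl
  intro i _
  rw [← add_mul, ← add_mul]
  congr 1
  exact_mod_cast h i

theorem A_eq {v : Finset (Fin 8) → ℝ} {c : Fin 8 → ℝ} {B B' : Finset (Fin 8)}
    (h : B ∈ A v c) (h' : B' ∈ A v c) : v B - ∑ i ∈ B, c i = v B' - ∑ i ∈ B', c i :=
  le_antisymm (h.2 B' h'.1) (h'.2 B h.1)

theorem rel {v : Finset (Fin 8) → ℝ} (hv : ∀ c : Fin 8 → ℝ, ∃ c' : Fin 8 → ℝ, A w c ⊆ A v c')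
    {t : Fin 6} {x o q r : ℕ} (hx : cellP t x) (ho : cellP t o) (hq : cellP t q)
    (hr : cellP t r) (hb : bal x o q r) :
    v (fs x) + v (fs o) = v (fs q) + v (fs r) := by
  obtain ⟨c', hc'⟩ := hv (fun i => (cc t i : ℝ))
  have h1 := A_eq (hc' (mem_cell hx)) (hc' (mem_cell hq))
  have h2 := A_eq (hc' (mem_cell ho)) (hc' (mem_cell hr))
  have h3 := sum_bal hb c'
  linarith

/-- one derivation step -/
def good (t : Fin 6) (x o q r : ℕ) (known : List ℕ) : Prop :=
  o ∈ known ∧ q ∈ known ∧ r ∈ known ∧ cellP t x ∧ cellP t o ∧ cellP t q ∧ cellP t r ∧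
    bal x o q r ∧ Wn x + Wn o = Wn q + Wn r

instance (t : Fin 6) (x o q r : ℕ) (known : List ℕ) : Decidable (good t x o q r known) := by
  unfold good; infer_instance

def run : List (Fin 6 × ℕ × ℕ × ℕ × ℕ) → List ℕ → Bool
  | [], known => masks.all fun m => decide (m ∈ known)
  | (t, x, o, q, r) :: rest, known => decide (good t x o q r known) && run rest (x :: known)

def steps : List (Fin 6 × ℕ × ℕ × ℕ × ℕ) :=
  [(1, 27, 150, 23, 154), (1, 39, 85, 23, 101), (1, 43, 90, 27, 106), (1, 99, 165, 39, 225),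
   (1, 83, 150, 23, 210), (1, 195, 113, 83, 225), (1, 51, 226, 99, 178), (1, 147, 89, 83, 153),
   (1, 163, 209, 147, 225), (1, 135, 209, 147, 197), (1, 139, 210, 195, 154),
   (2, 45, 166, 39, 172), (2, 46, 169, 45, 170), (2, 29, 101, 45, 85), (2, 30, 89, 29, 90),
   (2, 77, 172, 45, 204), (2, 142, 108, 46, 204), (2, 78, 154, 142, 90), (2, 15, 198, 135, 78),
   (2, 141, 85, 29, 197), (3, 53, 169, 45, 177), (3, 60, 23, 53, 30), (3, 54, 156, 150, 60),
   (3, 57, 180, 177, 60), (3, 58, 45, 57, 46), (4, 184, 106, 58, 232), (4, 120, 153, 89, 184),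
   (5, 71, 202, 195, 78), (5, 75, 198, 195, 78)]

def start : List ℕ := 23 :: masks.filter (fun m => Wn m = 0)

theorem run_ok : run steps start = true := by decide +kernel

theorem cell0 : ∀ m ∈ masks, Wn m = 0 → cellP 0 m := by decide +kernel

theorem cell0' : cellP 0 85 := by decide +kernel

theorem run_sound {v : Finset (Fin 8) → ℝ}
    (hv : ∀ c : Fin 8 → ℝ, ∃ c' : Fin 8 → ℝ, A w c ⊆ A v c') (c : Fin 8 → ℝ) (μ lam : ℝ) :
    ∀ (l : List (Fin 6 × ℕ × ℕ × ℕ × ℕ)) (known : List ℕ), run l known = true →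
      (∀ m ∈ known, v (fs m) = μ + ∑ i ∈ fs m, c i + lam * Wn m) →
      ∀ m ∈ masks, v (fs m) = μ + ∑ i ∈ fs m, c i + lam * Wn m
  | [], known, h, hk, m, hm => by
      simp only [run, List.all_eq_true, decide_eq_true_eq] at h
      exact hk m (h m hm)
  | (t, x, o, q, r) :: rest, known, h, hk, m, hm => by
      simp only [run, Bool.and_eq_true, decide_eq_true_eq] at h
      obtain ⟨hg, hrest⟩ := h
      refine run_sound hv c μ lam rest (x :: known) hrest ?_ m hm
      intro y hy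
      rcases List.mem_cons.1 hy with rfl | hy
      · obtain ⟨ho, hq, hr, cx, co, cq, cr, hb, hW⟩ := hg
        have h1 := rel hv cx co cq cr hb
        have h2 := sum_bal hb c
        have h3 : (Wn y : ℝ) + Wn o = Wn q + Wn r := by exact_mod_cast hW
        rw [hk o ho, hk q hq, hk r hr] at h1
        have h4 : lam * (Wn y : ℝ) + lam * Wn o = lam * Wn q + lam * Wn r := by
          rw [← mul_add, ← mul_add, h3]
        linarith
      · exact hk y hy

/-- rigidity: every coarsening is a nonnegative multiple of the height function plus an affine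
function -/
theorem rigid {v : Finset (Fin 8) → ℝ}
    (hv : ∀ c : Fin 8 → ℝ, ∃ c' : Fin 8 → ℝ, A w c ⊆ A v c') :
    ∃ (c : Fin 8 → ℝ) (μ lam : ℝ), 0 ≤ lam ∧
      ∀ B : Finset (Fin 8), B.card = 4 → v B = μ + ∑ i ∈ B, c i + lam * w B := by
  obtain ⟨c, hc⟩ := hv (fun i => (cc 0 i : ℝ))
  have h85 := hc (mem_cell cell0')
  have hW23 : Wn 23 = 1 := by decide +kernel
  have h23 : 23 ∈ masks := by decide
  refine ⟨c, v (fs 85) - ∑ i ∈ fs 85, c i,
    v (fs 23) - ∑ i ∈ fs 23, c i - (v (fs 85) - ∑ i ∈ fs 85, c i), ?_, ?_⟩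
  · have := h85.2 (fs 23) (fs_masks 23 h23).1
    linarith
  · intro B hB
    obtain ⟨h1, h2⟩ := fs_mask B hB
    have h3 := run_sound hv c (v (fs 85) - ∑ i ∈ fs 85, c i)
      (v (fs 23) - ∑ i ∈ fs 23, c i - (v (fs 85) - ∑ i ∈ fs 85, c i)) steps start run_ok ?_ _ h2
    · rw [h1] at h3
      exact h3
    · intro m hm
      rcases List.mem_cons.1 hm with rfl | hm
      · rw [hW23]
        push_cast
        ring
      · rw [List.mem_filter] at hm
        obtain ⟨hm1, hm2⟩ := hm
        have hm3 : Wn m = 0 := by simpa using hm2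
        have h4 := A_eq (hc (mem_cell (cell0 m hm1 hm3))) h85
        rw [hm3]
        push_cast
        linarith

theorem nontriv (c : Fin 8 → ℝ)
    (h : ∀ B : Finset (Fin 8), B.card = 4 → ∀ B' : Finset (Fin 8), B'.card = 4 →
      w B - ∑ i ∈ B, c i ≤ w B' - ∑ i ∈ B', c i) : False := by
  have m1 : 195 ∈ masks := by decide
  have m2 : 240 ∈ masks := by decide
  have m3 : 209 ∈ masks := by decide
  have m4 : 226 ∈ masks := by decide
  have e1 := h _ (fs_masks _ m1).1 _ (fs_masks _ m3).1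
  have e2 := h _ (fs_masks _ m2).1 _ (fs_masks _ m4).1
  have hb : bal 195 240 209 226 := by decide +kernel
  have hs := sum_bal hb c
  rw [w_fs m1, w_fs m3] at e1
  rw [w_fs m2, w_fs m4] at e2
  have w1 : Wn 195 = 1 := by decide +kernel
  have w2 : Wn 240 = 0 := by decide +kernel
  have w3 : Wn 209 = 0 := by decide +kernel
  have w4 : Wn 226 = 0 := by decide +kernel
  rw [w1, w3] at e1
  rw [w2, w4] at e2
  push_cast at e1 e2
  linarith

theorem A_scale {v : Finset (Fin 8) → ℝ} {c : Fin 8 → ℝ} {μ lam : ℝ} (hl : 0 < lam)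
    (h : ∀ B : Finset (Fin 8), B.card = 4 → v B = μ + ∑ i ∈ B, c i + lam * w B)
    (c0 : Fin 8 → ℝ) : A w c0 = A v (fun i => lam * c0 i + c i) := by
  have key : ∀ B : Finset (Fin 8), B.card = 4 →
      v B - ∑ i ∈ B, (lam * c0 i + c i) = μ + lam * (w B - ∑ i ∈ B, c0 i) := by
    intro B hB
    rw [h B hB, Finset.sum_add_distrib, ← Finset.mul_sum]
    ring
  ext B
  constructor
  · rintro ⟨h1, h2⟩
    refine ⟨h1, fun B' hB' => ?_⟩
    rw [key B h1, key B' hB']
    have := mul_le_mul_of_nonneg_left (h2 B' hB') hl.le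
    linarith
  · rintro ⟨h1, h2⟩
    refine ⟨h1, fun B' hB' => ?_⟩
    have h3 := h2 B' hB'
    rw [key B h1, key B' hB'] at h3
    exact le_of_mul_le_mul_left (by linarith) hl

theorem dressian (S : Finset (Fin 8)) (i j k l : Fin 8) (hS : S.card + 2 = 4)
    (hi : i ∉ S) (hj : j ∉ S) (hk : k ∉ S) (hl : l ∉ S)
    (hij : i ≠ j) (hik : i ≠ k) (hil : i ≠ l) (hjk : j ≠ k) (hjl : j ≠ l) (hkl : k ≠ l) :
    ((w (insert i (insert j S)) + w (insert k (insert l S))
            = w (insert i (insert k S)) + w (insert j (insert l S)) ∧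
          w (insert i (insert j S)) + w (insert k (insert l S))
            ≤ w (insert i (insert l S)) + w (insert j (insert k S))) ∨
         (w (insert i (insert j S)) + w (insert k (insert l S))
            = w (insert i (insert l S)) + w (insert j (insert k S)) ∧
          w (insert i (insert j S)) + w (insert k (insert l S))
            ≤ w (insert i (insert k S)) + w (insert j (insert l S))) ∨
         (w (insert i (insert k S)) + w (insert j (insert l S))
            = w (insert i (insert l S)) + w (insert j (insert k S)) ∧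
          w (insert i (insert k S)) + w (insert j (insert l S))
            ≤ w (insert i (insert j S)) + w (insert k (insert l S)))) := by
  have hS2 : S.card = 2 := by omega
  obtain ⟨a, b, hab, rfl⟩ := Finset.card_eq_two.1 hS2
  simp only [Finset.mem_insert, Finset.mem_singleton, not_or] at hi hj hk hl
  have key : ∀ x y : Fin 8, x ≠ y → x ≠ a → x ≠ b → y ≠ a → y ≠ b →
      w (insert x (insert y {a, b})) =
        (Wn (2 ^ (x : ℕ) + (2 ^ (y : ℕ) + (2 ^ (a : ℕ) + 2 ^ (b : ℕ)))) : ℝ) := by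
    intro x y hxy hxa hxb hya hyb
    unfold w
    rw [mask_insert (by simp [hxy, hxa, hxb]), mask_insert (by simp [hya, hyb])]
    rw [show ({a, b} : Finset (Fin 8)) = insert a {b} from rfl, mask_insert (by simpa using hab)]
    simp [mask]
  have hd := dress a b i j k l hab hi.1 hi.2 hj.1 hj.2 hij hk.1 hk.2 hik hjk hl.1 hl.2 hil hjl hkl
  rw [chk, decide_eq_true_eq, Cond] at hd
  rw [key i j hij hi.1 hi.2 hj.1 hj.2, key k l hkl hk.1 hk.2 hl.1 hl.2,
    key i k hik hi.1 hi.2 hk.1 hk.2, key j l hjl hj.1 hj.2 hl.1 hl.2,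
    key i l hil hi.1 hi.2 hl.1 hl.2, key j k hjk hj.1 hj.2 hk.1 hk.2]
  exact_mod_cast hd

theorem rk_ins (M : Matroid (Fin 8)) (B : Finset (Fin 8)) (e : Fin 8) :
    (M.eRk ((insert e B : Finset (Fin 8)) : Set (Fin 8))).toNat ≤
      (M.eRk (B : Set (Fin 8))).toNat + 1 := by
  have h1 : M.eRk (B : Set (Fin 8)) ≠ ⊤ := by
    have := M.eRk_le_encard (B : Set (Fin 8))
    exact ne_top_of_le_ne_top (by simp) this
  have h2 := M.eRk_insert_le_add_one e (B : Set (Fin 8))
  rw [← Finset.coe_insert] at h2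
  have h3 := ENat.toNat_le_toNat h2 (by simp [h1])
  rwa [ENat.toNat_add h1 (by simp)] at h3

theorem rk_mono (M : Matroid (Fin 8)) {B B' : Finset (Fin 8)} (h : B ⊆ B') :
    (M.eRk (B : Set (Fin 8))).toNat ≤ (M.eRk (B' : Set (Fin 8))).toNat := by
  apply ENat.toNat_le_toNat (M.eRk_mono (by exact_mod_cast h))
  exact ne_top_of_le_ne_top (by simp) (M.eRk_le_encard (B' : Set (Fin 8)))

theorem no_matroid (M : Matroid (Fin 8))
    (h1 : ∀ c : Fin 8 → ℝ, ∃ c' : Fin 8 → ℝ, A w c =
      A (fun B => (((4 : ℕ) : ℝ) - ((M.eRk (B : Set (Fin 8))).toNat : ℝ))) c')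
    (h2 : ∀ c : Fin 8 → ℝ, ∃ c' : Fin 8 → ℝ,
      A (fun B => (((4 : ℕ) : ℝ) - ((M.eRk (B : Set (Fin 8))).toNat : ℝ))) c = A w c') :
    False := by
  obtain ⟨c, μ, lam, hlam, hr⟩ := rigid (v := fun B =>
    (((4 : ℕ) : ℝ) - ((M.eRk (B : Set (Fin 8))).toNat : ℝ)))
    (fun c => (h1 c).imp fun c' h => h.le)
  have hpos : 0 < lam := by
    rcases hlam.lt_or_eq with h | h
    · exact h
    · exfalso
      obtain ⟨c', hc'⟩ := h2 c
      apply nontriv c'
      intro B hB B' hB'
      have hmem : B ∈ A w c' := by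
        rw [← hc']
        refine ⟨hB, fun B'' hB'' => ?_⟩
        beta_reduce
        rw [hr B hB, hr B'' hB'', ← h]
        simp
      exact hmem.2 B' hB'
  have m1 : 195 ∈ masks := by decide
  have m2 : 240 ∈ masks := by decide
  have m3 : 209 ∈ masks := by decide
  have m4 : 226 ∈ masks := by decide
  have m5 : 75 ∈ masks := by decide
  have m6 : 120 ∈ masks := by decide
  have m7 : 89 ∈ masks := by decide
  have m8 : 106 ∈ masks := by decide
  have w1 : Wn 195 = 1 := by decide +kernel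
  have w2 : Wn 240 = 0 := by decide +kernel
  have w3 : Wn 209 = 0 := by decide +kernel
  have w4 : Wn 226 = 0 := by decide +kernel
  have w5 : Wn 75 = 2 := by decide +kernel
  have w6 : Wn 120 = 1 := by decide +kernel
  have w7 : Wn 89 = 0 := by decide +kernel
  have w8 : Wn 106 = 0 := by decide +kernel
  have b1 : bal 195 240 209 226 := by decide +kernel
  have b2 : bal 75 120 89 106 := by decide +kernel
  have s1 := sum_bal b1 c
  have s2 := sum_bal b2 c
  have r1 := hr _ (fs_masks _ m1).1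
  have r2 := hr _ (fs_masks _ m2).1
  have r3 := hr _ (fs_masks _ m3).1
  have r4 := hr _ (fs_masks _ m4).1
  have r5 := hr _ (fs_masks _ m5).1
  have r6 := hr _ (fs_masks _ m6).1
  have r7 := hr _ (fs_masks _ m7).1
  have r8 := hr _ (fs_masks _ m8).1
  rw [w_fs m1, w1] at r1
  rw [w_fs m2, w2] at r2
  rw [w_fs m3, w3] at r3
  rw [w_fs m4, w4] at r4
  rw [w_fs m5, w5] at r5
  rw [w_fs m6, w6] at r6
  rw [w_fs m7, w7] at r7
  rw [w_fs m8, w8] at r8
  have i1 := rk_ins M (fs 73) 4
  have i2 := rk_ins M (fs 104) 1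
  have i3 := rk_mono M (show fs 73 ⊆ fs 75 by decide +kernel)
  have i4 := rk_mono M (show fs 104 ⊆ fs 120 by decide +kernel)
  rw [show insert 4 (fs 73) = fs 89 by decide +kernel] at i1
  rw [show insert 1 (fs 104) = fs 106 by decide +kernel] at i2
  have hle : (M.eRk (fs 89 : Set (Fin 8))).toNat + (M.eRk (fs 106 : Set (Fin 8))).toNat ≤
      (M.eRk (fs 75 : Set (Fin 8))).toNat + (M.eRk (fs 120 : Set (Fin 8))).toNat + 2 := by
    omega
  have hle' : ((M.eRk (fs 89 : Set (Fin 8))).toNat : ℝ) + (M.eRk (fs 106 : Set (Fin 8))).toNat ≤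
      (M.eRk (fs 75 : Set (Fin 8))).toNat + (M.eRk (fs 120 : Set (Fin 8))).toNat + 2 := by
    exact_mod_cast hle
  push_cast at r1 r2 r3 r4 r5 r6 r7 r8
  have g1 : lam = ((M.eRk (fs 209 : Set (Fin 8))).toNat : ℝ) +
      (M.eRk (fs 226 : Set (Fin 8))).toNat - (M.eRk (fs 195 : Set (Fin 8))).toNat -
      (M.eRk (fs 240 : Set (Fin 8))).toNat := by linarith
  have g3 : 3 * lam ≤ 2 := by linarith
  have g2 : (lam : ℝ) = (((M.eRk (fs 209 : Set (Fin 8))).toNat +
      (M.eRk (fs 226 : Set (Fin 8))).toNat - (M.eRk (fs 195 : Set (Fin 8))).toNat -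
      (M.eRk (fs 240 : Set (Fin 8))).toNat : ℤ) : ℝ) := by
    rw [g1]; push_cast; ring
  rw [g2] at hpos g3
  have k1 : (0 : ℤ) < ((M.eRk (fs 209 : Set (Fin 8))).toNat +
      (M.eRk (fs 226 : Set (Fin 8))).toNat - (M.eRk (fs 195 : Set (Fin 8))).toNat -
      (M.eRk (fs 240 : Set (Fin 8))).toNat : ℤ) := by exact_mod_cast hpos
  have k2 : 3 * ((M.eRk (fs 209 : Set (Fin 8))).toNat +
      (M.eRk (fs 226 : Set (Fin 8))).toNat - (M.eRk (fs 195 : Set (Fin 8))).toNat -
      (M.eRk (fs 240 : Set (Fin 8))).toNat : ℤ) ≤ 2 := by exact_mod_cast g3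
  omega

theorem result :
    ∃ d n : ℕ, ∃ w : Finset (Fin n) → ℝ,
      (∀ (S : Finset (Fin n)) (i j k l : Fin n), S.card + 2 = d →
        i ∉ S → j ∉ S → k ∉ S → l ∉ S →
        i ≠ j → i ≠ k → i ≠ l → j ≠ k → j ≠ l → k ≠ l →
        ((w (insert i (insert j S)) + w (insert k (insert l S))
            = w (insert i (insert k S)) + w (insert j (insert l S)) ∧
          w (insert i (insert j S)) + w (insert k (insert l S))
            ≤ w (insert i (insert l S)) + w (insert j (insert k S))) ∨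
         (w (insert i (insert j S)) + w (insert k (insert l S))
            = w (insert i (insert l S)) + w (insert j (insert k S)) ∧
          w (insert i (insert j S)) + w (insert k (insert l S))
            ≤ w (insert i (insert k S)) + w (insert j (insert l S))) ∨
         (w (insert i (insert k S)) + w (insert j (insert l S))
            = w (insert i (insert l S)) + w (insert j (insert k S)) ∧
          w (insert i (insert k S)) + w (insert j (insert l S))
            ≤ w (insert i (insert j S)) + w (insert k (insert l S))))) ∧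
      (¬ ∃ c : Fin n → ℝ, ∀ B : Finset (Fin n), B.card = d →
          ∀ B' : Finset (Fin n), B'.card = d →
            w B - ∑ i ∈ B, c i ≤ w B' - ∑ i ∈ B', c i) ∧
      (∀ v : Finset (Fin n) → ℝ,
        (∀ (S : Finset (Fin n)) (i j k l : Fin n), S.card + 2 = d →
          i ∉ S → j ∉ S → k ∉ S → l ∉ S →
          i ≠ j → i ≠ k → i ≠ l → j ≠ k → j ≠ l → k ≠ l →
          ((v (insert i (insert j S)) + v (insert k (insert l S))
              = v (insert i (insert k S)) + v (insert j (insert l S)) ∧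
            v (insert i (insert j S)) + v (insert k (insert l S))
              ≤ v (insert i (insert l S)) + v (insert j (insert k S))) ∨
           (v (insert i (insert j S)) + v (insert k (insert l S))
              = v (insert i (insert l S)) + v (insert j (insert k S)) ∧
            v (insert i (insert j S)) + v (insert k (insert l S))
              ≤ v (insert i (insert k S)) + v (insert j (insert l S))) ∨
           (v (insert i (insert k S)) + v (insert j (insert l S))
              = v (insert i (insert l S)) + v (insert j (insert k S)) ∧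
            v (insert i (insert k S)) + v (insert j (insert l S))
              ≤ v (insert i (insert j S)) + v (insert k (insert l S))))) →
        (∀ c : Fin n → ℝ, ∃ c' : Fin n → ℝ,
          {B : Finset (Fin n) | B.card = d ∧ ∀ B' : Finset (Fin n), B'.card = d →
              w B - ∑ i ∈ B, c i ≤ w B' - ∑ i ∈ B', c i} ⊆
          {B : Finset (Fin n) | B.card = d ∧ ∀ B' : Finset (Fin n), B'.card = d →
              v B - ∑ i ∈ B, c' i ≤ v B' - ∑ i ∈ B', c' i}) →
        (∃ c : Fin n → ℝ, ∀ B : Finset (Fin n), B.card = d →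
          ∀ B' : Finset (Fin n), B'.card = d →
            v B - ∑ i ∈ B, c i ≤ v B' - ∑ i ∈ B', c i) ∨
        ((∀ c : Fin n → ℝ, ∃ c' : Fin n → ℝ,
          {B : Finset (Fin n) | B.card = d ∧ ∀ B' : Finset (Fin n), B'.card = d →
              w B - ∑ i ∈ B, c i ≤ w B' - ∑ i ∈ B', c i} =
          {B : Finset (Fin n) | B.card = d ∧ ∀ B' : Finset (Fin n), B'.card = d →
              v B - ∑ i ∈ B, c' i ≤ v B' - ∑ i ∈ B', c' i}) ∧
         (∀ c : Fin n → ℝ, ∃ c' : Fin n → ℝ,
          {B : Finset (Fin n) | B.card = d ∧ ∀ B' : Finset (Fin n), B'.card = d →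
              v B - ∑ i ∈ B, c i ≤ v B' - ∑ i ∈ B', c i} =
          {B : Finset (Fin n) | B.card = d ∧ ∀ B' : Finset (Fin n), B'.card = d →
              w B - ∑ i ∈ B, c' i ≤ w B' - ∑ i ∈ B', c' i}))) ∧
      (¬ ∃ M : Matroid (Fin n), M.E = Set.univ ∧ M.eRank = (d : ℕ∞) ∧
        (∀ c : Fin n → ℝ, ∃ c' : Fin n → ℝ,
          {B : Finset (Fin n) | B.card = d ∧ ∀ B' : Finset (Fin n), B'.card = d →
              w B - ∑ i ∈ B, c i ≤ w B' - ∑ i ∈ B', c i} =
          {B : Finset (Fin n) | B.card = d ∧ ∀ B' : Finset (Fin n), B'.card = d →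
              ((d : ℝ) - ((M.eRk (B : Set (Fin n))).toNat : ℝ)) - ∑ i ∈ B, c' i ≤
              ((d : ℝ) - ((M.eRk (B' : Set (Fin n))).toNat : ℝ)) - ∑ i ∈ B', c' i}) ∧
        (∀ c : Fin n → ℝ, ∃ c' : Fin n → ℝ,
          {B : Finset (Fin n) | B.card = d ∧ ∀ B' : Finset (Fin n), B'.card = d →
              ((d : ℝ) - ((M.eRk (B : Set (Fin n))).toNat : ℝ)) - ∑ i ∈ B, c i ≤
              ((d : ℝ) - ((M.eRk (B' : Set (Fin n))).toNat : ℝ)) - ∑ i ∈ B', c i} =
          {B : Finset (Fin n) | B.card = d ∧ ∀ B' : Finset (Fin n), B'.card = d →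
              w B - ∑ i ∈ B, c' i ≤ w B' - ∑ i ∈ B', c' i})) := by
  refine ⟨4, 8, w, dressian, ?_, ?_, ?_⟩
  · rintro ⟨c, hc⟩
    exact nontriv c hc
  · intro v _ hv
    obtain ⟨c, μ, lam, hlam, hr⟩ := rigid (v := v) hv
    rcases hlam.lt_or_eq with hpos | h0
    · right
      refine ⟨fun c0 => ⟨fun i => lam * c0 i + c i, A_scale hpos hr c0⟩, fun c0 => ?_⟩
      refine ⟨fun i => (c0 i - c i) / lam, ?_⟩
      have h1 := A_scale hpos hr (fun i => (c0 i - c i) / lam)
      have h2 : (fun i => lam * ((c0 i - c i) / lam) + c i) = c0 := by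
        funext i
        field_simp
        ring
      rw [h2] at h1
      exact h1.symm
    · left
      refine ⟨c, fun B hB B' hB' => ?_⟩
      rw [hr B hB, hr B' hB', ← h0]
      simp
  · rintro ⟨M, -, -, h1, h2⟩
    exact no_matroid M h1 h2

end Pool.Agent.S07891
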