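import Pool.Statements.S07942
-- import your own Pool.Agent.* helpers here

set_option autoImplicit false
open Pool Pool.MP_30ed83_co

namespace Pool.Agent.S07942

/-- `f` traces a closed walk of length `L` -/
def CW {V : Type} (G : SimpleGraph V) (L : ℕ) (f : ℕ → V) : Prop :=
  f 0 = f L ∧ ∀ i < L, G.Adj (f i) (f (i + 1))

theorem exists_min {V : Type} (G : SimpleGraph V) (h : ¬ G.Colorable 2) :
    ∃ (L : ℕ) (f : ℕ → V), Odd L ∧ CW G L f ∧ ∀ (L' : ℕ) (f' : ℕ → V), Odd L' → CW G L' f' → L ≤ L' := by
  classical
  rw [SimpleGraph.two_colorable_iff_forall_loop_even] at h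
  push Not at h
  obtain ⟨u, w, hw⟩ := h
  have hex : ∃ L, Odd L ∧ ∃ f : ℕ → V, CW G L f := by
    refine ⟨w.length, Nat.not_even_iff_odd.1 hw, w.getVert, ?_, ?_⟩
    · rw [SimpleGraph.Walk.getVert_zero, SimpleGraph.Walk.getVert_length]
    · intro i hi
      exact w.adj_getVert_succ hi
  obtain ⟨h1, f, hf⟩ := Nat.find_spec hex
  refine ⟨Nat.find hex, f, h1, hf, fun L' f' ho hc => Nat.find_min' hex ⟨ho, f', hc⟩⟩

theorem chord {V : Type} {G : SimpleGraph V} {L : ℕ} {f : ℕ → V} (hL : Odd L) (hf : CW G L f)
    (hmin : ∀ (L' : ℕ) (f' : ℕ → V), Odd L' → CW G L' f' → L ≤ L') {i j : ℕ} (hij : i < j)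
    (hj : j < L) (ha : G.Adj (f i) (f j)) : j = i + 1 ∨ (i = 0 ∧ j + 1 = L) := by
  rcases Nat.even_or_odd (j - i) with he | ho
  · -- the part between is an odd closed walk
    right
    have h1 : Odd (j - i + 1) := he.add_one
    have h2 : CW G (j - i + 1) (fun k => if k ≤ j - i then f (i + k) else f i) := by
      refine ⟨?_, ?_⟩
      · simp
      · intro k hk
        have hk' : k ≤ j - i := by omega
        simp only [hk', if_true]
        by_cases hk2 : k + 1 ≤ j - i
        · simp only [hk2, if_true]
          exact hf.2 (i + k) (by omega)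
        · simp only [hk2, if_false]
          have : i + k = j := by omega
          rw [this]
          exact ha.symm
    have := hmin _ _ h1 h2
    omega
  · left
    have h1 : Odd (i + 1 + (L - j)) := by
      obtain ⟨a, ha'⟩ := ho
      obtain ⟨b, hb⟩ := hL
      exact ⟨b - a, by omega⟩
    have h2 : CW G (i + 1 + (L - j)) (fun k => if k ≤ i then f k else f (j + (k - i - 1))) := by
      refine ⟨?_, ?_⟩
      · have : ¬ (i + 1 + (L - j) ≤ i) := by omega
        simp only [Nat.zero_le, if_true, this, if_false]
        have : j + (i + 1 + (L - j) - i - 1) = L := by omega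
        rw [this]
        exact hf.1
      · intro k hk
        by_cases hk1 : k + 1 ≤ i
        · have hk2 : k ≤ i := by omega
          simp only [hk1, hk2, if_true]
          exact hf.2 k (by omega)
        · by_cases hk2 : k ≤ i
          · simp only [hk1, hk2, if_true, if_false]
            have e1 : k = i := by omega
            subst e1
            have : j + (k + 1 - k - 1) = j := by omega
            rw [this]
            exact ha
          · simp only [hk1, hk2, if_false]
            have : j + (k + 1 - i - 1) = j + (k - i - 1) + 1 := by omega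
            rw [this]
            exact hf.2 _ (by omega)
    have := hmin _ _ h1 h2
    omega

theorem nbrs {V : Type} {G : SimpleGraph V} {L : ℕ} {f : ℕ → V} (hL : Odd L) (hf : CW G L f)
    (hmin : ∀ (L' : ℕ) (f' : ℕ → V), Odd L' → CW G L' f' → L ≤ L') {i : ℕ} (hi : i < L) :
    ∃ a b : V, ∀ j < L, G.Adj (f i) (f j) → f j = a ∨ f j = b := by
  refine ⟨f (i + 1), if i = 0 then f (L - 1) else f (i - 1), ?_⟩
  intro j hj ha
  rcases lt_trichotomy i j with hlt | heq | hgt
  · rcases chord hL hf hmin hlt hj ha with h | h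
    · left; rw [h]
    · right
      rw [if_pos h.1]
      congr 1
      omega
  · subst heq
    exact absurd ha (SimpleGraph.irrefl _)
  · rcases chord hL hf hmin hgt hi ha.symm with h | h
    · right
      rw [if_neg (by omega)]
      congr 1
      omega
    · left
      rw [h.1, h.2]
      exact hf.1

theorem not_col {V : Type} {G : SimpleGraph V} {L : ℕ} {f : ℕ → V} (hL : Odd L) (hf : CW G L f)
    (c : V → Fin 2) (hc : ∀ i < L, c (f i) ≠ c (f (i + 1))) : False := by
  have h : ∀ i ≤ L, (c (f i) = c (f 0) ↔ Even i) := by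
    intro i
    induction i with
    | zero => simp
    | succ k ih =>
      intro hk
      have h1 := ih (by omega)
      have h2 := hc k (by omega)
      rw [Nat.even_add_one, ← h1]
      exact (show ∀ x y z : Fin 2, x ≠ y → (y = z ↔ ¬ x = z) by decide) _ _ _ h2
  have h1 := (h L le_rfl).1 (by rw [← hf.1])
  exact (Nat.not_even_iff_odd.2 hL) h1

/-- the claw -/
def claw : SimpleGraph (Fin 4) where
  Adj i j := (i = 0 ∧ j ≠ 0) ∨ (j = 0 ∧ i ≠ 0)
  symm := ⟨fun i j h => h.symm⟩
  loopless := ⟨fun i h => by rcases h with h | h <;> exact h.2 h.1⟩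

/-- The negation of the preceding statement: For every finite graph F with an edge and every r, some finite graph G has chromatic number above r and clique number equal to F's, and every induced subgraph of G with no induced copy of F has chromatic number at most that of F. -/
theorem result :
    ¬ (∀ (n : ℕ) (F : SimpleGraph (Fin n)), F ≠ ⊥ →
      ∀ r : ℕ, ∃ (m : ℕ) (G : SimpleGraph (Fin m)),
        (r : ℕ∞) < G.chromaticNumber ∧
        G.cliqueNum = F.cliqueNum ∧
        ∀ s : Set (Fin m), ¬ F.IsIndContained (G.induce s) →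
          (G.induce s).chromaticNumber ≤ F.chromaticNumber) := by
  intro H
  have hne : claw ≠ ⊥ := by
    intro h
    have h1 : claw.Adj 0 1 := Or.inl ⟨rfl, by decide⟩
    rw [h] at h1
    exact h1
  obtain ⟨m, G, h1, -, h3⟩ := H 4 claw hne 2
  have hG : ¬ G.Colorable 2 := by
    intro h
    have := SimpleGraph.chromaticNumber_le_iff_colorable.2 h
    exact absurd h1 (not_lt.2 this)
  obtain ⟨L, f, hL, hf, hmin⟩ := exists_min G hG
  set s : Set (Fin m) := {v | ∃ i < L, f i = v} with hs
  have hL0 : 0 < L := hL.pos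
  have hno : ¬ claw.IsIndContained (G.induce s) := by
    rintro ⟨e⟩
    obtain ⟨i, hi, hfi⟩ := (e 0).2
    obtain ⟨a, b, hab⟩ := nbrs hL hf hmin hi
    have key : ∀ k : Fin 4, k ≠ 0 → ((e k : s) : Fin m) = a ∨ ((e k : s) : Fin m) = b := by
      intro k hk
      obtain ⟨j, hj, hfj⟩ := (e k).2
      have hadj : claw.Adj 0 k := Or.inl ⟨rfl, hk⟩
      have h4 : (G.induce s).Adj (e 0) (e k) := e.map_rel_iff.2 hadj
      have h5 : G.Adj (e 0 : s) (e k : s) := h4
      rw [← hfi, ← hfj] at h5
      have := hab j hj h5
      rw [hfj] at this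
      exact this
    have hinj : ∀ k l : Fin 4, ((e k : s) : Fin m) = ((e l : s) : Fin m) → k = l := by
      intro k l h
      exact e.injective (Subtype.ext h)
    have k1 := key 1 (by decide)
    have k2 := key 2 (by decide)
    have k3 := key 3 (by decide)
    have n12 : ((e 1 : s) : Fin m) = ((e 2 : s) : Fin m) → False :=
      fun h => absurd (hinj 1 2 h) (by decide)
    have n13 : ((e 1 : s) : Fin m) = ((e 3 : s) : Fin m) → False :=
      fun h => absurd (hinj 1 3 h) (by decide)
    have n23 : ((e 2 : s) : Fin m) = ((e 3 : s) : Fin m) → False :=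
      fun h => absurd (hinj 2 3 h) (by decide)
    rcases k1 with k1 | k1 <;> rcases k2 with k2 | k2 <;> rcases k3 with k3 | k3
    · exact n12 (k1.trans k2.symm)
    · exact n12 (k1.trans k2.symm)
    · exact n13 (k1.trans k3.symm)
    · exact n23 (k2.trans k3.symm)
    · exact n23 (k2.trans k3.symm)
    · exact n13 (k1.trans k3.symm)
    · exact n12 (k1.trans k2.symm)
    · exact n12 (k1.trans k2.symm)
  have h6 := h3 s hno
  have hcl : claw.chromaticNumber ≤ 2 := by
    refine SimpleGraph.chromaticNumber_le_iff_colorable.2 ⟨SimpleGraph.Coloring.mk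
      (fun i => if i = 0 then (0 : Fin 2) else 1) ?_⟩
    intro u v huv
    rcases huv with h | h
    · rw [if_pos h.1, if_neg h.2]; decide
    · rw [if_pos h.1, if_neg h.2]; decide
  have h7 : (G.induce s).Colorable 2 :=
    SimpleGraph.chromaticNumber_le_iff_colorable.1 (h6.trans hcl)
  obtain ⟨C⟩ := h7
  have hmem : ∀ i ≤ L, f i ∈ s := by
    intro i hi
    rcases hi.lt_or_eq with h | h
    · exact ⟨i, h, rfl⟩
    · subst h
      rw [← hf.1]
      exact ⟨0, hL0, rfl⟩
  classical
  refine not_col hL hf (fun v => if h : v ∈ s then C ⟨v, h⟩ else 0) ?_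
  intro i hi
  simp only [hmem i hi.le, hmem (i + 1) hi, dif_pos]
  exact C.valid (show G.Adj (f i) (f (i + 1)) from hf.2 i hi)

end Pool.Agent.S07942
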