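import Pool.Statements.S07963
import Pool.Agent.Y491.Chrom

set_option autoImplicit false
open Pool Pool.MP_31cced_co

namespace Pool.Agent.S07963

/-- For every finite simple graph G on n vertices with clique number ω and every integer λ ≥ n, the number of proper (λ−1)-colourings divided by the number of proper λ-colourings is at most (1−ω/λ)(1−1/λ)^(n−ω). -/
theorem result :
    ∀ (V : Type) [Fintype V] (G : SimpleGraph V) (lam : ℕ),
      Fintype.card V ≤ lam →
      (Nat.card (G.Coloring (Fin (lam - 1))) : ℝ) / (Nat.card (G.Coloring (Fin lam)) : ℝ)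
        ≤ (1 - ((sSup {k : ℕ | ∃ s : Finset V, G.IsNClique k s} : ℕ) : ℝ) / (lam : ℝ))
          * (1 - 1 / (lam : ℝ)) ^ (Fintype.card V - sSup {k : ℕ | ∃ s : Finset V, G.IsNClique k s}) := by
  classical
  intro V _ G lam hn
  obtain ⟨s, hs⟩ : ∃ s : Finset V, G.IsNClique (sSup {k : ℕ | ∃ s : Finset V, G.IsNClique k s}) s := by
    have hne : {k : ℕ | ∃ s : Finset V, G.IsNClique k s}.Nonempty :=
      ⟨0, ∅, by simp [SimpleGraph.isNClique_iff, SimpleGraph.isClique_iff]⟩
    have hbd : BddAbove {k : ℕ | ∃ s : Finset V, G.IsNClique k s} := by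
      refine ⟨Fintype.card V, ?_⟩
      rintro k ⟨s, hs⟩
      rw [← hs.card_eq]
      exact Finset.card_le_univ _
    exact Nat.sSup_mem hne hbd
  rw [← hs.card_eq]
  have hsn : s.card ≤ Fintype.card V := Finset.card_le_univ _
  by_cases h2 : 2 ≤ lam
  · have h := Y491.Chrom.main lam h2 hn G s (fun u hu v hv huv => hs.isClique hu hv huv)
    rw [Y491.Chrom.card_coloring, Y491.Chrom.card_coloring]
    apply div_le_of_le_mul₀ (Nat.cast_nonneg _)
      (Y491.Chrom.rho_nonneg _ _ _ (hsn.trans hn) (by omega))
    exact h
  · rcases isEmpty_or_nonempty V with hV | hV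
    · have h0 : Fintype.card V = 0 := Fintype.card_eq_zero
      have hs0 : s.card = 0 := by omega
      rw [hs0, h0]
      have hc : ∀ q : ℕ, Nat.card (G.Coloring (Fin q)) = 1 := by
        intro q
        rw [Y491.Chrom.card_coloring, Finset.card_eq_one]
        refine ⟨fun v => (hV.false v).elim, ?_⟩
        ext φ
        rw [Y491.Chrom.mem_Col, Finset.mem_singleton]
        constructor
        · intro _; ext v; exact (hV.false v).elim
        · intro _ u; exact (hV.false u).elim
      rw [hc, hc]
      simp
    · have hpos : 0 < Fintype.card V := Fintype.card_pos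
      have hl : lam = 1 := by omega
      subst hl
      have hc : Nat.card (G.Coloring (Fin (1 - 1))) = 0 := by
        rw [Y491.Chrom.card_coloring, Finset.card_eq_zero, Finset.eq_empty_iff_forall_notMem]
        intro φ _
        obtain ⟨v⟩ := hV
        exact Fin.elim0 (φ v)
      rw [hc]
      simp only [Nat.cast_zero, zero_div]
      exact Y491.Chrom.rho_nonneg _ _ _ (hsn.trans hn) le_rfl

end Pool.Agent.S07963
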