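import Pool.Statements.S07995
import Pool.Agent.W244.RevPerm

set_option autoImplicit false
open Pool Pool.MP_32c2cb_co

namespace Pool.Agent.S07995

/-- There is a real constant C such that for every n, any set of permutations of n points in which every two distinct members swap the images of some two distinct points has at most C^n elements. -/
theorem result :
    ∃ C : ℝ, ∀ n : ℕ, ∀ A : Finset (Equiv.Perm (Fin n)),
      (∀ σ ∈ A, ∀ π ∈ A, σ ≠ π →
        ∃ i j : Fin n, i ≠ j ∧ σ i = π j ∧ σ j = π i) →
      (A.card : ℝ) ≤ C ^ n := by
  refine ⟨2, fun n A hA => ?_⟩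
  exact_mod_cast Pool.Agent.W244.RevPerm.card_le A hA

end Pool.Agent.S07995
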