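import Pool.Statements.S08181
import Pool.Agent.Y389.LS.Final

set_option autoImplicit false
open Pool Pool.MP_3a2c26_co

namespace Pool.Agent.S08181

/-- Take any symmetric weights in [0,1] on n ≥ 2 vertices. For nonzero x, y orthogonal to all-ones, the Laplacian Rayleigh quotient of x for G plus that of y for the complement (weights 1−w) is ≥ 1, i.e. λ₂(G)+λ₂(Gᶜ) ≥ 1. -/
theorem result :
    ∀ n : ℕ, 2 ≤ n →
      ∀ w : Fin n → Fin n → ℝ,
        (∀ i j, w i j = w j i) →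
        (∀ i j, 0 ≤ w i j ∧ w i j ≤ 1) →
        ∀ x y : Fin n → ℝ,
          (∑ i, x i = 0) → (∑ i, y i = 0) → x ≠ 0 → y ≠ 0 →
          1 ≤ (∑ i, ∑ j, w i j * (x i - x j) ^ 2) / (2 * ∑ i, x i ^ 2)
            + (∑ i, ∑ j, (1 - w i j) * (y i - y j) ^ 2) / (2 * ∑ i, y i ^ 2) := by
  intro n _ w _ hw x y sx sy hx hy
  exact Pool.Agent.Y389.LS.rayleigh hw sx sy hx hy

end Pool.Agent.S08181
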