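import Pool.Statements.S08201
import Pool.Agent.Y415.Frac.J

set_option autoImplicit false
open Pool Pool.MP_3ae7ea_co

namespace Pool.Agent.S08201

/-- For each r ≥ 4 and each ε > 0, for all large enough d, every finite d-degenerate graph with no r-clique has fractional chromatic number at most ε·d. -/
theorem result :
    ∀ r : ℕ, 4 ≤ r → ∀ ε : ℝ, 0 < ε → ∃ D : ℕ, ∀ d : ℕ, D ≤ d →
      ∀ (n : ℕ) (G : SimpleGraph (Fin n)) [DecidableRel G.Adj],
        G.CliqueFree r →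
        (∀ S : Finset (Fin n), S.Nonempty →
            ∃ v ∈ S, (S.filter (fun u => G.Adj v u)).card ≤ d) →
        ∃ w : Finset (Fin n) → ℝ,
          (∀ I, 0 ≤ w I) ∧
          (∀ I, w I ≠ 0 → G.IsIndepSet (↑I : Set (Fin n))) ∧
          (∀ v : Fin n, 1 ≤ ∑ I ∈ Finset.univ.filter (fun I : Finset (Fin n) => v ∈ I), w I) ∧
          (∑ I, w I) ≤ ε * (d : ℝ) := by
  intro r hr ε hε
  obtain ⟨D, hD⟩ := Pool.Agent.Y415.Frac.frac_graph r hr ε hε
  refine ⟨D, ?_⟩
  intro d hd n G _ hG hdeg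
  obtain ⟨w, w0, w1, w2, w3⟩ := hD d hd n G hG (by
    intro S hS
    obtain ⟨v, hv, h⟩ := hdeg S hS
    refine ⟨v, hv, ?_⟩
    convert h)
  refine ⟨w, w0, w1, ?_, w3⟩
  intro v
  have h := w2 v
  convert h

end Pool.Agent.S08201
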