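import Pool.Statements.S08268

set_option autoImplicit false
open Pool Pool.MP_3df3be_co

namespace Pool.Agent.S08268

/-- The image of a subsquare's columns in one of its rows is the whole symbol set. -/
theorem row_image {L : Fin 8 → Fin 8 → Fin 8} (hL : ∀ i, Function.Bijective (L i))
    {R C S : Finset (Fin 8)} (hCS : C.card = S.card)
    (h : ∀ r ∈ R, ∀ c ∈ C, L r c ∈ S) {r : Fin 8} (hr : r ∈ R) : C.image (L r) = S := by
  apply Finset.eq_of_subset_of_card_le
  · intro x hx
    obtain ⟨c, hc, rfl⟩ := Finset.mem_image.1 hx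
    exact h r hr c hc
  · rw [Finset.card_image_of_injective _ (hL r).1, hCS]

theorem row_iff {L : Fin 8 → Fin 8 → Fin 8} (hL : ∀ i, Function.Bijective (L i))
    {R C S : Finset (Fin 8)} (hCS : C.card = S.card)
    (h : ∀ r ∈ R, ∀ c ∈ C, L r c ∈ S) {r : Fin 8} (hr : r ∈ R) (c : Fin 8) :
    L r c ∈ S ↔ c ∈ C := by
  constructor
  · intro hc
    rw [← row_image hL hCS h hr] at hc
    obtain ⟨c', hc', he⟩ := Finset.mem_image.1 hc
    rwa [← (hL r).1 he]
  · intro hc
    exact h r hr c hc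

/-- If a latin square of order 8 has a subsquare of order 4, the symbols split along it. -/
theorem split {L : Fin 8 → Fin 8 → Fin 8} (hL : ∀ i, Function.Bijective (L i))
    (hK : ∀ j, Function.Bijective (fun i => L i j))
    {R C S : Finset (Fin 8)} (hR : R.card = 4) (hC : C.card = 4) (hS : S.card = 4)
    (h : ∀ r ∈ R, ∀ c ∈ C, L r c ∈ S) (r c : Fin 8) :
    L r c ∈ S ↔ (r ∈ R ↔ c ∈ C) := by
  by_cases hr : r ∈ R
  · rw [row_iff hL (hC.trans hS.symm) h hr]
    tauto
  · -- row outside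
    have h' : ∀ c' ∈ C, ∀ r' ∈ R, L r' c' ∈ S := fun c' hc' r' hr' => h r' hr' c' hc'
    have hcol : ∀ c' ∈ C, L r c' ∉ S := by
      intro c' hc' hmem
      have := (row_iff (L := fun a b => L b a) hK (hR.trans hS.symm) h' hc' r).1 hmem
      exact hr this
    -- the row r maps C onto the complement of S
    have himg : C.image (L r) = Sᶜ := by
      apply Finset.eq_of_subset_of_card_le
      · intro x hx
        obtain ⟨c', hc', rfl⟩ := Finset.mem_image.1 hx
        exact Finset.mem_compl.2 (hcol c' hc')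
      · rw [Finset.card_image_of_injective _ (hL r).1, hC, Finset.card_compl, hS]
        simp
    constructor
    · intro hmem
      constructor
      · intro h1; exact absurd h1 hr
      · intro hc; exact absurd hmem (hcol c hc)
    · intro hiff
      by_contra hn
      have : L r c ∈ C.image (L r) := by
        rw [himg]; exact Finset.mem_compl.2 hn
      obtain ⟨c', hc', he⟩ := Finset.mem_image.1 this
      have : c ∈ C := by rwa [← (hL r).1 he]
      exact hr (hiff.2 this)

/-- A subsquare of order 3 has all its rows on one side. -/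
theorem side {L : Fin 8 → Fin 8 → Fin 8} (hL : ∀ i, Function.Bijective (L i))
    {R1 C1 S1 R C S : Finset (Fin 8)}
    (hs : ∀ r c, L r c ∈ S1 ↔ (r ∈ R1 ↔ c ∈ C1))
    (hC : C.card = 3) (hS : S.card = 3)
    (h : ∀ r ∈ R, ∀ c ∈ C, L r c ∈ S) : R ⊆ R1 ∨ R ⊆ R1ᶜ := by
  by_contra hcon
  push Not at hcon
  obtain ⟨h1, h2⟩ := hcon
  obtain ⟨a, ha, ha1⟩ := Finset.not_subset.1 h1
  obtain ⟨b, hb, hb1⟩ := Finset.not_subset.1 h2
  rw [Finset.mem_compl, not_not] at hb1
  have key : ∀ r ∈ R, (C.filter (fun c => L r c ∈ S1)).card = (S ∩ S1).card := by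
    intro r hr
    rw [← Finset.card_image_of_injective (C.filter (fun c => L r c ∈ S1)) (hL r).1]
    congr 1
    ext x
    simp only [Finset.mem_image, Finset.mem_filter, Finset.mem_inter]
    constructor
    · rintro ⟨c, ⟨hc, hc1⟩, rfl⟩
      exact ⟨h r hr c hc, hc1⟩
    · rintro ⟨hx, hx1⟩
      rw [← row_image hL (hC.trans hS.symm) h hr] at hx
      obtain ⟨c, hc, rfl⟩ := Finset.mem_image.1 hx
      exact ⟨c, ⟨hc, hx1⟩, rfl⟩
  have ka := key a ha
  have kb := key b hb
  have ea : C.filter (fun c => L a c ∈ S1) = C.filter (fun c => ¬ c ∈ C1) := by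
    apply Finset.filter_congr
    intro c _
    rw [hs]
    tauto
  have eb : C.filter (fun c => L b c ∈ S1) = C.filter (fun c => c ∈ C1) := by
    apply Finset.filter_congr
    intro c _
    rw [hs]
    tauto
  rw [ea] at ka
  rw [eb] at kb
  have := Finset.card_filter_add_card_filter_not (s := C) (fun c => c ∈ C1)
  omega

theorem key {L : Fin 8 → Fin 8 → Fin 8} (hL : ∀ i, Function.Bijective (L i))
    (hK : ∀ j, Function.Bijective (fun i => L i j))
    {R2 C2 S2 R C S : Finset (Fin 8)} (hR2 : R2.card = 4) (hS2 : S2.card = 4)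
    (h2 : ∀ r ∈ R2, ∀ c ∈ C2, L r c ∈ S2)
    (hR : R.card = 3) (hC : C.card = 3) (hS : S.card = 3)
    (hRR : R ⊆ R2) (hCC : C ⊆ C2)
    (h : ∀ r ∈ R, ∀ c ∈ C, L r c ∈ S) : False := by
  obtain ⟨r0, hr0, hr0'⟩ : ∃ r ∈ R2, r ∉ R := by
    apply Finset.exists_mem_notMem_of_card_lt_card
    omega
  have hne : ∀ c ∈ C, L r0 c ∉ S := by
    intro c hc hmem
    have h' : ∀ c' ∈ C, ∀ r' ∈ R, L r' c' ∈ S := fun c' hc' r' hr' => h r' hr' c' hc'
    exact hr0' ((row_iff (L := fun a b => L b a) hK (hR.trans hS.symm) h' hc r0).1 hmem)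
  have hSS : S ⊆ S2 := by
    obtain ⟨r, hr⟩ : R.Nonempty := Finset.card_pos.1 (by omega)
    rw [← row_image hL (hC.trans hS.symm) h hr]
    intro x hx
    obtain ⟨c, hc, rfl⟩ := Finset.mem_image.1 hx
    exact h2 r (hRR hr) c (hCC hc)
  have hsub : C.image (L r0) ⊆ S2 \ S := by
    intro x hx
    obtain ⟨c, hc, rfl⟩ := Finset.mem_image.1 hx
    exact Finset.mem_sdiff.2 ⟨h2 r0 hr0 c (hCC hc), hne c hc⟩
  have := Finset.card_le_card hsub
  rw [Finset.card_image_of_injective _ (hL r0).1, Finset.card_sdiff_of_subset hSS] at this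
  omega

/-- The negation of the preceding statement: For every n there is a latin square of order n such that, for each m with 1 ≤ m and 2m ≤ n, some m rows and m columns meet in an m×m subarray using only m symbols, i.e. a latin subsquare of order m. -/
theorem result :
    ¬ (∀ n : ℕ, ∃ L : Fin n → Fin n → Fin n,
      (∀ i : Fin n, Function.Bijective (L i)) ∧
      (∀ j : Fin n, Function.Bijective (fun i : Fin n => L i j)) ∧
      ∀ m : ℕ, 1 ≤ m → 2 * m ≤ n →
        ∃ R C S : Finset (Fin n),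
          R.card = m ∧ C.card = m ∧ S.card = m ∧
          ∀ r ∈ R, ∀ c ∈ C, L r c ∈ S) := by
  intro H
  obtain ⟨L, hL, hK, hsub⟩ := H 8
  obtain ⟨R1, C1, S1, hR1, hC1, hS1, h1⟩ := hsub 4 (by norm_num) (by norm_num)
  obtain ⟨R, C, S, hR, hC, hS, h⟩ := hsub 3 (by norm_num) (by norm_num)
  have hs := split hL hK hR1 hC1 hS1 h1
  have hs' : ∀ r c, L c r ∈ S1 ↔ (r ∈ C1 ↔ c ∈ R1) := by
    intro r c; rw [hs]; tauto
  have sideR := side hL hs hC hS h
  have sideC := side (L := fun a b => L b a) hK hs' hR hS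
    (fun c hc r hr => h r hr c hc)
  have cR : R1ᶜ.card = 4 := by rw [Finset.card_compl, hR1]; simp
  have cS : S1ᶜ.card = 4 := by rw [Finset.card_compl, hS1]; simp
  rcases sideR with hr | hr <;> rcases sideC with hc | hc
  · exact key hL hK hR1 hS1 (fun r hr' c hc' => (hs r c).2 (by tauto)) hR hC hS hr hc h
  · refine key hL hK hR1 cS (C2 := C1ᶜ) (fun r hr' c hc' => ?_) hR hC hS hr hc h
    rw [Finset.mem_compl] at hc' ⊢
    rw [hs]; tauto
  · refine key hL hK cR cS (C2 := C1) (fun r hr' c hc' => ?_) hR hC hS hr hc h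
    rw [Finset.mem_compl] at hr' ⊢
    rw [hs]; tauto
  · refine key hL hK cR hS1 (C2 := C1ᶜ) (fun r hr' c hc' => ?_) hR hC hS hr hc h
    rw [Finset.mem_compl] at hr' hc'
    rw [hs]; tauto

end Pool.Agent.S08268
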