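import Pool.Statements.S08351
import Pool.Agent.Y415.Frac.M

set_option autoImplicit false
open Pool Pool.MP_4146e4_co

namespace Pool.Agent.S08351

/-- For every r ≥ 3 there are c > 0 and d₀ such that for all d ≥ d₀, every finite K_r-free d-degenerate graph with chromatic number exactly d+1 has at least e^{c·d} vertices. -/
theorem result :
    ∀ r : ℕ, 3 ≤ r → ∃ c : ℝ, 0 < c ∧ ∃ d₀ : ℕ, ∀ d : ℕ, d₀ ≤ d →
      ∀ (V : Type) [Fintype V] (G : SimpleGraph V),
        G.CliqueFree r →
        (∀ s : Set V, s.Nonempty → ∃ v ∈ s, (G.neighborSet v ∩ s).ncard ≤ d) →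
        G.chromaticNumber = ((d + 1 : ℕ) : ℕ∞) →
        Real.exp (c * (d : ℝ)) ≤ (Fintype.card V : ℝ) := by
  exact Pool.Agent.Y415.Frac.order_bound

end Pool.Agent.S08351
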