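import Pool.Statements.S08467
-- import your own Pool.Agent.* helpers here

set_option autoImplicit false
open Pool Pool.MP_45c2e2_co

namespace Pool.Agent.S08467

/-- The cubic Veronese map, written with 101 (repeated) monomials. -/
noncomputable def V (y : Fin 4 → ℕ) : Fin 101 → ℝ := fun i =>
  ((1 + y (Fin.ofNat 4 i.1) * y (Fin.ofNat 4 (i.1 / 4)) * y (Fin.ofNat 4 (i.1 / 16)) : ℕ) : ℝ)

lemma V_apply (y : Fin 4 → ℕ) (a b c : Fin 4) (h : a.1 + 4 * b.1 + 16 * c.1 < 101) :
    V y ⟨a.1 + 4 * b.1 + 16 * c.1, h⟩ = 1 + (y a : ℝ) * y b * y c := by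
  have h1 : Fin.ofNat 4 (a.1 + 4 * b.1 + 16 * c.1) = a := by
    apply Fin.ext
    simp only [Fin.ofNat]
    have := a.2
    omega
  have h2 : Fin.ofNat 4 ((a.1 + 4 * b.1 + 16 * c.1) / 4) = b := by
    apply Fin.ext
    simp only [Fin.ofNat]
    have := a.2
    have := b.2
    omega
  have h3 : Fin.ofNat 4 ((a.1 + 4 * b.1 + 16 * c.1) / 16) = c := by
    apply Fin.ext
    simp only [Fin.ofNat]
    have := a.2
    have := b.2
    have := c.2
    omega
  simp only [V, h1, h2, h3]
  push_cast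
  ring

/-- Four distinct points of the cubic Veronese variety are affinely independent. -/
lemma affInd (y : Fin 4 → Fin 4 → ℕ) (h0 : ∀ j, y j 0 = 1)
    (hne : ∀ i j, i ≠ j → ∃ c, y i c ≠ y j c) :
    AffineIndependent ℝ (fun j => V (y j)) := by
  rw [affineIndependent_iff_of_fintype]
  intro w hw hV
  have hsum : ∀ i : Fin 101, ∑ j, w j * V (y j) i = 0 := by
    intro i
    rw [Finset.weightedVSub_eq_linear_combination _ hw] at hV
    have := congrFun hV i
    simpa [Finset.sum_apply] using this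
  have hT : ∀ a b c : Fin 4, ∑ j, w j * ((y j a : ℝ) * y j b * y j c) = 0 := by
    intro a b c
    have hlt : a.1 + 4 * b.1 + 16 * c.1 < 101 := by
      have := a.2
      have := b.2
      have := c.2
      omega
    have h1 := hsum ⟨a.1 + 4 * b.1 + 16 * c.1, hlt⟩
    simp only [V_apply] at h1
    have h2 : ∑ j, w j * (1 + (y j a : ℝ) * y j b * y j c)
        = ∑ j, w j + ∑ j, w j * ((y j a : ℝ) * y j b * y j c) := by
      rw [← Finset.sum_add_distrib]
      exact Finset.sum_congr rfl (fun j _ => by ring)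
    rw [h2, hw, zero_add] at h1
    exact h1
  have hP : ∀ (a b c : Fin 4) (α β γ : ℝ),
      ∑ j, w j * (((y j a : ℝ) - α) * ((y j b : ℝ) - β) * ((y j c : ℝ) - γ)) = 0 := by
    intro a b c α β γ
    have e1 : ∀ j, w j * (((y j a : ℝ) - α) * ((y j b : ℝ) - β) * ((y j c : ℝ) - γ))
        = w j * ((y j a : ℝ) * y j b * y j c) - γ * (w j * ((y j a : ℝ) * y j b * y j 0))
          - β * (w j * ((y j a : ℝ) * y j 0 * y j c)) - α * (w j * ((y j 0 : ℝ) * y j b * y j c))
          + β * γ * (w j * ((y j a : ℝ) * y j 0 * y j 0))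
          + α * γ * (w j * ((y j 0 : ℝ) * y j b * y j 0))
          + α * β * (w j * ((y j 0 : ℝ) * y j 0 * y j c))
          - α * β * γ * (w j * ((y j 0 : ℝ) * y j 0 * y j 0)) := by
      intro j
      rw [h0 j]
      push_cast
      ring
    rw [Finset.sum_congr rfl (fun j _ => e1 j)]
    simp only [Finset.sum_add_distrib, Finset.sum_sub_distrib, ← Finset.mul_sum, hT]
    ring
  intro e
  obtain ⟨c0, hc0⟩ := hne e (e.succAbove 0) (Fin.succAbove_ne e 0).symm
  obtain ⟨c1, hc1⟩ := hne e (e.succAbove 1) (Fin.succAbove_ne e 1).symm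
  obtain ⟨c2, hc2⟩ := hne e (e.succAbove 2) (Fin.succAbove_ne e 2).symm
  have h := hP c0 c1 c2 (y (e.succAbove 0) c0) (y (e.succAbove 1) c1) (y (e.succAbove 2) c2)
  rw [Fin.sum_univ_succAbove _ e, Fin.sum_univ_three] at h
  simp only [sub_self, zero_mul, mul_zero, add_zero] at h
  have n0 : (y e c0 : ℝ) - y (e.succAbove 0) c0 ≠ 0 := by
    rw [sub_ne_zero]
    exact_mod_cast hc0
  have n1 : (y e c1 : ℝ) - y (e.succAbove 1) c1 ≠ 0 := by
    rw [sub_ne_zero]
    exact_mod_cast hc1
  have n2 : (y e c2 : ℝ) - y (e.succAbove 2) c2 ≠ 0 := by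
    rw [sub_ne_zero]
    exact_mod_cast hc2
  rcases mul_eq_zero.1 h with h | h
  · exact h
  · exact absurd h (mul_ne_zero (mul_ne_zero n0 n1) n2)

/-- The base-`(b+1)` digits of `n`, preceded by the constant `1`. -/
def dig (b n : ℕ) : Fin 4 → ℕ :=
  ![1, n % (b + 1), n / (b + 1) % (b + 1), n / (b + 1) / (b + 1)]

lemma dig_zero (b n : ℕ) : dig b n 0 = 1 := rfl

lemma dig_inj (b n m : ℕ) (h : ∀ c, dig b n c = dig b m c) : n = m := by
  have h1 : n % (b + 1) = m % (b + 1) := h 1
  have h2 : n / (b + 1) % (b + 1) = m / (b + 1) % (b + 1) := h 2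
  have h3 : n / (b + 1) / (b + 1) = m / (b + 1) / (b + 1) := h 3
  have e1 : n / (b + 1) = m / (b + 1) := by
    rw [← Nat.div_add_mod (n / (b + 1)) (b + 1), ← Nat.div_add_mod (m / (b + 1)) (b + 1), h2, h3]
  rw [← Nat.div_add_mod n (b + 1), ← Nat.div_add_mod m (b + 1), h1, e1]

lemma dig_le (b n : ℕ) (hb : 1 ≤ b) (hn : n < (b + 1) ^ 3) (c : Fin 4) : dig b n c ≤ b := by
  have hpos : 0 < b + 1 := Nat.succ_pos b
  fin_cases c
  · exact hb
  · exact Nat.lt_succ_iff.1 (Nat.mod_lt n hpos)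
  · exact Nat.lt_succ_iff.1 (Nat.mod_lt (n / (b + 1)) hpos)
  · show n / (b + 1) / (b + 1) ≤ b
    rw [Nat.div_div_eq_div_mul]
    apply Nat.lt_succ_iff.1
    apply Nat.div_lt_of_lt_mul
    calc n < (b + 1) ^ 3 := hn
      _ = (b + 1) * (b + 1) * (b + 1) := by ring

/-- A natural number `N ≥ 2` lies in some `(b^3, (b+1)^3]` with `b ≥ 1`. -/
lemma exists_cube (N : ℕ) (hN : 2 ≤ N) : ∃ b : ℕ, 1 ≤ b ∧ b ^ 3 < N ∧ N ≤ (b + 1) ^ 3 := by
  have hex : ∃ k : ℕ, N ≤ (k + 1) ^ 3 := ⟨N, by nlinarith [Nat.zero_le N, sq_nonneg N]⟩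
  classical
  refine ⟨Nat.find hex, ?_, ?_, Nat.find_spec hex⟩
  · by_contra h
    have h0 : Nat.find hex = 0 := by omega
    have := Nat.find_spec hex
    rw [h0] at this
    omega
  · by_contra h
    push Not at h
    have hpos : Nat.find hex ≠ 0 := by
      intro h0
      have := Nat.find_spec hex
      rw [h0] at this
      omega
    obtain ⟨k, hk⟩ := Nat.exists_eq_succ_of_ne_zero hpos
    have h2 := Nat.find_min hex (m := k) (by omega)
    apply h2
    rw [hk] at h
    exact h

/-- There is a dimension d > 100 such that for all large N, some subset of the grid {1..N}^d with at least N^(d-100) points has no 5 distinct points on a common 2-plane. -/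
theorem result :
    ∃ d : ℕ, 100 < d ∧ ∃ N₀ : ℕ, ∀ N : ℕ, N₀ ≤ N →
      ∃ A : Finset (Fin d → ℝ),
        (∀ x ∈ A, ∀ i : Fin d, ∃ k : ℕ, 1 ≤ k ∧ k ≤ N ∧ x i = (k : ℝ)) ∧
        (∀ S : Finset (Fin d → ℝ), S ⊆ A → S.card = 5 →
          ¬ Coplanar ℝ (S : Set (Fin d → ℝ))) ∧
        N ^ (d - 100) ≤ A.card := by
  classical
  refine ⟨101, by norm_num, 2, ?_⟩
  intro N hN
  obtain ⟨b, hb1, hb2, hb3⟩ := exists_cube N hN
  have hinj : Function.Injective (fun n : ℕ => V (dig b n)) := by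
    intro n m hnm
    apply dig_inj b
    intro c
    have hlt : c.1 + 4 * (0 : Fin 4).1 + 16 * (0 : Fin 4).1 < 101 := by
      have := c.2
      simp
      omega
    have h := congrFun hnm ⟨c.1 + 4 * (0 : Fin 4).1 + 16 * (0 : Fin 4).1, hlt⟩
    simp only [V_apply, dig_zero] at h
    have h' : (dig b n c : ℝ) = dig b m c := by
      push_cast at h
      linarith
    exact_mod_cast h'
  refine ⟨(Finset.range N).image (fun n => V (dig b n)), ?_, ?_, ?_⟩
  · intro x hx i
    obtain ⟨n, hn, rfl⟩ := Finset.mem_image.1 hx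
    have hn' : n < (b + 1) ^ 3 := lt_of_lt_of_le (Finset.mem_range.1 hn) hb3
    refine ⟨_, ?_, ?_, rfl⟩
    · exact Nat.le_add_right 1 _
    · have h1 := dig_le b n hb1 hn' (Fin.ofNat 4 i.1)
      have h2 := dig_le b n hb1 hn' (Fin.ofNat 4 (i.1 / 4))
      have h3 := dig_le b n hb1 hn' (Fin.ofNat 4 (i.1 / 16))
      calc 1 + dig b n (Fin.ofNat 4 i.1) * dig b n (Fin.ofNat 4 (i.1 / 4))
              * dig b n (Fin.ofNat 4 (i.1 / 16))
          ≤ 1 + b * b * b := by gcongr
        _ = b ^ 3 + 1 := by ring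
        _ ≤ N := hb2
  · intro S hS hcard hcop
    obtain ⟨T, hTS, hTcard⟩ := Finset.exists_subset_card_eq (s := S) (n := 4) (by omega)
    let f : Fin 4 → (Fin 101 → ℝ) := fun j => ((T.equivFinOfCardEq hTcard).symm j : Fin 101 → ℝ)
    have hfT : ∀ j, f j ∈ T := fun j => ((T.equivFinOfCardEq hTcard).symm j).2
    have hfinj : Function.Injective f := by
      intro i j hij
      exact (T.equivFinOfCardEq hTcard).symm.injective (Subtype.ext hij)
    have hex : ∀ j, ∃ n : ℕ, V (dig b n) = f j := by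
      intro j
      obtain ⟨n, _, hn⟩ := Finset.mem_image.1 (hS (hTS (hfT j)))
      exact ⟨n, hn⟩
    choose g hg using hex
    have hfeq : (fun j => V (dig b (g j))) = f := funext hg
    have haff : AffineIndependent ℝ (fun j => V (dig b (g j))) := by
      apply affInd (fun j => dig b (g j)) (fun j => dig_zero b (g j))
      intro i j hij
      by_contra hcon
      push Not at hcon
      apply hij
      apply hfinj
      rw [← hg i, ← hg j, dig_inj b _ _ hcon]
    rw [hfeq] at haff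
    have hrank := haff.finrank_vectorSpan (n := 3) (by simp)
    have hsub : Set.range f ⊆ (S : Set (Fin 101 → ℝ)) := by
      rintro _ ⟨j, rfl⟩
      exact hTS (hfT j)
    have hcop' : Coplanar ℝ (Set.range f) := Coplanar.subset hsub hcop
    have := hcop'.finrank_le_two
    omega
  · rw [Finset.card_image_of_injective _ hinj, Finset.card_range]
    norm_num

end Pool.Agent.S08467
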