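import Pool.Statements.S08570
import Pool.Agent.Y389.QH.Top

set_option autoImplicit false
open Pool Pool.MP_49949b_co

namespace Pool.Agent.S08570

/-- The negation of the preceding statement: Some finite projective plane of order n=k² has a quasiregular collineation group G with 2∣G∣>n²+n+1, ∣G∣=(n−k+1)², exactly 2k+1 point orbits, and no point or line fixed by all of G. -/
theorem result :
    ¬ (∃ (P L : Type) (_ : Membership P L) (_ : Configuration.ProjectivePlane P L)
      (_ : Finite P) (G : Type) (_ : Group G) (_ : Finite G)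
      (_ : MulAction G P) (_ : MulAction G L) (k : ℕ),
      Configuration.ProjectivePlane.order P L = k ^ 2 ∧
      FaithfulSMul G P ∧
      (∀ (g : G) (p : P) (l : L), p ∈ l ↔ g • p ∈ g • l) ∧
      (∀ (g : G) (p q : P), q ∈ MulAction.orbit G p → g • p = p → g • q = q) ∧
      (∀ (g : G) (l m : L), m ∈ MulAction.orbit G l → g • l = l → g • m = m) ∧
      2 * Nat.card G > (k ^ 2) ^ 2 + k ^ 2 + 1 ∧
      Nat.card G = (k ^ 2 - k + 1) ^ 2 ∧
      Nat.card (MulAction.orbitRel.Quotient G P) = 2 * k + 1 ∧
      (¬ ∃ p : P, ∀ g : G, g • p = p) ∧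
      (¬ ∃ l : L, ∀ g : G, g • l = l)) := by
  rintro ⟨P, L, _, _, _, G, _, _, _, _, k, hord, hfa, hinc, hqP, hqL, hbig, hcard, horb, hnP, hnL⟩
  haveI : Finite L := Pool.Agent.Y389.QH.finiteL P L
  letI : Fintype P := Fintype.ofFinite P
  letI : Fintype L := Fintype.ofFinite L
  letI : Fintype G := Fintype.ofFinite G
  have pl := Pool.Agent.Y389.QH.mkPl P L hord
  have ho1 : 1 < Configuration.ProjectivePlane.order P L :=
    Configuration.ProjectivePlane.one_lt_order P L
  rw [hord] at ho1
  have hk : 3 ≤ k := by
    by_contra hc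
    push Not at hc
    interval_cases k
    · norm_num at ho1
    · norm_num at ho1
    · rw [hcard] at hbig
      norm_num at hbig
  have hkk : k ≤ k ^ 2 := by nlinarith
  refine Pool.Agent.Y389.QH.noTypeH (P := P) (L := L) (G := G) hk (v := k ^ 2 - k + 1)
    (by omega) pl ?_ hcard ?_ horb
  · refine ⟨fun g p l h => (hinc g p l).1 h, ?_, ?_, ?_, ?_⟩
    · intro g h p hp
      exact hqP g p (h • p) (MulAction.mem_orbit p h) hp
    · intro g h l hl
      exact hqL g l (h • l) (MulAction.mem_orbit l h) hl
    · intro p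
      by_contra hc
      push Not at hc
      exact hnP ⟨p, hc⟩
    · intro l
      by_contra hc
      push Not at hc
      exact hnL ⟨l, hc⟩
  · intro g hg
    by_contra hc
    push Not at hc
    apply hg
    exact hfa.eq_of_smul_eq_smul fun p => by rw [hc p, one_smul]

end Pool.Agent.S08570
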