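import Pool.Statements.S08582
import Pool.Agent.Y373.Chev

set_option autoImplicit false
open Pool Pool.MP_49f151_co

namespace Pool.Agent.S08582

/-- The negation of the preceding statement: For every closed topological disk C and every tiling of the plane by isometric copies of C with disjoint interiors, each tile's neighborhood (union of tiles meeting it) is simply connected. -/
theorem result :
    ¬ (∀ (C : Set (EuclideanSpace ℝ (Fin 2))) (𝒯 : Set (Set (EuclideanSpace ℝ (Fin 2)))),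
      Nonempty (C ≃ₜ Metric.closedBall (0 : EuclideanSpace ℝ (Fin 2)) 1) →
      (∀ T ∈ 𝒯, ∃ f : EuclideanSpace ℝ (Fin 2) ≃ᵢ EuclideanSpace ℝ (Fin 2), T = f '' C) →
      ⋃₀ 𝒯 = Set.univ →
      𝒯.Pairwise (fun A B => Disjoint (interior A) (interior B)) →
      ∀ T ∈ 𝒯, SimplyConnectedSpace (⋃₀ {T' ∈ 𝒯 | (T' ∩ T).Nonempty})) := by
  intro h
  refine Pool.Agent.Y373.Chev.NN_not_sc (h Pool.Agent.Y373.Chev.C Pool.Agent.Y373.Chev.TT
    Pool.Agent.Y373.Chev.C_disc ?_ Pool.Agent.Y373.Chev.covers Pool.Agent.Y373.Chev.disj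
    Pool.Agent.Y373.Chev.T0 ⟨0, 3, 0, by decide, rfl⟩)
  rintro T ⟨o, X, Y, -, rfl⟩
  exact ⟨_, Pool.Agent.Y373.Chev.Tl_eq o X Y⟩

end Pool.Agent.S08582
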