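import Pool.Statements.S08645
import Pool.Agent.Y404.WBrouwer

set_option autoImplicit false
open Pool Pool.MP_4d2320_co

namespace Pool.Agent.S08645

open Finset Matrix Pool.Agent.Y404.WB

/-- the `N` largest elements -/
theorem top_set {α : Type} [DecidableEq α] (E : Finset α) (w : α → ℝ) (N : ℕ) (hN : N ≤ E.card) :
    ∃ S ⊆ E, S.card = N ∧ ∀ p ∈ S, ∀ q ∈ E, q ∉ S → w q ≤ w p := by
  have hne : (E.powersetCard N).Nonempty := Finset.powersetCard_nonempty.2 hN
  obtain ⟨S, hS, hmax⟩ := Finset.exists_max_image (E.powersetCard N) (fun S => ∑ p ∈ S, w p) hne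
  rw [Finset.mem_powersetCard] at hS
  refine ⟨S, hS.1, hS.2, ?_⟩
  intro p hp q hq hqS
  by_contra hlt
  push Not at hlt
  have hqe : q ∉ S.erase p := fun h => hqS (Finset.mem_of_mem_erase h)
  have hS' : insert q (S.erase p) ∈ E.powersetCard N := by
    rw [Finset.mem_powersetCard]
    refine ⟨?_, ?_⟩
    · intro x hx
      rcases Finset.mem_insert.1 hx with rfl | hx
      · exact hq
      · exact hS.1 (Finset.mem_of_mem_erase hx)
    · rw [Finset.card_insert_of_notMem hqe, Finset.card_erase_of_mem hp, hS.2]
      have : 0 < S.card := Finset.card_pos.2 ⟨p, hp⟩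
      omega
  have h1 := hmax _ hS'
  rw [Finset.sum_insert hqe] at h1
  have h2 := Finset.add_sum_erase S w hp
  linarith

/-- For every symmetric nonnegative zero-diagonal real matrix and each k from 1 to n−1, the sum of the k largest Laplacian eigenvalues is at most the total edge weight plus the sum of the C(k+1,2) largest off-diagonal weights. -/
theorem result :
    ∀ (n : ℕ) (A : Matrix (Fin n) (Fin n) ℝ), A.IsSymm → (∀ i j, 0 ≤ A i j) → (∀ i, A i i = 0) →
      ∀ (hL : (Matrix.diagonal (fun i => ∑ j, A i j) - A).IsHermitian),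
      ∀ k : ℕ, 1 ≤ k → k ≤ n - 1 →
      ∀ s : Finset (Fin n), s.card = k →
        ∃ P : Finset (Fin n × Fin n), P.card = (k + 1).choose 2 ∧ (∀ p ∈ P, p.1 < p.2) ∧
          ∑ i ∈ s, hL.eigenvalues i ≤
            (∑ i, ∑ j, if i < j then A i j else 0) + ∑ p ∈ P, A p.1 p.2 := by
  classical
  intro n A hA hA0 hAd hL k hk1 hkn s hs
  have hAs : ∀ i j, A i j = A j i := fun i j => by
    conv_lhs => rw [← hA]
    rfl
  -- the pairs
  set E : Finset (Fin n × Fin n) := Finset.univ.filter (fun p => p.1 < p.2) with hE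
  have hEcard : E.card = n.choose 2 := by
    have h1 := Finset.card_product (Finset.univ : Finset (Fin n)) (Finset.univ : Finset (Fin n))
    have h2 : (Finset.univ.filter (fun p : Fin n × Fin n => p.1 < p.2)).card
        = (Finset.univ.filter (fun p : Fin n × Fin n => p.2 < p.1)).card := by
      apply Finset.card_bij (fun p _ => (p.2, p.1))
      · intro p hp; simpa using hp
      · rintro ⟨a, b⟩ _ ⟨c, d⟩ _ h; simp only [Prod.mk.injEq] at h ⊢; exact ⟨h.2, h.1⟩
      · rintro ⟨a, b⟩ hp; exact ⟨(b, a), by simpa using hp, rfl⟩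
    have h3 : (Finset.univ.filter (fun p : Fin n × Fin n => p.1 = p.2)).card = n := by
      have : (Finset.univ.filter (fun p : Fin n × Fin n => p.1 = p.2))
          = Finset.univ.image (fun a : Fin n => (a, a)) := by
        ext ⟨a, b⟩; simp [eq_comm]
      rw [this, Finset.card_image_of_injective _ (fun a b h => (Prod.mk.inj h).1)]
      simp
    have h4 : (Finset.univ : Finset (Fin n × Fin n)).card
        = (Finset.univ.filter (fun p : Fin n × Fin n => p.1 < p.2)).card
        + (Finset.univ.filter (fun p : Fin n × Fin n => p.2 < p.1)).card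
        + (Finset.univ.filter (fun p : Fin n × Fin n => p.1 = p.2)).card := by
      rw [← Finset.card_union_of_disjoint, ← Finset.card_union_of_disjoint]
      · congr 1
        ext ⟨a, b⟩
        simp only [Finset.mem_univ, Finset.mem_union, Finset.mem_filter, true_and, true_iff]
        rcases lt_trichotomy a b with h | h | h <;> simp [h]
      · rw [Finset.disjoint_left]
        rintro ⟨a, b⟩ h1 h2
        simp only [Finset.mem_union, Finset.mem_filter, Finset.mem_univ, true_and] at h1 h2
        subst h2
        simp at h1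
      · rw [Finset.disjoint_left]
        rintro ⟨a, b⟩ h1 h2
        simp only [Finset.mem_filter, Finset.mem_univ, true_and] at h1 h2
        exact absurd h1 (not_lt.2 h2.le)
    rw [← hE] at h2 h4
    rw [Finset.univ_product_univ] at h1
    rw [h1, ← h2, h3] at h4
    simp only [Finset.card_univ, Fintype.card_fin] at h4
    rw [Nat.choose_two_right]
    have h5 : n * (n - 1) = E.card * 2 := by
      rcases Nat.eq_zero_or_pos n with h0 | h0
      · subst h0; simp at h4 ⊢; omega
      · obtain ⟨m, rfl⟩ : ∃ m, n = m + 1 := ⟨n - 1, by omega⟩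
        simp only [Nat.add_sub_cancel]
        nlinarith
    rw [h5]; simp
  have hNle : (k + 1).choose 2 ≤ E.card := by
    rw [hEcard]; exact Nat.choose_le_choose 2 (by omega)
  obtain ⟨S, hSE, hSc, hSt⟩ := top_set E (fun p => A p.1 p.2) _ hNle
  refine ⟨S, hSc, fun p hp => (Finset.mem_filter.1 (hSE hp)).2, ?_⟩
  -- eigenvectors
  set b := hL.eigenvectorBasis with hb
  set T := s.filter (fun a => hL.eigenvalues a ≠ 0) with hT
  have hTs : T.card ≤ k := by rw [← hs]; exact Finset.card_filter_le _ _
  have hsum : ∑ a ∈ s, hL.eigenvalues a = ∑ a ∈ T, hL.eigenvalues a := by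
    rw [hT, Finset.sum_filter_ne_zero]
  have hz : ∀ a ∈ T, ∑ i, b a i = 0 := by
    intro a ha
    by_contra h
    apply (Finset.mem_filter.1 ha).2
    set u : Fin n → ℝ := fun i => b a i with hu
    have h1 := hL.mulVec_eigenvectorBasis a
    have h3 : (Matrix.diagonal (fun i => ∑ j, A i j) - A) *ᵥ u = hL.eigenvalues a • u := h1
    have h4 : ∑ i, ((Matrix.diagonal (fun i => ∑ j, A i j) - A) *ᵥ u) i = 0 := by
      have e : ∀ i, ((Matrix.diagonal (fun i => ∑ j, A i j) - A) *ᵥ u) i
          = ∑ j, (A i j * u i - A i j * u j) := by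
        intro i
        rw [Matrix.sub_mulVec, Pi.sub_apply, Matrix.mulVec_diagonal, Finset.sum_sub_distrib,
          Finset.sum_mul]
        rfl
      simp only [e, Finset.sum_sub_distrib]
      rw [sub_eq_zero]
      conv_rhs => rw [Finset.sum_comm]
      apply Finset.sum_congr rfl; intro i _
      apply Finset.sum_congr rfl; intro j _
      rw [hAs i j]
    rw [h3] at h4
    simp only [Pi.smul_apply, smul_eq_mul, ← Finset.mul_sum] at h4
    rcases mul_eq_zero.1 h4 with h5 | h5
    · exact h5
    · exact absurd h5 h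
  set P := pr b T with hP
  have hPs := pr_symm b T
  have hPi := pr_mul b T
  have hP1 : ∀ i, ∑ j, P i j = 0 := by
    intro i
    simp only [hP, pr, Matrix.of_apply]
    rw [Finset.sum_comm]
    apply Finset.sum_eq_zero
    intro a ha
    rw [← Finset.mul_sum, hz a ha, mul_zero]
  have htr : ∑ i, P i i = T.card := pr_trace b T
  have hE1 : ∀ p ∈ E, p.1 ≠ p.2 := fun p hp => ((Finset.mem_filter.1 hp).2).ne
  have hE2 : ∀ p ∈ E, (p.2, p.1) ∉ E := by
    intro p hp h
    have h1 := (Finset.mem_filter.1 hp).2
    have h2 := (Finset.mem_filter.1 h).2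
    exact absurd h1 (not_lt.2 h2.le)
  have hSn : S.Nonempty := by
    rw [← Finset.card_pos, hSc]
    exact Nat.choose_pos (by omega)
  have hScr : (S.card : ℝ) = ((k : ℝ) ^ 2 + k) / 2 := by
    rw [hSc, Nat.cast_choose_two]; push_cast; ring
  have hmain := proj_bound P hPs hPi hP1 k (by rw [htr]; exact_mod_cast hTs)
    (by rw [htr]; exact Nat.cast_nonneg _) E hE1 hE2 (fun p => A p.1 p.2) (fun p _ => hA0 _ _) S hSE
    hScr hSn hSt
  -- the trace formula
  have htrace : ∑ a ∈ T, hL.eigenvalues a = ∑ p ∈ E, A p.1 p.2 * (P p.1 p.1 + P p.2 p.2 - 2 * P p.1 p.2) := by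
    have e1 : ∀ a, 2 * hL.eigenvalues a = ∑ i, ∑ j, A i j * (b a i - b a j) ^ 2 := by
      intro a
      rw [← lap_form A hA (fun i => b a i)]
      have h := hL.eigenvalues_eq a
      rw [h]
      simp only [star_trivial, RCLike.re_to_real]
      rfl
    have e2 : 2 * ∑ a ∈ T, hL.eigenvalues a = ∑ i, ∑ j, A i j * (P i i + P j j - 2 * P i j) := by
      rw [Finset.mul_sum, Finset.sum_congr rfl fun a _ => e1 a, Finset.sum_comm]
      apply Finset.sum_congr rfl; intro i _
      rw [Finset.sum_comm]
      apply Finset.sum_congr rfl; intro j _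
      rw [← Finset.mul_sum]
      congr 1
      simp only [hP, pr, Matrix.of_apply]
      rw [Finset.mul_sum, ← Finset.sum_add_distrib, ← Finset.sum_sub_distrib]
      apply Finset.sum_congr rfl; intro a _
      ring
    have hsymP : ∀ i j, P i j = P j i := fun i j => congrFun (congrFun hPs j) i
    set f : Fin n → Fin n → ℝ := fun i j => A i j * (P i i + P j j - 2 * P i j) with hf
    have hfs : ∀ i j, f i j = f j i := by
      intro i j; simp only [hf]; rw [hAs i j, hsymP i j]; ring
    have hfd : ∀ i, f i i = 0 := by intro i; simp [hf, hAd]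
    have e3 : ∑ i, ∑ j, f i j = 2 * ∑ i, ∑ j, if i < j then f i j else 0 := by
      have e4 : ∀ i j, f i j = (if i < j then f i j else 0) + (if j < i then f j i else 0) := by
        intro i j
        rcases lt_trichotomy i j with h | h | h
        · simp [h, not_lt.2 h.le]
        · subst h; simp [hfd]
        · simp [h, not_lt.2 h.le, hfs i j]
      have e5 : ∑ i, ∑ j, (if j < i then f j i else 0) = ∑ i, ∑ j, (if i < j then f i j else 0) := by
        rw [Finset.sum_comm]
      calc ∑ i, ∑ j, f i j = ∑ i, ∑ j, ((if i < j then f i j else 0) + (if j < i then f j i else 0)) :=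
            Finset.sum_congr rfl fun i _ => Finset.sum_congr rfl fun j _ => e4 i j
        _ = _ := by
            simp only [Finset.sum_add_distrib]
            rw [e5]; ring
    have e6 : ∑ i, ∑ j, (if i < j then f i j else 0) = ∑ p ∈ E, f p.1 p.2 := by
      rw [← Finset.sum_product', Finset.univ_product_univ, ← Finset.sum_filter]
    rw [e3, e6] at e2
    linarith
  have hedges : (∑ i, ∑ j, if i < j then A i j else 0) = ∑ p ∈ E, A p.1 p.2 := by
    rw [← Finset.sum_product', Finset.univ_product_univ, ← Finset.sum_filter]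
  rw [hsum, htrace, hedges]
  have : ∑ p ∈ E, A p.1 p.2 * (P p.1 p.1 + P p.2 p.2 - 2 * P p.1 p.2)
      = ∑ p ∈ E, A p.1 p.2 * (P p.1 p.1 + P p.2 p.2 - 2 * P p.1 p.2 - 1) + ∑ p ∈ E, A p.1 p.2 := by
    rw [← Finset.sum_add_distrib]
    apply Finset.sum_congr rfl; intro p _
    ring
  rw [this]
  linarith

end Pool.Agent.S08645
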