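import Pool.Statements.S08686

set_option autoImplicit false
open Pool Pool.MP_4e7ec3_co

namespace Pool.Agent.S08686

/-- The map of the counterexample. -/
noncomputable def T (x : ℝ) : ℝ :=
  if x < 3 / 17 then 4 / 17 else if x < 6 / 17 then 1 / 17 else
  if x < 9 / 17 then 10 / 17 else if x < 12 / 17 then 7 / 17 else
  if x < 15 / 17 then 16 / 17 else 13 / 17

/-- The eighteen points. -/
noncomputable def F : Finset ℝ := (Finset.range 18).image fun i : ℕ => (i : ℝ) / 17

theorem mem_F {x : ℝ} : x ∈ F ↔ ∃ i : ℕ, i < 18 ∧ (i : ℝ) / 17 = x := by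
  simp [F]

theorem mem_F_of {x : ℝ} (i : ℕ) (hi : i < 18) (h : (i : ℝ) / 17 = x) : x ∈ F :=
  mem_F.2 ⟨i, hi, h⟩

/-- One step does not leave the block with first point `lo`. -/
theorem step {lo x y : ℝ} (hlo : lo = 0 ∨ lo = 6 / 17 ∨ lo = 12 / 17)
    (hx : lo ≤ x ∧ x ≤ lo + 5 / 17)
    (h : y = T x ∨ (y ∈ F ∧ y < T x ∧ ∀ r ∈ F, r < T x → r ≤ y) ∨
      (y ∈ F ∧ T x < y ∧ ∀ r ∈ F, T x < r → y ≤ r)) :
    lo ≤ y ∧ y ≤ lo + 5 / 17 := by
  have hT : T x = lo + 4 / 17 ∨ T x = lo + 1 / 17 := by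
    obtain ⟨h1, h2⟩ := hx
    unfold T
    rcases hlo with rfl | rfl | rfl
    · split_ifs <;> first | (exfalso; linarith) | (left; norm_num; done) | (right; norm_num; done)
    · split_ifs <;> first | (exfalso; linarith) | (left; norm_num; done) | (right; norm_num; done)
    · split_ifs <;> first | (exfalso; linarith) | (left; norm_num; done) | (right; norm_num; done)
  have hm : ∀ j : ℕ, j < 6 → lo + (j : ℝ) / 17 ∈ F := by
    intro j hj
    rcases hlo with rfl | rfl | rfl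
    · exact mem_F_of j (by omega) (by ring)
    · exact mem_F_of (j + 6) (by omega) (by push_cast; ring)
    · exact mem_F_of (j + 12) (by omega) (by push_cast; ring)
  have m0 : lo + 0 / 17 ∈ F := by have := hm 0 (by norm_num); simpa using this
  have m2 : lo + 2 / 17 ∈ F := by have := hm 2 (by norm_num); exact_mod_cast this
  have m3 : lo + 3 / 17 ∈ F := by have := hm 3 (by norm_num); exact_mod_cast this
  have m5 : lo + 5 / 17 ∈ F := by have := hm 5 (by norm_num); exact_mod_cast this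
  rcases hT with hT | hT <;> rw [hT] at h
  · rcases h with h | ⟨-, h1, h2⟩ | ⟨-, h1, h2⟩
    · constructor <;> linarith
    · have := h2 _ m3 (by linarith)
      constructor <;> linarith
    · have := h2 _ m5 (by linarith)
      constructor <;> linarith
  · rcases h with h | ⟨-, h1, h2⟩ | ⟨-, h1, h2⟩
    · constructor <;> linarith
    · have := h2 _ m0 (by linarith)
      constructor <;> linarith
    · have := h2 _ m2 (by linarith)
      constructor <;> linarith

theorem fact1 : ∀ p ∈ F, 0 ≤ p ∧ p ≤ 1 := by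
  intro p hp
  obtain ⟨i, hi, rfl⟩ := mem_F.1 hp
  have h1 : (i : ℝ) ≤ 17 := by exact_mod_cast Nat.le_of_lt_succ hi
  have h0 : (0 : ℝ) ≤ i := Nat.cast_nonneg i
  constructor
  · positivity
  · linarith

theorem fact2 : ∀ p ∈ F, T p ∈ F ∧ 1 / 17 < |p - T p| := by
  intro p hp
  obtain ⟨i, hi, rfl⟩ := mem_F.1 hp
  have m1 : (1 : ℝ) / 17 ∈ F := mem_F_of 1 (by norm_num) (by norm_num)
  have m4 : (4 : ℝ) / 17 ∈ F := mem_F_of 4 (by norm_num) (by norm_num)
  have m7 : (7 : ℝ) / 17 ∈ F := mem_F_of 7 (by norm_num) (by norm_num)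
  have m10 : (10 : ℝ) / 17 ∈ F := mem_F_of 10 (by norm_num) (by norm_num)
  have m13 : (13 : ℝ) / 17 ∈ F := mem_F_of 13 (by norm_num) (by norm_num)
  have m16 : (16 : ℝ) / 17 ∈ F := mem_F_of 16 (by norm_num) (by norm_num)
  have key : ∀ a b : ℝ, T a = b → b ∈ F → (1 / 17 < a - b ∨ a - b < -(1 / 17)) →
      T a ∈ F ∧ 1 / 17 < |a - T a| := by
    intro a b h1 h2 h3
    rw [h1]
    refine ⟨h2, ?_⟩
    rw [lt_abs]
    rcases h3 with h3 | h3
    · exact Or.inl h3
    · exact Or.inr (by linarith)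
  interval_cases i
  all_goals first
    | (refine key _ (4 / 17) ?_ m4 ?_ <;> [(norm_num [T]; done); (norm_num; done)])
    | (refine key _ (1 / 17) ?_ m1 ?_ <;> [(norm_num [T]; done); (norm_num; done)])
    | (refine key _ (10 / 17) ?_ m10 ?_ <;> [(norm_num [T]; done); (norm_num; done)])
    | (refine key _ (7 / 17) ?_ m7 ?_ <;> [(norm_num [T]; done); (norm_num; done)])
    | (refine key _ (16 / 17) ?_ m16 ?_ <;> [(norm_num [T]; done); (norm_num; done)])
    | (refine key _ (13 / 17) ?_ m13 ?_ <;> [(norm_num [T]; done); (norm_num; done)])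


/-- The negation of the preceding statement: There is a constant k such that for every finite F in [0,1] containing 0 and 1, every ε>0, and every T:F→F moving each point by more than ε, some p₀ in F reaches a point at distance at least 1/3 in at most k/ε steps, each step going to T(p) or a neighbour of T(p) in F. -/
theorem result :
    ¬ (∃ k : ℝ, ∀ (F : Finset ℝ) (ε : ℝ) (T : ℝ → ℝ),
      (∀ p ∈ F, 0 ≤ p ∧ p ≤ 1) → (0 : ℝ) ∈ F → (1 : ℝ) ∈ F → 0 < ε →
      (∀ p ∈ F, T p ∈ F ∧ ε < |p - T p|) →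
      ∃ p₀ ∈ F, ∃ n : ℕ, (n : ℝ) ≤ k / ε ∧
        ∃ x : ℕ → ℝ, x 0 = p₀ ∧
          (∀ i < n,
            x (i + 1) = T (x i) ∨
            (x (i + 1) ∈ F ∧ x (i + 1) < T (x i) ∧
              ∀ r ∈ F, r < T (x i) → r ≤ x (i + 1)) ∨
            (x (i + 1) ∈ F ∧ T (x i) < x (i + 1) ∧
              ∀ r ∈ F, T (x i) < r → x (i + 1) ≤ r)) ∧
          1 / 3 ≤ |x n - p₀|) := by
  rintro ⟨k, hk⟩
  obtain ⟨p, hp, n, -, x, hx0, hx, hd⟩ := hk F (1 / 17) T fact1 (mem_F_of 0 (by norm_num) (by norm_num)) (mem_F_of 17 (by norm_num) (by norm_num)) (by norm_num) fact2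
  obtain ⟨i, hi, rfl⟩ := mem_F.1 hp
  obtain ⟨lo, hlo, hb⟩ : ∃ lo : ℝ, (lo = 0 ∨ lo = 6 / 17 ∨ lo = 12 / 17) ∧
      (lo ≤ (i : ℝ) / 17 ∧ (i : ℝ) / 17 ≤ lo + 5 / 17) := by
    rcases lt_or_ge i 6 with h | h
    · have h1 : (i : ℝ) ≤ 5 := by exact_mod_cast Nat.le_of_lt_succ h
      have h0 : (0 : ℝ) ≤ i := Nat.cast_nonneg i
      exact ⟨0, Or.inl rfl, by linarith, by linarith⟩
    · rcases lt_or_ge i 12 with h' | h'
      · have h1 : (i : ℝ) ≤ 11 := by exact_mod_cast Nat.le_of_lt_succ h'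
        have h0 : (6 : ℝ) ≤ i := by exact_mod_cast h
        exact ⟨6 / 17, Or.inr (Or.inl rfl), by linarith, by linarith⟩
      · have h1 : (i : ℝ) ≤ 17 := by exact_mod_cast Nat.le_of_lt_succ hi
        have h0 : (12 : ℝ) ≤ i := by exact_mod_cast h'
        exact ⟨12 / 17, Or.inr (Or.inr rfl), by linarith, by linarith⟩
  have key : ∀ m ≤ n, lo ≤ x m ∧ x m ≤ lo + 5 / 17 := by
    intro m
    induction m with
    | zero => intro _; rw [hx0]; exact hb
    | succ m ih =>
      intro hm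
      exact step hlo (ih (by omega)) (hx m (by omega))
  obtain ⟨h1, h2⟩ := key n le_rfl
  obtain ⟨h3, h4⟩ := hb
  have h5 : |x n - (i : ℝ) / 17| ≤ 5 / 17 := by
    rw [abs_le]
    constructor <;> linarith
  linarith

end Pool.Agent.S08686
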