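import Pool.Statements.S09057

set_option autoImplicit false
open Pool Pool.MP_5f1228_co

namespace Pool.Agent.S09057

open Finset

/-- A family of vectors with small supports and of small rank cannot touch all coordinates. -/
lemma card_le_of_rank {V : Type} [Fintype V] [DecidableEq V] (M : V → V → ℝ) (R d : ℕ)
    (hrank : Module.finrank ℝ (Submodule.span ℝ (Set.range M)) ≤ R)
    (hsupp : ∀ y, (univ.filter (fun x => M y x ≠ 0)).card ≤ d)
    (hrow : ∀ x, ∃ y, M y x ≠ 0) : Fintype.card V ≤ R * d := by
  classical
  obtain ⟨b, hb, hspan, hli⟩ := exists_linearIndependent ℝ (Set.range M)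
  have hbfin : b.Finite := (Set.finite_range M).subset hb
  have hcard : hbfin.toFinset.card ≤ R := by
    have : Fintype b := hbfin.fintype
    have h2 : Module.finrank ℝ (Submodule.span ℝ b) = b.toFinset.card := by
      have := finrank_span_set_eq_card (s := b) (R := ℝ) hli
      simpa using this
    rw [hspan] at h2
    have h3 : b.toFinset.card = hbfin.toFinset.card := by
      congr 1
      ext x
      simp
    omega
  have hcov : (univ : Finset V) ⊆ hbfin.toFinset.biUnion
      (fun c => univ.filter (fun x => c x ≠ 0)) := by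
    intro x _
    rw [mem_biUnion]
    by_contra hcon
    push Not at hcon
    have hzero : ∀ c ∈ b, c x = 0 := by
      intro c hc
      have := hcon c (by simpa using hc)
      simpa using this
    obtain ⟨y, hy⟩ := hrow x
    have hmem : M y ∈ Submodule.span ℝ b := by
      rw [hspan]
      exact Submodule.subset_span ⟨y, rfl⟩
    apply hy
    have hle : Submodule.span ℝ b ≤ LinearMap.ker (LinearMap.proj (R := ℝ) (φ := fun _ : V => ℝ) x) := by
      rw [Submodule.span_le]
      intro c hc
      simp [hzero c hc]
    have := hle hmem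
    simpa using this
  calc Fintype.card V = (univ : Finset V).card := rfl
    _ ≤ (hbfin.toFinset.biUnion (fun c => univ.filter (fun x => c x ≠ 0))).card := card_le_card hcov
    _ ≤ hbfin.toFinset.card * d := by
        apply card_biUnion_le_card_mul
        intro c hc
        have hc' : c ∈ b := by simpa using hc
        obtain ⟨y, rfl⟩ := hb hc'
        exact hsupp y
    _ ≤ R * d := Nat.mul_le_mul_right d hcard

/-- The rank of the matrix of products of differences. -/
lemma rank_prod_sub {V : Type} [Fintype V] (r : ℕ) (a : Fin r → V → ℝ) :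
    Module.finrank ℝ (Submodule.span ℝ (Set.range (fun y x : V => ∏ i : Fin r, (a i x - a i y))))
      ≤ 2 ^ r := by
  classical
  have hsub : Submodule.span ℝ (Set.range (fun y x : V => ∏ i : Fin r, (a i x - a i y))) ≤
      Submodule.span ℝ (Set.range (fun (S : Finset (Fin r)) (x : V) => ∏ i ∈ S, a i x)) := by
    rw [Submodule.span_le]
    rintro _ ⟨y, rfl⟩
    have hexp : (fun x : V => ∏ i : Fin r, (a i x - a i y)) =
        ∑ S ∈ (univ : Finset (Fin r)).powerset, (∏ i ∈ univ \ S, (- a i y)) •
          (fun x : V => ∏ i ∈ S, a i x) := by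
      funext x
      have h := Finset.prod_add (fun i : Fin r => a i x) (fun i => - a i y) univ
      simp only [← sub_eq_add_neg] at h
      rw [h, Finset.sum_apply]
      apply Finset.sum_congr rfl
      intro S _
      simp [mul_comm]
    show (fun x : V => ∏ i : Fin r, (a i x - a i y)) ∈ _
    rw [hexp]
    apply Submodule.sum_mem
    intro S _
    apply Submodule.smul_mem
    exact Submodule.subset_span ⟨S, rfl⟩
  refine (Submodule.finrank_mono hsub).trans ?_
  refine (finrank_range_le_card _).trans ?_
  simp

/-- For every r ≥ 3 and every nonempty finite graph with minimum degree at least (1 − 2^−r)n, every r-colouring of the edges has one root per colour such that every vertex is joined to some colour's root by a path in that colour. -/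
theorem result :
    ∀ r : ℕ, 3 ≤ r →
      ∀ (V : Type) [Fintype V] [DecidableEq V] [Nonempty V]
        (G : SimpleGraph V) [DecidableRel G.Adj],
        ((1 : ℝ) - (1 / 2 : ℝ) ^ r) * (Fintype.card V : ℝ) ≤ (G.minDegree : ℝ) →
        ∀ c : Sym2 V → Fin r,
          ∃ f : Fin r → V, ∀ x : V, ∃ i : Fin r,
            (SimpleGraph.fromEdgeSet {e : Sym2 V | e ∈ G.edgeSet ∧ c e = i}).Reachable (f i) x := by
  intro r hr V _ _ _ G _ hdeg c
  classical
  by_contra hcon
  push Not at hcon
  set H : Fin r → SimpleGraph V := fun i =>
    SimpleGraph.fromEdgeSet {e : Sym2 V | e ∈ G.edgeSet ∧ c e = i} with hH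
  -- an injective real label for the components in each colour
  let a : Fin r → V → ℝ := fun i x =>
    ((Fintype.equivFin V (Quot.out ((H i).connectedComponentMk x))).val : ℝ)
  have ha : ∀ i x y, a i x = a i y ↔ (H i).Reachable x y := by
    intro i x y
    constructor
    · intro h
      have h1 : (Fintype.equivFin V (Quot.out ((H i).connectedComponentMk x))).val =
          (Fintype.equivFin V (Quot.out ((H i).connectedComponentMk y))).val := by
        simpa [a] using h
      have h2 := (Fintype.equivFin V).injective (Fin.ext h1)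
      have h3 : (H i).connectedComponentMk x = (H i).connectedComponentMk y := by
        have e1 := Quot.out_eq ((H i).connectedComponentMk x)
        have e2 := Quot.out_eq ((H i).connectedComponentMk y)
        rw [← e1, ← e2, h2]
      exact SimpleGraph.ConnectedComponent.eq.mp h3
    · intro h
      have h3 : (H i).connectedComponentMk x = (H i).connectedComponentMk y :=
        SimpleGraph.ConnectedComponent.eq.mpr h
      simp only [a, h3]
  let M : V → V → ℝ := fun y x => ∏ i : Fin r, (a i x - a i y)
  have hM : ∀ y x, M y x ≠ 0 ↔ ∀ i, ¬ (H i).Reachable x y := by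
    intro y x
    simp only [M, ne_eq, Finset.prod_eq_zero_iff, Finset.mem_univ, true_and, sub_eq_zero, ha]
    push Not
    rfl
  -- non-adjacency
  have hadj : ∀ y x, M y x ≠ 0 → x ∉ insert y (G.neighborFinset y) := by
    intro y x h hx
    rw [hM] at h
    rw [Finset.mem_insert] at hx
    rcases hx with rfl | hx
    · exact h ⟨0, by omega⟩ (SimpleGraph.Reachable.refl _)
    · rw [SimpleGraph.mem_neighborFinset] at hx
      refine h (c s(x, y)) (SimpleGraph.Adj.reachable ?_)
      simp only [hH, SimpleGraph.fromEdgeSet_adj, Set.mem_ofPred_eq, SimpleGraph.mem_edgeSet,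
        and_true]
      exact ⟨hx.symm, hx.ne'⟩
  have hsupp : ∀ y, (univ.filter (fun x => M y x ≠ 0)).card ≤ Fintype.card V - 1 - G.minDegree := by
    intro y
    have hsub : univ.filter (fun x => M y x ≠ 0) ⊆ (insert y (G.neighborFinset y))ᶜ := by
      intro x hx
      rw [Finset.mem_compl]
      exact hadj y x (by simpa using hx)
    have h1 := card_le_card hsub
    rw [Finset.card_compl, Finset.card_insert_of_notMem (by simp),
      SimpleGraph.card_neighborFinset_eq_degree] at h1
    have h2 := G.minDegree_le_degree y
    omega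
  have hrow : ∀ x, ∃ y, M y x ≠ 0 := by
    intro x
    obtain ⟨y, hy⟩ := hcon (fun _ => x)
    exact ⟨y, (hM y x).mpr hy⟩
  have hfin := card_le_of_rank M (2 ^ r) (Fintype.card V - 1 - G.minDegree)
    (rank_prod_sub r a) hsupp hrow
  have hpos : 0 < Fintype.card V := Fintype.card_pos
  have hlt : G.minDegree < Fintype.card V := G.minDegree_lt_card
  have hcast : ((Fintype.card V - 1 - G.minDegree : ℕ) : ℝ) =
      (Fintype.card V : ℝ) - 1 - (G.minDegree : ℝ) := by
    rw [Nat.cast_sub (by omega), Nat.cast_sub (by omega)]
    simp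
  have hfin' : (Fintype.card V : ℝ) ≤ 2 ^ r * ((Fintype.card V : ℝ) - 1 - (G.minDegree : ℝ)) := by
    rw [← hcast]
    exact_mod_cast hfin
  have hpow : (2 : ℝ) ^ r * (1 / 2 : ℝ) ^ r = 1 := by
    rw [← mul_pow]
    norm_num
  have h2pos : (0 : ℝ) < 2 ^ r := by positivity
  have hkey : (2 : ℝ) ^ r * ((Fintype.card V : ℝ) - 1 - (G.minDegree : ℝ)) ≤
      2 ^ r * ((1 / 2 : ℝ) ^ r * (Fintype.card V : ℝ) - 1) := by
    apply mul_le_mul_of_nonneg_left _ h2pos.le
    linarith
  have hkey2 : (2 : ℝ) ^ r * ((1 / 2 : ℝ) ^ r * (Fintype.card V : ℝ) - 1) =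
      (Fintype.card V : ℝ) - 2 ^ r := by
    rw [mul_sub, ← mul_assoc, hpow]
    ring
  linarith

end Pool.Agent.S09057
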