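import Pool.Statements.S09524
import Pool.Agent.Y162.BT

set_option autoImplicit false
open Pool Pool.MP_74be22_co

namespace Pool.Agent.S09524

open Finset Pool.Agent.Y162.BT

/-- transport to an arbitrary finite type -/
theorem transport {X : Type} [Fintype X] [DecidableEq X] (c₁ : ℝ) (C : ℕ)
    (H : ∀ n : ℕ, ∀ F : Finset (Finset (Fin n)),
      (∀ A ∈ F, c₁ * Real.sqrt (n : ℝ) < ((A.card : ℕ) : ℝ)) →
      (∀ A ∈ F, ∀ B ∈ F, A ≠ B → (A ∩ B).card ≤ 1) →
      ∃ S : Finset (Fin n), ∀ A ∈ F, 1 ≤ (A ∩ S).card ∧ (A ∩ S).card ≤ C)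
    (F : Finset (Finset X))
    (h1 : ∀ A ∈ F, c₁ * Real.sqrt (Fintype.card X : ℝ) < ((A.card : ℕ) : ℝ))
    (h2 : ∀ A ∈ F, ∀ B ∈ F, A ≠ B → (A ∩ B).card ≤ 1) :
    ∃ S : Finset X, ∀ A ∈ F, 1 ≤ (A ∩ S).card ∧ (A ∩ S).card ≤ C := by
  classical
  let e : X ≃ Fin (Fintype.card X) := Fintype.equivFin X
  obtain ⟨S, hS⟩ := H (Fintype.card X) (F.image (fun A => A.map e.toEmbedding)) (by
    intro A hA
    obtain ⟨B, hB, rfl⟩ := Finset.mem_image.1 hA
    rw [Finset.card_map]
    exact h1 B hB) (by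
    intro A hA A' hA' hne
    obtain ⟨B, hB, rfl⟩ := Finset.mem_image.1 hA
    obtain ⟨B', hB', rfl⟩ := Finset.mem_image.1 hA'
    rw [← Finset.map_inter, Finset.card_map]
    apply h2 B hB B' hB'
    intro h
    apply hne
    rw [h])
  refine ⟨S.map e.symm.toEmbedding, fun A hA => ?_⟩
  have h3 := hS _ (Finset.mem_image_of_mem _ hA)
  have h4 : (A ∩ S.map e.symm.toEmbedding).card = (A.map e.toEmbedding ∩ S).card := by
    rw [← Finset.card_map e.toEmbedding, Finset.map_inter]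
    congr 2
    rw [Finset.map_map]
    ext x
    simp
  rw [h4]
  exact h3

/-- the family of a choice `f` of traces -/
noncomputable def fam (p : ℕ) [Fact p.Prime] (f : ZMod p × ZMod p → Finset (ZMod p)) :
    Finset (Finset (ZMod p × ZMod p)) :=
  (univ.image (fun x : ZMod p => univ.image (fun y : ZMod p => (x, y)))) ∪
    (univ.image (fun k : ZMod p × ZMod p => (f k).image (fun x => (x, k.1 * x + k.2))))

theorem card_vert (p : ℕ) [Fact p.Prime] (x : ZMod p) :
    (univ.image (fun y : ZMod p => (x, y))).card = p := by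
  rw [Finset.card_image_of_injective _ (fun a b h => (Prod.mk.inj h).2), Finset.card_univ, ZMod.card]

theorem card_tr (p : ℕ) [Fact p.Prime] (T : Finset (ZMod p)) (k : ZMod p × ZMod p) :
    (T.image (fun x => (x, k.1 * x + k.2))).card = T.card :=
  Finset.card_image_of_injective _ (fun a b h => (Prod.mk.inj h).1)

theorem pairwise_one (p : ℕ) [Fact p.Prime] (f : ZMod p × ZMod p → Finset (ZMod p)) :
    ∀ A ∈ fam p f, ∀ B ∈ fam p f, A ≠ B → (A ∩ B).card ≤ 1 := by
  classical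
  intro A hA B hB hne
  rw [Finset.card_le_one]
  intro P hP Q hQ
  obtain ⟨hPA, hPB⟩ := Finset.mem_inter.1 hP
  obtain ⟨hQA, hQB⟩ := Finset.mem_inter.1 hQ
  -- membership facts
  have key : ∀ D ∈ fam p f, (∃ x : ZMod p, D = univ.image (fun y : ZMod p => (x, y))) ∨
      (∃ k : ZMod p × ZMod p, D = (f k).image (fun x => (x, k.1 * x + k.2))) := by
    intro D hD
    rcases Finset.mem_union.1 hD with h | h
    · obtain ⟨x, _, rfl⟩ := Finset.mem_image.1 h
      exact Or.inl ⟨x, rfl⟩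
    · obtain ⟨k, _, rfl⟩ := Finset.mem_image.1 h
      exact Or.inr ⟨k, rfl⟩
  have mv : ∀ (x : ZMod p) (R : ZMod p × ZMod p), R ∈ univ.image (fun y : ZMod p => (x, y)) → R.1 = x := by
    intro x R hR
    obtain ⟨y, _, rfl⟩ := Finset.mem_image.1 hR
    rfl
  have mt : ∀ (k R : ZMod p × ZMod p), R ∈ (f k).image (fun x => (x, k.1 * x + k.2)) →
      R.2 = k.1 * R.1 + k.2 := by
    intro k R hR
    obtain ⟨x, _, rfl⟩ := Finset.mem_image.1 hR
    rfl
  rcases key A hA with ⟨x, rfl⟩ | ⟨k, rfl⟩ <;> rcases key B hB with ⟨x', rfl⟩ | ⟨k', rfl⟩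
  · exfalso
    apply hne
    rw [← mv x P hPA, mv x' P hPB]
  · have e1 := mv x P hPA
    have e2 := mv x Q hQA
    have e3 := mt k' P hPB
    have e4 := mt k' Q hQB
    apply Prod.ext
    · rw [e1, e2]
    · rw [e3, e4, e1, e2]
  · have e1 := mv x' P hPB
    have e2 := mv x' Q hQB
    have e3 := mt k P hPA
    have e4 := mt k Q hQA
    apply Prod.ext
    · rw [e1, e2]
    · rw [e3, e4, e1, e2]
  · have e1 := mt k P hPA
    have e2 := mt k Q hQA
    have e3 := mt k' P hPB
    have e4 := mt k' Q hQB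
    have e5 : (k.1 - k'.1) * (P.1 - Q.1) = 0 := by linear_combination e1 - e3 - e2 + e4 - 2 * e1 + 2 * e3 + 2 * e2 - 2 * e4
    rcases mul_eq_zero.1 e5 with h | h
    · exfalso
      apply hne
      have h6 : k.1 = k'.1 := sub_eq_zero.1 h
      have h7 : k.2 = k'.2 := by
        have : k.1 * P.1 + k.2 = k'.1 * P.1 + k'.2 := by rw [← e1, ← e3]
        rw [h6] at this
        exact add_left_cancel this
      rw [Prod.ext h6 h7]
    · have h6 : P.1 = Q.1 := sub_eq_zero.1 h
      apply Prod.ext h6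
      rw [e1, e2, h6]

/-- a set with at most `C` elements is in the range of a function on `Fin C` -/
theorem exists_fn {α : Type} [Inhabited α] (s : Finset α) (C : ℕ) (h : s.card ≤ C) :
    ∃ g : Fin C → α, ∀ y ∈ s, ∃ i, g i = y := by
  classical
  refine ⟨fun i => if hi : i.1 < s.card then (s.equivFin.symm ⟨i.1, hi⟩ : α) else default, ?_⟩
  intro y hy
  have hlt := (s.equivFin ⟨y, hy⟩).2
  refine ⟨⟨(s.equivFin ⟨y, hy⟩).1, hlt.trans_le h⟩, ?_⟩
  simp


/-- The negation of the preceding statement: For each c₁>0 there is C such that any family of subsets of an n-set, each of size more than c₁√n and pairwise sharing at most one element, has a set S meeting every member in between 1 and C elements. -/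
theorem result :
    ¬ (∀ c₁ : ℝ, 0 < c₁ → ∃ C : ℕ, ∀ n : ℕ, ∀ F : Finset (Finset (Fin n)),
      (∀ A ∈ F, c₁ * Real.sqrt (n : ℝ) < ((A.card : ℕ) : ℝ)) →
      (∀ A ∈ F, ∀ B ∈ F, A ≠ B → (A ∩ B).card ≤ 1) →
      ∃ S : Finset (Fin n), ∀ A ∈ F, 1 ≤ (A ∩ S).card ∧ (A ∩ S).card ≤ C) := by
  classical
  intro H
  obtain ⟨C, HC⟩ := H (1 / 5) (by norm_num)
  -- a large prime
  have hδ0 : (0 : ℝ) < (1 / 2) ^ (2 * C + 1) := by positivity
  have hδ1 : ((1 : ℝ) / 2) ^ (2 * C + 1) ≤ 1 := pow_le_one₀ (by norm_num) (by norm_num)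
  have ht : Filter.Tendsto (fun n : ℕ => (n : ℝ) ^ (2 * C) * (1 - (1 / 2) ^ (2 * C + 1)) ^ n)
      Filter.atTop (nhds 0) :=
    tendsto_pow_const_mul_const_pow_of_abs_lt_one _ (by rw [abs_lt]; constructor <;> linarith)
  obtain ⟨N, hN⟩ := Filter.eventually_atTop.1 (ht.eventually (gt_mem_nhds zero_lt_one))
  obtain ⟨p, hpN, hpp⟩ := Nat.exists_infinite_primes (max N (4 * C))
  haveI : Fact p.Prime := ⟨hpp⟩
  have hp1 : N ≤ p := (le_max_left _ _).trans hpN
  have hp2 : 4 * C ≤ p := (le_max_right _ _).trans hpN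
  have hp0 : (0 : ℝ) < p := by exact_mod_cast hpp.pos
  have hc : Fintype.card (ZMod p) = p := ZMod.card p
  refine absurd (main_count p C hp2 ?_) (not_le.2 (hN p hp1))
  intro f hf
  have hsq : Real.sqrt ((Fintype.card (ZMod p × ZMod p) : ℕ) : ℝ) = p := by
    rw [Fintype.card_prod, hc]
    push_cast
    exact Real.sqrt_mul_self hp0.le
  obtain ⟨S, hS⟩ := transport (X := ZMod p × ZMod p) (1 / 5) C HC (fam p f) (by
    intro A hA
    rw [hsq]
    rcases Finset.mem_union.1 hA with h | h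
    · obtain ⟨x, _, rfl⟩ := Finset.mem_image.1 h
      rw [card_vert]
      linarith
    · obtain ⟨k, _, rfl⟩ := Finset.mem_image.1 h
      rw [card_tr]
      have h4 := (Finset.mem_filter.1 (hf k)).2
      have h5 : (p : ℝ) ≤ 4 * ((f k).card : ℝ) := by exact_mod_cast h4
      linarith) (pairwise_one p f)
  have hg : ∀ x : ZMod p, ∃ g : Fin C → ZMod p, ∀ y : ZMod p, (x, y) ∈ S → ∃ i, g i = y := by
    intro x
    have h1 := (hS (univ.image (fun y : ZMod p => (x, y)))
      (Finset.mem_union_left _ (Finset.mem_image_of_mem _ (Finset.mem_univ x)))).2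
    obtain ⟨g, hg⟩ := exists_fn (univ.filter (fun y : ZMod p => (x, y) ∈ S)) C (by
      refine le_trans (le_of_eq ?_) h1
      have : univ.image (fun y : ZMod p => (x, y)) ∩ S =
          (univ.filter (fun y : ZMod p => (x, y) ∈ S)).image (fun y => (x, y)) := by
        ext ⟨a, b⟩
        simp only [Finset.mem_inter, Finset.mem_image, Finset.mem_univ, true_and, Finset.mem_filter,
          Prod.mk.injEq]
        constructor
        · rintro ⟨⟨y, rfl, rfl⟩, h⟩
          exact ⟨y, h, rfl, rfl⟩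
        · rintro ⟨y, h, rfl, rfl⟩
          exact ⟨⟨y, rfl, rfl⟩, h⟩
      rw [this, Finset.card_image_of_injective _ (fun a b h => (Prod.mk.inj h).2)])
    exact ⟨g, fun y hy => hg y (Finset.mem_filter.2 ⟨Finset.mem_univ _, hy⟩)⟩
  choose g hg using hg
  refine ⟨g, fun k hdis => ?_⟩
  have h1 := (hS ((f k).image (fun x => (x, k.1 * x + k.2)))
    (Finset.mem_union_right _ (Finset.mem_image_of_mem _ (Finset.mem_univ k)))).1
  obtain ⟨P, hP⟩ := Finset.card_pos.1 (lt_of_lt_of_le Nat.zero_lt_one h1)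
  obtain ⟨hP1, hP2⟩ := Finset.mem_inter.1 hP
  obtain ⟨x, hx, rfl⟩ := Finset.mem_image.1 hP1
  obtain ⟨i, hi⟩ := hg x _ hP2
  exact Finset.disjoint_left.1 hdis hx (Finset.mem_filter.2 ⟨Finset.mem_univ _, ⟨i, hi⟩⟩)

end Pool.Agent.S09524
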