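import Pool.Statements.S09535
import Pool.Agent.Y388.BB.Chain

set_option autoImplicit false
open Pool Pool.MP_753ad3_co

namespace Pool.Agent.S09535

/-- For every colouring of the naturals with finitely many colours there are positive a,b,c,d such that all eight numbers (a op b) op (c op d), each op being + or ×, get the same colour. -/
theorem result :
    ∀ (k : ℕ) (χ : ℕ → Fin k), ∃ a b c d : ℕ, 0 < a ∧ 0 < b ∧ 0 < c ∧ 0 < d ∧
      χ ((a + b) + (c * d)) = χ ((a + b) + (c + d)) ∧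
      χ ((a * b) + (c + d)) = χ ((a + b) + (c + d)) ∧
      χ ((a * b) + (c * d)) = χ ((a + b) + (c + d)) ∧
      χ ((a + b) * (c + d)) = χ ((a + b) + (c + d)) ∧
      χ ((a + b) * (c * d)) = χ ((a + b) + (c + d)) ∧
      χ ((a * b) * (c + d)) = χ ((a + b) + (c + d)) ∧
      χ ((a * b) * (c * d)) = χ ((a + b) + (c + d)) := by
  intro k χ
  obtain ⟨t, A, B, σ, c, d, hA, hB, hc, hd, hv⟩ :=
    Pool.Agent.Y388.BB.exists_target (fun _ m σ => χ (m * (1 + σ)))
  have key : ∀ v, (v = c + d ∨ v = c * d) →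
      χ ((A * (1 + σ) + A * B) + v) = t ∧ χ ((A * (1 + σ) * (A * B)) + v) = t ∧
      χ ((A * (1 + σ) + A * B) * v) = t ∧ χ ((A * (1 + σ) * (A * B)) * v) = t := by
    intro v hv'
    obtain ⟨⟨q, hq⟩, h1, h2, h3, h4⟩ := hv v hv'
    have e1 : v / A = A * B * q := by
      rw [hq, mul_assoc A (A * B) q]
      exact Nat.mul_div_cancel_left _ hA
    have e2 : v / (A * (A * B)) = q := by
      rw [hq]
      exact Nat.mul_div_cancel_left _ (Nat.mul_pos hA (Nat.mul_pos hA hB))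
    rw [e1] at h1
    rw [e2] at h2
    refine ⟨?_, ?_, ?_, ?_⟩
    · rw [← h1, hq]; congr 1; ring
    · rw [← h2, hq]; congr 1; ring
    · rw [← h3]; congr 1; ring
    · rw [← h4]; congr 1; ring
  obtain ⟨s1, s2, s3, s4⟩ := key (c + d) (Or.inl rfl)
  obtain ⟨r1, r2, r3, r4⟩ := key (c * d) (Or.inr rfl)
  refine ⟨A * (1 + σ), A * B, c, d, Nat.mul_pos hA (by omega), Nat.mul_pos hA hB, hc, hd, ?_⟩
  rw [s1, s2, s3, s4, r1, r2, r3, r4]
  exact ⟨rfl, rfl, rfl, rfl, rfl, rfl, rfl⟩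

end Pool.Agent.S09535
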