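import Pool.Statements.S09613
import Pool.Agent.Y349.SqCover

set_option autoImplicit false
open Pool Pool.MP_78b1ee_co

namespace Pool.Agent.S09613

open Pool.Agent.Y349.SF

lemma word_getD (m k : ℕ) (hk : k < 2 ^ m - 11) :
    ((List.range (2 ^ m - 11)).map (fw m)).getD k 0 = fw m k := by
  rw [List.getD_eq_getElem _ _ (by simpa using hk)]
  simp

lemma ins_getD (l : List ℚ) (p : ℕ) (hp : p ≤ l.length) (x : ℚ) (k : ℕ) :
    (l.take p ++ x :: l.drop p).getD k 0 =
      if k < p then l.getD k 0 else if k = p then x else l.getD (k - 1) 0 := by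
  have hlen : (l.take p).length = p := by simp [hp]
  rcases lt_trichotomy k p with h | h | h
  · rw [if_pos h, List.getD_append _ _ _ _ (by rw [hlen]; exact h)]
    simp only [List.getD_eq_getElem?_getD]
    rw [List.getElem?_take_of_lt h]
  · subst h
    rw [if_neg (lt_irrefl _), if_pos rfl, List.getD_append_right _ _ _ _ (by rw [hlen])]
    rw [hlen, Nat.sub_self]
    rfl
  · rw [if_neg (by omega), if_neg (by omega), List.getD_append_right _ _ _ _ (by rw [hlen]; omega),
      hlen]
    obtain ⟨c, rfl⟩ : ∃ c, k = p + 1 + c := ⟨k - p - 1, by omega⟩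
    rw [show p + 1 + c - p = c + 1 by omega, show p + 1 + c - 1 = p + c by omega,
      List.getD_cons_succ]
    simp only [List.getD_eq_getElem?_getD, List.getElem?_drop]

/-- For every N there is a list of distinct rationals of length at least N with no two adjacent order-isomorphic blocks of length at least 2, such that inserting any new value at any position creates such a pair. -/
theorem result :
    ∀ N : ℕ, ∃ w : List ℚ, N ≤ w.length ∧ w.Nodup ∧
      (¬ ∃ i ℓ : ℕ, 2 ≤ ℓ ∧ i + 2 * ℓ ≤ w.length ∧
          ∀ a < ℓ, ∀ b < ℓ,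
            (w.getD (i + a) 0 < w.getD (i + b) 0 ↔
              w.getD (i + ℓ + a) 0 < w.getD (i + ℓ + b) 0)) ∧
      ∀ p : ℕ, p ≤ w.length → ∀ x : ℚ, x ∉ w →
        ∃ i ℓ : ℕ, 2 ≤ ℓ ∧ i + 2 * ℓ ≤ w.length + 1 ∧
          ∀ a < ℓ, ∀ b < ℓ,
            ((w.take p ++ x :: w.drop p).getD (i + a) 0 <
                (w.take p ++ x :: w.drop p).getD (i + b) 0 ↔
              (w.take p ++ x :: w.drop p).getD (i + ℓ + a) 0 <
                (w.take p ++ x :: w.drop p).getD (i + ℓ + b) 0) := by
  intro N
  set m := N + 7 with hm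
  have hm7 : 7 ≤ m := by omega
  have h64 := pow_ge m hm7
  have h2 := two_pow_pred m (by omega)
  have hN : N < 2 ^ m - 11 := by
    have h3 : N + 6 < 2 ^ (m - 1) := by
      rw [show m - 1 = N + 6 by omega]
      exact Nat.lt_two_pow_self
    omega
  have hlen : ((List.range (2 ^ m - 11)).map (fw m)).length = 2 ^ m - 11 := by simp
  refine ⟨(List.range (2 ^ m - 11)).map (fw m), ?_, ?_, ?_, ?_⟩
  · rw [hlen]; omega
  · refine List.Nodup.map_on ?_ List.nodup_range
    intro i hi j hj hij
    rw [List.mem_range] at hi hj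
    by_contra hne
    exact fw_ne m i j hm7 (by omega) (by omega) hne hij
  · rintro ⟨i, l, hl, hi, h⟩
    rw [hlen] at hi
    apply no_sq m (i + 6) l hm7 (by omega) hl (by omega)
    intro a ha b hb
    have h1 := h a ha b hb
    rw [word_getD m _ (by omega), word_getD m _ (by omega), word_getD m _ (by omega),
      word_getD m _ (by omega)] at h1
    unfold fw at h1
    rw [show i + 6 + a = i + a + 6 by ring, show i + 6 + b = i + b + 6 by ring,
      show i + 6 + l + a = i + l + a + 6 by ring, show i + 6 + l + b = i + l + b + 6 by ring]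
    exact h1
  · intro p hp x hx
    rw [hlen] at hp
    obtain ⟨i, l, hl, hi, h⟩ := cover m p x hm7 (by omega) (by
      intro i hi he
      apply hx
      rw [he]
      exact List.mem_map.2 ⟨i, List.mem_range.2 (by omega), rfl⟩)
    refine ⟨i, l, hl, by rw [hlen]; omega, ?_⟩
    intro a ha b hb
    have key : ∀ k, k < 2 ^ m - 10 →
        (((List.range (2 ^ m - 11)).map (fw m)).take p ++
          x :: ((List.range (2 ^ m - 11)).map (fw m)).drop p).getD k 0 = ins (fw m) p x k := by
      intro k hk
      rw [ins_getD _ _ (by rw [hlen]; exact hp)]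
      unfold ins
      split_ifs with h1 h3
      · exact word_getD m k (by omega)
      · rfl
      · exact word_getD m (k - 1) (by omega)
    rw [key _ (by omega), key _ (by omega), key _ (by omega), key _ (by omega)]
    exact h a ha b hb

end Pool.Agent.S09613
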