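import Pool.Statements.S09692

set_option autoImplicit false
open Pool Pool.MP_7cf704_co

namespace Pool.Agent.S09692

/-- The vertices: three triangles, each triangle vertex blown up nine times, and one vertex for
each transversal of the three triangles. -/
abbrev V : Type := (Fin 3 × Fin 3 × Fin 9) ⊕ (Fin 3 × Fin 3 × Fin 3)

/-- the value of a transversal at a triangle. -/
def val (p : Fin 3 × Fin 3 × Fin 3) (i : Fin 3) : Fin 3 :=
  if i = 0 then p.1 else if i = 1 then p.2.1 else p.2.2

/-- The adjacency relation of the complement graph. -/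
def hb : V → V → Bool
  | Sum.inl u, Sum.inl v => decide (u.1 = v.1 ∧ u.2.1 ≠ v.2.1)
  | Sum.inl u, Sum.inr p => decide (val p u.1 = u.2.1)
  | Sum.inr p, Sum.inl u => decide (val p u.1 = u.2.1)
  | Sum.inr _, Sum.inr _ => false

lemma hb_symm (u v : V) : hb u v = hb v u := by
  rcases u with u | u <;> rcases v with v | v <;> simp [hb, eq_comm]

/-- The graph. -/
def G : SimpleGraph V where
  Adj u v := u ≠ v ∧ hb u v = false
  symm := ⟨fun u v h => ⟨h.1.symm, by rw [hb_symm]; exact h.2⟩⟩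
  loopless := ⟨fun u h => h.1 rfl⟩

instance : DecidableRel G.Adj := fun u v => inferInstanceAs (Decidable (u ≠ v ∧ hb u v = false))

lemma regular : G.IsRegularOfDegree 80 := by
  intro v
  revert v
  decide +kernel

lemma not_top : G ≠ ⊤ := by
  intro h
  have h1 : G.Adj (Sum.inl (0, 0, 0)) (Sum.inl (0, 1, 0)) := by
    rw [h]; simp
  have h2 := h1.2
  simp [hb] at h2

/-- at most one class of each triangle meets a clique. -/
lemma one_class {s : Set V} (hs : G.IsClique s) (i a b : Fin 3) (x y : Fin 9)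
    (hx : (Sum.inl (i, a, x) : V) ∈ s) (hy : (Sum.inl (i, b, y) : V) ∈ s) : a = b := by
  by_contra hab
  have h1 : (Sum.inl (i, a, x) : V) ≠ Sum.inl (i, b, y) := by
    intro h
    simp at h
    exact hab h.1
  have h2 := (hs hx hy h1).2
  simp [hb, hab] at h2

lemma free_class {s t : Set V} (hs : G.IsClique s) (ht : G.IsClique t) (i : Fin 3) :
    ∃ c : Fin 3, (∀ x, (Sum.inl (i, c, x) : V) ∉ s) ∧ (∀ x, (Sum.inl (i, c, x) : V) ∉ t) := by
  by_contra hcon
  push Not at hcon
  have key : ∀ c : Fin 3, (∃ x, (Sum.inl (i, c, x) : V) ∈ s) ∨ (∃ x, (Sum.inl (i, c, x) : V) ∈ t) := by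
    intro c
    by_cases h : ∀ x, (Sum.inl (i, c, x) : V) ∉ s
    · exact Or.inr (hcon c h)
    · push Not at h
      exact Or.inl h
  have hs2 : ∀ a b : Fin 3, (∃ x, (Sum.inl (i, a, x) : V) ∈ s) → (∃ x, (Sum.inl (i, b, x) : V) ∈ s) →
      a = b := fun a b ⟨x, hx⟩ ⟨y, hy⟩ => one_class hs i a b x y hx hy
  have ht2 : ∀ a b : Fin 3, (∃ x, (Sum.inl (i, a, x) : V) ∈ t) → (∃ x, (Sum.inl (i, b, x) : V) ∈ t) →
      a = b := fun a b ⟨x, hx⟩ ⟨y, hy⟩ => one_class ht i a b x y hx hy
  have e1 : (0 : Fin 3) ≠ 1 := by decide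
  have e2 : (0 : Fin 3) ≠ 2 := by decide
  have e3 : (1 : Fin 3) ≠ 2 := by decide
  rcases key 0 with h0 | h0 <;> rcases key 1 with h1 | h1 <;> rcases key 2 with h2 | h2
  · exact e1 (hs2 _ _ h0 h1)
  · exact e1 (hs2 _ _ h0 h1)
  · exact e2 (hs2 _ _ h0 h2)
  · exact e3 (ht2 _ _ h1 h2)
  · exact e3 (hs2 _ _ h1 h2)
  · exact e2 (ht2 _ _ h0 h2)
  · exact e1 (ht2 _ _ h0 h1)
  · exact e1 (ht2 _ _ h0 h1)

/-- a transversal avoiding all the classes met by a maximal clique lies in it. -/
lemma mem_of_avoid {s : Set V} (hs : Maximal G.IsClique s) (p : Fin 3 × Fin 3 × Fin 3)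
    (h : ∀ i x, (Sum.inl (i, val p i, x) : V) ∉ s) : (Sum.inr p : V) ∈ s := by
  have h1 : G.IsClique (insert (Sum.inr p) s) := by
    rw [SimpleGraph.isClique_insert]
    refine ⟨hs.prop, ?_⟩
    intro u hu hne
    refine ⟨hne, ?_⟩
    rcases u with ⟨i, a, x⟩ | q
    · have : val p i ≠ a := by
        rintro rfl
        exact h i x hu
      simp [hb, this]
    · simp [hb]
  exact hs.le_of_ge h1 (Set.subset_insert _ _) (Set.mem_insert _ _)

lemma meet {s t : Set V} (hs : Maximal G.IsClique s) (ht : Maximal G.IsClique t) :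
    ¬ Disjoint s t := by
  obtain ⟨a, ha1, ha2⟩ := free_class hs.prop ht.prop 0
  obtain ⟨b, hb1, hb2⟩ := free_class hs.prop ht.prop 1
  obtain ⟨c, hc1, hc2⟩ := free_class hs.prop ht.prop 2
  have h1 : (Sum.inr (a, b, c) : V) ∈ s := by
    refine mem_of_avoid hs (a, b, c) ?_
    intro i x
    fin_cases i
    · exact ha1 x
    · exact hb1 x
    · exact hc1 x
  have h2 : (Sum.inr (a, b, c) : V) ∈ t := by
    refine mem_of_avoid ht (a, b, c) ?_
    intro i x
    fin_cases i
    · exact ha2 x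
    · exact hb2 x
    · exact hc2 x
  exact fun hd => Set.disjoint_left.mp hd h1 h2

/-- The negation of the preceding statement: Every finite simple graph that is regular of some degree and is not complete contains two disjoint cliques, each maximal under inclusion. -/
theorem result :
    ¬ (∀ (V : Type) [Fintype V] [DecidableEq V] (G : SimpleGraph V) [DecidableRel G.Adj] (d : ℕ),
      G.IsRegularOfDegree d → G ≠ ⊤ →
        ∃ s t : Set V, Maximal G.IsClique s ∧ Maximal G.IsClique t ∧ Disjoint s t) := by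
  intro h
  obtain ⟨s, t, hs, ht, hd⟩ := h V G 80 regular not_top
  exact meet hs ht hd

end Pool.Agent.S09692
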