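import Pool.Statements.S09798
import Pool.Agent.Y857.KD.Count

set_option autoImplicit false
open Pool Pool.MP_82152b_co

namespace Pool.Agent.S09798

/-- The negation of the preceding statement: For every k and every nonempty k-degenerate graph H with flap number f (1 if H has no (≤k)-separation, else the max number of pairwise independent ones), the max number of copies of H in an n-vertex k-degenerate graph is Θ(n^f). -/
theorem result :
    ¬ (∀ (k : ℕ) (V : Type) [Fintype V] [Nonempty V] (H : SimpleGraph V),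
    (∀ S : Finset V, S.Nonempty → ∃ v ∈ S, {w : V | w ∈ S ∧ H.Adj v w}.ncard ≤ k) →
    ∀ f : ℕ,
      (((¬ ∃ A B : H.Subgraph, A ⊔ B = ⊤ ∧ (∀ u v, A.Adj u v → ¬ B.Adj u v) ∧
            (∃ v, v ∈ A.verts ∧ v ∉ B.verts) ∧ (∃ v, v ∈ B.verts ∧ v ∉ A.verts) ∧
            (A.verts ∩ B.verts).ncard ≤ k) ∧ f = 1) ∨
       ((∃ A B : H.Subgraph, A ⊔ B = ⊤ ∧ (∀ u v, A.Adj u v → ¬ B.Adj u v) ∧
            (∃ v, v ∈ A.verts ∧ v ∉ B.verts) ∧ (∃ v, v ∈ B.verts ∧ v ∉ A.verts) ∧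
            (A.verts ∩ B.verts).ncard ≤ k) ∧
         IsGreatest {m : ℕ | ∃ A B : Fin m → H.Subgraph,
            (∀ i, A i ⊔ B i = ⊤ ∧ (∀ u v, (A i).Adj u v → ¬ (B i).Adj u v) ∧
              (∃ v, v ∈ (A i).verts ∧ v ∉ (B i).verts) ∧
              (∃ v, v ∈ (B i).verts ∧ v ∉ (A i).verts) ∧
              ((A i).verts ∩ (B i).verts).ncard ≤ k) ∧
            ∀ i j, i ≠ j →
              (∀ u v, (A i).Adj u v → ¬ (A j).Adj u v) ∧
              ∀ v, v ∈ (A i).verts → v ∉ (B i).verts → ¬ (v ∈ (A j).verts ∧ v ∉ (B j).verts)} f)) →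
      ∃ c₁ c₂ : ℝ, 0 < c₁ ∧ 0 < c₂ ∧ ∃ N : ℕ, ∀ n : ℕ, N ≤ n →
        (∃ G : SimpleGraph (Fin n),
            (∀ S : Finset (Fin n), S.Nonempty → ∃ v ∈ S, {w : Fin n | w ∈ S ∧ G.Adj v w}.ncard ≤ k) ∧
            c₁ * (n : ℝ) ^ f ≤
              (({φ : V ↪ Fin n | ∀ u v, H.Adj u v → G.Adj (φ u) (φ v)}.ncard : ℕ) : ℝ)) ∧
        ∀ G : SimpleGraph (Fin n),
            (∀ S : Finset (Fin n), S.Nonempty → ∃ v ∈ S, {w : Fin n | w ∈ S ∧ G.Adj v w}.ncard ≤ k) →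
            (({φ : V ↪ Fin n | ∀ u v, H.Adj u v → G.Adj (φ u) (φ v)}.ncard : ℕ) : ℝ) ≤ c₂ * (n : ℝ) ^ f) := by
  intro hall
  classical
  let A0 : Pool.Agent.Y857.KD.H.Subgraph :=
    { verts := {v | v = 0 ∨ v = 1 ∨ v = 2}
      Adj := fun a b => Pool.Agent.Y857.KD.H.Adj a b ∧ (a = 0 ∨ b = 0)
      adj_sub := fun h => h.1
      edge_vert := by
        intro v w h
        revert h v w
        decide
      symm := ⟨fun a b h => ⟨h.1.symm, h.2.symm⟩⟩ }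
  let B0 : Pool.Agent.Y857.KD.H.Subgraph :=
    { verts := {v | v ≠ 0}
      Adj := fun a b => Pool.Agent.Y857.KD.H.Adj a b ∧ a ≠ 0 ∧ b ≠ 0
      adj_sub := fun h => h.1
      edge_vert := fun h => h.2.1
      symm := ⟨fun a b h => ⟨h.1.symm, h.2.2, h.2.1⟩⟩ }
  have htop : A0 ⊔ B0 = ⊤ := by
    apply SimpleGraph.Subgraph.ext
    · ext v
      simp only [SimpleGraph.Subgraph.verts_sup, SimpleGraph.Subgraph.verts_top, Set.mem_union,
        Set.mem_univ, iff_true]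
      by_cases h : v = 0
      · left; exact Or.inl h
      · right; exact h
    · ext a b
      simp only [SimpleGraph.Subgraph.sup_adj, SimpleGraph.Subgraph.top_adj]
      change (_ ∧ _) ∨ (_ ∧ _) ↔ _
      tauto
  have hinter : (A0.verts ∩ B0.verts).ncard ≤ 2 := by
    have h1 : A0.verts ∩ B0.verts ⊆ (({1, 2} : Finset (Fin 5)) : Set (Fin 5)) := by
      rintro v ⟨h1, h2⟩
      change v = 0 ∨ v = 1 ∨ v = 2 at h1
      change v ≠ 0 at h2
      simp only [Finset.coe_insert, Finset.coe_singleton, Set.mem_insert_iff,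
        Set.mem_singleton_iff]
      tauto
    refine (Set.ncard_le_ncard h1 (Finset.finite_toSet _)).trans ?_
    rw [Set.ncard_coe_finset]
    decide
  have hA : ∀ u v, A0.Adj u v → ¬ B0.Adj u v := by
    rintro u v ⟨-, h⟩ ⟨-, h2, h3⟩
    tauto
  have hAv : ∃ v, v ∈ A0.verts ∧ v ∉ B0.verts :=
    ⟨0, Or.inl rfl, fun h => h rfl⟩
  have hBv : ∃ v, v ∈ B0.verts ∧ v ∉ A0.verts := by
    refine ⟨3, ?_, ?_⟩
    · change (3 : Fin 5) ≠ 0
      decide
    · change ¬ ((3 : Fin 5) = 0 ∨ (3 : Fin 5) = 1 ∨ (3 : Fin 5) = 2)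
      decide
  let P : Set ℕ := {m : ℕ | ∃ A B : Fin m → Pool.Agent.Y857.KD.H.Subgraph,
            (∀ i, A i ⊔ B i = ⊤ ∧ (∀ u v, (A i).Adj u v → ¬ (B i).Adj u v) ∧
              (∃ v, v ∈ (A i).verts ∧ v ∉ (B i).verts) ∧
              (∃ v, v ∈ (B i).verts ∧ v ∉ (A i).verts) ∧
              ((A i).verts ∩ (B i).verts).ncard ≤ 2) ∧
            ∀ i j, i ≠ j →
              (∀ u v, (A i).Adj u v → ¬ (A j).Adj u v) ∧
              ∀ v, v ∈ (A i).verts → v ∉ (B i).verts → ¬ (v ∈ (A j).verts ∧ v ∉ (B j).verts)}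
  have h2 : 2 ∈ P := by
    refine ⟨![A0, B0], ![B0, A0], ?_, ?_⟩
    · intro i
      fin_cases i
      · exact ⟨htop, hA, hAv, hBv, hinter⟩
      · refine ⟨?_, ?_, hBv, hAv, ?_⟩
        · change B0 ⊔ A0 = ⊤
          rw [sup_comm]; exact htop
        · intro u v h1 h2
          exact hA u v h2 h1
        · change (B0.verts ∩ A0.verts).ncard ≤ 2
          rw [Set.inter_comm]; exact hinter
    · intro i j hij
      fin_cases i <;> fin_cases j
      · exact absurd rfl hij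
      · exact ⟨hA, fun v _ h => fun h' => h h'.1⟩
      · exact ⟨fun u v h1 h2 => hA u v h2 h1, fun v h1 _ => fun h' => h'.2 h1⟩
      · exact absurd rfl hij
  have hb : BddAbove P := by
    refine ⟨5, ?_⟩
    rintro m ⟨A, B, h1, h2⟩
    choose g hg using fun i => (h1 i).2.2.1
    have hg2 : Function.Injective g := by
      intro i j hij
      by_contra hne
      exact (h2 i j hne).2 (g i) (hg i).1 (hg i).2 (hij ▸ hg j)
    have := Fintype.card_le_of_injective g hg2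
    simpa using this
  have hgr : IsGreatest P (sSup P) := ⟨Nat.sSup_mem ⟨2, h2⟩ hb, fun m hm => le_csSup hb hm⟩
  have hf : 2 ≤ sSup P := hgr.2 h2
  obtain ⟨c₁, c₂, hc₁, hc₂, N, hN⟩ := hall 2 (Fin 5) Pool.Agent.Y857.KD.H
    Pool.Agent.Y857.KD.H_degenerate (sSup P) (Or.inr ⟨⟨A0, B0, htop, hA, hAv, hBv, hinter⟩, hgr⟩)
  obtain ⟨M, hM⟩ := exists_nat_gt (((3 ^ 5) ^ 5 : ℝ) / c₁)
  obtain ⟨n, hn⟩ : ∃ n : ℕ, n = max N M + 1 := ⟨_, rfl⟩
  have hn1 : 1 ≤ n := by omega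
  obtain ⟨⟨G, hG, hGc⟩, -⟩ := hN n (by omega)
  have hcount := Pool.Agent.Y857.KD.count_le G hG
  have hcount' : (({φ : Fin 5 ↪ Fin n | ∀ u v, Pool.Agent.Y857.KD.H.Adj u v →
      G.Adj (φ u) (φ v)}.ncard : ℕ) : ℝ) ≤ (n : ℝ) * (3 ^ 5) ^ 5 := by
    exact_mod_cast hcount
  have hn2 : (1 : ℝ) ≤ n := by exact_mod_cast hn1
  have hpow : (n : ℝ) ^ 2 ≤ (n : ℝ) ^ (sSup P) := pow_le_pow_right₀ hn2 hf
  have hMn : (M : ℝ) ≤ n := by
    have : M ≤ n := by omega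
    exact_mod_cast this
  have h3 : ((3 ^ 5) ^ 5 : ℝ) < c₁ * n := by
    have h4 : ((3 ^ 5) ^ 5 : ℝ) / c₁ < n := lt_of_lt_of_le hM hMn
    rw [div_lt_iff₀ hc₁] at h4
    linarith
  have h5 : c₁ * (n : ℝ) ^ 2 ≤ (n : ℝ) * (3 ^ 5) ^ 5 := by
    calc c₁ * (n : ℝ) ^ 2 ≤ c₁ * (n : ℝ) ^ (sSup P) := by gcongr
      _ ≤ _ := hGc
      _ ≤ _ := hcount'
  nlinarith


end Pool.Agent.S09798
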