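import Pool.Statements.S09874

/-!
The set `X = {0, …, 2k} \ {k}` has at least `2 ^ (k - 2)` maximally repeated patterns up to
translation: all the sets `{0, k + 1} ∪ U` with `U ⊆ {2, …, k - 1}`.
-/

set_option autoImplicit false
open Pool Pool.MP_85fffe_co

namespace Pool.Agent.S09874

/-- The ground set `{0, …, 2k} \ {k}`. -/
noncomputable def grd (k : ℕ) : Finset ℝ :=
  ((Finset.range (2 * k + 1)).erase k).image (fun i : ℕ => (i : ℝ))

/-- The pattern `{0, k + 1} ∪ U`. -/
noncomputable def pat (k : ℕ) (U : Finset ℕ) : Finset ℝ :=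
  (insert 0 (insert (k + 1) U)).image (fun i : ℕ => (i : ℝ))

lemma mem_grd {k : ℕ} {x : ℝ} : x ∈ grd k ↔ ∃ i : ℕ, i ≠ k ∧ i ≤ 2 * k ∧ (i : ℝ) = x := by
  unfold grd
  simp only [Finset.mem_image, Finset.mem_erase, Finset.mem_range]
  constructor
  · rintro ⟨i, ⟨h1, h2⟩, h3⟩
    exact ⟨i, h1, by omega, h3⟩
  · rintro ⟨i, h1, h2, h3⟩
    exact ⟨i, ⟨h1, by omega⟩, h3⟩

lemma natCast_mem_grd {k i : ℕ} : (i : ℝ) ∈ grd k ↔ i ≠ k ∧ i ≤ 2 * k := by
  rw [mem_grd]
  constructor
  · rintro ⟨j, h1, h2, h3⟩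
    have : j = i := by exact_mod_cast h3
    subst this
    exact ⟨h1, h2⟩
  · rintro ⟨h1, h2⟩
    exact ⟨i, h1, h2, rfl⟩

lemma mem_pat {k : ℕ} {U : Finset ℕ} {x : ℝ} :
    x ∈ pat k U ↔ ∃ i : ℕ, (i = 0 ∨ i = k + 1 ∨ i ∈ U) ∧ (i : ℝ) = x := by
  unfold pat
  simp only [Finset.mem_image, Finset.mem_insert]

lemma natCast_mem_pat {k i : ℕ} {U : Finset ℕ} :
    (i : ℝ) ∈ pat k U ↔ (i = 0 ∨ i = k + 1 ∨ i ∈ U) := by
  rw [mem_pat]
  constructor
  · rintro ⟨j, h1, h3⟩
    have : j = i := by exact_mod_cast h3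
    subst this
    exact h1
  · intro h1
    exact ⟨i, h1, rfl⟩

lemma card_grd (k : ℕ) : (grd k).card ≤ 2 * k := by
  unfold grd
  refine Finset.card_image_le.trans ?_
  rw [Finset.card_erase_of_mem (by simp; omega)]
  simp

lemma pat_inj {k : ℕ} {U V : Finset ℕ} (hU : U ⊆ Finset.Ico 2 k) (hV : V ⊆ Finset.Ico 2 k)
    (h : pat k U = pat k V) : U = V := by
  ext i
  have key : ∀ U V : Finset ℕ, U ⊆ Finset.Ico 2 k → pat k U = pat k V → i ∈ U → i ∈ V := by
    intro U V hU h hi
    have h1 : (i : ℝ) ∈ pat k U := natCast_mem_pat.mpr (Or.inr (Or.inr hi))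
    rw [h] at h1
    have h2 := Finset.mem_Ico.mp (hU hi)
    rcases natCast_mem_pat.mp h1 with h3 | h3 | h3
    · omega
    · omega
    · exact h3
  exact ⟨key U V hU h, key V U hV h.symm⟩

lemma pat_nonneg {k : ℕ} {U : Finset ℕ} {x : ℝ} (hx : x ∈ pat k U) : 0 ≤ x := by
  obtain ⟨i, _, rfl⟩ := mem_pat.mp hx
  exact Nat.cast_nonneg i

lemma zero_mem_pat {k : ℕ} {U : Finset ℕ} : (0 : ℝ) ∈ pat k U := by
  have := (natCast_mem_pat (k := k) (i := 0) (U := U)).mpr (Or.inl rfl)
  simpa using this

/-- translates of patterns which contain `0` and consist of nonnegative numbers are equal -/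
lemma pat_translate {k : ℕ} {U V : Finset ℕ} {t : ℝ}
    (h : pat k V = (pat k U).image (· + t)) : pat k U = pat k V := by
  have h1 : (0 : ℝ) ∈ (pat k U).image (· + t) := by rw [← h]; exact zero_mem_pat
  obtain ⟨a, ha, hat⟩ := Finset.mem_image.mp h1
  have ha0 := pat_nonneg ha
  have h2 : (0 + t : ℝ) ∈ pat k V := by
    rw [h]; exact Finset.mem_image_of_mem _ zero_mem_pat
  have h3 := pat_nonneg h2
  have ht : t = 0 := by linarith
  subst ht
  rw [h]
  simp

/-- The negation of the preceding statement: There is a constant C such that for every finite set X of n reals, any family of maximally repeated patterns of X, no two of which are translates of each other, has at most C·n members. -/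
theorem result :
    ¬ (∃ C : ℕ, ∀ X : Finset ℝ, ∀ S : Finset (Finset ℝ),
      (∀ A ∈ S,
        A.Nonempty ∧ A ⊆ X ∧
        (∃ t : ℝ, t ≠ 0 ∧ A.image (· + t) ⊆ X) ∧
        (∀ B : Finset ℝ, A ⊂ B →
          ¬ (∀ t : ℝ, A.image (· + t) ⊆ X → B.image (· + t) ⊆ X))) →
      (∀ A ∈ S, ∀ B ∈ S, ∀ t : ℝ, B = A.image (· + t) → A = B) →
      S.card ≤ C * X.card) := by
  classical
  rintro ⟨C, hC⟩
  -- choose `k`
  obtain ⟨k, hk3, hk⟩ : ∃ k : ℕ, 3 ≤ k ∧ C * (2 * k) < 2 ^ (k - 2) := by
    refine ⟨2 * C + 10, by omega, ?_⟩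
    have h1 : 2 * C + 10 - 2 = 2 * C + 8 := by omega
    rw [h1]
    have h2 : C < 2 ^ C := Nat.lt_two_pow_self
    have h3 : C + 5 < 2 ^ (C + 3) := by
      have : 2 ^ (C + 3) = 2 ^ C * 8 := by rw [pow_add]; norm_num
      rw [this]
      have : 1 ≤ 2 ^ C := Nat.one_le_two_pow
      omega
    have h4 : 2 ^ (2 * C + 8) = 2 ^ C * 2 ^ (C + 3) * 32 := by
      rw [show 2 * C + 8 = C + (C + 3) + 5 by ring, pow_add, pow_add _ C]
      norm_num
    rw [h4]
    have h5 : C * (C + 5) ≤ 2 ^ C * 2 ^ (C + 3) := Nat.mul_le_mul h2.le h3.le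
    have h6 : 0 < 2 ^ C * 2 ^ (C + 3) := by positivity
    nlinarith
  -- the family
  have hinj : Set.InjOn (pat k) ((Finset.Ico 2 k).powerset : Set (Finset ℕ)) := by
    intro U hU V hV h
    simp only [Finset.coe_powerset, Set.mem_preimage, Set.mem_powerset_iff, Finset.coe_subset]
      at hU hV
    exact pat_inj hU hV h
  have hcard := hC (grd k) (((Finset.Ico 2 k).powerset).image (pat k)) ?_ ?_
  · rw [Finset.card_image_of_injOn hinj, Finset.card_powerset, Nat.card_Ico] at hcard
    have := card_grd k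
    have h2 : C * (grd k).card ≤ C * (2 * k) := Nat.mul_le_mul_left _ this
    omega
  · intro A hA
    obtain ⟨U, hU, rfl⟩ := Finset.mem_image.mp hA
    rw [Finset.mem_powerset] at hU
    have hU' : ∀ i ∈ U, 2 ≤ i ∧ i < k := fun i hi => Finset.mem_Ico.mp (hU hi)
    -- the shifts
    have hshift : ∀ s : ℕ, s < k → (k - s = 0 ∨ k - s = k + 1 ∨ k - s ∈ U → False) →
        (pat k U).image (· + (s : ℝ)) ⊆ grd k := by
      intro s hs hs' x hx
      obtain ⟨a, ha, rfl⟩ := Finset.mem_image.mp hx
      obtain ⟨i, hi, rfl⟩ := mem_pat.mp ha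
      have h1 : ((i : ℝ) + (s : ℝ)) = ((i + s : ℕ) : ℝ) := by push_cast; ring
      show ((i : ℝ) + (s : ℝ)) ∈ grd k
      rw [h1, natCast_mem_grd]
      have hi' : i = 0 ∨ i = k + 1 ∨ (2 ≤ i ∧ i < k) := by
        rcases hi with h | h | h
        · exact Or.inl h
        · exact Or.inr (Or.inl h)
        · exact Or.inr (Or.inr (hU' i h))
      refine ⟨?_, by omega⟩
      intro h2
      apply hs'
      have h3 : k - s = i := by omega
      rw [h3]
      exact hi
    refine ⟨⟨0, zero_mem_pat⟩, ?_, ?_, ?_⟩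
    · intro x hx
      obtain ⟨i, hi, rfl⟩ := mem_pat.mp hx
      rw [natCast_mem_grd]
      rcases hi with h | h | h
      · omega
      · omega
      · have := hU' i h
        omega
    · refine ⟨((k - 1 : ℕ) : ℝ), ?_, hshift (k - 1) (by omega) ?_⟩
      · have : (k - 1 : ℕ) ≠ 0 := by omega
        exact_mod_cast this
      · intro h
        have h1 : k - (k - 1) = 1 := by omega
        rw [h1] at h
        rcases h with h | h | h
        · omega
        · omega
        · have := hU' _ h
          omega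
    · intro B hB hall
      obtain ⟨b, hbB, hbA⟩ := Finset.exists_of_ssubset hB
      -- `b ∈ X`
      have h0 := hall ((0 : ℕ) : ℝ) (hshift 0 (by omega) (by
        intro h
        rw [Nat.sub_zero] at h
        rcases h with h | h | h
        · omega
        · omega
        · have := hU' _ h
          omega))
      have hb0 : b ∈ grd k := by
        have := h0 (Finset.mem_image_of_mem _ hbB)
        simpa using this
      obtain ⟨i, hik, hi2, rfl⟩ := mem_grd.mp hb0
      have hiA : ¬ (i = 0 ∨ i = k + 1 ∨ i ∈ U) := fun h => hbA (natCast_mem_pat.mpr h)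
      push Not at hiA
      -- `b ≤ k + 1`
      have h1 := hall ((k - 1 : ℕ) : ℝ) (hshift (k - 1) (by omega) (by
        intro h
        have h1 : k - (k - 1) = 1 := by omega
        rw [h1] at h
        rcases h with h | h | h
        · omega
        · omega
        · have := hU' _ h
          omega))
      have hb1 : ((i + (k - 1) : ℕ) : ℝ) ∈ grd k := by
        have := h1 (Finset.mem_image_of_mem _ hbB)
        push_cast
        exact this
      rw [natCast_mem_grd] at hb1
      have hlt : i < k := by omega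
      -- the shift by `k - i`
      have h2 := hall ((k - i : ℕ) : ℝ) (hshift (k - i) (by omega) (by
        intro h
        have h1 : k - (k - i) = i := by omega
        rw [h1] at h
        rcases h with h | h | h
        · omega
        · omega
        · exact hiA.2.2 h))
      have hb2 : ((i + (k - i) : ℕ) : ℝ) ∈ grd k := by
        have := h2 (Finset.mem_image_of_mem _ hbB)
        push_cast
        exact this
      rw [natCast_mem_grd] at hb2
      omega
  · intro A hA B hB t hBt
    obtain ⟨U, hU, rfl⟩ := Finset.mem_image.mp hA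
    obtain ⟨V, hV, rfl⟩ := Finset.mem_image.mp hB
    exact pat_translate hBt

end Pool.Agent.S09874
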