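import Pool.Statements.S09946
import Pool.Agent.Y429.Fam

set_option autoImplicit false
open Pool Pool.MP_8888ff_co

namespace Pool.Agent.S09946

/-- The negation of the preceding statement: For every graph family whose members all contain a cycle and one is bipartite, some c>0 ensures every graph with min degree δ≥1 and max degree Δ has a spanning F-free subgraph of min degree at least c·ex(K_Δ,F)·δ/Δ². -/
theorem result :
    ¬ (∀ F : Set (Σ k : ℕ, SimpleGraph (Fin k)),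
      (∀ p ∈ F, ¬ p.2.IsAcyclic) →
      (∃ p ∈ F, p.2.Colorable 2) →
      ∃ c : ℝ, 0 < c ∧
        ∀ δ Δ : ℕ, 1 ≤ δ → δ ≤ Δ →
          ∀ n : ℕ, ∀ G : SimpleGraph (Fin n),
            (∀ v, δ ≤ (G.neighborSet v).ncard) →
            (∃ v, (G.neighborSet v).ncard = δ) →
            (∀ v, (G.neighborSet v).ncard ≤ Δ) →
            (∃ v, (G.neighborSet v).ncard = Δ) →
            ∀ T : SimpleGraph (Fin Δ),
              (∀ p ∈ F, ¬ p.2.IsContained T) →
              ∃ H : SimpleGraph (Fin n), H ≤ G ∧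
                (∀ p ∈ F, ¬ p.2.IsContained H) ∧
                ∀ v, c * (T.edgeSet.ncard : ℝ) * (δ : ℝ) / (Δ : ℝ) ^ 2
                  ≤ ((H.neighborSet v).ncard : ℝ)) := by
  intro h
  obtain ⟨c, hc, h⟩ := h Pool.Agent.Y429.Fam.family Pool.Agent.Y429.Fam.not_acyclic_of_mem
    ⟨_, Pool.Agent.Y429.Fam.C4_mem, Pool.Agent.Y429.Fam.C4_colorable⟩
  obtain ⟨i, hi⟩ := exists_nat_gt (2 / c)
  obtain ⟨N, hN⟩ : ∃ N, N = Pool.Agent.Y429.Fam.NN i := ⟨_, rfl⟩
  have hN4 : 4 ≤ N := by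
    rw [hN]
    exact (Pool.Agent.Y429.Fam.four_le_gg i).trans (Pool.Agent.Y429.Fam.gg_le_NN i)
  have hdeg : ∀ v : Fin (2 * Pool.Agent.Y429.Fam.NN i),
      ((⊤ : SimpleGraph (Fin (2 * Pool.Agent.Y429.Fam.NN i))).neighborSet v).ncard =
        2 * Pool.Agent.Y429.Fam.NN i - 1 := by
    intro v
    have h1 : (⊤ : SimpleGraph (Fin (2 * Pool.Agent.Y429.Fam.NN i))).neighborSet v = {v}ᶜ := by
      ext w
      simp only [SimpleGraph.mem_neighborSet, SimpleGraph.top_adj, Set.mem_compl_iff,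
        Set.mem_singleton_iff]
      exact ne_comm
    rw [h1, Set.ncard_compl, Set.ncard_singleton, Nat.card_eq_fintype_card, Fintype.card_fin]
  have hpos : 0 < 2 * Pool.Agent.Y429.Fam.NN i := by omega
  obtain ⟨H, -, hfree, hH⟩ := h (2 * Pool.Agent.Y429.Fam.NN i - 1)
    (2 * Pool.Agent.Y429.Fam.NN i - 1) (by omega) le_rfl (2 * Pool.Agent.Y429.Fam.NN i) ⊤
    (fun v => (hdeg v).ge) ⟨⟨0, hpos⟩, hdeg _⟩ (fun v => (hdeg v).le) ⟨⟨0, hpos⟩, hdeg _⟩
    (Pool.Agent.Y429.Fam.T i)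
    ((Pool.Agent.Y429.Fam.free_iff _).mpr (Pool.Agent.Y429.Fam.T_good i))
  obtain ⟨v, hv⟩ := Pool.Agent.Y429.Fam.good_small_degree i H
    ((Pool.Agent.Y429.Fam.free_iff _).mp hfree)
  have h1 := hH v
  have h2 : ((H.neighborSet v).ncard : ℝ) ≤ 1 := by exact_mod_cast hv
  have h3 : (((i + 1) * Pool.Agent.Y429.Fam.NN i : ℕ) : ℝ) ≤
      ((Pool.Agent.Y429.Fam.T i).edgeSet.ncard : ℝ) :=
    Nat.cast_le.mpr (Pool.Agent.Y429.Fam.T_edges i)
  have h4 : ((2 * Pool.Agent.Y429.Fam.NN i - 1 : ℕ) : ℝ) = 2 * N - 1 := by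
    rw [Nat.cast_sub (by omega), hN]
    push_cast
    ring
  have hNR : (4 : ℝ) ≤ N := by exact_mod_cast hN4
  rw [h4] at h1
  have h3' : (((i + 1) * Pool.Agent.Y429.Fam.NN i : ℕ) : ℝ) = ((i : ℝ) + 1) * N := by
    rw [hN]
    push_cast
    ring
  rw [h3'] at h3
  have h5 : c * ((Pool.Agent.Y429.Fam.T i).edgeSet.ncard : ℝ) * (2 * N - 1) / (2 * N - 1) ^ 2 =
      c * ((Pool.Agent.Y429.Fam.T i).edgeSet.ncard : ℝ) / (2 * N - 1) := by
    have : (2 * (N : ℝ) - 1) ≠ 0 := by linarith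
    field_simp
  rw [h5] at h1
  have h6 : c * ((Pool.Agent.Y429.Fam.T i).edgeSet.ncard : ℝ) / (2 * N - 1) ≤ 1 := h1.trans h2
  rw [div_le_one (by linarith)] at h6
  have h7 : c * (((i : ℝ) + 1) * N) ≤
      c * ((Pool.Agent.Y429.Fam.T i).edgeSet.ncard : ℝ) := mul_le_mul_of_nonneg_left h3 hc.le
  have h8 : 2 < c * i := by
    rw [div_lt_iff₀ hc] at hi
    linarith
  have h9 : 2 * (N : ℝ) < c * i * N := by nlinarith
  have h10 : 0 < c * N := by positivity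
  linarith

end Pool.Agent.S09946
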