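import Pool.Statements.S10143
import Pool.Agent.Y430.CliqueHullB

set_option autoImplicit false
open Classical
open Pool Pool.MP_913d4e_co

namespace Pool.Agent.S10143

open Pool.Agent.Y430.CH Finset Filter Topology

lemma card_eq_kc {N : ℕ} (G : SimpleGraph (Fin N)) (e : ℕ) : (G.cliqueFinset e).card = kc G e := by
  rw [kc, ← SimpleGraph.coe_cliqueFinset, Set.ncard_coe_finset]

/-- For 0<e_1<…<e_m, take the convex hull of the e_i-clique density vectors (cliques over binom(n,e_i)) of all n-vertex graphs, and intersect over n≥Σe_i. This equals the hull of the all-ones vector and the points (∏_{j<e_i}(1−j/k))_i for k≥1. -/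
theorem result :
    ∀ (m : ℕ) (e : Fin m → ℕ), (∀ i, 0 < e i) → StrictMono e →
      (⋂ n : ℕ, convexHull ℝ
          { x : Fin m → ℝ | ∃ G : SimpleGraph (Fin (n + ∑ i, e i)),
              x = fun i => ((G.cliqueFinset (e i)).card : ℝ) /
                ((Nat.choose (n + ∑ i, e i) (e i) : ℕ) : ℝ) })
        = convexHull ℝ (insert (1 : Fin m → ℝ)
            (Set.range fun k : ℕ => fun i : Fin m =>
              ∏ j ∈ Finset.Ico 1 (e i), (1 - (j : ℝ) / ((k : ℝ) + 1)))) := by
  intro m e he _
  have he1 : ∀ i, 1 ≤ e i := he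
  have hle : ∀ n i, e i ≤ n + ∑ i, e i := fun n i =>
    (single_le_sum (f := e) (fun j _ => Nat.zero_le _) (mem_univ i)).trans (Nat.le_add_left _ _)
  have hpt : ∀ k : ℕ, (fun i : Fin m => ∏ j ∈ Finset.Ico 1 (e i), (1 - (j : ℝ) / ((k : ℝ) + 1))) =
      fun i => tail (e i) (1 / ((k + 1 : ℕ) : ℝ)) := by
    intro k
    funext i
    unfold tail
    apply prod_congr rfl
    intro j _
    push_cast
    rw [mul_one_div]
  have hrange : (Set.range fun k : ℕ => fun i : Fin m =>
      ∏ j ∈ Finset.Ico 1 (e i), (1 - (j : ℝ) / ((k : ℝ) + 1))) =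
      Set.range fun k : ℕ => fun i : Fin m => tail (e i) (1 / ((k + 1 : ℕ) : ℝ)) := by
    congr 1
    funext k
    exact hpt k
  rw [hrange]
  apply Set.Subset.antisymm
  · -- the hard inclusion
    intro x hx
    -- the right-hand side is compact
    have htend : Tendsto (fun k : ℕ => fun i : Fin m => tail (e i) (1 / ((k + 1 : ℕ) : ℝ))) atTop
        (𝓝 (1 : Fin m → ℝ)) := by
      rw [tendsto_pi_nhds]
      intro i
      have h1 : Tendsto (fun k : ℕ => (1 : ℝ) / ((k + 1 : ℕ) : ℝ)) atTop (𝓝 0) := by
        push_cast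
        exact tendsto_one_div_add_atTop_nhds_zero_nat
      have h2 := ((continuous_tail (e i)).tendsto 0).comp h1
      rw [tail_zero] at h2
      exact h2
    have hcomp : IsCompact (insert (1 : Fin m → ℝ)
        (Set.range fun k : ℕ => fun i : Fin m => tail (e i) (1 / ((k + 1 : ℕ) : ℝ)))) :=
      htend.isCompact_insert_range
    have hclosed := (compact_hull hcomp).isClosed
    by_contra hnot
    obtain ⟨f, u, hfu, hux⟩ := geometric_hahn_banach_closed_point (convex_convexHull ℝ _) hclosed hnot
    -- coefficients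
    set a : Fin m → ℝ := fun i => f (Pi.single i 1) with ha
    have hf : ∀ y : Fin m → ℝ, f y = ∑ i, a i * y i := by
      intro y
      have h1 : y = ∑ i, y i • (Pi.single i (1 : ℝ) : Fin m → ℝ) := by
        funext j
        rw [Finset.sum_apply]
        simp [Pi.single_apply]
      conv_lhs => rw [h1]
      rw [map_sum]
      apply sum_congr rfl
      intro i _
      rw [map_smul, smul_eq_mul, mul_comm]
    have hU : ∀ k : ℕ, 1 ≤ k → ∑ i, a i * tail (e i) (1 / (k : ℝ)) ≤ u := by
      intro k hk
      rw [← hf]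
      refine (hfu _ ?_).le
      apply subset_convexHull
      right
      refine ⟨k - 1, ?_⟩
      have : k - 1 + 1 = k := by omega
      simp only [this]
    have hN : ∀ n : ℕ, f x ≤ u + ∑ i, |a i| * (1 - tail (e i) (1 / ((n + 1 + ∑ i, e i : ℕ) : ℝ))) := by
      intro n
      have hx' := Set.mem_iInter.1 hx (n + 1)
      have hsub : { x : Fin m → ℝ | ∃ G : SimpleGraph (Fin (n + 1 + ∑ i, e i)),
              x = fun i => ((G.cliqueFinset (e i)).card : ℝ) /
                ((Nat.choose (n + 1 + ∑ i, e i) (e i) : ℕ) : ℝ) } ⊆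
          {y | f y ≤ u + ∑ i, |a i| * (1 - tail (e i) (1 / ((n + 1 + ∑ i, e i : ℕ) : ℝ)))} := by
        rintro _ ⟨G, rfl⟩
        rw [Set.mem_ofPred_eq, hf]
        simp only [card_eq_kc]
        exact density_le e a (by omega) he1 (hle (n + 1)) u hU G
      have hconv : Convex ℝ {y | f y ≤ u + ∑ i, |a i| *
          (1 - tail (e i) (1 / ((n + 1 + ∑ i, e i : ℕ) : ℝ)))} :=
        convex_halfSpace_le f.isLinear _
      exact convexHull_min hsub hconv hx'
    have hlim : Tendsto (fun n : ℕ => u + ∑ i, |a i| *
        (1 - tail (e i) (1 / ((n + 1 + ∑ i, e i : ℕ) : ℝ)))) atTop (𝓝 (u + ∑ i, |a i| * (1 - 1))) := by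
      refine tendsto_const_nhds.add (tendsto_finsetSum _ fun i _ => ?_)
      refine tendsto_const_nhds.mul (tendsto_const_nhds.sub ?_)
      have h1 : Tendsto (fun n : ℕ => (1 : ℝ) / ((n + 1 + ∑ i, e i : ℕ) : ℝ)) atTop (𝓝 0) := by
        have h2 := (tendsto_one_div_add_atTop_nhds_zero_nat (𝕜 := ℝ)).comp
          (tendsto_add_atTop_nat (∑ i, e i))
        refine h2.congr fun n => ?_
        simp only [Function.comp]
        push_cast
        congr 1
        ring
      have h2 := ((continuous_tail (e i)).tendsto 0).comp h1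
      rw [tail_zero] at h2
      exact h2
    have h3 := ge_of_tendsto' hlim hN
    simp only [sub_self, mul_zero, sum_const_zero, add_zero] at h3
    linarith
  · -- the easy inclusion
    apply Set.subset_iInter
    intro n
    apply convexHull_min _ (convex_convexHull ℝ _)
    rintro x (rfl | ⟨k, rfl⟩)
    · apply subset_convexHull
      refine ⟨⊤, ?_⟩
      funext i
      rw [card_eq_kc]
      have h1 : kc (⊤ : SimpleGraph (Fin (n + ∑ i, e i))) (e i) = (n + ∑ i, e i).choose (e i) := by
        rw [kc, Set.ncard_eq_toFinset_card']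
        have : ((⊤ : SimpleGraph (Fin (n + ∑ i, e i))).cliqueSet (e i)).toFinset =
            powersetCard (e i) univ := by
          ext K
          rw [Set.mem_toFinset, SimpleGraph.mem_cliqueSet_iff, mem_powersetCard]
          constructor
          · intro h
            exact ⟨subset_univ _, h.card_eq⟩
          · intro h
            refine ⟨?_, h.2⟩
            intro x _ y _ hxy
            exact hxy
        rw [this, card_powersetCard, card_univ, Fintype.card_fin]
      rw [h1, Pi.one_apply, div_self]
      exact_mod_cast (Nat.choose_pos (hle n i)).ne'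
    · -- average over all partitions into `k + 1` classes
      set N := n + ∑ i, e i with hNdef
      set D : Set (Fin m → ℝ) := { x : Fin m → ℝ | ∃ G : SimpleGraph (Fin N),
              x = fun i => ((G.cliqueFinset (e i)).card : ℝ) /
                ((Nat.choose N (e i) : ℕ) : ℝ) } with hD
      let pt : (Fin N → Fin (k + 1)) → (Fin m → ℝ) := fun f i =>
        (((part f).cliqueFinset (e i)).card : ℝ) / ((Nat.choose N (e i) : ℕ) : ℝ)
      have hmem : ∀ f, pt f ∈ convexHull ℝ D := fun f => subset_convexHull ℝ D ⟨part f, rfl⟩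
      have hkpos : (0 : ℝ) < ((k + 1 : ℕ) : ℝ) := by positivity
      have hsum : ∑ _f : Fin N → Fin (k + 1), (1 / ((k + 1 : ℕ) : ℝ) ^ N) = 1 := by
        rw [sum_const, card_univ, Fintype.card_fun, Fintype.card_fin, Fintype.card_fin, nsmul_eq_mul]
        push_cast
        field_simp
      have h1 := (convex_convexHull ℝ D).sum_mem (t := univ)
        (w := fun _f : Fin N → Fin (k + 1) => 1 / ((k + 1 : ℕ) : ℝ) ^ N) (z := pt)
        (fun f _ => by positivity) hsum (fun f _ => hmem f)
      convert h1 using 1
      funext i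
      rw [Finset.sum_apply]
      simp only [Pi.smul_apply, smul_eq_mul, pt, card_eq_kc]
      rw [← mul_sum, ← sum_div]
      have h2 : (∑ f : Fin N → Fin (k + 1), (kc (part f) (e i) : ℝ)) =
          ((N.choose (e i) * ((k + 1).descFactorial (e i) * (k + 1) ^ (N - e i)) : ℕ) : ℝ) := by
        rw [← sum_kc]
        push_cast
        rfl
      rw [h2, ← desc_div (by omega) (he1 i)]
      have h3 : (0 : ℝ) < (N.choose (e i) : ℝ) := by
        exact_mod_cast Nat.choose_pos (hle n i)
      have h4 : ((k + 1 : ℕ) : ℝ) ^ N = ((k + 1 : ℕ) : ℝ) ^ (e i) * ((k + 1 : ℕ) : ℝ) ^ (N - e i) := by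
        rw [← pow_add]
        congr 1
        have := hle n i
        omega
      rw [h4]
      push_cast
      push_cast at hkpos
      field_simp

end Pool.Agent.S10143
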