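import Pool.Statements.S10311
import Pool.Agent.H176R2.R5.FN
import Pool.Agent.H176R2.R5.OR

set_option autoImplicit false
open Pool Pool.MP_98a5df_co

namespace Pool.Agent.S10311

open H176R2.R5 in
/-- the count over ordered pairs gives sparsity -/
theorem sparse_of_count {n : ℕ} (G : SimpleGraph (Fin n)) [DecidableRel G.Adj]
    (h : ∀ S : Finset (Fin n), 3 ≤ S.card →
        (Finset.univ.filter (fun e : Fin n × Fin n =>
          e.1 ∈ S ∧ e.2 ∈ S ∧ e.1 < e.2 ∧ G.Adj e.1 e.2)).card ≤ 3 * S.card - 6) :
    Sparse G := by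
  classical
  intro X hX
  have h1 := h X hX
  have key : i2 G X = 2 * (Finset.univ.filter (fun e : Fin n × Fin n =>
          e.1 ∈ X ∧ e.2 ∈ X ∧ e.1 < e.2 ∧ G.Adj e.1 e.2)).card := by
    have e1 : i2 G X = (Finset.univ.filter (fun e : Fin n × Fin n =>
          e.1 ∈ X ∧ e.2 ∈ X ∧ G.Adj e.1 e.2)).card := by
      unfold i2 dg
      rw [← Finset.card_sigma]
      apply Finset.card_bij (fun (a : (_ : Fin n) × Fin n) _ => ((a.1, a.2) : Fin n × Fin n))
      · intro a ha
        simp only [Finset.mem_sigma, Finset.mem_filter] at ha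
        simp only [Finset.mem_filter, Finset.mem_univ, true_and]
        exact ⟨ha.1, ha.2.1, ha.2.2⟩
      · intro a _ b _ hab
        simp only [Prod.mk.injEq] at hab
        rcases a with ⟨a1, a2⟩
        rcases b with ⟨b1, b2⟩
        simp only at hab
        rw [hab.1, hab.2]
      · intro b hb
        simp only [Finset.mem_filter, Finset.mem_univ, true_and] at hb
        exact ⟨⟨b.1, b.2⟩, by
          simp only [Finset.mem_sigma, Finset.mem_filter]
          exact ⟨hb.1, hb.2.1, hb.2.2⟩, rfl⟩
    have e2 : (Finset.univ.filter (fun e : Fin n × Fin n =>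
          e.1 ∈ X ∧ e.2 ∈ X ∧ G.Adj e.1 e.2)).card =
        (Finset.univ.filter (fun e : Fin n × Fin n =>
          e.1 ∈ X ∧ e.2 ∈ X ∧ e.1 < e.2 ∧ G.Adj e.1 e.2)).card +
        (Finset.univ.filter (fun e : Fin n × Fin n =>
          e.1 ∈ X ∧ e.2 ∈ X ∧ e.2 < e.1 ∧ G.Adj e.1 e.2)).card := by
      rw [← Finset.card_union_of_disjoint]
      · congr 1
        ext e
        simp only [Finset.mem_filter, Finset.mem_univ, true_and, Finset.mem_union]
        constructor
        · rintro ⟨ha, hb, hc⟩
          rcases lt_trichotomy e.1 e.2 with h2 | h2 | h2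
          · exact Or.inl ⟨ha, hb, h2, hc⟩
          · exact absurd h2 hc.ne
          · exact Or.inr ⟨ha, hb, h2, hc⟩
        · rintro (⟨ha, hb, _, hc⟩ | ⟨ha, hb, _, hc⟩)
          · exact ⟨ha, hb, hc⟩
          · exact ⟨ha, hb, hc⟩
      · rw [Finset.disjoint_left]
        intro e he1 he2
        simp only [Finset.mem_filter, Finset.mem_univ, true_and] at he1 he2
        exact lt_asymm he1.2.2.1 he2.2.2.1
    have e3 : (Finset.univ.filter (fun e : Fin n × Fin n =>
          e.1 ∈ X ∧ e.2 ∈ X ∧ e.2 < e.1 ∧ G.Adj e.1 e.2)).card =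
        (Finset.univ.filter (fun e : Fin n × Fin n =>
          e.1 ∈ X ∧ e.2 ∈ X ∧ e.1 < e.2 ∧ G.Adj e.1 e.2)).card := by
      apply Finset.card_bij (fun e _ => (e.2, e.1))
      · intro e he
        simp only [Finset.mem_filter, Finset.mem_univ, true_and] at he ⊢
        exact ⟨he.2.1, he.1, he.2.2.1, he.2.2.2.symm⟩
      · intro a _ b _ hab
        simp only [Prod.mk.injEq] at hab
        exact Prod.ext hab.2 hab.1
      · intro b hb
        simp only [Finset.mem_filter, Finset.mem_univ, true_and] at hb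
        exact ⟨(b.2, b.1), by
          simp only [Finset.mem_filter, Finset.mem_univ, true_and]
          exact ⟨hb.2.1, hb.1, hb.2.2.1, hb.2.2.2.symm⟩, rfl⟩
    rw [e1, e2, e3]
    ring
  rw [key]
  omega

/-- Every finite 5-regular graph in which each set of k≥3 vertices spans at most 3k−6 edges has a placement in R^3 whose rigidity matrix has linearly independent rows. -/
theorem result :
    ∀ (n : ℕ) (G : SimpleGraph (Fin n)) [DecidableRel G.Adj],
      G.IsRegularOfDegree 5 →
      (∀ S : Finset (Fin n), 3 ≤ S.card →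
        (Finset.univ.filter (fun e : Fin n × Fin n =>
          e.1 ∈ S ∧ e.2 ∈ S ∧ e.1 < e.2 ∧ G.Adj e.1 e.2)).card ≤ 3 * S.card - 6) →
      ∃ p : Fin n → Fin 3 → ℝ,
        LinearIndependent ℝ
          (fun e : {e : Fin n × Fin n // e.1 < e.2 ∧ G.Adj e.1 e.2} =>
            (fun (w : Fin n) (i : Fin 3) =>
              if w = e.val.1 then p e.val.1 i - p e.val.2 i
              else if w = e.val.2 then p e.val.2 i - p e.val.1 i
              else 0)) := by
  intro n G _ hreg hcount
  classical
  obtain ⟨p, hp⟩ := H176R2.R5.exists_gen (V := Fin n)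
  have hS := sparse_of_count G hcount
  have hI : H176R2.R5.Ind p G := by
    apply H176R2.R5.main hp hS
    intro a
    have h1 := hreg a
    rw [← SimpleGraph.card_neighborFinset_eq_degree] at h1
    unfold H176R2.R5.dg
    rw [← h1]
    apply le_of_eq
    congr 1
    ext b
    simp
  refine ⟨p, ?_⟩
  have hgr : H176R2.R5.OR.gr {e : Fin n × Fin n | e.1 < e.2 ∧ G.Adj e.1 e.2} = G := by
    ext a b
    unfold H176R2.R5.OR.gr
    simp only [Set.mem_ofPred_eq]
    constructor
    · rintro ⟨_, h | h⟩
      · exact h.2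
      · exact h.2.symm
    · intro h
      refine ⟨h.ne, ?_⟩
      rcases lt_trichotomy a b with h2 | h2 | h2
      · exact Or.inl ⟨h2, h⟩
      · exact absurd h2 h.ne
      · exact Or.inr ⟨h2, h.symm⟩
  have h3 := (H176R2.R5.OR.ind_iff (I := {e : Fin n × Fin n | e.1 < e.2 ∧ G.Adj e.1 e.2})
    (fun e he => he.1) p
    (fun e => (fun (w : Fin n) (i : Fin 3) =>
              if w = e.val.1 then p e.val.1 i - p e.val.2 i
              else if w = e.val.2 then p e.val.2 i - p e.val.1 i
              else 0)) (fun e v k => rfl)).2 (by rw [hgr]; exact hI)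
  exact h3

end Pool.Agent.S10311
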