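import Pool.Statements.S10336
import Pool.Agent.Y434.Occ

set_option autoImplicit false
open Classical
open Pool Pool.MP_99d978_co

namespace Pool.Agent.S10336

open Pool.Agent.Y434.IndepSum Pool.Agent.Y434.Occ

theorem sums {V : Type} [Fintype V] (G : SimpleGraph V) {n : ℕ} (e : V ≃ Fin n) (a : ℕ → ℕ)
    (hs : ∀ i j, (a i).testBit j = (a j).testBit i)
    (ha : ∀ u v, G.Adj u v ↔ (a (e u).val).testBit (e v).val = true) (x : ℕ) (y : ℝ)
    (hy : y = (x : ℝ)) :
    (∑ I : Finset V, if G.IsIndepSet (I : Set V) then y ^ I.card else 0) =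
      ((run a x n 0).1 : ℝ) ∧
    (∑ I : Finset V, if G.IsIndepSet (I : Set V) then (I.card : ℝ) * y ^ I.card else 0) =
      ((run a x n 0).2 : ℝ) := by
  subst hy
  exact sum_real G e a hs ha x _

/-- The negation of the preceding statement: Let L be the largest real root of the sextic. For every finite 4-regular triangle-free G and λ>0: if λ≤L, G's occupancy fraction is at least the Robertson graph's (4-regular, girth 5, 19 vertices); if λ≥L, at least that of the circulant on Z13 with jumps ±1,±5. -/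
theorem result :
    ¬ (∀ L : ℝ,
      90*L^6 + 729*L^5 - 188*L^4 - 1632*L^3 - 1247*L^2 - 363*L - 38 = 0 →
      (∀ x : ℝ, 90*x^6 + 729*x^5 - 188*x^4 - 1632*x^3 - 1247*x^2 - 363*x - 38 = 0 → x ≤ L) →
      ∀ (V : Type) [Fintype V] [Nonempty V] (G : SimpleGraph V),
        G.IsRegularOfDegree 4 → G.CliqueFree 3 →
        ∀ H : SimpleGraph (Fin 19), H.IsRegularOfDegree 4 → (5 : ℕ∞) ≤ H.egirth →
        ∀ l : ℝ, 0 < l →
          (l ≤ L →
            (∑ I : Finset (Fin 19), if H.IsIndepSet (I : Set (Fin 19)) then (I.card : ℝ) * l ^ I.card else 0) /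
              ((Fintype.card (Fin 19) : ℝ) *
                ∑ I : Finset (Fin 19), if H.IsIndepSet (I : Set (Fin 19)) then l ^ I.card else 0)
            ≤
            (∑ I : Finset V, if G.IsIndepSet (I : Set V) then (I.card : ℝ) * l ^ I.card else 0) /
              ((Fintype.card V : ℝ) *
                ∑ I : Finset V, if G.IsIndepSet (I : Set V) then l ^ I.card else 0)) ∧
          (L ≤ l →
            (∑ I : Finset (ZMod 13),
                if (SimpleGraph.fromRel (fun x y : ZMod 13 => x - y = 1 ∨ x - y = 5)).IsIndepSet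
                    (I : Set (ZMod 13))
                then (I.card : ℝ) * l ^ I.card else 0) /
              ((Fintype.card (ZMod 13) : ℝ) *
                ∑ I : Finset (ZMod 13),
                  if (SimpleGraph.fromRel (fun x y : ZMod 13 => x - y = 1 ∨ x - y = 5)).IsIndepSet
                      (I : Set (ZMod 13))
                  then l ^ I.card else 0)
            ≤
            (∑ I : Finset V, if G.IsIndepSet (I : Set V) then (I.card : ℝ) * l ^ I.card else 0) /
              ((Fintype.card V : ℝ) *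
                ∑ I : Finset V, if G.IsIndepSet (I : Set V) then l ^ I.card else 0))) := by
  intro HH
  -- the largest root
  let p : ℝ → ℝ := fun x => 90*x^6 + 729*x^5 - 188*x^4 - 1632*x^3 - 1247*x^2 - 363*x - 38
  have hp : Continuous p := by
    show Continuous (fun x : ℝ => 90*x^6 + 729*x^5 - 188*x^4 - 1632*x^3 - 1247*x^2 - 363*x - 38)
    fun_prop
  have hpos : ∀ x : ℝ, 2 < x → 0 < p x := by
    intro x hx
    obtain ⟨t, ht, rfl⟩ : ∃ t : ℝ, 0 < t ∧ x = 2 + t := ⟨x - 2, by linarith, by ring⟩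
    have : p (2 + t) = 7272 + 44649 * t + 64369 * t ^ 2 + 40424 * t ^ 3 + 12502 * t ^ 4 +
        1809 * t ^ 5 + 90 * t ^ 6 := by
      show 90*(2 + t)^6 + 729*(2 + t)^5 - 188*(2 + t)^4 - 1632*(2 + t)^3 - 1247*(2 + t)^2 -
        363*(2 + t) - 38 = _
      ring
    rw [this]
    positivity
  obtain ⟨x₀, hx₀, hx₀'⟩ : ∃ x ∈ Set.Icc (1 : ℝ) 2, p x = 0 := by
    have h1 : p 1 ≤ 0 := by
      show (90*(1:ℝ)^6 + 729*1^5 - 188*1^4 - 1632*1^3 - 1247*1^2 - 363*1 - 38 : ℝ) ≤ 0
      norm_num
    have h2 : 0 ≤ p 2 := by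
      show (0 : ℝ) ≤ (90*(2:ℝ)^6 + 729*2^5 - 188*2^4 - 1632*2^3 - 1247*2^2 - 363*2 - 38 : ℝ)
      norm_num
    have := intermediate_value_Icc (by norm_num : (1 : ℝ) ≤ 2) hp.continuousOn
    exact this ⟨h1, h2⟩
  have hcomp : IsCompact (Set.Icc (1 : ℝ) 2 ∩ p ⁻¹' {0}) :=
    isCompact_Icc.inter_right ((isClosed_singleton).preimage hp)
  obtain ⟨L, ⟨hL12, hL0⟩, hLmax⟩ := hcomp.exists_isGreatest ⟨x₀, hx₀, hx₀'⟩
  have hL0' : p L = 0 := hL0
  have hmax : ∀ x : ℝ, p x = 0 → x ≤ L := by
    intro x hx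
    by_contra hlt
    push Not at hlt
    have hx1 : 1 ≤ x := le_trans hL12.1 hlt.le
    rcases le_or_gt x 2 with h2 | h2
    · exact absurd (hLmax ⟨⟨hx1, h2⟩, hx⟩) (not_le.2 hlt)
    · have := hpos x h2
      rw [hx] at this
      exact lt_irrefl _ this
  have key := (HH L hL0' hmax (Fin 20) (gr LG goodG 20) (fun v => by rw [degree_eq]; exact degG v)
    freeG (gr LH goodH 19) (fun v => by rw [degree_eq]; exact degH v) girthH 2 (by norm_num)).2
    hL12.2
  have sG := sums (gr LG goodG 20) (Equiv.refl (Fin 20)) (msk LG) (msk_symm goodG)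
    (fun u v => Iff.rfl) 2 2 (by norm_num)
  have sC := fun dec => sum_real (V := ZMod 13)
    (SimpleGraph.fromRel (fun x y : ZMod 13 => x - y = 1 ∨ x - y = 5))
    (Equiv.refl (Fin 13)) (msk LC) (msk_symm goodC) (fun u v => adjC u v) 2 dec
  rw [sG.1, sG.2] at key
  rw [runG] at key
  rw [runC] at sC
  have sC1 : (∑ I : Finset (ZMod 13),
      if (SimpleGraph.fromRel (fun x y : ZMod 13 => x - y = 1 ∨ x - y = 5)).IsIndepSet
        (I : Set (ZMod 13)) then (2 : ℝ) ^ I.card else 0) = 1483 := by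
    have h := (sC (fun _ => inferInstance)).1
    norm_num at h ⊢
    exact h
  have sC2 : (∑ I : Finset (ZMod 13),
      if (SimpleGraph.fromRel (fun x y : ZMod 13 => x - y = 1 ∨ x - y = 5)).IsIndepSet
        (I : Set (ZMod 13)) then (I.card : ℝ) * (2 : ℝ) ^ I.card else 0) = 4810 := by
    have h := (sC (fun _ => inferInstance)).2
    norm_num at h ⊢
    exact h
  rw [sC1, sC2, ZMod.card, Fintype.card_fin] at key
  norm_num at key

end Pool.Agent.S10336
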