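import Pool.Statements.S10402
import Pool.Agent.Y394.CC.Main

set_option autoImplicit false
open Pool Pool.MP_9cfd90_co

namespace Pool.Agent.S10402

/-- The negation of the preceding statement: There is f such that for all s ≥ 2, k, t, every finite graph of layered treewidth at most k with no K_{s,t} subgraph has an (s+1)-colouring whose monochromatic components each have at most f(k,s,t) vertices. -/
theorem result :
    ¬ (∃ f : ℕ → ℕ → ℕ → ℕ, ∀ s : ℕ, 2 ≤ s → ∀ k t : ℕ, ∀ (V : Type) [Fintype V] (G : SimpleGraph V),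
      (∃ (ι : Type) (_ : Fintype ι) (T : SimpleGraph ι) (B : ι → Set V) (ℓ : V → ℕ),
        T.IsTree ∧ (∀ v : V, ∃ i, v ∈ B i) ∧
        (∀ u v : V, G.Adj u v → ∃ i, u ∈ B i ∧ v ∈ B i) ∧
        (∀ v : V, (T.induce {i | v ∈ B i}).Connected) ∧
        (∀ u v : V, G.Adj u v → ℓ u ≤ ℓ v + 1) ∧
        (∀ (i : ι) (n : ℕ), Set.ncard {x : V | x ∈ B i ∧ ℓ x = n} ≤ k)) →
      (¬ ∃ φ : completeBipartiteGraph (Fin s) (Fin t) →g G, Function.Injective φ) →
      ∃ c : V → Fin (s + 1), ∀ v : V,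
        Set.ncard {u : V | (G ⊓ SimpleGraph.fromRel (fun x y => c x = c y)).Reachable v u}
          ≤ f k s t) := by
  classical
  rintro ⟨f, hf⟩
  obtain ⟨V, iV, G, T, iT, TT, B, ℓ, h1, h2, h3, h4, h5, h6, h7⟩ :=
    Pool.Agent.Y394.CC.main (f 3 2 11)
  have hne : ∀ v : V, ∃ i, v ∈ (fun x => {v | B x v} : T → Set V) i := by
    intro v
    obtain ⟨⟨x, hx⟩⟩ := (h2 v).nonempty
    exact ⟨x, hx⟩
  have hfree : ¬ ∃ φ : completeBipartiteGraph (Fin 2) (Fin 11) →g G, Function.Injective φ := by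
    rintro ⟨φ, hφ⟩
    exact h6 11 le_rfl φ hφ (fun x y => φ.map_adj (by simp))
  obtain ⟨χ, hχ⟩ := hf 2 le_rfl 3 11 V G ⟨T, iT, TT, fun x => {v | B x v}, ℓ, h1, hne, h3, h2,
    fun u v h => (h4 u v h).1, h5⟩ hfree
  refine h7 χ ?_
  intro S hmono hconn
  obtain ⟨⟨v, hv⟩⟩ := hconn.nonempty
  refine le_trans ?_ (hχ v)
  rw [← Set.ncard_coe_finset]
  refine Set.ncard_le_ncard ?_ (Set.toFinite _)
  intro u hu
  have hr := hconn.preconnected ⟨v, hv⟩ ⟨u, hu⟩
  let g : G.induce (S : Set V) →g (G ⊓ SimpleGraph.fromRel (fun x y => χ x = χ y)) :=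
    { toFun := fun x => x.1
      map_rel' := by
        intro a b hab
        have hab' : G.Adj a.1 b.1 := hab
        exact ⟨hab', hab'.ne, Or.inl (hmono _ a.2 _ b.2)⟩ }
  exact hr.map g

end Pool.Agent.S10402
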