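import Pool.Statements.S10718
import Pool.Agent.Y93.Spur3

set_option autoImplicit false
open Pool Pool.MP_ab53bf_co

namespace Pool.Agent.S10718

open Set Pool.Agent.Helper337.PolygonPattern Pool.Agent.Y93.Spur

/-- the two forms of the index set -/
def e : Fin 14 ≃ ZMod 14 := (ZMod.finEquiv 14).toEquiv

theorem he : ∀ i : Fin 14, e (finRotate 14 i) = e i + 1 := by decide

theorem he' : ∀ i : Fin 14, e ((finRotate 14).symm i) = e i - 1 := by decide

theorem ord_of {x : ZMod 14 → Plane} (h : Ordinary x) (p : ℝ × ℝ) (i j k : Fin 14)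
    (hi : p ∈ segment ℝ (x (e i)) (x (e (finRotate 14 i))))
    (hj : p ∈ segment ℝ (x (e j)) (x (e (finRotate 14 j))))
    (hk : p ∈ segment ℝ (x (e k)) (x (e (finRotate 14 k)))) : i = j ∨ j = k ∨ i = k := by
  rw [he] at hi hj hk
  by_contra hcon
  rw [not_or, not_or] at hcon
  exact h p (e i) (e j) (e k) (fun h => hcon.1 (e.injective h))
    (fun h => hcon.2.1 (e.injective h)) (fun h => hcon.2.2 (e.injective h)) ⟨hi, hj, hk⟩

theorem prop_of {x : ZMod 14 → Plane} (h : IsPolygon x) (h' : Proper x) :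
    (∀ i : Fin 14, x (e i) ≠ x (e (finRotate 14 i))) ∧
      ∀ i : Fin 14, ¬ Collinear ℝ ({x (e ((finRotate 14).symm i)), x (e i),
        x (e (finRotate 14 i))} : Set (ℝ × ℝ)) := by
  constructor
  · intro i
    rw [he]
    exact h (e i)
  · intro i
    rw [he, he']
    exact h' (e i)

theorem map_eq (x : ZMod 14 → Plane) (ε : ℝ) :
    ((⋃ i : Fin 14, segment ℝ (x (e i)) (x (e (finRotate 14 i)))) ∪ ⋃ i : Fin 14,
      segment ℝ (x (e i)) (x (e i) + ε • ((2:ℝ) • x (e i) - x (e ((finRotate 14).symm i)) -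
        x (e (finRotate 14 i))))) = map14 x ε := by
  unfold map14
  simp only [he, he']
  rw [e.surjective.iUnion_comp (fun j => segment ℝ (x j) (x (j + 1))),
    e.surjective.iUnion_comp (fun j => segment ℝ (x j) (x j + ε • ((2:ℝ) • x j - x (j - 1) -
        x (j + 1))))]
  rfl

theorem nodes_eq (x : ZMod 14 → Plane) (ε : ℝ) :
    (range (fun i : Fin 14 => x (e i)) ∪ {p : ℝ × ℝ | ∃ i j : Fin 14, i ≠ j ∧
      p ∈ segment ℝ (x (e i)) (x (e (finRotate 14 i))) ∧
      p ∈ segment ℝ (x (e j)) (x (e (finRotate 14 j)))} ∪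
      range (fun i : Fin 14 => x (e i) + ε • ((2:ℝ) • x (e i) - x (e ((finRotate 14).symm i)) -
        x (e (finRotate 14 i))))) = nodes14 x ε := by
  unfold nodes14
  simp only [he, he']
  have h1 : range (fun i : Fin 14 => x (e i)) = range x := e.surjective.range_comp x
  have h2 : range (fun i : Fin 14 => x (e i) + ε • ((2:ℝ) • x (e i) - x (e i - 1) - x (e i + 1))) =
      range (fun j => x j + ε • ((2:ℝ) • x j - x (j - 1) - x (j + 1))) :=
    e.surjective.range_comp (fun j => x j + ε • ((2:ℝ) • x j - x (j - 1) - x (j + 1)))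
  have h3 : {p : ℝ × ℝ | ∃ i j : Fin 14, i ≠ j ∧ p ∈ segment ℝ (x (e i)) (x (e i + 1)) ∧
      p ∈ segment ℝ (x (e j)) (x (e j + 1))} = crs x := by
    ext p
    constructor
    · rintro ⟨i, j, hij, hi, hj⟩
      exact ⟨e i, e j, fun h => hij (e.injective h), hi, hj⟩
    · rintro ⟨i, j, hij, hi, hj⟩
      refine ⟨e.symm i, e.symm j, fun h => hij (e.symm.injective h), ?_, ?_⟩
      · rw [Equiv.apply_symm_apply]; exact hi
      · rw [Equiv.apply_symm_apply]; exact hj
  rw [h1, h2, h3]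

theorem relab {σ : Equiv.Perm (Fin 14)}
    (h : (∀ i, σ (finRotate 14 i) = finRotate 14 (σ i)) ∨
      (∀ i, σ (finRotate 14 i) = (finRotate 14).symm (σ i))) :
    IsRelabelling (fun j => e (σ (e.symm j))) := by
  have hcast : ∀ i : ZMod 14, ∃ k : ℕ, i = (k : ZMod 14) := fun i =>
    ⟨i.val, (ZMod.natCast_zmod_val i).symm⟩
  have hse : ∀ j : ZMod 14, e.symm (j + 1) = finRotate 14 (e.symm j) := by
    intro j
    rw [Equiv.symm_apply_eq, he, Equiv.apply_symm_apply]
  refine ⟨e (σ (e.symm 0)), ?_⟩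
  rcases h with h | h
  · left
    have key : ∀ k : ℕ, e (σ (e.symm (k : ZMod 14))) = e (σ (e.symm 0)) + (k : ZMod 14) := by
      intro k
      induction k with
      | zero => rw [Nat.cast_zero, add_zero]
      | succ k ih =>
        rw [Nat.cast_succ, hse, h, he, ih]
        ring
    intro i
    obtain ⟨k, rfl⟩ := hcast i
    exact key k
  · right
    have key : ∀ k : ℕ, e (σ (e.symm (k : ZMod 14))) = e (σ (e.symm 0)) - (k : ZMod 14) := by
      intro k
      induction k with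
      | zero => rw [Nat.cast_zero, sub_zero]
      | succ k ih =>
        rw [Nat.cast_succ, hse, h, he', ih]
        ring
    intro i
    obtain ⟨k, rfl⟩ := hcast i
    exact key k

/-- The negation of the preceding statement: If two ordinary proper n-gons have the same pattern and some dihedral relabelling of the second makes corresponding edges same-direction parallel, then some such relabelling admits a continuous deformation of the first into it keeping the pattern and all edge directions. -/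
theorem result :
    ¬ (∀ (n : ℕ), 3 ≤ n →
  ∀ (Edge : (Fin n → ℝ × ℝ) → Fin n → Set (ℝ × ℝ)),
    (∀ x i, Edge x i = segment ℝ (x i) (x (finRotate n i))) →
  ∀ (Pend : (Fin n → ℝ × ℝ) → ℝ → Fin n → ℝ × ℝ),
    (∀ x ε i, Pend x ε i = x i + ε • ((2:ℝ) • x i - x ((finRotate n).symm i) - x (finRotate n i))) →
  ∀ (Ordinary : (Fin n → ℝ × ℝ) → Prop),
    (∀ x, Ordinary x ↔ ∀ (p : ℝ × ℝ) (i j k : Fin n), p ∈ Edge x i → p ∈ Edge x j → p ∈ Edge x k →
      i = j ∨ j = k ∨ i = k) →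
  ∀ (Proper : (Fin n → ℝ × ℝ) → Prop),
    (∀ x, Proper x ↔ (∀ i, x i ≠ x (finRotate n i)) ∧
      ∀ i, ¬ Collinear ℝ ({x ((finRotate n).symm i), x i, x (finRotate n i)} : Set (ℝ × ℝ))) →
  ∀ (MapSet : (Fin n → ℝ × ℝ) → ℝ → Set (ℝ × ℝ)),
    (∀ x ε, MapSet x ε = (⋃ i, Edge x i) ∪ ⋃ i, segment ℝ (x i) (Pend x ε i)) →
  ∀ (Nodes : (Fin n → ℝ × ℝ) → ℝ → Set (ℝ × ℝ)),
    (∀ x ε, Nodes x ε = Set.range x ∪ {p : ℝ × ℝ | ∃ i j, i ≠ j ∧ p ∈ Edge x i ∧ p ∈ Edge x j}
      ∪ Set.range (Pend x ε)) →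
  ∀ (SamePattern : (Fin n → ℝ × ℝ) → (Fin n → ℝ × ℝ) → Prop),
    (∀ x y, SamePattern x y ↔ ∃ δ : ℝ, 0 < δ ∧ ∀ ε₁ ε₂ : ℝ, 0 < ε₁ → ε₁ < δ → 0 < ε₂ → ε₂ < δ →
      ∃ h : Homeomorph (ℝ × ℝ) (ℝ × ℝ), h '' MapSet x ε₁ = MapSet y ε₂ ∧ h '' Nodes x ε₁ = Nodes y ε₂) →
  ∀ (Dihedral : Equiv.Perm (Fin n) → Prop),
    (∀ σ, Dihedral σ ↔ (∀ i, σ (finRotate n i) = finRotate n (σ i)) ∨
      (∀ i, σ (finRotate n i) = (finRotate n).symm (σ i))) →
  ∀ (Parallel : (Fin n → ℝ × ℝ) → (Fin n → ℝ × ℝ) → Prop),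
    (∀ x z, Parallel x z ↔ ∀ i, ∃ c : ℝ, 0 < c ∧ z (finRotate n i) - z i = c • (x (finRotate n i) - x i)) →
  ∀ x y : Fin n → ℝ × ℝ,
    Ordinary x → Proper x → Ordinary y → Proper y → SamePattern x y →
    (∃ σ : Equiv.Perm (Fin n), Dihedral σ ∧ Parallel x (fun i => y (σ i))) →
    ∃ σ : Equiv.Perm (Fin n), Dihedral σ ∧ Parallel x (fun i => y (σ i)) ∧
      ∃ X : ℝ → Fin n → ℝ × ℝ,
        (∀ j, ContinuousOn (fun t => X t j) (Set.Icc (0:ℝ) 1)) ∧
        X 0 = x ∧ X 1 = (fun i => y (σ i)) ∧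
        ∀ t ∈ Set.Icc (0:ℝ) 1,
          Ordinary (X t) ∧ Proper (X t) ∧ SamePattern x (X t) ∧ Parallel x (X t)) := by
  intro H
  obtain ⟨σ, hσ, hpar, X, hXc, hX0, hX1, hX⟩ := H 14 (by norm_num)
    (fun x i => segment ℝ (x i) (x (finRotate 14 i))) (fun _ _ => rfl)
    (fun x ε i => x i + ε • ((2:ℝ) • x i - x ((finRotate 14).symm i) - x (finRotate 14 i)))
    (fun _ _ _ => rfl) _ (fun _ => Iff.rfl) _ (fun _ => Iff.rfl) _ (fun _ _ => rfl)
    _ (fun _ _ => rfl) _ (fun _ _ => Iff.rfl) _ (fun _ => Iff.rfl) _ (fun _ _ => Iff.rfl)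
    (fun i => xx (e i)) (fun i => yy (e i)) (ord_of ordinaryX) (prop_of polyX properX)
    (ord_of ordinaryY) (prop_of polyY properY)
    (by
      obtain ⟨δ, hδ, h⟩ := same14
      refine ⟨δ, hδ, fun ε₁ ε₂ h1 h1' h2 h2' => ?_⟩
      obtain ⟨g, h3, h4⟩ := h ε₁ ε₂ h1 h1' h2 h2'
      refine ⟨g, ?_, ?_⟩
      · rw [map_eq, map_eq]
        exact h3
      · rw [nodes_eq, nodes_eq]
        exact h4)
    ⟨1, Or.inl fun _ => rfl, by
      intro i
      obtain ⟨r, hr, h⟩ := parallel_xy (e i)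
      refine ⟨r, hr, ?_⟩
      show yy (e (finRotate 14 i)) - yy (e i) = r • (xx (e (finRotate 14 i)) - xx (e i))
      rw [he]
      exact h⟩
  have hρ : IsRelabelling (fun j => e (σ (e.symm j))) := relab hσ
  have hse : ∀ j : ZMod 14, finRotate 14 (e.symm j) = e.symm (j + 1) := by
    intro j
    rw [Equiv.eq_symm_apply, he, Equiv.apply_symm_apply]
  have hpar' : ParallelEdges xx (yy ∘ fun j => e (σ (e.symm j))) := by
    intro j
    obtain ⟨c, hc, h⟩ := hpar (e.symm j)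
    refine ⟨c, hc, ?_⟩
    simp only [hse, Equiv.apply_symm_apply] at h
    exact h
  obtain ⟨t, ht, hno⟩ := no_ordinary_path (fun j => e (σ (e.symm j))) hρ hpar'
    (fun t j => X t (e.symm j)) (fun j => hXc (e.symm j))
    (by
      funext j
      show X 0 (e.symm j) = xx j
      rw [hX0]
      show xx (e (e.symm j)) = xx j
      rw [Equiv.apply_symm_apply])
    (by
      funext j
      show X 1 (e.symm j) = yy (e (σ (e.symm j)))
      rw [hX1])
    (by
      intro t ht j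
      obtain ⟨c, hc, h⟩ := (hX t ht).2.2.2 (e.symm j)
      refine ⟨c, hc, ?_⟩
      simp only [hse, Equiv.apply_symm_apply] at h
      exact h)
  apply hno
  intro p i j k hij hjk hik ⟨h1, h2, h3⟩
  have ho := (hX t ht).1 p (e.symm i) (e.symm j) (e.symm k)
  simp only [hse] at ho
  rcases ho h1 h2 h3 with h | h | h
  · exact hij (e.symm.injective h)
  · exact hjk (e.symm.injective h)
  · exact hik (e.symm.injective h)

end Pool.Agent.S10718
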