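import Pool.Statements.S10800
import Pool.Agent.Y417.BC.Main

/-!
For `p = 7/16` and infinitely many `n`, with probability at least `1/2` there are an independent set
`I` whose size is the independence number and two further non-adjacent vertices `u`, `v` with the
same neighbours in `I`; then one biclique covers all edges between `u`, `v` and `I`, and the biclique
partition number is at most `n - α - 1`.  The proof is by the first and second moment method.
-/

set_option autoImplicit false
open scoped Classical
open Filter Topology
open Pool Pool.MP_aef546_co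

namespace Pool.Agent.S10800

/-- The negation of the preceding statement: For every fixed p with 0<p<1/2, the probability that G(n,p) has biclique partition number equal to n minus its independence number tends to 1 as n tends to infinity. -/
theorem result :
    ¬ (∀ p : ℝ, 0 < p → p < 1 / 2 →
      Tendsto (fun n : ℕ => ∑ G : SimpleGraph (Fin n),
        if sInf {k : ℕ | ∃ A B : Fin k → Finset (Fin n),
              (∀ i, Disjoint (A i) (B i)) ∧
              ∀ u v : Fin n,
                (G.Adj u v → ∃! i, (u ∈ A i ∧ v ∈ B i) ∨ (v ∈ A i ∧ u ∈ B i)) ∧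
                (¬ G.Adj u v → ∀ i, ¬ (u ∈ A i ∧ v ∈ B i))}
            = n - Gᶜ.cliqueNum
        then p ^ G.edgeFinset.card * (1 - p) ^ (n.choose 2 - G.edgeFinset.card)
        else 0)
        atTop (𝓝 1)) := by
  intro h
  have h1 : Tendsto (fun n : ℕ => Pool.Agent.Y417.BC.PP (7 / 16) n) atTop (𝓝 1) :=
    h (7 / 16) (by norm_num) (by norm_num)
  have h2 : ∀ᶠ n : ℕ in atTop, (1 / 2 : ℝ) < Pool.Agent.Y417.BC.PP (7 / 16) n :=
    h1.eventually (lt_mem_nhds (by norm_num))
  obtain ⟨N0, hN0⟩ := eventually_atTop.1 h2
  obtain ⟨n, hn, hn2⟩ := Pool.Agent.Y417.BC.exists_bad N0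
  exact absurd (hN0 n hn) (not_lt.2 hn2)

end Pool.Agent.S10800
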