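import Pool.Statements.S11006
import Pool.Agent.Y363.EquivP

set_option autoImplicit false
open scoped Pointwise
open Pool Pool.MP_b7cbb2_co

namespace Pool.Agent.S11006

open Pool.Agent.Y363.EquivH

/-- the cyclic permutation matrix -/
def C : Matrix (Fin 3) (Fin 3) ℤ := !![0, 1, 0; 0, 0, 1; 1, 0, 0]

/-- its square -/
def C2 : Matrix (Fin 3) (Fin 3) ℤ := !![0, 0, 1; 1, 0, 0; 0, 1, 0]

/-- the matrices -/
def mat : Fin 3 → Matrix (Fin 3) (Fin 3) ℤ := ![1, C, C2]

theorem mat_mul : ∀ i j : Fin 3, mat i * mat j = mat (i + j) := by decide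

theorem mat_neg : ∀ i : Fin 3, mat i * mat (-i) = 1 ∧ mat (-i) * mat i = 1 := by decide

/-- the representation -/
def rep : Multiplicative (Fin 3) →* Matrix.GeneralLinearGroup (Fin 3) ℤ where
  toFun g := ⟨mat g.toAdd, mat (-g.toAdd), (mat_neg _).1, (mat_neg _).2⟩
  map_one' := by
    apply Units.ext
    rfl
  map_mul' := by
    intro g h
    apply Units.ext
    exact (mat_mul g.toAdd h.toAdd).symm

theorem rep_coe (g : Multiplicative (Fin 3)) :
    (rep g : Matrix (Fin 3) (Fin 3) ℤ) = mat g.toAdd := rfl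

theorem mat_V : ∀ i : Fin 3, ∀ v ∈ V, Matrix.mulVec (mat i) v ∈ V := by
  decide

theorem fixpts (i : Fin 3) (x : Fin 3 → ℤ) :
    Matrix.mulVec (mat i) x = x ↔ (i = 0 ∨ (x 0 = x 1 ∧ x 1 = x 2)) := by
  constructor
  · intro h
    have h0 := congrFun h 0
    have h1 := congrFun h 1
    have h2 := congrFun h 2
    fin_cases i
    · left; rfl
    · right
      simp [mat, C, Matrix.mulVec, dotProduct, Fin.sum_univ_three] at h0 h1 h2
      omega
    · right
      simp [mat, C2, Matrix.mulVec, dotProduct, Fin.sum_univ_three] at h0 h1 h2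
      omega
  · rintro (rfl | ⟨h1, h2⟩)
    · exact Matrix.one_mulVec x
    · funext j
      fin_cases i <;> fin_cases j <;>
        simp [mat, C, C2, Matrix.mulVec, dotProduct, Fin.sum_univ_three] <;> omega

theorem det_mat (i : Fin 3) :
    Matrix.det (1 - (Polynomial.X : Polynomial ℤ) • (mat i).map Polynomial.C) =
      if i = 0 then (1 - Polynomial.X) ^ 3 else 1 - Polynomial.X ^ 3 := by
  fin_cases i
  · simp [mat, Matrix.det_fin_three, Matrix.one_apply]
    ring
  · simp [mat, C, Matrix.det_fin_three, Matrix.one_apply]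
    ring
  · simp [mat, C2, Matrix.det_fin_three, Matrix.one_apply]
    ring

/-- the series -/
noncomputable def Ph (g : Multiplicative (Fin 3)) : PowerSeries ℤ :=
  if g.toAdd = 0 then
    PowerSeries.mk (fun n => if n = 0 then 1 else if n = 1 then 2 else if n = 2 then 1 else 0)
  else
    PowerSeries.mk (fun n => if n = 0 then 1 else if n = 1 then -1 else if n = 2 then 1 else 0)

/-- The negation of the preceding statement: For any finite group acting linearly on Z^n and invariant lattice polytope P whose equivariant h*-series is a polynomial, every coefficient with positive h*_i has nonzero sum over the group, i.e. contains the trivial representation. -/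
theorem result :
    ¬ (∀ (G : Type) [Group G] [Fintype G] (n : ℕ)
      (ρ : G →* Matrix.GeneralLinearGroup (Fin n) ℤ)
      (V : Finset (Fin n → ℤ)) (P : Set (Fin n → ℝ)),
      V.Nonempty →
      (∀ g : G, ∀ v ∈ V,
        Matrix.mulVec (ρ g : Matrix (Fin n) (Fin n) ℤ) v ∈ V) →
      P = convexHull ℝ
        ((fun v : Fin n → ℤ => fun j => ((v j : ℤ) : ℝ)) '' (V : Set (Fin n → ℤ))) →
      ∀ (d : ℕ) (ι : (Fin d → ℤ) →ₗ[ℤ] (Fin n → ℤ))
        (σ : G → Matrix (Fin d) (Fin d) ℤ) (Φ : G → PowerSeries ℤ),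
      Function.Injective ι →
      (∀ x : Fin n → ℤ,
        (∃ y : Fin d → ℤ, ι y = x) ↔
          (fun j => ((x j : ℤ) : ℝ)) ∈ vectorSpan ℝ P) →
      (∀ (g : G) (y : Fin d → ℤ),
        ι (Matrix.mulVec (σ g) y) =
          Matrix.mulVec (ρ g : Matrix (Fin n) (Fin n) ℤ) (ι y)) →
      (∀ g : G, Φ g =
        PowerSeries.mk (fun m : ℕ =>
          ((Set.ncard {x : Fin n → ℤ |
              (fun j => ((x j : ℤ) : ℝ)) ∈ (m : ℝ) • P ∧
              Matrix.mulVec (ρ g : Matrix (Fin n) (Fin n) ℤ) x = x} : ℕ) : ℤ))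
        * (1 - PowerSeries.X)
        * ((Matrix.det (1 - (Polynomial.X : Polynomial ℤ) •
              (σ g).map Polynomial.C) : Polynomial ℤ) : PowerSeries ℤ)) →
      (∃ N : ℕ, ∀ g : G, ∀ i : ℕ, N ≤ i →
        PowerSeries.coeff (R := ℤ) i (Φ g) = 0) →
      ∀ i : ℕ, 0 < PowerSeries.coeff (R := ℤ) i (Φ 1) →
        (∑ g : G, PowerSeries.coeff (R := ℤ) i (Φ g)) ≠ 0) := by
  intro H
  refine H (Multiplicative (Fin 3)) 3 rep V P ⟨vv 0, by decide⟩ ?_ rfl 3 LinearMap.id
    (fun g => mat g.toAdd) Ph ?_ ?_ ?_ ?_ ?_ 1 ?_ ?_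
  · intro g v hv
    exact mat_V g.toAdd v hv
  · exact fun _ _ h => h
  · intro x
    exact ⟨fun _ => span_top _, fun _ => ⟨x, rfl⟩⟩
  · intro g y
    rfl
  · intro g
    have hset : ∀ m : ℕ, {x : Fin 3 → ℤ | (fun j => ((x j : ℤ) : ℝ)) ∈ (m : ℝ) • P ∧
        Matrix.mulVec (rep g : Matrix (Fin 3) (Fin 3) ℤ) x = x} =
        if g.toAdd = 0 then pts m else fix m := by
      intro m
      ext x
      rw [Set.mem_ofPred_eq, mem_smul, rep_coe, fixpts]
      split_ifs with h
      · simp [h]
      · simp only [h, false_or]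
        rfl
    simp only [hset]
    rw [det_mat]
    by_cases h : g.toAdd = 0
    · rw [Ph]
      simp only [h, if_true]
      rw [← series_one]
      push_cast
      ring
    · rw [Ph]
      simp only [h, if_false]
      rw [← series_ne]
      push_cast
      ring
  · refine ⟨3, fun g i hi => ?_⟩
    rw [Ph]
    split_ifs with h <;>
    · rw [PowerSeries.coeff_mk, if_neg (by omega), if_neg (by omega), if_neg (by omega)]
  · rw [Ph, if_pos (by decide), PowerSeries.coeff_mk]
    norm_num
  · have h0 : PowerSeries.coeff (R := ℤ) 1 (Ph (Multiplicative.ofAdd (0 : Fin 3))) = 2 := by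
      rw [Ph, if_pos (by decide), PowerSeries.coeff_mk]
      norm_num
    have h1 : PowerSeries.coeff (R := ℤ) 1 (Ph (Multiplicative.ofAdd (1 : Fin 3))) = -1 := by
      rw [Ph, if_neg (by decide), PowerSeries.coeff_mk]
      norm_num
    have h2 : PowerSeries.coeff (R := ℤ) 1 (Ph (Multiplicative.ofAdd (2 : Fin 3))) = -1 := by
      rw [Ph, if_neg (by decide), PowerSeries.coeff_mk]
      norm_num
    have := Fin.sum_univ_three
      (fun i : Fin 3 => PowerSeries.coeff (R := ℤ) 1 (Ph (Multiplicative.ofAdd i)))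
    rw [h0, h1, h2] at this
    exact this

end Pool.Agent.S11006
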