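import Pool.Statements.S11238
-- import your own Pool.Agent.* helpers here

set_option autoImplicit false
open Pool Pool.MP_c1e4cd_co

namespace Pool.Agent.S11238

/-- The number of permutations of `Fin n` that fix every point of `T` is `(n - |T|)!`. -/
theorem card_fix {n : ℕ} (T : Finset (Fin n)) :
    (Finset.univ.filter (fun σ : Equiv.Perm (Fin n) => ∀ i ∈ T, σ i = i)).card
      = (n - T.card).factorial := by
  have h := Fintype.card_congr (Equiv.Perm.subtypeEquivSubtypePerm (fun i : Fin n => i ∉ T))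
  rw [Fintype.card_perm] at h
  have h2 : Fintype.card {i : Fin n // i ∉ T} = n - T.card := by
    rw [Fintype.card_subtype_compl (fun i : Fin n => i ∈ T)]
    simp
  rw [h2] at h
  rw [h, Fintype.card_subtype]
  congr 1
  ext σ
  simp

/-- The number of fixed points of `σ` in `F`. -/
def N {n : ℕ} (F : Finset (Fin n)) (σ : Equiv.Perm (Fin n)) : ℕ :=
  (F.filter (fun i => σ i = i)).card

theorem choose_N {n : ℕ} (F : Finset (Fin n)) (σ : Equiv.Perm (Fin n)) (k : ℕ) :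
    (N F σ).choose k
      = ∑ T ∈ F.powersetCard k, if (∀ i ∈ T, σ i = i) then 1 else 0 := by
  rw [N, ← Finset.card_powersetCard, ← Finset.card_filter]
  congr 1
  ext T
  simp only [Finset.mem_powersetCard, Finset.mem_filter]
  constructor
  · rintro ⟨h1, h2⟩
    refine ⟨⟨fun i hi => (Finset.mem_filter.mp (h1 hi)).1, h2⟩, fun i hi => (Finset.mem_filter.mp (h1 hi)).2⟩
  · rintro ⟨⟨h1, h2⟩, h3⟩
    exact ⟨fun i hi => Finset.mem_filter.mpr ⟨h1 hi, h3 i hi⟩, h2⟩

theorem sum_choose_N {n : ℕ} (F : Finset (Fin n)) (k : ℕ) :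
    ∑ σ : Equiv.Perm (Fin n), (N F σ).choose k = F.card.choose k * (n - k).factorial := by
  simp_rw [choose_N]
  rw [Finset.sum_comm]
  have : ∀ T ∈ F.powersetCard k,
      (∑ σ : Equiv.Perm (Fin n), if (∀ i ∈ T, σ i = i) then 1 else 0) = (n - k).factorial := by
    intro T hT
    rw [← Finset.card_filter, card_fix, (Finset.mem_powersetCard.mp hT).2]
  rw [Finset.sum_congr rfl this, Finset.sum_const, Finset.card_powersetCard, smul_eq_mul]

theorem choose_two_real (k : ℕ) : ((k.choose 2 : ℕ) : ℝ) = (k : ℝ) * ((k : ℝ) - 1) / 2 :=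
  Nat.cast_choose_two ℝ k

theorem choose_three_real (k : ℕ) :
    ((k.choose 3 : ℕ) : ℝ) = (k : ℝ) * ((k : ℝ) - 1) * ((k : ℝ) - 2) / 6 := by
  induction k with
  | zero => simp
  | succ k ih =>
    rw [Nat.choose_succ_succ' k 2]
    push_cast
    rw [ih, choose_two_real]
    ring

theorem cube_nonneg (k : ℕ) (hk : 1 ≤ k) :
    0 ≤ ((k : ℝ) - 1) * ((k : ℝ) - 2) * ((k : ℝ) - 3) := by
  rcases Nat.lt_or_ge k 4 with h | h
  · interval_cases k <;> norm_num
  · have : (4 : ℝ) ≤ k := by exact_mod_cast h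
    apply mul_nonneg (mul_nonneg _ _) <;> linarith

theorem ind_lower (k : ℕ) :
    (k : ℝ) - (k.choose 2 : ℕ) ≤ (if 1 ≤ k then (1 : ℝ) else 0) := by
  rw [choose_two_real]
  split_ifs with h
  · have h1 : (1 : ℝ) ≤ k := by exact_mod_cast h
    rcases Nat.lt_or_ge k 3 with h3 | h3
    · interval_cases k <;> norm_num
    · have : (3 : ℝ) ≤ k := by exact_mod_cast h3
      nlinarith
  · have : k = 0 := by omega
    subst this; norm_num

theorem ind_upper (k : ℕ) :
    (if 1 ≤ k then (1 : ℝ) else 0) ≤ (k : ℝ) - (k.choose 2 : ℕ) + (k.choose 3 : ℕ) := by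
  rw [choose_two_real, choose_three_real]
  split_ifs with h
  · have := cube_nonneg k h
    nlinarith
  · have : k = 0 := by omega
    subst this; norm_num

theorem ind_sq (k : ℕ) :
    ((if 1 ≤ k then (1 : ℝ) else 0) - k) ^ 2 ≤ 2 * (k.choose 2 : ℕ) := by
  rw [choose_two_real]
  split_ifs with h
  · have h1 : (1 : ℝ) ≤ k := by exact_mod_cast h
    nlinarith
  · have : k = 0 := by omega
    subst this; norm_num

/-- The family of permutations with a fixed point in `F`. -/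
def Afam {n : ℕ} (F : Finset (Fin n)) : Finset (Equiv.Perm (Fin n)) :=
  Finset.univ.filter (fun σ => 1 ≤ N F σ)

theorem mem_Afam {n : ℕ} (F : Finset (Fin n)) (σ : Equiv.Perm (Fin n)) :
    σ ∈ Afam F ↔ 1 ≤ N F σ := by simp [Afam]

theorem card_Afam {n : ℕ} (F : Finset (Fin n)) :
    ((Afam F).card : ℝ) = ∑ σ : Equiv.Perm (Fin n), (if 1 ≤ N F σ then (1 : ℝ) else 0) := by
  rw [Afam, Finset.card_filter]
  push_cast
  rfl

theorem sum_choose_N_real {n : ℕ} (F : Finset (Fin n)) (k : ℕ) :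
    ∑ σ : Equiv.Perm (Fin n), (((N F σ).choose k : ℕ) : ℝ)
      = (F.card.choose k : ℕ) * ((n - k).factorial : ℝ) := by
  have := sum_choose_N F k
  exact_mod_cast this

theorem sum_N_real {n : ℕ} (F : Finset (Fin n)) :
    ∑ σ : Equiv.Perm (Fin n), ((N F σ : ℕ) : ℝ)
      = (F.card : ℝ) * ((n - 1).factorial : ℝ) := by
  have := sum_choose_N_real F 1
  simpa using this

theorem card_lower {n : ℕ} (F : Finset (Fin n)) :
    (F.card : ℝ) * ((n - 1).factorial : ℝ) - (F.card.choose 2 : ℕ) * ((n - 2).factorial : ℝ)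
      ≤ ((Afam F).card : ℝ) := by
  rw [card_Afam, ← sum_N_real, ← sum_choose_N_real F 2, ← Finset.sum_sub_distrib]
  exact Finset.sum_le_sum fun σ _ => ind_lower _

theorem card_upper {n : ℕ} (F : Finset (Fin n)) :
    ((Afam F).card : ℝ) ≤ (F.card : ℝ) * ((n - 1).factorial : ℝ)
      - (F.card.choose 2 : ℕ) * ((n - 2).factorial : ℝ)
      + (F.card.choose 3 : ℕ) * ((n - 3).factorial : ℝ) := by
  rw [card_Afam, ← sum_N_real, ← sum_choose_N_real F 2, ← sum_choose_N_real F 3,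
    ← Finset.sum_sub_distrib, ← Finset.sum_add_distrib]
  exact Finset.sum_le_sum fun σ _ => ind_upper _

/-- The coefficients of the linear function counting fixed points in `F`. -/
def coef {n : ℕ} (F : Finset (Fin n)) (i j : Fin n) : ℝ := if i ∈ F ∧ j = i then 1 else 0

theorem sum_coef {n : ℕ} (F : Finset (Fin n)) (σ : Equiv.Perm (Fin n)) :
    ∑ i : Fin n, coef F i (σ i) = (N F σ : ℝ) := by
  unfold coef N
  rw [Finset.card_filter]
  push_cast
  rw [← Finset.sum_filter_add_sum_filter_not Finset.univ (fun i => i ∈ F)]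
  have h2 : ∑ i ∈ Finset.univ.filter (fun i => ¬ i ∈ F), (if i ∈ F ∧ σ i = i then (1 : ℝ) else 0) = 0 := by
    apply Finset.sum_eq_zero
    intro i hi
    rw [Finset.mem_filter] at hi
    rw [if_neg]
    rintro ⟨h, _⟩
    exact hi.2 h
  rw [h2, add_zero]
  have h3 : Finset.univ.filter (fun i => i ∈ F) = F := by ext i; simp
  rw [h3]
  apply Finset.sum_congr rfl
  intro i hi
  simp [hi]

theorem variance_bound {n : ℕ} (F : Finset (Fin n)) :
    ∑ σ : Equiv.Perm (Fin n),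
        ((if σ ∈ Afam F then (1:ℝ) else 0) - ∑ i : Fin n, coef F i (σ i)) ^ 2
      ≤ 2 * ((F.card.choose 2 : ℕ) * ((n - 2).factorial : ℝ)) := by
  rw [← sum_choose_N_real F 2, Finset.mul_sum]
  apply Finset.sum_le_sum
  intro σ _
  rw [sum_coef]
  have := ind_sq (N F σ)
  simpa [mem_Afam] using this

/-- The key facts about the family of permutations fixing a point of an `m`-set in `Fin (m (m-1) + 1)`. -/
theorem key (m n : ℕ) (hm : 4 ≤ m) (hn : n = m * (m - 1) + 1) :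
    ∃ A : Finset (Equiv.Perm (Fin n)), ∃ a : Fin n → Fin n → ℝ,
      (m : ℝ) - 1 / 2 ≤ (A.card : ℝ) / ((n - 1).factorial : ℝ) ∧
      (A.card : ℝ) / ((n - 1).factorial : ℝ) ≤ (m : ℝ) - 1 / 3 ∧
      (1 / (n.factorial : ℝ)) * ∑ σ : Equiv.Perm (Fin n),
          ((if σ ∈ A then (1:ℝ) else 0) - ∑ i : Fin n, a i (σ i)) ^ 2 ≤ 1 / n := by
  have hmn : m ≤ n := by
    rw [hn]
    have : m * 1 ≤ m * (m - 1) := Nat.mul_le_mul_left m (by omega)
    omega
  have hn4 : 4 ≤ n := le_trans hm hmn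
  set F : Finset (Fin n) := Finset.univ.filter (fun i => i.val < m) with hF
  have hFc : F.card = m := by
    rw [hF, Fin.card_filter_val_lt]
    exact min_eq_right hmn
  refine ⟨Afam F, coef F, ?_⟩
  have hmR : (4 : ℝ) ≤ m := by exact_mod_cast hm
  have hnR : (n : ℝ) = (m : ℝ) * ((m : ℝ) - 1) + 1 := by
    rw [hn]
    push_cast [Nat.cast_sub (show 1 ≤ m by omega)]
    ring
  obtain ⟨q, rfl⟩ : ∃ q, n = q + 3 := ⟨n - 3, by omega⟩
  have e1 : q + 3 - 1 = q + 2 := by omega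
  have e2 : q + 3 - 2 = q + 1 := by omega
  have e3 : q + 3 - 3 = q := by omega
  have hl := card_lower F
  have hu := card_upper F
  have hv := variance_bound F
  rw [hFc, choose_two_real] at hl
  rw [hFc, choose_two_real, choose_three_real] at hu
  rw [hFc, choose_two_real] at hv
  rw [e1, e2] at hl
  rw [e1, e2, e3] at hu
  rw [e2] at hv
  rw [e1]
  have hq0 : (0 : ℝ) < (q.factorial : ℝ) := by exact_mod_cast Nat.factorial_pos q
  have f1 : ((q + 1).factorial : ℝ) = ((q : ℝ) + 1) * (q.factorial : ℝ) := by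
    rw [Nat.factorial_succ]; push_cast; ring
  have f2 : ((q + 2).factorial : ℝ) = ((q : ℝ) + 2) * (((q : ℝ) + 1) * (q.factorial : ℝ)) := by
    rw [Nat.factorial_succ, Nat.cast_mul, f1]; push_cast; ring
  have f3 : ((q + 3).factorial : ℝ)
      = ((q : ℝ) + 3) * (((q : ℝ) + 2) * (((q : ℝ) + 1) * (q.factorial : ℝ))) := by
    rw [Nat.factorial_succ, Nat.cast_mul, f2]; push_cast; ring
  have hqm : (q : ℝ) + 2 = (m : ℝ) * ((m : ℝ) - 1) := by
    push_cast at hnR; linarith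
  have hq1 : (0 : ℝ) < (q : ℝ) + 1 := by positivity
  have hq2 : (0 : ℝ) < (q : ℝ) + 2 := by positivity
  rw [f1, f2] at hl
  rw [f1, f2] at hu
  rw [f1] at hv
  set P : ℝ := (q.factorial : ℝ) with hP
  refine ⟨?_, ?_, ?_⟩
  · rw [f2, le_div_iff₀ (by positivity)]
    have : ((m : ℝ) - 1 / 2) * (((q : ℝ) + 2) * (((q : ℝ) + 1) * P))
        = (m : ℝ) * (((q : ℝ) + 2) * (((q : ℝ) + 1) * P))
          - (m : ℝ) * ((m : ℝ) - 1) / 2 * (((q : ℝ) + 1) * P) := by
      rw [← hqm]; ring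
    rw [this]
    exact hl
  · rw [f2, div_le_iff₀ (by positivity)]
    refine le_trans hu ?_
    have h6 : (m : ℝ) * ((m : ℝ) - 1) * ((m : ℝ) - 2) / 6 * P
        ≤ 1 / 6 * (((q : ℝ) + 2) * (((q : ℝ) + 1) * P)) := by
      rw [← hqm]
      have : (m : ℝ) - 2 ≤ (q : ℝ) + 1 := by nlinarith
      have h7 : ((q : ℝ) + 2) * P * ((m : ℝ) - 2) ≤ ((q : ℝ) + 2) * P * ((q : ℝ) + 1) :=
        mul_le_mul_of_nonneg_left this (by positivity)
      nlinarith
    have : (m : ℝ) * (((q : ℝ) + 2) * (((q : ℝ) + 1) * P))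
          - (m : ℝ) * ((m : ℝ) - 1) / 2 * (((q : ℝ) + 1) * P)
        = ((m : ℝ) - 1 / 2) * (((q : ℝ) + 2) * (((q : ℝ) + 1) * P)) := by
      rw [← hqm]; ring
    rw [this]
    linarith
  · rw [one_div_mul_eq_div, div_le_div_iff₀ (by positivity) (by positivity)]
    have h8 : 2 * ((m : ℝ) * ((m : ℝ) - 1) / 2 * (((q : ℝ) + 1) * P))
        = ((q : ℝ) + 2) * (((q : ℝ) + 1) * P) := by
      rw [← hqm]; ring
    rw [h8] at hv
    rw [f3]
    push_cast
    have h9 : (0 : ℝ) ≤ (q : ℝ) + 3 := by positivity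
    calc _ ≤ (((q : ℝ) + 2) * (((q : ℝ) + 1) * P)) * ((q : ℝ) + 3) :=
          mul_le_mul_of_nonneg_right hv h9
      _ = _ := by ring

/-- The negation of the preceding statement: Some C₀>0 works for all n≥1: if A⊆S_n, c=∣A∣/(n-1)!, and 1_A is within mean-square εc/n of the span of 1-coset indicators, then 1_A is within C₀εc/n of a union of round(c) distinct 1-cosets, and ∣c−round(c)∣≤C₀ε. -/
theorem result :
    ¬ (∃ C₀ : ℝ, 0 < C₀ ∧ ∀ n : ℕ, 1 ≤ n → ∀ A : Finset (Equiv.Perm (Fin n)), ∀ ε : ℝ, 0 ≤ ε →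
    (∃ a : Fin n → Fin n → ℝ,
      (1 / (n.factorial : ℝ)) * ∑ σ : Equiv.Perm (Fin n),
          ((if σ ∈ A then (1:ℝ) else 0) - ∑ i : Fin n, a i (σ i)) ^ 2
        ≤ ε * ((A.card : ℝ) / ((n - 1).factorial : ℝ)) / n) →
    ∃ S : Finset (Fin n × Fin n),
      (S.card : ℤ) = round ((A.card : ℝ) / ((n - 1).factorial : ℝ)) ∧
      (1 / (n.factorial : ℝ)) * ∑ σ : Equiv.Perm (Fin n),
          ((if σ ∈ A then (1:ℝ) else 0) - (if ∃ p ∈ S, σ p.1 = p.2 then (1:ℝ) else 0)) ^ 2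
        ≤ C₀ * ε * ((A.card : ℝ) / ((n - 1).factorial : ℝ)) / n ∧
      |(A.card : ℝ) / ((n - 1).factorial : ℝ)
          - ((round ((A.card : ℝ) / ((n - 1).factorial : ℝ)) : ℤ) : ℝ)| ≤ C₀ * ε) := by
  rintro ⟨C₀, hC, H⟩
  obtain ⟨M, hM⟩ := exists_nat_gt (3 * C₀ + 1)
  set m : ℕ := max M 4 with hmdef
  have hm4 : 4 ≤ m := le_max_right _ _
  have hmM : (M : ℝ) ≤ m := by exact_mod_cast le_max_left M 4
  obtain ⟨A, a, h1, h2, h3⟩ := key m (m * (m - 1) + 1) hm4 rfl
  have hmR : (4 : ℝ) ≤ m := by exact_mod_cast hm4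
  specialize H (m * (m - 1) + 1) (by omega) A
  set c : ℝ := (A.card : ℝ) / ((m * (m - 1) + 1 - 1).factorial : ℝ) with hc
  have hcpos : 0 < c := by linarith
  have hεc : 1 / c * c = 1 := by field_simp
  obtain ⟨S, -, -, hS⟩ := H (1 / c) (by positivity) ⟨a, by rw [hεc]; exact h3⟩
  have hk : 1 / 3 ≤ |c - ((round c : ℤ) : ℝ)| := by
    rcases le_or_gt (round c) ((m : ℤ) - 1) with h | h
    · have h' : ((round c : ℤ) : ℝ) ≤ (m : ℝ) - 1 := by exact_mod_cast h
      refine le_trans ?_ (le_abs_self _)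
      linarith
    · have h' : (m : ℤ) ≤ round c := by omega
      have h'' : (m : ℝ) ≤ ((round c : ℤ) : ℝ) := by exact_mod_cast h'
      refine le_trans ?_ (neg_le_abs _)
      linarith
  have h5 : 1 / 3 ≤ C₀ * (1 / c) := le_trans hk hS
  have h6 : 1 / 3 * c ≤ C₀ := by
    have := mul_le_mul_of_nonneg_right h5 hcpos.le
    rwa [mul_assoc, hεc, mul_one] at this
  linarith

end Pool.Agent.S11238
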