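import Pool.Statements.S11473
import Pool.Agent.Y689.LMD

set_option autoImplicit false
open Pool Pool.MP_cc29fe_co

namespace Pool.Agent.S11473

/-- Every finite connected graph with n vertices and clique number ω, where n ≥ ω+1 ≥ 4, has a set of at most (ω−2)/(ω−1)·n vertices distinguishing every adjacent pair by distance, i.e. local metric dimension ≤ (ω−2)n/(ω−1). -/
theorem result :
    ∀ (V : Type) [Fintype V] (G : SimpleGraph V), G.Connected →
      ∀ ω : ℕ, (∃ s : Finset V, G.IsNClique ω s) → G.CliqueFree (ω + 1) →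
        4 ≤ ω + 1 → ω + 1 ≤ Fintype.card V →
        ∃ W : Finset V,
          (∀ u v : V, G.Adj u v → ∃ w ∈ W, G.dist u w ≠ G.dist v w) ∧
          (W.card : ℝ) ≤ ((ω : ℝ) - 2) / ((ω : ℝ) - 1) * (Fintype.card V : ℝ) := by
  classical
  intro V _ G hc ω _ hfree hω hn
  obtain ⟨q, rfl⟩ : ∃ q, ω = q + 1 := ⟨ω - 1, by omega⟩
  have hq : 2 ≤ q := by omega
  obtain ⟨r, y1, y2, h1, h2, h3, h4⟩ : ∃ r y1 y2, G.Adj r y1 ∧ G.Adj r y2 ∧ y1 ≠ y2 ∧
      ¬ G.Adj y1 y2 := by
    by_contra hcon
    push Not at hcon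
    have hall : ∀ u v : V, ∀ p : G.Walk u v, u = v ∨ G.Adj u v := by
      intro u v p
      induction p with
      | nil => exact Or.inl rfl
      | @cons a b c hab p ih =>
        rcases ih with e | e
        · rw [← e]; exact Or.inr hab
        · by_cases hac : a = c
          · exact Or.inl hac
          · exact Or.inr (hcon b a c hab.symm e hac)
    have hcl : G.IsClique ((Finset.univ : Finset V) : Set V) := by
      intro u _ v _ huv
      obtain ⟨p⟩ := hc.preconnected u v
      exact (hall u v p).resolve_left huv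
    have := Pool.Agent.Y689.LMD.card_le_of_clique G hfree _ hcl
    rw [Finset.card_univ] at this
    omega
  obtain ⟨W, hW, hcard⟩ := Pool.Agent.Y689.LMD.main G hq hc hfree r y1 y2 h1 h2 h3 h4
  refine ⟨W, hW, ?_⟩
  have hsum : W.card + Wᶜ.card = Fintype.card V := Finset.card_add_card_compl W
  obtain ⟨p, rfl⟩ : ∃ p, q = p + 1 := ⟨q - 1, by omega⟩
  have hp : (0 : ℝ) < (p : ℝ) + 1 := by positivity
  have hcard' : (W.card : ℝ) ≤ p * Wᶜ.card := by
    have : p + 1 - 1 = p := rfl
    rw [this] at hcard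
    exact_mod_cast hcard
  have hsum' : (Fintype.card V : ℝ) = W.card + Wᶜ.card := by
    rw [← hsum]; push_cast; ring
  rw [hsum']
  push_cast
  have e1 : ((p : ℝ) + 1 + 1 - 2) = p := by ring
  have e2 : ((p : ℝ) + 1 + 1 - 1) = p + 1 := by ring
  rw [e1, e2, div_mul_eq_mul_div, le_div_iff₀ hp]
  nlinarith

end Pool.Agent.S11473
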