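import Pool.Statements.S11612
import Pool.Agent.H279R3.TreeHelly

set_option autoImplicit false
open Pool Pool.MP_d20af1_co

namespace Pool.Agent.S11612

open SimpleGraph

/-- `K₅` in which five edges forming a 5-cycle are subdivided once: the 5-cycle `0 1 2 3 4` and,
for every `i < 5`, the vertex `5 + i` adjacent to `i - 1` and `i + 1` (modulo 5). -/
def edges : List (Fin 10 × Fin 10) :=
  [(0, 1), (1, 2), (2, 3), (3, 4), (4, 0), (5, 4), (5, 1), (6, 0), (6, 2), (7, 1), (7, 3),
    (8, 2), (8, 4), (9, 3), (9, 0)]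

def G : SimpleGraph (Fin 10) where
  Adj u v := (u, v) ∈ edges ∨ (v, u) ∈ edges
  symm := ⟨fun _ _ h => h.symm⟩
  loopless := ⟨by decide⟩

instance : DecidableRel G.Adj := fun u v =>
  inferInstanceAs (Decidable ((u, v) ∈ edges ∨ (v, u) ∈ edges))

/-- Traces in a star: a set containing the centre or equal to a singleton is connected. -/
lemma star_conn {n : ℕ} (S : Set (Fin (n + 1))) (h : (0 : Fin (n + 1)) ∈ S ∨ ∃ j, S = {j}) :
    ((starGraph (0 : Fin (n + 1))).induce S).Connected := by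
  rcases h with h | ⟨j, rfl⟩
  · have key : ∀ x : S, ((starGraph (0 : Fin (n + 1))).induce S).Reachable ⟨0, h⟩ x := by
      rintro ⟨x, hx⟩
      by_cases h0 : x = 0
      · subst h0; exact Reachable.refl _
      · refine Adj.reachable ?_
        simp only [comap_adj, starGraph_adj, Function.Embedding.subtype_apply]
        exact ⟨fun h => h0 h.symm, by simp⟩
    have : Nonempty S := ⟨⟨0, h⟩⟩
    exact ⟨fun x y => (key x).symm.trans (key y)⟩
  · have : Nonempty ({j} : Set (Fin (n + 1))) := ⟨⟨j, rfl⟩⟩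
    refine ⟨fun x y => ?_⟩
    have : x = y := Subsingleton.elim x y
    rw [this]

def bagsA : Fin 6 → Finset (Fin 10) :=
  ![{0, 1, 2, 3, 4}, {5, 4, 1}, {6, 0, 2}, {7, 1, 3}, {8, 2, 4}, {9, 3, 0}]

def bagsB : Fin 3 → Finset (Fin 10) :=
  ![{1, 2, 3, 4, 6, 7, 8, 9}, {0, 1, 4, 6, 9}, {5, 4, 1}]

/-- Colourings of the three bags of the second decomposition. -/
def colB : Fin 3 → Fin 10 → Fin 2 :=
  ![![0, 0, 1, 0, 1, 0, 0, 1, 0, 1], ![0, 1, 1, 1, 1, 1, 1, 1, 1, 1], ![0, 1, 0, 0, 1, 0, 0, 0, 0, 0]]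

lemma wconn_of_connected {n : ℕ} {T : SimpleGraph (Fin n)} {S : Set (Fin n)}
    (h : (T.induce S).Connected) : H279R3.WConn T S := by
  intro i hi j hj
  obtain ⟨p⟩ := h.preconnected ⟨i, hi⟩ ⟨j, hj⟩
  have key : ∀ x ∈ (p.map (Embedding.induce S).toHom).support, x ∈ S := by
    intro x hx
    rw [Walk.support_map, List.mem_map] at hx
    obtain ⟨y, _, rfl⟩ := hx
    exact y.2
  exact ⟨p.map (Embedding.induce S).toHom, key⟩

/-- The branch sets of a `K₅` minor. -/
def M : Fin 5 → Finset (Fin 10) := ![{0, 6}, {1, 7}, {2, 8}, {3, 9}, {4, 5}]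

/-- The negation of the preceding statement: For every finite graph G and all a, k: if G has a tree decomposition whose bags all have independence number at most a, and one whose bags all induce k-colorable subgraphs, then G has a tree decomposition with all bags of size at most a·k. -/
theorem result :
    ¬ (∀ (V : Type) [Fintype V] (G : SimpleGraph V) (a k : ℕ),
      (∃ (n : ℕ) (T : SimpleGraph (Fin n)) (B : Fin n → Finset V),
        T.IsTree ∧
        (∀ u v : V, G.Adj u v → ∃ i, u ∈ B i ∧ v ∈ B i) ∧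
        (∀ v : V, (T.induce {i : Fin n | v ∈ B i}).Connected) ∧
        (∀ i : Fin n, ∀ S : Finset V, S ⊆ B i → G.IsIndepSet (S : Set V) → S.card ≤ a)) →
      (∃ (n : ℕ) (T : SimpleGraph (Fin n)) (B : Fin n → Finset V),
        T.IsTree ∧
        (∀ u v : V, G.Adj u v → ∃ i, u ∈ B i ∧ v ∈ B i) ∧
        (∀ v : V, (T.induce {i : Fin n | v ∈ B i}).Connected) ∧
        (∀ i : Fin n, (G.induce (B i : Set V)).Colorable k)) →
      (∃ (n : ℕ) (T : SimpleGraph (Fin n)) (B : Fin n → Finset V),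
        T.IsTree ∧
        (∀ u v : V, G.Adj u v → ∃ i, u ∈ B i ∧ v ∈ B i) ∧
        (∀ v : V, (T.induce {i : Fin n | v ∈ B i}).Connected) ∧
        (∀ i : Fin n, (B i).card ≤ a * k))) := by
  intro H
  have hfin := H (Fin 10) G 2 2 ?_ ?_
  · obtain ⟨n, T, B, hT, he, hc, hcard⟩ := hfin
    -- no decomposition into bags of size at most four
    have hv : ∀ v i j, v ∈ B i → v ∈ B j → ∃ q : T.Walk i j, ∀ x ∈ q.support, v ∈ B x := by
      intro v i j hi hj
      exact wconn_of_connected (hc v) i hi j hj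
    have hMc : ∀ a, H279R3.WConn G (M a : Set (Fin 10)) := by
      have hadj : ∀ a, ∀ x ∈ M a, ∀ y ∈ M a, x = y ∨ G.Adj x y := by decide
      intro a x hx y hy
      rcases hadj a x hx y hy with rfl | h
      · exact ⟨Walk.nil, fun z hz => by simp at hz; subst hz; exact hx⟩
      · refine ⟨Walk.cons h Walk.nil, fun z hz => ?_⟩
        simp at hz
        rcases hz with rfl | rfl
        · exact hx
        · exact hy
    have hmeet : ∀ a b : Fin 5, ({i | ∃ v ∈ (M a : Set (Fin 10)), v ∈ B i} ∩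
        {i | ∃ v ∈ (M b : Set (Fin 10)), v ∈ B i}).Nonempty := by
      have hadj : ∀ a b : Fin 5, ∃ x ∈ M a, ∃ y ∈ M b, x = y ∨ G.Adj x y := by decide
      intro a b
      obtain ⟨x, hx, y, hy, h⟩ := hadj a b
      rcases h with rfl | h
      · obtain ⟨i, hi⟩ := (hc x).nonempty
        exact ⟨i, ⟨x, hx, hi⟩, ⟨x, hy, hi⟩⟩
      · obtain ⟨i, hi1, hi2⟩ := he x y h
        exact ⟨i, ⟨x, hx, hi1⟩, ⟨y, hy, hi2⟩⟩
    obtain ⟨i, hi⟩ := H279R3.helly hT (fun a : Fin 5 => {i | ∃ v ∈ (M a : Set (Fin 10)), v ∈ B i})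
      (fun a => H279R3.trace_conn he hv (hMc a)) hmeet
    replace hi : ∀ a : Fin 5, ∃ v ∈ (M a : Set (Fin 10)), v ∈ B i := hi
    choose f hf hfB using hi
    have hinj : Function.Injective f := by
      have hd : ∀ a b : Fin 5, ∀ x, x ∈ M a → x ∈ M b → a = b := by decide
      intro a b hab
      exact hd a b (f a) (hf a) (hab ▸ hf b)
    have h1 : (Finset.univ.image f).card = 5 := by
      rw [Finset.card_image_of_injective _ hinj]; rfl
    have h2 : Finset.univ.image f ⊆ B i := by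
      intro x hx
      rw [Finset.mem_image] at hx
      obtain ⟨a, _, rfl⟩ := hx
      exact hfB a
    have h3 := Finset.card_le_card h2
    have h4 := hcard i
    omega
  · refine ⟨6, starGraph 0, bagsA, isTree_starGraph 0, ?_, ?_, ?_⟩
    · decide
    · have h : ∀ v, v ∈ bagsA 0 ∨ ∃ j, ∀ i, v ∈ bagsA i ↔ i = j := by decide
      intro v
      refine star_conn _ ?_
      rcases h v with h | ⟨j, h⟩
      · exact Or.inl h
      · exact Or.inr ⟨j, Set.ext h⟩
    · have h : ∀ i, ∀ x ∈ bagsA i, ∀ y ∈ bagsA i, ∀ z ∈ bagsA i, x ≠ y → x ≠ z → y ≠ z →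
          G.Adj x y ∨ G.Adj x z ∨ G.Adj y z := by decide
      intro i S hS hI
      by_contra hlt
      obtain ⟨x, hx, y, hy, z, hz, hxy, hxz, hyz⟩ := Finset.two_lt_card.1 (not_le.1 hlt)
      rcases h i x (hS hx) y (hS hy) z (hS hz) hxy hxz hyz with h | h | h
      · exact hI hx hy hxy h
      · exact hI hx hz hxz h
      · exact hI hy hz hyz h
  · refine ⟨3, starGraph 0, bagsB, isTree_starGraph 0, ?_, ?_, ?_⟩
    · decide
    · have h : ∀ v, v ∈ bagsB 0 ∨ ∃ j, ∀ i, v ∈ bagsB i ↔ i = j := by decide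
      intro v
      refine star_conn _ ?_
      rcases h v with h | ⟨j, h⟩
      · exact Or.inl h
      · exact Or.inr ⟨j, Set.ext h⟩
    · intro i
      have h : ∀ i, ∀ x ∈ bagsB i, ∀ y ∈ bagsB i, G.Adj x y → colB i x ≠ colB i y := by decide
      exact ⟨Coloring.mk (fun x => colB i x.1) (fun {x y} hxy => h i x.1 x.2 y.1 y.2 hxy)⟩

end Pool.Agent.S11612
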