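import Pool.Statements.S11675
import Pool.Agent.Helper398.Final
import Pool.Agent.H112R2.Resid

set_option autoImplicit false
open Pool Pool.MP_d40e3c_co

namespace Pool.Agent.S11675

/-- The statement with the constant `1/4`. -/
theorem aux : ∃ M : ℕ, ∀ (G : Type) [AddCommGroup G] [DecidableEq G] (A : Finset G),
    M ≤ A.card → (∀ B ⊆ A, B.Nonempty → ∑ x ∈ B, x ≠ 0) →
    (1 / 4 : ℝ) * ((A.card : ℝ) ^ 2) + 1 ≤ (A.subsetSum.card : ℝ) := by
  classical
  obtain ⟨M, hM⟩ := Pool.Agent.Helper398.lower (1 / 4) (by norm_num)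
  refine ⟨M, ?_⟩
  intro G _ _ A hMA hZ
  -- the subgroup generated by A
  set K : AddSubgroup G := AddSubgroup.closure (A : Set G) with hK
  have hmem : ∀ a ∈ A, a ∈ K := fun a ha => AddSubgroup.subset_closure (by exact_mod_cast ha)
  have hFG : AddGroup.FG K := by
    rw [AddGroup.fg_iff_addSubgroup_fg]
    exact ⟨A, rfl⟩
  -- lift of elements of A
  set L : A → K := fun a => ⟨a.1, hmem a.1 a.2⟩ with hL
  have hLinj : Function.Injective L := by
    intro a b h
    have : (L a : G) = (L b : G) := congrArg Subtype.val h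
    exact Subtype.ext this
  set F : Finset K := (Finset.univ : Finset (Finset A)).image (fun C => ∑ a ∈ C, L a) with hF
  obtain ⟨Q, _, _, π, hπ⟩ := H112.exists_finite_quotient K F
  have hsumcoe : ∀ C : Finset A, ((∑ a ∈ C, L a : K) : G) = ∑ a ∈ C, (a : G) := by
    intro C
    rw [AddSubgroup.val_finsetSum]
  have hF0 : (0 : K) ∈ F := by
    rw [hF, Finset.mem_image]
    exact ⟨∅, Finset.mem_univ _, by simp⟩
  have hFm : ∀ C : Finset A, (∑ a ∈ C, L a) ∈ F := by
    intro C
    rw [hF, Finset.mem_image]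
    exact ⟨C, Finset.mem_univ _, rfl⟩
  have hLF : ∀ a : A, L a ∈ F := by
    intro a
    have := hFm {a}
    simpa using this
  have hπL : Function.Injective (fun a : A => π (L a)) := by
    intro a b h
    exact hLinj (hπ (by exact_mod_cast hLF a) (by exact_mod_cast hLF b) h)
  set S : Finset Q := (Finset.univ : Finset A).image (fun a => π (L a)) with hS
  have hScard : S.card = A.card := by
    rw [hS, Finset.card_image_of_injective _ hπL, Finset.card_univ, Fintype.card_coe]
  have hpull : ∀ B ⊆ S, ∃ C : Finset A, B = C.image (fun a => π (L a)) ∧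
      ∑ b ∈ B, b = π (∑ a ∈ C, L a) := by
    intro B hB
    obtain ⟨C, _, rfl⟩ := Finset.subset_image_iff.1 hB
    refine ⟨C, rfl, ?_⟩
    rw [Finset.sum_image (fun a _ b _ h => hπL h), map_sum]
  have hZS : Pool.Agent.Helper398.ZSF S := by
    intro B hB hne hsum
    obtain ⟨C, rfl, hC⟩ := hpull B hB
    rw [hC] at hsum
    have h1 : (∑ a ∈ C, L a) = 0 := by
      apply hπ (by exact_mod_cast hFm C) (by exact_mod_cast hF0)
      rw [hsum, map_zero]
    have hCne : C.Nonempty := Finset.image_nonempty.1 hne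
    have h2 : ∑ x ∈ C.map (Function.Embedding.subtype _), x = 0 := by
      rw [Finset.sum_map]
      have := hsumcoe C
      rw [h1] at this
      simpa using this.symm
    refine hZ (C.map (Function.Embedding.subtype _)) ?_ (Finset.map_nonempty.2 hCne) h2
    intro x hx
    rw [Finset.mem_map] at hx
    obtain ⟨y, _, rfl⟩ := hx
    exact y.2
  have h3 := hM Q S (by rw [hScard]; exact hMA) hZS
  rw [hScard] at h3
  refine h3.trans ?_
  norm_cast
  -- compare the number of subset sums
  have h4 : S.subsetSum ⊆ F.image π := by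
    intro x hx
    rw [Finset.mem_subsetSum_iff] at hx
    obtain ⟨B, hB, rfl⟩ := hx
    obtain ⟨C, _, hC⟩ := hpull B hB
    rw [hC]
    exact Finset.mem_image_of_mem _ (hFm C)
  refine (Finset.card_le_card h4).trans (Finset.card_image_le.trans ?_)
  apply Finset.card_le_card_of_injOn (fun x : K => (x : G))
  · intro x hx
    rw [hF, Finset.coe_image] at hx
    obtain ⟨C, _, rfl⟩ := hx
    rw [Finset.mem_coe, Finset.mem_subsetSum_iff]
    refine ⟨C.map (Function.Embedding.subtype _), ?_, ?_⟩
    · intro x hx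
      rw [Finset.mem_map] at hx
      obtain ⟨y, _, rfl⟩ := hx
      exact y.2
    · rw [Finset.sum_map]
      exact (hsumcoe C).symm
  · intro x _ y _ h
    exact Subtype.ext h

/-- There is a real c > 1/9 such that for all large m, every m-element subset of an abelian group with no nonempty subset summing to zero has at least ⌈c m²⌉ distinct nonempty subset sums. -/
theorem result :
    ∃ c : ℝ, 1 / 9 < c ∧ ∃ M : ℕ, ∀ m : ℕ, M ≤ m →
      ∀ (G : Type) [AddCommGroup G] [DecidableEq G] (A : Finset G),
        A.card = m →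
        (∀ B ⊆ A, B.Nonempty → ∑ x ∈ B, x ≠ 0) →
        ⌈c * ((m : ℝ) ^ 2)⌉ ≤
          (((A.powerset.erase ∅).image (fun B => ∑ x ∈ B, x)).card : ℤ) := by
  obtain ⟨M, hM⟩ := aux
  refine ⟨1 / 4, by norm_num, M, ?_⟩
  intro m hm G _ _ A hA hZ
  have h1 := hM G A (by omega) hZ
  rw [hA] at h1
  have h2 : A.subsetSum ⊆ insert 0 ((A.powerset.erase ∅).image (fun B => ∑ x ∈ B, x)) := by
    intro x hx
    rw [Finset.mem_subsetSum_iff] at hx
    obtain ⟨B, hB, rfl⟩ := hx
    rw [Finset.mem_insert]
    rcases Finset.eq_empty_or_nonempty B with rfl | hne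
    · left; simp
    · right
      rw [Finset.mem_image]
      refine ⟨B, ?_, rfl⟩
      rw [Finset.mem_erase, Finset.mem_powerset]
      exact ⟨hne.ne_empty, hB⟩
  have h3 := (Finset.card_le_card h2).trans (Finset.card_insert_le _ _)
  have h4 : (A.subsetSum.card : ℝ) ≤
      (((A.powerset.erase ∅).image (fun B => ∑ x ∈ B, x)).card : ℝ) + 1 := by
    exact_mod_cast h3
  rw [Int.ceil_le]
  push_cast
  linarith

end Pool.Agent.S11675
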