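import Pool.Statements.S11707
import Pool.Agent.Y416.ThreeGraphC

set_option autoImplicit false
open Classical
open Pool Pool.MP_d61016_co

namespace Pool.Agent.S11707

/-- Every finite three-graph A embeds as an induced substructure in some finite three-graph B such that every partial automorphism of A extends to an automorphism of B. -/
theorem result :
    ∀ (n : ℕ) (rA : Fin n → Fin n → Prop) (HA : Finset (Finset (Fin n))),
      (Equivalence rA ∧ (∀ a b c, rA a b ∨ rA b c ∨ rA a c) ∧
        (∀ e ∈ HA, e.card = 4 ∧ ∀ v ∈ e, (e.filter (fun w => rA v w)).card = 2) ∧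
        (∀ S : Finset (Fin n), S.card = 5 →
          (∀ v ∈ S, (S.filter (fun w => rA v w)).card ≤ 3) →
          Even (HA.filter (fun e => e ⊆ S)).card)) →
      ∃ (m : ℕ) (rB : Fin m → Fin m → Prop) (HB : Finset (Finset (Fin m))),
        (Equivalence rB ∧ (∀ a b c, rB a b ∨ rB b c ∨ rB a c) ∧
          (∀ e ∈ HB, e.card = 4 ∧ ∀ v ∈ e, (e.filter (fun w => rB v w)).card = 2) ∧
          (∀ S : Finset (Fin m), S.card = 5 →
            (∀ v ∈ S, (S.filter (fun w => rB v w)).card ≤ 3) →
            Even (HB.filter (fun e => e ⊆ S)).card)) ∧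
        ∃ f : Fin n ↪ Fin m,
          (∀ x y, rA x y ↔ rB (f x) (f y)) ∧
          (∀ e : Finset (Fin n), e ∈ HA ↔ e.map f ∈ HB) ∧
          ∀ (S : Finset (Fin n)) (p : Fin n → Fin n),
            Set.InjOn p (S : Set (Fin n)) →
            (∀ x ∈ S, ∀ y ∈ S, rA x y ↔ rA (p x) (p y)) →
            (∀ e ⊆ S, e ∈ HA ↔ e.image p ∈ HA) →
            ∃ σ : Fin m ≃ Fin m,
              (∀ x y, rB x y ↔ rB (σ x) (σ y)) ∧
              (∀ e : Finset (Fin m), e ∈ HB ↔ e.map σ.toEmbedding ∈ HB) ∧
              ∀ x ∈ S, σ (f x) = f (p x) := by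
  intro n rA HA ⟨hr, h2, h4, h5⟩
  -- the sides
  have hsd : ∃ sd : Fin n → Bool, ∀ x y, rA x y ↔ sd x = sd y := by
    rcases isEmpty_or_nonempty (Fin n) with h | ⟨⟨x0⟩⟩
    · exact ⟨fun _ => false, fun x => h.elim x⟩
    · refine ⟨fun x => decide (rA x0 x), ?_⟩
      intro x y
      constructor
      · intro hxy
        have : rA x0 x ↔ rA x0 y := ⟨fun h => hr.trans h hxy, fun h => hr.trans h (hr.symm hxy)⟩
        simp [this]
      · intro h
        have h' : rA x0 x ↔ rA x0 y := by simpa using h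
        by_cases hx : rA x0 x
        · exact hr.trans (hr.symm hx) (h'.1 hx)
        · have hy : ¬ rA x0 y := fun hy => hx (h'.2 hy)
          rcases h2 x0 x y with h3 | h3 | h3
          · exact absurd h3 hx
          · exact h3
          · exact absurd h3 hy
  obtain ⟨sd, hsd⟩ := hsd
  have hfun : rA = fun x y => sd x = sd y := by
    funext x y; exact propext (hsd x y)
  subst hfun
  obtain ⟨F, hF, hHA⟩ := Y416.ThreeGraph.exists_fun sd HA
    (fun e he => ⟨(h4 e he).1, fun v hv => by convert (h4 e he).2 v hv⟩)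
    (fun S hS h3 => by
      convert h5 S hS (fun v hv => by convert h3 v hv))
  subst hHA
  obtain ⟨hE1, hE2⟩ := Y416.ThreeGraph.extension sd F hF
  let g : Y416.ThreeGraph.BV (Fin n) ≃ Fin (Fintype.card (Y416.ThreeGraph.BV (Fin n))) :=
    Fintype.equivFin _
  let sdB : Fin (Fintype.card (Y416.ThreeGraph.BV (Fin n))) → Bool := fun y => (g.symm y).1
  let FF : Fin (Fintype.card (Y416.ThreeGraph.BV (Fin n))) →
    Fin (Fintype.card (Y416.ThreeGraph.BV (Fin n))) → ZMod 2 :=
      fun a b => Y416.ThreeGraph.FB (g.symm a) (g.symm b)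
  have hFF : ∀ x y, FF x y = FF y x := fun x y => Y416.ThreeGraph.FB_comm _ _
  have htr : ∀ e : Finset (Y416.ThreeGraph.BV (Fin n)),
      e ∈ Y416.ThreeGraph.Hyp (fun a : Y416.ThreeGraph.BV (Fin n) => a.1) Y416.ThreeGraph.FB ↔
        e.map g.toEmbedding ∈ Y416.ThreeGraph.Hyp sdB FF := by
    intro e
    refine Y416.ThreeGraph.map_mem _ _ Y416.ThreeGraph.FB_comm sdB FF hFF false (fun _ => 0)
      g.toEmbedding ?_ ?_ e
    · intro x
      show (g.symm (g x)).1 = xor x.1 false
      rw [Equiv.symm_apply_apply, Bool.xor_false]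
    · intro x y _
      show Y416.ThreeGraph.FB (g.symm (g x)) (g.symm (g y)) = _
      rw [Equiv.symm_apply_apply, Equiv.symm_apply_apply, add_zero, add_zero]
  refine ⟨_, fun x y => sdB x = sdB y, Y416.ThreeGraph.Hyp sdB FF, ⟨?_, ?_, ?_, ?_⟩, ?_⟩
  · exact ⟨fun _ => rfl, fun h => h.symm, fun h h' => h.trans h'⟩
  · intro a b c
    show sdB a = sdB b ∨ sdB b = sdB c ∨ sdB a = sdB c
    cases sdB a <;> cases sdB b <;> cases sdB c <;> simp
  · intro e he
    have h := Y416.ThreeGraph.hyp_card sdB FF e he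
    exact ⟨h.1, fun v hv => by convert h.2 v hv⟩
  · intro S hS h3
    have h := Y416.ThreeGraph.hyp_even sdB FF S hS (fun v hv => by convert h3 v hv)
    convert h
  · refine ⟨(Y416.ThreeGraph.emb sd F).trans g.toEmbedding, ?_, ?_, ?_⟩
    · intro x y
      show sd x = sd y ↔ (g.symm (g _)).1 = (g.symm (g _)).1
      rw [Equiv.symm_apply_apply, Equiv.symm_apply_apply]
      exact Iff.rfl
    · intro e
      rw [hE1 e, htr, Finset.map_map]
    · intro S p hp hS hH
      obtain ⟨σ, s1, s2, s3⟩ := hE2 S p hp hS (fun e he => by convert hH e he)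
      refine ⟨(g.symm.trans σ).trans g, ?_, ?_, ?_⟩
      · intro x y
        show (g.symm x).1 = (g.symm y).1 ↔ (g.symm (g (σ (g.symm x)))).1 = (g.symm (g (σ (g.symm y)))).1
        rw [Equiv.symm_apply_apply, Equiv.symm_apply_apply]
        exact s1 _ _
      · intro e
        have e1 : e = (e.map g.symm.toEmbedding).map g.toEmbedding := by
          rw [Finset.map_map]
          ext x
          simp
        have e2 : e.map ((g.symm.trans σ).trans g).toEmbedding =
            ((e.map g.symm.toEmbedding).map σ.toEmbedding).map g.toEmbedding := by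
          rw [Finset.map_map, Finset.map_map]
          rfl
        rw [e2, ← htr, ← s2, htr, ← e1]
      · intro x hx
        show g (σ (g.symm (g (Y416.ThreeGraph.emb sd F x)))) = g (Y416.ThreeGraph.emb sd F (p x))
        rw [Equiv.symm_apply_apply, s3 x hx]

end Pool.Agent.S11707
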