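import Pool.Statements.S11816
-- import your own Pool.Agent.* helpers here

set_option autoImplicit false
open Pool Pool.MP_daf6f7_co

namespace Pool.Agent.S11816

/-- The dual of the wheel with hub 5 and rim 0..4: points 0..4 are the rim edges, points 5..9 the spokes. -/
def star (i : Fin 6) : Finset (Fin 10) :=
  match i with
  | 0 => {0, 4, 5}
  | 1 => {1, 0, 6}
  | 2 => {2, 1, 7}
  | 3 => {3, 2, 8}
  | 4 => {4, 3, 9}
  | 5 => {5, 6, 7, 8, 9}

theorem sup_eq : Finset.univ.sup
    (fun v : Fin 10 => (Finset.univ.filter (fun i : Fin 6 => v ∈ star i)).card) = 2 := by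
  decide +kernel

theorem star_ne (i : Fin 6) : (star i).Nonempty := by
  revert i
  decide +kernel

theorem cond (S : Finset (Fin 6)) : ∃ M ∈ S.powerset,
        (∀ i ∈ M, ∀ j ∈ M, i ≠ j → Disjoint (star i) (star j)) ∧
        S.card ≤ M.card *
          (Finset.univ.sup (fun v : Fin 10 => (S.filter (fun i => v ∈ star i)).card) + 1) := by
  revert S
  decide +kernel

theorem nocol : ¬ ∃ c : Fin 6 → Fin 3, ∀ i j, i ≠ j → c i = c j → Disjoint (star i) (star j) := by
  rintro ⟨c, hc⟩
  have h : ∀ i j, i ≠ j → ¬ Disjoint (star i) (star j) → c i ≠ c j := fun i j hij hd he =>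
    hd (hc i j hij he)
  have e01 := h 0 1 (by decide) (by decide +kernel)
  have e12 := h 1 2 (by decide) (by decide +kernel)
  have e23 := h 2 3 (by decide) (by decide +kernel)
  have e34 := h 3 4 (by decide) (by decide +kernel)
  have e40 := h 4 0 (by decide) (by decide +kernel)
  have e05 := h 0 5 (by decide) (by decide +kernel)
  have e15 := h 1 5 (by decide) (by decide +kernel)
  have e25 := h 2 5 (by decide) (by decide +kernel)
  have e35 := h 3 5 (by decide) (by decide +kernel)
  have e45 := h 4 5 (by decide) (by decide +kernel)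
  generalize c 0 = a0 at *
  generalize c 1 = a1 at *
  generalize c 2 = a2 at *
  generalize c 3 = a3 at *
  generalize c 4 = a4 at *
  generalize c 5 = a5 at *
  omega

/-- The negation of the preceding statement: For any finite hypergraph (edges may repeat) in which every subfamily of edges has a matching of size at least its edge count divided by its max degree plus one, the edges can be colored with max degree plus one colors so same-colored edges are disjoint. -/
theorem result :
    ¬ (∀ (V : Type) [Fintype V] [DecidableEq V] (m : ℕ) (e : Fin m → Finset V),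
    (∀ i, (e i).Nonempty) →
    (∀ S : Finset (Fin m), ∃ M ⊆ S,
        (∀ i ∈ M, ∀ j ∈ M, i ≠ j → Disjoint (e i) (e j)) ∧
        S.card ≤ M.card *
          (Finset.univ.sup (fun v : V => (S.filter (fun i => v ∈ e i)).card) + 1)) →
    ∃ c : Fin m → Fin (Finset.univ.sup
        (fun v : V => (Finset.univ.filter (fun i : Fin m => v ∈ e i)).card) + 1),
      ∀ i j, i ≠ j → c i = c j → Disjoint (e i) (e j)) := by
  intro H
  have h := H (Fin 10) 6 star star_ne (by
    intro S
    obtain ⟨M, hM, h1, h2⟩ := cond S
    exact ⟨M, Finset.mem_powerset.mp hM, h1, h2⟩)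
  rw [sup_eq] at h
  exact nocol h

end Pool.Agent.S11816
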