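import Pool.Statements.S11885

set_option autoImplicit false
open Classical
open Pool Pool.MP_dd5ef2_co

namespace Pool.Agent.S11885

open Finset

/-- variance of the mean of r independent samples (counting form) -/
lemma var_bound {n : ℕ} (g : Fin n → ℝ) (hg : ∑ k, g k = 0) (hb : ∀ k, g k ^ 2 ≤ 1) (r : ℕ) :
    ∑ R : Fin r → Fin n, (∑ s, g (R s)) ^ 2 ≤ r * (n : ℝ) ^ r := by
  induction r with
  | zero => simp
  | succ r ih =>
    have h1 : ∑ R : Fin (r + 1) → Fin n, (∑ s, g (R s)) ^ 2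
        = ∑ p : Fin n × (Fin r → Fin n), (g p.1 + ∑ s, g (p.2 s)) ^ 2 := by
      rw [← (Fin.consEquiv (fun _ : Fin (r + 1) => Fin n)).sum_comp]
      refine Finset.sum_congr rfl fun p _ => ?_
      congr 1
      rw [Fin.sum_univ_succ]
      simp [Fin.consEquiv]
    rw [h1, Fintype.sum_prod_type]
    have h2 : ∀ k : Fin n, ∑ R : Fin r → Fin n, (g k + ∑ s, g (R s)) ^ 2
        = (n : ℝ) ^ r * g k ^ 2 + 2 * g k * (∑ R : Fin r → Fin n, ∑ s, g (R s))
          + ∑ R : Fin r → Fin n, (∑ s, g (R s)) ^ 2 := by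
      intro k
      have : ∀ R : Fin r → Fin n, (g k + ∑ s, g (R s)) ^ 2
          = g k ^ 2 + 2 * g k * (∑ s, g (R s)) + (∑ s, g (R s)) ^ 2 := fun R => by ring
      simp_rw [this]
      rw [Finset.sum_add_distrib, Finset.sum_add_distrib, ← Finset.mul_sum]
      simp
    simp_rw [h2]
    rw [Finset.sum_add_distrib, Finset.sum_add_distrib, ← Finset.mul_sum]
    have h3 : ∑ x : Fin n, 2 * g x * (∑ R : Fin r → Fin n, ∑ s, g (R s)) = 0 := by
      rw [← Finset.sum_mul, ← Finset.mul_sum, hg]; ring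
    rw [h3]
    have h4 : ∑ k, g k ^ 2 ≤ n := by
      calc ∑ k, g k ^ 2 ≤ ∑ _k : Fin n, (1 : ℝ) := Finset.sum_le_sum fun k _ => hb k
        _ = n := by simp
    simp only [Finset.sum_const, Finset.card_univ, Fintype.card_fin, nsmul_eq_mul]
    have h5 : (0 : ℝ) ≤ (n : ℝ) ^ r := by positivity
    have h6 : (0 : ℝ) ≤ n := by positivity
    calc (n : ℝ) ^ r * ∑ k, g k ^ 2 + 0 + n * ∑ R : Fin r → Fin n, (∑ s, g (R s)) ^ 2
        ≤ (n : ℝ) ^ r * n + 0 + n * (r * (n : ℝ) ^ r) := by
          gcongr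
      _ = ((r + 1 : ℕ) : ℝ) * (n : ℝ) ^ (r + 1) := by push_cast; ring

/-- ordered pairs i<j -/
abbrev PP (n : ℕ) := {p : Fin n × Fin n // p.1 < p.2}

/-- indicator of an even triple -/
noncomputable def ind (b c d : Bool) : ℝ := if Even (b.toNat + c.toNat + d.toNat) then 1 else 0

lemma ind_nonneg (b c d : Bool) : 0 ≤ ind b c d := by unfold ind; split_ifs <;> norm_num
lemma ind_le (b c d : Bool) : ind b c d ≤ 1 := by unfold ind; split_ifs <;> norm_num
lemma ind_add (c d : Bool) : ind true c d + ind false c d = 1 := by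
  cases c <;> cases d <;> simp [ind, Nat.even_add_one]

/-- adjacency as a Boolean -/
noncomputable def ad {n : ℕ} (G : SimpleGraph (Fin n)) (i j : Fin n) : Bool := decide (G.Adj i j)

noncomputable def phi {n : ℕ} (G : SimpleGraph (Fin n)) (p : PP n) : ℝ :=
  (∑ k, ind (ad G p.1.1 p.1.2) (ad G k p.1.1) (ad G k p.1.2)) / n

noncomputable def psi {n r : ℕ} (a : Fin r → Fin n → Bool) (p : PP n) (b : Bool) : ℝ :=
  (∑ s, ind b (a s p.1.1) (a s p.1.2)) / r

lemma psi_nonneg {n r : ℕ} (a : Fin r → Fin n → Bool) (p : PP n) (b : Bool) : 0 ≤ psi a p b := by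
  unfold psi
  exact div_nonneg (Finset.sum_nonneg fun s _ => ind_nonneg _ _ _) (by positivity)

lemma psi_add {n r : ℕ} (hr : 0 < r) (a : Fin r → Fin n → Bool) (p : PP n) :
    psi a p true + psi a p false = 1 := by
  unfold psi
  rw [← add_div, ← Finset.sum_add_distrib]
  simp_rw [ind_add]
  have : (r : ℝ) ≠ 0 := by positivity
  simp [this]

lemma phi_nonneg {n : ℕ} (G : SimpleGraph (Fin n)) (p : PP n) : 0 ≤ phi G p := by
  unfold phi
  exact div_nonneg (Finset.sum_nonneg fun s _ => ind_nonneg _ _ _) (by positivity)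

/-- the sampled adjacency -/
noncomputable def sa {n r : ℕ} (G : SimpleGraph (Fin n)) (R : Fin r → Fin n) : Fin r → Fin n → Bool :=
  fun s i => ad G (R s) i

lemma card_PP (n : ℕ) : (Fintype.card (PP n) : ℝ) ≤ (n : ℝ) ^ 2 := by
  have : Fintype.card (PP n) ≤ Fintype.card (Fin n × Fin n) := Fintype.card_subtype_le _
  rw [Fintype.card_prod, Fintype.card_fin] at this
  calc (Fintype.card (PP n) : ℝ) ≤ ((n * n : ℕ) : ℝ) := by exact_mod_cast this
    _ = (n : ℝ) ^ 2 := by push_cast; ring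

lemma var_pair {n r : ℕ} (hn : 0 < n) (hr : 0 < r) (G : SimpleGraph (Fin n)) (p : PP n) :
    ∑ R : Fin r → Fin n, (psi (sa G R) p (ad G p.1.1 p.1.2) - phi G p) ^ 2 ≤ (n : ℝ) ^ r / r := by
  set f : Fin n → ℝ := fun k => ind (ad G p.1.1 p.1.2) (ad G k p.1.1) (ad G k p.1.2) with hf
  have hn' : (n : ℝ) ≠ 0 := by positivity
  have hr' : (r : ℝ) ≠ 0 := by positivity
  have hrp : (0 : ℝ) < r := by positivity
  have hphi : phi G p = (∑ k, f k) / n := rfl
  have hphi0 : 0 ≤ phi G p := phi_nonneg G p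
  have hphi1 : phi G p ≤ 1 := by
    rw [hphi, div_le_one (by positivity)]
    calc ∑ k, f k ≤ ∑ _k : Fin n, (1 : ℝ) := Finset.sum_le_sum fun k _ => ind_le _ _ _
      _ = n := by simp
  set g : Fin n → ℝ := fun k => f k - phi G p with hg
  have hg0 : ∑ k, g k = 0 := by
    simp only [hg, Finset.sum_sub_distrib, Finset.sum_const, Finset.card_univ, Fintype.card_fin,
      nsmul_eq_mul]
    rw [hphi]; field_simp; ring
  have hgb : ∀ k, g k ^ 2 ≤ 1 := by
    intro k
    have h0 : 0 ≤ f k := ind_nonneg _ _ _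
    have h1 : f k ≤ 1 := ind_le _ _ _
    simp only [hg]
    nlinarith
  have hv := var_bound g hg0 hgb r
  have hterm : ∀ R : Fin r → Fin n,
      (psi (sa G R) p (ad G p.1.1 p.1.2) - phi G p) ^ 2 = (∑ s, g (R s)) ^ 2 / (r : ℝ) ^ 2 := by
    intro R
    have : ∑ s, g (R s) = (∑ s, f (R s)) - r * phi G p := by
      simp [hg, Finset.sum_sub_distrib]
    rw [this]
    have h2 : psi (sa G R) p (ad G p.1.1 p.1.2) = (∑ s, f (R s)) / r := rfl
    rw [h2]
    field_simp
  simp_rw [hterm]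
  rw [← Finset.sum_div, div_le_div_iff₀ (by positivity) hrp]
  calc (∑ R : Fin r → Fin n, (∑ s, g (R s)) ^ 2) * r ≤ (r * (n : ℝ) ^ r) * r := by gcongr
    _ = (n : ℝ) ^ r * (r : ℝ) ^ 2 := by ring

/-- a good reference set exists -/
lemma exists_ref {n r : ℕ} (hn : 0 < n) (hr : 0 < r) (G : SimpleGraph (Fin n)) :
    ∃ R : Fin r → Fin n,
      ∑ p : PP n, (psi (sa G R) p (ad G p.1.1 p.1.2) - phi G p) ^ 2 ≤ (n : ℝ) ^ 2 / r := by
  haveI : Nonempty (Fin n) := ⟨⟨0, hn⟩⟩
  have hrp : (0 : ℝ) < r := by positivity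
  have h1 : ∑ R : Fin r → Fin n,
      ∑ p : PP n, (psi (sa G R) p (ad G p.1.1 p.1.2) - phi G p) ^ 2
      ≤ ∑ _R : Fin r → Fin n, (n : ℝ) ^ 2 / r := by
    rw [Finset.sum_comm]
    calc ∑ p : PP n, ∑ R : Fin r → Fin n, (psi (sa G R) p (ad G p.1.1 p.1.2) - phi G p) ^ 2
        ≤ ∑ _p : PP n, (n : ℝ) ^ r / r := Finset.sum_le_sum fun p _ => var_pair hn hr G p
      _ = Fintype.card (PP n) * ((n : ℝ) ^ r / r) := by simp
      _ ≤ (n : ℝ) ^ 2 * ((n : ℝ) ^ r / r) := by
          gcongr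
          exact card_PP n
      _ = ∑ _R : Fin r → Fin n, (n : ℝ) ^ 2 / r := by
          simp
          ring
  obtain ⟨R, _, hR⟩ := Finset.exists_le_of_sum_le (Finset.univ_nonempty) h1
  exact ⟨R, hR⟩

/-- the product over pairs is controlled by the sampled product -/
lemma prod_le {n m : ℕ} (hn : 0 < n) (hm : 0 < m) (G : SimpleGraph (Fin n)) (η : ℝ) (hη : 0 < η) :
    ∃ R : Fin (m ^ 2) → Fin n,
      ∏ p : PP n, phi G p ≤ Real.exp ((n : ℝ) ^ 2 / (η * m)) *
        ∏ p : PP n, (psi (sa G R) p (ad G p.1.1 p.1.2) + η) := by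
  obtain ⟨R, hR⟩ := exists_ref hn (pow_pos hm 2) G
  refine ⟨R, ?_⟩
  have hmp : (0 : ℝ) < m := by positivity
  have hnp : (0 : ℝ) < n := by positivity
  set d : PP n → ℝ := fun p => |psi (sa G R) p (ad G p.1.1 p.1.2) - phi G p| with hd
  have hd0 : ∀ p, 0 ≤ d p := fun p => abs_nonneg _
  have hsum : ∑ p, d p ≤ (n : ℝ) ^ 2 / m := by
    have hcs := sq_sum_le_card_mul_sum_sq (s := (Finset.univ : Finset (PP n))) (f := d)
    have h1 : ∑ p, d p ^ 2 ≤ (n : ℝ) ^ 2 / ((m ^ 2 : ℕ) : ℝ) := by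
      simpa [hd, sq_abs] using hR
    have h2 : (∑ p, d p) ^ 2 ≤ ((n : ℝ) ^ 2 / m) ^ 2 := by
      calc (∑ p, d p) ^ 2 ≤ (Finset.card (Finset.univ : Finset (PP n)) : ℝ) * ∑ p, d p ^ 2 := by
            exact_mod_cast hcs
        _ ≤ (n : ℝ) ^ 2 * ((n : ℝ) ^ 2 / ((m ^ 2 : ℕ) : ℝ)) := by
            gcongr
            exact card_PP n
        _ = ((n : ℝ) ^ 2 / m) ^ 2 := by push_cast; field_simp
    exact (sq_le_sq₀ (Finset.sum_nonneg fun p _ => hd0 p) (by positivity)).mp h2
  have hfac : ∀ p : PP n, phi G p ≤ Real.exp (d p / η) * (psi (sa G R) p (ad G p.1.1 p.1.2) + η) := by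
    intro p
    have h0 := psi_nonneg (sa G R) p (ad G p.1.1 p.1.2)
    have h1 : phi G p ≤ psi (sa G R) p (ad G p.1.1 p.1.2) + d p := by
      have := neg_abs_le (psi (sa G R) p (ad G p.1.1 p.1.2) - phi G p)
      simp only [hd]; linarith
    have h2 : d p / η + 1 ≤ Real.exp (d p / η) := Real.add_one_le_exp _
    have h3 : psi (sa G R) p (ad G p.1.1 p.1.2) + d p
        ≤ (d p / η + 1) * (psi (sa G R) p (ad G p.1.1 p.1.2) + η) := by
      have h4 : (d p / η + 1) * (psi (sa G R) p (ad G p.1.1 p.1.2) + η)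
          = psi (sa G R) p (ad G p.1.1 p.1.2) + d p + η
            + d p / η * psi (sa G R) p (ad G p.1.1 p.1.2) := by
        field_simp; ring
      rw [h4]
      have h5 : 0 ≤ d p / η * psi (sa G R) p (ad G p.1.1 p.1.2) :=
        mul_nonneg (div_nonneg (hd0 p) hη.le) h0
      linarith
    calc phi G p ≤ (d p / η + 1) * (psi (sa G R) p (ad G p.1.1 p.1.2) + η) := h1.trans h3
      _ ≤ Real.exp (d p / η) * (psi (sa G R) p (ad G p.1.1 p.1.2) + η) := by
          apply mul_le_mul_of_nonneg_right h2; linarith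
  calc ∏ p : PP n, phi G p
      ≤ ∏ p : PP n, (Real.exp (d p / η) * (psi (sa G R) p (ad G p.1.1 p.1.2) + η)) :=
        Finset.prod_le_prod (fun p _ => phi_nonneg G p) (fun p _ => hfac p)
    _ = Real.exp ((∑ p, d p) / η) * ∏ p : PP n, (psi (sa G R) p (ad G p.1.1 p.1.2) + η) := by
        rw [Finset.prod_mul_distrib, ← Real.exp_sum, Finset.sum_div]
    _ ≤ Real.exp ((n : ℝ) ^ 2 / (η * m)) * ∏ p : PP n, (psi (sa G R) p (ad G p.1.1 p.1.2) + η) := by
        apply mul_le_mul_of_nonneg_right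
        · apply Real.exp_le_exp.mpr
          calc (∑ p, d p) / η ≤ ((n : ℝ) ^ 2 / m) / η := by gcongr
            _ = (n : ℝ) ^ 2 / (η * m) := by field_simp
        · exact Finset.prod_nonneg fun p _ => by
            have := psi_nonneg (sa G R) p (ad G p.1.1 p.1.2); linarith

/-- a graph as a Boolean function on pairs -/
noncomputable def enc {n : ℕ} (G : SimpleGraph (Fin n)) : PP n → Bool := fun p => ad G p.1.1 p.1.2

lemma enc_inj {n : ℕ} : Function.Injective (enc (n := n)) := by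
  intro G H h
  have key : ∀ i j : Fin n, i < j → (G.Adj i j ↔ H.Adj i j) := by
    intro i j hij
    have := congrFun h ⟨(i, j), hij⟩
    simpa [enc, ad] using this
  ext i j
  rcases lt_trichotomy i j with h1 | h1 | h1
  · exact key i j h1
  · subst h1; simp
  · rw [G.adj_comm, H.adj_comm]; exact key j i h1

lemma sum_graph_le {n : ℕ} (F : PP n → Bool → ℝ) (hF : ∀ p b, 0 ≤ F p b) :
    ∑ G : SimpleGraph (Fin n), ∏ p : PP n, F p (ad G p.1.1 p.1.2)
      ≤ ∏ p : PP n, (F p true + F p false) := by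
  have h1 : ∏ p : PP n, (F p true + F p false) = ∑ g : PP n → Bool, ∏ p, F p (g p) := by
    have := Finset.prod_univ_sum (fun _ : PP n => (Finset.univ : Finset Bool)) (fun p b => F p b)
    simp only [Fintype.piFinset_univ, Fintype.sum_bool] at this
    exact this
  rw [h1]
  calc ∑ G : SimpleGraph (Fin n), ∏ p : PP n, F p (ad G p.1.1 p.1.2)
      = ∑ G : SimpleGraph (Fin n), (fun g : PP n → Bool => ∏ p, F p (g p)) (enc G) := rfl
    _ = ∑ g ∈ Finset.univ.image (enc (n := n)), ∏ p, F p (g p) := by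
        rw [Finset.sum_image (fun x _ y _ h => enc_inj h)]
    _ ≤ ∑ g : PP n → Bool, ∏ p, F p (g p) :=
        Finset.sum_le_sum_of_subset_of_nonneg (Finset.subset_univ _)
          (fun g _ _ => Finset.prod_nonneg fun p _ => hF _ _)

lemma main_bound {n m : ℕ} (hn : 0 < n) (hm : 0 < m) (η : ℝ) (hη : 0 < η) :
    ∑ G : SimpleGraph (Fin n), ∏ p : PP n, phi G p
      ≤ Real.exp ((n : ℝ) ^ 2 / (η * m)) * ((n : ℝ) ^ (m ^ 2) * (2 ^ (m ^ 2 * n) * (1 + 2 * η) ^ (n ^ 2))) := by
  set E := Real.exp ((n : ℝ) ^ 2 / (η * m)) with hE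
  have hE0 : 0 ≤ E := (Real.exp_pos _).le
  have hnn : ∀ (a : Fin (m ^ 2) → Fin n → Bool) (p : PP n) (b : Bool), 0 ≤ psi a p b + η := by
    intro a p b; have := psi_nonneg a p b; linarith
  have h1 : ∀ G : SimpleGraph (Fin n), ∏ p : PP n, phi G p
      ≤ E * ∑ _R : Fin (m ^ 2) → Fin n, ∑ a : Fin (m ^ 2) → Fin n → Bool,
        ∏ p : PP n, (psi a p (ad G p.1.1 p.1.2) + η) := by
    intro G
    obtain ⟨R, hR⟩ := prod_le hn hm G η hη
    refine hR.trans (mul_le_mul_of_nonneg_left ?_ hE0)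
    calc ∏ p : PP n, (psi (sa G R) p (ad G p.1.1 p.1.2) + η)
        ≤ ∑ a : Fin (m ^ 2) → Fin n → Bool, ∏ p : PP n, (psi a p (ad G p.1.1 p.1.2) + η) :=
          Finset.single_le_sum
            (f := fun a : Fin (m ^ 2) → Fin n → Bool => ∏ p : PP n, (psi a p (ad G p.1.1 p.1.2) + η))
            (fun a _ => Finset.prod_nonneg fun p _ => hnn a p _) (Finset.mem_univ _)
      _ ≤ ∑ _R : Fin (m ^ 2) → Fin n, ∑ a : Fin (m ^ 2) → Fin n → Bool,
          ∏ p : PP n, (psi a p (ad G p.1.1 p.1.2) + η) :=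
          Finset.single_le_sum
            (f := fun _R : Fin (m ^ 2) → Fin n => ∑ a : Fin (m ^ 2) → Fin n → Bool,
              ∏ p : PP n, (psi a p (ad G p.1.1 p.1.2) + η))
            (fun _ _ => Finset.sum_nonneg fun a _ => Finset.prod_nonneg fun p _ => hnn a p _)
            (Finset.mem_univ R)
  calc ∑ G : SimpleGraph (Fin n), ∏ p : PP n, phi G p
      ≤ ∑ G : SimpleGraph (Fin n), E * ∑ _R : Fin (m ^ 2) → Fin n,
          ∑ a : Fin (m ^ 2) → Fin n → Bool, ∏ p : PP n, (psi a p (ad G p.1.1 p.1.2) + η) :=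
        Finset.sum_le_sum fun G _ => h1 G
    _ = E * ((n : ℝ) ^ (m ^ 2) * ∑ a : Fin (m ^ 2) → Fin n → Bool,
          ∑ G : SimpleGraph (Fin n), ∏ p : PP n, (psi a p (ad G p.1.1 p.1.2) + η)) := by
        rw [← Finset.mul_sum]
        congr 1
        rw [Finset.sum_comm (s := (Finset.univ : Finset (Fin (m ^ 2) → Fin n → Bool)))]
        simp only [Finset.sum_const, Finset.card_univ, Fintype.card_fun, Fintype.card_fin,
          nsmul_eq_mul, Nat.cast_pow]
        rw [← Finset.mul_sum]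
    _ ≤ E * ((n : ℝ) ^ (m ^ 2) * (2 ^ (m ^ 2 * n) * (1 + 2 * η) ^ (n ^ 2))) := by
        gcongr
        calc ∑ a : Fin (m ^ 2) → Fin n → Bool,
              ∑ G : SimpleGraph (Fin n), ∏ p : PP n, (psi a p (ad G p.1.1 p.1.2) + η)
            ≤ ∑ _a : Fin (m ^ 2) → Fin n → Bool, (1 + 2 * η) ^ (n ^ 2) := by
              refine Finset.sum_le_sum fun a _ => ?_
              refine (sum_graph_le (fun p b => psi a p b + η) (fun p b => hnn a p b)).trans ?_
              have : ∀ p : PP n, (psi a p true + η) + (psi a p false + η) = 1 + 2 * η := by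
                intro p; have := psi_add (pow_pos hm 2) a p; linarith
              simp_rw [this]
              rw [Finset.prod_const]
              apply pow_le_pow_right₀ (by linarith)
              have h := Fintype.card_subtype_le (fun p : Fin n × Fin n => p.1 < p.2)
              rw [Fintype.card_prod, Fintype.card_fin] at h
              rw [Finset.card_univ, pow_two]
              exact h
          _ = 2 ^ (m ^ 2 * n) * (1 + 2 * η) ^ (n ^ 2) := by
              simp [Fintype.card_fun, ← pow_mul]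
              left
              ring

/-- every factor of the frozen product is at most `phi`. -/
lemma factor_le {n : ℕ} (hn : 3 ≤ n) (G : SimpleGraph (Fin n)) (i j : Fin n) (hij : i < j) :
    (((Finset.univ.filter (fun k : Fin n => k ≠ i ∧ k ≠ j ∧
                Even ((if G.Adj i j then 1 else 0) + (if G.Adj i k then 1 else 0)
                  + (if G.Adj j k then 1 else 0) : ℕ))).card : ℝ) / ((n : ℝ) - 2))
      ≤ phi G ⟨(i, j), hij⟩ := by
  set S := Finset.univ.filter (fun k : Fin n => k ≠ i ∧ k ≠ j ∧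
                Even ((if G.Adj i j then 1 else 0) + (if G.Adj i k then 1 else 0)
                  + (if G.Adj j k then 1 else 0) : ℕ)) with hS
  have hne : i ≠ j := ne_of_lt hij
  have hsub : S ⊆ (Finset.univ.erase i).erase j := by
    intro k hk
    rw [hS, Finset.mem_filter] at hk
    simp [hk.2.1, hk.2.2.1]
  have hc1 : S.card ≤ n - 2 := by
    have := Finset.card_le_card hsub
    rw [Finset.card_erase_of_mem, Finset.card_erase_of_mem (Finset.mem_univ _)] at this
    · simp at this; omega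
    · simp [hne.symm]
  have hc1' : (S.card : ℝ) + 2 ≤ n := by
    have : S.card + 2 ≤ n := by omega
    exact_mod_cast this
  have hn' : (3 : ℝ) ≤ n := by exact_mod_cast hn
  have hcard : (S.card : ℝ) + 2 ≤ ∑ k, ind (ad G i j) (ad G k i) (ad G k j) := by
    have h1 : ∑ k, ind (ad G i j) (ad G k i) (ad G k j)
        = ((Finset.univ.filter (fun k : Fin n => Even ((ad G i j).toNat + (ad G k i).toNat
            + (ad G k j).toNat))).card : ℝ) := by
      unfold ind
      rw [Finset.sum_boole]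
    rw [h1]
    have h2 : insert i (insert j S) ⊆ Finset.univ.filter (fun k : Fin n =>
        Even ((ad G i j).toNat + (ad G k i).toNat + (ad G k j).toNat)) := by
      intro k hk
      rw [Finset.mem_insert, Finset.mem_insert] at hk
      rw [Finset.mem_filter]
      refine ⟨Finset.mem_univ _, ?_⟩
      rcases hk with rfl | rfl | hk
      · by_cases h : G.Adj k j <;> simp [ad, h] 
      · by_cases h : G.Adj k i
        · have h' : G.Adj i k := h.symm
          simp [ad, h, h']
        · have h' : ¬ G.Adj i k := fun h2 => h h2.symm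
          simp [ad, h, h']
      · rw [hS, Finset.mem_filter] at hk
        have := hk.2.2.2
        have e1 : (ad G i j).toNat = if G.Adj i j then 1 else 0 := by
          by_cases h : G.Adj i j <;> simp [ad, h]
        have e2 : (ad G k i).toNat = if G.Adj i k then 1 else 0 := by
          by_cases h : G.Adj i k
          · simp [ad, h, h.symm]
          · have h' : ¬ G.Adj k i := fun h2 => h h2.symm
            simp [ad, h, h']
        have e3 : (ad G k j).toNat = if G.Adj j k then 1 else 0 := by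
          by_cases h : G.Adj j k
          · simp [ad, h, h.symm]
          · have h' : ¬ G.Adj k j := fun h2 => h h2.symm
            simp [ad, h, h']
        rw [e1, e2, e3]; exact this
    have h3 := Finset.card_le_card h2
    have hj : j ∉ S := by rw [hS]; simp
    have hi : i ∉ insert j S := by rw [hS]; simp [hne]
    rw [Finset.card_insert_of_notMem hi, Finset.card_insert_of_notMem hj] at h3
    have h4 : S.card + 2 ≤ (Finset.univ.filter (fun k : Fin n =>
        Even ((ad G i j).toNat + (ad G k i).toNat + (ad G k j).toNat))).card := by omega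
    exact_mod_cast h4
  have hphi : phi G ⟨(i, j), hij⟩ = (∑ k, ind (ad G i j) (ad G k i) (ad G k j)) / n := rfl
  rw [hphi]
  calc (S.card : ℝ) / ((n : ℝ) - 2) ≤ ((S.card : ℝ) + 2) / n := by
        rw [div_le_div_iff₀ (by linarith) (by linarith)]
        nlinarith
    _ ≤ (∑ k, ind (ad G i j) (ad G k i) (ad G k j)) / n := by gcongr

lemma lhs_le {n : ℕ} (hn : 3 ≤ n) (G : SimpleGraph (Fin n)) :
    (∏ i : Fin n, ∏ j : Fin n,
          (if i < j then
            (((Finset.univ.filter (fun k : Fin n => k ≠ i ∧ k ≠ j ∧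
                Even ((if G.Adj i j then 1 else 0) + (if G.Adj i k then 1 else 0)
                  + (if G.Adj j k then 1 else 0) : ℕ))).card : ℝ) / ((n : ℝ) - 2))
          else 1)) ≤ ∏ p : PP n, phi G p := by
  rw [← Finset.prod_product', ← Finset.prod_filter]
  have hn' : (3 : ℝ) ≤ n := by exact_mod_cast hn
  rw [Finset.prod_subtype (p := fun p : Fin n × Fin n => p.1 < p.2)
    (Finset.filter (fun p : Fin n × Fin n => p.1 < p.2) (Finset.univ ×ˢ Finset.univ))
    (by intro x; simp)]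
  refine Finset.prod_le_prod (fun p _ => ?_) (fun p _ => ?_)
  · apply div_nonneg
    · positivity
    · linarith
  · exact factor_le hn G p.1.1 p.1.2 p.2

/-- For every ε>0 and all large n, summing over all graphs on n vertices the product over pairs i<j of the fraction of other vertices k with an even number of edges in triangle ijk gives at most 2^(εn²). -/
theorem result :
    ∀ ε : ℝ, 0 < ε → ∃ N : ℕ, ∀ n : ℕ, N ≤ n →
      (∑ G : SimpleGraph (Fin n),
        ∏ i : Fin n, ∏ j : Fin n,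
          (if i < j then
            (((Finset.univ.filter (fun k : Fin n => k ≠ i ∧ k ≠ j ∧
                Even ((if G.Adj i j then 1 else 0) + (if G.Adj i k then 1 else 0)
                  + (if G.Adj j k then 1 else 0) : ℕ))).card : ℝ) / ((n : ℝ) - 2))
          else 1)) ≤ (2 : ℝ) ^ (ε * (n : ℝ) ^ 2) := by
  intro ε hε
  set η : ℝ := ε / 12 with hηdef
  have hη : 0 < η := by positivity
  obtain ⟨m, hm⟩ := exists_nat_gt (1 / (η * η))
  have hm0 : 0 < m := by
    rcases Nat.eq_zero_or_pos m with h | h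
    · subst h
      have : (0 : ℝ) < 1 / (η * η) := by positivity
      simp at hm; nlinarith
    · exact h
  have hmp : (0 : ℝ) < m := by exact_mod_cast hm0
  obtain ⟨N, hN⟩ := exists_nat_gt (8 * (m : ℝ) ^ 2 / ε)
  refine ⟨max N 3, fun n hn => ?_⟩
  have hn3 : 3 ≤ n := le_trans (le_max_right _ _) hn
  have hnN : N ≤ n := le_trans (le_max_left _ _) hn
  have hn0 : 0 < n := by omega
  have hnp : (0 : ℝ) < n := by exact_mod_cast hn0
  have hnN' : 8 * (m : ℝ) ^ 2 / ε < n := lt_of_lt_of_le hN (by exact_mod_cast hnN)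
  have hkey : 8 * (m : ℝ) ^ 2 < ε * n := by
    rw [div_lt_iff₀ hε] at hnN'; linarith
  have step1 : (∑ G : SimpleGraph (Fin n),
        ∏ i : Fin n, ∏ j : Fin n,
          (if i < j then
            (((Finset.univ.filter (fun k : Fin n => k ≠ i ∧ k ≠ j ∧
                Even ((if G.Adj i j then 1 else 0) + (if G.Adj i k then 1 else 0)
                  + (if G.Adj j k then 1 else 0) : ℕ))).card : ℝ) / ((n : ℝ) - 2))
          else 1)) ≤ ∑ G : SimpleGraph (Fin n), ∏ p : PP n, phi G p :=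
    Finset.sum_le_sum fun G _ => lhs_le hn3 G
  refine step1.trans ((main_bound hn0 hm0 η hη).trans ?_)
  -- numeric estimate
  have e1 : (n : ℝ) ^ 2 / (η * m) ≤ η * (n : ℝ) ^ 2 := by
    rw [div_le_iff₀ (by positivity)]
    have h1 : 1 < m * (η * η) := by
      rw [div_lt_iff₀ (by positivity)] at hm; exact hm
    nlinarith [sq_nonneg (n : ℝ), pow_pos hnp 2]
  have e2 : (1 + 2 * η) ^ (n ^ 2) ≤ Real.exp (2 * η * (n : ℝ) ^ 2) := by
    calc (1 + 2 * η) ^ (n ^ 2) ≤ (Real.exp (2 * η)) ^ (n ^ 2) := by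
          apply pow_le_pow_left₀ (by linarith)
          have := Real.add_one_le_exp (2 * η); linarith
      _ = Real.exp (2 * η * (n : ℝ) ^ 2) := by
          rw [← Real.exp_nat_mul]; push_cast; ring_nf
  have e3 : (n : ℝ) ^ (m ^ 2) ≤ 2 ^ (m ^ 2 * n) := by
    have : (n : ℝ) ≤ 2 ^ n := by exact_mod_cast (Nat.lt_two_pow_self (n := n)).le
    calc (n : ℝ) ^ (m ^ 2) ≤ (2 ^ n) ^ (m ^ 2) := by gcongr
      _ = 2 ^ (m ^ 2 * n) := by rw [← pow_mul, mul_comm]
  have e4 : ((2 : ℝ) ^ (m ^ 2 * n)) = Real.exp ((m : ℝ) ^ 2 * n * Real.log 2) := by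
    rw [show (m : ℝ) ^ 2 * n * Real.log 2 = ((m ^ 2 * n : ℕ) : ℝ) * Real.log 2 by push_cast; ring,
      Real.exp_nat_mul, Real.exp_log (by norm_num)]
  have e5 : (2 : ℝ) ^ (ε * (n : ℝ) ^ 2) = Real.exp (Real.log 2 * (ε * (n : ℝ) ^ 2)) :=
    Real.rpow_def_of_pos (by norm_num) _
  have hl1 : (1 : ℝ) / 2 < Real.log 2 := by have := Real.log_two_gt_d9; linarith
  have hl2 : Real.log 2 < 1 := by have := Real.log_two_lt_d9; linarith
  calc Real.exp ((n : ℝ) ^ 2 / (η * m)) * ((n : ℝ) ^ (m ^ 2) * (2 ^ (m ^ 2 * n) * (1 + 2 * η) ^ (n ^ 2)))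
      ≤ Real.exp (η * (n : ℝ) ^ 2) * (2 ^ (m ^ 2 * n) * (2 ^ (m ^ 2 * n) *
          Real.exp (2 * η * (n : ℝ) ^ 2))) := by
        gcongr
    _ = Real.exp (η * (n : ℝ) ^ 2 + ((m : ℝ) ^ 2 * n * Real.log 2 + ((m : ℝ) ^ 2 * n * Real.log 2
          + 2 * η * (n : ℝ) ^ 2))) := by
        rw [e4, Real.exp_add, Real.exp_add, Real.exp_add]
    _ ≤ Real.exp (Real.log 2 * (ε * (n : ℝ) ^ 2)) := by
        apply Real.exp_le_exp.mpr
        have h1 : (m : ℝ) ^ 2 * n * Real.log 2 ≤ (m : ℝ) ^ 2 * n := by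
          have : 0 ≤ (m : ℝ) ^ 2 * n := by positivity
          nlinarith
        have h2 : 8 * (m : ℝ) ^ 2 * n ≤ ε * (n : ℝ) ^ 2 := by nlinarith
        have h3 : η * (n : ℝ) ^ 2 = ε * (n : ℝ) ^ 2 / 12 := by rw [hηdef]; ring
        have h4 : 0 < ε * (n : ℝ) ^ 2 := by positivity
        nlinarith
    _ = (2 : ℝ) ^ (ε * (n : ℝ) ^ 2) := e5.symm

end Pool.Agent.S11885
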