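import Pool.Statements.S11888
import Pool.Agent.Results.MP_dd77b8_co.RobustDisproof

set_option autoImplicit false
open Pool Pool.MP_dd77b8_co

namespace Pool.Agent.S11888

namespace R
export Pool.Agent.Results.MP_dd77b8_co.RobustDisproof (X prodFun Sets result)
end R

theorem prod_eq {n : ℕ} (g : Finset (Fin n) → ℝ) (T : R.Sets n 4) :
    ∏ S ∈ T.1.powersetCard 3, g S = ∏ S : R.Sets n 3 with S.1 ⊆ T.1, g S.1 := by
  classical
  symm
  refine Finset.prod_bij (fun S _ => S.1) ?_ ?_ ?_ ?_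
  · intro S hS
    rw [Finset.mem_powersetCard]
    exact ⟨(Finset.mem_filter.1 hS).2, S.2⟩
  · intro S _ S' _ h
    exact Subtype.ext h
  · intro S hS
    rw [Finset.mem_powersetCard] at hS
    exact ⟨⟨S, hS.2⟩, Finset.mem_filter.2 ⟨Finset.mem_univ _, hS.1⟩, rfl⟩
  · intro S _
    rfl

theorem X_eq (n : ℕ) : R.X n = {f | ∃ g : Finset (Fin n) → ℝ,
    f = WithLp.toLp 2 (fun T : {T : Finset (Fin n) // T.card = 4} =>
      ∏ S ∈ T.1.powersetCard 3, g S) ∧ ‖f‖ = 1} := by
  classical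
  ext f
  constructor
  · rintro ⟨⟨g, hg⟩, hf⟩
    refine ⟨fun S => if h : S.card = 3 then g ⟨S, h⟩ else 0, ?_, hf⟩
    rw [hg]
    unfold R.prodFun
    congr 1
    funext T
    rw [prod_eq]
    refine Finset.prod_congr rfl fun S _ => ?_
    rw [dif_pos S.2]
  · rintro ⟨g, hg, hf⟩
    refine ⟨⟨fun S => g S.1, ?_⟩, hf⟩
    rw [hg]
    unfold R.prodFun
    congr 1
    funext T
    rw [prod_eq]

/-- The negation of the preceding statement: For all large n, any way of writing the unit-norm vectors f_g of U_{4,n} in R^{C(n,4)} as a union of m sets, each of diameter below that of the whole set, needs m ≥ exp(C(n,4)^{4/5}). -/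
theorem result :
    ¬ (∃ N : ℕ, ∀ n : ℕ, N ≤ n →
      ∀ X : Set (EuclideanSpace ℝ {T : Finset (Fin n) // T.card = 4}),
        X = {f | ∃ g : Finset (Fin n) → ℝ,
              f = WithLp.toLp 2 (fun T : {T : Finset (Fin n) // T.card = 4} =>
                    ∏ S ∈ T.1.powersetCard 3, g S) ∧ ‖f‖ = 1} →
        ∀ m : ℕ, ∀ A : Fin m → Set (EuclideanSpace ℝ {T : Finset (Fin n) // T.card = 4}),
          (⋃ i, A i) = X →
          (∀ i, Metric.diam (A i) < Metric.diam X) →
          Real.exp (((n.choose 4 : ℕ) : ℝ) ^ ((4 : ℝ) / 5)) ≤ (m : ℝ)) := by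
  rintro ⟨N, hN⟩
  set n := max N 100 with hn
  have hn1 : N ≤ n := le_max_left _ _
  have hn2 : 100 ≤ n := le_max_right _ _
  obtain ⟨h1, h2, -, -⟩ := R.result n hn2
  obtain ⟨b, hb, hlt⟩ := h1 (R.X n) (subset_refl _) h2
  obtain ⟨B, hB, hd⟩ := hb.1
  have h3 := hN n hn1 (R.X n) (X_eq n) b B hB.symm hd
  exact absurd hlt (not_lt.2 h3)

end Pool.Agent.S11888
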