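import Pool.Statements.S12030
import Pool.Agent.Y420.CosetUnion

set_option autoImplicit false
open Pool Pool.MP_e2957e_co

namespace Pool.Agent.S12030

open Pool.Agent.Y420 in
/-- The negation of the preceding statement: There is an absolute C₁>0 such that any A⊂S_n of size c(n−1)! whose transposition-graph edge boundary is at most ∣A∣(n!−∣A∣)/(n−1)!+δn∣A∣ lies within symmetric difference C₁cδ(n−1)! of a union of c distinct 1-cosets {σ: σ(i)=j}. -/
theorem result :
    ¬ (∃ C₁ : ℝ, 0 < C₁ ∧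
      ∀ (n : ℕ), 1 ≤ n →
      ∀ (c : ℕ) (δ : ℝ), 0 ≤ δ →
      ∀ A : Finset (Equiv.Perm (Fin n)),
        A.card = c * Nat.factorial (n - 1) →
        ((((A ×ˢ (Finset.univ.filter (fun p : Fin n × Fin n => p.1 < p.2))).filter
            (fun x => x.1 * Equiv.swap x.2.1 x.2.2 ∉ A)).card : ℕ) : ℝ)
          ≤ (A.card : ℝ) * ((Nat.factorial n : ℝ) - (A.card : ℝ)) / (Nat.factorial (n - 1) : ℝ)
            + δ * (n : ℝ) * (A.card : ℝ) →
        ∃ P : Finset (Fin n × Fin n), P.card = c ∧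
          ((symmDiff A (Finset.univ.filter (fun σ : Equiv.Perm (Fin n) => ∃ p ∈ P, σ p.1 = p.2))).card : ℝ)
            ≤ C₁ * (c : ℝ) * δ * (Nat.factorial (n - 1) : ℝ)) := by
  rintro ⟨C, hC, h⟩
  obtain ⟨K, hK⟩ := exists_nat_ge (2 * C + 1)
  set m : ℕ := K ^ 2 + 2 * K + 2 with hm
  have hcard : (cex (m + 1)).card = (m + 1) * (m + 2).factorial := card_cex (m + 1)
  have hf2 : (0 : ℝ) < ((m + 2).factorial : ℝ) := by exact_mod_cast Nat.factorial_pos _
  have hf3 : ((m + 3).factorial : ℝ) = (m + 3) * (m + 2).factorial := by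
    rw [Nat.factorial_succ (m + 2)]; push_cast; ring
  obtain ⟨P, hP, hfar⟩ := h (m + 3) (by omega) (m + 1) (2 / ((m + 3) * (m + 1))) (by positivity)
    (cex (m + 1)) hcard (by
      have hb := boundary_le (m + 1)
      have hb' := (Nat.cast_le (α := ℝ)).2 hb
      refine hb'.trans ?_
      rw [hcard]
      have e : m + 3 - 1 = m + 2 := rfl
      have e1 : m + 1 + 1 = m + 2 := rfl
      rw [e, e1, hf3]
      push_cast
      have h1 : ((m : ℝ) + 1) * ((m + 2).factorial : ℝ)
          * ((m + 3) * ((m + 2).factorial : ℝ) - (m + 1) * ((m + 2).factorial : ℝ))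
          / ((m + 2).factorial : ℝ) = 2 * ((m + 1) * ((m + 2).factorial : ℝ)) := by
        field_simp
        ring
      have h2 : 2 / (((m : ℝ) + 3) * (m + 1)) * (m + 3) * ((m + 1) * ((m + 2).factorial : ℝ))
          = 2 * ((m + 2).factorial : ℝ) := by
        field_simp
      rw [h1, h2])
  have hlow := far m K P (by rw [hP]; nlinarith)
  have hlow' := (Nat.cast_le (α := ℝ)).2 hlow
  push_cast at hlow' hfar
  have hf1 : ((m + 1).factorial : ℝ) = (m + 1) * m.factorial := by
    rw [Nat.factorial_succ m]; push_cast; ring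
  have hf2' : ((m + 2).factorial : ℝ) = (m + 2) * ((m + 1) * m.factorial) := by
    rw [Nat.factorial_succ (m + 1), ← hf1]; push_cast; ring
  have hf0 : (0 : ℝ) < (m.factorial : ℝ) := by exact_mod_cast Nat.factorial_pos _
  have hup : C * ((m : ℝ) + 1) * (2 / ((m + 3) * (m + 1))) * ((m + 2).factorial : ℝ)
      ≤ 2 * C * ((m + 1) * m.factorial) := by
    rw [hf2']
    have h3 : C * ((m : ℝ) + 1) * (2 / ((m + 3) * (m + 1))) * ((m + 2) * ((m + 1) * (m.factorial : ℝ)))
        = 2 * C * ((m + 1) * m.factorial) * ((m + 2) / (m + 3)) := by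
      field_simp
    rw [h3]
    have h4 : ((m : ℝ) + 2) / (m + 3) ≤ 1 := by
      rw [div_le_one (by positivity)]; linarith
    have h5 : 0 ≤ 2 * C * (((m : ℝ) + 1) * m.factorial) := by positivity
    nlinarith
  have h6 : (K : ℝ) * ((m + 1) * m.factorial) ≤ 2 * C * ((m + 1) * m.factorial)
      + K ^ 2 * m.factorial := by
    rw [← hf1] at hup ⊢
    linarith
  have h7 : ((K : ℝ) * (m + 1)) * m.factorial ≤ (2 * C * (m + 1) + K ^ 2) * m.factorial := by
    linarith
  have h8 := le_of_mul_le_mul_right h7 hf0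
  have hmR : (m : ℝ) = K ^ 2 + 2 * K + 2 := by rw [hm]; push_cast; ring
  have h9 : (0 : ℝ) ≤ K := Nat.cast_nonneg K
  have h10 : ((m : ℝ) + 1) ≤ (K - 2 * C) * (m + 1) := by
    have : (1 : ℝ) ≤ K - 2 * C := by linarith
    have h11 : (0 : ℝ) ≤ (m : ℝ) + 1 := by positivity
    nlinarith
  nlinarith

end Pool.Agent.S12030
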