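import Pool.Statements.S12060
import Pool.Agent.Results.MP_e3c312_co.CuspSymmetry

set_option autoImplicit false
open Pool Pool.MP_e3c312_co

namespace Pool.Agent.S12060

open Pool.Agent.Results.MP_e3c312_co.CuspSymmetry
open scoped Topology unitInterval

noncomputable section

/-- congruence of placements of seven points -/
abbrev Rl : (Fin 7 → EuclideanSpace ℝ (Fin 3)) → (Fin 7 → EuclideanSpace ℝ (Fin 3)) → Prop :=
  fun q q' : Fin 7 → EuclideanSpace ℝ (Fin 3) =>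
    ∃ T : EuclideanSpace ℝ (Fin 3) ≃ᵢ EuclideanSpace ℝ (Fin 3), ∀ i, T (q i) = q' i

theorem rl_equiv : Equivalence Rl where
  refl := fun q => ⟨IsometryEquiv.refl _, fun _ => rfl⟩
  symm := by
    rintro q q' ⟨T, h⟩
    exact ⟨T.symm, fun i => by rw [← h i, T.symm_apply_apply]⟩
  trans := by
    rintro q q' q'' ⟨T, h⟩ ⟨T', h'⟩
    exact ⟨T.trans T', fun i => by rw [← h' i, ← h i]; rfl⟩

theorem mk_eq {q q' : Fin 7 → EuclideanSpace ℝ (Fin 3)} (h : Quot.mk Rl q = Quot.mk Rl q') :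
    Rl q q' := by
  have := Quot.eqvGen_exact h
  rwa [rl_equiv.eqvGen_iff] at this

theorem mk_cont : Continuous (Quot.mk Rl) := continuous_quot_mk

theorem ymem (y : Set.Ioo (0 : ℝ) 1) : (2 * (y : ℝ) - 1) / 10 ∈ Dom := by
  obtain ⟨y, h1, h2⟩ := y
  constructor <;> simp only <;> linarith

/-- the curve of classes -/
def cv (y : Set.Ioo (0 : ℝ) 1) : Quot Rl := Quot.mk Rl (std ((2 * (y : ℝ) - 1) / 10))

theorem cv_cont : Continuous cv := by
  unfold cv
  refine mk_cont.comp ?_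
  refine cont_std.comp_continuous (by fun_prop) ?_
  exact fun y => ymem y

def iv (q : Fin 7 → EuclideanSpace ℝ (Fin 3)) : ℝ := dist (q 2) (q 6) ^ 2 - dist (q 1) (q 6) ^ 2

theorem iv_congr (q q' : Fin 7 → EuclideanSpace ℝ (Fin 3)) (h : Rl q q') : iv q = iv q' := by
  obtain ⟨T, hT⟩ := h
  unfold iv
  rw [← hT 1, ← hT 2, ← hT 6, T.dist_eq, T.dist_eq]

theorem iv_cont : Continuous iv := by
  unfold iv
  exact (((continuous_apply 2).dist (continuous_apply 6)).pow 2).sub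
    (((continuous_apply 1).dist (continuous_apply 6)).pow 2)

def ivQ : Quot Rl → ℝ := Quot.lift iv iv_congr

theorem ivQ_cont : Continuous ivQ := iv_cont.quotient_lift (s := ⟨Rl, rl_equiv⟩) _

theorem ivQ_cv (y : Set.Ioo (0 : ℝ) 1) : ivQ (cv y) = 4 * fh ((2 * (y : ℝ) - 1) / 10) :=
  inv_std (ymem y)

theorem cv_isEmbedding : Topology.IsEmbedding cv := by
  refine Topology.IsEmbedding.of_comp cv_cont ivQ_cont ?_
  have hc : Continuous (ivQ ∘ cv) := ivQ_cont.comp cv_cont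
  have hm : StrictMono (ivQ ∘ cv) := by
    intro y y' h
    simp only [Function.comp, ivQ_cv]
    have h' : (2 * (y : ℝ) - 1) / 10 < (2 * (y' : ℝ) - 1) / 10 := by
      have : (y : ℝ) < y' := h
      linarith
    have := fh_strictMono (ymem y) (ymem y') h'
    linarith
  refine hm.isEmbedding_of_ordConnected ?_
  have : PreconnectedSpace (Set.Ioo (0 : ℝ) 1) :=
    Subtype.preconnectedSpace isPreconnected_Ioo
  exact (isPreconnected_range hc).ordConnected

/-- the local conditions -/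
def Nr (q : Fin 7 → EuclideanSpace ℝ (Fin 3)) : Prop :=
  0 < dist (q 1) (q 2) ∧ dist (q 1) (q 2) ^ 2 < 8 ∧
    |dist (q 3) (q 4) ^ 2 - 25| < 12 / 100 ∧ dist (q 3) (q 5) ^ 2 < 5661

theorem nr_congr (q q' : Fin 7 → EuclideanSpace ℝ (Fin 3)) (h : Rl q q') (hq : Nr q) :
    Nr q' := by
  obtain ⟨T, hT⟩ := h
  unfold Nr at *
  rw [← hT 1, ← hT 2, ← hT 3, ← hT 4, ← hT 5, T.dist_eq, T.dist_eq, T.dist_eq]
  exact hq

theorem nr_isOpen : IsOpen {q : Fin 7 → EuclideanSpace ℝ (Fin 3) | Nr q} := by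
  have e : ∀ i : Fin 7, Continuous fun q : Fin 7 → EuclideanSpace ℝ (Fin 3) => q i :=
    fun i => continuous_apply i
  have c12 := (e 1).dist (e 2)
  have c34 := (e 3).dist (e 4)
  have c35 := (e 3).dist (e 5)
  refine (isOpen_lt continuous_const c12).inter ((isOpen_lt (c12.pow 2) continuous_const).inter
    ((isOpen_lt ((c34.pow 2).sub continuous_const).abs continuous_const).inter
      (isOpen_lt (c35.pow 2) continuous_const)))

theorem nr_std {x : ℝ} (hx : x ∈ Dom) : Nr (std x) := by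
  obtain ⟨h12, h34, h35, _, _, _, _⟩ := (rel_std hx).nonedges
  change dist (std x 1) (std x 2) ^ 2 = _ at h12
  change dist (std x 3) (std x 4) ^ 2 = _ at h34
  change dist (std x 3) (std x 5) ^ 2 = _ at h35
  have hX := dom_X hx
  have hr := rel_std hx
  have hz0 := hr.z0
  have hz := hr.hz
  have hP := hr.hP
  have hP0 := hr.P0
  refine ⟨?_, ?_, ?_, ?_⟩
  · have : dist (std x 1) (std x 2) ≠ 0 := by
      intro h
      rw [h] at h12
      nlinarith
    positivity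
  · rw [h12]
    have h1 : fz (x ^ 2) ^ 2 < 2 := by
      by_contra hc
      push Not at hc
      have : 2 * (fP (x ^ 2)) ^ 2 ≤ fz (x ^ 2) ^ 2 * (fP (x ^ 2)) ^ 2 :=
        mul_le_mul_of_nonneg_right hc (sq_nonneg _)
      rw [hz, hP] at this
      nlinarith
    linarith
  · rw [h34]
    have : (0 : ℝ) ≤ x ^ 2 := sq_nonneg x
    rw [show 25 + 12 * x ^ 2 - 25 = 12 * x ^ 2 by ring, abs_of_nonneg (by positivity)]
    linarith
  · rw [h35]
    linarith

/-- the open set of classes -/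
def OO : Set (Quot Rl) := Quot.mk Rl '' {q | Nr q}

theorem OO_open : IsOpen OO := by
  refine isQuotientMap_quot_mk.isOpen_preimage.1 ?_
  convert nr_isOpen using 1
  ext q
  constructor
  · rintro ⟨q', hq', h⟩
    exact nr_congr q' q (mk_eq h) hq'
  · intro hq
    exact ⟨q, hq, rfl⟩

def SS : Set (Quot Rl) := {x | ∃ q : Fin 7 → EuclideanSpace ℝ (Fin 3), Quot.mk Rl q = x ∧
  ∀ i j : Fin 7, G7.Adj i j → dist (q i) (q j) = dist (p7 i) (p7 j)}

theorem range_cv : Set.range cv = OO ∩ SS := by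
  ext c
  constructor
  · rintro ⟨y, rfl⟩
    exact ⟨⟨_, nr_std (ymem y), rfl⟩, ⟨_, rfl, std_mem (ymem y)⟩⟩
  · rintro ⟨⟨q, ⟨h1, h2, h3, h4⟩, rfl⟩, ⟨q', hq', hq''⟩⟩
    obtain ⟨T0, hT0⟩ := mk_eq hq'
    have hq : ∀ i j : Fin 7, G7.Adj i j → dist (q i) (q j) = dist (p7 i) (p7 j) := by
      intro i j hij
      rw [← hT0, ← hT0, T0.dist_eq]
      exact hq'' i j hij
    obtain ⟨T, x, hx, hT⟩ := local_unique q hq h1 h2 h3 h4
    have hx10 : (10 * x + 1) / 2 ∈ Set.Ioo (0 : ℝ) 1 := by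
      obtain ⟨a, b⟩ := hx
      constructor <;> linarith
    refine ⟨⟨_, hx10⟩, ?_⟩
    refine Quot.sound ?_
    refine ⟨T.symm, fun i => ?_⟩
    show T.symm (std ((2 * ((10 * x + 1) / 2) - 1) / 10) i) = q i
    rw [show (2 * ((10 * x + 1) / 2) - 1) / 10 = x by ring, ← hT i, T.symm_apply_apply]

/-- the homeomorphism -/
def hh : ↥(OO ∩ SS) ≃ₜ ↥(Set.Ioo (0 : ℝ) 1) :=
  (Homeomorph.setCongr range_cv.symm).trans cv_isEmbedding.toHomeomorph.symm

theorem hh_symm (y : Set.Ioo (0 : ℝ) 1) : (hh.symm y).1 = cv y := rfl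

def autHom : GraphAut G7 →* Equiv.Perm (Fin 7) where
  toFun := fun a => RelIso.toEquiv a
  map_one' := rfl
  map_mul' := fun _ _ => rfl

def GamP : Subgroup (EuclideanSpace ℝ (Fin 3) ≃ᵢ EuclideanSpace ℝ (Fin 3)) := Gam

def thetaP : GamP →* Equiv.Perm (Fin 7) := autHom.comp theta

theorem finGam : Finite GamP := by
  have : Finite ({1, reflI} : Set (Isom 3)) := Set.toFinite _
  exact this

theorem mmem {t : ℝ} (ht : t ∈ Set.Icc (0 : ℝ) 1) : t / 2 / 10 ∈ Dom := by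
  obtain ⟨h1, h2⟩ := ht
  constructor <;> linarith

end

/-- The negation of the preceding statement: For any Γ-symmetric framework in ℝ^d, every expansive motion tracing one half-branch of a neighbourhood of [p] homeomorphic to an interval in the configuration space mod isometries can be moved by continuous isometries so it stays Γ-symmetric. -/
theorem result :
    ¬ (∀ (d : ℕ) (V : Type) [Fintype V] (G : SimpleGraph V) (p : V → EuclideanSpace ℝ (Fin d))
    (Γ : Subgroup (EuclideanSpace ℝ (Fin d) ≃ᵢ EuclideanSpace ℝ (Fin d))) [Finite Γ]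
    (θ : Γ →* Equiv.Perm V),
    (∀ γ : Γ, ∀ u v : V, G.Adj u v ↔ G.Adj (θ γ u) (θ γ v)) →
    (∀ γ : Γ, ∀ i : V,
      (γ : EuclideanSpace ℝ (Fin d) ≃ᵢ EuclideanSpace ℝ (Fin d)) (p i) = p (θ γ i)) →
    ∀ m : ℝ → V → EuclideanSpace ℝ (Fin d),
      ContinuousOn m (Set.Icc 0 1) → m 0 = p →
      (∀ t ∈ Set.Icc (0:ℝ) 1, ∀ i j : V, G.Adj i j → dist (m t i) (m t j) = dist (p i) (p j)) →
      (∀ i j : V, MonotoneOn (fun t => dist (m t i) (m t j)) (Set.Icc (0:ℝ) 1)) →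
      (∃ t ∈ Set.Icc (0:ℝ) 1, ∃ i j : V, dist (m t i) (m t j) ≠ dist (p i) (p j)) →
      Set.InjOn (fun t => Quot.mk (fun q q' : V → EuclideanSpace ℝ (Fin d) =>
          ∃ T : EuclideanSpace ℝ (Fin d) ≃ᵢ EuclideanSpace ℝ (Fin d), ∀ i, T (q i) = q' i) (m t))
        (Set.Icc (0:ℝ) 1) →
      (∃ O : Set (Quot (fun q q' : V → EuclideanSpace ℝ (Fin d) =>
          ∃ T : EuclideanSpace ℝ (Fin d) ≃ᵢ EuclideanSpace ℝ (Fin d), ∀ i, T (q i) = q' i)),
        IsOpen O ∧
        ∃ h : ↥(O ∩ {x : Quot (fun q q' : V → EuclideanSpace ℝ (Fin d) =>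
              ∃ T : EuclideanSpace ℝ (Fin d) ≃ᵢ EuclideanSpace ℝ (Fin d), ∀ i, T (q i) = q' i) |
              ∃ q : V → EuclideanSpace ℝ (Fin d),
                Quot.mk (fun q q' : V → EuclideanSpace ℝ (Fin d) =>
                  ∃ T : EuclideanSpace ℝ (Fin d) ≃ᵢ EuclideanSpace ℝ (Fin d), ∀ i, T (q i) = q' i) q = x ∧
                ∀ i j : V, G.Adj i j → dist (q i) (q j) = dist (p i) (p j)}) ≃ₜ ↥(Set.Ioo (0:ℝ) 1),
        ∃ a : Set.Ioo (0:ℝ) 1,
          (h.symm a).1 = Quot.mk (fun q q' : V → EuclideanSpace ℝ (Fin d) =>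
            ∃ T : EuclideanSpace ℝ (Fin d) ≃ᵢ EuclideanSpace ℝ (Fin d), ∀ i, T (q i) = q' i) p ∧
          ((∀ t ∈ Set.Ioc (0:ℝ) 1, ∃ b : Set.Ioo (0:ℝ) 1,
              (h.symm b).1 = Quot.mk (fun q q' : V → EuclideanSpace ℝ (Fin d) =>
                ∃ T : EuclideanSpace ℝ (Fin d) ≃ᵢ EuclideanSpace ℝ (Fin d), ∀ i, T (q i) = q' i) (m t) ∧
              (a : ℝ) < (b : ℝ)) ∨
           (∀ t ∈ Set.Ioc (0:ℝ) 1, ∃ b : Set.Ioo (0:ℝ) 1,
              (h.symm b).1 = Quot.mk (fun q q' : V → EuclideanSpace ℝ (Fin d) =>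
                ∃ T : EuclideanSpace ℝ (Fin d) ≃ᵢ EuclideanSpace ℝ (Fin d), ∀ i, T (q i) = q' i) (m t) ∧
              (b : ℝ) < (a : ℝ)))) →
      ∃ T : ℝ → (EuclideanSpace ℝ (Fin d) ≃ᵢ EuclideanSpace ℝ (Fin d)),
        (∀ x, T 0 x = x) ∧
        (∀ x, ContinuousOn (fun t => T t x) (Set.Icc (0:ℝ) 1)) ∧
        ∀ t ∈ Set.Icc (0:ℝ) 1, ∀ γ : Γ, ∀ i : V,
          (γ : EuclideanSpace ℝ (Fin d) ≃ᵢ EuclideanSpace ℝ (Fin d)) (T t (m t i))
            = T t (m t (θ γ i))) := by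
  intro H
  have := finGam
  obtain ⟨T, hT0, hTc, hTs⟩ := H 3 (Fin 7) G7 p7 GamP thetaP
    (by
      intro γ u v
      exact (RelIso.map_rel_iff (theta γ : G7 ≃g G7)).symm)
    (by
      intro γ i
      exact p7_symm γ i)
    (fun t => std (t / 2 / 10))
    (by
      refine cont_std.comp (by fun_prop) ?_
      intro t ht
      exact mmem ht)
    (by
      show std (0 / 2 / 10) = p7
      rw [show (0 : ℝ) / 2 / 10 = 0 by norm_num, std_zero])
    (by
      intro t ht i j hij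
      exact std_mem (mmem ht) i j hij)
    (by
      intro i j t ht t' ht' h
      exact std_dist_mono (by have := ht.1; positivity) (by linarith) (mmem ht) (mmem ht') i j)
    (by
      refine ⟨1, ⟨zero_le_one, le_rfl⟩, 3, 4, ?_⟩
      have h11 : (1 : ℝ) / 2 / 10 ∈ Dom := mmem ⟨zero_le_one, le_rfl⟩
      obtain ⟨_, h1, _⟩ := (rel_std h11).nonedges
      obtain ⟨_, h2, _⟩ := (rel_std zero_dom).nonedges
      intro h
      have h3 : dist (std (1 / 2 / 10) 3) (std (1 / 2 / 10) 4) ^ 2 =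
        dist (std 0 3) (std 0 4) ^ 2 := by
          rw [std_zero]
          rw [← h]
      have h4 := (h1.symm.trans h3).trans h2
      norm_num at h4)
    (by
      intro t ht t' ht' h
      have ht2 : (t / 2 + 1) / 2 ∈ Set.Ioo (0 : ℝ) 1 := by
        obtain ⟨a, b⟩ := ht
        constructor <;> linarith
      have ht2' : (t' / 2 + 1) / 2 ∈ Set.Ioo (0 : ℝ) 1 := by
        obtain ⟨a, b⟩ := ht'
        constructor <;> linarith
      have e1 : cv ⟨_, ht2⟩ = cv ⟨_, ht2'⟩ := by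
        unfold cv
        show Quot.mk Rl (std ((2 * ((t / 2 + 1) / 2) - 1) / 10)) =
          Quot.mk Rl (std ((2 * ((t' / 2 + 1) / 2) - 1) / 10))
        rw [show (2 * ((t / 2 + 1) / 2) - 1) / 10 = t / 2 / 10 by ring,
          show (2 * ((t' / 2 + 1) / 2) - 1) / 10 = t' / 2 / 10 by ring]
        exact h
      have e2 := congrArg Subtype.val (cv_isEmbedding.injective e1)
      simp only at e2
      linarith)
    (by
      refine ⟨OO, OO_open, hh, ⟨1 / 2, by norm_num, by norm_num⟩, ?_, Or.inl ?_⟩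
      · show Quot.mk Rl (std ((2 * (1 / 2) - 1) / 10)) = Quot.mk Rl p7
        rw [show (2 * (1 / 2) - 1 : ℝ) / 10 = 0 by norm_num, std_zero]
      · intro t ht
        have ht2 : (t / 2 + 1) / 2 ∈ Set.Ioo (0 : ℝ) 1 := by
          obtain ⟨a, b⟩ := ht
          constructor <;> linarith
        refine ⟨⟨_, ht2⟩, ?_, ?_⟩
        · show Quot.mk Rl (std ((2 * ((t / 2 + 1) / 2) - 1) / 10)) = Quot.mk Rl (std (t / 2 / 10))
          rw [show (2 * ((t / 2 + 1) / 2) - 1) / 10 = t / 2 / 10 by ring]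
        · show (1 / 2 : ℝ) < (t / 2 + 1) / 2
          have := ht.1
          linarith)
  apply motion_not_symm
  refine ⟨fun t => T t, ?_, ?_, ?_⟩
  · ext1 x
    exact hT0 x
  · intro x
    have := hTc x
    exact continuousOn_iff_continuous_domRestrict.1 this
  · intro t γ i
    exact hTs t t.2 γ i

end Pool.Agent.S12060
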