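import Pool.Statements.S12152
import Pool.Agent.Y358.Minor
import Pool.Agent.Y358.Rays

set_option autoImplicit false
open SimpleGraph
open Pool Pool.MP_e821ef_co

namespace Pool.Agent.S12152

open Pool.Agent.Y358.RTree in
/-- The star with too many rays. -/
noncomputable def star : RaySys where
  B := Set (ℝ × ℝ)
  M := fun _ _ => 0
  symm := fun _ _ => rfl
  nonneg := fun _ _ => le_rfl
  ultra := fun _ _ _ _ => by simp

theorem walk_sum_nonneg {W : Type} {G : SimpleGraph W} {wt : Sym2 W → ℝ}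
    (h : ∀ e ∈ G.edgeSet, 0 < wt e ∧ wt e ≤ 1) {u v : W} (p : G.Walk u v) :
    0 ≤ (p.edges.map wt).sum := by
  refine List.sum_nonneg fun x hx => ?_
  obtain ⟨e, he, rfl⟩ := List.mem_map.1 hx
  exact (h e (p.edges_subset_edgeSet he)).1.le

theorem iInf_self {W : Type} {G : SimpleGraph W} {wt : Sym2 W → ℝ}
    (h : ∀ e ∈ G.edgeSet, 0 < wt e ∧ wt e ≤ 1) {u v : W} (huv : u = v) :
    (⨅ p : G.Walk u v, (p.edges.map wt).sum) ≤ 0 := by
  subst huv
  refine (ciInf_le ⟨0, ?_⟩ Walk.nil).trans ?_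
  · rintro _ ⟨p, rfl⟩
    exact walk_sum_nonneg h p
  · simp

/-- The negation of the preceding statement: A length space is quasi-isometric to some planar graph with edge weights in (0,1] (weighted path metric on vertices) if and only if, for K equal to K5 or K3,3, it fails to have K-fat minors of that graph for every K>0. -/
theorem result :
    ¬ (∀ (X : Type) [MetricSpace X],
    (∀ x y : X, ∀ ε : ℝ, 0 < ε → ∃ γ : Path x y,
        eVariationOn (fun t : unitInterval => γ t) Set.univ ≤ ENNReal.ofReal (dist x y + ε)) →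
    ((∃ (W : Type) (G : SimpleGraph W) (wt : Sym2 W → ℝ),
        G.Preconnected ∧
        (∀ e ∈ G.edgeSet, 0 < wt e ∧ wt e ≤ 1) ∧
        (∃ (φ : W → ℝ × ℝ) (α : W → W → unitInterval → ℝ × ℝ),
          Function.Injective φ ∧
          (∀ a b, G.Adj a b → Continuous (α a b) ∧ Function.Injective (α a b) ∧
              α a b 0 = φ a ∧ α a b 1 = φ b ∧
              ∀ t : unitInterval, 0 < t → t < 1 → ∀ c, α a b t ≠ φ c) ∧
          (∀ a b a' b', G.Adj a b → G.Adj a' b' → s(a, b) ≠ s(a', b') →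
              ∀ t t' : unitInterval, 0 < t → t < 1 → 0 < t' → t' < 1 →
                α a b t ≠ α a' b' t')) ∧
        ∃ (f : X → W) (M A : ℝ), 1 ≤ M ∧ 0 ≤ A ∧
          (∀ x y : X,
            M⁻¹ * dist x y - A ≤ (⨅ p : G.Walk (f x) (f y), (p.edges.map wt).sum) ∧
            (⨅ p : G.Walk (f x) (f y), (p.edges.map wt).sum) ≤ M * dist x y + A) ∧
          ∀ b : W, ∃ x : X, (⨅ p : G.Walk (f x) b, (p.edges.map wt).sum) ≤ A)
     ↔
     ∀ (V : Type) [Fintype V] (Δ : SimpleGraph V),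
       (Nonempty (SimpleGraph.Iso Δ (⊤ : SimpleGraph (Fin 5))) ∨
          Nonempty (SimpleGraph.Iso Δ (completeBipartiteGraph (Fin 3) (Fin 3)))) →
       ¬ ∀ K : ℝ, 0 < K → ∃ (B : V → Set X) (P : V → V → Set X),
           (∀ v, IsConnected (B v)) ∧
           (∀ v v', v ≠ v' → Disjoint (B v) (B v')) ∧
           (∀ u w, Δ.Adj u w → P u w = P w u ∧
              ∃ g : unitInterval → X, Continuous g ∧ Function.Injective g ∧
                Set.range g = P u w ∧ g 0 ∈ B u ∧ g 1 ∈ B w ∧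
                P u w ∩ (⋃ v, B v) = {g 0, g 1}) ∧
           (∀ u w u' w', Δ.Adj u w → Δ.Adj u' w' → s(u, w) ≠ s(u', w') →
              Disjoint (P u w) (P u' w') ∧ ∀ y ∈ P u w, ∀ z ∈ P u' w', K ≤ dist y z) ∧
           (∀ v v', v ≠ v' → ∀ y ∈ B v, ∀ z ∈ B v', K ≤ dist y z) ∧
           (∀ u w v, Δ.Adj u w → v ≠ u → v ≠ w →
              ∀ y ∈ P u w, ∀ z ∈ B v, K ≤ dist y z))) := by
  intro H
  have h4 := Pool.Agent.Y358.RTree.four_tr (R := star)
  have hG := Pool.Agent.Y358.RTree.geo_tr (R := star)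
  obtain ⟨W, G, wt, -, hwt, ⟨φ, α, hφ, -, -⟩, f, M, A, hM, hA, hq, -⟩ :=
    (H (Pool.Agent.Y358.RTree.Tr star) (fun x y ε hε => by
      obtain ⟨γ, hγ⟩ := Pool.Agent.Y358.RTree.length_tr x y
      exact ⟨γ, hγ.trans (ENNReal.ofReal_le_ofReal (by linarith))⟩)).2
      (fun V _ Δ hΔ hK => Pool.Agent.Y358.RTree.no_minor h4 hG hΔ one_pos (hK 1 one_pos))
  have hR : 0 ≤ M * (A + 1) := by positivity
  let x : Set (ℝ × ℝ) → Pool.Agent.Y358.RTree.Tr star := fun i =>
    SeparationQuotient.mk (⟨i, M * (A + 1), hR⟩ : Pool.Agent.Y358.RTree.Pt star)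
  have hx : ∀ i j, i ≠ j → Dist.dist (x i) (x j) = 2 * (M * (A + 1)) := by
    intro i j hij
    simp only [x, SeparationQuotient.dist_mk]
    rw [Pool.Agent.Y358.RTree.Pt.dist_far (R := star) hij rfl]
    ring
  have hinj : Function.Injective (fun i => φ (f (x i))) := by
    intro i j hij
    by_contra hne
    have h1 := (hq (x i) (x j)).1
    have h2 := iInf_self hwt (hφ hij)
    rw [hx i j hne] at h1
    have h3 : M⁻¹ * (2 * (M * (A + 1))) = 2 * (A + 1) := by
      field_simp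
    linarith
  exact Function.cantor_injective _ hinj

end Pool.Agent.S12152
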