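import Pool.Statements.S12163
import Pool.Agent.Y161.Cx.Main

set_option autoImplicit false
open Pool Pool.MP_e859cd_co

namespace Pool.Agent.S12163

/-- For 0<t<r there are fixed a,b and sets X_n in [n] such that, for large n, r-sets meeting X_n in at least a points and r-sets meeting its complement in at least b points never meet in exactly t points, and their sizes' product is asymptotic to the max product p(n,r,t). -/
theorem result :
  ∀ r t : ℕ, 0 < t → t < r →
    ∃ a b : ℕ, ∃ X : ℕ → Finset ℕ,
      (∀ n, X n ⊆ Finset.range n) ∧
      (∀ᶠ n in Filter.atTop,
        ∀ A ∈ ((Finset.range n).powersetCard r).filter (fun A => a ≤ (A ∩ X n).card),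
        ∀ B ∈ ((Finset.range n).powersetCard r).filter
            (fun B => b ≤ (B ∩ (Finset.range n \ X n)).card),
          (A ∩ B).card ≠ t) ∧
      Filter.Tendsto
        (fun n : ℕ =>
          ((((((Finset.range n).powersetCard r).powerset ×ˢ
                ((Finset.range n).powersetCard r).powerset).filter
              (fun P : Finset (Finset ℕ) × Finset (Finset ℕ) =>
                ∀ A ∈ P.1, ∀ B ∈ P.2, (A ∩ B).card ≠ t)).sup
              (fun P => P.1.card * P.2.card) : ℕ) : ℝ) /
          (((((Finset.range n).powersetCard r).filter
                (fun A => a ≤ (A ∩ X n).card)).card : ℝ) *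
           ((((Finset.range n).powersetCard r).filter
                (fun B => b ≤ (B ∩ (Finset.range n \ X n)).card)).card : ℝ)))
        Filter.atTop (nhds 1) := by
  intro r t ht htr
  exact Pool.Agent.Y161.Cx.main r t ht htr

end Pool.Agent.S12163
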