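import Pool.Statements.S12199
import Pool.Agent.Y917.RT.Core

set_option autoImplicit false
open Pool Pool.MP_ea35a0_co

namespace Pool.Agent.S12199

open Filter Topology

/-- the numerical comparison -/
lemma asym (ε : ℝ) (hε : 0 < ε) : ∃ M : ℕ, ∀ m : ℕ, M ≤ m → 1 ≤ m ∧
    1 ≤ (1 + ε) * (2 * (m : ℝ) ^ 2 / Real.pi ^ 2) * (1 - Real.cos (Real.pi / (m + 2))) := by
  have hπ := Real.pi_pos
  -- `m / (m + 2) → 1` and `π / (m + 2) → 0`
  have t1 : Tendsto (fun m : ℕ => (m : ℝ) / ((m : ℝ) + 2)) atTop (𝓝 1) := by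
    have := tendsto_natCast_div_add_atTop (𝕜 := ℝ) (2 : ℝ)
    exact this
  have t2 : Tendsto (fun m : ℕ => Real.pi / ((m : ℝ) + 2)) atTop (𝓝 0) := by
    refine Tendsto.const_div_atTop ?_ _
    exact tendsto_atTop_add_const_right _ _ tendsto_natCast_atTop_atTop
  have t3 : Tendsto (fun m : ℕ => (1 + ε) * (((m : ℝ) / ((m : ℝ) + 2)) ^ 2 *
      (1 - 5 / 48 * (Real.pi / ((m : ℝ) + 2)) ^ 2))) atTop
      (𝓝 ((1 + ε) * (1 ^ 2 * (1 - 5 / 48 * 0 ^ 2)))) :=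
    ((t1.pow 2).mul ((t2.pow 2).const_mul _ |>.const_sub _)).const_mul _
  have hlim : (1 : ℝ) < (1 + ε) * (1 ^ 2 * (1 - 5 / 48 * 0 ^ 2)) := by norm_num; exact hε
  have h1 := t3.eventually (lt_mem_nhds hlim)
  obtain ⟨M, hM⟩ := eventually_atTop.mp h1
  refine ⟨max M 2, fun m hm => ⟨by have := le_trans (le_max_right M 2) hm; omega, ?_⟩⟩
  have h2 := hM m (le_trans (le_max_left _ _) hm)
  have hm2 : (2 : ℝ) ≤ m := by exact_mod_cast le_trans (le_max_right M 2) hm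
  set θ : ℝ := Real.pi / ((m : ℝ) + 2) with hθ
  have hθ0 : 0 < θ := by positivity
  have hθ1 : θ ≤ 1 := by
    rw [hθ, div_le_one (by positivity)]
    have := Real.pi_lt_four
    linarith
  have h3 := Real.cos_bound (x := θ) (by rw [abs_of_pos hθ0]; exact hθ1)
  rw [abs_of_pos hθ0] at h3
  have h4 := (abs_le.mp h3).2
  have h5 : θ ^ 2 / 2 * (1 - 5 / 48 * θ ^ 2) ≤ 1 - Real.cos θ := by nlinarith
  have h6 : (1 + ε) * (2 * (m : ℝ) ^ 2 / Real.pi ^ 2) * (θ ^ 2 / 2 * (1 - 5 / 48 * θ ^ 2)) =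
      (1 + ε) * (((m : ℝ) / ((m : ℝ) + 2)) ^ 2 * (1 - 5 / 48 * θ ^ 2)) := by
    have : θ ^ 2 = Real.pi ^ 2 / ((m : ℝ) + 2) ^ 2 := by rw [hθ, div_pow]
    rw [this]
    field_simp
  have h7 : 0 ≤ (1 + ε) * (2 * (m : ℝ) ^ 2 / Real.pi ^ 2) := by positivity
  have h8 := mul_le_mul_of_nonneg_left h5 h7
  rw [h6] at h8
  linarith

/-- For every ε>0, every connected graph with enough edges m has simple-random-walk relaxation time (degree-weighted variance over edge Dirichlet form) at most (1+ε)·2m²/π², i.e. the path is asymptotically extremal. -/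
theorem result :
    ∀ ε : ℝ, ε > 0 → ∃ M : ℕ, ∀ (n : ℕ) (G : SimpleGraph (Fin n)) [DecidableRel G.Adj],
      G.Connected → M ≤ G.edgeFinset.card →
      ∀ f : Fin n → ℝ, ∃ c : ℝ,
        ∑ v, (G.degree v : ℝ) * (f v - c) ^ 2 ≤
          (1 + ε) * (2 * (G.edgeFinset.card : ℝ) ^ 2 / Real.pi ^ 2) *
            ((1 / 2 : ℝ) * ∑ u, ∑ v, (if G.Adj u v then (f u - f v) ^ 2 else 0)) := by
  intro ε hε
  obtain ⟨M, hM⟩ := asym ε hε
  refine ⟨M, ?_⟩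
  intro n G _ hG hcard f
  obtain ⟨hm1, hm2⟩ := hM _ hcard
  obtain ⟨c, hc⟩ := Pool.Agent.Y917.RT.main G hG hm1 f
  refine ⟨c, ?_⟩
  set m := G.edgeFinset.card with hmdef
  set Q : ℝ := ∑ v, (G.degree v : ℝ) * (f v - c) ^ 2 with hQ
  have hQ0 : 0 ≤ Q := Finset.sum_nonneg fun v _ => by positivity
  have hK : 0 ≤ (1 + ε) * (2 * (m : ℝ) ^ 2 / Real.pi ^ 2) := by positivity
  have h1 := mul_le_mul_of_nonneg_left hc hK
  calc Q = 1 * Q := (one_mul _).symm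
    _ ≤ ((1 + ε) * (2 * (m : ℝ) ^ 2 / Real.pi ^ 2) * (1 - Real.cos (Real.pi / (m + 2)))) * Q :=
        mul_le_mul_of_nonneg_right hm2 hQ0
    _ = (1 + ε) * (2 * (m : ℝ) ^ 2 / Real.pi ^ 2) *
        ((1 - Real.cos (Real.pi / (m + 2))) * Q) := by ring
    _ ≤ _ := h1

end Pool.Agent.S12199
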