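import Pool.Statements.S12532
-- import your own Pool.Agent.* helpers here
import Pool.Agent.Y438.Tits4

set_option autoImplicit false
open Pool Pool.MP_fa71e0_co

namespace Pool.Agent.S12532

open Pool.Agent.Y438

/-- A Tits endomorphism of the field with eight elements. -/
noncomputable def tau8 : GaloisField 2 3 →+* GaloisField 2 3 :=
  (frobenius (GaloisField 2 3) 2).comp (frobenius (GaloisField 2 3) 2)

theorem tau8_tau8 (x : GaloisField 2 3) : tau8 (tau8 x) = x ^ 2 := by
  have hcard : Nat.card (GaloisField 2 3) = 2 ^ 3 := GaloisField.card 2 3 (by norm_num)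
  letI : Fintype (GaloisField 2 3) := Fintype.ofFinite _
  have h8 : x ^ 8 = x := by
    have := FiniteField.pow_card x
    rw [← Nat.card_eq_fintype_card, hcard] at this
    exact this
  have h1 : tau8 (tau8 x) = x ^ 8 * x ^ 8 := by
    simp only [tau8, RingHom.comp_apply, frobenius_def]
    ring
  rw [h1, h8]
  ring

theorem two_eq : (2 : GaloisField 2 3) = 0 := CharTwo.two_eq_zero

theorem exists_u : ∃ u : GaloisField 2 3, u ≠ 0 ∧ u ≠ 1 := by
  classical
  have hcard : Nat.card (GaloisField 2 3) = 2 ^ 3 := GaloisField.card 2 3 (by norm_num)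
  letI : Fintype (GaloisField 2 3) := Fintype.ofFinite _
  rw [Nat.card_eq_fintype_card] at hcard
  by_contra h
  push Not at h
  have hsub : (Finset.univ : Finset (GaloisField 2 3)) ⊆ {0, 1} := by
    intro u _
    by_cases hu : u = 0
    · simp [hu]
    · simp [h u hu]
  have := Finset.card_le_card hsub
  rw [Finset.card_univ, hcard] at this
  have h2 : ({0, 1} : Finset (GaloisField 2 3)).card ≤ 2 := Finset.card_le_two
  omega

/-- The negation of the preceding statement: In a finite projective plane, if a collineation group fixes a line ℓ and is doubly transitive on its points, then for each c on ℓ, elations with centre c and axis ℓ move any point ≠ c of a line M ≠ ℓ through c to any other such point. -/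
theorem result :
    ¬ (∀ (P L : Type) [Membership P L] [Configuration.ProjectivePlane P L] [Finite P] [Finite L]
    (Γ : Subgroup (Equiv.Perm P × Equiv.Perm L)) (ℓ : L),
    (∀ g ∈ Γ, ∀ (p : P) (m : L), (p ∈ m ↔ g.1 p ∈ g.2 m)) →
    (∀ g ∈ Γ, g.2 ℓ = ℓ) →
    (∀ a b c d : P, a ∈ ℓ → b ∈ ℓ → c ∈ ℓ → d ∈ ℓ → a ≠ b → c ≠ d →
      ∃ g ∈ Γ, g.1 a = c ∧ g.1 b = d) →
    ∀ c : P, c ∈ ℓ → ∀ M : L, M ≠ ℓ → c ∈ M →
      ∀ x y : P, x ∈ M → y ∈ M → x ≠ c → y ≠ c →
        ∃ σ : Equiv.Perm P × Equiv.Perm L,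
          (∀ (p : P) (m : L), (p ∈ m ↔ σ.1 p ∈ σ.2 m)) ∧
          (∀ p : P, p ∈ ℓ → σ.1 p = p) ∧
          (∀ m : L, c ∈ m → σ.2 m = m) ∧
          σ.1 x = y) := by
  intro H
  have hτ := tau8_tau8
  have h2 := two_eq
  obtain ⟨u, hu0, hu1⟩ := exists_u
  letI : Membership (Ln (Option (GaloisField 2 3 × GaloisField 2 3)) (GaloisField 2 3 × GaloisField 2 3))
      (Pt (Option (GaloisField 2 3 × GaloisField 2 3))
        ((GaloisField 2 3 × GaloisField 2 3) × (GaloisField 2 3 × GaloisField 2 3))) :=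
    ⟨fun m p => inc (phi tau8) p m⟩
  letI := luneburg tau8 hτ h2
  -- points on the line `origin`
  have hmem0 : ∀ p : Ln (Option (GaloisField 2 3 × GaloisField 2 3))
      (GaloisField 2 3 × GaloisField 2 3), inc (phi tau8) p (.aff 0) → ∃ c, p = .aff c 0 := by
    intro p hp
    rcases p with _ | ⟨c, i⟩
    · exact hp.elim
    · refine ⟨c, ?_⟩
      have h3 : phi tau8 c 0 = i := hp
      have h4 : phi tau8 c 0 = 0 := by
        rcases c with _ | c
        · rfl
        · show (0 : GaloisField 2 3 × GaloisField 2 3) + Mf tau8 c 0 = 0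
          unfold Mf
          simp
      rw [← h3, h4]
  obtain ⟨σ, hσ, hσ0, hσA, hσx⟩ := H
    (Ln (Option (GaloisField 2 3 × GaloisField 2 3)) (GaloisField 2 3 × GaloisField 2 3))
    (Pt (Option (GaloisField 2 3 × GaloisField 2 3))
        ((GaloisField 2 3 × GaloisField 2 3) × (GaloisField 2 3 × GaloisField 2 3)))
    (collGroup tau8) (.aff 0)
    (fun g hg p m => hg.1 p m)
    (fun g hg => hg.2)
    (by
      intro a b c d ha hb hc hd hab hcd
      obtain ⟨a', rfl⟩ := hmem0 a ha
      obtain ⟨b', rfl⟩ := hmem0 b hb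
      obtain ⟨c', rfl⟩ := hmem0 c hc
      obtain ⟨d', rfl⟩ := hmem0 d hd
      have hab' : a' ≠ b' := fun h => hab (by rw [h])
      have hcd' : c' ≠ d' := fun h => hcd (by rw [h])
      obtain ⟨g, hg, g1, g2⟩ := base_pair tau8 hτ h2 a' b' hab'
      obtain ⟨k, hk, k1, k2⟩ := base_pair tau8 hτ h2 c' d' hcd'
      refine ⟨k * g⁻¹, (collGroup tau8).mul_mem hk ((collGroup tau8).inv_mem hg), ?_, ?_⟩
      · show k.1 (g.1.symm _) = _
        rw [← g1, Equiv.symm_apply_apply, k1]
      · show k.1 (g.1.symm _) = _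
        rw [← g2, Equiv.symm_apply_apply, k2])
    (.aff none 0) rfl (.inf none) (by intro h; cases h) rfl .inf (.aff none (1, 0)) trivial rfl
    (by intro h; cases h)
    (by
      intro h
      have h3 : ((1 : GaloisField 2 3), (0 : GaloisField 2 3)) = 0 := by
        injection h
      have h4 := congrArg Prod.fst h3
      simp at h4)
  exact no_elation tau8 hτ h2 u hu0 hu1 σ hσ hσ0 hσA hσx

end Pool.Agent.S12532
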