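import Pool.Statements.S12606
import Pool.Agent.Results.MP_fd346d_co.Disproof

set_option autoImplicit false
open scoped Classical
open Pool Pool.MP_fd346d_co

namespace Pool.Agent.S12606

open Pool.Agent.Results.MP_fd346d_co.Disproof

/-- The form of a realizer used in the frozen statement. -/
theorem real_iff (P : Type) [PartialOrder P] (d : ℕ) :
    (∃ r : Fin d → P → P → Prop,
        (∀ i, (∀ x, r i x x) ∧ (∀ x y z, r i x y → r i y z → r i x z) ∧
          (∀ x y, r i x y → r i y x → x = y) ∧ (∀ x y, r i x y ∨ r i y x)) ∧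
        ∀ x y, x ≤ y ↔ ∀ i, r i x y) ↔ Realizable P d := by
  constructor
  · rintro ⟨r, h1, h2⟩
    refine ⟨r, fun i => ?_, fun i x y h => (h2 x y).1 h i, fun x y h => (h2 x y).2 h⟩
    obtain ⟨a, b, c, e⟩ := h1 i
    exact { refl := a, trans := b, antisymm := c, total := e }
  · rintro ⟨r, h1, h2, h3⟩
    refine ⟨r, fun i => ?_, fun x y => ⟨fun h i => h2 i x y h, h3 x y⟩⟩
    have := h1 i
    exact ⟨fun x => refl_of (r i) x, fun x y z => trans_of (r i),
      fun x y => antisymm_of (r i), fun x y => total_of (r i) x y⟩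

theorem exists_realizable {P : Type} [PartialOrder P] (h : dim P ≠ ⊤) :
    ∃ d : ℕ, Realizable P d := by
  by_contra hcon
  push Not at hcon
  apply h
  unfold dim
  simp [hcon]

/-- The negation of the preceding statement: For all posets P, Q with at least two elements and finite dimension, dim P + dim Q ≤ dim(P×Q) + b, where b counts the factors lacking a least or greatest element; dimension means the least number of linear orders whose intersection is the order. -/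
theorem result :
    ¬ (∀ (P Q : Type) [PartialOrder P] [PartialOrder Q], Nontrivial P → Nontrivial Q →
      (∃ d : ℕ, ∃ r : Fin d → P → P → Prop,
        (∀ i, (∀ x, r i x x) ∧ (∀ x y z, r i x y → r i y z → r i x z) ∧
          (∀ x y, r i x y → r i y x → x = y) ∧ (∀ x y, r i x y ∨ r i y x)) ∧
        ∀ x y, x ≤ y ↔ ∀ i, r i x y) →
      (∃ d : ℕ, ∃ r : Fin d → Q → Q → Prop,
        (∀ i, (∀ x, r i x x) ∧ (∀ x y z, r i x y → r i y z → r i x z) ∧
          (∀ x y, r i x y → r i y x → x = y) ∧ (∀ x y, r i x y ∨ r i y x)) ∧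
        ∀ x y, x ≤ y ↔ ∀ i, r i x y) →
      ∀ n : ℕ,
        (∃ r : Fin n → P × Q → P × Q → Prop,
          (∀ i, (∀ x, r i x x) ∧ (∀ x y z, r i x y → r i y z → r i x z) ∧
            (∀ x y, r i x y → r i y x → x = y) ∧ (∀ x y, r i x y ∨ r i y x)) ∧
          ∀ x y, x ≤ y ↔ ∀ i, r i x y) →
        ∃ a c : ℕ,
          a + c ≤ n + ((if (∃ x : P, ∀ y, x ≤ y) ∧ (∃ x : P, ∀ y, y ≤ x) then 0 else 1) +
                       (if (∃ x : Q, ∀ y, x ≤ y) ∧ (∃ x : Q, ∀ y, y ≤ x) then 0 else 1)) ∧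
          (∃ r : Fin a → P → P → Prop,
            (∀ i, (∀ x, r i x x) ∧ (∀ x y z, r i x y → r i y z → r i x z) ∧
              (∀ x y, r i x y → r i y x → x = y) ∧ (∀ x y, r i x y ∨ r i y x)) ∧
            ∀ x y, x ≤ y ↔ ∀ i, r i x y) ∧
          (∃ r : Fin c → Q → Q → Prop,
            (∀ i, (∀ x, r i x x) ∧ (∀ x y z, r i x y → r i y z → r i x z) ∧
              (∀ x y, r i x y → r i y x → x = y) ∧ (∀ x y, r i x y ∨ r i y x)) ∧
            ∀ x y, x ≤ y ↔ ∀ i, r i x y)) := by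
  intro H
  obtain ⟨P, Q, iP, iQ, fP, fQ, nP, nQ, hP, hQ, hb, hlt⟩ :=
    Pool.Agent.Results.MP_fd346d_co.Disproof.result 0 2 (Or.inr rfl)
  have hnum := hb
  unfold numUnbdd at hnum
  have hbP : ¬ IsBdd P := by
    intro h
    rw [if_pos h] at hnum
    split_ifs at hnum <;> omega
  have hbQ : ¬ IsBdd Q := by
    intro h
    rw [if_pos h] at hnum
    split_ifs at hnum <;> omega
  have hnt : ∀ (R : Type) [PartialOrder R] [Nonempty R], ¬ IsBdd R → Nontrivial R := by
    intro R _ _ h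
    by_contra hcon
    rw [not_nontrivial_iff_subsingleton] at hcon
    apply h
    obtain ⟨a⟩ := ‹Nonempty R›
    exact ⟨⟨a, fun x => (Subsingleton.elim a x).le⟩, ⟨a, fun x => (Subsingleton.elim x a).le⟩⟩
  have hPQ : ∃ n : ℕ, dim (P × Q) = n ∧ Realizable (P × Q) n := by
    have h1 : dim (P × Q) ≠ ⊤ := by
      intro h
      rw [h] at hlt
      simp at hlt
    obtain ⟨d, hd⟩ := exists_realizable h1
    exact exists_dim_eq hd
  obtain ⟨n, hn, hrn⟩ := hPQ
  obtain ⟨p, hp⟩ := exists_realizable hP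
  obtain ⟨q, hq⟩ := exists_realizable hQ
  obtain ⟨a, c, hac, ha, hc⟩ := H P Q (hnt P hbP) (hnt Q hbQ) ⟨p, (real_iff P p).2 hp⟩
    ⟨q, (real_iff Q q).2 hq⟩ n ((real_iff (P × Q) n).2 hrn)
  have ha' := dim_le ((real_iff P a).1 ha)
  have hc' := dim_le ((real_iff Q c).1 hc)
  have h2 : ¬ ((∃ x : P, ∀ y, x ≤ y) ∧ (∃ x : P, ∀ y, y ≤ x)) := hbP
  have h3 : ¬ ((∃ x : Q, ∀ y, x ≤ y) ∧ (∃ x : Q, ∀ y, y ≤ x)) := hbQ
  rw [if_neg h2, if_neg h3] at hac
  have h4 : dim P + dim Q ≤ ((a + c : ℕ) : ℕ∞) := by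
    push_cast
    exact add_le_add ha' hc'
  have h5 : ((a + c : ℕ) : ℕ∞) ≤ ((n + 2 : ℕ) : ℕ∞) := by exact_mod_cast hac
  have h6 := hlt.trans_le (h4.trans h5)
  rw [hn] at h6
  have h7 : ((n : ℕ) : ℕ∞) + (2 : ℕ) + (0 : ℕ) = ((n + 2 : ℕ) : ℕ∞) := by
    push_cast
    simp
  rw [h7] at h6
  exact lt_irrefl _ h6

end Pool.Agent.S12606
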