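import Pool.Statements.S12661
-- import your own Pool.Agent.* helpers here
import Pool.Agent.TH421.GO.Euc
import Pool.Agent.TH650.GB.Core
import Pool.Agent.TH984.GB.Simplex
import Pool.Agent.TH650.MV.Mix

set_option autoImplicit false
open Pointwise MeasureTheory
open Pool Pool.MP_0078d6_gt

namespace Pool.Agent.S12661

open Multiset Module Pool.Agent.TH650.MV in
/-- the volume polynomial of two bodies -/
theorem vl_two {G : Type*} [NormedAddCommGroup G] [NormedSpace ℝ G] [FiniteDimensional ℝ G]
    [MeasurableSpace G] [BorelSpace G] (μ : Measure G) [μ.IsAddHaarMeasure] (A B : ConvexBody G)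
    (a b : NNReal) :
    vl μ (a • A + b • B) = ∑ i ∈ Finset.range (finrank ℝ G + 1), ((finrank ℝ G).choose i : ℝ) *
      V μ (replicate i A + replicate (finrank ℝ G - i) B) * a ^ i * b ^ (finrank ℝ G - i) := by
  have h := V_binom μ (a • A) (b • B) (finrank ℝ G) 0 (by simp)
  rw [add_zero, V_self] at h
  rw [h]
  refine Finset.sum_congr rfl fun i hi => ?_
  have hi' : i ≤ finrank ℝ G := by
    have := Finset.mem_range.1 hi
    omega
  rw [add_zero, V_smul_replicate μ a A i _ (by simp; omega), add_comm (replicate i A),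
    V_smul_replicate μ b B _ _ (by simp; omega), add_comm (replicate (finrank ℝ G - i) B)]
  ring

open Multiset Module Pool.Agent.TH650.MV in
/-- the upper bound for the volume of `a K - b K` -/
theorem upper (n : ℕ) (K : Set (EuclideanSpace ℝ (Fin n))) (hK : IsCompact K) (hc : Convex ℝ K)
    (hi : (interior K).Nonempty) (a b : ℝ) (ha : 0 ≤ a) (hb : 0 ≤ b) :
    (volume (a • K + b • (-K))).toReal ≤
      (∑ i ∈ Finset.range (n + 1), (n.choose i : ℝ) ^ 2 * a ^ i * b ^ (n - i)) *
        (volume K).toReal := by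
  let B : ConvexBody (EuclideanSpace ℝ (Fin n)) := ⟨K, hc, hK, hi.mono interior_subset⟩
  have hBK : (B : Set (EuclideanSpace ℝ (Fin n))) = K := rfl
  have hfin : finrank ℝ (EuclideanSpace ℝ (Fin n)) = n := by simp
  set W : ℕ → ℝ := fun i => V volume (replicate i B + replicate (n - i) ((-1 : ℝ) • B)) with hW
  have hpoly : ∀ a b : ℝ, 0 ≤ a → 0 ≤ b → (volume (a • K + b • (-K))).toReal =
      ∑ i ∈ Finset.range (n + 1), (n.choose i : ℝ) * W i * a ^ i * b ^ (n - i) := by
    intro a b ha hb
    lift a to NNReal using ha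
    lift b to NNReal using hb
    have h1 := vl_two (volume : Measure (EuclideanSpace ℝ (Fin n))) B ((-1 : ℝ) • B) a b
    rw [hfin] at h1
    refine Eq.trans ?_ h1
    unfold vl
    have hneg : (-1 : ℝ) • K = -K := by
      ext x
      constructor
      · rintro ⟨y, hy, rfl⟩
        simpa using hy
      · intro hx
        exact ⟨-x, hx, by simp⟩
    rw [ConvexBody.coe_add, ConvexBody.coe_smul', ConvexBody.coe_smul', ConvexBody.coe_smul, hBK,
      hneg]
    rfl
  rw [hpoly a b ha hb, Finset.sum_mul]
  refine Finset.sum_le_sum fun i hi' => ?_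
  have h4 := Pool.Agent.TH421.GO.godbersen_euc (fun n m v h => Pool.Agent.TH650.GB.core h) n K hK
    hc hi W hpoly i (by simpa [Nat.lt_succ_iff] using hi')
  have h5 : (0 : ℝ) ≤ (n.choose i : ℝ) * a ^ i * b ^ (n - i) := by positivity
  calc (n.choose i : ℝ) * W i * a ^ i * b ^ (n - i) =
        ((n.choose i : ℝ) * a ^ i * b ^ (n - i)) * W i := by ring
    _ ≤ ((n.choose i : ℝ) * a ^ i * b ^ (n - i)) * ((n.choose i : ℝ) * (volume K).toReal) :=
        mul_le_mul_of_nonneg_left h4 h5
    _ = _ := by ring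

/-- For every convex body K in R^n, every n-simplex Δ of the same volume and every t in [0,1], vol((1-t)K - tK)/vol(K) is at most vol((1-t)Δ - tΔ)/vol(Δ). -/
theorem result :
  ∀ (n : ℕ) (K : Set (EuclideanSpace ℝ (Fin n))),
    IsCompact K → Convex ℝ K → (interior K).Nonempty →
    ∀ (v : Fin (n + 1) → EuclideanSpace ℝ (Fin n)), AffineIndependent ℝ v →
      volume (convexHull ℝ (Set.range v)) = volume K →
      ∀ t : ℝ, 0 ≤ t → t ≤ 1 →
        volume ((1 - t) • K - t • K) / volume K ≤
          volume ((1 - t) • convexHull ℝ (Set.range v) - t • convexHull ℝ (Set.range v))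
            / volume (convexHull ℝ (Set.range v)) := by
  intro n K hK hc hi v hv hvol t ht0 ht1
  have h1 := upper n K hK hc hi (1 - t) t (by linarith) ht0
  have hs := Pool.Agent.TH984.GBS.t_SIMPLEX n v hv (1 - t) t (by linarith) ht0
  have hneg : (1 - t) • K - t • K = (1 - t) • K + t • (-K) := by
    rw [sub_eq_add_neg, Set.smul_set_neg]
  have hfin : volume ((1 - t) • K + t • (-K)) ≠ ⊤ :=
    ((hK.smul (1 - t)).add (hK.neg.smul t)).measure_lt_top.ne
  have hKf : volume K ≠ ⊤ := hK.measure_lt_top.ne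
  rw [hvol] at hs ⊢
  refine ENNReal.div_le_div_right (le_trans ?_ hs) _
  rw [hneg, ← ENNReal.ofReal_toReal hfin, ← ENNReal.ofReal_toReal hKf,
    ← ENNReal.ofReal_mul (Finset.sum_nonneg fun i _ => by
      have : 0 ≤ 1 - t := by linarith
      positivity)]
  exact ENNReal.ofReal_le_ofReal h1

end Pool.Agent.S12661
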