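import Pool.Statements.S12841
import Pool.Agent.S13611
import Pool.Agent.Y505.ZV.Bal

set_option autoImplicit false
open Pool Pool.MP_1bae07_gt

namespace Pool.Agent.S12841

open Pool.Agent.Y505.ZV

lemma rescale {a d : ℕ} (v : Fin a → Fin d → ℝ) (R R' : ℝ) (hR : 0 ≤ R) (hRR' : R ≤ R')
    (hR' : 0 < R') (s : Fin a → ℝ) (hs : ∀ j, s j ∈ Set.Icc (-1 : ℝ) 1) :
    ∃ s' : Fin a → ℝ, (∀ j, s' j ∈ Set.Icc (-1 : ℝ) 1) ∧
      R • ∑ j, s j • v j = R' • ∑ j, s' j • v j := by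
  refine ⟨fun j => R / R' * s j, fun j => ?_, ?_⟩
  · have h1 : |R / R' * s j| ≤ 1 := by
      rw [abs_mul]
      have h2 : |R / R'| ≤ 1 := by
        rw [abs_of_nonneg (by positivity), div_le_one hR']
        exact hRR'
      have h3 : |s j| ≤ 1 := abs_le.2 ⟨(hs j).1, (hs j).2⟩
      exact mul_le_one₀ h2 (abs_nonneg _) h3
    exact abs_le.1 h1
  · simp only [mul_smul, ← Finset.smul_sum]
    rw [← mul_smul R' (R / R'), mul_div_cancel₀ _ hR'.ne']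

/-- signed sums of vectors of a zonotope with `N` segments, where `√N ≤ R` -/
lemma balance {C R c : ℝ} {a d n : ℕ} (hC : 0 < C) (hR : 0 < R) (hN : √(a:ℝ) ≤ R)
    (hsp : ∀ (N n : ℕ) (f : Fin n → Fin N → ℝ), (∀ g i, |f g i| ≤ 1) →
      ∃ ε : Fin n → ℝ, (∀ g, ε g = 1 ∨ ε g = -1) ∧ ∀ i, |∑ g, ε g * f g i| ≤ C * √N)
    (b : Fin a → Fin d → ℝ) (u : Fin n → Fin d → ℝ) (t : Fin n → Fin a → ℝ)
    (ht : ∀ g k, t g k ∈ Set.Icc (-1 : ℝ) 1) (hu : ∀ g, u g = c • ∑ k, t g k • b k) :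
    ∃ ε : Fin n → ℝ, (∀ g, ε g = 1 ∨ ε g = -1) ∧ ∃ s : Fin a → ℝ,
      (∀ k, s k ∈ Set.Icc (-1 : ℝ) 1) ∧ ∑ g, ε g • u g = (c * (C * R)) • ∑ k, s k • b k := by
  obtain ⟨ε, hε, hb⟩ := hsp a n t fun g k => abs_le.2 ⟨(ht g k).1, (ht g k).2⟩
  have hCR : 0 < C * R := by positivity
  refine ⟨ε, hε, fun k => (∑ g, ε g * t g k) / (C * R), fun k => ?_, ?_⟩
  · have h1 : |(∑ g, ε g * t g k) / (C * R)| ≤ 1 := by
      rw [abs_div, abs_of_pos hCR, div_le_one hCR]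
      exact (hb k).trans (mul_le_mul_of_nonneg_left hN hC.le)
    exact abs_le.1 h1
  · have h2 : ∑ g, ε g • u g = c • ∑ k, (∑ g, ε g * t g k) • b k := by
      simp only [hu, Finset.sum_smul, mul_smul]
      rw [Finset.sum_comm, Finset.smul_sum]
      refine Finset.sum_congr rfl fun g _ => ?_
      rw [smul_comm, ← Finset.smul_sum]
    rw [h2, mul_smul]
    congr 1
    rw [Finset.smul_sum]
    refine Finset.sum_congr rfl fun k _ => ?_
    rw [← mul_smul, mul_div_cancel₀ _ hCR.ne']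

/-- There is an absolute constant C such that for every origin-centred zonotope K in ℝ^d and any finitely many vectors in K, some choice of signs puts their signed sum in C√d·K, i.e. vb(K,K) ≤ C√d. -/
theorem result :
    ∃ C : ℝ, 0 < C ∧
      ∀ (d m : ℕ) (v : Fin m → (Fin d → ℝ)) (n : ℕ) (u : Fin n → (Fin d → ℝ)),
        (∀ i, ∃ t : Fin m → ℝ, (∀ j, t j ∈ Set.Icc (-1 : ℝ) 1) ∧
            u i = ∑ j, t j • v j) →
        ∃ ε : Fin n → ℝ, (∀ i, ε i = 1 ∨ ε i = -1) ∧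
          ∃ s : Fin m → ℝ, (∀ j, s j ∈ Set.Icc (-1 : ℝ) 1) ∧
            ∑ i, ε i • u i = (C * Real.sqrt d) • ∑ j, s j • v j := by
  obtain ⟨C₁, hC₁, hsz⟩ := Pool.Agent.S13611.result
  obtain ⟨C₂, hC₂, hsp⟩ := spencer
  refine ⟨C₂ + 3 / 2 * (C₂ * √(4 * C₁)), by positivity, fun d m v n u hu => ?_⟩
  choose t ht hut using hu
  rcases Nat.eq_zero_or_pos d with hd0 | hd
  · subst hd0
    exact ⟨fun _ => 1, fun _ => Or.inl rfl, fun _ => 0, fun _ => by norm_num,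
      Subsingleton.elim _ _⟩
  have hdr : (0:ℝ) < √(d:ℝ) := Real.sqrt_pos.2 (by exact_mod_cast hd)
  have hK : 0 < (C₂ + 3 / 2 * (C₂ * √(4 * C₁))) * √(d:ℝ) := by positivity
  rcases le_total d m with hdm | hmd
  · -- sparsify
    obtain ⟨N, hN, B, hB⟩ := hsz d m hdm v (1 / 2) (by norm_num) le_rfl
    have hB1 : ∀ x : Fin d → ℝ, ∑ k, |∑ i, B k i * x i| ≤ 1 * ∑ l, |∑ i, v l i * x i| := fun x => by
      rw [one_mul]; exact (hB x).1
    have hB2 : ∀ x : Fin d → ℝ, ∑ l, |∑ i, v l i * x i| ≤ 3 / 2 * ∑ k, |∑ i, B k i * x i| :=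
      fun x => by
        have := (hB x).2
        rw [show (1:ℝ) + 1 / 2 = 3 / 2 by norm_num] at this
        exact this
    have hNR : √(N:ℝ) ≤ √(4 * C₁) * √(d:ℝ) := by
      rw [← Real.sqrt_mul (by positivity)]
      apply Real.sqrt_le_sqrt
      calc (N:ℝ) ≤ C₁ * d / (1 / 2) ^ 2 := hN
        _ = 4 * C₁ * d := by ring
    choose r hr hrv using fun g => zsub v B (3 / 2) (by norm_num) hB2 (t g) (ht g)
    obtain ⟨ε, hε, s, hs, hsum⟩ := balance (c := 3 / 2) hC₂ (R := √(4 * C₁) * √(d:ℝ))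
      (by positivity) hNR hsp B u r hr (fun g => by rw [hut g, hrv g])
    obtain ⟨s', hs', hss'⟩ := zsub B v 1 (by norm_num) hB1 s hs
    rw [one_smul] at hss'
    obtain ⟨s'', hs'', hs3⟩ := rescale v (3 / 2 * (C₂ * (√(4 * C₁) * √(d:ℝ))))
      ((C₂ + 3 / 2 * (C₂ * √(4 * C₁))) * √(d:ℝ)) (by positivity)
      (by nlinarith [mul_pos hC₂ hdr]) hK s' hs'
    exact ⟨ε, hε, s'', hs'', by rw [hsum, hss', hs3]⟩
  · obtain ⟨ε, hε, s, hs, hsum⟩ := balance (c := 1) hC₂ (R := √(d:ℝ)) hdr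
      (Real.sqrt_le_sqrt (by exact_mod_cast hmd)) hsp v u t ht (fun g => by rw [hut g, one_smul])
    obtain ⟨s'', hs'', hs3⟩ := rescale v (1 * (C₂ * √(d:ℝ)))
      ((C₂ + 3 / 2 * (C₂ * √(4 * C₁))) * √(d:ℝ)) (by positivity)
      (by nlinarith [show 0 ≤ 3 / 2 * (C₂ * √(4 * C₁)) * √(d:ℝ) by positivity]) hK s hs
    exact ⟨ε, hε, s'', hs'', by rw [hsum, hs3]⟩

end Pool.Agent.S12841
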