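import Pool.Statements.S12883
import Pool.Agent.Y476.LC.Snub
-- import your own Pool.Agent.* helpers here

set_option autoImplicit false
open Pool Pool.MP_223099_gt

namespace Pool.Agent.S12883

open Pool.Agent.Y476.LC

/-- For every convex n-gon, the sum over sides of side length divided by the longest chord parallel to that side is at least 3. Equality holds only when the polygon is a triangle with its three corners cut off at the same ratio t in [0,1/2], by lines parallel to the opposite sides. -/
theorem result :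
    ∀ n : ℕ, 3 ≤ n → ∀ v : Fin n → ℝ × ℝ,
      (∀ i j : Fin n, j ≠ i → j ≠ finRotate n i →
        0 < ((v (finRotate n i)).1 - (v i).1) * ((v j).2 - (v i).2)
            - ((v (finRotate n i)).2 - (v i).2) * ((v j).1 - (v i).1)) →
      ∀ b : Fin n → ℝ,
        (∀ i : Fin n, b i = sSup {r : ℝ | ∃ x ∈ convexHull ℝ (Set.range v),
            ∃ y ∈ convexHull ℝ (Set.range v), ∃ c : ℝ,
              y - x = c • (v (finRotate n i) - v i) ∧ r = dist x y}) →
        3 ≤ ∑ i : Fin n, dist (v i) (v (finRotate n i)) / b i ∧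
        (∑ i : Fin n, dist (v i) (v (finRotate n i)) / b i = 3 →
          ∃ A B C : ℝ × ℝ, AffineIndependent ℝ ![A, B, C] ∧
            ∃ t : ℝ, 0 ≤ t ∧ t ≤ 1 / 2 ∧
              convexHull ℝ (Set.range v) =
                convexHull ℝ ({A + t • (B - A), A + t • (C - A),
                  B + t • (A - B), B + t • (C - B),
                  C + t • (A - C), C + t • (B - C)} : Set (ℝ × ℝ))) := by
  intro n hn v hconv b hb
  obtain ⟨m, rfl⟩ : ∃ m, n = m + 3 := ⟨n - 3, by omega⟩
  have hSC : SC v := fun i j h1 h2 => hconv i j h1 h2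
  have hvK : ∀ i, v i ∈ convexHull ℝ (Set.range v) := fun i => subset_convexHull ℝ _ ⟨i, rfl⟩
  have hne : ∀ i, v (finRotate (m + 3) i) - v i ≠ 0 := by
    intro i h0
    obtain ⟨j, hj⟩ : ∃ j, j ∉ ({i, finRotate (m + 3) i} : Finset (Fin (m + 3))) := by
      by_contra hcon
      push Not at hcon
      have h1 : (Finset.univ : Finset (Fin (m + 3))) ⊆ {i, finRotate (m + 3) i} :=
        fun j _ => hcon j
      have h2 := Finset.card_le_card h1
      have h3 := Finset.card_le_two (a := i) (b := finRotate (m + 3) i)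
      rw [Finset.card_univ, Fintype.card_fin] at h2
      omega
    simp only [Finset.mem_insert, Finset.mem_singleton, not_or] at hj
    have := hSC i j hj.1 hj.2
    rw [h0] at this
    simp [cr] at this
  have hr : ∀ i, 0 < dist (v i) (v (finRotate (m + 3) i)) / b i ∧
      ∃ p ∈ convexHull ℝ (Set.range v), ∃ q ∈ convexHull ℝ (Set.range v),
      v (finRotate (m + 3) i) - v i =
        (dist (v i) (v (finRotate (m + 3) i)) / b i) • (q - p) :=
    fun i => chord (hvK i) (hvK _) (hne i) (hb i)
  -- the functional vanishing on the first edge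
  set e0 := v (finRotate (m + 3) 0) - v 0 with he0
  set ν : ℝ × ℝ := (-e0.2, e0.1) with hν
  have hν0 : ν ≠ 0 := by
    intro h0
    apply hne 0
    have h1 : -e0.2 = 0 := congrArg Prod.fst h0
    have h2 : e0.1 = 0 := congrArg Prod.snd h0
    exact Prod.ext h2 (by rw [← he0]; change e0.2 = 0; linarith)
  have hw : 0 < wd v ν := wd_pos v hSC hn hν0
  set f : ℝ × ℝ := (wd v ν)⁻¹ • ν with hf
  have hwf : wd v f = 1 := by
    rw [hf, wd_smul v _ (inv_nonneg.2 hw.le), inv_mul_cancel₀ hw.ne']
  have hfe : ev f (v (finRotate (m + 3) 0) - v 0) = 0 := by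
    rw [hf, smul_ev, ← he0]
    have : ev ν e0 = 0 := by simp only [ev, hν]; ring
    rw [this, mul_zero]
  obtain ⟨g, hwg, hwh⟩ := exists_hexagon v hSC hn hwf
  have Af := adm_of_wd v hwf
  have Ag := adm_of_wd v hwg
  have Ah := adm_of_wd v hwh
  have hlow := lower (m := m + 2) Af Ag Ah hr
  refine ⟨hlow.1, fun hsum => ?_⟩
  have heq := hlow.2 hsum
  have hΔ : f.1 * g.2 - f.2 * g.1 ≠ 0 := by
    intro h0
    have hf0 : f ≠ 0 := by
      intro h1; rw [h1, wd_zero] at hwf; norm_num at hwf
    obtain ⟨c, hc⟩ := smul_of_cr hf0 (w := g) h0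
    rcases le_total 0 c with h1 | h1
    · have h2 : c = 1 := by
        rw [hc, wd_smul v _ h1, hwf, mul_one] at hwg; exact hwg
      have h3 : f + g = (2 : ℝ) • f := by rw [hc, h2, one_smul, two_smul]
      rw [h3, wd_smul v _ (by norm_num), hwf] at hwh
      norm_num at hwh
    · have h4 : g = -((-c) • f) := by rw [hc, neg_smul, neg_neg]
      have h2 : -c = 1 := by
        rw [h4, wd_neg, wd_smul v _ (by linarith), hwf, mul_one] at hwg; exact hwg
      have h3 : f + g = 0 := by rw [h4, h2, one_smul, add_neg_cancel]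
      rw [h3, wd_zero] at hwh
      norm_num at hwh
  obtain ⟨jf, kf, f1, f2, f3⟩ := Af
  obtain ⟨jg, kg, g1, g2, g3⟩ := Ag
  obtain ⟨jh, kh, h1, h2, h3⟩ := Ah
  have Bf : ∀ x ∈ convexHull ℝ (Set.range v), ev f (v jf) ≤ ev f x ∧
      ev f x ≤ ev f (v jf) + 1 := by
    intro x hx
    have a := hull_ge f1 hx
    have b := hull_le f2 hx
    constructor <;> linarith
  have Bg : ∀ x ∈ convexHull ℝ (Set.range v), ev g (v jg) ≤ ev g x ∧
      ev g x ≤ ev g (v jg) + 1 := by
    intro x hx
    have a := hull_ge g1 hx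
    have b := hull_le g2 hx
    constructor <;> linarith
  have Bh : ∀ x ∈ convexHull ℝ (Set.range v), ev (f + g) (v jh) ≤ ev f x + ev g x ∧
      ev f x + ev g x ≤ ev (f + g) (v jh) + 1 := by
    intro x hx
    have a := hull_ge h1 hx
    have b := hull_le h2 hx
    rw [add_ev f g x] at a b
    constructor <;> linarith
  obtain ⟨c1, c2, c3, c4, c5, c6⟩ := corners hSC Bf Bg Bh hΔ hr heq hfe
  set mf := ev f (v jf) with hmf
  set mg := ev g (v jg) with hmg
  set mh := ev (f + g) (v jh) with hmh
  set z0 := mh - mf - mg with hz0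
  have z00 : 0 ≤ z0 := by
    have := (Bf _ c6).1
    rw [ev_f_pt hΔ] at this; linarith
  have z01 : z0 ≤ 1 := by
    have := (Bf _ c6).2
    rw [ev_f_pt hΔ] at this; linarith
  have hpos : 0 < 1 + z0 := by linarith
  have ht : z0 / (1 + z0) * (1 + z0) = z0 := div_mul_cancel₀ _ hpos.ne'
  refine ⟨pt f g mf mg 0 0, pt f g mf mg (1 + z0) 0, pt f g mf mg 0 (1 + z0), ?_,
    z0 / (1 + z0), div_nonneg z00 hpos.le, ?_, ?_⟩
  · rw [affineIndependent_iff_not_collinear_set]
    intro hcol
    rw [collinear_iff_of_mem (p₀ := pt f g mf mg 0 0) (by simp)] at hcol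
    obtain ⟨w, hw⟩ := hcol
    obtain ⟨s1, hs1⟩ := hw (pt f g mf mg (1 + z0) 0) (by simp)
    obtain ⟨s2, hs2⟩ := hw (pt f g mf mg 0 (1 + z0)) (by simp)
    rw [vadd_eq_add] at hs1 hs2
    have q1 := congrArg (ev g) hs1
    have q2 := congrArg (ev g) hs2
    have q3 := congrArg (ev f) hs1
    have q4 := congrArg (ev f) hs2
    rw [ev_add, ev_smul, ev_g_pt hΔ, ev_g_pt hΔ] at q1 q2
    rw [ev_add, ev_smul, ev_f_pt hΔ, ev_f_pt hΔ] at q3 q4
    have p1 : s1 * ev g w = 1 + z0 := by linarith
    have p2 : s2 * ev g w = 0 := by linarith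
    have p3 : s1 * ev f w = 0 := by linarith
    have p4 : s2 * ev f w = 1 + z0 := by linarith
    rcases mul_eq_zero.1 p2 with h5 | h5
    · rw [h5, zero_mul] at p4; linarith
    · rw [h5, mul_zero] at p1; linarith
  · rw [div_le_iff₀ hpos]; linarith
  · have E1 : pt f g mf mg 0 0 + (z0 / (1 + z0)) • (pt f g mf mg (1 + z0) 0 - pt f g mf mg 0 0) =
        pt f g mf mg z0 0 := by
      rw [pt_line]; congr 1
      · rw [sub_zero, ht, zero_add]
      · ring
    have E2 : pt f g mf mg 0 0 + (z0 / (1 + z0)) • (pt f g mf mg 0 (1 + z0) - pt f g mf mg 0 0) =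
        pt f g mf mg 0 z0 := by
      rw [pt_line]; congr 1
      · ring
      · rw [sub_zero, ht, zero_add]
    have E3 : pt f g mf mg (1 + z0) 0 +
        (z0 / (1 + z0)) • (pt f g mf mg 0 0 - pt f g mf mg (1 + z0) 0) = pt f g mf mg 1 0 := by
      rw [pt_line]; congr 1
      · linear_combination (-1 : ℝ) * ht
      · ring
    have E4 : pt f g mf mg (1 + z0) 0 +
        (z0 / (1 + z0)) • (pt f g mf mg 0 (1 + z0) - pt f g mf mg (1 + z0) 0) =
        pt f g mf mg 1 z0 := by
      rw [pt_line]; congr 1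
      · linear_combination (-1 : ℝ) * ht
      · linear_combination ht
    have E5 : pt f g mf mg 0 (1 + z0) +
        (z0 / (1 + z0)) • (pt f g mf mg 0 0 - pt f g mf mg 0 (1 + z0)) = pt f g mf mg 0 1 := by
      rw [pt_line]; congr 1
      · ring
      · linear_combination (-1 : ℝ) * ht
    have E6 : pt f g mf mg 0 (1 + z0) +
        (z0 / (1 + z0)) • (pt f g mf mg (1 + z0) 0 - pt f g mf mg 0 (1 + z0)) =
        pt f g mf mg z0 1 := by
      rw [pt_line]; congr 1
      · linear_combination ht
      · linear_combination (-1 : ℝ) * ht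
    rw [E1, E2, E3, E4, E5, E6]
    apply Set.Subset.antisymm
    · apply convexHull_min _ (convex_convexHull ℝ _)
      rintro _ ⟨i, rfl⟩
      have b1 := Bf _ (hvK i)
      have b2 := Bg _ (hvK i)
      have b3 := Bh _ (hvK i)
      rw [eq_pt (mf := mf) (mg := mg) hΔ (v i)]
      apply mem_of_bounds (convex_convexHull ℝ _) (z0 := z0) <;>
        first
          | (apply subset_convexHull; simp)
          | linarith
    · apply convexHull_min _ (convex_convexHull ℝ _)
      intro z hz
      simp only [Set.mem_insert_iff, Set.mem_singleton_iff] at hz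
      rcases hz with rfl | rfl | rfl | rfl | rfl | rfl
      · exact c1
      · exact c6
      · exact c2
      · exact c3
      · exact c5
      · exact c4

end Pool.Agent.S12883
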