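import Pool.Statements.S12897

set_option autoImplicit false
open Pool Pool.MP_26524f_gt

namespace Pool.Agent.S12897

/-- The trace on a relatively closed set, completed by the complement. -/
def ext (X C U : Set ℝ) : Set ℝ := (U ∩ C) ∪ (X \ C)

/-- The closed pieces, made increasing. -/
def cl (K : ℕ → Set ℝ) (n : ℕ) : Set ℝ := ⋃ i ∈ Finset.range (n + 1), K i

theorem isClosed_cl {K : ℕ → Set ℝ} (hK : ∀ n, IsClosed (K n)) (n : ℕ) : IsClosed (cl K n) :=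
  isClosed_biUnion_finset (fun i _ => hK i)

theorem cl_sub {K : ℕ → Set ℝ} (n : ℕ) : cl K n ⊆ ⋃ i, K i := by
  intro x hx
  simp only [cl, Set.mem_iUnion] at hx ⊢
  obtain ⟨i, _, hi⟩ := hx
  exact ⟨i, hi⟩

theorem exists_cl {K : ℕ → Set ℝ} (F : Finset ℝ) (hF : (↑F : Set ℝ) ⊆ ⋃ i, K i) :
    ∃ n, (↑F : Set ℝ) ⊆ cl K n := by
  classical
  induction F using Finset.induction_on with
  | empty => exact ⟨0, by simp⟩
  | insert a F ha ih =>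
    rw [Finset.coe_insert, Set.insert_subset_iff] at hF
    obtain ⟨n, hn⟩ := ih hF.2
    obtain ⟨i, hi⟩ := Set.mem_iUnion.1 hF.1
    refine ⟨max n i, ?_⟩
    rw [Finset.coe_insert, Set.insert_subset_iff]
    constructor
    · simp only [cl, Set.mem_iUnion]
      exact ⟨i, by simp, hi⟩
    · intro x hx
      have := hn hx
      simp only [cl, Set.mem_iUnion] at this ⊢
      obtain ⟨j, hj, hxj⟩ := this
      refine ⟨j, ?_, hxj⟩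
      simp only [Finset.mem_range] at hj ⊢
      omega

/-- The extended family is an open gamma-cover of the big set. -/
theorem ext_gamma {X Y C : Set ℝ} (hC : IsClosed C) (hYX : Y ⊆ X) (hXC : X ∩ C ⊆ Y)
    {𝒰 : Set (Set ℝ)}
    (h1 : ∀ U ∈ 𝒰, ∃ V : Set ℝ, IsOpen V ∧ U = V ∩ Y)
    (h3 : Y ⊆ ⋃₀ 𝒰) (h4 : 𝒰.Infinite) (h5 : ∀ x ∈ Y, {U ∈ 𝒰 | x ∉ U}.Finite)
    (hno : ∀ U ∈ 𝒰, ¬ X ∩ C ⊆ U) :
    (∀ U ∈ ext X C '' 𝒰, ∃ V : Set ℝ, IsOpen V ∧ U = V ∩ X) ∧ X ∉ ext X C '' 𝒰 ∧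
      X ⊆ ⋃₀ (ext X C '' 𝒰) ∧ (ext X C '' 𝒰).Infinite ∧
      ∀ x ∈ X, {U ∈ ext X C '' 𝒰 | x ∉ U}.Finite := by
  refine ⟨?_, ?_, ?_, ?_, ?_⟩
  · rintro _ ⟨U, hU, rfl⟩
    obtain ⟨V, hV, rfl⟩ := h1 U hU
    refine ⟨V ∪ Cᶜ, hV.union hC.isOpen_compl, ?_⟩
    ext x
    simp only [ext, Set.mem_union, Set.mem_inter_iff, Set.mem_sdiff, Set.mem_compl_iff]
    constructor
    · rintro (⟨⟨hxV, hxY⟩, hxC⟩ | ⟨hxX, hxC⟩)
      · exact ⟨Or.inl hxV, hYX hxY⟩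
      · exact ⟨Or.inr hxC, hxX⟩
    · rintro ⟨hx, hxX⟩
      by_cases hxC : x ∈ C
      · refine Or.inl ⟨⟨?_, hXC ⟨hxX, hxC⟩⟩, hxC⟩
        rcases hx with hx | hx
        · exact hx
        · exact absurd hxC hx
      · exact Or.inr ⟨hxX, hxC⟩
  · rintro ⟨U, hU, hUX⟩
    apply hno U hU
    rintro x ⟨hxX, hxC⟩
    have : x ∈ ext X C U := by rw [hUX]; exact hxX
    rcases this with ⟨h, _⟩ | ⟨_, h⟩
    · exact h
    · exact absurd hxC h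
  · intro x hxX
    by_cases hxC : x ∈ C
    · obtain ⟨U, hU, hxU⟩ := h3 (hXC ⟨hxX, hxC⟩)
      exact ⟨ext X C U, ⟨U, hU, rfl⟩, Or.inl ⟨hxU, hxC⟩⟩
    · obtain ⟨U, hU⟩ := h4.nonempty
      exact ⟨ext X C U, ⟨U, hU, rfl⟩, Or.inr ⟨hxX, hxC⟩⟩
  · intro hfin
    apply h4
    have hsub : 𝒰 ⊆ ⋃ W ∈ ext X C '' 𝒰, {U ∈ 𝒰 | ext X C U = W} := by
      intro U hU
      simp only [Set.mem_iUnion]
      exact ⟨ext X C U, ⟨U, hU, rfl⟩, hU, rfl⟩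
    refine Set.Finite.subset (hfin.biUnion ?_) hsub
    rintro _ ⟨U, hU, rfl⟩
    have := hno U hU
    rw [Set.not_subset] at this
    obtain ⟨x, ⟨hxX, hxC⟩, hxU⟩ := this
    refine Set.Finite.subset (h5 x (hXC ⟨hxX, hxC⟩)) ?_
    rintro U' ⟨hU', hEq⟩
    refine ⟨hU', fun hxU' => hxU ?_⟩
    have h6 : x ∈ ext X C U' := Or.inl ⟨hxU', hxC⟩
    rw [hEq] at h6
    rcases h6 with ⟨h, _⟩ | ⟨_, h⟩
    · exact h
    · exact absurd hxC h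
  · intro x hxX
    by_cases hxC : x ∈ C
    · refine Set.Finite.subset ((h5 x (hXC ⟨hxX, hxC⟩)).image (ext X C)) ?_
      rintro _ ⟨⟨U, hU, rfl⟩, hx⟩
      exact ⟨U, ⟨hU, fun hxU => hx (Or.inl ⟨hxU, hxC⟩)⟩, rfl⟩
    · refine Set.Finite.subset Set.finite_empty ?_
      rintro _ ⟨⟨U, hU, rfl⟩, hx⟩
      exact absurd (Or.inr ⟨hxX, hxC⟩) hx

/-- If a set of reals has the property that from any sequence of open γ-covers one can pick finitely many sets from each so that together they form an open ω-cover, then every F_σ subset (relative to the set) has the same property. -/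
theorem result :
    ∀ P : Set ℝ → Prop,
      (∀ X : Set ℝ, P X ↔
        ∀ 𝒰 : ℕ → Set (Set ℝ),
          (∀ n, (∀ U ∈ 𝒰 n, ∃ V : Set ℝ, IsOpen V ∧ U = V ∩ X) ∧ X ∉ 𝒰 n ∧
              X ⊆ ⋃₀ (𝒰 n) ∧ (𝒰 n).Infinite ∧
              ∀ x ∈ X, {U ∈ 𝒰 n | x ∉ U}.Finite) →
          ∃ ℱ : ℕ → Set (Set ℝ), (∀ n, (ℱ n).Finite ∧ ℱ n ⊆ 𝒰 n) ∧
            X ∉ (⋃ n, ℱ n) ∧ X ⊆ ⋃₀ (⋃ n, ℱ n) ∧
            ∀ F : Finset ℝ, (↑F : Set ℝ) ⊆ X →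
              ∃ U ∈ (⋃ n, ℱ n), (↑F : Set ℝ) ⊆ U) →
      ∀ X Y : Set ℝ,
        (∃ K : ℕ → Set ℝ, (∀ n, IsClosed (K n)) ∧ Y = X ∩ (⋃ n, K n)) →
        P X → P Y := by
  classical
  intro P hP X Y hK hX
  obtain ⟨K, hKc, hY⟩ := hK
  rw [hP] at hX ⊢
  intro 𝒰 h𝒰
  have hYX : Y ⊆ X := by rw [hY]; exact Set.inter_subset_left
  have hXC : ∀ n, X ∩ cl K n ⊆ Y := by
    rintro n x ⟨hx, hxn⟩
    rw [hY]
    exact ⟨hx, cl_sub n hxn⟩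
  -- for every stage a selection along the indices `Nat.pair n k`
  have key : ∀ n, ∃ ℱ : ℕ → Set (Set ℝ), (∀ k, (ℱ k).Finite ∧ ℱ k ⊆ 𝒰 (Nat.pair n k)) ∧
      ∀ F : Finset ℝ, (↑F : Set ℝ) ⊆ X ∩ cl K n → ∃ k, ∃ U ∈ ℱ k, (↑F : Set ℝ) ⊆ U := by
    intro n
    by_cases hex : ∃ k, ∃ U ∈ 𝒰 (Nat.pair n k), X ∩ cl K n ⊆ U
    · obtain ⟨k, U, hU, hsub⟩ := hex
      refine ⟨fun j => if j = k then {U} else ∅, fun j => ?_, fun F hF => ⟨k, U, ?_, hF.trans hsub⟩⟩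
      · by_cases hj : j = k
        · subst hj
          simp [hU]
        · simp [hj]
      · simp
    · push Not at hex
      obtain ⟨𝒢, h𝒢1, -, -, h𝒢4⟩ := hX (fun k => ext X (cl K n) '' 𝒰 (Nat.pair n k)) (fun k =>
        ext_gamma (isClosed_cl hKc n) hYX (hXC n) (h𝒰 (Nat.pair n k)).1 (h𝒰 (Nat.pair n k)).2.2.1
          (h𝒰 (Nat.pair n k)).2.2.2.1 (h𝒰 (Nat.pair n k)).2.2.2.2 (hex k))
      have hch : ∀ k, ∃ ℋ : Set (Set ℝ), ℋ ⊆ 𝒰 (Nat.pair n k) ∧ ℋ.Finite ∧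
          ext X (cl K n) '' ℋ = 𝒢 k := by
        intro k
        obtain ⟨ℋ, h1, h2, h3⟩ := Set.exists_subset_image_finite_and.1
          ⟨𝒢 k, (h𝒢1 k).2, (h𝒢1 k).1, rfl⟩
        exact ⟨ℋ, h1, h2, h3.symm⟩
      choose ℋ hH1 hH2 hH3 using hch
      refine ⟨ℋ, fun k => ⟨hH2 k, hH1 k⟩, fun F hF => ?_⟩
      obtain ⟨W, hW, hFW⟩ := h𝒢4 F (hF.trans Set.inter_subset_left)
      obtain ⟨k, hk⟩ := Set.mem_iUnion.1 hW
      rw [← hH3 k] at hk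
      obtain ⟨U, hU, rfl⟩ := hk
      refine ⟨k, U, hU, fun x hx => ?_⟩
      rcases hFW hx with ⟨h, _⟩ | ⟨_, h⟩
      · exact h
      · exact absurd (hF hx).2 h
  choose ℱ hF1 hF2 using key
  have hmain : ∀ F : Finset ℝ, (↑F : Set ℝ) ⊆ Y →
      ∃ U ∈ (⋃ m : ℕ, ℱ (Nat.unpair m).1 (Nat.unpair m).2), (↑F : Set ℝ) ⊆ U := by
    intro F hF
    obtain ⟨n, hn⟩ := exists_cl F (K := K) (fun x hx => by
      have := hF hx
      rw [hY] at this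
      exact this.2)
    obtain ⟨k, U, hU, hFU⟩ := hF2 n F (fun x hx => ⟨hYX (hF hx), hn hx⟩)
    refine ⟨U, Set.mem_iUnion.2 ⟨Nat.pair n k, ?_⟩, hFU⟩
    rw [Nat.unpair_pair]
    exact hU
  have hsubm : ∀ m, ℱ (Nat.unpair m).1 (Nat.unpair m).2 ⊆ 𝒰 m := by
    intro m
    have := (hF1 (Nat.unpair m).1 (Nat.unpair m).2).2
    rwa [Nat.pair_unpair] at this
  refine ⟨fun m => ℱ (Nat.unpair m).1 (Nat.unpair m).2, fun m => ⟨(hF1 _ _).1, hsubm m⟩, ?_, ?_,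
    hmain⟩
  · intro h
    obtain ⟨m, hm⟩ := Set.mem_iUnion.1 h
    exact (h𝒰 m).2.1 (hsubm m hm)
  · intro x hx
    obtain ⟨U, hU, hxU⟩ := hmain {x} (by simpa using hx)
    exact ⟨U, hU, hxU (by simp)⟩

end Pool.Agent.S12897
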