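import Pool.Statements.S12905
import Pool.Agent.Y513.Illum4

set_option autoImplicit false
open Pool Pool.MP_26bcd4_gt

namespace Pool.Agent.S12905

open Pool.Agent.Y513.Illum

/-- two points of a convex body whose midpoint is not interior are in a common supporting plane -/
theorem exists_sup {K : Set E} (hconv : Convex ℝ K) (hint : (interior K).Nonempty) {p q : E}
    (hp : p ∈ K) (hq : q ∈ K) (hm : ((1 : ℝ) - 1 / 2) • q + (1 / 2 : ℝ) • p ∉ interior K) :
    ∃ (f : E →L[ℝ] ℝ) (c : ℝ), Sup K f c ∧ f p = c ∧ f q = c := by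
  obtain ⟨f, hf⟩ := geometric_hahn_banach_open_point hconv.interior isOpen_interior hm
  set c := f (((1 : ℝ) - 1 / 2) • q + (1 / 2 : ℝ) • p) with hc
  have hsup : Sup K f c := by
    refine ⟨?_, hf⟩
    have hcl : K ⊆ closure (interior K) := by
      rw [hconv.closure_interior_eq_closure_of_nonempty_interior hint]
      exact subset_closure
    have hle : closure (interior K) ⊆ {z | f z ≤ c} :=
      closure_minimal (fun z hz => (hf z hz).le) (isClosed_le f.continuous continuous_const)
    exact fun z hz => hle (hcl hz)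
  have h1 := hsup.1 p hp
  have h2 := hsup.1 q hq
  have h3 : c = 1 / 2 * f q + 1 / 2 * f p := by
    rw [hc, map_add, map_smul, map_smul, smul_eq_mul, smul_eq_mul]
    norm_num
  exact ⟨f, c, hsup, by linarith, by linarith⟩

/-- There is a natural number N such that for every compact convex set with nonempty interior in 3-space, every primitive inner illuminating set of it (a boundary subset illuminating from inside, no proper subset of which does) has at most N elements. -/
theorem result :
    ∃ N : ℕ, ∀ K : Set (EuclideanSpace ℝ (Fin 3)),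
      IsCompact K → Convex ℝ K → (interior K).Nonempty →
      ∀ A : Set (EuclideanSpace ℝ (Fin 3)),
        (A ⊆ frontier K ∧
          ∀ x ∈ frontier K, ∃ a ∈ A, ∃ ε : ℝ, 0 < ε ∧ ε < 1 ∧
            (1 - ε) • x + ε • a ∈ interior K) →
        (∀ B : Set (EuclideanSpace ℝ (Fin 3)), B ⊆ A → B ≠ A →
          ¬ (B ⊆ frontier K ∧
            ∀ x ∈ frontier K, ∃ b ∈ B, ∃ ε : ℝ, 0 < ε ∧ ε < 1 ∧
              (1 - ε) • x + ε • b ∈ interior K)) →
        A.encard ≤ (N : ℕ∞) := by
  classical
  refine ⟨44, fun K hK hconv hint A hA hprim => ?_⟩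
  obtain ⟨hAK, hill⟩ := hA
  by_contra hcon
  push Not at hcon
  have h45 : ((45 : ℕ) : ℕ∞) ≤ A.encard := by
    have h1 : ((44 : ℕ) : ℕ∞) + 1 ≤ A.encard := Order.add_one_le_of_lt hcon
    exact_mod_cast h1
  obtain ⟨t, htA, htc⟩ := Set.exists_subset_encard_eq h45
  have htfin : t.Finite := Set.finite_of_encard_eq_coe htc
  -- the witnesses
  have hwit : ∀ a : E, a ∈ A → ∃ x ∈ frontier K, ∀ b ∈ A, b ≠ a → ∀ ε : ℝ, 0 < ε → ε < 1 →
      (1 - ε) • x + ε • b ∉ interior K := by
    intro a ha
    have h1 := hprim (A \ {a}) Set.diff_subset (by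
      intro he
      have : a ∈ A \ {a} := by rw [he]; exact ha
      exact this.2 rfl)
    have h2 : ¬ ∀ x ∈ frontier K, ∃ b ∈ A \ {a}, ∃ ε : ℝ, 0 < ε ∧ ε < 1 ∧
        (1 - ε) • x + ε • b ∈ interior K := fun h => h1 ⟨Set.diff_subset.trans hAK, h⟩
    push Not at h2
    obtain ⟨x, hx, hx2⟩ := h2
    exact ⟨x, hx, fun b hb hba ε h3 h4 => hx2 b ⟨hb, hba⟩ ε h3 h4⟩
  choose! w hw hw2 using hwit
  have hfrK : frontier K ⊆ K := hK.isClosed.frontier_subset
  -- the crown
  have hcrown : Crown K (fun i : t => (i : E)) (fun i : t => w i) := by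
    refine ⟨fun i => hfrK (hAK (htA i.2)), fun i => hfrK (hw _ (htA i.2)), ?_, ?_⟩
    · intro i j hij
      have hne : (i : E) ≠ (j : E) := fun h => hij (Subtype.ext h)
      refine exists_sup hconv hint (hfrK (hAK (htA i.2))) (hfrK (hw _ (htA j.2))) ?_
      exact hw2 _ (htA j.2) _ (htA i.2) hne (1 / 2) (by norm_num) (by norm_num)
    · intro i f c hf h1 h2
      obtain ⟨b, hb, ε, he0, he1, hin⟩ := hill _ (hw _ (htA i.2))
      have hbi : b = (i : E) := by
        by_contra hne
        exact hw2 _ (htA i.2) b hb hne ε he0 he1 hin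
      have h3 := hf.2 _ hin
      rw [hbi, map_add, map_smul, map_smul, smul_eq_mul, smul_eq_mul, h1, h2] at h3
      linarith
  obtain ⟨o, ho⟩ := hint
  haveI : Fintype t := htfin.fintype
  have hle := hcrown.card_le ho (Finset.univ : Finset t)
  have hcard : Fintype.card t = 45 := by
    have h1 : t.encard = (Fintype.card t : ℕ∞) := by
      rw [Set.encard_eq_coe_toFinset_card, Set.toFinset_card]
    rw [h1] at htc
    exact_mod_cast htc
  rw [Finset.card_univ, hcard] at hle
  omega

end Pool.Agent.S12905
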