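import Pool.Statements.S12941
import Pool.Agent.Y493.Br.Main

set_option autoImplicit false
open Pool Pool.MP_2b07f9_gt

namespace Pool.Agent.S12941

/-- For any smooth immersed hypersurface patch (open connected domain) in the unit 3-sphere of R^5's S^4 with unit normal, if its shape operator is traceless (minimal) and trace of its square is constant (constant scalar curvature), then trace of its cube is constant (constant principal curvatures). -/
theorem result :
  ∀ (U : Set (EuclideanSpace ℝ (Fin 3)))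
    (f ν : EuclideanSpace ℝ (Fin 3) → EuclideanSpace ℝ (Fin 5))
    (S : EuclideanSpace ℝ (Fin 3) → Matrix (Fin 3) (Fin 3) ℝ),
    IsOpen U → IsConnected U →
    ContDiffOn ℝ ((⊤ : ℕ∞) : WithTop ℕ∞) f U →
    ContDiffOn ℝ ((⊤ : ℕ∞) : WithTop ℕ∞) ν U →
    (∀ x ∈ U, Function.Injective (fderiv ℝ f x)) →
    (∀ x ∈ U, ‖f x‖ = 1) →
    (∀ x ∈ U, ‖ν x‖ = 1 ∧ inner ℝ (f x) (ν x) = 0 ∧
      ∀ i : Fin 3, inner ℝ (fderiv ℝ f x (EuclideanSpace.single i (1 : ℝ))) (ν x) = 0) →
    (∀ x ∈ U, S x =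
      (Matrix.of (fun (i : Fin 3) (j : Fin 3) =>
        inner ℝ (fderiv ℝ f x (EuclideanSpace.single i (1 : ℝ)))
          (fderiv ℝ f x (EuclideanSpace.single j (1 : ℝ)))))⁻¹ *
      Matrix.of (fun (i : Fin 3) (j : Fin 3) =>
        -inner ℝ (fderiv ℝ f x (EuclideanSpace.single i (1 : ℝ)))
          (fderiv ℝ ν x (EuclideanSpace.single j (1 : ℝ))))) →
    (∀ x ∈ U, Matrix.trace (S x) = 0) →
    (∃ c : ℝ, ∀ x ∈ U, Matrix.trace (S x * S x) = c) →
    ∃ d : ℝ, ∀ x ∈ U, Matrix.trace (S x * S x * S x) = d := by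
  exact Y463.BR.g4 (Pool.Agent.Y563.BR.g1b Pool.Agent.Y167.BR.g1a) Y978.BR.g2
    Pool.Agent.Y681.BR.g3 Y493.Br.stA

end Pool.Agent.S12941
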