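import Pool.Statements.S12948
import Pool.Agent.H902R3.ZA.Defs
import Pool.Agent.H902R3.ZA.LBM
import Pool.Agent.H902R3.ZA.PLA
import Pool.Agent.H902R3.ZA.PLN
import Pool.Agent.H902R3.ZA.RES
import Pool.Agent.H902R3.ZA.DOM
import Pool.Agent.H902R3.ZA.SEC
import Pool.Agent.H902R3.ZA.SC
import Pool.Agent.H902R3.ZA.LAW
import Pool.Agent.H902R3.ZA.LOW
import Pool.Agent.H902R3.ZA.PHI
import Pool.Agent.H902R3.ZA.ROT
import Pool.Agent.H902R3.ZA.QJ
import Pool.Agent.H902R3.ZA.JEN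
import Pool.Agent.H902R3.ZA.MEAN
import Pool.Agent.H902R3.ZA.FIX
import Pool.Agent.H902R3.ZA.TWO
import Pool.Agent.H902R3.ZA.SHI
import Pool.Agent.H902R3.ZA.AVG
import Pool.Agent.H902R3.ZA.COL
import Pool.Agent.H902R3.ZA.STEPL
import Pool.Agent.H902R3.ZA.STEP
import Pool.Agent.H902R3.ZA.ITER
import Pool.Agent.H902R3.ZA.ZSUP
import Pool.Agent.H902R3.ZA.ZOND
import Pool.Agent.H902R3.ZA.FIN
import Pool.Agent.H172R2.ZS.LEW
import Pool.Agent.H172R2.ZS.BAS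
import Pool.Agent.H172R2.ZS.ONE
import Pool.Agent.H172R2.ZS.DET
import Pool.Agent.H172R2.ZS.MAP
import Pool.Agent.H172R2.ZS.GAU
import Pool.Agent.H172R2.GS.HAM

set_option autoImplicit false
open Pointwise
open Pool Pool.MP_2c1b2b_gt

namespace Pool.Agent.S12948

open Pool.Agent.H902R3.ZA Pool.Agent.H172R2.ZS in
/-- all steps together (the starting result `LinearSegments`) -/
theorem main : S_FIN := by
  have hGAU : Pool.Agent.H172R2.ZS.S_GAU := GAU_ok (MAP_ok ONE_ok BAS_ok DET_ok)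
  have hHAM : Pool.Agent.H172R2.ZS.S_HAM := Pool.Agent.H172R2.GS.HAM_ok
  have hPLN : S_PLN := PLN_ok (PLA_ok LBM_ok)
  have hDOM : S_DOM := DOM_ok RES_ok
  have hSC : S_SC := SC_ok RES_ok (SEC_ok hPLN)
  have hLOW : S_LOW := LOW_ok hDOM hSC LAW_ok hGAU
  have hJEN : S_JEN := JEN_ok hPLN ROT_ok QJ_ok
  have hTWO : S_TWO := TWO_ok hLOW PHI_ok hJEN MEAN_ok (FIX_ok PHI_ok)
  have hCOL : S_COL := COL_ok SHI_ok AVG_ok hHAM
  exact FIN_ok (ITER_ok (STEP_ok (STEPL_ok hTWO hCOL) LEW_ok BAS_ok)) ZSUP_ok ZOND_ok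

theorem mem_seg {n : ℕ} (v x : EuclideanSpace ℝ (Fin n)) :
    x ∈ segment ℝ (-v) v ↔ ∃ t : ℝ, t ∈ Set.Icc (-1 : ℝ) 1 ∧ x = t • v := by
  rw [segment_eq_image]
  constructor
  · rintro ⟨θ, ⟨h0, h1⟩, rfl⟩
    refine ⟨2 * θ - 1, ⟨by linarith, by linarith⟩, ?_⟩
    simp only [smul_neg]
    module
  · rintro ⟨t, ⟨h0, h1⟩, rfl⟩
    refine ⟨(t + 1) / 2, ⟨by linarith, by linarith⟩, ?_⟩
    simp only [smul_neg]
    module

theorem sum_seg {n m : ℕ} (v : Fin m → EuclideanSpace ℝ (Fin n)) :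
    (∑ i, segment ℝ (-v i) (v i)) = Pool.Agent.H172R2.ZS.Zon v := by
  ext x
  rw [Set.mem_fintype_sum]
  constructor
  · rintro ⟨g, hg, rfl⟩
    choose t ht hgt using fun i => (mem_seg (v i) (g i)).1 (hg i)
    exact ⟨t, ht, Finset.sum_congr rfl fun i _ => hgt i⟩
  · rintro ⟨t, ht, rfl⟩
    exact ⟨fun i => t i • v i, fun i => (mem_seg _ _).2 ⟨t i, ht i, rfl⟩, rfl⟩

theorem zon_bdd {n m : ℕ} (v : Fin m → EuclideanSpace ℝ (Fin n)) :
    Bornology.IsBounded (Pool.Agent.H172R2.ZS.Zon v) := by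
  refine (isBounded_iff_forall_norm_le).2 ⟨∑ j, ‖v j‖, ?_⟩
  rintro x ⟨t, ht, rfl⟩
  refine (norm_sum_le _ _).trans (Finset.sum_le_sum fun j _ => ?_)
  rw [norm_smul, Real.norm_eq_abs]
  have h1 : |t j| ≤ 1 := abs_le.2 ⟨(ht j).1, (ht j).2⟩
  have h2 := norm_nonneg (v j)
  nlinarith

theorem zon_comb {n m : ℕ} (v : Fin m → EuclideanSpace ℝ (Fin n))
    {x y : EuclideanSpace ℝ (Fin n)} (hx : x ∈ Pool.Agent.H172R2.ZS.Zon v)
    (hy : y ∈ Pool.Agent.H172R2.ZS.Zon v) {a b : ℝ} (hab : |a| + |b| ≤ 1) :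
    a • x + b • y ∈ Pool.Agent.H172R2.ZS.Zon v := by
  obtain ⟨t, ht, rfl⟩ := hx
  obtain ⟨u, hu, rfl⟩ := hy
  refine ⟨fun j => a * t j + b * u j, fun j => ?_, ?_⟩
  · have h1 : |t j| ≤ 1 := abs_le.2 ⟨(ht j).1, (ht j).2⟩
    have h2 : |u j| ≤ 1 := abs_le.2 ⟨(hu j).1, (hu j).2⟩
    have h3 : |a * t j + b * u j| ≤ 1 := by
      refine (abs_add_le _ _).trans ?_
      rw [abs_mul, abs_mul]
      have := abs_nonneg a
      have := abs_nonneg b
      nlinarith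
    exact ⟨(abs_le.1 h3).1, (abs_le.1 h3).2⟩
  · simp only [Finset.smul_sum, smul_smul, add_smul, Finset.sum_add_distrib]

theorem limit_comb {n : ℕ} {K : Set (EuclideanSpace ℝ (Fin n))} (hK : IsCompact K)
    (hlim : ∀ δ : ℝ, 0 < δ → ∃ m : ℕ, ∃ v : Fin m → EuclideanSpace ℝ (Fin n),
      Metric.hausdorffDist K (Pool.Agent.H172R2.ZS.Zon v) < δ)
    {x y : EuclideanSpace ℝ (Fin n)} (hx : x ∈ K) (hy : y ∈ K) {a b : ℝ} (hab : |a| + |b| ≤ 1) :
    a • x + b • y ∈ K := by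
  rw [← hK.isClosed.closure_eq, Metric.mem_closure_iff]
  intro ε hε
  obtain ⟨m, v, hv⟩ := hlim (ε / 2) (by linarith)
  have hne : (Pool.Agent.H172R2.ZS.Zon v).Nonempty :=
    ⟨0, fun _ => 0, fun _ => ⟨by norm_num, by norm_num⟩, by simp⟩
  have hfin : Metric.hausdorffEDist K (Pool.Agent.H172R2.ZS.Zon v) ≠ ⊤ :=
    Metric.hausdorffEDist_ne_top_of_nonempty_of_bounded ⟨x, hx⟩ hne hK.isBounded (zon_bdd v)
  obtain ⟨x', hx', hxx⟩ := Metric.exists_dist_lt_of_hausdorffDist_lt hx hv hfin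
  obtain ⟨y', hy', hyy⟩ := Metric.exists_dist_lt_of_hausdorffDist_lt hy hv hfin
  obtain ⟨w, hw, hww⟩ := Metric.exists_dist_lt_of_hausdorffDist_lt' (zon_comb v hx' hy' hab)
    hv hfin
  refine ⟨w, hw, ?_⟩
  have h1 : dist (a • x + b • y) (a • x' + b • y') ≤ ε / 2 := by
    rw [dist_eq_norm]
    have e : a • x + b • y - (a • x' + b • y') = a • (x - x') + b • (y - y') := by module
    rw [e]
    refine (norm_add_le _ _).trans ?_
    rw [norm_smul, norm_smul, Real.norm_eq_abs, Real.norm_eq_abs]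
    rw [dist_eq_norm] at hxx hyy
    have := abs_nonneg a
    have := abs_nonneg b
    nlinarith [norm_nonneg (x - x'), norm_nonneg (y - y')]
  have h2 := dist_triangle (a • x + b • y) (a • x' + b • y') w
  rw [dist_comm w] at hww
  linarith

/-- The negation of the preceding statement: For some ε>0 and every constant C, there is a dimension n and a zonoid K in ℝⁿ that is not within Banach–Mazur distance 1+ε of any sum of at most C·n segments, i.e. the bound C(ε)·n fails in general. -/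
theorem result :
    ¬ (∃ ε : ℝ, 0 < ε ∧ ∀ C : ℝ, ∃ n : ℕ, ∃ K : Set (EuclideanSpace ℝ (Fin n)),
      IsCompact K ∧ (interior K).Nonempty ∧
      (∀ δ : ℝ, 0 < δ → ∃ m : ℕ, ∃ v : Fin m → EuclideanSpace ℝ (Fin n),
          Metric.hausdorffDist K (∑ i, segment ℝ (-v i) (v i)) < δ) ∧
      ¬ ∃ m : ℕ, (m : ℝ) ≤ C * n ∧
          ∃ v : Fin m → EuclideanSpace ℝ (Fin n),
          ∃ T : EuclideanSpace ℝ (Fin n) ≃ₗ[ℝ] EuclideanSpace ℝ (Fin n),
            T '' K ⊆ ∑ i, segment ℝ (-v i) (v i) ∧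
            ∑ i, segment ℝ (-v i) (v i) ⊆ (1 + ε) • (T '' K)) := by
  rintro ⟨ε₀, hε₀, H⟩
  obtain ⟨C, hC, hmain⟩ := main
  have hε : 0 < min ε₀ (1 / 2) := lt_min hε₀ (by norm_num)
  have hε1 : min ε₀ (1 / 2) < 1 := (min_le_right _ _).trans_lt (by norm_num)
  have hεε : min ε₀ (1 / 2) ≤ ε₀ := min_le_left _ _
  generalize min ε₀ (1 / 2) = ε at hε hε1 hεε
  obtain ⟨n, K, hK, hint, hlim, hno⟩ := H (C / ε ^ 2)
  apply hno
  simp only [sum_seg] at hlim ⊢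
  have hne : K.Nonempty := hint.mono interior_subset
  have hzonoid : Pool.Agent.H902R3.ZA.IsZonoid K := by
    refine ⟨?_, hK, hint, ?_, ?_⟩
    · intro x hx y hy a b ha hb hab
      exact limit_comb hK hlim hx hy (by rw [abs_of_nonneg ha, abs_of_nonneg hb]; exact hab.le)
    · intro x hx
      have := limit_comb hK hlim hx hx (a := -1) (b := 0) (by norm_num)
      simpa using this
    · intro δ hδ
      obtain ⟨m, v, hv⟩ := hlim δ hδ
      refine ⟨m, _, ⟨0, v, rfl⟩, ?_⟩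
      simpa using hv
  obtain ⟨M, v, hM, hZK, hKZ⟩ := hmain n K hzonoid ε hε hε1
  refine ⟨M, hM.trans (le_of_eq (by ring)), v,
    LinearEquiv.smulOfNeZero ℝ _ ((1 + ε)⁻¹) (inv_ne_zero (by linarith)), ?_, ?_⟩
  · rintro _ ⟨x, hx, rfl⟩
    obtain ⟨y, hy, rfl⟩ := hKZ x hx
    have e : (LinearEquiv.smulOfNeZero ℝ (EuclideanSpace ℝ (Fin n)) ((1 + ε)⁻¹)
        (inv_ne_zero (by linarith))) ((1 + ε) • y) = y := by
      show (1 + ε)⁻¹ • (1 + ε) • y = y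
      rw [smul_smul, inv_mul_cancel₀ (by linarith), one_smul]
    rw [e]
    exact hy
  · intro z hz
    have hzK := hZK hz
    -- `z = (1 + ε₀) • T (s • z)` with `s = (1 + ε) / (1 + ε₀) ≤ 1`
    have hs : |(1 + ε) / (1 + ε₀)| + |(0 : ℝ)| ≤ 1 := by
      rw [abs_zero, add_zero, abs_of_nonneg (by positivity), div_le_one (by linarith)]
      linarith
    have hmem := limit_comb hK hlim hzK hzK hs
    rw [zero_smul, add_zero] at hmem
    refine Set.mem_smul_set.2 ⟨_, ⟨_, hmem, rfl⟩, ?_⟩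
    show (1 + ε₀) • (1 + ε)⁻¹ • ((1 + ε) / (1 + ε₀)) • z = z
    rw [smul_smul, smul_smul]
    have : (1 + ε₀) * ((1 + ε)⁻¹ * ((1 + ε) / (1 + ε₀))) = 1 := by
      have h1 : (1 + ε) ≠ 0 := by linarith
      have h2 : (1 + ε₀) ≠ 0 := by linarith
      field_simp
    rw [← mul_assoc] at this
    rw [this, one_smul]

end Pool.Agent.S12948
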