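import Pool.Statements.S12964
import Pool.Agent.Y455.Quad.Main

set_option autoImplicit false
open Matrix
open Pool Pool.MP_2ee781_gt

namespace Pool.Agent.S12964

/-- The negation of the preceding statement: If a faithful det ±1 linear image of a Coxeter group is discrete, preserves a properly convex open cone, and has a finite-Hilbert-volume quotient, then each generator is a reflection and the group is the reflection group of a Coxeter polytope with facets indexed by the generators. -/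
theorem result :
    ¬ (∀ (n : ℕ), 1 ≤ n →
  ∀ (B W : Type) [Group W] (M : CoxeterMatrix B) (cs : CoxeterSystem M W)
    (ρ : W →* (Matrix (Fin (n+1)) (Fin (n+1)) ℝ)ˣ),
    Function.Injective ρ →
    (∀ w, (ρ w).val.det = 1 ∨ (ρ w).val.det = -1) →
  ∀ (C : Set (Fin (n+1) → ℝ)),
    IsOpen C → Convex ℝ C → C.Nonempty →
    (∀ x ∈ C, ∀ t : ℝ, 0 < t → t • x ∈ C) →
    (∀ x v : Fin (n+1) → ℝ, v ≠ 0 → ∃ t : ℝ, x + t • v ∉ closure C) →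
    (∀ (w : W) (x : Fin (n+1) → ℝ), x ∈ C → (ρ w).val *ᵥ x ∈ C) →
    (∃ ε : ℝ, 0 < ε ∧ ∀ w : W,
      (∀ i j, |(ρ w).val i j - (1 : Matrix (Fin (n+1)) (Fin (n+1)) ℝ) i j| < ε) → ρ w = 1) →
  ∀ (d : (Fin (n+1) → ℝ) → (Fin (n+1) → ℝ) → ℝ),
    (∀ x y, d x y = (1/2) * Real.log (sInf {t : ℝ | t • y - x ∈ closure C}
                                        * sInf {t : ℝ | t • x - y ∈ closure C})) →
  ∀ (diam : Set (Fin (n+1) → ℝ) → ENNReal),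
    (∀ U, diam U = ⨆ x ∈ U, ⨆ y ∈ U, ENNReal.ofReal (d x y)) →
  ∀ (H : Set (Fin (n+1) → ℝ) → ENNReal),
    (∀ F, H F = ⨆ (r : ℝ) (_ : 0 < r), ⨅ (U : ℕ → Set (Fin (n+1) → ℝ))
        (_ : F ⊆ ⋃ i, U i) (_ : ∀ i, U i ⊆ C ∧ diam (U i) ≤ ENNReal.ofReal r),
        ∑' i, diam (U i) ^ n) →
    (∃ F ⊆ C, (∀ x ∈ C, ∃ w : W, (ρ w).val *ᵥ x ∈ F) ∧ H F < ⊤) →
  (∀ b : B, ∃ α v : Fin (n+1) → ℝ, α ⬝ᵥ v = 2 ∧
      (ρ (cs.simple b)).val = 1 - Matrix.vecMulVec v α) ∧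
  (Finite B ∧ ∃ α v : B → Fin (n+1) → ℝ,
     (∀ b, α b ⬝ᵥ v b = 2 ∧ (ρ (cs.simple b)).val = 1 - Matrix.vecMulVec (v b) (α b)) ∧
     (∃ x : Fin (n+1) → ℝ, ∀ b, α b ⬝ᵥ x < 0) ∧
     (∀ b, ∃ x : Fin (n+1) → ℝ, α b ⬝ᵥ x = 0 ∧ ∀ c, c ≠ b → α c ⬝ᵥ x < 0) ∧
     (∀ w : W, ρ w ≠ 1 → ∀ x : Fin (n+1) → ℝ, (∀ b, α b ⬝ᵥ x < 0) →
        ¬ ∀ b, α b ⬝ᵥ ((ρ w).val *ᵥ x) < 0))) :=
  Pool.Agent.Y455.Quad.main

end Pool.Agent.S12964
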