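import Pool.Statements.S13073
import Pool.Agent.W595.S13073Aux

set_option autoImplicit false
open scoped Manifold
open CategoryTheory AlgebraicTopology
open Pool Pool.MP_4139f5_gt

namespace Pool.Agent.S13073

/-- For N at least 4, any continuous locally injective map of a compact connected surface with nonempty boundary into R^N, whose image spans R^N affinely and whose half-space preimages inject on mod-2 H0 and H1, has a convex hull spanned by finitely many points. -/
theorem result :
  ∀ (N : ℕ), 4 ≤ N →
  ∀ (M : Type) [TopologicalSpace M] [T2Space M] [CompactSpace M] [ConnectedSpace M]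
    [ChartedSpace (EuclideanHalfSpace 2) M], IsManifold (𝓡∂ 2) 0 M →
    ((𝓡∂ 2).boundary M).Nonempty →
  ∀ f : M → EuclideanSpace ℝ (Fin N), Continuous f →
    (∀ x : M, ∃ U ∈ nhds x, Set.InjOn f U) →
    affineSpan ℝ (Set.range f) = ⊤ →
    (∀ (l : EuclideanSpace ℝ (Fin N) →L[ℝ] ℝ), l ≠ 0 → ∀ c : ℝ, ∀ k : ℕ, k ≤ 1 →
      Mono (((singularHomologyFunctor (ModuleCat.{0} (ZMod 2)) k).obj
          (ModuleCat.of (ZMod 2) (ZMod 2))).map
        (TopCat.ofHom ⟨Subtype.val, continuous_subtype_val⟩ :
          TopCat.of ↥(f ⁻¹' {y | c ≤ l y}) ⟶ TopCat.of M))) →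
    ∃ S : Finset (EuclideanSpace ℝ (Fin N)),
      convexHull ℝ (Set.range f) = convexHull ℝ (↑S : Set (EuclideanSpace ℝ (Fin N))) := by
  intro N hN M _ _ _ _ _ _ hb f hf hloc haff hmono
  have hsurf : Helper775.Surf.IsSurf M := Helper775.Surf.isSurf_of_charted hb
  haveI := Helper775.Surf.surf_locPath hsurf
  haveI : PathConnectedSpace M := pathConnectedSpace_iff_connectedSpace.2 inferInstance
  refine Helper775.Surf.final_polytope hb hN f hf hloc ?_ (Or.inl ?_)
  · intro z t hz
    by_contra hcon
    push Not at hcon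
    have hle : affineSpan ℝ (Set.range f) ≤
        (AffineSubspace.mk' (f (Classical.arbitrary M))
          (LinearMap.ker (innerSL ℝ z).toLinearMap)) := by
      rw [affineSpan_le]
      rintro _ ⟨x, rfl⟩
      show _ ∈ _
      rw [SetLike.mem_coe, AffineSubspace.mem_mk', LinearMap.mem_ker]
      show inner ℝ z (f x -ᵥ f (Classical.arbitrary M)) = 0
      rw [vsub_eq_sub, inner_sub_right, hcon, hcon, sub_self]
    rw [haff] at hle
    have h2 : f (Classical.arbitrary M) + z ∈
        (AffineSubspace.mk' (f (Classical.arbitrary M))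
          (LinearMap.ker (innerSL ℝ z).toLinearMap)) := hle (AffineSubspace.mem_top _ _ _)
    rw [AffineSubspace.mem_mk', LinearMap.mem_ker] at h2
    have h3 : inner ℝ z ((f (Classical.arbitrary M) + z) -ᵥ f (Classical.arbitrary M)) = 0 := h2
    rw [vsub_eq_sub, add_sub_cancel_left, inner_self_eq_zero] at h3
    exact hz h3
  · intro z c hz
    have hl : (innerSL ℝ z) ≠ 0 := by
      intro h
      apply hz
      have := congrArg (fun l => l z) h
      simpa using this
    refine ⟨?_, ?_⟩
    · exact W595.Bridge.preconnected_of_mono _ (hmono (innerSL ℝ z) hl c 0 (by norm_num))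
    · intro u hu hcyc hbd
      exact W595.Bridge.inj_of_mono _ 1 (hmono (innerSL ℝ z) hl c 1 le_rfl) u hu hcyc hbd

end Pool.Agent.S13073
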