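import Pool.Statements.S13092
import Pool.Agent.Y142.HT.NoOne
import Pool.Agent.Y142.HT.Iso

set_option autoImplicit false
open LaurentPolynomial
open scoped Matrix
open Pool Pool.MP_436001_gt

namespace Pool.Agent.S13092

open Pool.Agent.Y142.HT

/-- the involution -/
noncomputable def sg : ℤ[T;T⁻¹] →+* ℤ[T;T⁻¹] :=
  ((invert : ℤ[T;T⁻¹] ≃ₐ[ℤ] ℤ[T;T⁻¹]) : ℤ[T;T⁻¹] →+* ℤ[T;T⁻¹])

theorem sg_apply (f : ℤ[T;T⁻¹]) : sg f = invert f := rfl

/-- the form of Hambleton and Teichner -/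
noncomputable def Lm : Matrix (Fin 4) (Fin 4) ℤ[T;T⁻¹] := L4 (T 1) (T (-1))

theorem tt : (T 1 : ℤ[T;T⁻¹]) * T (-1) = 1 := by rw [← T_add]; simp

theorem htForm_eq_sum (v w : Fin 4 → ℤ[T;T⁻¹]) :
    htForm (T 1 + T (-1)) v w = ∑ j, (∑ i, v i * Lm i j) * w j := by
  simp only [Fin.sum_univ_four, Lm, L4, htForm, Matrix.of_apply, Matrix.cons_val', Matrix.cons_val_zero,
    Matrix.cons_val_one, Matrix.cons_val]
  linear_combination (2 * (v 0 * w 0 + v 1 * w 1) + 2 * (v 0 * w 1 + v 1 * w 0)) * tt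

/-- the form is not isometric to its augmentation -/
theorem not_isom (P : Matrix (Fin 4) (Fin 4 ⊕ Fin 2 × Fin 0) ℤ[T;T⁻¹])
    (X : Matrix (Fin 2 × Fin 0) (Fin 2 × Fin 0) ℤ[T;T⁻¹])
    (hP : (P.map sg)ᵀ * Lm * P
      = Matrix.fromBlocks (Q4.map (Int.castRingHom ℤ[T;T⁻¹])) 0 0 X) : False := by
  refine htForm_ne_one (fun i => P i (Sum.inl 0) - P i (Sum.inl 2) - P i (Sum.inl 3)) ?_
  rw [htForm_eq_sum]
  have hab : ∀ a b : Fin 4, (∑ j, (∑ i, invert (P i (Sum.inl a)) * Lm i j)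
      * P j (Sum.inl b)) = ((Q4 a b : ℤ) : ℤ[T;T⁻¹]) := by
    intro a b
    have := congrFun (congrFun hP (Sum.inl a)) (Sum.inl b)
    simpa [Matrix.mul_apply, sg_apply] using this
  have h00 := hab 0 0
  have h02 := hab 0 2
  have h03 := hab 0 3
  have h20 := hab 2 0
  have h22 := hab 2 2
  have h23 := hab 2 3
  have h30 := hab 3 0
  have h32 := hab 3 2
  have h33 := hab 3 3
  have q00 : Q4 0 0 = 7 := rfl
  have q02 : Q4 0 2 = 3 := rfl
  have q03 : Q4 0 3 = 2 := rfl
  have q20 : Q4 2 0 = 3 := rfl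
  have q22 : Q4 2 2 = 2 := rfl
  have q23 : Q4 2 3 = 0 := rfl
  have q30 : Q4 3 0 = 2 := rfl
  have q32 : Q4 3 2 = 0 := rfl
  have q33 : Q4 3 3 = 2 := rfl
  rw [q00] at h00
  rw [q02] at h02
  rw [q03] at h03
  rw [q20] at h20
  rw [q22] at h22
  rw [q23] at h23
  rw [q30] at h30
  rw [q32] at h32
  rw [q33] at h33
  push_cast at h00 h02 h03 h20 h22 h23 h30 h32 h33
  simp only [Fin.sum_univ_four, map_sub] at h00 h02 h03 h20 h22 h23 h30 h32 h33 ⊢
  linear_combination h00 - h02 - h03 - h20 + h22 + h23 - h30 + h32 + h33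


/-- the augmentation -/
noncomputable def ep : ℤ[T;T⁻¹] →+* ℤ := eval₂ (RingHom.id ℤ) 1

theorem ep_T (n : ℤ) : ep (T n) = 1 := by simp [ep, eval₂_T]

theorem Lm_aug : Lm.map ep = Q4 := by
  have : Lm.map ep = L4 (ep (T 1)) (ep (T (-1))) := L4_map ep _ _
  rw [this, ep_T, ep_T]
  ext i j
  fin_cases i <;> fin_cases j <;> rfl

theorem sg_T (n : ℤ) : sg (T n) = T (-n) := by rw [sg_apply, invert_T]

theorem L4_star : (Lm.map sg)ᵀ = Lm := by
  have : Lm.map sg = L4 (sg (T 1)) (sg (T (-1))) := L4_map sg _ _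
  rw [this, sg_T, sg_T, neg_neg, L4_transpose]
  rfl

theorem P6_sg : (P6 (T 1) (T (-1)) : Matrix (Fin 6) (Fin 6) ℤ[T;T⁻¹]).map sg
    = P6 (T (-1)) (T 1) := by
  rw [P6_map, sg_T, sg_T, neg_neg]

theorem one_sub {ι : Type} [Fintype ι] (f : ι ≃ Fin 4) (A : Matrix (Fin 4) (Fin 4) ℤ) :
    ((1 : Matrix (Fin 4) (Fin 4) ℤ).submatrix id f)ᵀ * A
      * (1 : Matrix (Fin 4) (Fin 4) ℤ).submatrix id f = A.submatrix f f := by
  rw [Matrix.transpose_submatrix, Matrix.transpose_one]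
  have h1 := Matrix.submatrix_mul (1 : Matrix (Fin 4) (Fin 4) ℤ) A f id id Function.bijective_id
  have h2 := Matrix.submatrix_mul A (1 : Matrix (Fin 4) (Fin 4) ℤ) f id f Function.bijective_id
  rw [Matrix.one_mul] at h1
  rw [Matrix.mul_one] at h2
  rw [h2, h1, Matrix.submatrix_id_id]

/-- The negation of the preceding statement: Suppose a nondegenerate Hermitian Laurent-polynomial form L has boundary linking form isometric to that of H2^g, L at t=1 equals Q plus 2g zeros, and L plus n H2's ≅ Q plus (g+n) H2's. Then L ≅ Q ⊕ H2^g. -/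
theorem result :
    ¬ (∀ (σ : LaurentPolynomial ℤ →+* LaurentPolynomial ℤ) (ε : LaurentPolynomial ℤ →+* ℤ),
      σ (T 1) = T (-1) → ε (T 1) = 1 →
      ∀ (H2 : Matrix (Fin 2) (Fin 2) (LaurentPolynomial ℤ)),
        H2 = !![0, T 1 - 1; T (-1) - 1, 0] →
      ∀ (k : ℕ) (Q : Matrix (Fin k) (Fin k) ℤ), Qᵀ = Q → IsUnit Q.det →
      ∀ (g r : ℕ) (L : Matrix (Fin r) (Fin r) (LaurentPolynomial ℤ)),
        (L.map σ)ᵀ = L → L.det ≠ 0 →
        (∃ (P Q1 : Matrix (Fin 2 × Fin g) (Fin r) (LaurentPolynomial ℤ))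
            (P' Q2 : Matrix (Fin r) (Fin 2 × Fin g) (LaurentPolynomial ℤ))
            (S1 M : Matrix (Fin r) (Fin r) (LaurentPolynomial ℤ))
            (S2 : Matrix (Fin 2 × Fin g) (Fin 2 × Fin g) (LaurentPolynomial ℤ)),
            P * L = Matrix.blockDiagonal (fun _ : Fin g => H2) * Q1 ∧
            P' * Matrix.blockDiagonal (fun _ : Fin g => H2) = L * Q2 ∧
            P' * P = 1 + L * S1 ∧
            P * P' = 1 + Matrix.blockDiagonal (fun _ : Fin g => H2) * S2 ∧
            (L.map (algebraMap (LaurentPolynomial ℤ) (FractionRing (LaurentPolynomial ℤ))))⁻¹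
              - ((P.map σ)ᵀ).map (algebraMap (LaurentPolynomial ℤ) (FractionRing (LaurentPolynomial ℤ)))
                * ((Matrix.blockDiagonal (fun _ : Fin g => H2)).map
                    (algebraMap (LaurentPolynomial ℤ) (FractionRing (LaurentPolynomial ℤ))))⁻¹
                * P.map (algebraMap (LaurentPolynomial ℤ) (FractionRing (LaurentPolynomial ℤ)))
              = M.map (algebraMap (LaurentPolynomial ℤ) (FractionRing (LaurentPolynomial ℤ)))) →
        (∃ (P : Matrix (Fin r) (Fin k ⊕ Fin 2 × Fin g) ℤ)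
            (P' : Matrix (Fin k ⊕ Fin 2 × Fin g) (Fin r) ℤ),
            P * P' = 1 ∧ P' * P = 1 ∧
            Pᵀ * L.map ε * P = Matrix.fromBlocks Q 0 0 0) →
        (∃ (n : ℕ) (P : Matrix (Fin r ⊕ Fin 2 × Fin n) (Fin k ⊕ Fin 2 × Fin (g + n)) (LaurentPolynomial ℤ))
            (P' : Matrix (Fin k ⊕ Fin 2 × Fin (g + n)) (Fin r ⊕ Fin 2 × Fin n) (LaurentPolynomial ℤ)),
            P * P' = 1 ∧ P' * P = 1 ∧
            (P.map σ)ᵀ * Matrix.fromBlocks L 0 0 (Matrix.blockDiagonal (fun _ : Fin n => H2)) * P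
              = Matrix.fromBlocks (Q.map (Int.castRingHom (LaurentPolynomial ℤ))) 0 0
                  (Matrix.blockDiagonal (fun _ : Fin (g + n) => H2))) →
        ∃ (P : Matrix (Fin r) (Fin k ⊕ Fin 2 × Fin g) (LaurentPolynomial ℤ))
          (P' : Matrix (Fin k ⊕ Fin 2 × Fin g) (Fin r) (LaurentPolynomial ℤ)),
          P * P' = 1 ∧ P' * P = 1 ∧
          (P.map σ)ᵀ * L * P
            = Matrix.fromBlocks (Q.map (Int.castRingHom (LaurentPolynomial ℤ))) 0 0
                (Matrix.blockDiagonal (fun _ : Fin g => H2))) := by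
  intro h
  have hL := L4_mul_L4i tt
  obtain ⟨P, P', -, -, hP⟩ := h sg ep (by simp [sg_apply]) (ep_T 1) _ rfl 4 Q4
    (by ext i j; fin_cases i <;> fin_cases j <;> rfl) (by decide) 0 4 Lm L4_star
    (by
      intro h0
      have := congrArg Matrix.det hL
      rw [Matrix.det_mul] at this
      have h1 : (L4 (T 1) (T (-1)) : Matrix (Fin 4) (Fin 4) ℤ[T;T⁻¹]).det = 0 := h0
      rw [h1, zero_mul, Matrix.det_one] at this
      exact zero_ne_one this)
    (by
      refine ⟨0, 0, 0, 0, -L4i (T 1) (T (-1)), L4i (T 1) (T (-1)), 0, ?_, ?_, ?_, ?_, ?_⟩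
      · ext i j; exact i.2.elim0
      · ext i j; exact j.2.elim0
      · rw [Matrix.mul_neg]
        have : Lm * L4i (T 1) (T (-1)) = 1 := hL
        rw [this]
        ext i j
        simp
      · ext i j; exact i.2.elim0
      · have h1 : (Lm.map (algebraMap ℤ[T;T⁻¹] (FractionRing ℤ[T;T⁻¹])))⁻¹
            = (L4i (T 1) (T (-1))).map (algebraMap ℤ[T;T⁻¹] (FractionRing ℤ[T;T⁻¹])) := by
          apply Matrix.inv_eq_right_inv
          rw [← Matrix.map_mul]
          have : Lm * L4i (T 1) (T (-1)) = 1 := hL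
          rw [this]
          simp
        rw [h1]
        ext i j
        simp)
    (by
      let f : Fin 4 ⊕ Fin 2 × Fin 0 ≃ Fin 4 := Equiv.sumEmpty _ _
      refine ⟨(1 : Matrix (Fin 4) (Fin 4) ℤ).submatrix id f,
        (1 : Matrix (Fin 4) (Fin 4) ℤ).submatrix f id, ?_, ?_, ?_⟩
      · rw [Matrix.submatrix_mul_equiv, Matrix.one_mul]
        simp
      · rw [← Matrix.submatrix_mul _ _ f id f Function.bijective_id, Matrix.one_mul]
        simp
      · rw [Lm_aug, one_sub]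
        ext i j
        rcases i with i | ⟨_, i⟩
        · rcases j with j | ⟨_, j⟩
          · rfl
          · exact j.elim0
        · exact i.elim0)
    (by
      refine ⟨1, (P6 (T 1) (T (-1))).submatrix idx idx, (M6 (T 1) (T (-1))).submatrix idx idx,
        ?_, ?_, ?_⟩
      · show (P6 (T 1) (T (-1))).submatrix idx idx * (M6 (T 1) (T (-1))).submatrix idx idx = 1
        rw [Matrix.submatrix_mul_equiv, P6_mul_M6 tt]
        simp
      · show (M6 (T 1) (T (-1))).submatrix idx idx * (P6 (T 1) (T (-1))).submatrix idx idx = 1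
        rw [Matrix.submatrix_mul_equiv, M6_mul_P6 tt]
        simp
      · have h1 := blocks_L (T 1 : ℤ[T;T⁻¹]) (T (-1))
        have h2 := blocks_G (T 1 : ℤ[T;T⁻¹]) (T (-1))
        have h3 := P6_form tt
        show (((P6 (T 1) (T (-1))).submatrix idx idx).map sg)ᵀ
          * Matrix.fromBlocks (L4 (T 1) (T (-1))) 0 0
            (Matrix.blockDiagonal fun _ : Fin 1 => H2 (T 1) (T (-1)))
          * (P6 (T 1) (T (-1))).submatrix idx idx
          = Matrix.fromBlocks (Q4.map (Int.castRingHom ℤ[T;T⁻¹])) 0 0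
            (Matrix.blockDiagonal fun _ : Fin 1 => H2 (T 1) (T (-1)))
        rw [h1, h2, ← Matrix.submatrix_map, P6_sg, Matrix.transpose_submatrix,
          Matrix.submatrix_mul_equiv, Matrix.submatrix_mul_equiv, h3])
  exact not_isom P _ hP

end Pool.Agent.S13092
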