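import Pool.Statements.S13150

set_option autoImplicit false
open Pool Pool.MP_4f0e62_gt

/-!
# Homeomorphism groups of Menger manifolds

Let `E` be complete Erdős space and let `μ` be the Menger curve.  If both the homeomorphism group
of `μ` and the one of the Menger manifold `ℕ × μ` (compact-open topology) were homeomorphic to
`E`, then we get a contradiction as follows.

* A closed bounded subset of `E` is zero-dimensional at some point (`somewhere_zd`).
* Every neighbourhood of the identity of `Homeo(ℕ × μ)` contains, for `k` large, the closed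
  subgroup `SS k` of the homeomorphisms preserving the sheets and fixing the first `k` sheets
  pointwise.  So some `SS k` is bounded when seen in `E`, and is zero-dimensional at some point;
  restricting to the sheet `k`, `Homeo(μ)` is zero-dimensional at some point, hence at all.
* `E` is not zero-dimensional at `0` (`not_zd`, Erdős' argument).
-/

namespace Pool.Agent.S13150

open Set Topology

abbrev L2 := lp (fun _ : ℕ => ℝ) 2

/-- complete Erdős space -/
def ES : Set L2 := {x : L2 | ∀ i : ℕ, (x : ℕ → ℝ) i = 0 ∨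
            ∃ k : ℕ, 0 < k ∧ (x : ℕ → ℝ) i = 1 / (k : ℝ)}

/-- the values of the coordinates -/
def AA : Set ℝ := {t | t = 0 ∨ ∃ k : ℕ, 0 < k ∧ t = 1 / (k : ℝ)}

theorem AA_eq : AA = insert 0 (range fun n : ℕ => 1 / ((n : ℝ) + 1)) := by
  ext t
  constructor
  · rintro (h | ⟨k, hk, h⟩)
    · exact Or.inl h
    · refine Or.inr ⟨k - 1, ?_⟩
      simp only []
      rw [h, Nat.cast_sub hk]
      simp
  · rintro (h | ⟨n, rfl⟩)
    · exact Or.inl h
    · exact Or.inr ⟨n + 1, Nat.succ_pos _, by simp⟩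

theorem AA_closed : IsClosed AA := by
  rw [AA_eq]
  exact (tendsto_one_div_add_atTop_nhds_zero_nat (𝕜 := ℝ)).isCompact_insert_range.isClosed

theorem AA_countable : AA.Countable := by
  rw [AA_eq]
  exact (countable_range _).insert _

theorem coord_cont (i : ℕ) : Continuous fun x : L2 => (x : ℕ → ℝ) i :=
  (lp.evalCLM ℝ (fun _ : ℕ => ℝ) (p := 2) i).continuous

theorem ES_closed : IsClosed ES := by
  have : ES = ⋂ i : ℕ, (fun x : L2 => (x : ℕ → ℝ) i) ⁻¹' AA := by
    ext x
    simp [ES, AA]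
  rw [this]
  exact isClosed_iInter fun i => AA_closed.preimage (coord_cont i)

/-- zero-dimensionality at a point -/
def ZD {T : Type} [TopologicalSpace T] (x : T) : Prop :=
  ∀ W ∈ 𝓝 x, ∃ U : Set T, IsClopen U ∧ x ∈ U ∧ U ⊆ W

/-! ### bounded closed subsets are somewhere zero-dimensional -/

theorem exists_rho (s : Finset ℕ) (x : L2) {δ : ℝ} (hδ : 0 < δ) :
    ∃ ρ : ℝ, 0 < ρ ∧ ρ < δ ∧ ∀ i ∈ s, ∀ a ∈ AA, |a - x i| ≠ ρ := by
  have hc : (⋃ i ∈ s, (fun a => |a - x i|) '' AA).Countable :=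
    Countable.biUnion (Finset.countable_toSet s) fun i _ => AA_countable.image _
  obtain ⟨ρ, hρ, hρ'⟩ := (hc.dense_compl ℝ).exists_between hδ
  refine ⟨ρ, hρ'.1, hρ'.2, fun i hi a ha h => hρ ?_⟩
  simp only [mem_iUnion]
  exact ⟨i, hi, a, ha, h⟩

theorem step {T : Type} [TopologicalSpace T] {ι : T → L2} (hι : Continuous ι)
    (hE : ∀ t, ι t ∈ ES) {R : ℝ} (hR : ∀ t, ‖ι t‖ ≤ R) {U : Set T} (hU : IsClopen U)
    (hne : U.Nonempty) {ε : ℝ} (hε : 0 < ε) :
    ∃ U' : Set T, U' ⊆ U ∧ IsClopen U' ∧ U'.Nonempty ∧ ∀ s ∈ U', ∀ t ∈ U', ‖ι s - ι t‖ ≤ ε := by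
  have hR0 : 0 ≤ R := (norm_nonneg _).trans (hR hne.some)
  set η : ℝ := ε ^ 2 / 32 with hη
  have hη0 : 0 < η := by positivity
  -- nearly maximal norm
  obtain ⟨t0, ht0, hmax⟩ : ∃ t0 ∈ U, ∀ t ∈ U, ‖ι t‖ ^ 2 ≤ ‖ι t0‖ ^ 2 + η := by
    have hbdd : BddAbove ((fun t => ‖ι t‖ ^ 2) '' U) := by
      refine ⟨R ^ 2, ?_⟩
      rintro _ ⟨t, -, rfl⟩
      exact pow_le_pow_left₀ (norm_nonneg _) (hR t) 2
    obtain ⟨_, ⟨t0, ht0, rfl⟩, h⟩ := exists_lt_of_lt_csSup (hne.image (fun t => ‖ι t‖ ^ 2))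
      (show sSup ((fun t => ‖ι t‖ ^ 2) '' U) - η < sSup ((fun t => ‖ι t‖ ^ 2) '' U) by linarith)
    refine ⟨t0, ht0, fun t ht => ?_⟩
    have := le_csSup hbdd (mem_image_of_mem (fun t => ‖ι t‖ ^ 2) ht)
    simp only [] at this h
    linarith
  set x := ι t0 with hx
  -- truncation
  obtain ⟨s, hs⟩ : ∃ s : Finset ℕ, ‖(∑ i ∈ s, lp.single 2 i (x i) : L2) - x‖ <
      η / (4 * R + 1) := by
    have h := lp.hasSum_single (p := 2) (by norm_num) x
    have h2 := (Metric.tendsto_atTop.1 h) (η / (4 * R + 1)) (by positivity)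
    obtain ⟨s, hs⟩ := h2
    exact ⟨s, by simpa [dist_eq_norm] using hs s le_rfl⟩
  set B : ℝ := ∑ i ∈ s, |x i| with hB
  have hB0 : 0 ≤ B := Finset.sum_nonneg fun _ _ => abs_nonneg _
  obtain ⟨ρ, hρ0, hρ1, hρ2⟩ := exists_rho s x (show 0 < η / (2 * B + 1) by positivity)
  refine ⟨U ∩ ⋂ i ∈ s, {t | |ι t i - x i| < ρ}, inter_subset_left, ?_, ⟨t0, ht0, ?_⟩, ?_⟩
  · have hco : ∀ i : ℕ, Continuous fun t => |ι t i - x i| := fun i =>
      (((coord_cont i).comp hι).sub continuous_const).abs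
    have hcl : ∀ i ∈ s, IsClopen {t | |ι t i - x i| < ρ} := by
      intro i hi
      refine ⟨?_, isOpen_lt (hco i) continuous_const⟩
      have : {t | |ι t i - x i| < ρ} = {t | |ι t i - x i| ≤ ρ} := by
        ext t
        constructor
        · intro h
          have h' : |ι t i - x i| < ρ := h
          exact h'.le
        · intro h
          have h' : |ι t i - x i| ≤ ρ := h
          show |ι t i - x i| < ρ
          exact lt_of_le_of_ne h' (hρ2 i hi _ (hE t i))
      rw [this]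
      exact isClosed_le (hco i) continuous_const
    exact hU.inter (isClopen_biInter_finset hcl)
  · simp only [mem_iInter]
    intro i _
    show |ι t0 i - x i| < ρ
    rw [← hx, sub_self, abs_zero]
    exact hρ0
  · have key : ∀ t ∈ U ∩ ⋂ i ∈ s, {t | |ι t i - x i| < ρ}, ‖ι t - x‖ ≤ ε / 2 := by
      rintro t ⟨ht, ht'⟩
      simp only [mem_iInter] at ht'
      set v : L2 := ∑ i ∈ s, lp.single 2 i (x i) with hv
      have h1 : inner ℝ v (x - ι t) ≤ η := by
        rw [hv, sum_inner]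
        have : ∀ i ∈ s, inner ℝ (lp.single 2 i (x i) : L2) (x - ι t) ≤ |x i| * ρ := by
          intro i hi
          rw [lp.inner_single_left]
          have h2 : |ι t i - x i| < ρ := ht' i hi
          have h3 : (x - ι t) i = x i - ι t i := rfl
          rw [h3]
          have h4 : inner ℝ (x i) (x i - ι t i) = (x i - ι t i) * x i := rfl
          rw [h4]
          calc (x i - ι t i) * x i ≤ |(x i - ι t i) * x i| := le_abs_self _
            _ = |x i| * |ι t i - x i| := by rw [abs_mul, abs_sub_comm, mul_comm]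
            _ ≤ |x i| * ρ := mul_le_mul_of_nonneg_left h2.le (abs_nonneg _)
        calc _ ≤ ∑ i ∈ s, |x i| * ρ := Finset.sum_le_sum this
          _ = B * ρ := by rw [Finset.sum_mul]
          _ ≤ B * (η / (2 * B + 1)) := mul_le_mul_of_nonneg_left hρ1.le hB0
          _ ≤ η := by
            rw [mul_div_assoc', div_le_iff₀ (by positivity)]
            nlinarith
      have h2 : inner ℝ (x - v) (x - ι t) ≤ η := by
        calc inner ℝ (x - v) (x - ι t) ≤ ‖x - v‖ * ‖x - ι t‖ := real_inner_le_norm _ _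
          _ ≤ (η / (4 * R + 1)) * (2 * R) := by
            refine mul_le_mul ?_ ?_ (norm_nonneg _) (by positivity)
            · rw [norm_sub_rev]; exact hs.le
            · calc ‖x - ι t‖ ≤ ‖x‖ + ‖ι t‖ := norm_sub_le _ _
                _ ≤ 2 * R := by linarith [hR t0, hR t]
          _ ≤ η := by
            rw [div_mul_eq_mul_div, div_le_iff₀ (by positivity)]
            nlinarith
      have h3 : inner ℝ x (x - ι t) ≤ 2 * η := by
        have : inner ℝ x (x - ι t) = inner ℝ v (x - ι t) + inner ℝ (x - v) (x - ι t) := by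
          rw [← inner_add_left]
          congr 1
          abel
        linarith
      have h4 : ‖ι t - x‖ ^ 2 = ‖ι t‖ ^ 2 - ‖x‖ ^ 2 + 2 * inner ℝ x (x - ι t) := by
        rw [inner_sub_right, real_inner_self_eq_norm_sq, norm_sub_sq_real,
          real_inner_comm]
        ring
      have h5 := hmax t ht
      have h6 : ‖ι t - x‖ ^ 2 ≤ (ε / 2) ^ 2 := by
        rw [h4]
        have : (ε / 2) ^ 2 = 8 * η := by rw [hη]; ring
        rw [this]
        linarith
      exact (pow_le_pow_iff_left₀ (norm_nonneg _) (by positivity) (by norm_num)).1 h6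
    intro a ha b hb
    calc ‖ι a - ι b‖ = ‖(ι a - x) - (ι b - x)‖ := by congr 1; abel
      _ ≤ ‖ι a - x‖ + ‖ι b - x‖ := norm_sub_le _ _
      _ ≤ ε := by linarith [key a ha, key b hb]

theorem somewhere_zd {T : Type} [TopologicalSpace T] [hn : Nonempty T] {ι : T → L2}
    (hι : IsClosedEmbedding ι) (hE : ∀ t, ι t ∈ ES) {R : ℝ} (hR : ∀ t, ‖ι t‖ ≤ R) :
    ∃ t : T, ZD t := by
  classical
  have hc := hι.continuous
  -- a nested sequence of clopen sets
  let St := {U : Set T // IsClopen U ∧ U.Nonempty}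
  have hstep : ∀ (n : ℕ) (U : St), ∃ U' : St, U'.1 ⊆ U.1 ∧
      ∀ s ∈ U'.1, ∀ t ∈ U'.1, ‖ι s - ι t‖ ≤ (1 / 2 : ℝ) ^ n := by
    intro n U
    obtain ⟨U', h1, h2, h3, h4⟩ := step hc hE hR U.2.1 U.2.2 (ε := (1 / 2 : ℝ) ^ n)
      (by positivity)
    exact ⟨⟨U', h2, h3⟩, h1, h4⟩
  choose f hf1 hf2 using hstep
  let V : ℕ → St := fun n => Nat.rec ⟨univ, isClopen_univ, univ_nonempty⟩ (fun n U => f n U) n
  have hV : ∀ n, V (n + 1) = f n (V n) := fun n => rfl
  have hanti : Antitone fun n => (V n).1 := antitone_nat_of_succ_le fun n => by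
    show (V (n + 1)).1 ⊆ (V n).1
    rw [hV]
    exact hf1 n (V n)
  choose p hp using fun n => (V n).2.2
  have hdist : ∀ n m, n + 1 ≤ m → ‖ι (p (n + 1)) - ι (p m)‖ ≤ (1 / 2 : ℝ) ^ n := by
    intro n m h
    refine hf2 n (V n) _ ?_ _ ?_
    · rw [← hV]; exact hp (n + 1)
    · rw [← hV]; exact hanti h (hp m)
  have hcau : CauchySeq fun n => ι (p (n + 1)) := by
    refine cauchySeq_of_le_geometric (1 / 2 : ℝ) 1 (by norm_num) fun n => ?_
    rw [dist_eq_norm, one_mul]
    exact hdist n (n + 1 + 1) (by omega)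
  obtain ⟨z, hz⟩ := cauchySeq_tendsto_of_complete hcau
  have hzr : z ∈ range ι := hι.isClosed_range.mem_of_tendsto hz
    (Filter.Eventually.of_forall fun n => ⟨_, rfl⟩)
  obtain ⟨t, rfl⟩ := hzr
  have htend : Filter.Tendsto (fun n => p (n + 1)) Filter.atTop (𝓝 t) :=
    (hι.isEmbedding.tendsto_nhds_iff).2 hz
  have hmem : ∀ n, t ∈ (V n).1 := by
    intro n
    refine (V n).2.1.1.mem_of_tendsto htend ?_
    filter_upwards [Filter.eventually_ge_atTop n] with m hm
    exact hanti (show n ≤ m + 1 by omega) (hp (m + 1))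
  refine ⟨t, fun W hW => ?_⟩
  rw [hι.isEmbedding.isInducing.nhds_eq_comap, Filter.mem_comap] at hW
  obtain ⟨O, hO, hOW⟩ := hW
  obtain ⟨ε, hε, hball⟩ := Metric.mem_nhds_iff.1 hO
  obtain ⟨n, hn⟩ := exists_pow_lt_of_lt_one hε (show (1 / 2 : ℝ) < 1 by norm_num)
  refine ⟨(V (n + 1)).1, (V (n + 1)).2.1, hmem (n + 1), fun s hs => hOW (hball ?_)⟩
  rw [Metric.mem_ball, dist_eq_norm]
  refine lt_of_le_of_lt ?_ hn
  refine hf2 n (V n) _ ?_ _ ?_
  · rw [← hV]; exact hs
  · rw [← hV]; exact hmem (n + 1)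


/-! ### Erdős: there are no bounded clopen sets around zero -/

/-- add `1/(k+1)` in the coordinate `N` -/
noncomputable def ad (x : L2) (N k : ℕ) : L2 := x + lp.single 2 N (1 / ((k : ℝ) + 1))

theorem ad_same {x : L2} {N k : ℕ} (h : x N = 0) : ad x N k N = 1 / ((k : ℝ) + 1) := by
  show x N + (lp.single 2 N (1 / ((k : ℝ) + 1)) : L2) N = _
  rw [lp.single_apply_self, h, zero_add]

theorem ad_ne {x : L2} {N k j : ℕ} (h : j ≠ N) : ad x N k j = x j := by
  show x j + (lp.single 2 N (1 / ((k : ℝ) + 1)) : L2) j = _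
  rw [lp.single_apply_ne 2 N _ h, add_zero]

theorem ad_mem {x : L2} {N k : ℕ} (hx : x ∈ ES) (h : x N = 0) : ad x N k ∈ ES := by
  intro i
  by_cases hi : i = N
  · subst hi
    right
    refine ⟨k + 1, Nat.succ_pos _, ?_⟩
    rw [ad_same h]
    push_cast
    rfl
  · rw [ad_ne hi]
    exact hx i

theorem ad_norm {x : L2} {N k : ℕ} (h : x N = 0) :
    ‖ad x N k‖ ^ 2 = ‖x‖ ^ 2 + (1 / ((k : ℝ) + 1)) ^ 2 := by
  rw [ad, norm_add_sq_real, lp.inner_single_right, lp.norm_single (by norm_num)]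
  have : inner ℝ (x N) (1 / ((k : ℝ) + 1)) = (1 / ((k : ℝ) + 1)) * x N := rfl
  rw [this, h]
  simp

theorem inner_step {U : Set L2} (hb : ∀ x ∈ U, ‖x‖ ≤ 1) {x : L2} {N : ℕ} (hx : x ∈ U)
    (hN : ∀ j, N ≤ j → x j = 0) (k : ℕ) :
    ∃ (x' : L2) (N' : ℕ), x' ∈ U ∧ N ≤ N' ∧ (∀ j, N' ≤ j → x' j = 0) ∧
      (∀ j, j < N → x' j = x j) ∧ ad x' N' k ∉ U := by
  by_contra hcon
  push Not at hcon
  set s : ℝ := 1 / ((k : ℝ) + 1) with hs
  have hs0 : 0 < s := by positivity
  have claim : ∀ m : ℕ, ∃ y ∈ U, (∀ j, N + m ≤ j → y j = 0) ∧ (∀ j, j < N → y j = x j) ∧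
      ‖y‖ ^ 2 = ‖x‖ ^ 2 + m * s ^ 2 := by
    intro m
    induction m with
    | zero => exact ⟨x, hx, hN, fun _ _ => rfl, by simp⟩
    | succ m ih =>
      obtain ⟨y, hy, hy1, hy2, hy3⟩ := ih
      refine ⟨ad y (N + m) k, hcon y (N + m) hy (Nat.le_add_right _ _) hy1 hy2, ?_, ?_, ?_⟩
      · intro j hj
        rw [ad_ne (by omega), hy1 j (by omega)]
      · intro j hj
        rw [ad_ne (by omega), hy2 j hj]
      · rw [ad_norm (hy1 _ le_rfl), hy3]
        push_cast
        ring
  obtain ⟨m, hm⟩ := exists_nat_gt (1 / s ^ 2)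
  obtain ⟨y, hy, -, -, hy3⟩ := claim m
  have h1 : ‖y‖ ^ 2 ≤ 1 := by
    have := hb y hy
    nlinarith [norm_nonneg y]
  have h2 : 1 < m * s ^ 2 := by
    rw [div_lt_iff₀ (by positivity)] at hm
    exact hm
  nlinarith [sq_nonneg ‖x‖]

theorem no_bounded {U O : Set L2} (hO : IsOpen O) (hUO : U = ES ∩ O) (hUc : IsClosed U)
    (h0 : (0 : L2) ∈ U) (hb : ∀ x ∈ U, ‖x‖ ≤ 1) : False := by
  let St := {p : L2 × ℕ // p.1 ∈ U ∧ ∀ j, p.2 ≤ j → p.1 j = 0}
  have hstep : ∀ (n : ℕ) (p : St), ∃ p' : St, p.1.2 ≤ p'.1.2 ∧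
      (∀ j, j < p.1.2 → p'.1.1 j = p.1.1 j) ∧ ad p'.1.1 p'.1.2 n ∉ U := by
    intro n p
    obtain ⟨x', N', h1, h2, h3, h4, h5⟩ := inner_step hb p.2.1 p.2.2 n
    exact ⟨⟨(x', N'), h1, h3⟩, h2, h4, h5⟩
  choose f hf1 hf2 hf3 using hstep
  let V : ℕ → St := fun n => Nat.rec ⟨(0, 0), h0, fun _ _ => rfl⟩ (fun n p => f n p) n
  have hV : ∀ n, V (n + 1) = f n (V n) := fun n => rfl
  have hmono : Monotone fun n => (V n).1.2 := monotone_nat_of_le_succ fun n => by
    show (V n).1.2 ≤ (V (n + 1)).1.2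
    rw [hV]; exact hf1 n (V n)
  have hagree : ∀ n m, n ≤ m → ∀ j, j < (V n).1.2 → (V m).1.1 j = (V n).1.1 j := by
    intro n m h
    induction m, h using Nat.le_induction with
    | base => intro j _; rfl
    | succ m h ih =>
      intro j hj
      rw [hV, hf2 m (V m) j (lt_of_lt_of_le hj (hmono h)), ih j hj]
  have horth : ∀ n m, n ≤ m → ‖(V m).1.1 - (V n).1.1‖ ^ 2 =
      ‖(V m).1.1‖ ^ 2 - ‖(V n).1.1‖ ^ 2 := by
    intro n m h
    have h1 : inner ℝ (V n).1.1 ((V m).1.1 - (V n).1.1) = 0 := by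
      rw [lp.inner_eq_tsum]
      have hz : ∀ j, inner ℝ ((V n).1.1 j) (((V m).1.1 - (V n).1.1) j) = 0 := by
        intro j
        have e : ((V m).1.1 - (V n).1.1) j = (V m).1.1 j - (V n).1.1 j := rfl
        by_cases hj : j < (V n).1.2
        · rw [e, hagree n m h j hj, sub_self, inner_zero_right]
        · rw [(V n).2.2 j (not_lt.1 hj), inner_zero_left]
      rw [show (fun j => inner ℝ ((V n).1.1 j) (((V m).1.1 - (V n).1.1) j)) = fun _ => (0 : ℝ)
        from funext hz]
      exact tsum_zero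
    rw [inner_sub_right, real_inner_self_eq_norm_sq] at h1
    rw [norm_sub_sq_real, real_inner_comm]
    linarith
  have hnm : Monotone fun n => ‖(V n).1.1‖ ^ 2 := by
    intro n m h
    have := horth n m h
    have h2 := sq_nonneg ‖(V m).1.1 - (V n).1.1‖
    simp only []
    linarith
  have hcau1 : CauchySeq fun n => ‖(V n).1.1‖ ^ 2 := by
    refine (tendsto_atTop_ciSup hnm ⟨1, ?_⟩).cauchySeq
    rintro _ ⟨n, rfl⟩
    have := hb _ (V n).2.1
    simp only []
    nlinarith [norm_nonneg (V n).1.1]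
  have hcau : CauchySeq fun n => (V n).1.1 := by
    rw [Metric.cauchySeq_iff']
    intro ε hε
    obtain ⟨N, hN⟩ := Metric.cauchySeq_iff'.1 hcau1 (ε ^ 2) (by positivity)
    refine ⟨N, fun n hn => ?_⟩
    have h1 := hN n hn
    rw [Real.dist_eq] at h1
    rw [dist_eq_norm]
    have h2 := horth N n hn
    have h3 : ‖(V n).1.1 - (V N).1.1‖ ^ 2 < ε ^ 2 := by
      rw [h2]
      exact lt_of_le_of_lt (le_abs_self _) h1
    exact lt_of_pow_lt_pow_left₀ 2 hε.le h3
  obtain ⟨x, hx⟩ := cauchySeq_tendsto_of_complete hcau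
  have hxU : x ∈ U := hUc.mem_of_tendsto hx (Filter.Eventually.of_forall fun n => (V n).2.1)
  have hxO : x ∈ O := by rw [hUO] at hxU; exact hxU.2
  obtain ⟨ε, hε, hball⟩ := Metric.isOpen_iff.1 hO x hxO
  obtain ⟨N, hN⟩ := Metric.tendsto_atTop.1 hx (ε / 2) (by positivity)
  obtain ⟨M, hM⟩ := exists_nat_one_div_lt (show 0 < ε / 2 by positivity)
  set n := max N M with hn
  have h1 : dist (V (n + 1)).1.1 x < ε / 2 := hN (n + 1) (by omega)
  have h2 : 1 / ((n : ℝ) + 1) < ε / 2 := by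
    refine lt_of_le_of_lt ?_ hM
    apply one_div_le_one_div_of_le (by positivity)
    have : (M : ℝ) ≤ n := by exact_mod_cast le_max_right N M
    linarith
  have hz : (V (n + 1)).1.1 (V (n + 1)).1.2 = 0 := (V (n + 1)).2.2 _ le_rfl
  have hES : (V (n + 1)).1.1 ∈ ES := ((Set.ext_iff.1 hUO _).1 (V (n + 1)).2.1).1
  apply hf3 n (V n)
  rw [← hV]
  refine (Set.ext_iff.1 hUO _).2 ⟨ad_mem hES hz, hball ?_⟩
  rw [Metric.mem_ball]
  calc dist (ad (V (n + 1)).1.1 (V (n + 1)).1.2 n) x
      ≤ dist (ad (V (n + 1)).1.1 (V (n + 1)).1.2 n) (V (n + 1)).1.1 + dist (V (n + 1)).1.1 x :=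
        dist_triangle _ _ _
    _ < ε / 2 + ε / 2 := by
        refine add_lt_add ?_ h1
        rw [dist_eq_norm, ad, add_sub_cancel_left, lp.norm_single (by norm_num),
          Real.norm_of_nonneg (by positivity)]
        exact h2
    _ = ε := by ring

theorem zero_mem : (0 : L2) ∈ ES := fun _ => Or.inl rfl

theorem not_zd : ¬ ZD (⟨0, zero_mem⟩ : ES) := by
  intro h
  have hW : {x : ES | ‖(x : L2)‖ < 1} ∈ 𝓝 (⟨0, zero_mem⟩ : ES) := by
    refine (isOpen_lt (continuous_norm.comp continuous_subtype_val)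
      continuous_const).mem_nhds ?_
    show ‖(0 : L2)‖ < 1
    simp
  obtain ⟨U, hU, h0, hUW⟩ := h _ hW
  obtain ⟨O, hO, hOU⟩ := isOpen_induced_iff.1 hU.2
  refine no_bounded (U := Subtype.val '' U) (O := O) hO ?_ ?_ ⟨_, h0, rfl⟩ ?_
  · ext x
    constructor
    · rintro ⟨y, hy, rfl⟩
      rw [← hOU] at hy
      exact ⟨y.2, hy⟩
    · rintro ⟨h1, h2⟩
      refine ⟨⟨x, h1⟩, ?_, rfl⟩
      rw [← hOU]
      exact h2
  · exact ES_closed.isClosedEmbedding_subtypeVal.isClosedMap _ hU.1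
  · rintro _ ⟨y, hy, rfl⟩
    exact le_of_lt (hUW hy)


/-! ### homeomorphism groups -/

theorem ZD.of_maps {S H : Type} [TopologicalSpace S] [TopologicalSpace H] {r : S → H}
    {j : H → S} (hr : Continuous r) (hj : Continuous j) (hrj : ∀ h, r (j h) = h) {t : S}
    (ht : j (r t) = t) (h : ZD t) : ZD (r t) := by
  intro W hW
  obtain ⟨U, hU, htU, hUW⟩ := h (r ⁻¹' W) (hr.continuousAt.preimage_mem_nhds hW)
  refine ⟨j ⁻¹' U, hU.preimage hj, by show j (r t) ∈ U; rw [ht]; exact htU, fun y hy => ?_⟩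
  have : r (j y) ∈ W := hUW hy
  rwa [hrj] at this

/-- the homeomorphism group with the compact-open topology -/
def Hm (M : Type) [TopologicalSpace M] : Type := M ≃ₜ M

/-- the underlying homeomorphism -/
def toH {M : Type} [TopologicalSpace M] (g : Hm M) : M ≃ₜ M := g

/-- a homeomorphism as an element of the group -/
def ofH {M : Type} [TopologicalSpace M] (g : M ≃ₜ M) : Hm M := g

/-- the underlying continuous map -/
def toC {M : Type} [TopologicalSpace M] (g : Hm M) : C(M, M) :=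
  ContinuousMap.mk (⇑(toH g)) (toH g).continuous

theorem toC_ofH {M : Type} [TopologicalSpace M] (g : M ≃ₜ M) (p : M) : toC (ofH g) p = g p := rfl

theorem toC_toH {M : Type} [TopologicalSpace M] (g : Hm M) (p : M) : toC g p = toH g p := rfl

instance {M : Type} [TopologicalSpace M] : TopologicalSpace (Hm M) :=
  TopologicalSpace.induced (fun g : M ≃ₜ M => ContinuousMap.mk (⇑g) g.continuous) inferInstance

theorem toC_ind {M : Type} [TopologicalSpace M] : IsInducing (toC (M := M)) := ⟨rfl⟩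

theorem Hm.ext {M : Type} [TopologicalSpace M] {g h : Hm M} (H : ∀ p, toC g p = toC h p) :
    g = h := by
  have : toH g = toH h := Homeomorph.ext H
  exact this

theorem zd_all {M : Type} [TopologicalSpace M] {h1 h2 : Hm M} (h : ZD h1) : ZD h2 := by
  let g0 : M ≃ₜ M := (toH h1).symm.trans (toH h2)
  let r : Hm M → Hm M := fun h => ofH ((toH h).trans g0)
  let j : Hm M → Hm M := fun h => ofH ((toH h).trans g0.symm)
  have hr : Continuous r := by
    rw [toC_ind.continuous_iff]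
    exact (ContinuousMap.continuous_postcomp (toC (ofH g0))).comp toC_ind.continuous
  have hj : Continuous j := by
    rw [toC_ind.continuous_iff]
    exact (ContinuousMap.continuous_postcomp (toC (ofH g0.symm))).comp
      toC_ind.continuous
  have hr1 : r h1 = h2 := by
    refine Hm.ext fun p => ?_
    show toH h2 ((toH h1).symm (toH h1 p)) = _
    rw [Homeomorph.symm_apply_apply]
    rfl
  have key := ZD.of_maps hr hj (fun h => Hm.ext fun p => ?_) (t := h1) (Hm.ext fun p => ?_) h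
  · rwa [hr1] at key
  · show g0 (g0.symm (toH h p)) = _
    rw [Homeomorph.apply_symm_apply]
    rfl
  · show g0.symm (g0 (toH h1 p)) = _
    rw [Homeomorph.symm_apply_apply]
    rfl

section

variable {μ : Type} [TopologicalSpace μ]

/-- homeomorphisms of `ℕ × μ` preserving the sheets, the identity on the first `k` sheets -/
def SS (k : ℕ) : Set (Hm (ℕ × μ)) :=
  {g | (∀ p, (toC g p).1 = p.1) ∧ ∀ p : ℕ × μ, p.1 < k → toC g p = p}

theorem eval_cont {M : Type} [TopologicalSpace M] (p : M) :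
    Continuous fun g : Hm M => toC g p :=
  (continuous_eval_const p).comp toC_ind.continuous

theorem SS_closed [T2Space μ] (k : ℕ) : IsClosed (SS (μ := μ) k) := by
  have : SS (μ := μ) k = (⋂ p : ℕ × μ, {g | (toC g p).1 = p.1}) ∩
      ⋂ p : ℕ × μ, ⋂ _ : p.1 < k, {g | toC g p = p} := by
    ext g
    simp only [mem_inter_iff, mem_iInter]
    rfl
  rw [this]
  refine (isClosed_iInter fun p => ?_).inter (isClosed_iInter fun p => isClosed_iInter fun _ => ?_)
  · exact isClosed_eq (continuous_fst.comp (eval_cont p)) continuous_const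
  · exact isClosed_eq (eval_cont p) continuous_const

theorem symm_fst {k : ℕ} {g : Hm (ℕ × μ)} (hg : g ∈ SS k) (p : ℕ × μ) :
    ((toH g).symm p).1 = p.1 := by
  have h := hg.1 ((toH g).symm p)
  rw [← h]
  show ((toH g) _).1 = _
  rw [Homeomorph.apply_symm_apply]

/-- the homeomorphism on the sheet `k` -/
def fibH {k : ℕ} (g : SS (μ := μ) k) : μ ≃ₜ μ where
  toFun := fun y => (toH g.1 (k, y)).2
  invFun := fun y => ((toH g.1).symm (k, y)).2
  left_inv := fun y => by
    have h1 : (k, (toH g.1 (k, y)).2) = toH g.1 (k, y) := Prod.ext (g.2.1 (k, y)).symm rfl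
    show ((toH g.1).symm (k, (toH g.1 (k, y)).2)).2 = y
    rw [h1, Homeomorph.symm_apply_apply]
  right_inv := fun y => by
    have h1 : (k, ((toH g.1).symm (k, y)).2) = (toH g.1).symm (k, y) :=
      Prod.ext (symm_fst g.2 (k, y)).symm rfl
    show (toH g.1 (k, ((toH g.1).symm (k, y)).2)).2 = y
    rw [h1, Homeomorph.apply_symm_apply]
  continuous_toFun := by
    have := (toH g.1).continuous
    fun_prop
  continuous_invFun := by
    have := (toH g.1).symm.continuous
    fun_prop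

/-- the homeomorphism on the sheet `k` -/
def fib {k : ℕ} (g : SS (μ := μ) k) : Hm μ := ofH (fibH g)

theorem fib_cont (k : ℕ) : Continuous (fib (μ := μ) (k := k)) := by
  rw [toC_ind.continuous_iff]
  have h1 := ContinuousMap.continuous_postcomp (X := μ) (⟨Prod.snd, continuous_snd⟩ : C(ℕ × μ, μ))
  have h2 := ContinuousMap.continuous_precomp (Z := ℕ × μ)
    (⟨fun y => (k, y), by fun_prop⟩ : C(μ, ℕ × μ))
  exact h1.comp (h2.comp (toC_ind.continuous.comp continuous_subtype_val))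

open Classical in
/-- replace the homeomorphism on the sheet `k` -/
noncomputable def rep {k : ℕ} (g : SS (μ := μ) k) (h : Hm μ) : (ℕ × μ) ≃ₜ (ℕ × μ) where
  toFun := fun p => if p.1 = k then (k, (toH h) p.2)
    else (toH g.1) p
  invFun := fun p => if p.1 = k then (k, (toH h).symm p.2)
    else (toH g.1).symm p
  left_inv := fun p => by
    by_cases hp : p.1 = k
    · simp only [if_pos hp, if_true]
      rw [Homeomorph.symm_apply_apply]
      exact Prod.ext hp.symm rfl
    · have : ((toH g.1) p).1 ≠ k := by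
        rw [show ((toH g.1) p).1 = p.1 from g.2.1 p]
        exact hp
      simp only [if_neg hp, if_neg this]
      rw [Homeomorph.symm_apply_apply]
  right_inv := fun p => by
    by_cases hp : p.1 = k
    · simp only [if_pos hp, if_true]
      rw [Homeomorph.apply_symm_apply]
      exact Prod.ext hp.symm rfl
    · have : ((toH g.1).symm p).1 ≠ k := by
        rw [symm_fst g.2 p]
        exact hp
      simp only [if_neg hp, if_neg this]
      rw [Homeomorph.apply_symm_apply]
  continuous_toFun := by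
    rw [continuous_prod_of_discrete_left]
    intro i
    by_cases hi : i = k
    · simp only [if_pos hi]
      have := (toH h).continuous
      fun_prop
    · simp only [if_neg hi]
      have := (toH g.1).continuous
      fun_prop
  continuous_invFun := by
    rw [continuous_prod_of_discrete_left]
    intro i
    by_cases hi : i = k
    · simp only [if_pos hi]
      have := (toH h).symm.continuous
      fun_prop
    · simp only [if_neg hi]
      have := (toH g.1).symm.continuous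
      fun_prop

theorem rep_pos {k : ℕ} (g : SS (μ := μ) k) (h : Hm μ) {p : ℕ × μ} (hp : p.1 = k) :
    rep g h p = (k, toC h p.2) := by
  show (if p.1 = k then _ else _) = _
  rw [if_pos hp]
  rfl

theorem rep_neg {k : ℕ} (g : SS (μ := μ) k) (h : Hm μ) {p : ℕ × μ} (hp : p.1 ≠ k) :
    rep g h p = toC g.1 p := by
  show (if p.1 = k then _ else _) = _
  rw [if_neg hp]
  rfl

theorem rep_mem {k : ℕ} (g : SS (μ := μ) k) (h : Hm μ) :
    (ofH (rep g h)) ∈ SS (μ := μ) k := by
  constructor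
  · intro p
    by_cases hp : p.1 = k
    · show (rep g h p).1 = _
      rw [rep_pos g h hp]
      exact hp.symm
    · show (rep g h p).1 = _
      rw [rep_neg g h hp]
      exact g.2.1 p
  · intro p hp
    show rep g h p = _
    rw [rep_neg g h hp.ne]
    exact g.2.2 p hp

/-- `rep` as a map into `SS k` -/
noncomputable def rp {k : ℕ} (g : SS (μ := μ) k) (h : Hm μ) : SS (μ := μ) k :=
  ⟨ofH (rep g h), rep_mem g h⟩

theorem rp_cont {k : ℕ} (g : SS (μ := μ) k) : Continuous (rp g) := by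
  refine Continuous.subtype_mk ?_ _
  rw [toC_ind.continuous_iff, ContinuousMap.continuous_compactOpen]
  intro K hK U hU
  by_cases hg : ∀ p ∈ K, p.1 ≠ k → toC g.1 p ∈ U
  · set K' : Set μ := Prod.snd '' (K ∩ {p | p.1 = k}) with hK'
    have hK'c : IsCompact K' := (hK.inter_right
      (isClosed_eq continuous_fst continuous_const)).image continuous_snd
    have hU' : IsOpen ((fun y : μ => (k, y)) ⁻¹' U) := hU.preimage (by fun_prop)
    have h1 : IsOpen {h : Hm μ | MapsTo (toC h) K' ((fun y : μ => (k, y)) ⁻¹' U)} :=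
      (ContinuousMap.isOpen_setOfPred_mapsTo hK'c hU').preimage toC_ind.continuous
    convert h1 using 1
    ext h
    constructor
    · intro H
      rintro _ ⟨p, ⟨hp, hpk⟩, rfl⟩
      have := H hp
      have h2 : rep g h p ∈ U := this
      rw [rep_pos g h hpk] at h2
      exact h2
    · intro H p hp
      show rep g h p ∈ U
      by_cases hpk : p.1 = k
      · rw [rep_pos g h hpk]
        exact H ⟨p, ⟨hp, hpk⟩, rfl⟩
      · rw [rep_neg g h hpk]
        exact hg p hp hpk
  · push Not at hg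
    obtain ⟨p, hp, hpk, hpU⟩ := hg
    convert isOpen_empty
    rw [Set.eq_empty_iff_forall_notMem]
    intro h H
    apply hpU
    have h2 : rep g h p ∈ U := H hp
    rwa [rep_neg g h hpk] at h2

theorem fib_rp {k : ℕ} (g : SS (μ := μ) k) (h : Hm μ) : fib (rp g h) = h := by
  refine Hm.ext fun y => ?_
  show (rep g h (k, y)).2 = _
  rw [rep_pos g h rfl]

theorem rp_fib {k : ℕ} (g : SS (μ := μ) k) : rp g (fib g) = g := by
  apply Subtype.ext
  refine Hm.ext fun p => ?_
  show rep g (fib g) p = _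
  by_cases hp : p.1 = k
  · rw [rep_pos g _ hp]
    have e : p = (k, p.2) := Prod.ext hp rfl
    refine Prod.ext ?_ ?_
    · show k = _
      rw [g.2.1 p, hp]
    · show ((toH g.1) (k, p.2)).2 = _
      rw [← e]
      rfl
  · rw [rep_neg g _ hp]

theorem zd_fib {k : ℕ} {g : SS (μ := μ) k} (h : ZD g) : ZD (fib g) :=
  ZD.of_maps (fib_cont k) (rp_cont g) (fib_rp g) (rp_fib g) h

theorem exists_bdd (e : Hm (ℕ × μ) → L2) (he : Continuous e) :
    ∃ (k : ℕ) (R : ℝ), ∀ g ∈ SS (μ := μ) k, ‖e g‖ ≤ R := by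
  let i0 : Hm (ℕ × μ) := Homeomorph.refl _
  by_contra hcon
  push Not at hcon
  choose g hg hgR using fun k => hcon k (‖e i0‖ + 1)
  have ht : Filter.Tendsto g Filter.atTop (𝓝 i0) := by
    rw [toC_ind.nhds_eq_comap, Filter.tendsto_comap_iff, ContinuousMap.tendsto_nhds_compactOpen]
    intro K hK U hU hKU
    have hf : (Prod.fst '' K).Finite := (hK.image continuous_fst).finite_of_discrete
    obtain ⟨N, hN⟩ := hf.bddAbove
    filter_upwards [Filter.eventually_gt_atTop N] with k hk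
    intro p hp
    have h1 : p.1 < k := lt_of_le_of_lt (hN ⟨p, hp, rfl⟩) hk
    show toC (g k) p ∈ U
    rw [(hg k).2 p h1]
    exact hKU hp
  have ht2 : Filter.Tendsto (fun k => ‖e (g k)‖) Filter.atTop (𝓝 ‖e i0‖) :=
    ((he.tendsto i0).comp ht).norm
  have := (ht2.eventually (gt_mem_nhds (show ‖e i0‖ < ‖e i0‖ + 1 by linarith))).exists
  obtain ⟨k, hk⟩ := this
  exact absurd hk (not_lt.2 (hgR k).le)

theorem contra [T2Space μ] (e1 : Hm μ ≃ₜ ES) (e2 : Hm (ℕ × μ) ≃ₜ ES) : False := by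
  obtain ⟨k, R, hR⟩ := exists_bdd (μ := μ) (fun g => (e2 g : L2))
    (continuous_subtype_val.comp e2.continuous)
  have : Nonempty (SS (μ := μ) k) :=
    ⟨⟨(Homeomorph.refl _ : (ℕ × μ) ≃ₜ (ℕ × μ)), fun _ => rfl, fun _ _ => rfl⟩⟩
  have hι : IsClosedEmbedding fun g : SS (μ := μ) k => (e2 g.1 : L2) :=
    ES_closed.isClosedEmbedding_subtypeVal.comp
      (e2.isClosedEmbedding.comp (SS_closed k).isClosedEmbedding_subtypeVal)
  obtain ⟨g, hg⟩ := somewhere_zd hι (fun g => (e2 g.1).2) (fun g => hR g.1 g.2)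
  have h1 : ZD (e1.symm ⟨0, zero_mem⟩) := zd_all (zd_fib hg)
  have h2 := ZD.of_maps e1.continuous e1.symm.continuous (fun h => e1.apply_symm_apply h)
    (t := e1.symm ⟨0, zero_mem⟩) (by rw [e1.apply_symm_apply]) h1
  rw [e1.apply_symm_apply] at h2
  exact not_zd h2

end

/-- The negation of the preceding statement: For every n ≥ 1 and every nonempty separable metrizable space locally homeomorphic to open subsets of the n-dimensional Menger compactum, its homeomorphism group with the compact-open topology is homeomorphic to complete Erdős space. -/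
theorem result :
    ¬ (∀ (n : ℕ), 1 ≤ n →
    ∀ (M : Type) [TopologicalSpace M] [TopologicalSpace.MetrizableSpace M]
      [TopologicalSpace.SeparableSpace M] [Nonempty M],
      (∀ x : M, ∃ V : Set M, IsOpen V ∧ x ∈ V ∧
        ∃ U : Set {y : Fin (2 * n + 1) → ℝ |
            ∀ k : ℕ, ∃ a : Fin (2 * n + 1) → ℕ,
              (∀ i, a i < 3 ^ k ∧ (a i : ℝ) / 3 ^ k ≤ y i ∧ y i ≤ ((a i : ℝ) + 1) / 3 ^ k) ∧
              ∀ j < k, (Finset.univ.filter (fun i => a i / 3 ^ j % 3 = 1)).card ≤ n},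
          IsOpen U ∧ Nonempty (V ≃ₜ U)) →
      Nonempty (@Homeomorph (M ≃ₜ M)
        {x : lp (fun _ : ℕ => ℝ) 2 | ∀ i : ℕ, (x : ℕ → ℝ) i = 0 ∨
            ∃ k : ℕ, 0 < k ∧ (x : ℕ → ℝ) i = 1 / (k : ℝ)}
        (TopologicalSpace.induced (fun g : M ≃ₜ M => ContinuousMap.mk (⇑g) g.continuous)
          inferInstance)
        inferInstance)) := by
  intro h
  set A : Set (Fin (2 * 1 + 1) → ℝ) := {y : Fin (2 * 1 + 1) → ℝ |
            ∀ k : ℕ, ∃ a : Fin (2 * 1 + 1) → ℕ,
              (∀ i, a i < 3 ^ k ∧ (a i : ℝ) / 3 ^ k ≤ y i ∧ y i ≤ ((a i : ℝ) + 1) / 3 ^ k) ∧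
              ∀ j < k, (Finset.univ.filter (fun i => a i / 3 ^ j % 3 = 1)).card ≤ 1} with hA
  have h0 : (fun _ => 0 : Fin (2 * 1 + 1) → ℝ) ∈ A := by
    intro k
    refine ⟨fun _ => 0, fun i => ⟨by positivity, by simp, by positivity⟩, fun j _ => ?_⟩
    simp
  have : Nonempty A := ⟨⟨_, h0⟩⟩
  obtain ⟨e1⟩ := h 1 le_rfl A (fun x => ⟨univ, isOpen_univ, trivial, univ, isOpen_univ,
    ⟨Homeomorph.refl _⟩⟩)
  obtain ⟨e2⟩ := h 1 le_rfl (ℕ × A) (fun x => ⟨{p | p.1 = x.1},
    (isOpen_discrete ({x.1} : Set ℕ)).preimage continuous_fst, rfl, univ, isOpen_univ,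
    ⟨{ toFun := fun p => ⟨p.1.2, trivial⟩
       invFun := fun y => ⟨(x.1, y.1), rfl⟩
       left_inv := fun p => Subtype.ext (Prod.ext p.2.symm rfl)
       right_inv := fun y => rfl
       continuous_toFun := by fun_prop
       continuous_invFun := by fun_prop }⟩⟩)
  exact contra (μ := A) e1 e2

end Pool.Agent.S13150
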