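import Pool.Statements.S13341
import Pool.Agent.Y451.NagCore

set_option autoImplicit false
open Bundle
open scoped Manifold ContDiff
open Pool Pool.MP_6d5819_gt

namespace Pool.Agent.S13341

/-- For every compact simply connected Riemannian manifold whose points all have isometric symmetries with differential minus identity, if some antipodal finite set is larger than the total real Betti number, then some integral homology group has an element of order 2. -/
theorem result :
  ∀ (d : ℕ) (M : Type) [EMetricSpace M]
    [ChartedSpace (EuclideanSpace ℝ (Fin d)) M]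
    [IsManifold (𝓡 d) ∞ M]
    [RiemannianBundle (fun x : M ↦ TangentSpace (𝓡 d) x)]
    [IsContMDiffRiemannianBundle (𝓡 d) ∞ (EuclideanSpace ℝ (Fin d))
      (fun x : M ↦ TangentSpace (𝓡 d) x)]
    [IsRiemannianManifold (𝓡 d) M]
    [CompactSpace M] [SimplyConnectedSpace M]
    (s : M → M → M),
    (∀ x : M, Isometry (s x) ∧ s x x = x ∧
      mfderiv (𝓡 d) (𝓡 d) (s x) x = -ContinuousLinearMap.id ℝ (EuclideanSpace ℝ (Fin d))) →
    (∃ A : Finset M, (∀ x ∈ A, ∀ y ∈ A, s x y = y) ∧
      (∑ i ∈ Finset.range (d + 1),
        Module.finrank ℝ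
          ((((AlgebraicTopology.singularHomologyFunctor (ModuleCat.{0} ℝ) i).obj
            (ModuleCat.of ℝ ℝ)).obj (TopCat.of M) : ModuleCat.{0} ℝ) : Type)) < A.card) →
    ∃ i : ℕ, ∃ g : ((((AlgebraicTopology.singularHomologyFunctor (ModuleCat.{0} ℤ) i).obj
            (ModuleCat.of ℤ ℤ)).obj (TopCat.of M) : ModuleCat.{0} ℤ) : Type),
      addOrderOf g = 2 := by
  intro d M iE iC iM iR iS iRM iK iSC s hs hA
  have hfin : ∀ x y : M, edist x y ≠ ⊤ := by
    intro x y hxy
    have hcl : IsClopen {z : M | edist x z < ⊤} := by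
      constructor
      · rw [← isOpen_compl_iff, EMetric.isOpen_iff]
        intro z hz
        refine ⟨1, one_pos, fun w hw hw' => hz ?_⟩
        have h1 : edist x z ≤ edist x w + edist w z := edist_triangle _ _ _
        have h2 : edist w z < ⊤ := lt_trans hw ENNReal.one_lt_top
        exact lt_of_le_of_lt h1 (ENNReal.add_lt_top.2 ⟨hw', h2⟩)
      · rw [EMetric.isOpen_iff]
        intro z hz
        refine ⟨1, one_pos, fun w hw => ?_⟩
        have h1 : edist x w ≤ edist x z + edist z w := edist_triangle _ _ _
        have h2 : edist z w < ⊤ := by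
          rw [edist_comm]
          exact lt_trans hw ENNReal.one_lt_top
        exact lt_of_le_of_lt h1 (ENNReal.add_lt_top.2 ⟨hz, h2⟩)
    have h1 := hcl.eq_univ ⟨x, by simp⟩
    have h2 : y ∈ {z : M | edist x z < ⊤} := by rw [h1]; trivial
    exact absurd hxy (ne_of_lt h2)
  exact @Pool.Agent.Y451.core d M (EMetricSpace.toMetricSpace hfin) iC iM iR iS iRM iK
    inferInstance s hs hA

end Pool.Agent.S13341
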