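import Pool.Statements.S13392
import Pool.Agent.Y498.FQ.Quot

set_option autoImplicit false
open Pool Pool.MP_74810d_gt

namespace Pool.Agent.S13392

/-- The negation of the preceding statement: For every n ≥ 1 and every simply connected second countable Hausdorff topological n-manifold Q, some smooth flow on R^(n+1) has orbit space, with the quotient topology, homeomorphic to Q. -/
theorem result :
    ¬ (∀ n : ℕ, 1 ≤ n →
      ∀ (Q : Type) [TopologicalSpace Q] [T2Space Q] [SecondCountableTopology Q]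
        [ChartedSpace (EuclideanSpace ℝ (Fin n)) Q] [SimplyConnectedSpace Q],
        ∃ Φ : ℝ → EuclideanSpace ℝ (Fin (n + 1)) → EuclideanSpace ℝ (Fin (n + 1)),
          ContDiff ℝ (⊤ : ℕ∞)
              (fun p : ℝ × EuclideanSpace ℝ (Fin (n + 1)) => Φ p.1 p.2) ∧
          (∀ x, Φ 0 x = x) ∧
          (∀ (s t : ℝ) (x : EuclideanSpace ℝ (Fin (n + 1))), Φ (s + t) x = Φ s (Φ t x)) ∧
          Nonempty
            (Quot (fun x y : EuclideanSpace ℝ (Fin (n + 1)) => ∃ t : ℝ, Φ t x = y) ≃ₜ Q)) := by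
  intro H
  obtain ⟨g, hg⟩ := Pool.Agent.Y498.FQ.exists_openEmbedding
  have hne : Nonempty Pool.Agent.Y498.FQ.W3 := ⟨Pool.Agent.Y498.FQ.tor 0⟩
  let _ : ChartedSpace (EuclideanSpace ℝ (Fin 9)) Pool.Agent.Y498.FQ.W3 := hg.singletonChartedSpace
  have _ := Pool.Agent.Y498.FQ.simplyConnected_W3
  obtain ⟨Φ, h1, h2, h3, ⟨ψ⟩⟩ := H 9 (by norm_num) Pool.Agent.Y498.FQ.W3
  exact (Pool.Agent.Y498.FQ.no_flow h1.continuous h2 h3).false ψ

end Pool.Agent.S13392
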