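import Pool.Statements.S13574
import Pool.Agent.Results.MP_916210_gt.BetaOmega

set_option autoImplicit false
open Pool Pool.MP_916210_gt

namespace Pool.Agent.S13574

noncomputable section

namespace B
export Pool.Agent.Results.MP_916210_gt.BetaOmega (Cp IsLEmbedded IsLStable lstable not_sstable
  LEquivalent IsSStable)
end B

/-- the pointwise topology -/
abbrev pw (X : Type) [TopologicalSpace X] : TopologicalSpace C(X, ℝ) :=
  TopologicalSpace.induced (fun f : C(X, ℝ) => (f : X → ℝ)) inferInstance

/-- the two forms of the space of continuous functions -/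
def eqv (X : Type) [TopologicalSpace X] : C(X, ℝ) ≃ₗ[ℝ] B.Cp X where
  toFun f := ⟨f, f.continuous⟩
  invFun g := ⟨g.1, g.2⟩
  map_add' _ _ := rfl
  map_smul' _ _ := rfl
  left_inv _ := rfl
  right_inv _ := rfl

theorem eqv_cont (X : Type) [TopologicalSpace X] : @Continuous _ _ (pw X) _ (eqv X) := by
  letI := pw X
  exact Continuous.subtype_mk continuous_induced_dom _

theorem eqv_symm_cont (X : Type) [TopologicalSpace X] :
    @Continuous _ _ _ (pw X) (eqv X).symm := by
  letI := pw X
  exact continuous_induced_rng.2 continuous_subtype_val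

theorem cont_to {X Y : Type} [TopologicalSpace X] [TopologicalSpace Y] {φ : C(X, ℝ) → C(Y, ℝ)}
    (h : @Continuous _ _ (pw X) (pw Y) φ) :
    Continuous (fun f : B.Cp X => (eqv Y (φ ((eqv X).symm f)))) := by
  letI := pw X
  letI := pw Y
  exact (eqv_cont Y).comp (h.comp (eqv_symm_cont X))

theorem cont_from {X Y : Type} [TopologicalSpace X] [TopologicalSpace Y] {ψ : B.Cp X → B.Cp Y}
    (h : Continuous ψ) :
    @Continuous _ _ (pw X) (pw Y) (fun f => (eqv Y).symm (ψ (eqv X f))) := by
  letI := pw X
  letI := pw Y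
  exact (eqv_symm_cont Y).comp (h.comp (eqv_cont X))

/-- the convergent sequence -/
def opn : OnePoint ℕ ≃ₜ ℕ∞ :=
  OnePoint.equivOfIsEmbeddingOfRangeEq (⊤ : ℕ∞) ((↑) : ℕ → ℕ∞) ENat.isEmbedding_natCast (by
    rw [ENat.range_natCast]
    ext x
    simp [lt_top_iff_ne_top])

/-- homeomorphic spaces -/
def pull {X Y : Type} [TopologicalSpace X] [TopologicalSpace Y] (h : X ≃ₜ Y) :
    B.Cp Y ≃L[ℝ] B.Cp X where
  toFun f := ⟨fun x => f.1 (h x), by
    have hc : Continuous f.1 := f.2
    exact hc.comp h.continuous⟩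
  invFun f := ⟨fun x => f.1 (h.symm x), by
    have hc : Continuous f.1 := f.2
    exact hc.comp h.symm.continuous⟩
  map_add' _ _ := rfl
  map_smul' _ _ := rfl
  left_inv f := by
    apply Subtype.ext
    funext x
    show f.1 (h (h.symm x)) = f.1 x
    rw [h.apply_symm_apply]
  right_inv f := by
    apply Subtype.ext
    funext x
    show f.1 (h.symm (h x)) = f.1 x
    rw [h.symm_apply_apply]
  continuous_toFun := by
    refine Continuous.subtype_mk (continuous_pi fun x => ?_) _
    exact (continuous_apply (h x)).comp continuous_subtype_val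
  continuous_invFun := by
    refine Continuous.subtype_mk (continuous_pi fun x => ?_) _
    exact (continuous_apply (h.symm x)).comp continuous_subtype_val

/-- The negation of the preceding statement: For every infinite Tychonoff space X: if C_p(X) is linearly homeomorphic to C_p(X ⊕ A) for each subspace A with a continuous linear extender, then C_p(X × convergent sequence) is linearly homeomorphic to C_p(X). -/
theorem result :
    ¬ (∀ (X : Type) [TopologicalSpace X] [T35Space X] [Infinite X],
      (∀ A : Set X,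
        (∃ φ : C(A, ℝ) →ₗ[ℝ] C(X, ℝ),
          @Continuous _ _
            (TopologicalSpace.induced (fun f : C(A, ℝ) => (f : A → ℝ)) inferInstance)
            (TopologicalSpace.induced (fun f : C(X, ℝ) => (f : X → ℝ)) inferInstance)
            (⇑φ) ∧
          ∀ f : C(A, ℝ), ∀ a : A, φ f a = f a) →
        ∃ e : C(X, ℝ) ≃ₗ[ℝ] C(X ⊕ A, ℝ),
          @Continuous _ _
            (TopologicalSpace.induced (fun f : C(X, ℝ) => (f : X → ℝ)) inferInstance)
            (TopologicalSpace.induced (fun f : C(X ⊕ A, ℝ) => (f : X ⊕ A → ℝ)) inferInstance)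
            (⇑e) ∧
          @Continuous _ _
            (TopologicalSpace.induced (fun f : C(X ⊕ A, ℝ) => (f : X ⊕ A → ℝ)) inferInstance)
            (TopologicalSpace.induced (fun f : C(X, ℝ) => (f : X → ℝ)) inferInstance)
            (⇑e.symm)) →
      ∃ e : C(X × OnePoint ℕ, ℝ) ≃ₗ[ℝ] C(X, ℝ),
        @Continuous _ _
          (TopologicalSpace.induced (fun f : C(X × OnePoint ℕ, ℝ) => (f : X × OnePoint ℕ → ℝ)) inferInstance)
          (TopologicalSpace.induced (fun f : C(X, ℝ) => (f : X → ℝ)) inferInstance)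
          (⇑e) ∧
        @Continuous _ _
          (TopologicalSpace.induced (fun f : C(X, ℝ) => (f : X → ℝ)) inferInstance)
          (TopologicalSpace.induced (fun f : C(X × OnePoint ℕ, ℝ) => (f : X × OnePoint ℕ → ℝ)) inferInstance)
          (⇑e.symm)) := by
  intro H
  have hinf : Infinite (Ultrafilter ℕ) :=
    Infinite.of_injective (pure : ℕ → Ultrafilter ℕ) (fun a b h => by
      have h1 : ({a} : Set ℕ) ∈ (pure b : Ultrafilter ℕ) := by
        rw [← h]
        exact Ultrafilter.mem_pure.2 rfl
      exact (Ultrafilter.mem_pure.1 h1).symm)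
  obtain ⟨e, he, he'⟩ := H (Ultrafilter ℕ) (by
    rintro A ⟨φ, hφ, hφA⟩
    have hA : B.IsLEmbedded A :=
      ⟨⟨(eqv (Ultrafilter ℕ)).toLinearMap.comp (φ.comp (eqv A).symm.toLinearMap),
        cont_to hφ⟩, fun f a => hφA ((eqv A).symm f) a⟩
    obtain ⟨L⟩ := B.lstable A hA
    refine ⟨((eqv (Ultrafilter ℕ)).trans L.toLinearEquiv).trans
      (eqv (Ultrafilter ℕ ⊕ A)).symm, ?_, ?_⟩
    · exact cont_from L.continuous
    · exact cont_from L.symm.continuous)
  apply B.not_sstable
  have hhom : (Ultrafilter ℕ) × OnePoint ℕ ≃ₜ (Ultrafilter ℕ) × ℕ∞ :=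
    (Homeomorph.refl _).prodCongr opn
  refine ⟨(pull hhom).trans ⟨((eqv (Ultrafilter ℕ × OnePoint ℕ)).symm.trans e).trans
    (eqv (Ultrafilter ℕ)), ?_, ?_⟩⟩
  · exact cont_to he
  · exact cont_to he'

end

end Pool.Agent.S13574
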