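import Pool.Statements.S13589
import Pool.Agent.Y459.NS.LowerM
import Pool.Agent.Y459.NS.Corner

set_option autoImplicit false
open Pool Pool.MP_93ef73_gt

namespace Pool.Agent.S13589

open Pool.Agent.Y459.NS in
/-- There exist d, a nonempty compact totally disconnected A in R^d with two distinct Steiner trees S, T, no terminal interior to segments in both, and nonempty compact M (∣M∣=∣A∣ if A finite) and r>0 with S an r-minimizer for M. -/
theorem result :
  ∃ (d : ℕ) (A S T M : Set (EuclideanSpace ℝ (Fin d))) (r : ℝ),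
    IsCompact A ∧ A.Nonempty ∧ IsTotallyDisconnected A ∧
    (IsCompact S ∧ IsConnected S ∧ A ⊆ S ∧
      MeasureTheory.Measure.hausdorffMeasure 1 S < ⊤ ∧
      ∀ S' : Set (EuclideanSpace ℝ (Fin d)), IsCompact S' → IsConnected S' → A ⊆ S' →
        MeasureTheory.Measure.hausdorffMeasure 1 S ≤ MeasureTheory.Measure.hausdorffMeasure 1 S') ∧
    (IsCompact T ∧ IsConnected T ∧ A ⊆ T ∧
      MeasureTheory.Measure.hausdorffMeasure 1 T < ⊤ ∧
      ∀ S' : Set (EuclideanSpace ℝ (Fin d)), IsCompact S' → IsConnected S' → A ⊆ S' →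
        MeasureTheory.Measure.hausdorffMeasure 1 T ≤ MeasureTheory.Measure.hausdorffMeasure 1 S') ∧
    S ≠ T ∧
    IsCompact M ∧ M.Nonempty ∧ 0 < r ∧
    (A.Finite → M.Finite ∧ M.ncard = A.ncard) ∧
    (¬ ∃ a ∈ A,
        (∃ x y : EuclideanSpace ℝ (Fin d), x ≠ y ∧ segment ℝ x y ⊆ S ∧ a ∈ openSegment ℝ x y) ∧
        (∃ x y : EuclideanSpace ℝ (Fin d), x ≠ y ∧ segment ℝ x y ⊆ T ∧ a ∈ openSegment ℝ x y)) ∧
    (∀ y ∈ M, Metric.infDist y S ≤ r) ∧
    ∀ W : Set (EuclideanSpace ℝ (Fin d)), IsCompact W → IsConnected W →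
      (∀ y ∈ M, Metric.infDist y W ≤ r) →
        MeasureTheory.Measure.hausdorffMeasure 1 S ≤ MeasureTheory.Measure.hausdorffMeasure 1 W := by
  refine ⟨2, AA, SS, TT, MM, rr, AA_compact, ⟨v1, Or.inl (by simp)⟩, AA_countable.isTotallyDisconnected,
    ⟨SS_compact, SS_conn, AA_sub_SS, SS_meas.trans_lt ENNReal.ofReal_lt_top,
      fun S' h1 h2 h3 => SS_meas.trans (lowerA h1 h2 h3)⟩,
    ⟨TT_compact, TT_conn, AA_sub_TT, TT_meas.trans_lt ENNReal.ofReal_lt_top,
      fun S' h1 h2 h3 => TT_meas.trans (lowerA h1 h2 h3)⟩,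
    SS_ne_TT, MM_compact, ?_, rr_pos, fun h => absurd h AA_infinite, ?_, fun y hy => hy,
    fun W h1 h2 h3 => SS_meas.trans (lowerM h1 h2 h3)⟩
  · obtain ⟨a, ha⟩ := SS_nonempty
    refine ⟨a, ?_⟩
    show Metric.infDist a SS ≤ rr
    rw [Metric.infDist_zero_of_mem ha]
    exact rr_pos.le
  · rintro ⟨a, ha, -, hT⟩
    exact not_open (AA_exp ha) hT

end Pool.Agent.S13589
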