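import Pool.Statements.S13772

set_option autoImplicit false
open Pool Pool.MP_b1ea19_gt

/-!
# The closed topologist's sine curve

We disprove the statement with the closed topologist's sine curve `XS` (the closure of the graph
of `sin (1/x)`, `0 < x ≤ 1`).  Every nondegenerate subcontinuum contains a dense connected set of
points separating it, so the set of local separating points (local cut points) in the sense of
the statement is connected, while the continuum is not arcwise connected.
-/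

namespace Pool.Agent.S13772

open Set Topology

/-- `x sin (1/x)` -/
noncomputable def hh (x : ℝ) : ℝ := x * Real.sin x⁻¹

theorem hh_cont : Continuous hh := by
  rw [continuous_iff_continuousAt]
  intro x
  rcases eq_or_ne x 0 with rfl | hx
  · have h0 : hh 0 = 0 := by simp [hh]
    rw [ContinuousAt, h0]
    refine squeeze_zero_norm (a := fun x : ℝ => |x|) (fun x => ?_) ?_
    · rw [hh, Real.norm_eq_abs, abs_mul]
      exact mul_le_of_le_one_right (abs_nonneg _) (Real.abs_sin_le_one _)
    · have : Filter.Tendsto (fun x : ℝ => |x|) (𝓝 0) (𝓝 |0|) := continuous_abs.tendsto 0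
      simpa using this
  · exact continuousAt_id.mul (Real.continuous_sin.continuousAt.comp (continuousAt_inv₀ hx))

/-- the closed topologist's sine curve -/
def XS : Set (ℝ × ℝ) :=
  {p | 0 ≤ p.1 ∧ p.1 ≤ 1 ∧ -1 ≤ p.2 ∧ p.2 ≤ 1 ∧ p.1 * p.2 = hh p.1}

theorem XS_closed : IsClosed XS := by
  have c1 : Continuous fun p : ℝ × ℝ => p.1 := continuous_fst
  have c2 : Continuous fun p : ℝ × ℝ => p.2 := continuous_snd
  exact (isClosed_le continuous_const c1).inter ((isClosed_le c1 continuous_const).inter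
    ((isClosed_le continuous_const c2).inter ((isClosed_le c2 continuous_const).inter
      (isClosed_eq (c1.mul c2) (hh_cont.comp c1)))))

theorem XS_compact : IsCompact XS := by
  refine IsCompact.of_isClosed_subset (isCompact_Icc (a := ((0 : ℝ), (-1 : ℝ))) (b := (1, 1)))
    XS_closed ?_
  rintro p ⟨h1, h2, h3, h4, -⟩
  exact ⟨⟨h1, h3⟩, ⟨h2, h4⟩⟩

abbrev X : Type := XS

instance : CompactSpace X := isCompact_iff_compactSpace.1 XS_compact

/-- first coordinate -/
def cx (p : X) : ℝ := p.1.1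

/-- second coordinate -/
def cy (p : X) : ℝ := p.1.2

theorem cx_cont : Continuous cx := continuous_fst.comp continuous_subtype_val

theorem cy_cont : Continuous cy := continuous_snd.comp continuous_subtype_val

theorem cy_of_pos {p : X} (h : 0 < cx p) : cy p = Real.sin (cx p)⁻¹ := by
  have h5 := p.2.2.2.2.2
  have : cx p * cy p = cx p * Real.sin (cx p)⁻¹ := h5
  exact mul_left_cancel₀ h.ne' this

theorem ext' {p q : X} (h1 : cx p = cx q) (h2 : cy p = cy q) : p = q :=
  Subtype.ext (Prod.ext h1 h2)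

theorem eq_of_cx {p q : X} (h : 0 < cx p) (h1 : cx p = cx q) : p = q := by
  refine ext' h1 ?_
  rw [cy_of_pos h, cy_of_pos (h1 ▸ h), h1]

/-- the limit segment -/
noncomputable def jj (s : ℝ) : X := ⟨(0, max (-1) (min 1 s)), by
  refine ⟨le_rfl, zero_le_one, le_max_left _ _, ?_, ?_⟩
  · exact max_le (by norm_num) (min_le_left _ _)
  · simp [hh]⟩

theorem jj_cont : Continuous jj :=
  Continuous.subtype_mk (by fun_prop) _

theorem jj_of {p : X} (h : cx p = 0) : jj (cy p) = p := by
  refine ext' h.symm ?_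
  show max (-1) (min 1 (cy p)) = cy p
  have e1 : cy p ≤ 1 := p.2.2.2.2.1
  have e2 : -1 ≤ cy p := p.2.2.2.1
  rw [min_eq_right e1, max_eq_right e2]

/-- the graph -/
noncomputable def gg (s : ℝ) : X :=
  if h : 0 < s ∧ s ≤ 1 then ⟨(s, Real.sin s⁻¹), h.1.le, h.2, Real.neg_one_le_sin _,
    Real.sin_le_one _, rfl⟩ else jj 0

theorem cx_gg {s : ℝ} (h : s ∈ Ioc (0 : ℝ) 1) : cx (gg s) = s := by
  simp only [gg, dif_pos (show 0 < s ∧ s ≤ 1 from h)]
  rfl

theorem gg_of {p : X} (h : 0 < cx p) : gg (cx p) = p := by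
  have h2 : cx p ∈ Ioc (0 : ℝ) 1 := ⟨h, p.2.2.1⟩
  exact eq_of_cx (by rw [cx_gg h2]; exact h) (cx_gg h2)

theorem gg_cont : ContinuousOn gg (Ioc 0 1) := by
  rw [continuousOn_iff_continuous_domRestrict]
  have h : Continuous fun s : Ioc (0 : ℝ) 1 => (⟨((s : ℝ), Real.sin (s : ℝ)⁻¹), s.2.1.le, s.2.2,
      Real.neg_one_le_sin _, Real.sin_le_one _, rfl⟩ : X) := by
    refine Continuous.subtype_mk ?_ _
    refine continuous_subtype_val.prodMk (Real.continuous_sin.comp ?_)
    exact continuous_subtype_val.inv₀ fun s => s.2.1.ne'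
  convert h using 1
  funext s
  simp only [Set.domRestrict_apply, gg]
  rw [dif_pos (show 0 < (s : ℝ) ∧ (s : ℝ) ≤ 1 from s.2)]

/-- points of the graph near the limit segment, at a given height -/
theorem exists_small {y e : ℝ} (hy : -1 ≤ y) (hy' : y ≤ 1) (he : 0 < e) :
    ∃ s : ℝ, 0 < s ∧ s < e ∧ s ≤ 1 ∧ Real.sin s⁻¹ = y := by
  obtain ⟨n, hn⟩ := exists_nat_gt (1 / e + 2)
  have hpi := Real.pi_gt_three
  have ha := Real.neg_pi_div_two_le_arcsin y
  have hb := Real.arcsin_le_pi_div_two y
  have hpi4 := Real.pi_le_four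
  have he' : 0 < 1 / e := by positivity
  set u := Real.arcsin y + n * (2 * Real.pi) with hu
  have hu1 : 1 / e < u := by
    have : (n : ℝ) * 6 ≤ n * (2 * Real.pi) := by
      apply mul_le_mul_of_nonneg_left _ (by positivity)
      linarith
    linarith
  have hu2 : 1 ≤ u := by
    have : (n : ℝ) * 6 ≤ n * (2 * Real.pi) := by
      apply mul_le_mul_of_nonneg_left _ (by positivity)
      linarith
    linarith
  have hu0 : 0 < u := by linarith
  refine ⟨u⁻¹, inv_pos.2 hu0, ?_, inv_le_one_of_one_le₀ hu2, ?_⟩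
  · rw [inv_lt_comm₀ hu0 he, ← one_div]
    exact hu1
  · rw [inv_inv, hu, Real.sin_add_nat_mul_two_pi, Real.sin_arcsin hy hy']

theorem mem_closure_zero {q : X} (hq : cx q = 0) {b : ℝ} (hb : 0 < b) :
    q ∈ closure (gg '' Ioo 0 b) := by
  rw [Metric.mem_closure_iff]
  intro e he
  obtain ⟨s, hs0, hs1, hs2, hs3⟩ := exists_small (y := cy q) q.2.2.2.1 q.2.2.2.2.1
    (lt_min he hb)
  refine ⟨gg s, ⟨s, ⟨hs0, lt_of_lt_of_le hs1 (min_le_right _ _)⟩, rfl⟩, ?_⟩
  have h1 : cx (gg s) = s := cx_gg ⟨hs0, hs2⟩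
  have h2 : cy (gg s) = cy q := by
    rw [cy_of_pos (by rw [h1]; exact hs0), h1, hs3]
  rw [Subtype.dist_eq, Prod.dist_eq]
  have e1 : dist q.1.1 (gg s).1.1 = s := by
    show dist (cx q) (cx (gg s)) = s
    rw [hq, h1, Real.dist_eq, zero_sub, abs_neg, abs_of_pos hs0]
  have e2 : dist q.1.2 (gg s).1.2 = 0 := by
    show dist (cy q) (cy (gg s)) = 0
    rw [h2, dist_self]
  rw [e1, e2, max_eq_left hs0.le]
  exact lt_of_lt_of_le hs1 (min_le_left _ _)

theorem mem_closure_pos {q : X} (hq : 0 < cx q) {a b : ℝ} (hab : a < b) (ha : 0 ≤ a)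
    (h : cx q ∈ Icc a b) (hb : b ≤ 1) : q ∈ closure (gg '' Ioo a b) := by
  rw [← gg_of hq]
  have h1 : ContinuousWithinAt gg (Ioo a b) (cx q) :=
    (gg_cont (cx q) ⟨hq, q.2.2.1⟩).mono
      fun _ hs => ⟨lt_of_le_of_lt ha hs.1, hs.2.le.trans hb⟩
  refine h1.mem_closure_image ?_
  rw [closure_Ioo hab.ne]
  exact h

theorem ioo_conn {a b : ℝ} (ha : 0 ≤ a) (hb : b ≤ 1) : IsPreconnected (gg '' Ioo a b) :=
  isPreconnected_Ioo.image _ (gg_cont.mono fun s hs => ⟨lt_of_le_of_lt ha hs.1, hs.2.le.trans hb⟩)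

instance : ConnectedSpace X := by
  have h1 : IsPreconnected (closure (gg '' Ioo 0 1)) := (ioo_conn le_rfl le_rfl).closure
  have h2 : closure (gg '' Ioo 0 1) = univ := by
    rw [eq_univ_iff_forall]
    intro q
    rcases (q.2.1 : 0 ≤ cx q).eq_or_lt with h | h
    · exact mem_closure_zero h.symm one_pos
    · exact mem_closure_pos h zero_lt_one le_rfl ⟨h.le, q.2.2.1⟩ le_rfl
  rw [h2] at h1
  exact connectedSpace_iff_univ.2 ⟨⟨jj 0, trivial⟩, h1⟩

/-- local separating points -/
def LS (C : Set X) : Set X := {p : X | p ∈ C ∧ ∃ V : Set X, IsOpen V ∧ p ∈ V ∧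
          ¬ IsPreconnected (connectedComponentIn (V ∩ C) p \ {p})}

theorem LS_of {C I : Set X} (hC : IsConnected C) (hI : IsPreconnected I) (h1 : I ⊆ C)
    (h2 : C ⊆ closure I) (h3 : ∀ p ∈ I, ¬ IsPreconnected (C \ {p})) :
    IsPreconnected (LS C) := by
  refine hI.subset_closure ?_ ?_
  · intro p hp
    refine ⟨h1 hp, univ, isOpen_univ, trivial, ?_⟩
    rw [univ_inter, hC.isPreconnected.connectedComponentIn (h1 hp)]
    exact h3 p hp
  · exact fun p hp => h2 hp.1

theorem LS_of_sub {C : Set X} (hC : C.Subsingleton) : IsPreconnected (LS C) :=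
  (hC.anti fun _ hp => hp.1).isPreconnected

theorem cut {C : Set X} {p a b : X} {φ : X → ℝ} (hφ : Continuous φ) (ha : a ∈ C)
    (hb : b ∈ C) (h1 : φ a < 0) (h2 : 0 < φ b) (h3 : ∀ q ∈ C, φ q = 0 → q = p) 
    (h4 : φ p = 0) : ¬ IsPreconnected (C \ {p}) := by
  intro h
  have ha' : a ∈ C \ {p} := ⟨ha, by rintro rfl; linarith⟩
  have hb' : b ∈ C \ {p} := ⟨hb, by rintro rfl; linarith⟩
  obtain ⟨q, hq, hq0⟩ := h.intermediate_value ha' hb' hφ.continuousOn ⟨h1.le, h2.le⟩
  exact hq.2 (h3 q hq.1 hq0)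

theorem LS_conn {C : Set X} (hc : IsCompact C) (hC : IsConnected C) :
    IsPreconnected (LS C) := by
  by_cases hpos : ∃ q ∈ C, 0 < cx q
  · obtain ⟨q0, hq0, hq0'⟩ := hpos
    obtain ⟨qa, hqa, hmin⟩ := hc.exists_isMinOn hC.nonempty cx_cont.continuousOn
    obtain ⟨qb, hqb, hmax⟩ := hc.exists_isMaxOn hC.nonempty cx_cont.continuousOn
    have hmin' : ∀ q ∈ C, cx qa ≤ cx q := fun q hq => hmin hq
    have hmax' : ∀ q ∈ C, cx q ≤ cx qb := fun q hq => hmax hq
    rcases (hmin' qb hqb).eq_or_lt with he | hlt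
    · apply LS_of_sub
      intro p hp q hq
      have e1 : cx p = cx q := by
        have := hmin' p hp; have := hmax' p hp; have := hmin' q hq; have := hmax' q hq
        linarith
      have e2 : 0 < cx p := by
        have := hmin' p hp; have := hmax' q0 hq0
        linarith
      exact eq_of_cx e2 e1
    · have ha0 : 0 ≤ cx qa := qa.2.1
      have hb1 : cx qb ≤ 1 := qb.2.2.1
      have hI : gg '' Ioo (cx qa) (cx qb) ⊆ C := by
        rintro _ ⟨s, hs, rfl⟩
        obtain ⟨q, hq, hqs⟩ := hC.isPreconnected.intermediate_value hqa hqb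
          cx_cont.continuousOn ⟨hs.1.le, hs.2.le⟩
        have : 0 < cx q := by rw [hqs]; exact lt_of_le_of_lt ha0 hs.1
        rw [← hqs, gg_of this]
        exact hq
      refine LS_of hC (ioo_conn ha0 hb1) hI ?_ ?_
      · intro q hq
        rcases (q.2.1 : 0 ≤ cx q).eq_or_lt with h | h
        · have : cx qa = 0 := le_antisymm (by rw [h]; exact hmin' q hq) ha0
          rw [this] at hlt ⊢
          exact mem_closure_zero h.symm hlt
        · exact mem_closure_pos h hlt ha0 ⟨hmin' q hq, hmax' q hq⟩ hb1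
      · rintro _ ⟨s, hs, rfl⟩
        have hs' : s ∈ Ioc (0 : ℝ) 1 := ⟨lt_of_le_of_lt ha0 hs.1, hs.2.le.trans hb1⟩
        refine cut (φ := fun q => cx q - s) (cx_cont.sub continuous_const) hqa hqb
          (by simpa using hs.1) (by simpa using hs.2) ?_ (by simp [cx_gg hs'])
        intro q _ h
        have h' : cx q = s := by
          have : cx q - s = 0 := h
          linarith
        rw [← h']
        exact (gg_of (by rw [h']; exact hs'.1)).symm
  · push Not at hpos
    have h0 : ∀ q ∈ C, cx q = 0 := fun q hq => le_antisymm (hpos q hq) q.2.1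
    obtain ⟨qa, hqa, hmin⟩ := hc.exists_isMinOn hC.nonempty cy_cont.continuousOn
    obtain ⟨qb, hqb, hmax⟩ := hc.exists_isMaxOn hC.nonempty cy_cont.continuousOn
    have hmin' : ∀ q ∈ C, cy qa ≤ cy q := fun q hq => hmin hq
    have hmax' : ∀ q ∈ C, cy q ≤ cy qb := fun q hq => hmax hq
    rcases (hmin' qb hqb).eq_or_lt with he | hlt
    · apply LS_of_sub
      intro p hp q hq
      refine ext' ((h0 p hp).trans (h0 q hq).symm) ?_
      have := hmin' p hp; have := hmax' p hp; have := hmin' q hq; have := hmax' q hq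
      linarith
    · have hI : jj '' Ioo (cy qa) (cy qb) ⊆ C := by
        rintro _ ⟨s, hs, rfl⟩
        obtain ⟨q, hq, hqs⟩ := hC.isPreconnected.intermediate_value hqa hqb
          cy_cont.continuousOn ⟨hs.1.le, hs.2.le⟩
        rw [← hqs, jj_of (h0 q hq)]
        exact hq
      refine LS_of hC (isPreconnected_Ioo.image _ jj_cont.continuousOn) hI ?_ ?_
      · intro q hq
        rw [← jj_of (h0 q hq)]
        refine (jj_cont.continuousAt.continuousWithinAt).mem_closure_image ?_
        rw [closure_Ioo hlt.ne]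
        exact ⟨hmin' q hq, hmax' q hq⟩
      · rintro _ ⟨s, hs, rfl⟩
        have hjs : cy (jj s) = s := by
          obtain ⟨q, hq, hqs⟩ := hC.isPreconnected.intermediate_value hqa hqb
            cy_cont.continuousOn ⟨hs.1.le, hs.2.le⟩
          rw [← hqs, jj_of (h0 q hq)]
        refine cut (φ := fun q => cy q - s) (cy_cont.sub continuous_const) hqa hqb
          (by simpa using hs.1) (by simpa using hs.2) ?_ (by simp [hjs])
        intro q hq h
        have h' : cy q = s := by
          have : cy q - s = 0 := h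
          linarith
        rw [← h', jj_of (h0 q hq)]

theorem no_path (f : unitInterval → X) (hf : Continuous f) (h0 : f 0 = jj 0)
    (h1 : f 1 = gg 1) : False := by
  let F : ℝ → X := fun t => f (Set.projIcc 0 1 zero_le_one t)
  have hF : Continuous F := hf.comp continuous_projIcc
  have F0 : F 0 = jj 0 := by
    simp only [F, Set.projIcc_left]; exact h0
  have F1 : F 1 = gg 1 := by
    simp only [F, Set.projIcc_right]; exact h1
  let T : Set ℝ := Icc 0 1 ∩ {t | cx (F t) = 0}
  have hTc : IsCompact T := isCompact_Icc.inter_right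
    (isClosed_eq (cx_cont.comp hF) continuous_const)
  have hTn : T.Nonempty := ⟨0, ⟨le_rfl, zero_le_one⟩, by
    show cx (F 0) = 0
    rw [F0]; rfl⟩
  obtain ⟨t0, ht0, hmax⟩ := hTc.exists_isGreatest hTn
  have ht1 : t0 < 1 := by
    refine lt_of_le_of_ne ht0.1.2 ?_
    rintro rfl
    have h := ht0.2
    rw [Set.mem_ofPred_eq, F1, cx_gg ⟨one_pos, le_rfl⟩] at h
    exact one_ne_zero h
  have hcont := Metric.continuous_iff.1 (cy_cont.comp hF) t0 (1 / 2) (by norm_num)
  obtain ⟨δ, hδ, hcont⟩ := hcont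
  obtain ⟨t1, ht01, ht11⟩ := exists_between (lt_min ht1 (show t0 < t0 + δ by linarith))
  have ht1' : t1 < 1 := lt_of_lt_of_le ht11 (min_le_left _ _)
  have ht1'' : t1 < t0 + δ := lt_of_lt_of_le ht11 (min_le_right _ _)
  have hpos : 0 < cx (F t1) := by
    refine lt_of_le_of_ne (F t1).2.1 ?_
    intro h
    have : t1 ∈ T := ⟨⟨ht0.1.1.trans ht01.le, ht1'.le⟩, h.symm⟩
    exact absurd (hmax this) (not_le.2 ht01)
  have key : ∀ y : ℝ, -1 ≤ y → y ≤ 1 → |y - cy (F t0)| < 1 / 2 := by
    intro y hy hy'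
    obtain ⟨s, hs0, hs1, hs2, hs3⟩ := exists_small hy hy' hpos
    obtain ⟨t, ht, hts⟩ := intermediate_value_Icc ht01.le
      (cx_cont.comp hF).continuousOn (show s ∈ Icc (cx (F t0)) (cx (F t1)) from
        ⟨by rw [show cx (F t0) = 0 from ht0.2]; exact hs0.le, hs1.le⟩)
    have hts' : cx (F t) = s := hts
    have h2 : cy (F t) = y := by
      rw [cy_of_pos (by rw [hts']; exact hs0), hts', hs3]
    have h3 := hcont t (by
      rw [Real.dist_eq, abs_lt]
      constructor
      · linarith [ht.1]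
      · linarith [ht.2])
    rw [Real.dist_eq] at h3
    simp only [Function.comp] at h3
    rw [h2] at h3
    exact h3
  have k1 := abs_lt.1 (key 1 (by norm_num) le_rfl)
  have k2 := abs_lt.1 (key (-1) le_rfl (by norm_num))
  linarith [k1.1, k1.2, k2.1, k2.2]

/-- The negation of the preceding statement: If X is a continuum in which every subcontinuum C has a connected set of local separating points, then any two distinct points of any connected subset of X are joined by an arc lying inside that subset. -/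
theorem result :
    ¬ (∀ (X : Type) [MetricSpace X] [CompactSpace X] [ConnectedSpace X],
      (∀ C : Set X, IsCompact C → IsConnected C →
        IsPreconnected {p : X | p ∈ C ∧ ∃ V : Set X, IsOpen V ∧ p ∈ V ∧
          ¬ IsPreconnected (connectedComponentIn (V ∩ C) p \ {p})}) →
      ∀ A : Set X, IsConnected A → ∀ x ∈ A, ∀ y ∈ A, x ≠ y →
        ∃ f : unitInterval → X, Continuous f ∧ Function.Injective f ∧
          f 0 = x ∧ f 1 = y ∧ Set.range f ⊆ A) := by
  intro h
  obtain ⟨f, hf, -, h0, h1, -⟩ := h X (fun C hc hC => LS_conn hc hC) univ isConnected_univ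
    (jj 0) trivial (gg 1) trivial (by
      intro h
      have h2 : cx (jj 0) = cx (gg 1) := by rw [h]
      rw [cx_gg ⟨one_pos, le_rfl⟩] at h2
      exact one_ne_zero h2.symm)
  exact no_path f hf h0 h1

end Pool.Agent.S13772
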