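import Pool.Statements.S13885

set_option autoImplicit false
open Pool Pool.MP_c36963_gt

namespace Pool.Agent.S13885

/-- the retraction: radial on the annulus `1/2 ≤ |z|`, constant `1` on the open inner disk. -/
noncomputable def rr (z : ℂ) : ℂ := if (1/2 : ℝ) ≤ ‖z‖ then z / (‖z‖ : ℂ) else 1

lemma rr_big {z : ℂ} (h : (1/2 : ℝ) ≤ ‖z‖) : rr z = z / (‖z‖ : ℂ) := by
  unfold rr
  rw [if_pos h]

lemma rr_small {z : ℂ} (h : ‖z‖ < 1/2) : rr z = 1 := by
  have : ¬ (1/2 : ℝ) ≤ ‖z‖ := not_le.mpr h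
  unfold rr
  rw [if_neg this]

lemma rr_mul {t : ℝ} {y : ℂ} (ht : 1/2 ≤ t) (hy : ‖y‖ = 1) : rr ((t:ℂ) * y) = y := by
  have ht0 : 0 < t := by linarith
  have hn : ‖(t:ℂ) * y‖ = t := by
    rw [norm_mul, hy, mul_one, Complex.norm_real, Real.norm_of_nonneg ht0.le]
  rw [rr_big (by rw [hn]; exact ht), hn]
  have : (t:ℂ) ≠ 0 := by exact_mod_cast ht0.ne'
  field_simp

lemma fiber_ne {y z : ℂ} (hy1 : y ≠ 1) (h : rr z = y) :
    (1/2 : ℝ) ≤ ‖z‖ ∧ z = (‖z‖ : ℂ) * y := by
  by_cases hz : (1/2 : ℝ) ≤ ‖z‖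
  · refine ⟨hz, ?_⟩
    rw [rr_big hz] at h
    have : (‖z‖ : ℂ) ≠ 0 := by
      have : (0:ℝ) < ‖z‖ := by linarith
      exact_mod_cast this.ne'
    rw [← h]
    field_simp
  · exact absurd (by rw [← h, rr_small (not_le.mp hz)]) hy1

theorem result :
    ∃ r : ℂ → ℂ,
      (∀ z ∈ Metric.closedBall (0:ℂ) 1, r z ∈ Metric.sphere (0:ℂ) 1) ∧
      (∀ y ∈ Metric.sphere (0:ℂ) 1, r y = y) ∧
      (∀ y ∈ Metric.sphere (0:ℂ) 1,
        IsConnected {z : ℂ | z ∈ Metric.closedBall (0:ℂ) 1 ∧ r z = y}) ∧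
      Set.Finite {y : ℂ | y ∈ Metric.sphere (0:ℂ) 1 ∧
        ¬ (∀ s : ℕ → ℂ, (∀ n, s n ∈ Metric.sphere (0:ℂ) 1) →
            Filter.Tendsto s Filter.atTop (nhds y) →
            ∀ x : ℂ, (∀ ε : ℝ, ε > 0 → ∀ N : ℕ, ∃ n : ℕ, n ≥ N ∧
                ∃ z : ℂ, z ∈ Metric.closedBall (0:ℂ) 1 ∧ r z = s n ∧ dist z x < ε) →
              r x = y)} := by
  refine ⟨rr, ?_, ?_, ?_, ?_⟩
  · intro z _
    rw [mem_sphere_zero_iff_norm]
    by_cases h : (1/2 : ℝ) ≤ ‖z‖
    · rw [rr_big h, norm_div, Complex.norm_real, norm_norm, div_self]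
      linarith
    · rw [rr_small (not_le.mp h), norm_one]
  · intro y hy
    rw [mem_sphere_zero_iff_norm] at hy
    have := rr_mul (t := 1) (y := y) (by norm_num) hy
    simpa using this
  · intro y hy
    rw [mem_sphere_zero_iff_norm] at hy
    -- the segment
    have hseg : IsConnected ((fun t : ℝ => (t:ℂ) * y) '' Set.Icc (1/2:ℝ) 1) := by
      apply (isConnected_Icc (by norm_num)).image
      fun_prop
    by_cases h1 : y = 1
    · subst h1
      have hset : {z : ℂ | z ∈ Metric.closedBall (0:ℂ) 1 ∧ rr z = 1} =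
          Metric.ball (0:ℂ) (1/2) ∪ ((fun t : ℝ => (t:ℂ) * (1:ℂ)) '' Set.Icc (1/2:ℝ) 1) := by
        ext z
        constructor
        · rintro ⟨hz, hr⟩
          by_cases h : (1/2 : ℝ) ≤ ‖z‖
          · right
            rw [rr_big h] at hr
            have h0 : (‖z‖ : ℂ) ≠ 0 := by
              have : (0:ℝ) < ‖z‖ := by linarith
              exact_mod_cast this.ne'
            rw [div_eq_one_iff_eq h0] at hr
            refine ⟨‖z‖, ⟨h, by simpa using hz⟩, ?_⟩
            simp only [mul_one]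
            exact hr.symm
          · left
            simpa using not_le.mp h
        · rintro (hz | ⟨t, ht, rfl⟩)
          · have hz' : ‖z‖ < 1/2 := by simpa using hz
            refine ⟨?_, rr_small hz'⟩
            rw [mem_closedBall_zero_iff]
            linarith
          · refine ⟨?_, rr_mul ht.1 (by simp)⟩
            rw [mem_closedBall_zero_iff, norm_mul, norm_one, mul_one, Complex.norm_real,
              Real.norm_of_nonneg (by linarith [ht.1])]
            exact ht.2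
      rw [hset]
      refine ⟨⟨0, Or.inl (by simp)⟩, ?_⟩
      -- union via closure
      have hb : IsPreconnected (Metric.ball (0:ℂ) (1/2)) :=
        (convex_ball (0:ℂ) (1/2)).isPreconnected
      have hb' : IsPreconnected (Metric.ball (0:ℂ) (1/2) ∪ {((1/2:ℝ):ℂ) * 1}) := by
        apply hb.subset_closure Set.subset_union_left
        intro z hz
        rcases hz with hz | hz
        · exact subset_closure hz
        · rw [Set.mem_singleton_iff] at hz
          rw [closure_ball (0:ℂ) (by norm_num : (1/2:ℝ) ≠ 0), mem_closedBall_zero_iff, hz]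
          simp
      have hmem : ((1/2:ℝ):ℂ) * 1 ∈ ((fun t : ℝ => (t:ℂ) * (1:ℂ)) '' Set.Icc (1/2:ℝ) 1) :=
        ⟨1/2, ⟨le_refl _, by norm_num⟩, rfl⟩
      have hu : Metric.ball (0:ℂ) (1/2) ∪ ((fun t : ℝ => (t:ℂ) * (1:ℂ)) '' Set.Icc (1/2:ℝ) 1)
          = (Metric.ball (0:ℂ) (1/2) ∪ {((1/2:ℝ):ℂ) * 1}) ∪
            ((fun t : ℝ => (t:ℂ) * (1:ℂ)) '' Set.Icc (1/2:ℝ) 1) := by
        rw [Set.union_assoc]
        congr 1
        exact (Set.union_eq_self_of_subset_left (Set.singleton_subset_iff.mpr hmem)).symm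
      rw [hu]
      exact IsPreconnected.union (((1/2:ℝ):ℂ) * 1) (Or.inr rfl) hmem hb' hseg.isPreconnected
    · have hset : {z : ℂ | z ∈ Metric.closedBall (0:ℂ) 1 ∧ rr z = y} =
          ((fun t : ℝ => (t:ℂ) * y) '' Set.Icc (1/2:ℝ) 1) := by
        ext z
        constructor
        · rintro ⟨hz, hr⟩
          obtain ⟨ha, hb⟩ := fiber_ne h1 hr
          exact ⟨‖z‖, ⟨ha, by simpa using hz⟩, hb.symm⟩
        · rintro ⟨t, ht, rfl⟩
          refine ⟨?_, rr_mul ht.1 hy⟩
          rw [mem_closedBall_zero_iff, norm_mul, hy, mul_one, Complex.norm_real,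
            Real.norm_of_nonneg (by linarith [ht.1])]
          exact ht.2
      rw [hset]
      exact hseg
  · apply Set.Finite.subset (Set.finite_singleton (1:ℂ))
    rintro y ⟨hy, hbad⟩
    rw [Set.mem_singleton_iff]
    by_contra h1
    apply hbad
    rw [mem_sphere_zero_iff_norm] at hy
    intro s hs hlim x hx
    -- eventually s n ≠ 1
    have hev : ∀ᶠ n in Filter.atTop, s n ≠ 1 :=
      hlim.eventually_ne h1
    obtain ⟨N0, hN0⟩ := Filter.eventually_atTop.mp hev
    -- choose z_k → x with rr z_k = s (n_k), n_k ≥ k, n_k ≥ N0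
    have hch : ∀ k : ℕ, ∃ n : ℕ, n ≥ max k N0 ∧ ∃ z : ℂ, z ∈ Metric.closedBall (0:ℂ) 1 ∧
        rr z = s n ∧ dist z x < 1 / ((k:ℝ) + 1) := by
      intro k
      exact hx (1 / ((k:ℝ) + 1)) (by positivity) (max k N0)
    choose n hn z hz1 hz2 hz3 using hch
    have hzx : Filter.Tendsto z Filter.atTop (nhds x) := by
      rw [tendsto_iff_dist_tendsto_zero]
      exact squeeze_zero (fun _ => dist_nonneg) (fun k => (hz3 k).le)
        tendsto_one_div_add_atTop_nhds_zero_nat
    have hsn : Filter.Tendsto (fun k => s (n k)) Filter.atTop (nhds y) := by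
      apply hlim.comp
      apply Filter.tendsto_atTop_mono (fun k => le_trans (le_max_left k N0) (hn k))
      exact Filter.tendsto_id
    have hfib : ∀ k, (1/2 : ℝ) ≤ ‖z k‖ ∧ z k = (‖z k‖ : ℂ) * s (n k) := by
      intro k
      apply fiber_ne (hN0 (n k) (le_trans (le_max_right k N0) (hn k))) (hz2 k)
    have hnorm : Filter.Tendsto (fun k => ‖z k‖) Filter.atTop (nhds ‖x‖) :=
      hzx.norm
    have hx2 : (1/2 : ℝ) ≤ ‖x‖ := ge_of_tendsto' hnorm (fun k => (hfib k).1)
    have hxy : x = (‖x‖ : ℂ) * y := by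
      have hl : Filter.Tendsto (fun k => (‖z k‖ : ℂ) * s (n k)) Filter.atTop
          (nhds ((‖x‖ : ℂ) * y)) := by
        apply Filter.Tendsto.mul _ hsn
        exact (Complex.continuous_ofReal.tendsto _).comp hnorm
      have hl' : Filter.Tendsto z Filter.atTop (nhds ((‖x‖ : ℂ) * y)) := by
        refine hl.congr (fun k => ((hfib k).2).symm)
      exact tendsto_nhds_unique hzx hl'
    rw [hxy]
    exact rr_mul hx2 hy

end Pool.Agent.S13885
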