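import Pool.Statements.S13976
-- import your own Pool.Agent.* helpers here
import Pool.Agent.Helper495.KO.Final

set_option autoImplicit false
open Pool Pool.MP_d0cb45_gt

namespace Pool.Agent.S13976

/-- The negation of the preceding statement: For Tychonoff spaces X and Y whose spaces of continuous real functions with the pointwise topology are homeomorphic, if X is a hemicompact k-space then so is Y. -/
theorem result :
    ¬ (∀ (X Y : Type) [TopologicalSpace X] [TopologicalSpace Y] [T35Space X] [T35Space Y],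
      Nonempty ({f : X → ℝ // Continuous f} ≃ₜ {g : Y → ℝ // Continuous g}) →
      (CompactlyGeneratedSpace X ∧
        ∃ K : ℕ → Set X, (∀ n, IsCompact (K n)) ∧ ∀ C : Set X, IsCompact C → ∃ n, C ⊆ K n) →
      (CompactlyGeneratedSpace Y ∧
        ∃ K : ℕ → Set Y, (∀ n, IsCompact (K n)) ∧ ∀ C : Set Y, IsCompact C → ∃ n, C ⊆ K n)) := by
  intro h
  refine Pool.Agent.Helper495.KO.main ?_
  intro X Y _ _ _ _ hU hX
  obtain ⟨e⟩ := hU
  obtain ⟨hK, hcl⟩ := hX
  have hCX : CompactlyGeneratedSpace X := compactlyGeneratedSpace_of_isClosed_of_t2 hcl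
  obtain ⟨hCY, hKY⟩ := h X Y ⟨e.toHomeomorph⟩ ⟨hCX, hK⟩
  refine ⟨hKY, ?_⟩
  intro A hA
  refine CompactlyGeneratedSpace.isClosed ?_
  intro C hC
  exact hA C hC

end Pool.Agent.S13976
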