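import Pool.Statements.S14068
import Pool.Agent.Results.MP_db8e30_gt.NotNormal

set_option autoImplicit false
open Pool Pool.MP_db8e30_gt

namespace Pool.Agent.S14068

/-- The negation of the preceding statement: For every Tychonoff X : Type, if X has a clopen basis 𝓑 satisfying the countable-vs-arbitrary separation property and X is compact in the topology generated by complements of closures of members of 𝓑, then X is normal. -/
theorem result :
    ¬ (∀ (X : Type) [TopologicalSpace X] [CompletelyRegularSpace X] [T2Space X],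
      (∃ 𝓑 : Set (Set X),
        TopologicalSpace.IsTopologicalBasis 𝓑 ∧
        (∀ b ∈ 𝓑, IsClopen b) ∧
        (∀ C D : Set (Set X), C ⊆ 𝓑 → D ⊆ 𝓑 → C.Countable →
          (∀ c ∈ C, ∀ d ∈ D, Disjoint c d) →
          ∃ b ∈ 𝓑, (∀ c ∈ C, c ⊆ b) ∧ (∀ d ∈ D, Disjoint b d)) ∧
        @IsCompact X
          (TopologicalSpace.generateFrom {U : Set X | ∃ b ∈ 𝓑, U = (closure b)ᶜ})
          Set.univ) →
      NormalSpace X) := by
  intro H
  obtain ⟨X, iX, hX, ⟨𝓑, h𝓑, hc⟩, hn⟩ := Pool.Agent.Results.MP_db8e30_gt.NotNormal.result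
  apply hn
  exact H X ⟨𝓑, h𝓑.isBasis, h𝓑.isClopen, fun C D hC hD hCc hCD => h𝓑.nested C hC D hD hCc hCD,
    hc.isCompact_univ⟩

end Pool.Agent.S14068
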