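import Pool.Statements.S14076
import Pool.Agent.Y450.FS.Retr

set_option autoImplicit false
open Pool Pool.MP_dc63d3_gt

namespace Pool.Agent.S14076

/-- The negation of the preceding statement: For every real Hilbert space there is a constant C such that, for each n ≥ 2, some retraction from nonempty subsets of at most n points onto those of at most n−1 points is C-Lipschitz for the Hausdorff distance. -/
theorem result :
    ¬ (∀ (H : Type) [NormedAddCommGroup H] [InnerProductSpace ℝ H] [CompleteSpace H],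
      ∃ C : ℝ, ∀ n : ℕ, 2 ≤ n →
        ∃ r : Finset H → Finset H,
          (∀ s : Finset H, s.Nonempty → s.card ≤ n →
              (r s).Nonempty ∧ (r s).card ≤ n - 1) ∧
          (∀ s : Finset H, s.Nonempty → s.card ≤ n - 1 → r s = s) ∧
          (∀ s t : Finset H, s.Nonempty → s.card ≤ n → t.Nonempty → t.card ≤ n →
              Metric.hausdorffDist ((r s : Finset H) : Set H) ((r t : Finset H) : Set H)
                ≤ C * Metric.hausdorffDist ((s : Finset H) : Set H) ((t : Finset H) : Set H))) := by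
  intro h
  let : InnerProductSpace ℝ (lp (fun _ : ℕ => ℂ) 2) := InnerProductSpace.complexToReal
  obtain ⟨C, hC⟩ := h (lp (fun _ : ℕ => ℂ) 2)
  obtain ⟨p, hp, hpp⟩ := Nat.exists_infinite_primes (⌈4 * Real.pi * (|C| + 1)⌉₊ + 1)
  obtain ⟨r, h1, h2, h3⟩ := hC p hpp.two_le
  have : NeZero p := ⟨hpp.ne_zero⟩
  have hp0 : (0 : ℝ) < p := by exact_mod_cast hpp.pos
  have hpC : 4 * Real.pi * (|C| + 1) ≤ p := by
    have h4 : 4 * Real.pi * (|C| + 1) ≤ ⌈4 * Real.pi * (|C| + 1)⌉₊ := Nat.le_ceil _
    have h5 : ((⌈4 * Real.pi * (|C| + 1)⌉₊ + 1 : ℕ) : ℝ) ≤ p := by exact_mod_cast hp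
    push_cast at h5
    linarith
  have hκ : |C| * (2 * Real.pi / p) ≤ 1 / 2 := by
    rw [← mul_div_assoc, div_le_iff₀ hp0]
    have := Real.pi_pos
    nlinarith
  refine Pool.Agent.Y450.FS.no_retr (H := lp (fun _ : ℕ => ℂ) 2) (p := p) (C := |C|) (r := r)
    (HilbertBasis.orthonormal (default : HilbertBasis ℕ ℂ (lp (fun _ : ℕ => ℂ) 2))) hpp
    (abs_nonneg C) hκ ⟨h1, h2, ?_⟩
  intro s t hs hs' ht ht'
  exact (h3 s t hs hs' ht ht').trans
    (mul_le_mul_of_nonneg_right (le_abs_self C) Metric.hausdorffDist_nonneg)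

end Pool.Agent.S14076
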