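import Pool.Statements.S14568
import Pool.Agent.Y548.Shell

set_option autoImplicit false
open Classical
open Pool Pool.MP_354b3e_lc

namespace Pool.Agent.S14568

theorem encode_finset (s : Finset ℕ) : ∃ L : List ℕ, Encodable.encode s = Encodable.encode L ∧
    ∀ y, y ∈ L ↔ y ∈ s := by
  refine ⟨s.1.sort, rfl, fun y => ?_⟩
  simp

open Pool.Agent.Helper227 Pool.Agent.Y548 in
/-- The core: a set computable from the halting problem, not computable, such that every locally
finite two-colourable computable graph whose neighbour lists are computable from the set has a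
computable finite colouring. -/
theorem core : ∃ A : ℕ → Bool, ¬ Computable A ∧ TLe A K0 ∧
    ∀ G : SimpleGraph ℕ, ComputablePred (fun p : ℕ × ℕ => G.Adj p.1 p.2) →
      (∃ N : ℕ → Finset ℕ, (∀ x y : ℕ, G.Adj x y ↔ y ∈ N x) ∧
        TuringReducible (fun x : ℕ => Part.some (Encodable.encode (N x))) (chi A)) →
      G.Colorable 2 → ∃ c : ℕ → ℕ, Computable c ∧ (∀ x, c x < 4) ∧ ∀ x y, G.Adj x y → c x ≠ c y := by
  obtain ⟨A, hA, hgen⟩ := Gen.exists_generic
  refine ⟨A, Gen.not_computable hgen, hA, ?_⟩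
  rintro G hG ⟨N, hN, hNA⟩ hcol
  have hre := ComputablePred.computable_iff_re_compl_re.1 hG
  have h1 : S1 fun p : ℕ × ℕ => G.Adj p.1 p.2 := S1.of_re hre.1
  have h2 : S1 fun p : ℕ × ℕ => ¬ G.Adj p.1 p.2 := S1.of_re hre.2
  refine Shell.exists_colouring G h1 h2 ?_ hcol
  -- the c.e. relation: `x` has a neighbour at least `n`
  have hq : S1 fun p : ℕ × ℕ => ∃ y : ℕ, p.2 ≤ y ∧ G.Adj p.1 y := by
    refine S1.ex (p := fun (p : ℕ × ℕ) (y : ℕ) => p.2 ≤ y ∧ G.Adj p.1 y)
      (S1.and (S1.of_prim ?_) ?_)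
    · exact Primrec.nat_le.comp (Primrec.snd.comp Primrec.fst) Primrec.snd
    · exact h1.comp (f := fun x : (ℕ × ℕ) × ℕ => (x.1.1, x.2))
        ((Primrec.fst.comp Primrec.fst).pair Primrec.snd)
  have hrec : RecursiveIn {chi A} (fun x : ℕ => Part.some (Encodable.encode (N x))) := hNA
  have hs := SI.iff_recIn.1 hrec
  have hq2 : SI A fun p : ℕ × ℕ => ¬ ∃ y : ℕ, p.2 ≤ y ∧ G.Adj p.1 y := by
    have h3 : SI A fun p : ℕ × ℕ => ∃ m : ℕ, m ∈ Part.some (Encodable.encode (N p.1)) ∧
        ∀ y ∈ ((Encodable.decode (α := List ℕ) m).getD []), y < p.2 := by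
      refine SI.ex (p := fun (p : ℕ × ℕ) (m : ℕ) => m ∈ Part.some (Encodable.encode (N p.1)) ∧
        ∀ y ∈ ((Encodable.decode (α := List ℕ) m).getD []), y < p.2)
        (SI.and ?_ (SI.of_prim ?_))
      · exact hs.comp (f := fun x : (ℕ × ℕ) × ℕ => (x.1.1, x.2))
          ((Primrec.fst.comp Primrec.fst).pair Primrec.snd)
      · refine PP.all_mem (α := (ℕ × ℕ) × ℕ) (f := fun x =>
          ((Encodable.decode (α := List ℕ) x.2).getD [])) (p := fun x y => y < x.1.2) ?_ ?_
        · exact Primrec.nat_lt.comp Primrec.snd (Primrec.snd.comp (Primrec.fst.comp Primrec.fst))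
        · exact Primrec.option_getD.comp (Primrec.decode.comp Primrec.snd) (Primrec.const [])
    refine h3.of_eq fun p => ?_
    have hdec : ∀ s : Finset ℕ, ∀ y, y ∈ ((Encodable.decode (α := List ℕ)
        (Encodable.encode s)).getD []) ↔ y ∈ s := by
      intro s y
      obtain ⟨L, hL1, hL2⟩ := encode_finset s
      rw [hL1, Encodable.encodek]
      exact hL2 y
    constructor
    · rintro ⟨m, hm, h4⟩ ⟨y, hy, hxy⟩
      rw [Part.mem_some_iff] at hm
      subst hm
      have := h4 y ((hdec _ _).2 ((hN _ _).1 hxy))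
      omega
    · intro h4
      refine ⟨_, Part.mem_some _, fun y hy => ?_⟩
      by_contra hcon
      exact h4 ⟨y, not_lt.1 hcon, (hN _ _).2 ((hdec _ _).1 hy)⟩
  have hq3 := Gen.co_s1 hgen hq hq2
  have hex : ∀ x : ℕ, ∃ n : ℕ, ¬ ∃ y : ℕ, n ≤ y ∧ G.Adj x y := by
    intro x
    refine ⟨(N x).sup id + 1, ?_⟩
    rintro ⟨y, hy, hxy⟩
    have := Finset.le_sup (f := id) ((hN _ _).1 hxy)
    simp only [id] at this
    omega
  obtain ⟨h, hh, hh2⟩ := S1.choose (p := fun (x n : ℕ) => ¬ ∃ y : ℕ, n ≤ y ∧ G.Adj x y) hq3 hex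
  refine ⟨h, hh, fun x y hxy => ?_⟩
  by_contra hcon
  exact hh2 x ⟨y, not_lt.1 hcon, hxy⟩

/-- The negation of the preceding statement: For every noncomputable A Turing-below the halting set there is a computable, locally finite, planar graph on ℕ whose neighbour lists are A-computable, with chromatic number 2, but with no computable proper colouring using finitely many colours. -/
theorem result :
    ¬ (∀ A : Set ℕ,
      ¬ ComputablePred (fun n : ℕ => n ∈ A) →
      TuringReducible (fun n : ℕ => Part.some (if n ∈ A then (1 : ℕ) else 0))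
        (fun n : ℕ => Part.some
          (if ((Denumerable.ofNat Nat.Partrec.Code n).eval n).Dom then (1 : ℕ) else 0)) →
      ∃ G : SimpleGraph ℕ,
        ComputablePred (fun p : ℕ × ℕ => G.Adj p.1 p.2) ∧
        (∃ N : ℕ → Finset ℕ, (∀ x y : ℕ, G.Adj x y ↔ y ∈ N x) ∧
          TuringReducible (fun x : ℕ => Part.some (Encodable.encode (N x)))
            (fun n : ℕ => Part.some (if n ∈ A then (1 : ℕ) else 0))) ∧
        (∃ f : ℕ → EuclideanSpace ℝ (Fin 2), Function.Injective f ∧
          ∃ γ : ∀ u v : ℕ, Path (f u) (f v),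
            (∀ u v : ℕ, G.Adj u v → Function.Injective (fun t : unitInterval => γ u v t)) ∧
            (∀ u v w : ℕ, G.Adj u v → ∀ t : unitInterval, γ u v t = f w → w = u ∨ w = v) ∧
            (∀ u v u' v' : ℕ, G.Adj u v → G.Adj u' v' →
              Sym2.mk (u, v) ≠ Sym2.mk (u', v') →
              ∀ t t' : unitInterval, γ u v t = γ u' v' t' →
                ∃ w : ℕ, (w = u ∨ w = v) ∧ (w = u' ∨ w = v') ∧ γ u v t = f w)) ∧
        G.chromaticNumber = 2 ∧
        ∀ k : ℕ, ∀ c : ℕ → ℕ, Computable c → (∀ x, c x < k) →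
          ∃ x y : ℕ, G.Adj x y ∧ c x = c y) := by
  intro hmain
  obtain ⟨A, hA1, hA2, hA3⟩ := core
  obtain ⟨S, hS⟩ : ∃ S : Set ℕ, ∀ n, n ∈ S ↔ A n = true := ⟨{n | A n = true}, fun _ => Iff.rfl⟩
  have e1 : (fun n : ℕ => Part.some (if n ∈ S then (1 : ℕ) else 0)) =
      Pool.Agent.Helper227.chi A := by
    funext n
    unfold Pool.Agent.Helper227.chi
    by_cases h : n ∈ S
    · rw [if_pos h, (hS n).1 h]
      rfl
    · rw [if_neg h]
      have : A n = false := by
        cases h' : A n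
        · rfl
        · exact absurd ((hS n).2 h') h
      rw [this]
      rfl
  have e2 : (fun n : ℕ => Part.some
      (if ((Denumerable.ofNat Nat.Partrec.Code n).eval n).Dom then (1 : ℕ) else 0)) =
      Pool.Agent.Helper227.chi Pool.Agent.Y548.K0 := by
    funext n
    unfold Pool.Agent.Helper227.chi Pool.Agent.Y548.K0
    by_cases h : ((Denumerable.ofNat Nat.Partrec.Code n).eval n).Dom
    · rw [if_pos h, decide_eq_true h]
      rfl
    · rw [if_neg h, decide_eq_false h]
      rfl
  have hnc : ¬ ComputablePred (fun n : ℕ => n ∈ S) := by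
    rintro ⟨_, hc⟩
    apply hA1
    refine hc.of_eq fun n => ?_
    cases h : A n
    · exact decide_eq_false fun h' => by rw [(hS n).1 h'] at h; cases h
    · exact decide_eq_true ((hS n).2 h)
  have hred : TuringReducible (fun n : ℕ => Part.some (if n ∈ S then (1 : ℕ) else 0))
        (fun n : ℕ => Part.some
          (if ((Denumerable.ofNat Nat.Partrec.Code n).eval n).Dom then (1 : ℕ) else 0)) := by
    have h : TuringReducible (Pool.Agent.Helper227.chi A) (Pool.Agent.Helper227.chi Pool.Agent.Y548.K0) := hA2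
    rw [← e1, ← e2] at h
    exact h
  obtain ⟨G, hG1, ⟨N, hN1, hN2⟩, _, hG3, hG4⟩ := hmain S hnc hred
  have hN3 : TuringReducible (fun x => Part.some (Encodable.encode (N x)) : ℕ →. ℕ)
      (Pool.Agent.Helper227.chi A) := e1 ▸ hN2
  have hcol : G.Colorable 2 := by
    apply SimpleGraph.chromaticNumber_le_iff_colorable.1
    rw [hG3]
    exact le_refl _
  obtain ⟨c, hc1, hc2, hc3⟩ := hA3 G hG1 ⟨N, hN1, hN3⟩ hcol
  obtain ⟨x, y, hxy, hc⟩ := hG4 4 c hc1 hc2
  exact hc3 x y hxy hc

end Pool.Agent.S14568
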