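import Pool.Statements.S14580
import Pool.Agent.Y217.HK.Asm
import Pool.Agent.Y217.HK.Adj
import Pool.Agent.Y217.HK.Small
import Pool.Agent.Y657.HK.Fus
import Pool.Agent.Y38.HK.Erg
import Pool.Agent.Y348.HK.CatQ
import Pool.Agent.Y348.HK.Cl
import Pool.Agent.Y461.HK.EOne
import Pool.Agent.Y461.HK.Branch
import Pool.Agent.Y664.HK.SelA
import Pool.Agent.Y998.HK.Rig
import Pool.Agent.Y998.HK.Q

set_option autoImplicit false
open Pool Pool.MP_3874c1_lc

namespace Pool.Agent.S14580

/-- The negation of the preceding statement: Every Borel equivalence relation on a standard Borel space to which E_1 (tail equality on [0,1]^N) does not Borel-reduce is Borel bireducible with the orbit relation of a continuous Polish group action on a Polish space. -/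
theorem result :
    ¬ (∀ (X : Type) [MeasurableSpace X] [StandardBorelSpace X] (E : X → X → Prop),
      Equivalence E → MeasurableSet {p : X × X | E p.1 p.2} →
      (¬ ∃ f : (ℕ → unitInterval) → X, Measurable f ∧
          ∀ x y : ℕ → unitInterval, (∃ N : ℕ, ∀ n ≥ N, x n = y n) ↔ E (f x) (f y)) →
      ∃ (G : Type) (_ : TopologicalSpace G) (_ : Group G) (_ : IsTopologicalGroup G)
        (_ : PolishSpace G)
        (Y : Type) (_ : TopologicalSpace Y) (_ : PolishSpace Y) (_ : MeasurableSpace Y)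
        (_ : BorelSpace Y) (_ : MulAction G Y) (_ : ContinuousSMul G Y),
        (∃ f : X → Y, Measurable f ∧
            ∀ x x' : X, E x x' ↔ ∃ g : G, f x' = g • f x) ∧
        (∃ h : Y → X, Measurable h ∧
            ∀ y y' : Y, (∃ g : G, y' = g • y) ↔ E (h y) (h y'))) := by
  exact Pool.Agent.Y217.HK.main Pool.Agent.Y217.HK.rel Pool.Agent.Y217.HK.famL
    (Pool.Agent.Y998.HK.rig Pool.Agent.Y217.HK.arith Pool.Agent.Y217.HK.rel Pool.Agent.Y657.HK.fus
      Pool.Agent.Y217.HK.win
      (Pool.Agent.Y217.HK.adj Pool.Agent.Y217.HK.arith Pool.Agent.Y217.HK.win))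
    Pool.Agent.Y38.HK.erg
    (Pool.Agent.Y461.HK.e1 Pool.Agent.Y217.HK.rel Pool.Agent.Y348.HK.cl
      (Pool.Agent.Y998.HK.q Pool.Agent.Y348.HK.catq Pool.Agent.Y217.HK.arith))
    (Pool.Agent.Y664.HK.selA Pool.Agent.Y348.HK.catq Pool.Agent.Y461.HK.Branch.branch)
    Pool.Agent.Y217.HK.selB Pool.Agent.Y217.HK.nm

end Pool.Agent.S14580
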