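import Pool.Statements.S14612
import Pool.Agent.Helper227.SOne

/-!
# A family of d.c.e. sets with a positive numbering and no Friedberg numbering

Elements are coded as `⟨e, t, i⟩`.  For every `e`, which codes a pair `(W₀, W₁)` of c.e. sets (the
opponent numbering `μ e` with `x ∈ μ i ↔ ⟨i, x⟩ ∈ W₀ \ W₁`), the family has two sets, with indices
`2 e` and `2 e + 1`.  By default every set of the family contains all elements `⟨e, 0, i⟩` and
`⟨e, 1, i⟩`.  The set with index `2 e + c` drops `⟨e, c, i⟩` as soon as `⟨e, c, i⟩` is enumerated in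
`μ i`; so the opponent has to commit to `⟨e, c, i⟩ ∉ μ i` if it wants `μ i` to be that set.  When
the opponent has committed itself at some `i` for `c = 0` and at some `j ≠ i` for `c = 1`, both sets
drop all elements `⟨e, 0, _⟩` and `⟨e, 1, _⟩` and become equal, and then `μ i = μ j` is forced.
-/

set_option autoImplicit false
open Pool Pool.MP_3c695a_lc

namespace Pool.Agent.S14612

open Encodable Pool.Agent.Helper227
open Nat.Partrec (Code)

/-- the `c`-th c.e. set of numbers -/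
def W (c x : ℕ) : Prop := ((Denumerable.ofNat Code c).eval x).Dom

theorem s1_W : S1 fun x : ℕ × ℕ => W x.1 x.2 := by
  apply S1.of_re
  have h1 : Partrec fun x : ℕ × ℕ => (Denumerable.ofNat Code x.1).eval x.2 :=
    Nat.Partrec.Code.eval_part.comp ((Computable.ofNat Code).comp Computable.fst) Computable.snd
  exact h1.dom_re

theorem exists_W {p : ℕ × ℕ → Prop} (hp : REPred p) : ∃ c, ∀ x y, p (x, y) ↔ W c (Nat.pair x y) := by
  obtain ⟨c, hc⟩ := Nat.Partrec.Code.exists_code.1 hp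
  refine ⟨encode c, fun x y => ?_⟩
  have := hc
  unfold W
  rw [Denumerable.ofNat_encode]
  have h2 := congrFun hc (Nat.pair x y)
  rw [h2]
  simp [Part.assert]

/-- the element `⟨e, t, i⟩` -/
def el (e t i : ℕ) : ℕ := Nat.pair e (Nat.pair t i)

/-- the first c.e. set of the opponent `e` -/
def R0 (e i x : ℕ) : Prop := W e.unpair.1 (Nat.pair i x)

/-- the second c.e. set of the opponent `e` -/
def R1 (e i x : ℕ) : Prop := W e.unpair.2 (Nat.pair i x)

/-- the merge event -/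
def M (e : ℕ) : Prop := ∃ p : ℕ × ℕ, p.1 ≠ p.2 ∧ R1 e p.1 (el e 0 p.1) ∧ R1 e p.2 (el e 1 p.2)

/-- first approximation -/
def A0 (k x : ℕ) : Prop :=
  x.unpair.2.unpair.1 < 2 ∨ (x.unpair.1 = k / 2 ∧ (M (k / 2) ∨ x.unpair.2.unpair.2 = k % 2))

/-- elements leaving -/
def A1 (k x : ℕ) : Prop :=
  x.unpair.2.unpair.1 < 2 ∧ x.unpair.1 = k / 2 ∧
    (M (k / 2) ∨ (x.unpair.2.unpair.1 = k % 2 ∧ R0 (k / 2) x.unpair.2.unpair.2 x))

/-- the numbering -/
def al (k : ℕ) : Set ℕ := {x | A0 k x ∧ ¬ A1 k x}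

theorem pr_el {α : Type*} [Primcodable α] {f g h : α → ℕ} (hf : Primrec f) (hg : Primrec g)
    (hh : Primrec h) : Primrec fun a => el (f a) (g a) (h a) :=
  Primrec₂.natPair.comp hf (Primrec₂.natPair.comp hg hh)

theorem s1_R0 {α : Type*} [Primcodable α] {f g h : α → ℕ} (hf : Primrec f) (hg : Primrec g)
    (hh : Primrec h) : S1 fun a => R0 (f a) (g a) (h a) :=
  s1_W.comp (f := fun a => ((f a).unpair.1, Nat.pair (g a) (h a)))
    ((Primrec.fst.comp (Primrec.unpair.comp hf)).pair (Primrec₂.natPair.comp hg hh))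

theorem s1_R1 {α : Type*} [Primcodable α] {f g h : α → ℕ} (hf : Primrec f) (hg : Primrec g)
    (hh : Primrec h) : S1 fun a => R1 (f a) (g a) (h a) :=
  s1_W.comp (f := fun a => ((f a).unpair.2, Nat.pair (g a) (h a)))
    ((Primrec.snd.comp (Primrec.unpair.comp hf)).pair (Primrec₂.natPair.comp hg hh))

theorem s1_M : S1 M := by
  refine S1.ex (α := ℕ) (β := ℕ × ℕ)
    (p := fun e p => p.1 ≠ p.2 ∧ R1 e p.1 (el e 0 p.1) ∧ R1 e p.2 (el e 1 p.2)) ?_
  have he : Primrec fun x : ℕ × (ℕ × ℕ) => x.1 := Primrec.fst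
  have hi : Primrec fun x : ℕ × (ℕ × ℕ) => x.2.1 := Primrec.fst.comp Primrec.snd
  have hj : Primrec fun x : ℕ × (ℕ × ℕ) => x.2.2 := Primrec.snd.comp Primrec.snd
  refine S1.and (S1.of_prim ?_) (S1.and (s1_R1 he hi (pr_el he (Primrec.const 0) hi))
    (s1_R1 he hj (pr_el he (Primrec.const 1) hj)))
  exact PrimrecPred.not (Primrec.eq.comp hi hj)

theorem pr_div2 : Primrec fun x : ℕ × ℕ => x.1 / 2 :=
  Primrec.nat_div.comp Primrec.fst (Primrec.const 2)

theorem pr_mod2 : Primrec fun x : ℕ × ℕ => x.1 % 2 :=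
  Primrec.nat_mod.comp Primrec.fst (Primrec.const 2)

theorem pr_e : Primrec fun x : ℕ × ℕ => x.2.unpair.1 :=
  Primrec.fst.comp (Primrec.unpair.comp Primrec.snd)

theorem pr_t : Primrec fun x : ℕ × ℕ => x.2.unpair.2.unpair.1 :=
  Primrec.fst.comp (Primrec.unpair.comp (Primrec.snd.comp (Primrec.unpair.comp Primrec.snd)))

theorem pr_i : Primrec fun x : ℕ × ℕ => x.2.unpair.2.unpair.2 :=
  Primrec.snd.comp (Primrec.unpair.comp (Primrec.snd.comp (Primrec.unpair.comp Primrec.snd)))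

theorem s1_lt2 : S1 fun x : ℕ × ℕ => x.2.unpair.2.unpair.1 < 2 :=
  S1.of_prim (Primrec.nat_lt.comp pr_t (Primrec.const 2))

theorem s1_A0 : S1 fun x : ℕ × ℕ => A0 x.1 x.2 :=
  S1.or s1_lt2 (S1.and (S1.of_prim (Primrec.eq.comp pr_e pr_div2))
    (S1.or (s1_M.comp pr_div2) (S1.of_prim (Primrec.eq.comp pr_i pr_mod2))))

theorem s1_A1 : S1 fun x : ℕ × ℕ => A1 x.1 x.2 :=
  S1.and s1_lt2 (S1.and (S1.of_prim (Primrec.eq.comp pr_e pr_div2))
    (S1.or (s1_M.comp pr_div2) (S1.and (S1.of_prim (Primrec.eq.comp pr_t pr_mod2))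
      (s1_R0 pr_div2 pr_i Primrec.snd))))

theorem mem_al_lt {k e t i : ℕ} (ht : t < 2) :
    el e t i ∈ al k ↔ ¬ (e = k / 2 ∧ (M (k / 2) ∨ (t = k % 2 ∧ R0 (k / 2) i (el e t i)))) := by
  simp only [al, A0, A1, el, Set.mem_ofPred_eq, Nat.unpair_pair]
  tauto

theorem mem_al_ge {k e t i : ℕ} (ht : ¬ t < 2) :
    el e t i ∈ al k ↔ e = k / 2 ∧ (M (k / 2) ∨ i = k % 2) := by
  simp only [al, A0, A1, el, Set.mem_ofPred_eq, Nat.unpair_pair]
  tauto

theorem exists_el (x : ℕ) : ∃ e t i, x = el e t i :=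
  ⟨x.unpair.1, x.unpair.2.unpair.1, x.unpair.2.unpair.2, by simp [el]⟩

theorem al_eq_of_M {k l : ℕ} (h : k / 2 = l / 2) (hM : M (k / 2)) : al k = al l := by
  have hM' : M (l / 2) := h ▸ hM
  ext x
  obtain ⟨e, t, i, rfl⟩ := exists_el x
  by_cases ht : t < 2
  · rw [mem_al_lt ht, mem_al_lt ht, h]; tauto
  · rw [mem_al_ge ht, mem_al_ge ht, h]; tauto

theorem al_eq_iff {k l : ℕ} : al k = al l ↔ k = l ∨ (k / 2 = l / 2 ∧ M (k / 2)) := by
  constructor
  · intro h
    have h1 : el (k / 2) 2 (k % 2) ∈ al k := (mem_al_ge (by norm_num)).2 ⟨rfl, Or.inr rfl⟩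
    rw [h] at h1
    obtain ⟨h2, h3⟩ := (mem_al_ge (by norm_num)).1 h1
    rcases h3 with h3 | h3
    · exact Or.inr ⟨h2, h2 ▸ h3⟩
    · left; omega
  · rintro (rfl | ⟨h, hM⟩)
    · rfl
    · exact al_eq_of_M h hM

/-- the matrix of c.e. sets representing `al` -/
def RR (i : ℕ) (p : ℕ × ℕ) : Prop :=
  if i = 0 then A0 p.1 p.2 else if i = 1 then A1 p.1 p.2 else False

theorem A1_A0 {k x : ℕ} (h : A1 k x) : A0 k x := Or.inl h.1

theorem card_iff (R : ℕ → ℕ × ℕ → Prop) (h : ∀ i j : ℕ, ∀ p : ℕ × ℕ, i ≤ j → R j p → R i p)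
    (p : ℕ × ℕ) : Odd (Nat.card {i : Fin (0 + 2) // R i.val p}) ↔ (R 0 p ∧ ¬ R 1 p) := by
  classical
  rw [Nat.card_eq_fintype_card, Fintype.card_subtype]
  by_cases h0 : R 0 p
  · by_cases h1 : R 1 p
    · have : (Finset.univ.filter fun i : Fin (0 + 2) => R i.val p) = Finset.univ := by
        ext i; fin_cases i <;> simp [h0, h1]
      rw [this]
      simp [h1, Nat.odd_iff]
    · have : (Finset.univ.filter fun i : Fin (0 + 2) => R i.val p) = {0} := by
        ext i; fin_cases i <;> simp [h0, h1]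
      rw [this]
      simp [h0, h1]
  · have h1 : ¬ R 1 p := fun h1 => h0 (h 0 1 p (by norm_num) h1)
    have : (Finset.univ.filter fun i : Fin (0 + 2) => R i.val p) = ∅ := by
      ext i; fin_cases i <;> simp [h0, h1]
    rw [this]
    simp [h0]

/-- The negation of the preceding statement: For every n, every infinite family of sets of naturals with a positive numbering whose membership relation is (n+2)-c.e. also has an injective numbering whose membership relation is (n+2)-c.e. -/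
theorem result :
    ¬ (∀ n : ℕ, ∀ 𝒜 : Set (Set ℕ), 𝒜.Infinite →
    (∃ ν : ℕ → Set ℕ, Set.range ν = 𝒜 ∧
      (∃ R : ℕ → ℕ × ℕ → Prop, (∀ i, REPred (R i)) ∧
        (∀ i j : ℕ, ∀ p : ℕ × ℕ, i ≤ j → R j p → R i p) ∧
        ∀ p : ℕ × ℕ, (p.2 ∈ ν p.1 ↔ Odd (Nat.card {i : Fin (n + 2) // R i.val p}))) ∧
      REPred (fun p : ℕ × ℕ => ν p.1 = ν p.2)) →
    ∃ μ : ℕ → Set ℕ, Set.range μ = 𝒜 ∧ Function.Injective μ ∧
      (∃ R : ℕ → ℕ × ℕ → Prop, (∀ i, REPred (R i)) ∧
        (∀ i j : ℕ, ∀ p : ℕ × ℕ, i ≤ j → R j p → R i p) ∧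
        ∀ p : ℕ × ℕ, (p.2 ∈ μ p.1 ↔ Odd (Nat.card {i : Fin (n + 2) // R i.val p})))) := by
  intro hall
  have hinf : (Set.range al).Infinite := by
    have hinj : Function.Injective fun e => al (2 * e) := by
      intro e e' h
      rcases al_eq_iff.1 h with h | ⟨h, _⟩ <;> omega
    refine (Set.infinite_range_of_injective hinj).mono ?_
    rintro _ ⟨e, rfl⟩
    exact ⟨2 * e, rfl⟩
  have hRR : ∀ i j : ℕ, ∀ p : ℕ × ℕ, i ≤ j → RR j p → RR i p := by
    intro i j p hij h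
    unfold RR at h ⊢
    split_ifs at h with h1 h2
    · subst h1
      have : i = 0 := by omega
      rw [if_pos this]; exact h
    · subst h2
      rcases Nat.le_one_iff_eq_zero_or_eq_one.1 hij with rfl | rfl
      · rw [if_pos rfl]; exact A1_A0 h
      · rw [if_neg one_ne_zero, if_pos rfl]; exact h
  have hre : ∀ i, REPred (RR i) := by
    intro i
    unfold RR
    split_ifs
    · exact s1_A0.re
    · exact s1_A1.re
    · exact (S1.of_prim (PP.const False)).re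
  have hrep : ∀ p : ℕ × ℕ, (p.2 ∈ al p.1 ↔ Odd (Nat.card {i : Fin (0 + 2) // RR i.val p})) := by
    intro p
    rw [card_iff RR hRR p]
    simp only [RR, if_true, one_ne_zero, if_false]
    rfl
  have hposi : REPred (fun p : ℕ × ℕ => al p.1 = al p.2) := by
    refine S1.re (S1.of_eq (p := fun p : ℕ × ℕ => p.1 = p.2 ∨ (p.1 / 2 = p.2 / 2 ∧ M (p.1 / 2)))
      (S1.or (S1.of_prim (Primrec.eq.comp Primrec.fst Primrec.snd))
        (S1.and (S1.of_prim (Primrec.eq.comp pr_div2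
          (Primrec.nat_div.comp Primrec.snd (Primrec.const 2)))) (s1_M.comp pr_div2))) ?_)
    intro p
    exact al_eq_iff.symm
  obtain ⟨μ, hμ, hinj, R, hR, hmono, hmem⟩ :=
    hall 0 (Set.range al) hinf ⟨al, rfl, ⟨RR, hre, hRR, hrep⟩, hposi⟩
  -- the diagonal argument
  obtain ⟨c0, hc0⟩ := exists_W (hR 0)
  obtain ⟨c1, hc1⟩ := exists_W (hR 1)
  set e := Nat.pair c0 c1 with he
  have hμ' : ∀ i x, x ∈ μ i ↔ R0 e i x ∧ ¬ R1 e i x := by
    intro i x
    have h1 := hmem (i, x)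
    rw [card_iff R hmono] at h1
    rw [h1, hc0, hc1]
    simp [R0, R1, he]
  have hk0 : (2 * e) / 2 = e ∧ (2 * e) % 2 = 0 := by omega
  have hk1 : (2 * e + 1) / 2 = e ∧ (2 * e + 1) % 2 = 1 := by omega
  obtain ⟨i, hi⟩ : al (2 * e) ∈ Set.range μ := hμ ▸ ⟨_, rfl⟩
  obtain ⟨j, hj⟩ : al (2 * e + 1) ∈ Set.range μ := hμ ▸ ⟨_, rfl⟩
  by_cases hM : M e
  · obtain ⟨⟨a, b⟩, hab, ha, hb⟩ := hM
    have hM : M e := ⟨⟨a, b⟩, hab, ha, hb⟩
    simp only at hab ha hb
    have key : ∀ (n t : ℕ), t < 2 → R1 e n (el e t n) → μ n = al (2 * e) := by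
      intro n t ht hn
      obtain ⟨k, hk⟩ : μ n ∈ Set.range al := hμ ▸ ⟨_, rfl⟩
      have h1 : el e t n ∉ μ n := fun h => ((hμ' n _).1 h).2 hn
      rw [← hk] at h1 ⊢
      rw [mem_al_lt ht, not_not] at h1
      refine al_eq_of_M (by omega) ?_
      rw [← h1.1]; exact hM
    exact hab (hinj ((key a 0 (by norm_num) ha).trans (key b 1 (by norm_num) hb).symm))
  · have key : ∀ (n t k : ℕ), t < 2 → k / 2 = e → k % 2 = t → μ n = al k → R1 e n (el e t n) := by
      intro n t k ht hk1 hk2 hn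
      have h1 := hμ' n (el e t n)
      rw [hn, mem_al_lt ht, hk1, hk2] at h1
      by_contra h2
      by_cases h3 : R0 e n (el e t n)
      · exact (h1.2 ⟨h3, h2⟩) ⟨rfl, Or.inr ⟨rfl, h3⟩⟩
      · apply h3
        apply (h1.1 _).1
        rintro ⟨_, h4 | ⟨_, h4⟩⟩
        · exact hM h4
        · exact h3 h4
    apply hM
    refine ⟨(i, j), ?_, key i 0 _ (by norm_num) hk0.1 hk0.2 hi, key j 1 _ (by norm_num) hk1.1 hk1.2 hj⟩
    intro hij
    have hij : i = j := hij
    have h1 : al (2 * e) = al (2 * e + 1) := hi.symm.trans (hij ▸ hj)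
    rcases al_eq_iff.1 h1 with h | ⟨_, h⟩
    · omega
    · rw [hk0.1] at h; exact hM h

end Pool.Agent.S14612
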