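import Pool.Statements.S14672
import Pool.Agent.Y817.BC.Main

set_option autoImplicit false
open Pool Pool.MP_4c94f5_lc

namespace Pool.Agent.S14672

/-- The negation of the preceding statement: For every n ≥ 2 and every LCL problem on ℤⁿ: if every free Borel ℤⁿ-action on a Polish space has a Baire-measurable solution, then every free computable ℤⁿ-action on a decidable subset of ℕ has a computable solution. -/
theorem result :
    ¬ (∀ n : ℕ, 2 ≤ n → ∀ (W : Finset (Fin n → ℤ)) (k : ℕ) (A : Set ({x // x ∈ W} → Fin k)),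
      (∀ (X : Type) [TopologicalSpace X] [PolishSpace X] [MeasurableSpace X] [BorelSpace X]
          (act : (Fin n → ℤ) → X → X),
          (∀ x, act 0 x = x) →
          (∀ a b x, act (a + b) x = act a (act b x)) →
          (∀ γ, Measurable (act γ)) →
          (∀ γ x, act γ x = x → γ = 0) →
          ∃ f : X → Fin k,
            (∀ i : Fin k, ∃ u : Set X, IsOpen u ∧
                Filter.EventuallyEq (residual X) (f ⁻¹' {i}) u) ∧
            ∀ x, (fun w : {x // x ∈ W} => f (act w.1 x)) ∈ A) →
      (∀ (X : Set ℕ) (act : (Fin n → ℤ) → ℕ → ℕ),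
          ComputablePred (fun m => m ∈ X) →
          (∀ γ x, x ∈ X → act γ x ∈ X) →
          (∀ x, x ∈ X → act 0 x = x) →
          (∀ a b x, x ∈ X → act (a + b) x = act a (act b x)) →
          (∀ γ, Computable (act γ)) →
          (∀ γ x, x ∈ X → act γ x = x → γ = 0) →
          ∃ f : ℕ → Fin k, Computable f ∧
            ∀ x, x ∈ X → (fun w : {x // x ∈ W} => f (act w.1 x)) ∈ A)) := by
  exact Pool.Agent.Y817.BC.fin Pool.Agent.Y550.BC.Mach.t Pool.Agent.Y817.BC.sound Pool.Agent.Y168.BC.t
    Pool.Agent.Y817.BC.tval Pool.Agent.Y168.BC.Tp.t Pool.Agent.Y817.BC.env Pool.Agent.Y817.BC.bfin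
    Pool.Agent.Y569.BC.Comp.t

end Pool.Agent.S14672
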