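import Pool.Statements.S14895

set_option autoImplicit false
open Pool Pool.MP_735cdd_lc

namespace Pool.Agent.S14895

open FirstOrder FirstOrder.Language

/-- The language of the frozen statement. -/
abbrev Lg : FirstOrder.Language.{0, 0} := FirstOrder.Language.mk (fun _ => Unit) (fun _ => Empty)

/-- The nested word `y_s (y_{s+1} (... (y_{s+k-1} u^2)^2 ...)^2)^2`. -/
def wd {G : Type} [Group G] : ℕ → ℕ → (ℕ → G) → G → G
  | _, 0, _, u => u
  | s, k + 1, y, u => y s * (wd (s + 1) k y u * wd (s + 1) k y u)

/-- The same word as a term. -/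
def wt : ℕ → ℕ → Lg.Term ((Unit ⊕ ℕ) ⊕ Fin 1)
  | _, 0 => Term.var (Sum.inr 0)
  | s, k + 1 => Term.func (l := 3) (() : Lg.Functions 3)
      ![Term.var (Sum.inl (Sum.inr s)), wt (s + 1) k, wt (s + 1) k]

lemma wt_realize {G : Type} [Group G] [S : Lg.Structure G]
    (hS : ∀ (n : ℕ) (f : Lg.Functions n) (xs : Fin n → G),
        FirstOrder.Language.Structure.funMap f xs = (List.ofFn xs).prod)
    (c : G) (y : ℕ → G) (xs : Fin 1 → G) (k : ℕ) : ∀ s,
    (wt s k).realize (Sum.elim (Sum.elim (fun _ => c) y) xs) = wd s k y (xs 0) := by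
  induction k with
  | zero => intro s; simp [wt, wd]
  | succ k ih =>
    intro s
    simp only [wt, wd, Term.realize]
    rw [hS]
    simp [ih, List.ofFn_succ]

/-- The formula `exists u, c = wd 0 k y u`. -/
def phi (k : ℕ) : Lg.Formula (Unit ⊕ ℕ) :=
  ((Term.var (Sum.inl (Sum.inl ())) =' wt 0 k : Lg.BoundedFormula (Unit ⊕ ℕ) 1)).ex

lemma phi_realize {G : Type} [Group G] [S : Lg.Structure G]
    (hS : ∀ (n : ℕ) (f : Lg.Functions n) (xs : Fin n → G),
        FirstOrder.Language.Structure.funMap f xs = (List.ofFn xs).prod)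
    (c : G) (y : ℕ → G) (k : ℕ) :
    (phi k).Realize (Sum.elim (fun _ => c) y) ↔ ∃ u : G, c = wd 0 k y u := by
  unfold phi
  simp only [Formula.Realize, BoundedFormula.realize_ex, BoundedFormula.realize_bdEqual]
  constructor
  · rintro ⟨u, hu⟩
    refine ⟨u, ?_⟩
    rw [wt_realize hS] at hu
    simpa [Fin.snoc] using hu
  · rintro ⟨u, hu⟩
    refine ⟨u, ?_⟩
    rw [wt_realize hS]
    simpa [Fin.snoc] using hu

/-- Formulas depend on finitely many variables. -/
lemma finite_dep {G : Type} [S : Lg.Structure G] (φ : Lg.Formula ℕ) :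
    ∃ N : ℕ, ∀ v w : ℕ → G, (∀ i < N, v i = w i) → (φ.Realize v ↔ φ.Realize w) := by
  classical
  refine ⟨(φ.freeVarFinset).sup id + 1, fun v w h => ?_⟩
  have key : ∀ u : ℕ → G, φ.Realize u ↔
      (φ.restrictFreeVar (id : φ.freeVarFinset → φ.freeVarFinset)).Realize
        (fun i => u i.1) default := by
    intro u
    unfold Formula.Realize
    rw [BoundedFormula.realize_restrictFreeVar]
    intro a
    rfl
  rw [key v, key w]
  have : (fun i : φ.freeVarFinset => v i.1) = (fun i => w i.1) := by
    funext i
    apply h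
    have := Finset.le_sup (f := id) i.2
    simp only [id] at this
    omega
  rw [this]

lemma wd_hom {G : Type} [Group G] (A : G →* G) (y : ℕ → G) (u : G) (k : ℕ) : ∀ s,
    A (wd s k y u) = wd s k (fun i => A (y i)) (A u) := by
  induction k with
  | zero => intro s; rfl
  | succ k ih => intro s; simp [wd, ih]

lemma wd_congr {G : Type} [Group G] (y z : ℕ → G) (u : G) (k : ℕ) : ∀ s,
    (∀ i, i < s + k → y i = z i) → wd s k y u = wd s k z u := by
  induction k with
  | zero => intro s _; rfl
  | succ k ih =>
    intro s h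
    have h1 := ih (s + 1) (fun i hi => h i (by omega))
    simp only [wd]
    rw [h1, h s (by omega)]

lemma wd_telescope {G : Type} [Group G] (x : ℕ → G) (k : ℕ) : ∀ s,
    wd s k (fun i => x i * (x (i + 1) * x (i + 1))⁻¹) (x (s + k)) = x s := by
  induction k with
  | zero => intro s; rfl
  | succ k ih =>
    intro s
    have h1 := ih (s + 1)
    simp only [wd]
    have : s + 1 + k = s + (k + 1) := by ring
    rw [this] at h1
    rw [h1]
    group

lemma wd_proj {G : Type} [Group G] (x : ℕ → G) (i : ℕ) (hx : ∀ j, j < i → x j = 1) (v : G) :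
    ∀ k s, s + k = i → ∃ m : ℕ, 0 < m ∧ wd s (k + 1) x v = (x i * (v * v)) ^ m := by
  intro k
  induction k with
  | zero =>
    intro s hs
    refine ⟨1, one_pos, ?_⟩
    simp only [wd]
    rw [← hs]
    simp
  | succ k ih =>
    intro s hs
    obtain ⟨m, hm, h⟩ := ih (s + 1) (by omega)
    refine ⟨m + m, by omega, ?_⟩
    rw [wd, h, hx s (by omega), one_mul, pow_add]

/-- Every torsion-free group that is free in its own variety on an infinite basis fails ℵ1-homogeneity: some countable tuples a, b share a type, yet some element c has no d making (c,a) and (d,b) share a type. -/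
theorem result :
  ∀ (G : Type) [Group G],
    (∀ g : G, ∀ n : ℕ, 0 < n → g ^ n = 1 → g = 1) →
    (∃ X : Set G, X.Infinite ∧ Subgroup.closure X = ⊤ ∧
      ∀ f : X → G, ∃ φ : G →* G, ∀ x : X, φ x = f x) →
    ∀ [S : (FirstOrder.Language.mk (fun _ => Unit) (fun _ => Empty)).Structure G],
      (∀ (n : ℕ) (f : (FirstOrder.Language.mk (fun _ => Unit) (fun _ => Empty)).Functions n)
          (xs : Fin n → G),
        FirstOrder.Language.Structure.funMap f xs = (List.ofFn xs).prod) →
      ¬ ∀ a b : ℕ → G,
        (∀ φ : (FirstOrder.Language.mk (fun _ => Unit) (fun _ => Empty)).Formula ℕ,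
          φ.Realize a ↔ φ.Realize b) →
        ∀ c : G, ∃ d : G,
          ∀ ψ : (FirstOrder.Language.mk (fun _ => Unit) (fun _ => Empty)).Formula (Unit ⊕ ℕ),
            ψ.Realize (Sum.elim (fun _ => c) a) ↔ ψ.Realize (Sum.elim (fun _ => d) b) := by
  classical
  intro G _ htf hX S hS hall
  obtain ⟨X, hXinf, hXcl, hXfree⟩ := hX
  -- an injective sequence in the basis
  let e0 : ℕ ↪ X := hXinf.natEmbedding
  let e : ℕ → G := fun n => (e0 n : G)
  have he_inj : Function.Injective e := fun m n h => e0.injective (Subtype.ext h)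
  have he_mem : ∀ n, e n ∈ X := fun n => (e0 n).2
  -- extension property in the form of functions on G
  have hext : ∀ f : G → G, ∃ φ : G →* G, ∀ x ∈ X, φ x = f x := by
    intro f
    obtain ⟨φ, hφ⟩ := hXfree (fun x => f x.1)
    exact ⟨φ, fun x hx => hφ ⟨x, hx⟩⟩
  have hom_ext : ∀ φ ψ : G →* G, (∀ x ∈ X, φ x = ψ x) → φ = ψ := by
    intro φ ψ h
    exact MonoidHom.eq_of_eqOn_dense hXcl (fun x hx => h x hx)
  -- the twisted sequence
  let y : ℕ → G := fun i => e i * (e (i + 1) * e (i + 1))⁻¹
  have hinv : ∀ j, Function.invFun e (e j) = j := Function.leftInverse_invFun he_inj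
  -- step 1: same type
  have htype : ∀ φ : Lg.Formula ℕ, φ.Realize y ↔ φ.Realize e := by
    intro φ
    obtain ⟨N, hN⟩ := finite_dep (G := G) φ
    -- endomorphism A
    obtain ⟨A, hA⟩ := hext (fun g =>
      if e (Function.invFun e g) = g ∧ Function.invFun e g < N then y (Function.invFun e g) else g)
    obtain ⟨B, hB⟩ := hext (fun g =>
      if e (Function.invFun e g) = g ∧ Function.invFun e g < N then
        wd (Function.invFun e g) (N - Function.invFun e g) e (e N) else g)
    have hA1 : ∀ j, j < N → A (e j) = y j := by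
      intro j hj
      rw [hA _ (he_mem j), hinv]
      simp [hj]
    have hA2 : ∀ j, N ≤ j → A (e j) = e j := by
      intro j hj
      rw [hA _ (he_mem j), hinv]
      simp [not_lt.mpr hj]
    have hB1 : ∀ j, j < N → B (e j) = wd j (N - j) e (e N) := by
      intro j hj
      rw [hB _ (he_mem j), hinv]
      simp [hj]
    have hB2 : ∀ j, N ≤ j → B (e j) = e j := by
      intro j hj
      rw [hB _ (he_mem j), hinv]
      simp [not_lt.mpr hj]
    have hB3 : ∀ j, j ≤ N → B (e j) = wd j (N - j) e (e N) := by
      intro j hj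
      rcases Nat.lt_or_ge j N with h | h
      · exact hB1 j h
      · have : j = N := le_antisymm hj h
        subst this
        rw [hB2 j le_rfl]
        simp [wd]
    have hAB : A.comp B = MonoidHom.id G := by
      apply hom_ext
      intro x hx
      by_cases hc : e (Function.invFun e x) = x ∧ Function.invFun e x < N
      · obtain ⟨h1, h2⟩ := hc
        generalize hj : Function.invFun e x = j at h1 h2
        subst h1
        simp only [MonoidHom.comp_apply, MonoidHom.id_apply]
        rw [hB1 j h2, wd_hom, hA2 N le_rfl]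
        rw [wd_congr _ y _ _ _ (fun i hi => hA1 i (by omega))]
        have := wd_telescope e (N - j) j
        rw [Nat.add_sub_cancel' h2.le] at this
        exact this
      · simp only [MonoidHom.comp_apply, MonoidHom.id_apply]
        rw [hB x hx, if_neg hc, hA x hx, if_neg hc]
    have hBA : B.comp A = MonoidHom.id G := by
      apply hom_ext
      intro x hx
      by_cases hc : e (Function.invFun e x) = x ∧ Function.invFun e x < N
      · obtain ⟨h1, h2⟩ := hc
        generalize hj : Function.invFun e x = j at h1 h2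
        subst h1
        simp only [MonoidHom.comp_apply, MonoidHom.id_apply]
        rw [hA1 j h2]
        simp only [y, map_mul, map_inv]
        rw [hB1 j h2, hB3 (j + 1) h2]
        have h3 : N - j = (N - (j + 1)) + 1 := by omega
        rw [h3, wd]
        group
      · simp only [MonoidHom.comp_apply, MonoidHom.id_apply]
        rw [hA x hx, if_neg hc, hB x hx, if_neg hc]
    -- the automorphism
    let α : G ≃ G :=
      { toFun := A
        invFun := B
        left_inv := fun g => by
          have := DFunLike.congr_fun hBA g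
          simpa using this
        right_inv := fun g => by
          have := DFunLike.congr_fun hAB g
          simpa using this }
    let αL : G ≃[Lg] G :=
      { toEquiv := α
        map_fun' := by
          intro n f xs
          show A _ = _
          rw [hS, hS, map_list_prod, List.map_ofFn]
        map_rel' := by
          intro n r
          exact r.elim }
    have h1 : φ.Realize (αL ∘ e) ↔ φ.Realize e := StrongHomClass.realize_formula αL φ
    rw [← h1]
    apply hN
    intro i hi
    show y i = A (e i)
    rw [hA1 i hi]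
  -- step 2: extension fails
  obtain ⟨d, hd⟩ := hall y e htype (e 0)
  have hdw : ∀ k, ∃ u : G, d = wd 0 k e u := by
    intro k
    have h1 := hd (phi k)
    rw [phi_realize hS, phi_realize hS] at h1
    apply h1.1
    refine ⟨e k, ?_⟩
    have := wd_telescope e k 0
    rw [Nat.zero_add] at this
    exact this.symm
  -- projections
  have hproj : ∀ i, ∃ π : G →* G, π (e i) = e i ∧ (∀ x ∈ X, x ≠ e i → π x = 1) := by
    intro i
    obtain ⟨π, hπ⟩ := hext (fun g => if g = e i then e i else 1)
    refine ⟨π, ?_, ?_⟩
    · rw [hπ _ (he_mem i)]; simp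
    · intro x hx hne
      rw [hπ x hx]; simp [hne]
  choose π hπ1 hπ2 using hproj
  have hsupp : ∀ g : G, ∃ N, ∀ i, N ≤ i → π i g = 1 := by
    intro g
    have hg : g ∈ Subgroup.closure X := by rw [hXcl]; exact Subgroup.mem_top g
    induction hg using Subgroup.closure_induction with
    | mem x hx =>
      by_cases h : ∃ j, e j = x
      · obtain ⟨j, rfl⟩ := h
        refine ⟨j + 1, fun i hi => hπ2 i _ hx ?_⟩
        intro h
        have := he_inj h
        omega
      · refine ⟨0, fun i _ => hπ2 i _ hx ?_⟩
        intro h'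
        exact h ⟨i, h'.symm⟩
    | one => exact ⟨0, fun i _ => map_one _⟩
    | mul a b _ _ iha ihb =>
      obtain ⟨Na, ha⟩ := iha
      obtain ⟨Nb, hb⟩ := ihb
      refine ⟨max Na Nb, fun i hi => ?_⟩
      rw [map_mul, ha i (le_trans (le_max_left _ _) hi), hb i (le_trans (le_max_right _ _) hi),
        one_mul]
    | inv a _ iha =>
      obtain ⟨Na, ha⟩ := iha
      refine ⟨Na, fun i hi => ?_⟩
      rw [map_inv, ha i hi, inv_one]
  obtain ⟨N, hN⟩ := hsupp d
  obtain ⟨u, hu⟩ := hdw (N + 1)
  have h1 : π N d = 1 := hN N le_rfl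
  rw [hu, wd_hom] at h1
  have hlt : ∀ j, j < N → π N (e j) = 1 := by
    intro j hj
    apply hπ2 N _ (he_mem j)
    intro h
    have := he_inj h
    omega
  obtain ⟨m, hm, hm2⟩ := wd_proj (fun i => π N (e i)) N hlt (π N u) N 0 (by omega)
  rw [hm2] at h1
  have h2 := htf _ m hm h1
  simp only [hπ1] at h2
  -- range of π N is in zpowers
  have hrange : ∀ g : G, π N g ∈ Subgroup.zpowers (e N) := by
    intro g
    have hg : g ∈ Subgroup.closure X := by rw [hXcl]; exact Subgroup.mem_top g
    induction hg using Subgroup.closure_induction with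
    | mem x hx =>
      by_cases h : x = e N
      · rw [h, hπ1]; exact Subgroup.mem_zpowers _
      · rw [hπ2 N x hx h]; exact Subgroup.one_mem _
    | one => rw [map_one]; exact Subgroup.one_mem _
    | mul a b _ _ iha ihb => rw [map_mul]; exact Subgroup.mul_mem _ iha ihb
    | inv a _ iha => rw [map_inv]; exact Subgroup.inv_mem _ iha
  obtain ⟨k, hk⟩ := Subgroup.mem_zpowers_iff.1 (hrange u)
  rw [← hk] at h2
  have h3 : e N ^ (1 + (k + k)) = 1 := by
    rw [zpow_add, zpow_add, zpow_one]
    exact h2
  have h4 : e N = 1 := by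
    rcases lt_trichotomy (1 + (k + k)) 0 with h | h | h
    · obtain ⟨n, hn⟩ := Int.eq_ofNat_of_zero_le (show 0 ≤ -(1 + (k + k)) by omega)
      apply htf _ n (by omega)
      have : e N ^ (-(1 + (k + k))) = 1 := by rw [zpow_neg, h3, inv_one]
      rw [hn, zpow_natCast] at this
      exact this
    · omega
    · obtain ⟨n, hn⟩ := Int.eq_ofNat_of_zero_le (show 0 ≤ (1 + (k + k)) by omega)
      apply htf _ n (by omega)
      rw [hn, zpow_natCast] at h3
      exact h3
  obtain ⟨φ, hφ⟩ := hext (fun _ => e (N + 1))
  have h5 := hφ (e N) (he_mem N)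
  rw [h4, map_one] at h5
  have h6 : e N = e (N + 1) := by rw [h4, h5]
  have := he_inj h6
  omega

end Pool.Agent.S14895
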