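import Pool.Statements.S14999
import Pool.Agent.Y570.QuadLoc

set_option autoImplicit false
open Pool Pool.MP_8565d5_lc

namespace Pool.Agent.S14999

/-- For every k there is a prime t and a proper subset D of the weight-at-most-2 exponents below 2^t, closed under doubling mod 2^t−1 and under binary shadows, such that the F_2-valued functions on F_{2^t} spanned by x^d, d in D, admit no characterization by k-point constraints. -/
theorem result :
    ∀ k : ℕ, ∃ t : ℕ, t.Prime ∧ ∃ D : Finset ℕ,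
      (∀ d ∈ D, d < 2 ^ t ∧ (Nat.digits 2 d).sum ≤ 2) ∧
      (∃ d : ℕ, d < 2 ^ t ∧ (Nat.digits 2 d).sum ≤ 2 ∧ d ∉ D) ∧
      (∀ d ∈ D, d ≠ 0 → (2 * d - 1) % (2 ^ t - 1) + 1 ∈ D) ∧
      (∀ d ∈ D, ∀ e : ℕ, (∀ i : ℕ, e.testBit i = true → d.testBit i = true) → e ∈ D) ∧
      ¬ ∃ C : Set ((Fin k → GaloisField 2 t) × Set (Fin k → ZMod 2)),
          ∀ f : GaloisField 2 t → ZMod 2,
            ((∃ c : ℕ → GaloisField 2 t, ∀ x : GaloisField 2 t,
                algebraMap (ZMod 2) (GaloisField 2 t) (f x) = ∑ d ∈ D, c d * x ^ d) ↔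
              ∀ p ∈ C, (fun i => f (p.1 i)) ∈ p.2) := by
  intro k
  obtain ⟨t, htk, htp⟩ := Nat.exists_infinite_primes (k + 5)
  have h5 : 5 ≤ t := by omega
  refine ⟨t, htp, Pool.Agent.Y570.QuadLoc.D t, Pool.Agent.Y570.QuadLoc.D_small (by omega),
    ⟨3, ?_, by norm_num, Pool.Agent.Y570.QuadLoc.three_notMem⟩,
    Pool.Agent.Y570.QuadLoc.D_double (by omega), Pool.Agent.Y570.QuadLoc.D_shadow (by omega), ?_⟩
  · have : 2 ^ 2 ≤ 2 ^ t := Nat.pow_le_pow_right (by norm_num) (by omega)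
    omega
  · rintro ⟨C, hC⟩
    letI : Fintype (GaloisField 2 t) := Fintype.ofFinite _
    have ht : Module.finrank (ZMod 2) (GaloisField 2 t) = t := GaloisField.finrank 2 (by omega)
    apply Pool.Agent.Y570.QuadLoc.cubic_notInP ht (by omega)
    refine (hC _).mpr fun p hp => ?_
    obtain ⟨g, hg, hgα⟩ := Pool.Agent.Y570.QuadLoc.agree ht (k := k) (by omega) h5 p.1
    have h1 := (hC g).mp hg p hp
    have h2 : (fun i => g (p.1 i))
        = fun i => Pool.Agent.Y570.QuadLoc.T (GaloisField 2 t) (p.1 i ^ 3) := funext hgα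
    rw [h2] at h1
    exact h1

end Pool.Agent.S14999
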