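import Pool.Statements.S15041
import Pool.Agent.Y566.GenF2Top

set_option autoImplicit false
open Pool Pool.MP_8ca61d_lc

namespace Pool.Agent.S15041

/-- For comeager-many pairs (f,g) of homeomorphisms of Cantor space, the orbit relation of the group they generate is an increasing union of Borel equivalence relations with finite classes (i.e. the generic F_2 action is hyperfinite). -/
theorem result :
    {q : {p : C(ℕ → Bool, ℕ → Bool) × C(ℕ → Bool, ℕ → Bool) //
          Function.Bijective (p.1 : (ℕ → Bool) → (ℕ → Bool)) ∧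
          Function.Bijective (p.2 : (ℕ → Bool) → (ℕ → Bool))} |
      ∃ F : ℕ → (ℕ → Bool) → (ℕ → Bool) → Prop,
        (∀ n, MeasurableSet {z : (ℕ → Bool) × (ℕ → Bool) | F n z.1 z.2}) ∧
        (∀ n, Equivalence (F n)) ∧
        (∀ n x, {y : ℕ → Bool | F n x y}.Finite) ∧
        (∀ n x y, F n x y → F (n + 1) x y) ∧
        (∀ x y : ℕ → Bool,
          (∃ σ ∈ Subgroup.closure
              ({Equiv.ofBijective (q.1.1 : (ℕ → Bool) → (ℕ → Bool)) q.2.1,
                Equiv.ofBijective (q.1.2 : (ℕ → Bool) → (ℕ → Bool)) q.2.2} :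
                Set (Equiv.Perm (ℕ → Bool))), σ x = y) ↔ ∃ n, F n x y)}
      ∈ residual _ := by
  refine Filter.mem_of_superset Pool.Agent.Y566.GenF2.O_residual ?_
  rintro q ⟨p, hp⟩
  have hinv : ∀ h : C(ℕ → Bool, ℕ → Bool), ∀ hb : Function.Bijective h,
      Measurable ((Equiv.ofBijective h hb)⁻¹ : Equiv.Perm (ℕ → Bool)) := by
    intro h hb
    have hc : Continuous (Equiv.ofBijective h hb) := h.continuous
    exact (hc.homeoOfEquivCompactToT2).symm.continuous.measurable
  obtain ⟨F, h1, h2, h3, h4, h5⟩ := Pool.Agent.Y566.GenF2.hyperfinite_of_pointed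
    (Equiv.ofBijective (q.1.1 : (ℕ → Bool) → (ℕ → Bool)) q.2.1)
    (Equiv.ofBijective (q.1.2 : (ℕ → Bool) → (ℕ → Bool)) q.2.2) p
    q.1.1.continuous.measurable (hinv _ _) q.1.2.continuous.measurable (hinv _ _)
    p.continuous.measurable hp
  exact ⟨F, h2, h1, h3, h4, h5⟩

end Pool.Agent.S15041
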