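import Pool.Statements.S15144
import Pool.Agent.Y548.FCAlg

/-!
# Interval algebras of copies of a linear order: the order type `ω`

`Intal(ω)` and `Intal(ω + ω*)` are both the algebra of finite and cofinite sets.  From a code of an
element of `Intal(L)`, `L` a computable copy of `ω`, one reads off whether the element is cofinite.
But in `Intal(L')`, where `L'` is a computable copy of `ω + ω*` whose initial segment `ω` is not
computable, this is not decidable.
-/

set_option autoImplicit false
open Pool Pool.MP_a2ec29_lc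

namespace Pool.Agent.S15144

open Encodable Pool.Agent.Helper227 Pool.Agent.Y548 Pool.Agent.Y548.FC

/-- the algebra of finite and cofinite sets of numbers -/
def FC : BooleanSubalgebra (Set ℕ) where
  carrier := {A | A.Finite ∨ Aᶜ.Finite}
  supClosed' := by
    rintro A (hA | hA) B (hB | hB)
    · exact Or.inl (hA.union hB)
    · exact Or.inr (hB.subset (Set.compl_subset_compl.2 Set.subset_union_right))
    · exact Or.inr (hA.subset (Set.compl_subset_compl.2 Set.subset_union_left))
    · exact Or.inr (hA.subset (Set.compl_subset_compl.2 Set.subset_union_left))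
  infClosed' := by
    rintro A (hA | hA) B (hB | hB)
    · exact Or.inl (hA.subset Set.inter_subset_left)
    · exact Or.inl (hA.subset Set.inter_subset_left)
    · exact Or.inl (hB.subset Set.inter_subset_right)
    · right
      show (A ∩ B)ᶜ.Finite
      rw [Set.compl_inter]; exact hA.union hB
  compl_mem' := by
    rintro A (hA | hA)
    · right; show (Aᶜᶜ).Finite; rw [compl_compl]; exact hA
    · exact Or.inl hA
  bot_mem' := Or.inl Set.finite_empty

theorem mem_FC {A : Set ℕ} : A ∈ FC ↔ A.Finite ∨ Aᶜ.Finite := Iff.rfl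

/-- the presentation -/
noncomputable def e : ℕ ≃ FC :=
  Equiv.ofBijective (fun n => ⟨X n, mem_FC.2 (X_fin n)⟩) <| by
    constructor
    · intro m n h
      exact X_injective (congrArg Subtype.val h)
    · rintro ⟨A, hA⟩
      have : A ∈ Set.range X := by rw [range_X]; exact hA
      obtain ⟨n, hn⟩ := this
      exact ⟨n, Subtype.ext hn⟩

theorem e_val (n : ℕ) : (e n : Set ℕ) = X n := rfl

theorem computable_of_rel (F : Bool → Bool → Bool → Bool) (op : FC → FC → FC)
    (hop : ∀ a b : ℕ, ∀ x, F (par a x a) (par b x b)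
      (par (e.symm (op (e a) (e b))) x (e.symm (op (e a) (e b)))) = true)
    (huniq : ∀ p q r r', F p q r = true → F p q r' = true → r = r') :
    Computable₂ fun m n : ℕ => e.symm (op (e m) (e n)) := by
  have h1 : S1 fun p : (ℕ × ℕ) × ℕ =>
      ∀ x, F (par p.1.1 x p.1.1) (par p.1.2 x p.1.2) (par p.2 x p.2) = true :=
    S1.of_prim (bool_rel_prim F)
  obtain ⟨f, hf, hf'⟩ := S1.choose (p := fun (p : ℕ × ℕ) (k : ℕ) =>
    ∀ x, F (par p.1 x p.1) (par p.2 x p.2) (par k x k) = true) h1
    (fun p => ⟨_, hop p.1 p.2⟩)
  refine hf.of_eq fun p => ?_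
  apply X_injective
  ext x
  have h2 := huniq _ _ _ _ (hf' p x) (hop p.1 p.2 x)
  show par (f p) x (f p) = true ↔ par (e.symm (op (e p.1) (e p.2))) x _ = true
  rw [h2]

theorem par_symm (A : FC) (x : ℕ) : par (e.symm A) x (e.symm A) = true ↔ x ∈ (A : Set ℕ) := by
  have h : (A : Set ℕ) = X (e.symm A) := by rw [← e_val, Equiv.apply_symm_apply]
  rw [h]; rfl

theorem computable_sup : Computable₂ (fun m n : ℕ => e.symm (e m ⊔ e n)) := by
  refine computable_of_rel (fun p q r => r == (p || q)) (fun a b => a ⊔ b) ?_ ?_
  · intro a b x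
    have h := par_symm (e a ⊔ e b) x
    have h2 : x ∈ ((e a ⊔ e b : FC) : Set ℕ) ↔ (par a x a = true ∨ par b x b = true) := Iff.rfl
    rw [h2] at h
    revert h
    cases par (e.symm (e a ⊔ e b)) x (e.symm (e a ⊔ e b)) <;> cases par a x a <;>
      cases par b x b <;> simp
  · intro p q r r'
    cases p <;> cases q <;> cases r <;> cases r' <;> simp

theorem computable_inf : Computable₂ (fun m n : ℕ => e.symm (e m ⊓ e n)) := by
  refine computable_of_rel (fun p q r => r == (p && q)) (fun a b => a ⊓ b) ?_ ?_
  · intro a b x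
    have h := par_symm (e a ⊓ e b) x
    have h2 : x ∈ ((e a ⊓ e b : FC) : Set ℕ) ↔ (par a x a = true ∧ par b x b = true) := Iff.rfl
    rw [h2] at h
    revert h
    cases par (e.symm (e a ⊓ e b)) x (e.symm (e a ⊓ e b)) <;> cases par a x a <;>
      cases par b x b <;> simp
  · intro p q r r'
    cases p <;> cases q <;> cases r <;> cases r' <;> simp

theorem computable_compl : Computable (fun n : ℕ => e.symm (e n)ᶜ) := by
  have h0 : Computable₂ (fun m n : ℕ => e.symm ((fun a _ => aᶜ : FC → FC → FC) (e m) (e n))) := by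
    refine computable_of_rel (fun p _ r => r == !p) (fun a _ => aᶜ) ?_ ?_
    · intro a b x
      have h := par_symm (e a)ᶜ x
      have h2 : x ∈ (((e a)ᶜ : FC) : Set ℕ) ↔ ¬ par a x a = true := Iff.rfl
      rw [h2] at h
      revert h
      show _ → (par (e.symm (e a)ᶜ) x (e.symm (e a)ᶜ) == !par a x a) = true
      cases par (e.symm (e a)ᶜ) x (e.symm (e a)ᶜ) <;> cases par a x a <;> simp
    · intro p q r r'
      cases p <;> cases r <;> cases r' <;> simp
  exact h0.comp Computable.id Computable.id

/-- the interval algebra of `(ℕ, ≤)` -/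
def IA : Set (Set ℕ) := {X : Set ℕ | ∃ S : Finset ℕ, ∃ b : Bool,
  X = {x : ℕ | Xor' (b = true) (Odd (S.filter (fun s => s ≤ x)).card)}}

theorem IA_fin {Y : Set ℕ} (h : Y ∈ IA) : Y.Finite ∨ Yᶜ.Finite := by
  obtain ⟨S, b, rfl⟩ := h
  have hS : ∀ x, S.sup id ≤ x → (S.filter (fun s => s ≤ x)) = S := by
    intro x hx
    refine Finset.filter_true_of_mem fun s hs => ?_
    exact (Finset.le_sup (f := id) hs).trans hx
  by_cases h : Xor' (b = true) (Odd S.card)
  · right
    refine (Set.finite_lt_nat (S.sup id)).subset fun x hx => ?_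
    by_contra h2
    apply hx
    show Xor' (b = true) (Odd (S.filter (fun s => s ≤ x)).card)
    rw [hS x (not_lt.1 h2)]; exact h
  · left
    refine (Set.finite_lt_nat (S.sup id)).subset fun x hx => ?_
    by_contra h2
    apply h
    have h3 : Xor' (b = true) (Odd (S.filter (fun s => s ≤ x)).card) := hx
    rw [hS x (not_lt.1 h2)] at h3; exact h3

theorem IA_symm {Y Z : Set ℕ} (hY : Y ∈ IA) (hZ : Z ∈ IA) : {x | Xor' (x ∈ Y) (x ∈ Z)} ∈ IA := by
  classical
  obtain ⟨S, b, rfl⟩ := hY
  obtain ⟨S', b', rfl⟩ := hZ
  refine ⟨symmDiff S S', xor b b', ?_⟩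
  ext x
  have h1 : ((symmDiff S S').filter (fun s => s ≤ x)).card +
      2 * ((S ∩ S').filter (fun s => s ≤ x)).card =
      (S.filter (fun s => s ≤ x)).card + (S'.filter (fun s => s ≤ x)).card := by
    have e1 : (S.filter (fun s => s ≤ x)) = ((S \ S').filter (fun s => s ≤ x)) ∪
        ((S ∩ S').filter (fun s => s ≤ x)) := by
      ext s; simp only [Finset.mem_filter, Finset.mem_union, Finset.mem_sdiff, Finset.mem_inter]
      tauto
    have e2 : (S'.filter (fun s => s ≤ x)) = ((S' \ S).filter (fun s => s ≤ x)) ∪
        ((S ∩ S').filter (fun s => s ≤ x)) := by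
      ext s; simp only [Finset.mem_filter, Finset.mem_union, Finset.mem_sdiff, Finset.mem_inter]
      tauto
    have e3 : ((symmDiff S S').filter (fun s => s ≤ x)) = ((S \ S').filter (fun s => s ≤ x)) ∪
        ((S' \ S).filter (fun s => s ≤ x)) := by
      ext s; simp only [Finset.mem_filter, Finset.mem_union, Finset.mem_sdiff,
        Finset.mem_symmDiff]
      tauto
    rw [e1, e2, e3, Finset.card_union_of_disjoint, Finset.card_union_of_disjoint,
      Finset.card_union_of_disjoint]
    · omega
    · rw [Finset.disjoint_left]; intro s; simp only [Finset.mem_filter, Finset.mem_sdiff,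
        Finset.mem_inter]; tauto
    · rw [Finset.disjoint_left]; intro s; simp only [Finset.mem_filter, Finset.mem_sdiff,
        Finset.mem_inter]; tauto
    · rw [Finset.disjoint_left]; intro s; simp only [Finset.mem_filter, Finset.mem_sdiff]; tauto
  show Xor' (Xor' (b = true) (Odd (S.filter (fun s => s ≤ x)).card))
    (Xor' (b' = true) (Odd (S'.filter (fun s => s ≤ x)).card)) ↔
    Xor' (xor b b' = true) (Odd ((symmDiff S S').filter (fun s => s ≤ x)).card)
  have h2 : Odd ((symmDiff S S').filter (fun s => s ≤ x)).card ↔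
      Xor' (Odd (S.filter (fun s => s ≤ x)).card) (Odd (S'.filter (fun s => s ≤ x)).card) := by
    simp only [Xor', Xor, Nat.odd_iff] at *
    omega
  rw [h2]
  by_cases h3 : Odd (S.filter (fun s => s ≤ x)).card <;>
    by_cases h4 : Odd (S'.filter (fun s => s ≤ x)).card <;> cases b <;> cases b' <;>
    simp [Xor', h3, h4]

theorem IA_single (a : ℕ) : {a} ∈ IA := by
  refine ⟨{a, a + 1}, false, ?_⟩
  ext x
  simp only [Set.mem_singleton_iff, Set.mem_ofPred_eq]
  have h1 : Xor' (false = true) (Odd (({a, a + 1} : Finset ℕ).filter (fun s => s ≤ x)).card) ↔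
      Odd (({a, a + 1} : Finset ℕ).filter (fun s => s ≤ x)).card := by simp [Xor']
  rw [h1, Finset.filter_insert, Finset.filter_singleton]
  rcases lt_trichotomy x a with h | h | h
  · have h2 : ¬ a ≤ x := by omega
    have h3 : ¬ a + 1 ≤ x := by omega
    simp [h2, h3]; omega
  · subst h
    simp
  · have h2 : a ≤ x := by omega
    have h3 : a + 1 ≤ x := by omega
    have h4 : ¬ x = a := by omega
    simp only [h2, h3, if_true, h4, false_iff]
    rw [Finset.card_insert_of_notMem (by simp), Finset.card_singleton]
    decide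

theorem IA_empty : ∅ ∈ IA := ⟨∅, false, by ext x; simp [Xor']⟩

theorem IA_univ : Set.univ ∈ IA := ⟨∅, true, by ext x; simp [Xor']⟩

theorem IA_eq : IA = {A : Set ℕ | A.Finite ∨ Aᶜ.Finite} := by
  have hfin : ∀ A : Set ℕ, A.Finite → A ∈ IA := by
    intro A hA
    induction A, hA using Set.Finite.induction_on with
    | empty => exact IA_empty
    | @insert a s ha hs ih =>
      have h := IA_symm (IA_single a) ih
      convert h using 1
      ext z
      rw [Set.mem_insert_iff]
      show _ ↔ Xor' (z = a) (z ∈ s)
      constructor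
      · rintro (rfl | h4)
        · exact Or.inl ⟨rfl, ha⟩
        · refine Or.inr ⟨h4, ?_⟩
          rintro rfl
          exact ha h4
      · rintro (⟨h4, _⟩ | ⟨h4, _⟩)
        · exact Or.inl h4
        · exact Or.inr h4
  ext A
  constructor
  · exact IA_fin
  · rintro (h | h)
    · exact hfin A h
    · have h1 := IA_symm IA_univ (hfin _ h)
      convert h1 using 1
      ext z
      show _ ↔ Xor' (z ∈ Set.univ) (z ∈ Aᶜ)
      simp [Xor']

/-- The negation of the preceding statement: Take any computable infinite linear order L and computable Boolean algebra B isomorphic to the algebra of finite unions of half-open intervals of L. Then some computable copy of L makes B computably isomorphic to that copy's interval algebra. -/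
theorem result :
    ¬ (∀ (β : Type) [LinearOrder β] (l : ℕ ≃ β),
      ComputablePred (fun p : ℕ × ℕ => l p.1 ≤ l p.2) →
      ∀ (α : Type) [BooleanAlgebra α] (e : ℕ ≃ α),
        Computable₂ (fun m n : ℕ => e.symm (e m ⊔ e n)) →
        Computable₂ (fun m n : ℕ => e.symm (e m ⊓ e n)) →
        Computable (fun n : ℕ => e.symm (e n)ᶜ) →
        (∃ φ : α → Set β, Function.Injective φ ∧
            (∀ a b, φ (a ⊔ b) = φ a ∪ φ b) ∧
            (∀ a, φ aᶜ = (φ a)ᶜ) ∧
            Set.range φ = {X : Set β | ∃ S : Finset β, ∃ b : Bool,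
              X = {x : β | Xor' (b = true) (Odd (S.filter (fun s => s ≤ x)).card)}}) →
        ∃ l' : ℕ ≃ β, ComputablePred (fun p : ℕ × ℕ => l' p.1 ≤ l' p.2) ∧
          ∃ ψ : α → Set β, Function.Injective ψ ∧
            (∀ a b, ψ (a ⊔ b) = ψ a ∪ ψ b) ∧
            (∀ a, ψ aᶜ = (ψ a)ᶜ) ∧
            Set.range ψ = {X : Set β | ∃ S : Finset β, ∃ b : Bool,
              X = {x : β | Xor' (b = true) (Odd (S.filter (fun s => s ≤ x)).card)}} ∧
            ∃ c : ℕ → List ℕ × Bool, Computable c ∧
              ∀ n : ℕ, ψ (e n) = {x : β | Xor' ((c n).2 = true)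
                (Odd ((c n).1.filter (fun s => decide (l' s ≤ x))).length)}) := by
  intro hall
  have hle : ComputablePred (fun p : ℕ × ℕ => (Equiv.refl ℕ) p.1 ≤ (Equiv.refl ℕ) p.2) := by
    obtain ⟨hd, h⟩ := (Primrec.nat_le : PrimrecRel ((· ≤ ·) : ℕ → ℕ → Prop))
    exact ⟨hd, h.to_comp⟩
  obtain ⟨l', -, ψ, hinj, hsup, hcompl, hrange, c, hc, hψ⟩ := hall ℕ (Equiv.refl ℕ) hle FC e
    computable_sup computable_inf computable_compl
    ⟨Subtype.val, Subtype.val_injective, fun _ _ => rfl, fun _ => rfl, by
      rw [Subtype.range_val]; exact IA_eq.symm⟩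
  change Set.range ψ = IA at hrange
  -- finite elements are mapped to finite sets
  have hfin : ∀ a : FC, (a : Set ℕ).Finite → (ψ a).Finite := by
    intro a ha
    by_contra hinf
    have h1 : {b : FC | (b : Set ℕ) ⊆ a}.Finite := by
      have h2 : {B : Set ℕ | B ⊆ a}.Finite := ha.finite_subsets
      exact h2.preimage Subtype.val_injective.injOn
    have h3 : ∀ y : ℕ, ∃ b : FC, ψ b = {y} := by
      intro y
      have : {y} ∈ Set.range ψ := by rw [hrange]; exact IA_single y
      exact this
    choose f hf using h3
    have h4 : ∀ y ∈ ψ a, f y ∈ {b : FC | (b : Set ℕ) ⊆ a} := by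
      intro y hy
      have h5 : ψ (f y ⊔ a) = ψ a := by
        rw [hsup, hf]
        exact Set.union_eq_right.2 (Set.singleton_subset_iff.2 hy)
      have h6 : f y ⊔ a = a := hinj h5
      have h7 : f y ≤ a := by rw [← h6]; exact le_sup_left
      exact h7
    have h5 : Set.InjOn f (ψ a) := by
      intro y _ z _ h
      have h6 : ({y} : Set ℕ) = {z} := by rw [← hf, ← hf, h]
      exact Set.singleton_injective h6
    exact (Set.infinite_of_injOn_mapsTo h5 h4 hinf) h1
  have hiff : ∀ a : FC, (a : Set ℕ).Infinite ↔ (ψ a).Infinite := by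
    intro a
    constructor
    · intro h
      have h1 : ((aᶜ : FC) : Set ℕ).Finite := by
        rcases mem_FC.1 a.2 with h2 | h2
        · exact absurd h2 h
        · exact h2
      have h2 := hfin _ h1
      rw [hcompl] at h2
      intro h3
      exact Set.infinite_univ (by rw [← Set.union_compl_self (ψ a)]; exact h3.union h2)
    · intro h h1
      exact h (hfin a h1)
  -- infinity is decidable
  have hdec : ComputablePred fun n : ℕ => (X n).Infinite := by
    have h1 : ∀ n, (X n).Infinite ↔ Xor' ((c n).2 = true) (Odd (c n).1.length) := by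
      intro n
      rw [← e_val, hiff, hψ]
      have hL : ∃ N, ∀ x, N ≤ x → (c n).1.filter (fun s => decide (l' s ≤ x)) = (c n).1 := by
        refine ⟨((c n).1.map l').sum, fun x hx => ?_⟩
        refine List.filter_eq_self.2 fun s hs => ?_
        have : l' s ≤ ((c n).1.map l').sum := List.single_le_sum (by simp) _
          (List.mem_map_of_mem hs)
        simpa using this.trans hx
      obtain ⟨N, hN⟩ := hL
      constructor
      · intro h
        by_contra h2
        apply h
        refine (Set.finite_lt_nat N).subset fun x hx => ?_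
        by_contra h3
        have h4 : Xor' ((c n).2 = true)
          (Odd ((c n).1.filter (fun s => decide (l' s ≤ x))).length) := hx
        rw [hN x (not_lt.1 h3)] at h4
        exact h2 h4
      · intro h
        refine Set.infinite_of_not_bddAbove ?_
        rintro ⟨M, hM⟩
        have h1 : max N M + 1 ∈ {x : ℕ | Xor' ((c n).2 = true)
            (Odd ((c n).1.filter (fun s => decide (l' s ≤ x))).length)} := by
          show Xor' ((c n).2 = true)
            (Odd ((c n).1.filter (fun s => decide (l' s ≤ max N M + 1))).length)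
          rw [hN _ (by omega)]
          exact h
        have := hM h1
        omega
    have h2 : Computable fun n => xor (c n).2 (decide ((c n).1.length % 2 = 1)) := by
      have h3 : Computable fun n => (c n).1.length :=
        Computable.list_length.comp (Computable.fst.comp hc)
      have h4 : Primrec fun k : ℕ => decide (k % 2 = 1) :=
        (Primrec.eq.comp (Primrec.nat_mod.comp Primrec.id (Primrec.const 2))
          (Primrec.const 1) : PrimrecPred fun k : ℕ => k % 2 = 1).decide
      have hxor : Primrec₂ xor := (Primrec.dom_finite (fun p : Bool × Bool => xor p.1 p.2))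
      exact hxor.to_comp.comp (Computable.snd.comp hc) (h4.to_comp.comp h3)
    have h5 : ComputablePred fun n => xor (c n).2 (decide ((c n).1.length % 2 = 1)) = true :=
      ⟨fun n => inferInstance, h2.of_eq fun n => Bool.decide_eq_true.symm⟩
    refine h5.of_eq fun n => ?_
    rw [h1 n, Nat.odd_iff]
    cases (c n).2 <;> by_cases h6 : (c n).1.length % 2 = 1 <;> simp [Xor', h6]
  apply not_computable_tr
  obtain ⟨hd, hh⟩ := hdec
  have hpow : Primrec fun i : ℕ => 2 ^ i := by
    have h1 : Primrec fun i : ℕ => Nat.rec (motive := fun _ => ℕ) 1 (fun _ b => b + b) i :=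
      Primrec.nat_rec₁ 1 (Primrec.nat_add.comp Primrec.snd Primrec.snd)
    refine h1.of_eq fun i => ?_
    induction i with
    | zero => rfl
    | succ i ih => simp only [ih, pow_succ]; omega
  have h6 : ComputablePred fun s : ℕ => (X (2 ^ s)).Infinite :=
    ⟨fun s => hd (2 ^ s), hh.comp hpow.to_comp⟩
  exact h6.of_eq fun s => X_two_pow_infinite

end Pool.Agent.S15144
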