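import Pool.Statements.S15186
import Pool.Agent.Results.MP_a8f5d0_lc.LogSupply

set_option autoImplicit false
open Pool Pool.MP_a8f5d0_lc
open Pool.Agent.Helper555.JDP

namespace Pool.Agent.S15186

theorem toOuterMeasure_ne_top {Ω : Type} (μ : PMF Ω) (E : Set Ω) : μ.toOuterMeasure E ≠ ⊤ := by
  refine ne_top_of_le_ne_top ENNReal.one_ne_top ?_
  calc μ.toOuterMeasure E ≤ μ.toOuterMeasure Set.univ := μ.toOuterMeasure.mono (Set.subset_univ E)
    _ ≤ 1 := by
      rw [PMF.toOuterMeasure_apply]
      simp [μ.tsum_coe]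

/-- The negation of the preceding statement: For each ε,α,β in (0,1) there is a supply s such that for all n, m and supplies ≥ s, some ε-jointly private mechanism on [0,1]-valued gross-substitute profiles always outputs feasible allocations with welfare ≥ OPT − αn with probability ≥ 1−β. -/
theorem result :
    ¬ (∀ ε α β : ℝ, 0 < ε → ε < 1 → 0 < α → α < 1 → 0 < β → β < 1 →
  ∃ s : ℕ, ∀ n m : ℕ, ∀ supply : Fin m → ℕ, (∀ j, s ≤ supply j) →
  ∃ M : (Fin n → Finset (Fin m) → ℝ) → PMF (Fin n → Finset (Fin m)),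
    (∀ v : Fin n → Finset (Fin m) → ℝ,
      (∀ i, (∀ S, 0 ≤ v i S ∧ v i S ≤ 1) ∧
        ∀ p q : Fin m → ℝ, p ≤ q → ∀ S : Finset (Fin m),
          (∀ T : Finset (Fin m), v i T - ∑ j ∈ T, p j ≤ v i S - ∑ j ∈ S, p j) →
          ∃ T : Finset (Fin m),
            (∀ U : Finset (Fin m), v i U - ∑ j ∈ U, q j ≤ v i T - ∑ j ∈ T, q j) ∧
            ∀ j ∈ S, q j = p j → j ∈ T) →
      (∀ ω ∈ (M v).support, ∀ j : Fin m,
          (Finset.univ.filter (fun k : Fin n => j ∈ ω k)).card ≤ supply j) ∧
      (M v).toOuterMeasure {ω | ∀ ω' : Fin n → Finset (Fin m),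
          (∀ j : Fin m, (Finset.univ.filter (fun k : Fin n => j ∈ ω' k)).card ≤ supply j) →
          ∑ k, v k (ω' k) - α * (n : ℝ) ≤ ∑ k, v k (ω k)} ≥ ENNReal.ofReal (1 - β)) ∧
    (∀ v : Fin n → Finset (Fin m) → ℝ,
      (∀ i, (∀ S, 0 ≤ v i S ∧ v i S ≤ 1) ∧
        ∀ p q : Fin m → ℝ, p ≤ q → ∀ S : Finset (Fin m),
          (∀ T : Finset (Fin m), v i T - ∑ j ∈ T, p j ≤ v i S - ∑ j ∈ S, p j) →
          ∃ T : Finset (Fin m),
            (∀ U : Finset (Fin m), v i U - ∑ j ∈ U, q j ≤ v i T - ∑ j ∈ T, q j) ∧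
            ∀ j ∈ S, q j = p j → j ∈ T) →
      ∀ (i : Fin n) (w : Finset (Fin m) → ℝ),
      ((∀ S, 0 ≤ w S ∧ w S ≤ 1) ∧
        ∀ p q : Fin m → ℝ, p ≤ q → ∀ S : Finset (Fin m),
          (∀ T : Finset (Fin m), w T - ∑ j ∈ T, p j ≤ w S - ∑ j ∈ S, p j) →
          ∃ T : Finset (Fin m),
            (∀ U : Finset (Fin m), w U - ∑ j ∈ U, q j ≤ w T - ∑ j ∈ T, q j) ∧
            ∀ j ∈ S, q j = p j → j ∈ T) →
      ∀ S : Set ({k : Fin n // k ≠ i} → Finset (Fin m)),
        (M v).toOuterMeasure {ω | (fun k : {k : Fin n // k ≠ i} => ω k.1) ∈ S} ≤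
          ENNReal.ofReal (Real.exp ε) *
            (M (Function.update v i w)).toOuterMeasure
              {ω | (fun k : {k : Fin n // k ≠ i} => ω k.1) ∈ S})) := by
  classical
  intro hmain
  obtain ⟨s, hs⟩ := hmain (1 / 2) (1 / 1000) (1 / 2) (by norm_num) (by norm_num) (by norm_num)
    (by norm_num) (by norm_num) (by norm_num)
  -- the hypothesis gives a sufficient supply that does not depend on `n` and `m`
  have hsuff : ∀ n m : ℕ, Suffices GrossSubstitutes n m (1 / 2) (1 / 1000) (1 / 2) s := by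
    intro n m
    have h1 : ∀ supply : Fin m → ℕ, ∃ M : (Fin n → Valuation m) → PMF (Allocation n m),
        (∀ j, s ≤ supply j) → JointlyPrivate (GrossSubstitutes m) (1 / 2) M ∧
          ∀ v : Fin n → Valuation m, (∀ i, v i ∈ GrossSubstitutes m) →
            (∀ ω ∈ (M v).support, Feasible supply ω) ∧
            1 - 1 / 2 ≤ Pr (M v) {ω | OPT supply v - 1 / 1000 * n ≤ welfare v ω} := by
      intro supply
      by_cases hsup : ∀ j, s ≤ supply j
      · obtain ⟨M, hM1, hM2⟩ := hs n m supply hsup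
        refine ⟨M, fun _ => ⟨?_, ?_⟩⟩
        · intro i v w hv hw S
          have h2 := hM2 v (fun k => hv k) i w hw S
          unfold Pr
          have h3 : (ENNReal.ofReal (Real.exp (1 / 2)) *
              (M (Function.update v i w)).toOuterMeasure
                {ω | (fun k : {k : Fin n // k ≠ i} => ω k.1) ∈ S}).toReal =
              Real.exp (1 / 2) * ((M (Function.update v i w)).toOuterMeasure
                {ω | (fun k : {k : Fin n // k ≠ i} => ω k.1) ∈ S}).toReal := by
            rw [ENNReal.toReal_mul, ENNReal.toReal_ofReal (Real.exp_pos _).le]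
          rw [← h3]
          refine ENNReal.toReal_mono ?_ h2
          refine ENNReal.mul_ne_top ENNReal.ofReal_ne_top ?_
          exact toOuterMeasure_ne_top _ _
        · intro v hv
          obtain ⟨h2, h3⟩ := hM1 v (fun k => hv k)
          refine ⟨fun ω hω j => by simpa using h2 ω hω j, ?_⟩
          have h4 : (M v).toOuterMeasure {ω | ∀ ω' : Fin n → Finset (Fin m),
              (∀ j : Fin m, (Finset.univ.filter (fun k : Fin n => j ∈ ω' k)).card ≤ supply j) →
              ∑ k, v k (ω' k) - 1 / 1000 * (n : ℝ) ≤ ∑ k, v k (ω k)} ≤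
              (M v).toOuterMeasure {ω | OPT supply v - 1 / 1000 * n ≤ welfare v ω} := by
            refine (M v).toOuterMeasure.mono ?_
            intro ω hω
            have h5 : OPT supply v ≤ welfare v ω + 1 / 1000 * n := by
              refine OPT_le supply v _ ?_
              intro ω' hω'
              have h6 := hω ω' (fun j => by simpa [Feasible] using hω' j)
              unfold welfare
              linarith
            show OPT supply v - 1 / 1000 * n ≤ welfare v ω
            linarith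
          have h5 : ENNReal.ofReal (1 - 1 / 2) ≤
              (M v).toOuterMeasure {ω | OPT supply v - 1 / 1000 * n ≤ welfare v ω} :=
            le_trans h3 h4
          unfold Pr
          have h6 := ENNReal.toReal_mono (toOuterMeasure_ne_top _ _) h5
          rwa [ENNReal.toReal_ofReal (by norm_num)] at h6
      · exact ⟨fun _ => PMF.pure (fun _ => ∅), fun h => absurd h hsup⟩
    choose M hM using h1
    exact ⟨M, fun supply hsup => hM supply hsup⟩
  -- but the least sufficient supply is at least `log m`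
  obtain ⟨m₀, hm₀⟩ := (Pool.Agent.Results.MP_a8f5d0_lc.LogSupply.result (1 / 2) (1 / 1000) (1 / 2)
    (by norm_num) (by norm_num) (by norm_num) (by norm_num) (by norm_num) (by norm_num)).2
  have hlog : Filter.Tendsto (fun m : ℕ => Real.log m / (2 * (1 / 2))) Filter.atTop
      Filter.atTop :=
    (Real.tendsto_log_atTop.comp tendsto_natCast_atTop_atTop).atTop_div_const (by norm_num)
  obtain ⟨m₁, hm₁⟩ := Filter.eventually_atTop.mp (hlog.eventually_gt_atTop (s : ℝ))
  obtain ⟨n, -, h1, h2⟩ := hm₀ (max m₀ m₁) (le_max_left _ _)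
  have h3 := hm₁ (max m₀ m₁) (le_max_right _ _)
  have h4 : sStar GrossSubstitutes n (max m₀ m₁) (1 / 2) (1 / 1000) (1 / 2) ≤ s :=
    Nat.sInf_le (hsuff n (max m₀ m₁))
  have h5 : ((sStarWeak GrossSubstitutes n (max m₀ m₁) (1 / 2) (1 / 1000) (1 / 2) : ℕ) : ℝ) ≤
      s := by exact_mod_cast h2.trans h4
  linarith

end Pool.Agent.S15186
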