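import Pool.Statements.S15225
import Pool.Agent.Y287.BG.Code

set_option autoImplicit false
open Pool Pool.MP_af8240_lc

namespace Pool.Agent.S15225

/-- For ultrafilters U, V on ℕ: if V is Tukey reducible to U and U has a base in which every sequence converging to a base member has an infinite subsequence with intersection in U, then V has such a base too. -/
theorem result :
    ∀ U V : Ultrafilter ℕ,
      (∃ f : Set ℕ → Set ℕ, (∀ A : Set ℕ, A ∈ U → f A ∈ V) ∧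
        ∀ C : Set (Set ℕ), ((∀ X ∈ C, X ∈ U) ∧ ∀ A : Set ℕ, A ∈ U → ∃ X ∈ C, X ⊆ A) →
          ∀ B : Set ℕ, B ∈ V → ∃ X ∈ C, f X ⊆ B) →
      (∃ 𝓑 : Set (Set ℕ), (∀ X ∈ 𝓑, X ∈ U) ∧ (∀ A : Set ℕ, A ∈ U → ∃ X ∈ 𝓑, X ⊆ A) ∧
        ∀ (X : ℕ → Set ℕ) (Y : Set ℕ), (∀ n, X n ∈ 𝓑) → Y ∈ 𝓑 →
          (∀ m : ℕ, ∀ᶠ n in Filter.atTop, (m ∈ X n ↔ m ∈ Y)) →
          ∃ φ : ℕ → ℕ, StrictMono φ ∧ (⋂ k, X (φ k)) ∈ U) →
      (∃ 𝓑 : Set (Set ℕ), (∀ X ∈ 𝓑, X ∈ V) ∧ (∀ A : Set ℕ, A ∈ V → ∃ X ∈ 𝓑, X ⊆ A) ∧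
        ∀ (X : ℕ → Set ℕ) (Y : Set ℕ), (∀ n, X n ∈ 𝓑) → Y ∈ 𝓑 →
          (∀ m : ℕ, ∀ᶠ n in Filter.atTop, (m ∈ X n ↔ m ∈ Y)) →
          ∃ φ : ℕ → ℕ, StrictMono φ ∧ (⋂ k, X (φ k)) ∈ V) := by
  rintro U V ⟨f, hf, hcof⟩ ⟨𝓑, hBU, hBbase, hBconv⟩
  by_cases hV : Pool.Agent.Y287.BG.PseudoInt V
  · exact ⟨{X | X ∈ V}, fun X hX => hX, fun A hA => ⟨A, hA, subset_rfl⟩,
      fun X Y hX hY hc => Pool.Agent.Y287.BG.ppoint_case hV X Y hX hY hc⟩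
  · obtain ⟨T, C, hT, hC, hdec⟩ := Pool.Agent.Y287.BG.coding hV
    -- small members of `U` are mapped below a given member of `V`
    have hg : ∀ A : Set ℕ, A ∈ V → ∃ X ∈ 𝓑, ∀ Z : Set ℕ, Z ∈ U → Z ⊆ X → f Z ⊆ A := by
      intro A hA
      by_contra hcon
      push Not at hcon
      obtain ⟨X, hX, hXA⟩ := hcof {Z | Z ∈ U ∧ ¬ f Z ⊆ A} ⟨fun X hX => hX.1, fun D hD => by
        obtain ⟨X, hX, hXD⟩ := hBbase D hD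
        obtain ⟨Z, hZ, hZX, hZA⟩ := hcon X hX
        exact ⟨Z, ⟨hZ, hZA⟩, hZX.trans hXD⟩⟩ A hA
      exact hX.2 hXA
    refine ⟨{D | ∃ S ∈ V, ∃ X ∈ 𝓑, (∀ Z : Set ℕ, Z ∈ U → Z ⊆ X → f Z ⊆ T S) ∧ D = C S X},
      ?_, ?_, ?_⟩
    · rintro _ ⟨S, hS, X, hX, -, rfl⟩
      exact Filter.mem_of_superset (hT S hS) (hC S hS X).1
    · intro A hA
      obtain ⟨X, hX, hXT⟩ := hg (T A) (hT A hA)
      exact ⟨C A X, ⟨A, hA, X, hX, hXT, rfl⟩, (hC A hA X).2⟩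
    · rintro D _ hD ⟨S, hS, X, hX, -, rfl⟩ hconv
      choose S' hS' X' hX' hfT hDC using hD
      obtain rfl : D = fun n => C (S' n) (X' n) := funext hDC
      obtain ⟨φ, hφ, hφU⟩ := hBconv X' X hX' hX (hdec S' X' S X hS' hS hconv)
      refine ⟨φ, hφ, Filter.mem_of_superset (hf _ hφU) ?_⟩
      intro z hz
      rw [Set.mem_iInter]
      intro k
      exact (hC _ (hS' _) _).1 (hfT _ _ hφU (Set.iInter_subset _ k) hz)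

end Pool.Agent.S15225
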