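import Pool.Statements.S15231
import Pool.Agent.Results.MP_e71ceb_lc.SuperatomicImpliesCWG

set_option autoImplicit false
open Pool Pool.MP_b066e3_lc

namespace Pool.Agent.S15231

open Pool.Agent.Helper718.CWG
open Pool.Agent.Results.MP_e71ceb_lc.SuperatomicImpliesCWG

section
variable {P : Type} [PartialOrder P]

/-- the generators -/
def N (p : P) : Set (UpperSet P) := {U : UpperSet P | p ∈ U}

variable (P) in
/-- the poset algebra -/
def C : BooleanSubalgebra (Set (UpperSet P)) := BooleanSubalgebra.closure (Set.range (N (P := P)))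

theorem N_mem (p : P) : N p ∈ C P := BooleanSubalgebra.subset_closure ⟨p, rfl⟩

/-- the generators as elements of the algebra -/
def x (p : P) : C P := ⟨N p, N_mem p⟩

/-- evaluation at an upper set -/
def ev (F : Set P) (b : C P) : Prop := ∃ hF : IsUpperSet F, (⟨F, hF⟩ : UpperSet P) ∈ b.1

theorem low_iff {F : Set P} : Low (fun p q => q ≤ p) F ↔ IsUpperSet F := by
  constructor
  · intro h p q hpq hp
    exact h (x := q) (y := p) hpq hp
  · intro h p q hpq hq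
    exact h hpq hq

theorem ev_iff {F : Set P} (hF : IsUpperSet F) (b : C P) :
    ev F b ↔ (⟨F, hF⟩ : UpperSet P) ∈ b.1 := ⟨fun ⟨_, h⟩ => h, fun h => ⟨hF, h⟩⟩

theorem key_hom (φ : BoundedLatticeHom (C P) Prop) (hF : IsUpperSet {p | φ (x p)}) :
    ∀ b (hb : b ∈ C P), ((⟨_, hF⟩ : UpperSet P) ∈ b ↔ φ ⟨b, hb⟩) := by
  intro b hb
  induction hb using BooleanSubalgebra.closure_bot_sup_induction with
  | mem c hc =>
    obtain ⟨p, rfl⟩ := hc
    exact Iff.rfl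
  | bot =>
    have h1 : φ (⊥ : C P) = ⊥ := map_bot φ
    constructor
    · intro h; exact absurd h (Set.notMem_empty _)
    · intro h
      have h2 : φ (⊥ : C P) := h
      rw [h1] at h2
      exact absurd h2 id
  | sup c hc d hd ih1 ih2 =>
    have h1 : φ ((⟨c, hc⟩ : C P) ⊔ ⟨d, hd⟩) = (φ ⟨c, hc⟩ ⊔ φ ⟨d, hd⟩) := map_sup φ _ _
    constructor
    · rintro (h | h)
      · have : φ ((⟨c, hc⟩ : C P) ⊔ ⟨d, hd⟩) := by rw [h1]; exact Or.inl (ih1.1 h)
        exact this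
      · have : φ ((⟨c, hc⟩ : C P) ⊔ ⟨d, hd⟩) := by rw [h1]; exact Or.inr (ih2.1 h)
        exact this
    · intro h
      have h2 : φ ((⟨c, hc⟩ : C P) ⊔ ⟨d, hd⟩) := h
      rw [h1] at h2
      rcases h2 with h2 | h2
      · exact Or.inl (ih1.2 h2)
      · exact Or.inr (ih2.2 h2)
  | compl c hc ih =>
    have h1 : φ ((⟨c, hc⟩ : C P)ᶜ) = (φ ⟨c, hc⟩)ᶜ := map_compl' φ _
    constructor
    · intro h
      have : φ ((⟨c, hc⟩ : C P)ᶜ) := by rw [h1]; exact fun h3 => h (ih.2 h3)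
      exact this
    · intro h h3
      have h2 : φ ((⟨c, hc⟩ : C P)ᶜ) := h
      rw [h1] at h2
      exact h2 (ih.1 h3)

theorem x_mono {p q : P} (h : p ≤ q) : (x p : C P) ≤ x q := by
  change N p ≤ N q
  intro F hF
  exact F.upper h hF

theorem closure_x : BooleanSubalgebra.closure (Set.range (x (P := P))) = ⊤ := by
  rw [eq_top_iff]
  rintro ⟨b, hb⟩ -
  induction hb using BooleanSubalgebra.closure_bot_sup_induction with
  | mem c hc =>
    obtain ⟨p, rfl⟩ := hc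
    exact BooleanSubalgebra.subset_closure ⟨p, rfl⟩
  | bot => exact BooleanSubalgebra.bot_mem
  | sup c hc d hd ih1 ih2 => exact BooleanSubalgebra.sup_mem ih1 ih2
  | compl c hc ih => exact BooleanSubalgebra.compl_mem ih

theorem ev_Ev : Ev (fun p q : P => q ≤ p) (x (P := P)) ev where
  bot := by
    intro F hF
    rw [ev_iff (low_iff.1 hF)]
    exact Set.notMem_empty _
  sup := by
    intro F hF a b
    rw [ev_iff (low_iff.1 hF), ev_iff (low_iff.1 hF), ev_iff (low_iff.1 hF)]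
    exact Iff.rfl
  inf := by
    intro F hF a b
    rw [ev_iff (low_iff.1 hF), ev_iff (low_iff.1 hF), ev_iff (low_iff.1 hF)]
    exact Iff.rfl
  compl := by
    intro F hF a
    rw [ev_iff (low_iff.1 hF), ev_iff (low_iff.1 hF)]
    exact Iff.rfl
  gen := by
    intro F hF p
    rw [ev_iff (low_iff.1 hF)]
    exact Iff.rfl
  complete := by
    intro J hJ w hw
    obtain ⟨φ, h1, h2⟩ := exists_hom J hJ w hw
    have hF : IsUpperSet {p | φ (x p)} := by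
      intro p q hpq hp
      have h3 : φ (x p) ≤ φ (x q) := OrderHomClass.mono φ (x_mono hpq)
      exact h3 hp
    refine ⟨_, low_iff.2 hF, ?_, ?_⟩
    · rw [ev_iff hF]
      exact (key_hom φ hF w.1 w.2).2 h1
    · intro j hj
      rw [ev_iff hF]
      exact fun h => h2 j hj ((key_hom φ hF j.1 j.2).1 h)
  closure := closure_x

theorem superatomic_of
    (h : ∀ I : Set (Set (UpperSet P)), I ⊆ (C P : Set (Set (UpperSet P))) → ∅ ∈ I →
      (∀ a ∈ I, ∀ b ∈ C P, b ⊆ a → b ∈ I) → (∀ a ∈ I, ∀ b ∈ I, a ∪ b ∈ I) →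
      ∀ b ∈ C P, b ∉ I → ∃ a ∈ C P, a ⊆ b ∧ a ∉ I ∧ ∀ c ∈ C P, c ⊆ a → c ∈ I ∨ a \ c ∈ I) :
    Superatomic (C P) := by
  intro A _ f hf
  set I : Set (Set (UpperSet P)) := {s | ∃ hs : s ∈ C P, f ⟨s, hs⟩ = ⊥} with hI
  have hmem : ∀ b : C P, b.1 ∈ I ↔ f b = ⊥ := fun b => ⟨fun ⟨_, h⟩ => h, fun h => ⟨b.2, h⟩⟩
  have h0 := h I (fun s hs => hs.1) ⟨BooleanSubalgebra.bot_mem, map_bot f⟩ (by
      rintro a ⟨ha, ha'⟩ b hb hba
      refine ⟨hb, ?_⟩
      have h3 : f ⟨b, hb⟩ ≤ f ⟨a, ha⟩ := OrderHomClass.mono f hba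
      rw [ha'] at h3
      exact le_bot_iff.1 h3) (by
      rintro a ⟨ha, ha'⟩ b ⟨hb, hb'⟩
      refine ⟨BooleanSubalgebra.sup_mem ha hb, ?_⟩
      have h3 : f (⟨a, ha⟩ ⊔ ⟨b, hb⟩) = f ⟨a, ha⟩ ⊔ f ⟨b, hb⟩ := map_sup f _ _
      rw [ha', hb', sup_bot_eq] at h3
      exact h3)
  constructor
  intro d
  by_cases hd : d = ⊥
  · exact Or.inl hd
  right
  obtain ⟨b, rfl⟩ := hf d
  obtain ⟨a, ha, hab, haI, hat⟩ := h0 b.1 b.2 (fun h => hd ((hmem b).1 h))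
  refine ⟨f ⟨a, ha⟩, ⟨fun h => haI ((hmem ⟨a, ha⟩).2 h), ?_⟩, OrderHomClass.mono f hab⟩
  intro e he
  obtain ⟨c, rfl⟩ := hf e
  have h1 : f (c ⊓ ⟨a, ha⟩) = f c := by
    rw [map_inf]; exact inf_eq_left.2 he.le
  have h2 : (c ⊓ ⟨a, ha⟩ : C P).1 ⊆ a := fun u hu => hu.2
  rcases hat _ (c ⊓ ⟨a, ha⟩ : C P).2 h2 with h3 | h3
  · have := (hmem _).1 h3
    rw [h1] at this
    exact this
  · have h4 : f (⟨a, ha⟩ \ (c ⊓ ⟨a, ha⟩)) = ⊥ := (hmem (⟨a, ha⟩ \ (c ⊓ ⟨a, ha⟩))).1 h3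
    rw [map_sdiff', sdiff_eq_bot_iff, h1] at h4
    exact absurd h4 (not_le_of_gt he)

theorem main
    (h : ∀ I : Set (Set (UpperSet P)), I ⊆ (C P : Set (Set (UpperSet P))) → ∅ ∈ I →
      (∀ a ∈ I, ∀ b ∈ C P, b ⊆ a → b ∈ I) → (∀ a ∈ I, ∀ b ∈ I, a ∪ b ∈ I) →
      ∀ b ∈ C P, b ∉ I → ∃ a ∈ C P, a ⊆ b ∧ a ∉ I ∧ ∀ c ∈ C P, c ⊆ a → c ∈ I ∨ a \ c ∈ I) :
    ∃ G : Set (Set (UpperSet P)), G ⊆ (C P : Set (Set (UpperSet P))) ∧
      (∀ x ∈ G, ∀ y ∈ G, x ∪ y ∈ G ∧ x ∩ y ∈ G) ∧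
      (¬ ∃ f : ℕ → Set (UpperSet P), ∀ n, f n ∈ G ∧ f (n + 1) ⊂ f n) ∧
      BooleanSubalgebra.closure G = C P := by
  obtain ⟨H, -, hgen, hwf⟩ := ev_Ev.cwg (superatomic_of h) (fun p => le_refl p)
    (fun p q r h1 h2 => le_trans h2 h1)
  set T : Set (C P) := ⋃ α ∈ Set.Iic (rk (⊤ : C P)), H α with hT
  refine ⟨Subtype.val '' (latticeClosure T), ?_, ?_, ?_, ?_⟩
  · rintro _ ⟨b, -, rfl⟩
    exact b.2
  · rintro _ ⟨a, ha, rfl⟩ _ ⟨b, hb, rfl⟩
    have hs := isSublattice_latticeClosure (s := T)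
    exact ⟨⟨a ⊔ b, hs.supClosed ha hb, rfl⟩, ⟨a ⊓ b, hs.infClosed ha hb, rfl⟩⟩
  · rintro ⟨f, hf⟩
    choose g hg hgf using fun n => (hf n).1
    refine hwf g hg (strictAnti_nat_of_succ_lt fun n => ?_)
    have h1 := (hf n).2
    rw [← hgf n, ← hgf (n + 1)] at h1
    exact h1
  · apply le_antisymm
    · rw [BooleanSubalgebra.closure_le]
      rintro _ ⟨b, -, rfl⟩
      exact b.2
    · have h1 : BooleanSubalgebra.closure T ≤
          BooleanSubalgebra.comap (C P).subtype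
            (BooleanSubalgebra.closure (Subtype.val '' (latticeClosure T))) := by
        rw [BooleanSubalgebra.closure_le]
        intro b hb
        exact BooleanSubalgebra.subset_closure ⟨b, subset_latticeClosure hb, rfl⟩
      intro s hs
      have h2 : (⟨s, hs⟩ : C P) ∈ BooleanSubalgebra.closure T := by rw [hgen]; trivial
      exact h1 h2

end

/-- For every partial order P, if the poset algebra F(P) (modeled as sets of up-sets generated by the sets {U : p in U}) is superatomic, then it has a well-founded sublattice generating it as a Boolean algebra. -/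
theorem result :
  ∀ (P : Type) [PartialOrder P] (S : BooleanSubalgebra (Set (UpperSet P))),
    S = BooleanSubalgebra.closure (Set.range fun p : P => {U : UpperSet P | p ∈ U}) →
    (∀ I : Set (Set (UpperSet P)), I ⊆ (S : Set (Set (UpperSet P))) → ∅ ∈ I →
      (∀ a ∈ I, ∀ b ∈ S, b ⊆ a → b ∈ I) → (∀ a ∈ I, ∀ b ∈ I, a ∪ b ∈ I) →
      ∀ b ∈ S, b ∉ I → ∃ a ∈ S, a ⊆ b ∧ a ∉ I ∧ ∀ c ∈ S, c ⊆ a → c ∈ I ∨ a \ c ∈ I) →
    ∃ G : Set (Set (UpperSet P)), G ⊆ (S : Set (Set (UpperSet P))) ∧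
      (∀ x ∈ G, ∀ y ∈ G, x ∪ y ∈ G ∧ x ∩ y ∈ G) ∧
      (¬ ∃ f : ℕ → Set (UpperSet P), ∀ n, f n ∈ G ∧ f (n + 1) ⊂ f n) ∧
      BooleanSubalgebra.closure G = S := by
  intro P _ S hS h
  subst hS
  exact main h

end Pool.Agent.S15231
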