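import Pool.Statements.S15233
import Pool.Agent.Y32.AS.All

set_option autoImplicit false
open Pool Pool.MP_b0758d_lc

namespace Pool.Agent.S15233

/-- Over some finite alphabet there is a context-free language whose complement is infinite and contains no word having a factor xy with x nonempty and y a rearrangement of x. -/
theorem result :
    ∃ k : ℕ, ∃ L : Language (Fin k),
      Language.IsContextFree L ∧
      Set.Infinite {w : List (Fin k) | w ∉ L} ∧
      ∀ w : List (Fin k), w ∉ L →
        ∀ u x y v : List (Fin k), w = u ++ x ++ y ++ v → x ≠ [] → ¬ List.Perm x y :=
  Pool.Agent.Y32.AS.main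

end Pool.Agent.S15233
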