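import Pool.Statements.S15282
import Pool.Agent.Y45.MON.Main


set_option autoImplicit false
open Pool Pool.MP_b9f16b_lc

namespace Pool.Agent.S15282

/-- The negation of the preceding statement: There is an algorithm that, given a finite list of group words, decides whether every group satisfying all these words as laws (word = 1 under every substitution) is commutative, i.e. whether the variety they define is abelian. -/
theorem result :
    ¬ (ComputablePred (fun L : List (List (ℕ × Bool)) =>
      ∀ (G : Type) [Group G],
        (∀ w ∈ L, ∀ f : ℕ → G, FreeGroup.lift f (FreeGroup.mk w) = 1) →
        ∀ a b : G, a * b = b * a)) := by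
  exact Pool.Agent.Y45.MON.aAb

end Pool.Agent.S15282
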