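import Pool.Statements.S15326
import Pool.Agent.Y550.Mag.Main

set_option autoImplicit false
open Pool Pool.MP_c3e474_lc

namespace Pool.Agent.S15326

/-- The negation of the preceding statement: Over a 2-letter alphabet there exist n≥1 and α with n≤α≤2^n such that no minimal n-state NFA (single initial state) has a minimal complete DFA with exactly α states. -/
theorem result :
    ¬ (∃ n : ℕ, 1 ≤ n ∧ ∃ α : ℕ, n ≤ α ∧ α ≤ 2 ^ n ∧
      ∀ M : NFA (Fin 2) (Fin n), (∃ q : Fin n, M.start = {q}) →
        (∀ m : ℕ, m < n → ∀ N : NFA (Fin 2) (Fin m),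
            (∃ q : Fin m, N.start = {q}) → N.accepts ≠ M.accepts) →
        Nat.card (Set.range (fun u : List (Fin 2) =>
            ({w : List (Fin 2) | u ++ w ∈ M.accepts} : Set (List (Fin 2))))) ≠ α) := by
  rintro ⟨n, hn, α, h1, h2, h⟩
  obtain ⟨M, hM1, hM2, hM3⟩ := Pool.Agent.Y550.Mag.att_main n hn α h1 h2
  exact h M hM1 hM2 hM3

end Pool.Agent.S15326
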