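import Pool.Statements.S15329
import Pool.Agent.Y573.Pin.Main

set_option autoImplicit false
open Pool Pool.MP_c4588b_lc

namespace Pool.Agent.S15329

/-- For every k ≥ 1 and real periods a_1..a_k ≥ 1 with sum of 1/a_i at most 5/6, some map S from the integers to the k tasks makes each task i occur at least l times in every window of ceil(l·a_i) consecutive integers, for all l ≥ 1. -/
theorem result :
    ∀ k : ℕ, 0 < k → ∀ a : Fin k → ℝ, (∀ i, 1 ≤ a i) →
      (∑ i, 1 / a i) ≤ (5 / 6 : ℝ) →
      ∃ S : ℤ → Fin k, ∀ i : Fin k, ∀ l : ℕ, 1 ≤ l → ∀ m : ℤ,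
        l ≤ ((Finset.Ico m (m + ⌈(l : ℝ) * a i⌉)).filter (fun t => S t = i)).card := by
  exact fun k hk a ha hD => Pool.Agent.Y573.Pin.main k hk a ha hD

end Pool.Agent.S15329
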