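import Pool.Statements.S15524
import Pool.Agent.Y567.MD.Bor

set_option autoImplicit false
open Pool Pool.MP_e47bfc_lc

namespace Pool.Agent.S15524

section aux

open FirstOrder FirstOrder.Language Set Pool.Agent.Y567.MD Pool.Agent.Y567.MD.StdE
open Pool.Agent.Y567.MC.Std (X Ph)

/-- the universe of the standard structures -/
abbrev U0 : Type := Un X (ℕ × Ph) Ph

instance : Infinite U0 := Infinite.of_injective (fun n : ℕ => (Sum.inl (toLex (n, (0 : ℚ))) : U0))
  (by
    intro i j h
    have h1 : (toLex (i, (0 : ℚ)) : X) = toLex (j, 0) := Sum.inl_injective h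
    exact congrArg (fun x : X => (ofLex x).1) h1)

/-- a bijection -/
noncomputable def nu : U0 ≃ ℕ := (nonempty_equiv_of_countable (α := U0) (β := ℕ)).some

/-- the theory -/
def T0 : (Lg pE.ar).Theory := @completeTheory (Lg pE.ar) U0 (str std Empty)

/-- the structure on `ℕ` given by a sequence -/
@[instance_reducible] noncomputable def Mx (x : ℕ → Prop) : (Lg pE.ar).Structure ℕ := psh nu (str (std.tw x) Empty)

theorem Mx_model (x : ℕ → Prop) : @Theory.Model (Lg pE.ar) ℕ (Mx x) T0 := by
  refine model_of_isoN (idx pE.ar) (str std Empty) (Mx x) fun N => ?_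
  obtain ⟨F, hF⟩ := full.isoN (full.tw x) N
  exact ⟨F.trans nu, hF.trans ((psh_isom nu (str (std.tw x) Empty)).isoN N)⟩

theorem Mx_iso (x y : ℕ → Prop) :
    Nonempty (@FirstOrder.Language.Equiv (Lg pE.ar) ℕ ℕ (Mx x) (Mx y)) ↔
      {k | ¬ (x k ↔ y k)}.Finite := by
  rw [isom_iff, ← isom_iff_e0]
  constructor
  · rintro ⟨F, hF⟩
    exact ⟨_, ((psh_isom nu (str (std.tw x) Empty)).trans hF).trans
      (psh_isom nu (str (std.tw y) Empty)).symm⟩
  · rintro ⟨F, hF⟩
    exact ⟨_, ((psh_isom nu (str (std.tw x) Empty)).symm.trans hF).trans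
      (psh_isom nu (str (std.tw y) Empty))⟩

theorem Mx_meas : @Measurable (ℕ → Bool) ((Lg pE.ar).Structure ℕ) inferInstance (mS (Lg pE.ar))
    (fun x : ℕ → Bool => Mx fun k => x k = true) := by
  rw [mS, measurable_comap_iff]
  refine Measurable.prodMk ?_ ?_
  · refine measurable_pi_lambda _ fun n => measurable_pi_lambda _ fun f => ?_
    exact (f : Empty).elim
  · refine measurable_pi_lambda _ fun n => measurable_pi_lambda _ fun R =>
      measurable_pi_lambda _ fun v => ?_
    obtain ⟨k, φ, hφ⟩ := rel_tw std Empty R (nu.symm ∘ v)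
    have : (fun x : ℕ → Bool => @Structure.RelMap (Lg pE.ar) ℕ (Mx fun k => x k = true) n R v) =
        fun x : ℕ → Bool => φ (x k = true) := by
      ext x
      exact hφ _
    change Measurable (fun x : ℕ → Bool => @Structure.RelMap (Lg pE.ar) ℕ (Mx fun k => x k = true) n R v)
    rw [this]
    exact (measurable_of_countable (fun b : Bool => φ (b = true))).comp (measurable_pi_apply k)

theorem red : ∃ (Y : Type) (mY : MeasurableSpace Y), StandardBorelSpace Y ∧
      ∃ (E : Y → Y → Prop), Equivalence E ∧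
        MeasurableSet {p : Y × Y | E p.1 p.2} ∧
        (∀ y : Y, ({z : Y | E y z} : Set Y).Countable) ∧
        ∃ f : {S : (Lg pE.ar).Structure ℕ // ℕ ⊨ T0} → Y,
          @Measurable _ _ (@Subtype.instMeasurableSpace _ _ (mS (Lg pE.ar))) mY f ∧
          ∀ A B : {S : (Lg pE.ar).Structure ℕ // ℕ ⊨ T0},
            (Nonempty (@FirstOrder.Language.Equiv (Lg pE.ar) ℕ ℕ A.1 B.1) ↔ E (f A) (f B)) := by
  refine ⟨YE, inferInstance, inferInstance, EE, EE_equiv, EE_meas, EE_countable,
    fun A => (((fun k => aTop A.1 k), aInf A.1, aLst A.1, fun j => aJunk A.1 j),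
      fun k => aBits A.1 k), ?_, ?_⟩
  · let _ := mS (Lg pE.ar)
    have hf : ∀ {n : ℕ} (R : Rl pE.ar n) (v : Fin n → ℕ),
        Measurable (fun A : {S : (Lg pE.ar).Structure ℕ // ℕ ⊨ T0} => rm A.1 R v) := fun R v =>
      (mS_rel (Lg pE.ar) R v).comp measurable_subtype_coe
    exact Measurable.prodMk (Measurable.prodMk (measurable_pi_lambda _ fun k => meas_top hf k)
      (Measurable.prodMk (meas_inf hf) (Measurable.prodMk (meas_lst hf)
        (measurable_pi_lambda _ fun k => meas_junk hf k))))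
      (measurable_pi_lambda _ fun k => meas_bits hf k)
  · intro A B
    have h1 := iso_iff (p := pE) trivial full A.1 B.1 A.2 B.2
    rw [h1]
    constructor
    · rintro ⟨g1, g2, g3, g4, g5⟩
      refine ⟨Prod.ext (funext fun k => propext (g1 k)) (Prod.ext (propext g2)
        (Prod.ext (propext g3) (funext fun j => propext (g4 j)))), g5⟩
    · rintro ⟨g1, g5⟩
      simp only [Prod.mk.injEq] at g1
      obtain ⟨g1, g2, g3, g4⟩ := g1
      exact ⟨fun k => (congrFun g1 k).to_iff, g2.to_iff, g3.to_iff, fun j => (congrFun g4 j).to_iff, g5⟩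

theorem nonred (g : {S : (Lg pE.ar).Structure ℕ // ℕ ⊨ T0} → (ℕ → Bool))
    (hg : @Measurable _ _ (@Subtype.instMeasurableSpace _ _ (mS (Lg pE.ar))) _ g)
    (hg2 : ∀ A B : {S : (Lg pE.ar).Structure ℕ // ℕ ⊨ T0},
            (Nonempty (@FirstOrder.Language.Equiv (Lg pE.ar) ℕ ℕ A.1 B.1) ↔ g A = g B)) : False := by
  apply e0_not_smooth
  refine ⟨fun x => g ⟨Mx fun k => x k = true, Mx_model _⟩, ?_, fun x y => ?_⟩
  · let _ := mS (Lg pE.ar)
    exact hg.comp (Measurable.subtype_mk Mx_meas)
  · rw [← hg2, Mx_iso]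
    have : {k | ¬ ((x k = true) ↔ (y k = true))} = {n | x n ≠ y n} := by
      ext k
      cases x k <;> cases y k <;> simp
    rw [this]

end aux

/-- The negation of the preceding statement: For every countable language and theory T, if isomorphism of T's models on ℕ is Borel reducible to a countable Borel equivalence relation on a standard Borel space, then it is Borel reducible to equality on Cantor space. -/
theorem result :
    ¬ (∀ (L : FirstOrder.Language.{0,0}), Countable L.Symbols → ∀ (T : L.Theory)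
    (m : MeasurableSpace (L.Structure ℕ)),
    m = MeasurableSpace.comap
      (fun S : L.Structure ℕ =>
        (((fun n (f : L.Functions n) =>
            FirstOrder.Language.Structure.funMap (L := L) (M := ℕ) f),
          (fun n (r : L.Relations n) =>
            FirstOrder.Language.Structure.RelMap (L := L) (M := ℕ) r)) :
          ((n : ℕ) → L.Functions n → (Fin n → ℕ) → ℕ) ×
          ((n : ℕ) → L.Relations n → (Fin n → ℕ) → Prop)))
      (inferInstance : MeasurableSpace
          (((n : ℕ) → L.Functions n → (Fin n → ℕ) → ℕ) ×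
          ((n : ℕ) → L.Relations n → (Fin n → ℕ) → Prop))) →
    (∃ (Y : Type) (mY : MeasurableSpace Y), StandardBorelSpace Y ∧
      ∃ (E : Y → Y → Prop), Equivalence E ∧
        MeasurableSet {p : Y × Y | E p.1 p.2} ∧
        (∀ y : Y, ({z : Y | E y z} : Set Y).Countable) ∧
        ∃ f : {S : L.Structure ℕ // ℕ ⊨ T} → Y, Measurable f ∧
          ∀ A B : {S : L.Structure ℕ // ℕ ⊨ T},
            (Nonempty (@FirstOrder.Language.Equiv L ℕ ℕ A.1 B.1) ↔ E (f A) (f B))) →
    ∃ g : {S : L.Structure ℕ // ℕ ⊨ T} → (ℕ → Bool), Measurable g ∧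
      ∀ A B : {S : L.Structure ℕ // ℕ ⊨ T},
        (Nonempty (@FirstOrder.Language.Equiv L ℕ ℕ A.1 B.1) ↔ g A = g B)) := by
  intro h
  obtain ⟨g, hg, hg2⟩ := h (Pool.Agent.Y567.MD.Lg Pool.Agent.Y567.MD.StdE.pE.ar) inferInstance T0
    (Pool.Agent.Y567.MD.mS (Pool.Agent.Y567.MD.Lg Pool.Agent.Y567.MD.StdE.pE.ar)) rfl red
  exact nonred g hg hg2

end Pool.Agent.S15524
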