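import Pool.Statements.S15550
import Mathlib

set_option autoImplicit false
open Pool Pool.MP_e6ce3e_lc

namespace Pool.Agent.S15550

open Set Cardinal

/-- A linear order without uncountable well-ordered subsets, all of whose initial segments
`Iic x` are countable, is countable. -/
lemma countable_of_Iic {α : Type} [LinearOrder α]
    (h1 : ∀ S : Set α, S.WellFoundedOn (· < ·) → S.Countable)
    (h2 : ∀ x : α, (Iic x).Countable) : (univ : Set α).Countable := by
  set S : Set α := { a | ∀ b, WellOrderingRel b a → b < a } with hS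
  have hcof : IsCofinal S := isCofinal_setOfPred_imp_lt WellOrderingRel
  have hwf : S.WellFoundedOn (· < ·) := by
    rw [Set.wellFoundedOn_iff]
    have : ∀ a b : α, (a < b ∧ a ∈ S ∧ b ∈ S) → WellOrderingRel a b := by
      rintro a b ⟨hab, ha, hb⟩
      rcases trichotomous_of WellOrderingRel a b with h | h | h
      · exact h
      · exact absurd h hab.ne
      · exact absurd (ha b h) (not_lt.2 hab.le)
    exact Subrelation.wf (fun {a b} h => this a b h) (IsWellFounded.wf (r := WellOrderingRel))
  have hc : S.Countable := h1 S hwf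
  have hU : (Set.univ : Set α) ⊆ ⋃ x ∈ S, Iic x := by
    intro a _
    obtain ⟨b, hb, hab⟩ := hcof a
    exact mem_biUnion hb hab
  exact (hc.biUnion fun x _ => h2 x).mono hU

/-- The same for a subset. -/
lemma countable_of_up {L : Type} [LinearOrder L]
    (h1 : ∀ S : Set L, S.WellFoundedOn (· < ·) → S.Countable) (C : Set L)
    (h2 : ∀ x ∈ C, (C ∩ Iic x).Countable) : C.Countable := by
  have key : (univ : Set C).Countable := by
    refine countable_of_Iic ?_ ?_
    · intro S hS
      have : ((fun x : C => (x : L)) '' S).Countable := by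
        apply h1
        rw [Set.wellFoundedOn_iff] at hS ⊢
        rw [WellFounded.wellFounded_iff_has_min] at hS ⊢
        intro A hA
        by_cases hne : ∃ x ∈ A, x ∈ (fun x : C => (x : L)) '' S
        · obtain ⟨x, hxA, y, hyS, rfl⟩ := hne
          obtain ⟨m, hm, hmin⟩ := hS {z : C | (z : L) ∈ A ∧ z ∈ S} ⟨y, hxA, hyS⟩
          refine ⟨m, hm.1, ?_⟩
          rintro z hz ⟨hlt, ⟨w, hw, rfl⟩, -⟩
          exact hmin w ⟨hz, hw⟩ ⟨hlt, hw, hm.2⟩
        · push Not at hne
          obtain ⟨x, hx⟩ := hA
          exact ⟨x, hx, fun z hz ⟨_, h, _⟩ => hne z hz h⟩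
      have h9 := this.preimage (f := (fun x : C => (x : L))) Subtype.val_injective
      refine h9.mono ?_
      intro x hx
      exact mem_preimage.2 (mem_image_of_mem _ hx)
    · intro x
      have h3 := h2 x x.2
      have h9 := h3.preimage (f := (fun x : C => (x : L))) Subtype.val_injective
      refine h9.mono ?_
      intro y hy
      exact mem_preimage.2 (mem_inter y.2 hy)
  have := key.image (Subtype.val : C → L)
  rwa [image_univ, Subtype.range_coe] at this

lemma countable_of_down {L : Type} [LinearOrder L]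
    (h1 : ∀ S : Set L, S.WellFoundedOn (· > ·) → S.Countable) (C : Set L)
    (h2 : ∀ x ∈ C, (C ∩ Ici x).Countable) : C.Countable :=
  countable_of_up (L := Lᵒᵈ) (fun S hS => h1 S hS) C h2

/-- Monotone surjection onto the rationals. -/
lemma key {L : Type} [LinearOrder L]
    (h1 : ∀ S : Set L, S.WellFoundedOn (· < ·) → S.Countable)
    (h2 : ∀ S : Set L, S.WellFoundedOn (· > ·) → S.Countable)
    (h3 : Cardinal.aleph 1 ≤ Cardinal.mk L) :
    ∃ g : ℚ → L, StrictMono g ∧ ∀ q q', q < q' → ¬ (Ioo (g q) (g q')).Countable := by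
  classical
  -- the equivalence relation: the closed interval between is countable
  let s : Setoid L :=
    { r := fun x y => (uIcc x y).Countable
      iseqv := ⟨fun x => by simp, fun {x y} h => by rwa [uIcc_comm], fun {x y z} h h' =>
        (h.union h').mono uIcc_subset_uIcc_union_uIcc⟩ }
  have hs : ∀ x y : L, s.r x y ↔ (uIcc x y).Countable := fun x y => Iff.rfl
  -- classes are countable
  have hcls : ∀ x : L, {y | (uIcc x y).Countable}.Countable := by
    intro x
    have hup : ({y | (uIcc x y).Countable} ∩ Ici x).Countable := by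
      apply countable_of_up h1
      rintro y ⟨hy, hxy⟩
      refine hy.mono ?_
      rintro z ⟨⟨-, hz⟩, hzy⟩
      rw [uIcc_of_le hxy]
      exact ⟨hz, hzy⟩
    have hdown : ({y | (uIcc x y).Countable} ∩ Iic x).Countable := by
      apply countable_of_down h2
      rintro y ⟨hy, hxy⟩
      refine hy.mono ?_
      rintro z ⟨⟨-, hz⟩, hzy⟩
      rw [uIcc_of_ge hxy]
      exact ⟨hzy, hz⟩
    refine (hup.union hdown).mono ?_
    intro y hy
    rcases le_total x y with h | h
    · exact Or.inl ⟨hy, h⟩
    · exact Or.inr ⟨hy, h⟩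
  -- representatives
  let rep : L → L := fun x => (Quotient.out (Quotient.mk s x))
  have hrep : ∀ x, (uIcc (rep x) x).Countable := fun x => Quotient.mk_out (s := s) x
  have hrep2 : ∀ x y, (uIcc x y).Countable → rep x = rep y := by
    intro x y h
    have : Quotient.mk s x = Quotient.mk s y := Quotient.sound h
    simp only [rep, this]
  let R : Set L := range rep
  have hR : ∀ x ∈ R, ∀ y ∈ R, x < y → ¬ (Icc x y).Countable := by
    rintro _ ⟨x, rfl⟩ _ ⟨y, rfl⟩ hlt hc
    rw [← uIcc_of_le hlt.le] at hc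
    have h4 : (uIcc x y).Countable := by
      have h5 : (uIcc x (rep x)).Countable := by rw [uIcc_comm]; exact hrep x
      exact ((h5.union hc).union (hrep y)).mono
        (uIcc_subset_uIcc_union_uIcc.trans
          (union_subset (subset_union_left.trans subset_union_left)
            (uIcc_subset_uIcc_union_uIcc.trans
              (union_subset (subset_union_right.trans subset_union_left)
                subset_union_right))))
    exact hlt.ne (hrep2 x y h4)
  have hdense : DenselyOrdered R := by
    refine ⟨fun a b hab => ?_⟩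
    have hab' : (a : L) < b := hab
    have h5 := hR a a.2 b b.2 hab'
    have h6 : ¬ (Icc (a : L) b ⊆ {y | (uIcc (a : L) y).Countable} ∪ {y | (uIcc (b : L) y).Countable}) :=
      fun h => h5 (((hcls a).union (hcls b)).mono h)
    obtain ⟨z, hz, hz'⟩ := not_subset.1 h6
    simp only [mem_union, mem_ofPred_eq, not_or] at hz'
    refine ⟨⟨rep z, z, rfl⟩, ?_, ?_⟩
    · show (a : L) < rep z
      by_contra hcon
      push Not at hcon
      apply hz'.1
      refine (hrep z).mono ?_
      rw [uIcc_of_le hz.1, uIcc_of_le (hcon.trans hz.1)]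
      exact Icc_subset_Icc_left hcon
    · show rep z < b
      by_contra hcon
      push Not at hcon
      apply hz'.2
      refine (hrep z).mono ?_
      rw [uIcc_of_ge hz.2, uIcc_of_ge (hz.2.trans hcon)]
      exact Icc_subset_Icc_right hcon
  have hLunc : ¬ (univ : Set L).Countable := by
    intro h
    rw [Set.countable_univ_iff, ← Cardinal.mk_le_aleph0_iff] at h
    exact absurd (h3.trans h) (not_le.2 aleph0_lt_aleph_one)
  have hRunc : ¬ R.Countable := by
    intro h
    apply hLunc
    have : (univ : Set L) ⊆ ⋃ r ∈ R, {y | (uIcc r y).Countable} := by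
      intro x _
      exact mem_biUnion ⟨x, rfl⟩ (hrep x)
    exact (h.biUnion fun r _ => hcls r).mono this
  have hnt : Nontrivial R := by
    by_contra hcon
    rw [not_nontrivial_iff_subsingleton] at hcon
    exact hRunc (Set.countable_coe_iff.1 inferInstance)
  obtain ⟨g⟩ := Order.embedding_from_countable_to_dense ℚ R
  refine ⟨fun q => g q, fun a b h => ?_, ?_⟩
  · exact (g.lt_iff_lt.2 h : g a < g b)
  · intro q q' h hc
    have h7 : (g q : L) < g q' := (g.lt_iff_lt.2 h : g q < g q')
    apply hR (g q) (g q).2 (g q') (g q').2 h7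
    have : Icc (g q : L) (g q') ⊆ {(g q : L)} ∪ Ioo (g q : L) (g q') ∪ {(g q' : L)} := by
      rintro z ⟨hz1, hz2⟩
      rcases hz1.eq_or_lt with h | h
      · left; left; exact h.symm
      · rcases hz2.eq_or_lt with h' | h'
        · right; exact h'
        · left; right; exact ⟨h, h'⟩
    exact (((countable_singleton _).union hc).union (countable_singleton _)).mono this

/-- The negation of the preceding statement: There is a linear order L with no uncountable well-ordered or reverse-well-ordered subset, of size at least aleph_1, mapping monotonically onto every size-aleph_1 linear order embeddable in it, but with no monotone surjection onto the rationals. -/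
theorem result :
    ¬ (∃ (L : Type) (_ : LinearOrder L),
      (∀ S : Set L, S.WellFoundedOn (· < ·) → S.Countable) ∧
      (∀ S : Set L, S.WellFoundedOn (· > ·) → S.Countable) ∧
      Cardinal.aleph 1 ≤ Cardinal.mk L ∧
      (∀ (K : Type) [LinearOrder K], Cardinal.mk K = Cardinal.aleph 1 →
          Nonempty (K ↪o L) → ∃ f : L → K, Monotone f ∧ Function.Surjective f) ∧
      ¬ ∃ f : L → ℚ, Monotone f ∧ Function.Surjective f) := by
  classical
  rintro ⟨L, hL, h1, h2, h3, h4, h5⟩
  apply h5
  obtain ⟨g, hg, hg'⟩ := key h1 h2 h3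
  -- a set `E` of size `ℵ₁` between `g 0` and `g 1`
  have hE1 : Cardinal.aleph 1 ≤ #(Ioo (g 0) (g 1)) := by
    by_contra hcon
    push Not at hcon
    exact hg' 0 1 (by norm_num) ((Cardinal.countable_iff_lt_aleph_one _).2 hcon)
  obtain ⟨E, hE, hEc⟩ := Cardinal.le_mk_iff_exists_subset.1 hE1
  -- the suborder
  let K : Set L := E ∪ (g '' {q | q ≤ 0} ∪ g '' {q | 1 ≤ q})
  have hcount : (g '' {q | q ≤ 0} ∪ g '' {q | 1 ≤ q}).Countable :=
    ((Set.to_countable _).image g).union ((Set.to_countable _).image g)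
  have hK : #K = Cardinal.aleph 1 := by
    apply le_antisymm
    · refine (mk_union_le _ _).trans ?_
      rw [hEc]
      refine (add_le_add_right (hcount.le_aleph0) _).trans ?_
      rw [Cardinal.add_eq_left (aleph0_le_aleph 1) (aleph0_le_aleph 1)]
    · rw [← hEc]
      exact Cardinal.mk_le_mk_of_subset subset_union_left
  obtain ⟨f, hf, hfs⟩ := h4 K hK ⟨OrderEmbedding.subtype _⟩
  -- the monotone surjection from `K` onto `ℚ`
  let φ : L → ℚ := fun x =>
    if h : ∃ q, q ≤ 0 ∧ g q = x then h.choose
    else if h : ∃ q, 1 ≤ q ∧ g q = x then h.choose - 1 else 0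
  have hφ1 : ∀ q, q ≤ 0 → φ (g q) = q := by
    intro q hq
    have h : ∃ q', q' ≤ 0 ∧ g q' = g q := ⟨q, hq, rfl⟩
    have : φ (g q) = h.choose := by simp only [φ, dif_pos h]
    rw [this]
    exact hg.injective h.choose_spec.2
  have hφ2 : ∀ q, 1 ≤ q → φ (g q) = q - 1 := by
    intro q hq
    have h0 : ¬ ∃ q', q' ≤ 0 ∧ g q' = g q := by
      rintro ⟨q', hq', he⟩
      have := hg.injective he
      linarith
    have h : ∃ q', 1 ≤ q' ∧ g q' = g q := ⟨q, hq, rfl⟩
    have : φ (g q) = h.choose - 1 := by simp only [φ, dif_neg h0, dif_pos h]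
    rw [this, hg.injective h.choose_spec.2]
  have hφ3 : ∀ x ∈ Ioo (g 0) (g 1), φ x = 0 := by
    intro x hx
    have h0 : ¬ ∃ q', q' ≤ 0 ∧ g q' = x := by
      rintro ⟨q', hq', rfl⟩
      exact absurd (hg.le_iff_le.2 hq') (not_le.2 hx.1)
    have h : ¬ ∃ q', 1 ≤ q' ∧ g q' = x := by
      rintro ⟨q', hq', rfl⟩
      exact absurd (hg.le_iff_le.2 hq') (not_le.2 hx.2)
    simp only [φ, dif_neg h0, dif_neg h]
  have hmono : ∀ x ∈ K, ∀ y ∈ K, x ≤ y → φ x ≤ φ y := by
    rintro x (hx | ⟨q, hq, rfl⟩ | ⟨q, hq, rfl⟩) y (hy | ⟨q', hq', rfl⟩ | ⟨q', hq', rfl⟩) hxy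
    · rw [hφ3 x (hE hx), hφ3 y (hE hy)]
    · exact absurd (((hE hx).1.trans_le hxy).trans_le (hg.le_iff_le.2 hq')) (lt_irrefl _)
    · rw [hφ3 x (hE hx), hφ2 q' hq']
      simp only [mem_ofPred_eq] at hq'; linarith
    · rw [hφ3 y (hE hy), hφ1 q hq]; exact hq
    · rw [hφ1 q hq, hφ1 q' hq']; exact hg.le_iff_le.1 hxy
    · rw [hφ1 q hq, hφ2 q' hq']
      simp only [mem_ofPred_eq] at hq hq'; linarith
    · exact absurd ((hg.le_iff_le.2 hq).trans (hxy.trans (hE hy).2.le)) (by
        intro h
        exact absurd ((hg.le_iff_le.2 hq).trans hxy) (not_le.2 (hE hy).2))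
    · have := hg.le_iff_le.1 hxy
      simp only [mem_ofPred_eq] at hq hq'; linarith
    · rw [hφ2 q hq, hφ2 q' hq']
      have := hg.le_iff_le.1 hxy
      linarith
  refine ⟨fun x => φ (f x), fun x y hxy => hmono _ (f x).2 _ (f y).2 (hf hxy), fun q => ?_⟩
  rcases le_or_gt q 0 with hq | hq
  · obtain ⟨x, hx⟩ := hfs ⟨g q, Or.inr (Or.inl ⟨q, hq, rfl⟩)⟩
    exact ⟨x, by simp only [hx]; exact hφ1 q hq⟩
  · have hq1 : (1 : ℚ) ≤ q + 1 := by linarith
    obtain ⟨x, hx⟩ := hfs ⟨g (q + 1), Or.inr (Or.inr ⟨q + 1, hq1, rfl⟩)⟩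
    exact ⟨x, by simp only [hx]; rw [hφ2 _ hq1]; ring⟩

end Pool.Agent.S15550
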