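import Pool.Statements.S15671
import Pool.Agent.Y661.PP.Fin

set_option autoImplicit false
open MeasureTheory
open Pool Pool.MP_0eac64_mp

namespace Pool.Agent.S15671

/-- For every Cantor group with a minimal translation by α, some dense set of continuous real f exists such that, for Haar-a.e. ω, the ℓ² eigenvectors of the Schrödinger operator with potential f(ω+nα) span a dense subspace of ℓ²(ℤ). -/
theorem result :
    ∀ (Ω : Type) [AddCommGroup Ω] [TopologicalSpace Ω] [IsTopologicalAddGroup Ω]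
      [CompactSpace Ω] [T2Space Ω] [TotallyDisconnectedSpace Ω]
      [TopologicalSpace.MetrizableSpace Ω] [Infinite Ω]
      [MeasurableSpace Ω] [BorelSpace Ω]
      (μ : Measure Ω) [μ.IsAddHaarMeasure] (α : Ω),
      Dense (Set.range (fun n : ℤ => n • α)) →
      ∃ D : Set C(Ω, ℝ), Dense D ∧
        ∀ f ∈ D, ∀ᵐ ω ∂μ,
          (Submodule.span ℂ
            {ψ : lp (fun _ : ℤ => ℂ) 2 |
              ∃ E : ℝ, ∀ n : ℤ,
                ψ (n + 1) + ψ (n - 1) + (f (ω + n • α) : ℂ) * ψ n = (E : ℂ) * ψ n}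
            ).topologicalClosure = ⊤ := by
  intro Ω _ _ _ _ _ _ _ _ _ _ μ _ α hd
  choose H hH1 hH2 hH3 using fun k : ℕ =>
    Pool.Agent.Y661.PP.taskGroup Ω α hd (2 * 16 ^ k)
  haveI : ∀ k, Fintype (Ω ⧸ H k) := fun k => @Fintype.ofFinite _ (hH2 k)
  refine ⟨{f | ∀ᵐ ω ∂μ, (Submodule.span ℂ
            {ψ : lp (fun _ : ℤ => ℂ) 2 |
              ∃ E : ℝ, ∀ n : ℤ,
                ψ (n + 1) + ψ (n - 1) + (f (ω + n • α) : ℂ) * ψ n = (E : ℂ) * ψ n}
            ).topologicalClosure = ⊤}, ?_, fun f hf => hf⟩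
  rw [Metric.dense_iff]
  intro f₀ δ hδ
  obtain ⟨f, hf1, hf2⟩ := Pool.Agent.Y661.PP.main_abs μ α (fun k => Ω ⧸ H k)
    (fun k ω => (QuotientAddGroup.mk ω : Ω ⧸ H k)) (by
      intro k g
      haveI : DiscreteTopology (Ω ⧸ H k) := QuotientAddGroup.discreteTopology (hH1 k)
      exact (continuous_of_discreteTopology (f := g)).comp QuotientAddGroup.continuous_mk) (by
      intro k ω m n hn n' hn' hnn
      by_contra hne
      have h1 : (n' - n) • α ∈ H k := by
        have h2 := QuotientAddGroup.eq.1 hnn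
        have h3 : -(ω + (m + n) • α) + (ω + (m + n') • α) = (n' - n) • α := by
          rw [sub_smul, add_smul, add_smul]
          abel
        rwa [h3] at h2
      refine hH3 k (n' - n) (sub_ne_zero.2 (Ne.symm hne)) ?_ h1
      have h4 := hn.1
      have h5 := hn.2
      have h6 := hn'.1
      have h7 := hn'.2
      rw [abs_le]
      push_cast at *
      constructor <;> linarith) f₀ δ hδ
  refine ⟨f, ?_, hf2⟩
  rw [Metric.mem_ball, dist_eq_norm]
  exact hf1

end Pool.Agent.S15671
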