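import Pool.Statements.S15828
import Pool.Agent.Y655.FC.Main

set_option autoImplicit false
open Pool Pool.MP_f387d3_mp

namespace Pool.Agent.S15828

/-- The negation of the preceding statement: In the basic Feynman checkers model, with P(x,t) the squared norm of the checker-path amplitude at time t=n+1, there is a constant C such that every maximiser x of P(·,t) is within C of t/√2, for all t. -/
theorem result :
    ¬ (∃ C : ℝ, ∀ n : ℕ, ∀ x : ℤ,
      (∀ y : ℤ,
        (2:ℝ) ^ (-(n:ℤ)) *
          ‖∑ s ∈ Finset.univ.filter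
              (fun s : Fin (n+1) → Bool =>
                s 0 = true ∧ ∑ i, (if s i then (1:ℤ) else -1) = y),
            (-Complex.I) ^ ((Finset.univ.filter
              (fun i : Fin n => s i.castSucc ≠ s i.succ)).card)‖ ^ 2
        ≤
        (2:ℝ) ^ (-(n:ℤ)) *
          ‖∑ s ∈ Finset.univ.filter
              (fun s : Fin (n+1) → Bool =>
                s 0 = true ∧ ∑ i, (if s i then (1:ℤ) else -1) = x),
            (-Complex.I) ^ ((Finset.univ.filter
              (fun i : Fin n => s i.castSucc ≠ s i.succ)).card)‖ ^ 2) →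
      |(x:ℝ) - ((n:ℝ) + 1) / Real.sqrt 2| ≤ C) := by
  rintro ⟨C, h⟩
  obtain ⟨n, hn⟩ := Pool.Agent.Y655.FC.no_max_near C
  obtain ⟨x, hx⟩ := Pool.Agent.Y655.FC.exists_max n
  refine absurd (h n x fun y => ?_) (not_le.mpr (hn x hx))
  rw [Pool.Agent.Y655.FC.pathSum, Pool.Agent.Y655.FC.pathSum, Pool.Agent.Y655.FC.norm_sq,
    Pool.Agent.Y655.FC.norm_sq]
  exact mul_le_mul_of_nonneg_left (hx y) (by positivity)

end Pool.Agent.S15828
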