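import Pool.Statements.S16586
import Pool.Agent.H819R3.NR4

set_option autoImplicit false
open Pool Pool.MP_38ccf3_nt
open Filter Topology

namespace Pool.Agent.S16586

open Pool.Agent.H819R3.NR

attribute [local irreducible] P e m

/-- The number of `n < N` such that the base 2 window of length `k` at `n` is `a`. -/
noncomputable def win (k N : ℕ) (a : ℤ) : ℕ :=
  ((Finset.range N).filter
    (fun n : ℕ => ⌊((2 : ℕ) : ℝ) ^ (n + k) * (XX 2)⁻¹⌋ % ((2 : ℕ) : ℤ) ^ k = a)).card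

lemma win_upper (k : ℕ) (ε : ℝ) (hε : 0 < ε) : ∃ N0 : ℕ, ∀ N : ℕ, N0 ≤ N → ∀ a : ℤ,
    (win k N a : ℝ) / N ≤ 1 / (2 : ℝ) ^ k + ε := by
  obtain ⟨N0, hN0⟩ := freq_upper 2 k (le_refl 2) ε hε
  refine ⟨N0, fun N hN a => ?_⟩
  have h := hN0 N hN a
  have e1 : win k N a = ((Finset.range N).filter (fun n =>
      ⌊((2 : ℕ) : ℝ) ^ n * (XX 2)⁻¹ * ((2 ^ k : ℕ) : ℝ)⌋ % ((2 ^ k : ℕ) : ℤ) = a)).card := by
    unfold win
    congr 1
    apply Finset.filter_congr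
    intro n _
    have e2 : ((2 : ℕ) : ℝ) ^ n * (XX 2)⁻¹ * ((2 ^ k : ℕ) : ℝ) =
        ((2 : ℕ) : ℝ) ^ (n + k) * (XX 2)⁻¹ := by
      push_cast
      rw [pow_add]
      ring
    rw [e2]
    push_cast
    exact Iff.rfl
  rw [e1]
  refine h.trans ?_
  push_cast
  exact le_refl _

lemma win_sum (k N : ℕ) (hN : 0 < N) :
    ∑ a ∈ Finset.range (2 ^ k), (win k N (a : ℤ) : ℝ) / N = 1 := by
  have hNR : (0 : ℝ) < (N : ℝ) := by exact_mod_cast hN
  rw [← Finset.sum_div, div_eq_one_iff_eq hNR.ne']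
  set f : ℕ → ℕ := fun n => (⌊((2 : ℕ) : ℝ) ^ (n + k) * (XX 2)⁻¹⌋ % ((2 : ℕ) : ℤ) ^ k).toNat with hf
  have hpos : (0 : ℤ) < ((2 : ℕ) : ℤ) ^ k := by positivity
  have hmem : ∀ n ∈ Finset.range N, f n ∈ Finset.range (2 ^ k) := by
    intro n _
    rw [Finset.mem_range, hf]
    have h1 := Int.emod_lt_of_pos ⌊((2 : ℕ) : ℝ) ^ (n + k) * (XX 2)⁻¹⌋ hpos
    have h2 := Int.emod_nonneg ⌊((2 : ℕ) : ℝ) ^ (n + k) * (XX 2)⁻¹⌋ hpos.ne'
    have h3 : (((2 : ℕ) : ℤ) ^ k) = ((2 ^ k : ℕ) : ℤ) := by push_cast; rfl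
    rw [h3] at h1
    show (⌊((2 : ℕ) : ℝ) ^ (n + k) * (XX 2)⁻¹⌋ % ((2 : ℕ) : ℤ) ^ k).toNat < 2 ^ k
    rw [h3] at h2 ⊢
    omega
  have h := Finset.card_eq_sum_card_fiberwise (s := Finset.range N) (t := Finset.range (2 ^ k))
    (f := f) (fun n hn => Finset.mem_coe.mpr (hmem n hn))
  rw [Finset.card_range] at h
  have h2 : ∀ a ∈ Finset.range (2 ^ k), win k N (a : ℤ) =
      ((Finset.range N).filter (fun n => f n = a)).card := by
    intro a _
    unfold win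
    congr 1
    apply Finset.filter_congr
    intro n _
    have h3 := Int.emod_nonneg ⌊((2 : ℕ) : ℝ) ^ (n + k) * (XX 2)⁻¹⌋ hpos.ne'
    show _ ↔ (⌊((2 : ℕ) : ℝ) ^ (n + k) * (XX 2)⁻¹⌋ % ((2 : ℕ) : ℤ) ^ k).toNat = a
    omega
  have h4 : ∑ a ∈ Finset.range (2 ^ k), win k N (a : ℤ) = N := by
    rw [Finset.sum_congr rfl h2]
    exact h.symm
  exact_mod_cast h4

/-- The number `1 / XX 2` is normal in base 2. -/
lemma normal_two (k : ℕ) (a : ℤ) (ha0 : 0 ≤ a) (ha : a < ((2 : ℕ) : ℤ) ^ k) :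
    Tendsto (fun N : ℕ => (win k N a : ℝ) / (N : ℝ)) atTop (𝓝 (1 / (2 : ℝ) ^ k)) := by
  rw [Metric.tendsto_atTop]
  intro δ hδ
  set R : ℝ := (2 : ℝ) ^ k with hR
  have hR1 : (1 : ℝ) ≤ R := one_le_pow₀ (by norm_num)
  obtain ⟨N0, hN0⟩ := win_upper k (δ / (2 * R)) (by positivity)
  refine ⟨N0 + 1, fun N hN => ?_⟩
  have hNpos : 0 < N := by omega
  have hb := hN0 N (by omega)
  obtain ⟨a', rfl⟩ := Int.eq_ofNat_of_zero_le ha0
  have hmem : a' ∈ Finset.range (2 ^ k) := by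
    rw [Finset.mem_range]
    exact_mod_cast ha
  set p : ℕ → ℝ := fun a => (win k N (a : ℤ) : ℝ) / (N : ℝ) with hp
  have hsum : ∑ a ∈ Finset.range (2 ^ k), p a = 1 := win_sum k N hNpos
  have hb' : ∀ a : ℕ, p a ≤ 1 / R + δ / (2 * R) := fun a => hb a
  have hsplit := Finset.add_sum_erase (Finset.range (2 ^ k)) p hmem
  rw [hsum] at hsplit
  have hcard : (((Finset.range (2 ^ k)).erase a').card : ℝ) = R - 1 := by
    rw [Finset.card_erase_of_mem hmem, Finset.card_range, Nat.cast_sub (Nat.one_le_pow _ _ (by omega))]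
    push_cast
    rfl
  have hle : ∑ w' ∈ (Finset.range (2 ^ k)).erase a', p w' ≤ (R - 1) * (1 / R + δ / (2 * R)) := by
    calc ∑ w' ∈ (Finset.range (2 ^ k)).erase a', p w' ≤
          ∑ w' ∈ (Finset.range (2 ^ k)).erase a', (1 / R + δ / (2 * R)) :=
          Finset.sum_le_sum (fun w' _ => hb' w')
      _ = _ := by rw [Finset.sum_const, nsmul_eq_mul, hcard]
  have e1 : (R - 1) * (1 / R + δ / (2 * R)) = 1 - 1 / R + δ / 2 - δ / (2 * R) := by
    field_simp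
    ring
  have e2 : 0 < δ / (2 * R) := by positivity
  have e3 : δ / (2 * R) ≤ δ / 2 := by
    apply div_le_div_of_nonneg_left hδ.le (by norm_num)
    linarith
  have hw := hb' a'
  rw [Real.dist_eq, abs_lt]
  show -δ < p a' - 1 / R ∧ p a' - 1 / R < δ
  constructor <;> linarith

/-- Almost all base 2 digits of `XX 2` are equal to 1, so zero has frequency 0. -/
lemma zero_freq : ¬ Tendsto (fun N : ℕ =>
      (((Finset.range N).filter
        (fun n : ℕ => ⌊((2 : ℕ) : ℝ) ^ (n + 1) * XX 2⌋ % ((2 : ℕ) : ℤ) ^ 1 = 0)).card : ℝ) / (N : ℝ))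
      atTop (𝓝 (1 / ((2 : ℕ) : ℝ) ^ 1)) := by
  intro h
  rw [Metric.tendsto_atTop] at h
  obtain ⟨N1, hN1⟩ := h (1 / 4) (by norm_num)
  set N : ℕ := N1 + m 2 8 + 1 with hN
  have h1 := hN1 N (by omega)
  have h2 := cnt_ratio 2 8 N (le_refl 2) (by omega) (by omega)
  have h3 : ((Finset.range N).filter
        (fun n : ℕ => ⌊((2 : ℕ) : ℝ) ^ (n + 1) * XX 2⌋ % ((2 : ℕ) : ℤ) ^ 1 = 0)).card ≤ cnt 2 N := by
    unfold cnt
    apply Finset.card_le_card
    intro n hn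
    rw [Finset.mem_filter] at hn ⊢
    refine ⟨hn.1, ?_⟩
    have h4 := hn.2
    rw [pow_one, mul_comm] at h4
    rw [h4]
    norm_num
  have hNR : (0 : ℝ) < (N : ℝ) := by
    have : 0 < N := by omega
    exact_mod_cast this
  have h5 : ((((Finset.range N).filter
        (fun n : ℕ => ⌊((2 : ℕ) : ℝ) ^ (n + 1) * XX 2⌋ % ((2 : ℕ) : ℤ) ^ 1 = 0)).card : ℕ) : ℝ) / N ≤
      (cnt 2 N : ℝ) / N := by
    apply div_le_div_of_nonneg_right _ hNR.le
    exact_mod_cast h3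
  rw [Real.dist_eq, abs_lt] at h1
  have h6 := h1.1
  push_cast at h2 h6
  norm_num at h2 h6
  push_cast at h5
  linarith

/-- The negation of the preceding statement: For every base r ≥ 2 and every real x, if every k-block (k ≥ 1, 0 ≤ m < r^k) occurs among x's fractional base-r digit windows with limiting frequency r^(-k), then the same holds for x⁻¹. -/
theorem result :
    ¬ (∀ r : ℕ, 2 ≤ r → ∀ x : ℝ,
      (∀ k : ℕ, 1 ≤ k → ∀ m : ℤ, 0 ≤ m → m < (r : ℤ) ^ k →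
        Tendsto (fun N : ℕ =>
          (((Finset.range N).filter
              (fun n : ℕ => ⌊(r : ℝ) ^ (n + k) * x⌋ % (r : ℤ) ^ k = m)).card : ℝ) / (N : ℝ))
          atTop (𝓝 (1 / (r : ℝ) ^ k))) →
      (∀ k : ℕ, 1 ≤ k → ∀ m : ℤ, 0 ≤ m → m < (r : ℤ) ^ k →
        Tendsto (fun N : ℕ =>
          (((Finset.range N).filter
              (fun n : ℕ => ⌊(r : ℝ) ^ (n + k) * x⁻¹⌋ % (r : ℤ) ^ k = m)).card : ℝ) / (N : ℝ))
          atTop (𝓝 (1 / (r : ℝ) ^ k)))) := by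
  intro H
  have h := H 2 (le_refl 2) (XX 2)⁻¹ (fun k _ a ha0 ha => by
    have := normal_two k a ha0 ha
    unfold win at this
    exact_mod_cast this) 1 (le_refl 1) 0 (le_refl 0) (by norm_num)
  rw [inv_inv] at h
  exact zero_freq h

end Pool.Agent.S16586
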