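import Pool.Statements.S16733

set_option autoImplicit false
open Pool Pool.MP_44e698_nt

namespace Pool.Agent.S16733

open Finset

/-- quadruples `(M, A, n, D)` with `M, A` odd, `n, D > 0` and `M A + 2 n D = N` -/
def Q (N : ℕ) : Finset (ℕ × ℕ × ℕ × ℕ) :=
  ((range (N + 1)) ×ˢ (range (N + 1)) ×ˢ (range (N + 1)) ×ˢ (range (N + 1))).filter
    (fun x => x.1 % 2 = 1 ∧ x.2.1 % 2 = 1 ∧ 0 < x.2.2.1 ∧ 0 < x.2.2.2 ∧
      x.1 * x.2.1 + 2 * x.2.2.1 * x.2.2.2 = N)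

theorem mem_Q {N M A n D : ℕ} : (M, A, n, D) ∈ Q N ↔
    (M % 2 = 1 ∧ A % 2 = 1 ∧ 0 < n ∧ 0 < D ∧ M * A + 2 * n * D = N) := by
  unfold Q
  simp only [mem_filter, mem_product, mem_range]
  constructor
  · rintro ⟨_, h⟩; exact h
  · intro h
    refine ⟨?_, h⟩
    obtain ⟨h1, h2, h3, h4, h5⟩ := h
    have hM : 0 < M := by omega
    have hA : 0 < A := by omega
    refine ⟨?_, ?_, ?_, ?_⟩ <;> nlinarith [Nat.mul_pos hM hA, Nat.mul_pos h3 h4]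

/-- the character modulo four on odd numbers -/
def chi (M : ℕ) : ℤ := if M % 4 = 1 then 1 else -1

theorem chi_neg {M A : ℕ} (h : (M * A) % 4 = 3) : chi M = - chi A := by
  have h1 : M % 4 < 4 := Nat.mod_lt _ (by norm_num)
  have h2 : A % 4 < 4 := Nat.mod_lt _ (by norm_num)
  rw [Nat.mul_mod] at h
  unfold chi
  interval_cases hM : M % 4 <;> interval_cases hA : A % 4 <;> simp_all

theorem step0 (N : ℕ) (hN : N % 4 = 3) :
    ∑ x ∈ (Q N).filter (fun x => x.2.2.1 % 2 = 0), chi x.1 = 0 := by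
  have hswap : ∑ x ∈ (Q N).filter (fun x => x.2.2.1 % 2 = 0), chi x.1
      = ∑ x ∈ (Q N).filter (fun x => x.2.2.1 % 2 = 0), chi x.2.1 := by
    refine Finset.sum_nbij' (fun x => (x.2.1, x.1, x.2.2.1, x.2.2.2))
      (fun x => (x.2.1, x.1, x.2.2.1, x.2.2.2)) ?_ ?_ ?_ ?_ ?_
    · rintro ⟨M, A, n, D⟩ hx
      simp only [mem_filter, mem_Q] at hx ⊢
      refine ⟨⟨hx.1.2.1, hx.1.1, hx.1.2.2.1, hx.1.2.2.2.1, ?_⟩, hx.2⟩
      rw [mul_comm A M]; exact hx.1.2.2.2.2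
    · rintro ⟨M, A, n, D⟩ hx
      simp only [mem_filter, mem_Q] at hx ⊢
      refine ⟨⟨hx.1.2.1, hx.1.1, hx.1.2.2.1, hx.1.2.2.2.1, ?_⟩, hx.2⟩
      rw [mul_comm A M]; exact hx.1.2.2.2.2
    · rintro ⟨M, A, n, D⟩ _; rfl
    · rintro ⟨M, A, n, D⟩ _; rfl
    · rintro ⟨M, A, n, D⟩ _; rfl
  have hneg : ∑ x ∈ (Q N).filter (fun x => x.2.2.1 % 2 = 0), chi x.1
      = ∑ x ∈ (Q N).filter (fun x => x.2.2.1 % 2 = 0), - chi x.2.1 := by
    refine Finset.sum_congr rfl ?_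
    rintro ⟨M, A, n, D⟩ hx
    simp only [mem_filter, mem_Q] at hx
    obtain ⟨⟨_, _, _, _, h5⟩, h6⟩ := hx
    refine chi_neg ?_
    show (M * A) % 4 = 3
    obtain ⟨k, hk⟩ : ∃ k, n = 2 * k := ⟨n / 2, by omega⟩
    subst hk
    have : M * A + 4 * (k * D) = N := by rw [← h5]; ring
    omega
  rw [Finset.sum_neg_distrib, ← hswap] at hneg
  omega

theorem step1 (N : ℕ) :
    ∑ x ∈ (Q N).filter (fun x => x.1 < x.2.2.2 ∧ x.2.2.2 % 2 = 0), chi x.1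
      = ∑ x ∈ (Q N).filter (fun x => x.2.2.1 % 2 = 0 ∧ x.1 < 2 * x.2.2.2), chi x.1 := by
  refine Finset.sum_nbij' (fun x => (x.1, x.2.1, 2 * x.2.2.1, x.2.2.2 / 2))
      (fun x => (x.1, x.2.1, x.2.2.1 / 2, 2 * x.2.2.2)) ?_ ?_ ?_ ?_ ?_
  · rintro ⟨M, A, n, D⟩ hx
    simp only [mem_filter, mem_Q] at hx ⊢
    obtain ⟨⟨h1, h2, h3, h4, h5⟩, h6, h7⟩ := hx
    obtain ⟨k, rfl⟩ : ∃ k, D = 2 * k := ⟨D / 2, by omega⟩
    have hk : 2 * k / 2 = k := by omega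
    rw [hk]
    refine ⟨⟨h1, h2, by omega, by omega, ?_⟩, by omega, by omega⟩
    rw [← h5]; ring
  · rintro ⟨M, A, n, D⟩ hx
    simp only [mem_filter, mem_Q] at hx ⊢
    obtain ⟨⟨h1, h2, h3, h4, h5⟩, h6, h7⟩ := hx
    obtain ⟨k, rfl⟩ : ∃ k, n = 2 * k := ⟨n / 2, by omega⟩
    have hk : 2 * k / 2 = k := by omega
    rw [hk]
    refine ⟨⟨h1, h2, by omega, by omega, ?_⟩, by omega, by omega⟩
    rw [← h5]; ring
  · rintro ⟨M, A, n, D⟩ hx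
    simp only [mem_filter, mem_Q] at hx ⊢
    obtain ⟨_, h6, h7⟩ := hx
    ext <;> simp <;> omega
  · rintro ⟨M, A, n, D⟩ hx
    simp only [mem_filter, mem_Q] at hx ⊢
    obtain ⟨_, h6, h7⟩ := hx
    ext <;> simp <;> omega
  · rintro ⟨M, A, n, D⟩ _; rfl

theorem step2 (N : ℕ) (hN : N % 4 = 3) :
    ∑ x ∈ (Q N).filter (fun x => x.2.2.1 % 2 = 0 ∧ 2 * x.2.2.2 < x.1), chi x.1
      = ∑ x ∈ (Q N).filter (fun x => x.1 < x.2.2.2 ∧ x.2.2.2 % 2 = 1), - chi x.1 := by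
  refine Finset.sum_nbij' (fun x => (x.2.1, x.1 - 2 * x.2.2.2, x.2.2.2, x.2.1 + x.2.2.1))
      (fun x => (x.2.1 + 2 * x.2.2.1, x.1, x.2.2.2 - x.1, x.2.2.1)) ?_ ?_ ?_ ?_ ?_
  · rintro ⟨M, A, n, D⟩ hx
    simp only [mem_filter, mem_Q] at hx ⊢
    obtain ⟨⟨h1, h2, h3, h4, h5⟩, h6, h7⟩ := hx
    obtain ⟨c, rfl⟩ : ∃ c, M = 2 * D + c := ⟨M - 2 * D, by omega⟩
    have hc : 2 * D + c - 2 * D = c := by omega
    rw [hc]
    refine ⟨⟨h2, by omega, h4, by omega, ?_⟩, by omega, by omega⟩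
    rw [← h5]; ring
  · rintro ⟨M, A, n, D⟩ hx
    simp only [mem_filter, mem_Q] at hx ⊢
    obtain ⟨⟨h1, h2, h3, h4, h5⟩, h6, h7⟩ := hx
    obtain ⟨c, rfl⟩ : ∃ c, D = M + c := ⟨D - M, by omega⟩
    have hc : M + c - M = c := by omega
    rw [hc]
    refine ⟨⟨by omega, h1, by omega, h3, ?_⟩, by omega, by omega⟩
    rw [← h5]; ring
  · rintro ⟨M, A, n, D⟩ hx
    simp only [mem_filter, mem_Q] at hx ⊢
    obtain ⟨_, h6, h7⟩ := hx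
    ext <;> simp <;> omega
  · rintro ⟨M, A, n, D⟩ hx
    simp only [mem_filter, mem_Q] at hx ⊢
    obtain ⟨_, h6, h7⟩ := hx
    ext <;> simp <;> omega
  · rintro ⟨M, A, n, D⟩ hx
    simp only [mem_filter, mem_Q] at hx ⊢
    obtain ⟨⟨h1, h2, h3, h4, h5⟩, h6, h7⟩ := hx
    refine chi_neg ?_
    obtain ⟨k, hk⟩ : ∃ k, n = 2 * k := ⟨n / 2, by omega⟩
    subst hk
    have : M * A + 4 * (k * D) = N := by rw [← h5]; ring
    omega

/-- The key identity: the coefficients vanish when `N` is `3` modulo `4`. -/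
theorem key (N : ℕ) (hN : N % 4 = 3) :
    ∑ x ∈ (Q N).filter (fun x => x.1 < x.2.2.2), (-1 : ℤ) ^ x.2.2.2 * chi x.1 = 0 := by
  have hsplit : ∑ x ∈ (Q N).filter (fun x => x.1 < x.2.2.2), (-1 : ℤ) ^ x.2.2.2 * chi x.1
      = ∑ x ∈ (Q N).filter (fun x => x.1 < x.2.2.2 ∧ x.2.2.2 % 2 = 0), chi x.1
        + ∑ x ∈ (Q N).filter (fun x => x.1 < x.2.2.2 ∧ x.2.2.2 % 2 = 1), - chi x.1 := by
    rw [← Finset.sum_filter_add_sum_filter_not _ (fun x => x.2.2.2 % 2 = 0)]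
    rw [Finset.filter_filter, Finset.filter_filter]
    congr 1
    · refine Finset.sum_congr rfl ?_
      intro x hx
      simp only [mem_filter] at hx
      have : Even x.2.2.2 := Nat.even_iff.mpr hx.2.2
      rw [this.neg_one_pow, one_mul]
    · refine Finset.sum_congr ?_ ?_
      · ext x; simp only [mem_filter]; constructor
        · rintro ⟨h1, h2, h3⟩; exact ⟨h1, h2, by omega⟩
        · rintro ⟨h1, h2, h3⟩; exact ⟨h1, h2, by omega⟩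
      · intro x hx
        simp only [mem_filter] at hx
        have : Odd x.2.2.2 := Nat.odd_iff.mpr (by omega)
        rw [this.neg_one_pow]; ring
  rw [hsplit, step1, ← step2 N hN]
  rw [← step0 N hN]
  rw [← Finset.sum_filter_add_sum_filter_not ((Q N).filter (fun x => x.2.2.1 % 2 = 0))
    (fun x => x.1 < 2 * x.2.2.2)]
  rw [Finset.filter_filter, Finset.filter_filter]
  congr 1
  refine Finset.sum_congr ?_ (fun _ _ => rfl)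
  ext ⟨M, A, n, D⟩
  simp only [mem_filter, mem_Q]
  constructor
  · rintro ⟨h1, h2, h3⟩; exact ⟨h1, h2, by omega⟩
  · rintro ⟨h1, h2, h3⟩; exact ⟨h1, h2, by omega⟩


/-- the exponents in the expansion of `Y` -/
def e (i : (ℕ × ℕ) × (ℕ × ℕ)) : ℕ :=
  2 * (i.1.1 + 1) * (i.1.2 + 1) + (i.1.1 + 1) + i.2.1 * (2 * i.1.1 + 1) + i.2.2 * (i.1.2 + 1)

/-- the signs in the expansion of `Y` -/
def w (i : (ℕ × ℕ) × (ℕ × ℕ)) : ℤ := (-1) ^ (i.1.1 + 1 + i.2.2)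

/-- the indices with exponent `c` -/
def Fc (c : ℕ) : Finset ((ℕ × ℕ) × (ℕ × ℕ)) :=
  (((range (c + 1)) ×ˢ (range (c + 1))) ×ˢ ((range (c + 1)) ×ˢ (range (c + 1)))).filter
    (fun i => e i = c)

theorem le_e (i : (ℕ × ℕ) × (ℕ × ℕ)) : i.1.1 + i.1.2 + i.2.1 + i.2.2 ≤ e i := by
  obtain ⟨⟨m, n⟩, ⟨a, b⟩⟩ := i
  unfold e
  simp only
  nlinarith [Nat.zero_le (m * n), Nat.zero_le (a * m), Nat.zero_le (b * n)]

theorem mem_Fc {c : ℕ} {i : (ℕ × ℕ) × (ℕ × ℕ)} : i ∈ Fc c ↔ e i = c := by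
  unfold Fc
  simp only [mem_filter, mem_product, mem_range]
  constructor
  · rintro ⟨_, h⟩; exact h
  · intro h
    have := le_e i
    refine ⟨⟨⟨?_, ?_⟩, ⟨?_, ?_⟩⟩, h⟩ <;> omega

theorem chi_odd (m : ℕ) : chi (2 * m + 1) = (-1) ^ m := by
  unfold chi
  rcases Nat.even_or_odd m with h | h
  · rw [h.neg_one_pow, if_pos]
    obtain ⟨k, rfl⟩ := h
    omega
  · rw [h.neg_one_pow, if_neg]
    obtain ⟨k, rfl⟩ := h
    omega

theorem coeff (c : ℕ) (hc : 1 ≤ c) :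
    ∑ i ∈ Fc c, w i
      = ∑ x ∈ (Q (2 * c - 1)).filter (fun x => x.1 < x.2.2.2), -((-1 : ℤ) ^ x.2.2.2 * chi x.1) := by
  refine Finset.sum_nbij'
    (fun i => (2 * i.1.1 + 1, 2 * i.2.1 + 1, i.1.2 + 1, 2 * i.1.1 + 2 + i.2.2))
    (fun x => ((x.1 / 2, x.2.2.1 - 1), (x.2.1 / 2, x.2.2.2 - x.1 - 1))) ?_ ?_ ?_ ?_ ?_
  · rintro ⟨⟨m, n⟩, ⟨a, b⟩⟩ hi
    rw [mem_Fc] at hi
    simp only [mem_filter, mem_Q]
    refine ⟨⟨by omega, by omega, by omega, by omega, ?_⟩, by omega⟩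
    have h2 : (2 * m + 1) * (2 * a + 1) + 2 * (n + 1) * (2 * m + 2 + b) + 1
        = 2 * e ((m, n), (a, b)) := by
      unfold e; ring
    rw [hi] at h2
    omega
  · rintro ⟨M, A, n, D⟩ hx
    simp only [mem_filter, mem_Q] at hx
    rw [mem_Fc]
    obtain ⟨⟨h1, h2, h3, h4, h5⟩, h6⟩ := hx
    obtain ⟨m, rfl⟩ : ∃ m, M = 2 * m + 1 := ⟨M / 2, by omega⟩
    obtain ⟨a, rfl⟩ : ∃ a, A = 2 * a + 1 := ⟨A / 2, by omega⟩
    obtain ⟨n', rfl⟩ : ∃ n', n = n' + 1 := ⟨n - 1, by omega⟩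
    obtain ⟨b, rfl⟩ : ∃ b, D = 2 * m + 2 + b := ⟨D - (2 * m + 2), by omega⟩
    have e1 : (2 * m + 1) / 2 = m := by omega
    have e2 : (2 * a + 1) / 2 = a := by omega
    have e3 : n' + 1 - 1 = n' := by omega
    have e4 : 2 * m + 2 + b - (2 * m + 1) - 1 = b := by omega
    simp only [e1, e2, e3, e4]
    have h2 : (2 * m + 1) * (2 * a + 1) + 2 * (n' + 1) * (2 * m + 2 + b) + 1
        = 2 * e ((m, n'), (a, b)) := by
      unfold e; ring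
    omega
  · rintro ⟨⟨m, n⟩, ⟨a, b⟩⟩ hi
    simp only [Prod.mk.injEq]
    refine ⟨⟨by omega, by omega⟩, by omega, by omega⟩
  · rintro ⟨M, A, n, D⟩ hx
    simp only [mem_filter, mem_Q] at hx
    obtain ⟨⟨h1, h2, h3, h4, h5⟩, h6⟩ := hx
    simp only [Prod.mk.injEq]
    refine ⟨by omega, by omega, by omega, by omega⟩
  · rintro ⟨⟨m, n⟩, ⟨a, b⟩⟩ hi
    simp only [w, chi_odd]
    have : (-1 : ℤ) ^ (2 * m + 2 + b) = (-1) ^ b := by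
      rw [pow_add, pow_add, pow_mul]; norm_num
    rw [this, pow_add, pow_add]
    ring

theorem coeff_zero (c : ℕ) (hc : c % 2 = 0) : ∑ i ∈ Fc c, w i = 0 := by
  rcases Nat.eq_zero_or_pos c with h | h
  · subst h
    refine Finset.sum_eq_zero ?_
    rintro ⟨⟨m, n⟩, ⟨a, b⟩⟩ hi
    rw [mem_Fc] at hi
    unfold e at hi
    simp at hi
  · rw [coeff c h, Finset.sum_neg_distrib, key _ (by omega), neg_zero]

theorem summable_aux (q : ℂ) (hq : ‖q‖ < 1) :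
    Summable (fun i : (ℕ × ℕ) × (ℕ × ℕ) => (w i : ℂ) * q ^ e i) := by
  have hs : Summable (fun n : ℕ => ‖q‖ ^ n) :=
    summable_geometric_of_lt_one (norm_nonneg q) hq
  have h0 : ∀ n : ℕ, 0 ≤ ‖q‖ ^ n := fun n => pow_nonneg (norm_nonneg q) n
  have hs2 : Summable (fun x : ℕ × ℕ => ‖q‖ ^ x.1 * ‖q‖ ^ x.2) :=
    hs.mul_of_nonneg hs h0 h0
  have h02 : ∀ x : ℕ × ℕ, 0 ≤ ‖q‖ ^ x.1 * ‖q‖ ^ x.2 := fun x => mul_nonneg (h0 _) (h0 _)
  have hs4 : Summable (fun x : (ℕ × ℕ) × (ℕ × ℕ) =>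
      (‖q‖ ^ x.1.1 * ‖q‖ ^ x.1.2) * (‖q‖ ^ x.2.1 * ‖q‖ ^ x.2.2)) :=
    hs2.mul_of_nonneg hs2 h02 h02
  refine Summable.of_norm_bounded hs4 ?_
  intro i
  have hw : ‖((w i : ℤ) : ℂ)‖ = 1 := by
    unfold w
    push_cast
    rw [norm_pow, norm_neg, norm_one, one_pow]
  rw [norm_mul, hw, one_mul, norm_pow]
  calc ‖q‖ ^ e i ≤ ‖q‖ ^ (i.1.1 + i.1.2 + i.2.1 + i.2.2) :=
        pow_le_pow_of_le_one (norm_nonneg q) hq.le (le_e i)
    _ = _ := by rw [pow_add, pow_add, pow_add]; ring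

theorem hasSum_aux (q : ℂ) (hq : ‖q‖ < 1) (p : ℕ × ℕ) :
    HasSum (fun s : ℕ × ℕ => (w (p, s) : ℂ) * q ^ e (p, s))
      ((-q) ^ (2 * (p.1 + 1) * (p.2 + 1) + (p.1 + 1)) /
          ((1 + q ^ (p.2 + 1)) * (1 - q ^ (2 * p.1 + 1)))) := by
  have h1 : ‖q ^ (2 * p.1 + 1)‖ < 1 := by
    rw [norm_pow]; exact pow_lt_one₀ (norm_nonneg q) hq (by omega)
  have h2 : ‖-q ^ (p.2 + 1)‖ < 1 := by
    rw [norm_neg, norm_pow]; exact pow_lt_one₀ (norm_nonneg q) hq (by omega)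
  have g1 := hasSum_geometric_of_norm_lt_one h1
  have g2 := hasSum_geometric_of_norm_lt_one h2
  have n1 : Summable (fun n : ℕ => ‖(q ^ (2 * p.1 + 1)) ^ n‖) := by
    have := summable_geometric_of_lt_one (norm_nonneg _) h1
    simpa only [norm_pow] using this
  have n2 : Summable (fun n : ℕ => ‖(-q ^ (p.2 + 1)) ^ n‖) := by
    have := summable_geometric_of_lt_one (norm_nonneg _) h2
    simpa only [norm_pow] using this
  have hp := (g1.mul g2 (summable_mul_of_summable_norm n1 n2)).mul_left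
    ((-q) ^ (2 * (p.1 + 1) * (p.2 + 1) + (p.1 + 1)))
  have hfun : (fun s : ℕ × ℕ => (w (p, s) : ℂ) * q ^ e (p, s)) = fun s : ℕ × ℕ =>
      (-q) ^ (2 * (p.1 + 1) * (p.2 + 1) + (p.1 + 1)) *
        ((q ^ (2 * p.1 + 1)) ^ s.1 * (-q ^ (p.2 + 1)) ^ s.2) := by
    funext s
    unfold w e
    simp only
    push_cast
    rw [neg_pow q, neg_pow (q ^ (p.2 + 1)), ← pow_mul, ← pow_mul]
    have : (-1 : ℂ) ^ (2 * (p.1 + 1) * (p.2 + 1) + (p.1 + 1)) = (-1) ^ (p.1 + 1) := by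
      rw [pow_add, mul_assoc, pow_mul]; norm_num
    rw [this]
    rw [pow_add (-1 : ℂ) (p.1 + 1) s.2]
    rw [pow_add q _ (s.2 * (p.2 + 1)), pow_add q _ (s.1 * (2 * p.1 + 1)),
      mul_comm s.2, mul_comm s.1]
    ring
  have hval : (-q) ^ (2 * (p.1 + 1) * (p.2 + 1) + (p.1 + 1)) /
          ((1 + q ^ (p.2 + 1)) * (1 - q ^ (2 * p.1 + 1)))
      = (-q) ^ (2 * (p.1 + 1) * (p.2 + 1) + (p.1 + 1)) *
        ((1 - q ^ (2 * p.1 + 1))⁻¹ * (1 - -q ^ (p.2 + 1))⁻¹) := by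
    rw [sub_neg_eq_add, div_eq_mul_inv, mul_inv, mul_comm ((1 + q ^ (p.2 + 1))⁻¹)]
  rw [hfun, hval]
  exact hp

theorem Y_eq (q : ℂ) (hq : ‖q‖ < 1) :
    (∑' p : ℕ × ℕ, (-q) ^ (2 * (p.1 + 1) * (p.2 + 1) + (p.1 + 1)) /
          ((1 + q ^ (p.2 + 1)) * (1 - q ^ (2 * p.1 + 1))))
      = ∑' c : ℕ, (∑' i : (e ⁻¹' {c} : Set ((ℕ × ℕ) × (ℕ × ℕ))), (w i.1 : ℂ)) * q ^ c := by
  have hs := summable_aux q hq
  have h1 : (∑' p : ℕ × ℕ, (-q) ^ (2 * (p.1 + 1) * (p.2 + 1) + (p.1 + 1)) /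
          ((1 + q ^ (p.2 + 1)) * (1 - q ^ (2 * p.1 + 1))))
      = ∑' i : (ℕ × ℕ) × (ℕ × ℕ), (w i : ℂ) * q ^ e i := by
    rw [hs.tsum_prod]
    exact tsum_congr (fun p => (hasSum_aux q hq p).tsum_eq.symm)
  rw [h1]
  have h2 := (hs.hasSum.tsum_fiberwise e).tsum_eq
  rw [← h2]
  refine tsum_congr (fun c => ?_)
  rw [← tsum_mul_right]
  refine tsum_congr (fun i => ?_)
  have : e i.1 = c := i.2
  rw [this]

theorem y_even (c : ℕ) (hc : c % 2 = 0) :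
    (∑' i : (e ⁻¹' {c} : Set ((ℕ × ℕ) × (ℕ × ℕ))), (w i.1 : ℂ)) = 0 := by
  have hset : (e ⁻¹' {c} : Set ((ℕ × ℕ) × (ℕ × ℕ))) = ((Fc c : Finset _) : Set _) := by
    ext i
    simp [mem_Fc]
  rw [tsum_congr_set_coe (fun i => ((w i : ℤ) : ℂ)) hset]
  rw [Finset.tsum_subtype' (Fc c) (fun i => ((w i : ℤ) : ℂ))]
  have := coeff_zero c hc
  exact_mod_cast this

/-- For every complex q with ∣q∣<1, let Y(q) be the sum over m,n≥1 of (-q)^(2mn+m)/((1+q^n)(1-q^(2m-1))). Then Y(-q) = -Y(q), i.e. Y is an odd function. -/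
theorem result :
    ∀ q : ℂ, ‖q‖ < 1 →
      (∑' p : ℕ × ℕ, (-(-q)) ^ (2 * (p.1 + 1) * (p.2 + 1) + (p.1 + 1)) /
          ((1 + (-q) ^ (p.2 + 1)) * (1 - (-q) ^ (2 * p.1 + 1))))
        = -(∑' p : ℕ × ℕ, (-q) ^ (2 * (p.1 + 1) * (p.2 + 1) + (p.1 + 1)) /
          ((1 + q ^ (p.2 + 1)) * (1 - q ^ (2 * p.1 + 1)))) := by
  intro q hq
  have hq' : ‖-q‖ < 1 := by rwa [norm_neg]
  rw [Y_eq q hq, Y_eq (-q) hq', ← tsum_neg]
  refine tsum_congr (fun c => ?_)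
  rcases Nat.mod_two_eq_zero_or_one c with h | h
  · rw [y_even c h]; simp
  · have ho : Odd c := Nat.odd_iff.mpr h
    rw [ho.neg_pow]; ring

end Pool.Agent.S16733
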