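import Pool.Statements.S16915
import Pool.Agent.Y864.RatioConfig

set_option autoImplicit false
open MeasureTheory
open Pool Pool.MP_4fa6ed_nt

namespace Pool.Agent.S16915

/-- pigeonhole for a dilation family -/
lemma pigeon {X : Type} [MeasurableSpace X] (μ : Measure X) [IsProbabilityMeasure μ]
    (B : ℕ → Set X) (hB : ∀ i, MeasurableSet (B i)) (m : ENNReal) (k : ℕ)
    (hk : 1 < k * m) (hBm : ∀ i, i < k → μ (B i) = m) :
    ∃ i j, i < j ∧ j < k ∧ 0 < μ (B i ∩ B j) := by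
  by_contra hcon
  push Not at hcon
  have hdis : Set.Pairwise (↑(Finset.range k)) (Function.onFun (AEDisjoint μ) B) := by
    intro i hi j hj hij
    rw [Finset.mem_coe, Finset.mem_range] at hi hj
    simp only [Function.onFun, AEDisjoint]
    rcases lt_or_gt_of_ne hij with h | h
    · exact le_antisymm (hcon i j h hj) (zero_le)
    · rw [Set.inter_comm]
      exact le_antisymm (hcon j i h hi) (zero_le)
  have h1 := measure_biUnion_finset₀ hdis (fun i _ => (hB i).nullMeasurableSet)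
  have h2 : ∑ i ∈ Finset.range k, μ (B i) = k * m := by
    rw [Finset.sum_congr rfl (fun i hi => hBm i (Finset.mem_range.mp hi))]
    simp
  rw [h2] at h1
  have h3 : μ (⋃ i ∈ Finset.range k, B i) ≤ 1 := prob_le_one
  rw [h1] at h3
  exact absurd h3 (not_le.mpr hk)

lemma key (a : ℕ) (b d : ℤ) (ha : 0 < a)
    (hg : ∀ k : ℤ, k ∣ (a : ℤ) → k ∣ b → k ∣ d → IsUnit k)
    (hbd : (a : ℤ) ∣ b * d) (hlt : d < b)
    (X : Type) [MeasurableSpace X] (μ : Measure X) [IsProbabilityMeasure μ]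
    (T : ℚ → X → X)
    (hmul : ∀ q r : ℚ, 0 < q → 0 < r → T (q * r) = T q ∘ T r)
    (hmp : ∀ q : ℚ, 0 < q → MeasurePreserving (T q) μ μ)
    (A : Set X) (hA : MeasurableSet A) (hA0 : 0 < μ A) :
    ∃ n : ℕ, 0 < n ∧ 0 < (a : ℤ) * n + b ∧ 0 < (a : ℤ) * n + d ∧
      0 < μ (A ∩ T (((a : ℚ) * n + b) / ((a : ℚ) * n + d)) ⁻¹' A) ∧
      0 < μ (A ∩ T (((a : ℚ) * n + d) / ((a : ℚ) * n + b)) ⁻¹' A) := by
  obtain ⟨k, hk⟩ := ENNReal.exists_nat_mul_gt hA0.ne' (ENNReal.one_ne_top)
  obtain ⟨x, hx0, hx⟩ := Y864.Rec.ratio_config a b d ha hg hbd hlt k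
  have hx0' : ∀ i, i < k → (0:ℚ) < x i := fun i hi => by exact_mod_cast hx0 i hi
  -- measurable sets with default for i ≥ k
  obtain ⟨i, j, hij, hjk, hpos⟩ := pigeon μ (fun i => if i < k then T (x i : ℚ) ⁻¹' A else A)
    (fun i => by
      split_ifs with h
      · exact (hmp _ (hx0' i h)).measurable hA
      · exact hA) (μ A) k hk (fun i hi => by
      rw [if_pos hi]
      exact (hmp _ (hx0' i hi)).measure_preimage hA.nullMeasurableSet)
  have hik : i < k := hij.trans hjk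
  simp only [if_pos hik, if_pos hjk] at hpos
  obtain ⟨n, hn, hb, hd, heq⟩ := hx i j hij hjk
  have hb' : (0:ℚ) < (a:ℚ) * n + b := by exact_mod_cast hb
  have hd' : (0:ℚ) < (a:ℚ) * n + d := by exact_mod_cast hd
  have heq' : ((a:ℚ) * n + b) * x i = ((a:ℚ) * n + d) * x j := by exact_mod_cast heq
  refine ⟨n, hn, hb, hd, ?_, ?_⟩
  · have e1 : (x j : ℚ) = (((a : ℚ) * n + b) / ((a : ℚ) * n + d)) * x i := by
      field_simp; linarith
    have e2 : T (x j : ℚ) ⁻¹' A = T (x i : ℚ) ⁻¹' (T (((a : ℚ) * n + b) / ((a : ℚ) * n + d)) ⁻¹' A) := by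
      rw [e1, hmul _ _ (div_pos hb' hd') (hx0' i hik), Set.preimage_comp]
    rw [e2, ← Set.preimage_inter, (hmp _ (hx0' i hik)).measure_preimage] at hpos
    · exact hpos
    · exact (hA.inter ((hmp _ (div_pos hb' hd')).measurable hA)).nullMeasurableSet
  · have e1 : (x i : ℚ) = (((a : ℚ) * n + d) / ((a : ℚ) * n + b)) * x j := by
      field_simp; linarith
    have e2 : T (x i : ℚ) ⁻¹' A = T (x j : ℚ) ⁻¹' (T (((a : ℚ) * n + d) / ((a : ℚ) * n + b)) ⁻¹' A) := by
      rw [e1, hmul _ _ (div_pos hd' hb') (hx0' j hjk), Set.preimage_comp]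
    rw [e2, Set.inter_comm, ← Set.preimage_inter, (hmp _ (hx0' j hjk)).measure_preimage] at hpos
    · exact hpos
    · exact (hA.inter ((hmp _ (div_pos hd' hb')).measurable hA)).nullMeasurableSet

/-- If a≥1, gcd(a,b,d)=1, and b=d or a divides bd, then for every measure-preserving action of the positive rationals under multiplication and every positive-measure set A, some ratio (an+b)/(an+d) with n≥1 and both terms positive returns A to itself in positive measure. -/
theorem result :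
    ∀ (a : ℕ) (b d : ℤ), 0 < a →
      (∀ k : ℤ, k ∣ (a : ℤ) → k ∣ b → k ∣ d → IsUnit k) →
      (b = d ∨ (a : ℤ) ∣ b * d) →
      ∀ (X : Type) [MeasurableSpace X] (μ : Measure X) [IsProbabilityMeasure μ]
        (T : ℚ → X → X),
        T 1 = id →
        (∀ q r : ℚ, 0 < q → 0 < r → T (q * r) = T q ∘ T r) →
        (∀ q : ℚ, 0 < q → MeasurePreserving (T q) μ μ) →
        ∀ A : Set X, MeasurableSet A → 0 < μ A →
          ∃ n : ℕ, 0 < n ∧ 0 < (a : ℤ) * n + b ∧ 0 < (a : ℤ) * n + d ∧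
            0 < μ (A ∩ T (((a : ℚ) * n + b) / ((a : ℚ) * n + d)) ⁻¹' A) := by
  intro a b d ha hg hor X _ μ _ T hT1 hmul hmp A hA hA0
  rcases lt_trichotomy b d with h | h | h
  · have hbd : (a:ℤ) ∣ d * b := by
      rcases hor with h' | h'
      · omega
      · rwa [mul_comm]
    obtain ⟨n, h1, h2, h3, h4, h5⟩ := key a d b ha (fun k hk1 hk2 hk3 => hg k hk1 hk3 hk2) hbd h X μ T hmul hmp A hA hA0
    exact ⟨n, h1, h3, h2, h5⟩
  · subst h
    refine ⟨b.natAbs + 1, Nat.succ_pos _, ?_, ?_, ?_⟩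
    · have h1 : (1:ℤ) ≤ a := by exact_mod_cast ha
      have h2 : -b ≤ |b| := neg_le_abs b
      have h3 := abs_nonneg b
      push_cast
      nlinarith
    · have h1 : (1:ℤ) ≤ a := by exact_mod_cast ha
      have h2 : -b ≤ |b| := neg_le_abs b
      have h3 := abs_nonneg b
      push_cast
      nlinarith
    · have h4 : (0:ℤ) < (a:ℤ) * ((b.natAbs + 1 : ℕ) : ℤ) + b := by
        have h1 : (1:ℤ) ≤ a := by exact_mod_cast ha
        have h2 : -b ≤ |b| := neg_le_abs b
        have h3 := abs_nonneg b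
        push_cast
        nlinarith
      have h5 : (0:ℚ) < (a:ℚ) * ((b.natAbs + 1 : ℕ) : ℚ) + b := by
        have h6 : ((0:ℤ):ℚ) < (((a:ℤ) * ((b.natAbs + 1 : ℕ) : ℤ) + b : ℤ) : ℚ) := Int.cast_lt.mpr h4
        rw [Int.cast_add, Int.cast_mul, Int.cast_natCast, Int.cast_natCast, Int.cast_zero] at h6
        exact h6
      rw [div_self h5.ne', hT1]
      simpa using hA0
  · have hbd : (a:ℤ) ∣ b * d := by
      rcases hor with h' | h'
      · omega
      · exact h'
    obtain ⟨n, h1, h2, h3, h4, h5⟩ := key a b d ha hg hbd h X μ T hmul hmp A hA hA0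
    exact ⟨n, h1, h2, h3, h4⟩

end Pool.Agent.S16915
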