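import Pool.Statements.S16940
import Pool.Agent.Y847.CritRe

set_option autoImplicit false
open Complex DirichletCharacter
open Pool Pool.MP_50d0fc_nt

namespace Pool.Agent.S16940

/-- The negation of the preceding statement: There are A>0, D>1/2 such that for prime q→∞, uniformly in θ in [0,2π], the max over non-principal χ mod q with L(1/2,χ)≠0 of Re(e^{-iθ}L'/L(1/2,χ)) is asymptotic to A·√(log q)·(log log q)^D. -/
theorem result :
    ¬ (∃ A D : ℝ, 0 < A ∧ 1 / 2 < D ∧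
      ∀ ε : ℝ, 0 < ε → ∃ Q : ℕ, ∀ (q : ℕ) [NeZero q], q.Prime → Q ≤ q →
        ∀ θ : ℝ, θ ∈ Set.Icc (0 : ℝ) (2 * Real.pi) →
          (∀ χ : DirichletCharacter ℂ q, χ ≠ 1 → LFunction χ (1 / 2) ≠ 0 →
            (Complex.exp (-(θ : ℂ) * Complex.I) *
                (deriv (LFunction χ) (1 / 2) / LFunction χ (1 / 2))).re ≤
              (1 + ε) * A * Real.sqrt (Real.log q) * (Real.log (Real.log q)) ^ D) ∧
          (∃ χ : DirichletCharacter ℂ q, χ ≠ 1 ∧ LFunction χ (1 / 2) ≠ 0 ∧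
            (1 - ε) * A * Real.sqrt (Real.log q) * (Real.log (Real.log q)) ^ D ≤
              (Complex.exp (-(θ : ℂ) * Complex.I) *
                (deriv (LFunction χ) (1 / 2) / LFunction χ (1 / 2))).re)) := by
  rintro ⟨A, D, hA, hD, H⟩
  obtain ⟨C, hC⟩ := Pool.Agent.Y847.re_logDeriv_le
  obtain ⟨Q, hQ⟩ := H (1 / 2) (by norm_num)
  obtain ⟨q, hq1, hqp⟩ := Nat.exists_infinite_primes (max Q (max 3 ⌈Real.exp (2 * C)⌉₊))
  have hqQ : Q ≤ q := (le_max_left _ _).trans hq1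
  have hq3 : 3 ≤ q := ((le_max_left _ _).trans (le_max_right _ _)).trans hq1
  have hqC : ⌈Real.exp (2 * C)⌉₊ ≤ q := ((le_max_right _ _).trans (le_max_right _ _)).trans hq1
  haveI : NeZero q := ⟨by omega⟩
  obtain ⟨-, χ, hχ1, hχ2, hχ3⟩ := hQ q hqp hqQ 0 ⟨le_refl _, by positivity⟩
  have h1 := hC q hqp χ hχ1 hχ2
  rw [Complex.ofReal_zero, neg_zero, zero_mul, Complex.exp_zero, one_mul] at hχ3
  have hq3' : (3 : ℝ) ≤ q := by exact_mod_cast hq3
  have hq0 : (0 : ℝ) < q := by linarith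
  have h2 : 2 * C ≤ Real.log q := by
    rw [Real.le_log_iff_exp_le hq0]
    exact (Nat.le_ceil _).trans (by exact_mod_cast hqC)
  have h3 : 1 < Real.log q := by
    rw [Real.lt_log_iff_exp_lt hq0]
    have := Real.exp_one_lt_d9
    linarith
  have h4 : 0 < Real.log (Real.log q) := Real.log_pos h3
  have h5 : 0 < (1 - 1 / 2 : ℝ) * A * Real.sqrt (Real.log q) * (Real.log (Real.log q)) ^ D := by
    have h6 : 0 < Real.sqrt (Real.log q) := Real.sqrt_pos.2 (by linarith)
    have h7 : 0 < (Real.log (Real.log q)) ^ D := Real.rpow_pos_of_pos h4 D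
    have h8 : (0 : ℝ) < 1 - 1 / 2 := by norm_num
    positivity
  linarith

end Pool.Agent.S16940
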