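import Pool.Statements.S17043
import Pool.Agent.Y944.SumCF3

set_option autoImplicit false
open Pool Pool.MP_590852_nt

namespace Pool.Agent.S17043

/-- Every real x with 0 < x ≤ 1 equals g₁ + g₂, where g₁ and g₂ lie in (0,1) and the continued fraction partial quotients of each (computed via the Gauss map) tend to infinity. -/
theorem result :
    ∀ x : ℝ, 0 < x → x ≤ 1 →
      ∃ g₁ g₂ : ℝ,
        g₁ ∈ Set.Ioo (0 : ℝ) 1 ∧ g₂ ∈ Set.Ioo (0 : ℝ) 1 ∧
        Filter.Tendsto (fun n : ℕ => ⌊1 / ((fun y : ℝ => Int.fract (1 / y))^[n] g₁)⌋)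
          Filter.atTop Filter.atTop ∧
        Filter.Tendsto (fun n : ℕ => ⌊1 / ((fun y : ℝ => Int.fract (1 / y))^[n] g₂)⌋)
          Filter.atTop Filter.atTop ∧
        x = g₁ + g₂ := by
  intro x hx0 hx1
  have main : ∃ a b : ℕ → ℕ, (∀ n, 1 ≤ a n) ∧ (∀ n, 1 ≤ b n) ∧
      Filter.Tendsto a Filter.atTop Filter.atTop ∧ Filter.Tendsto b Filter.atTop Filter.atTop ∧
      x = H313R3.BK.cf a + H313R3.BK.cf b := by
    by_cases hx : Irrational x
    · refine Y944.SumCF.main_irrational x hx hx0 (lt_of_le_of_ne hx1 ?_)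
      rintro rfl
      exact not_irrational_one hx
    · unfold Irrational at hx
      push Not at hx
      obtain ⟨q, hq⟩ := hx
      have hq0 : 0 < q := by
        have : (0 : ℝ) < (q : ℝ) := by rw [hq]; exact hx0
        exact_mod_cast this
      have hq1 : q ≤ 1 := by
        have : (q : ℝ) ≤ 1 := by rw [hq]; exact hx1
        exact_mod_cast this
      have hn0 : 0 < q.num := Rat.num_pos.2 hq0
      obtain ⟨P, hP⟩ : ∃ P : ℕ, (P : ℤ) = q.num := ⟨q.num.toNat, Int.toNat_of_nonneg hn0.le⟩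
      have hqe : (q : ℝ) = (P : ℝ) / (q.den : ℝ) := by
        rw [Rat.cast_def, ← hP]
        push_cast
        rfl
      have hP0 : 0 < P := by
        have : (0 : ℤ) < P := by rw [hP]; exact hn0
        exact_mod_cast this
      have hPQ : P ≤ q.den := by
        have h1 : (P : ℝ) / (q.den : ℝ) ≤ 1 := by rw [← hqe, hq]; exact hx1
        have h2 : (0 : ℝ) < q.den := by exact_mod_cast q.den_pos
        rw [div_le_one h2] at h1
        exact_mod_cast h1
      have := Y944.SumCF.main_rational P q.den hP0 hPQ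
      rw [← hqe, hq] at this
      exact this
  obtain ⟨a, b, ha, hb, ha', hb', he⟩ := main
  refine ⟨H313R3.BK.cf a, H313R3.BK.cf b, ⟨H313R3.BK.cf_pos a ha, H313R3.BK.cf_lt_one a ha⟩,
    ⟨H313R3.BK.cf_pos b hb, H313R3.BK.cf_lt_one b hb⟩, ?_, ?_, he⟩
  · have : (fun n : ℕ => ⌊1 / ((fun y : ℝ => Int.fract (1 / y))^[n] (H313R3.BK.cf a))⌋) =
        fun n => ((a n : ℕ) : ℤ) := funext fun n => Y944.SumCF.floor_cf a ha n
    rw [this]
    exact tendsto_natCast_atTop_atTop.comp ha'
  · have : (fun n : ℕ => ⌊1 / ((fun y : ℝ => Int.fract (1 / y))^[n] (H313R3.BK.cf b))⌋) =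
        fun n => ((b n : ℕ) : ℤ) := funext fun n => Y944.SumCF.floor_cf b hb n
    rw [this]
    exact tendsto_natCast_atTop_atTop.comp hb'

end Pool.Agent.S17043
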