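import Pool.Statements.S17357
import Pool.Agent.Y868.VR.G2

set_option autoImplicit false
open Filter
open Pool Pool.MP_6e8743_nt

namespace Pool.Agent.S17357

/-- For every group G, every multiplicative f from positive integers to G (f(1)=1, f(mn)=f(m)f(n) for coprime m,n) and every g in G, the proportion of m ≤ N with f(m)=g converges as N grows. -/
theorem result :
    ∀ (G : Type) [Group G] (f : ℕ → G),
      f 1 = 1 →
      (∀ m n : ℕ, 0 < m → 0 < n → Nat.Coprime m n → f (m * n) = f m * f n) →
      ∀ g : G, ∃ d : ℝ,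
        Tendsto
          (fun N : ℕ => (Nat.card {m : ℕ // 1 ≤ m ∧ m ≤ N ∧ f m = g} : ℝ) / (N : ℝ))
          atTop (nhds d) := by
  intro G _ f h1 hm g
  exact Pool.Agent.Y868.VR.ruzsa ⟨h1, hm⟩ g

end Pool.Agent.S17357
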