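import Pool.Statements.S17720
import Pool.Agent.Y933.CFN.Build

set_option autoImplicit false
open Pool Pool.MP_8d5d9c_nt

namespace Pool.Agent.S17720

open Filter Topology Pool.Agent.Y933.CFN in
/-- the numbers `√2 cf w 0 + √2` are irrational -/
lemma irr (w : List ℕ) (hw : Pos w) : Irrational (Real.sqrt 2 * cf w 0 + Real.sqrt 2) := by
  have h0 := cf_mem hw (s := 0) (by simp)
  have e : cf w 0 = (((p w : ℚ) / (q w : ℚ) : ℚ) : ℝ) := by
    rw [cf_eq hw le_rfl]
    push_cast
    simp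
  have h1 : Real.sqrt 2 * cf w 0 + Real.sqrt 2 =
      Real.sqrt 2 * (((p w : ℚ) / (q w : ℚ) + 1 : ℚ) : ℝ) := by
    rw [e]; push_cast; ring
  rw [h1]
  apply irrational_sqrt_two.mul_ratCast
  have : (0 : ℚ) ≤ (p w : ℚ) / (q w : ℚ) := by positivity
  positivity

open Filter Topology Set Pool.Agent.Y933.CFN in
/-- The negation of the preceding statement: If x is continued-fraction normal (its Gauss-map orbit is equidistributed for the Gauss measure) and q, r are irrational roots of nonzero integer quadratics with q nonzero, then q times x plus r is also continued-fraction normal. -/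
theorem result :
    ¬ (∀ x q r : ℝ,
      (Irrational x ∧ ∀ t : ℝ, 0 ≤ t → t ≤ 1 →
        Filter.Tendsto
          (fun N : ℕ =>
            (((Finset.range N).filter
              (fun n => (fun y : ℝ => Int.fract (1 / y))^[n] (Int.fract x) < t)).card : ℝ) / (N : ℝ))
          Filter.atTop (nhds (Real.log (1 + t) / Real.log 2))) →
      (Irrational q ∧ ∃ a b c : ℤ, (a ≠ 0 ∨ b ≠ 0 ∨ c ≠ 0) ∧
        (a : ℝ) * q ^ 2 + (b : ℝ) * q + (c : ℝ) = 0) →
      (Irrational r ∧ ∃ a b c : ℤ, (a ≠ 0 ∨ b ≠ 0 ∨ c ≠ 0) ∧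
        (a : ℝ) * r ^ 2 + (b : ℝ) * r + (c : ℝ) = 0) →
      q ≠ 0 →
      (Irrational (q * x + r) ∧ ∀ t : ℝ, 0 ≤ t → t ≤ 1 →
        Filter.Tendsto
          (fun N : ℕ =>
            (((Finset.range N).filter
              (fun n => (fun y : ℝ => Int.fract (1 / y))^[n] (Int.fract (q * x + r)) < t)).card : ℝ) / (N : ℝ))
          Filter.atTop (nhds (Real.log (1 + t) / Real.log 2)))) := by
  intro hall
  have h2 : Real.sqrt 2 ≠ 0 := by positivity
  have hquad : Irrational (Real.sqrt 2) ∧ ∃ a b c : ℤ, (a ≠ 0 ∨ b ≠ 0 ∨ c ≠ 0) ∧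
      (a : ℝ) * Real.sqrt 2 ^ 2 + (b : ℝ) * Real.sqrt 2 + (c : ℝ) = 0 := by
    refine ⟨irrational_sqrt_two, 1, 0, -2, by norm_num, ?_⟩
    rw [Real.sq_sqrt (by norm_num)]
    norm_num
  obtain ⟨x, hx, hx1, hnorm, hbad⟩ := main (Real.sqrt 2) (Real.sqrt 2) h2 (fun w _ hw => irr w hw)
  have hfx : Int.fract x = x := Int.fract_eq_self.2 ⟨hx1.1.le, hx1.2⟩
  have key := hall x (Real.sqrt 2) (Real.sqrt 2) ⟨hx, fun t ht0 ht1 => by
    have h := hnorm t
    rw [Fc_eq ht0 ht1] at h
    rw [hfx]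
    exact h⟩ hquad hquad h2
  obtain ⟨-, key⟩ := key
  set y : ℝ := Int.fract (Real.sqrt 2 * x + Real.sqrt 2) with hy
  have k1 : Tendsto (fun N : ℕ => (((Finset.range N).filter (fun n => G^[n] y < 1 / 2)).card : ℝ) / N)
      atTop (𝓝 (Real.log (1 + 1 / 2) / Real.log 2)) := key (1 / 2) (by norm_num) (by norm_num)
  have k2 : Tendsto (fun N : ℕ => (((Finset.range N).filter (fun n => G^[n] y < 2 / 3)).card : ℝ) / N)
      atTop (𝓝 (Real.log (1 + 2 / 3) / Real.log 2)) := key (2 / 3) (by norm_num) (by norm_num)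
  have k3 := k2.sub k1
  have hval : Real.log (1 + 2 / 3) / Real.log 2 - Real.log (1 + 1 / 2) / Real.log 2 < 1 / 6 := by
    rw [← sub_div, ← Real.log_div (by norm_num) (by norm_num), div_lt_iff₀ log2_pos]
    have h6 : 6 * Real.log ((1 + 2 / 3) / (1 + 1 / 2)) < Real.log 2 := by
      rw [← Real.log_rpow (by norm_num)]
      apply Real.log_lt_log (by positivity)
      norm_num
    linarith
  obtain ⟨N, hN⟩ := eventually_atTop.1 (k3.eventually (Iio_mem_nhds hval))
  obtain ⟨m, hm, hm2⟩ := hbad (N + 1)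
  have h4 := hN (4 * m + 1) (by omega)
  have h4' : (((Finset.range (4 * m + 1)).filter (fun n => G^[n] y < 2 / 3)).card : ℝ) /
      ((4 * m + 1 : ℕ) : ℝ) - (((Finset.range (4 * m + 1)).filter (fun n => G^[n] y < 1 / 2)).card : ℝ) /
      ((4 * m + 1 : ℕ) : ℝ) < 1 / 6 := h4
  rw [← sub_div, div_lt_iff₀ (by positivity)] at h4'
  have h5 : ((Finset.range (4 * m + 1)).filter (fun i => G^[i] y ∈ Ico ((1 : ℝ) / 2) (2 / 3))).card +
      ((Finset.range (4 * m + 1)).filter (fun n => G^[n] y < 1 / 2)).card ≤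
      ((Finset.range (4 * m + 1)).filter (fun n => G^[n] y < 2 / 3)).card := by
    classical
    rw [← Finset.card_union_of_disjoint]
    · apply Finset.card_le_card
      intro i hi
      rw [Finset.mem_union, Finset.mem_filter, Finset.mem_filter] at hi
      rw [Finset.mem_filter]
      rcases hi with ⟨h1, h2, h3⟩ | ⟨h1, h2⟩
      · exact ⟨h1, h3⟩
      · exact ⟨h1, by linarith⟩
    · rw [Finset.disjoint_left]
      intro i hi hi'
      rw [Finset.mem_filter] at hi hi'
      exact absurd hi'.2 (not_lt.2 hi.2.1)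
  have h5' : (((Finset.range (4 * m + 1)).filter
      (fun i => G^[i] y ∈ Ico ((1 : ℝ) / 2) (2 / 3))).card : ℝ) +
      ((Finset.range (4 * m + 1)).filter (fun n => G^[n] y < 1 / 2)).card ≤
      ((Finset.range (4 * m + 1)).filter (fun n => G^[n] y < 2 / 3)).card := by exact_mod_cast h5
  have hm2' : (m : ℝ) ≤ ((Finset.range (4 * m + 1)).filter
      (fun i => G^[i] y ∈ Ico ((1 : ℝ) / 2) (2 / 3))).card := by exact_mod_cast hm2
  push_cast at h4'
  have hm1 : (1 : ℝ) ≤ m := by exact_mod_cast (by omega : 1 ≤ m)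
  linarith

end Pool.Agent.S17720
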