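import Pool.Statements.S17899
import Pool.Agent.Y821.TotP

set_option autoImplicit false
open Filter Topology
open Pool Pool.MP_9d1108_nt

namespace Pool.Agent.S17899

/-- There is F with F(x)→∞ and F(n)/φ(n)→0 along a density-one set, such that for some C only finitely many x have more than C·F(x) integers n with n+φ(n) in the open interval (x, x+F(x)). -/
theorem result :
    ∃ F : ℕ → ℝ, Tendsto F atTop atTop ∧
      (∃ A : Set ℕ,
        Tendsto (fun N : ℕ => ((A ∩ Set.Iio N).ncard : ℝ) / (N : ℝ)) atTop (𝓝 1) ∧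
        Tendsto (fun n : ℕ => F n / (Nat.totient n : ℝ)) (atTop ⊓ 𝓟 A) (𝓝 0)) ∧
      ¬ (∀ C : ℝ, Set.Infinite {x : ℕ |
          ((Set.ncard {n : ℕ | (x : ℝ) < (n : ℝ) + (Nat.totient n : ℝ) ∧
              (n : ℝ) + (Nat.totient n : ℝ) < (x : ℝ) + F x} : ℕ) : ℝ) > C * F x}) := by
  exact Pool.Agent.Y821.TotP.main

end Pool.Agent.S17899
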