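import Pool.Statements.S18419

set_option autoImplicit false
open Pool Pool.MP_c520af_nt

namespace Pool.Agent.S18419

/-- For every number field K there are maps (x,y) to (y, F_d(y) − δ_d x), with deg F_d = d and δ_d ≠ 0, for each d ≥ 2, whose number of K-rational periodic points eventually exceeds C·d for every constant C. -/
theorem result :
    ∀ (K : Type) [Field K] [NumberField K],
      ∃ (F : ℕ → Polynomial K) (δ : ℕ → K),
        (∀ d : ℕ, 2 ≤ d → (F d).natDegree = d ∧ δ d ≠ 0) ∧
        ∀ C : ℕ, ∃ D : ℕ, ∀ d : ℕ, 2 ≤ d → D ≤ d →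
          (((C * d : ℕ) : ℕ∞) <
            {P : K × K | ∃ n : ℕ, 1 ≤ n ∧
              (fun p : K × K => (p.2, (F d).eval p.2 - δ d * p.1))^[n] P = P}.encard) := by
  intro K _ _
  refine ⟨fun d => ∏ i ∈ Finset.range d, (Polynomial.X - Polynomial.C ((i : ℕ) : K)), fun _ => -1, ?_, ?_⟩
  · intro d _
    refine ⟨?_, by norm_num⟩
    rw [Polynomial.natDegree_prod_of_monic _ _ (fun i _ => Polynomial.monic_X_sub_C _)]
    rw [Finset.sum_congr rfl (fun i _ => Polynomial.natDegree_X_sub_C _)]
    simp
  · intro C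
    refine ⟨C + 1, fun d _ hd => ?_⟩
    set e : ℕ ↪ K := ⟨fun i => (i : K), Nat.cast_injective⟩ with he
    set S : Finset K := (Finset.range d).map e with hS
    have hSc : S.card = d := by simp [hS]
    have hroot : ∀ y ∈ S, (∏ i ∈ Finset.range d,
        (Polynomial.X - Polynomial.C ((i : ℕ) : K))).eval y = 0 := by
      intro y hy
      rw [hS, Finset.mem_map] at hy
      obtain ⟨i, hi, rfl⟩ := hy
      rw [Polynomial.eval_prod]
      exact Finset.prod_eq_zero hi (by simp [he])
    have hsub : ((S ×ˢ S : Finset (K × K)) : Set (K × K)) ⊆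
        {P : K × K | ∃ n : ℕ, 1 ≤ n ∧
              (fun p : K × K => (p.2, (∏ i ∈ Finset.range d,
        (Polynomial.X - Polynomial.C ((i : ℕ) : K))).eval p.2 - (-1) * p.1))^[n] P = P} := by
      rintro ⟨x, y⟩ hxy
      rw [Finset.mem_coe, Finset.mem_product] at hxy
      refine ⟨2, by norm_num, ?_⟩
      simp only [Function.iterate_succ, Function.iterate_zero, Function.comp_apply, id_eq]
      rw [hroot _ hxy.2]
      have : (0 - -1 * x : K) = x := by ring
      rw [this, hroot _ hxy.1]
      simp
    refine lt_of_lt_of_le ?_ (Set.encard_le_encard hsub)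
    rw [Set.encard_coe_eq_coe_finsetCard, Finset.card_product, hSc]
    exact_mod_cast Nat.mul_lt_mul_of_pos_right (by omega) (by omega)

end Pool.Agent.S18419
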