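import Pool.Statements.S18569
import Pool.Agent.Y727.PSP.Top

/-!
# Arithmetic progressions of base-2 pseudoprimes (MP_d159ed_nt, S18569)

For every `k` there are infinitely many arithmetic progressions of `k` pseudoprimes to base `2`
(`Pool.Agent.Y727.PSP.fin_all`); the case `k = 5` is the frozen statement.

Plan of the proof (`Pool/Agent/Y727/PSP/Stm.lean` lists all the steps):
* relative Szemerédi theorem for weights on `ZMod N` with the linear forms condition
  (density Hales-Jewett, dense model theorem, densification);
* for most `K ∈ (X, 2X]` a sieve majorant of the primes `1 + K W u`, `u ≤ N = (log X) ^ B`, satisfies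
  the linear forms condition; hence for many `K` there is a progression `u_1, …, u_k ≤ (log X) ^ B`
  with all `1 + K W u_j` prime, where `W = P w` and `w` is a product of many primes `p` with
  `p - 1 ∣ Λ`, `Λ` small;
* the primitive prime divisors `q_d` of `2 ^ (d (…)) - 1`, `d ∣ w`, and the zero-sum theorem of
  van Emde Boas-Kruyswijk give `g` with all `g (1 + K W u_j)` pseudoprimes.
-/

set_option autoImplicit false
open Pool Pool.MP_d159ed_nt

namespace Pool.Agent.S18569

/-- There are infinitely many pairs (a, d) with d > 0 such that each of a, a+d, a+2d, a+3d, a+4d is composite and divides 2 to its own power minus 2. -/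
theorem result :
    Set.Infinite {p : ℕ × ℕ | 0 < p.2 ∧ ∀ i : ℕ, i < 5 →
      (1 < p.1 + i * p.2 ∧ ¬ (p.1 + i * p.2).Prime ∧
        (p.1 + i * p.2) ∣ 2 ^ (p.1 + i * p.2) - 2)} := by
  apply Set.Infinite.of_image Prod.fst
  apply Set.infinite_of_forall_exists_gt
  intro A
  obtain ⟨a, d, h1, h2, h3⟩ := Pool.Agent.Y727.PSP.fin_all 5 (A + 1)
  exact ⟨a, ⟨(a, d), ⟨h2, h3⟩, rfl⟩, by omega⟩

end Pool.Agent.S18569
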