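import Pool.Statements.S18977
import Pool.Agent.H410R2.EDMain

set_option autoImplicit false
open Pool Pool.MP_f473e4_nt

namespace Pool.Agent.S18977

/-- For every m there exist k and a positive integer n such that the m consecutive integers n, n+1, ..., n+m-1 all have exactly k divisors; that is, the maximal run length M(k) is unbounded in k. -/
theorem result :
    ∀ m : ℕ, ∃ k : ℕ, ∃ n : ℕ, 0 < n ∧ ∀ i : ℕ, i < m → (Nat.divisors (n + i)).card = k := by
  intro m
  obtain ⟨y, hy, h⟩ := Pool.Agent.H410R2.ED.equalRuns m 1
  exact ⟨(Nat.divisors y).card, y, hy, fun i hi => h i hi⟩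

end Pool.Agent.S18977
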