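import Pool.Statements.S19214
import Pool.Agent.Y171.CE.Top
import Pool.Agent.Y908.CE.Upper
-- import your own Pool.Agent.* helpers here

set_option autoImplicit false
open Filter Topology
open scoped Pointwise
open Pool Pool.MP_243c22_pr

namespace Pool.Agent.S19214

/-- The negation of the preceding statement: For finite groups of growing size with symmetric sets containing 1 that expand uniformly, and walks whose step law has support of size at most r and mass at least 1/r on each generator, there are times t n → ∞ at which distance to uniform drops sharply from 1 to 0. -/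
theorem result :
    ¬ (∀ r : ℝ, 0 < r →
  ∀ (G : ℕ → Type) [∀ n, Group (G n)] [∀ n, Fintype (G n)] [∀ n, DecidableEq (G n)]
    (S : ∀ n, Finset (G n)) (p : ∀ n, G n → ℝ),
    Tendsto (fun n => Fintype.card (G n)) atTop atTop →
    (∀ n, (1 : G n) ∈ S n) →
    (∀ n, ∀ s ∈ S n, s⁻¹ ∈ S n) →
    (∃ c : ℝ, 0 < c ∧ ∀ n, ∀ A : Finset (G n),
        2 * A.card ≤ Fintype.card (G n) →
        c * (A.card : ℝ) ≤ (((A * S n) \ A).card : ℝ)) →
    (∀ n, ∀ g : G n, 0 ≤ p n g) →
    (∀ n, ∑ g : G n, p n g = 1) →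
    (∀ n, ∀ s ∈ S n, 1 / r ≤ p n s) →
    (∀ n, ((Finset.univ.filter (fun g : G n => p n g ≠ 0)).card : ℝ) ≤ r) →
    ∃ t : ℕ → ℝ, Tendsto t atTop atTop ∧
      ∀ ε : ℝ, 0 < ε → ε < 1 →
        Tendsto (fun n => (1 / 2 : ℝ) * ∑ g : G n,
          |(fun q : G n → ℝ => fun x : G n => ∑ h : G n, q h * p n (h⁻¹ * x))^[⌈(1 + ε) * t n⌉₊]
              (fun x : G n => if x = 1 then (1 : ℝ) else 0) g
            - 1 / (Fintype.card (G n) : ℝ)|) atTop (𝓝 0) ∧
        Tendsto (fun n => (1 / 2 : ℝ) * ∑ g : G n,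
          |(fun q : G n → ℝ => fun x : G n => ∑ h : G n, q h * p n (h⁻¹ * x))^[⌊(1 - ε) * t n⌋₊]
              (fun x : G n => if x = 1 then (1 : ℝ) else 0) g
            - 1 / (Fintype.card (G n) : ℝ)|) atTop (𝓝 1)) :=
  Pool.Agent.Y171.CE.top Pool.Agent.Y908.CE.upper Pool.Agent.Y908.CE.lcard

end Pool.Agent.S19214
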