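import Pool.Statements.S19226
import Pool.Agent.Results.MP_284d10_pr.TwoSat

set_option autoImplicit false
open Pool Pool.MP_284d10_pr

namespace Pool.Agent.S19226

open Pool.Agent.H921S

/-- the clauses of the frozen statement -/
abbrev Cf (k n : ℕ) : Type :=
  {c : Finset (Fin n × Bool) // c.card = k ∧ (c.image Prod.fst).card = k}

theorem dist_of {k n : ℕ} (c : Finset (Fin n × Bool)) (h1 : c.card = k)
    (h2 : (c.image Prod.fst).card = k) : ∀ l ∈ c, ∀ l' ∈ c, l.1 = l'.1 → l = l' := by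
  have h : Set.InjOn Prod.fst (c : Set (Fin n × Bool)) := by
    apply Finset.card_image_iff.1
    rw [h1, ← h2]
  intro l hl l' hl' hll
  exact h (by simpa using hl) (by simpa using hl') hll

/-- the two types of clauses are the same -/
def phi (k n : ℕ) : Cf k n ≃ Clause k n where
  toFun c := ⟨c.1, c.2.1, dist_of c.1 c.2.1 c.2.2⟩
  invFun C := ⟨C.lits, C.card_lits, by
    rw [Finset.card_image_of_injOn, C.card_lits]
    intro l hl l' hl' hll
    exact C.distinct l (by simpa using hl) l' (by simpa using hl') hll⟩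
  left_inv c := rfl
  right_inv C := rfl

theorem card_Cf (k n : ℕ) : Nat.card (Cf k n) = Fintype.card (Clause k n) := by
  rw [Nat.card_congr (phi k n), Nat.card_eq_fintype_card]

/-- the two types of orderings are the same -/
noncomputable def psi (n : ℕ) : (Fin (Nat.card (Cf 2 n)) ≃ Cf 2 n) ≃
    Pool.Agent.Results.MP_284d10_pr.TwoSat.Ordering n :=
  Equiv.equivCongr (finCongr (card_Cf 2 n)) (phi 2 n)

theorem psi_apply (n : ℕ) (e : Fin (Nat.card (Cf 2 n)) ≃ Cf 2 n) (i : Fin (Fintype.card (Clause 2 n))) :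
    psi n e i = phi 2 n (e ((finCongr (card_Cf 2 n)).symm i)) := rfl

/-- the event of the frozen statement -/
def Ev (n : ℕ) (e : Fin (Nat.card (Cf 2 n)) ≃ Cf 2 n) : Prop :=
  ∃ m : ℕ,
    (∀ j : ℕ, j < m → ∃ a : Fin n → Bool,
        ∀ c : Cf 2 n,
          ((e.symm c : Fin _) : ℕ) < j → ∃ l ∈ c.val, a l.1 = l.2) ∧
    ∃ H : Finset (Cf 2 n),
      H.Nonempty ∧
      (∀ c ∈ H, ((e.symm c : Fin _) : ℕ) < m) ∧
      ∃ a : Fin n → Bool,
        (∀ c ∈ H, ∃ l ∈ c.val, a l.1 = l.2) ∧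
        ∀ b : Fin n → Bool, (∀ c ∈ H, ∃ l ∈ c.val, b l.1 = l.2) →
          ∀ i : Fin n, (∃ c ∈ H, ∃ l ∈ c.val, l.1 = i) → b i = a i

theorem ev_imp (n : ℕ) (e : Fin (Nat.card (Cf 2 n)) ≃ Cf 2 n) (h : Ev n e) :
    ¬ Pool.Agent.Results.MP_284d10_pr.TwoSat.NoneByUnsat (psi n e) := by
  classical
  obtain ⟨m, hsat, H, hne, hH, a, ha, huniq⟩ := h
  intro hcon
  refine hcon m ?_ ?_
  · intro j hj
    obtain ⟨a, ha⟩ := hsat j hj
    refine ⟨a, ?_⟩
    intro C hC
    simp only [Pool.Agent.Results.MP_284d10_pr.TwoSat.stage, Finset.mem_filter, Finset.mem_univ,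
      true_and] at hC
    obtain ⟨i, hi, rfl⟩ := hC
    rw [psi_apply]
    obtain ⟨l, hl, hal⟩ := ha (e ((finCongr (card_Cf 2 n)).symm i)) (by simpa using hi)
    exact ⟨l, hl, hal⟩
  · refine ⟨H.image (phi 2 n), ?_, ?_, ?_, ?_⟩
    · intro C hC
      rw [Finset.mem_image] at hC
      obtain ⟨c, hc, rfl⟩ := hC
      simp only [Pool.Agent.Results.MP_284d10_pr.TwoSat.stage, Finset.mem_filter, Finset.mem_univ,
        true_and]
      refine ⟨finCongr (card_Cf 2 n) (e.symm c), ?_, ?_⟩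
      · simpa using hH c hc
      · rw [psi_apply]
        simp
    · exact hne.image _
    · refine ⟨a, ?_⟩
      intro C hC
      rw [Finset.mem_image] at hC
      obtain ⟨c, hc, rfl⟩ := hC
      obtain ⟨l, hl, hal⟩ := ha c hc
      exact ⟨l, hl, hal⟩
    · intro b b' hb hb' v hv
      have key : ∀ b : Fin n → Bool, Sol b (H.image (phi 2 n)) →
          ∀ c ∈ H, ∃ l ∈ c.val, b l.1 = l.2 := by
        intro b hb c hc
        obtain ⟨l, hl, hal⟩ := hb (phi 2 n c) (Finset.mem_image_of_mem _ hc)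
        exact ⟨l, hl, hal⟩
      have hv' : ∃ c ∈ H, ∃ l ∈ c.val, l.1 = v := by
        simp only [vars, Finset.mem_biUnion, Finset.mem_image] at hv
        obtain ⟨C, ⟨c, hc, rfl⟩, l, hl, hlv⟩ := hv
        exact ⟨c, hc, l, hl, hlv⟩
      rw [huniq b (key b hb) v hv', huniq b' (key b' hb') v hv']

theorem ratio_le (n : ℕ) (δ : ℝ)
    (h : δ ≤ Pool.Agent.Results.MP_284d10_pr.TwoSat.prob n) :
    (Nat.card {e : Fin (Nat.card (Cf 2 n)) ≃ Cf 2 n // Ev n e} : ℝ) /
      (Nat.card (Fin (Nat.card (Cf 2 n)) ≃ Cf 2 n) : ℝ) ≤ 1 - δ := by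
  classical
  set O := Pool.Agent.Results.MP_284d10_pr.TwoSat.Ordering n with hO
  have h1 : Nat.card {e : Fin (Nat.card (Cf 2 n)) ≃ Cf 2 n // Ev n e} ≤
      Fintype.card {σ : O // ¬ Pool.Agent.Results.MP_284d10_pr.TwoSat.NoneByUnsat σ} := by
    rw [← Nat.card_eq_fintype_card]
    refine Nat.card_le_card_of_injective
      (fun e => (⟨psi n e.1, ev_imp n e.1 e.2⟩ :
        {σ : O // ¬ Pool.Agent.Results.MP_284d10_pr.TwoSat.NoneByUnsat σ})) ?_
    intro e e' hee
    have := congrArg Subtype.val hee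
    exact Subtype.ext ((psi n).injective this)
  have h2 : Nat.card (Fin (Nat.card (Cf 2 n)) ≃ Cf 2 n) = Fintype.card O := by
    rw [Nat.card_congr (psi n), Nat.card_eq_fintype_card]
  have h3 : Fintype.card {σ : O // ¬ Pool.Agent.Results.MP_284d10_pr.TwoSat.NoneByUnsat σ} =
      Fintype.card O -
        Fintype.card {σ : O // Pool.Agent.Results.MP_284d10_pr.TwoSat.NoneByUnsat σ} :=
    Fintype.card_subtype_compl _
  have h4 : Fintype.card {σ : O // Pool.Agent.Results.MP_284d10_pr.TwoSat.NoneByUnsat σ} ≤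
      Fintype.card O := Fintype.card_subtype_le _
  have h5 : (0 : ℝ) < Fintype.card O := by
    have : Nonempty O := ⟨(Fintype.equivFin (Clause 2 n)).symm⟩
    exact_mod_cast Fintype.card_pos
  have h6 : Pool.Agent.Results.MP_284d10_pr.TwoSat.prob n =
      (Fintype.card {σ : O // Pool.Agent.Results.MP_284d10_pr.TwoSat.NoneByUnsat σ} : ℝ) /
        (Fintype.card O : ℝ) := by
    unfold Pool.Agent.Results.MP_284d10_pr.TwoSat.prob
    rw [Fintype.card_subtype]
  rw [h6, le_div_iff₀ h5] at h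
  rw [h2, div_le_iff₀ h5]
  have h7 : (Nat.card {e : Fin (Nat.card (Cf 2 n)) ≃ Cf 2 n // Ev n e} : ℝ) ≤
      (Fintype.card O : ℝ) -
        (Fintype.card {σ : O // Pool.Agent.Results.MP_284d10_pr.TwoSat.NoneByUnsat σ} : ℝ) := by
    rw [← Nat.cast_sub h4, ← h3]
    exact_mod_cast h1
  linarith

theorem result :
    ¬ (∀ k : ℕ, 2 ≤ k →
    Filter.Tendsto
      (fun n : ℕ =>
        (Nat.card {e : Fin (Nat.card {c : Finset (Fin n × Bool) // c.card = k ∧ (c.image Prod.fst).card = k}) ≃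
                      {c : Finset (Fin n × Bool) // c.card = k ∧ (c.image Prod.fst).card = k} //
            ∃ m : ℕ,
              (∀ j : ℕ, j < m → ∃ a : Fin n → Bool,
                  ∀ c : {c : Finset (Fin n × Bool) // c.card = k ∧ (c.image Prod.fst).card = k},
                    ((e.symm c : Fin _) : ℕ) < j → ∃ l ∈ c.val, a l.1 = l.2) ∧
              ∃ H : Finset {c : Finset (Fin n × Bool) // c.card = k ∧ (c.image Prod.fst).card = k},
                H.Nonempty ∧
                (∀ c ∈ H, ((e.symm c : Fin _) : ℕ) < m) ∧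
                ∃ a : Fin n → Bool,
                  (∀ c ∈ H, ∃ l ∈ c.val, a l.1 = l.2) ∧
                  ∀ b : Fin n → Bool, (∀ c ∈ H, ∃ l ∈ c.val, b l.1 = l.2) →
                    ∀ i : Fin n, (∃ c ∈ H, ∃ l ∈ c.val, l.1 = i) → b i = a i} : ℝ) /
        (Nat.card (Fin (Nat.card {c : Finset (Fin n × Bool) // c.card = k ∧ (c.image Prod.fst).card = k}) ≃
                      {c : Finset (Fin n × Bool) // c.card = k ∧ (c.image Prod.fst).card = k}) : ℝ))
      Filter.atTop (nhds 1)) := by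
  intro h
  obtain ⟨δ, hδ, n0, hlow⟩ := Pool.Agent.Results.MP_284d10_pr.TwoSat.result
  have h2 := h 2 le_rfl
  have h3 : (1 : ℝ) ≤ 1 - δ := by
    refine le_of_tendsto h2 ?_
    filter_upwards [Filter.eventually_ge_atTop n0] with n hn
    exact ratio_le n δ (hlow n hn)
  linarith

end Pool.Agent.S19226
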