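import Pool.Statements.S19240
import Pool.Agent.Y978.ST.Law
import Pool.Agent.Y978.ST.Cover

set_option autoImplicit false
open Filter Topology MeasureTheory
open Pool Pool.MP_2c66a4_pr

namespace Pool.Agent.S19240

/-- The negation of the preceding statement: For 0<α<1 and any symmetric α-stable Lévy process, almost surely the graph over [0,1] has Fourier dimension 1: for each s<1 some compactly carried probability measure on it has Fourier decay ‖ξ‖^(-s/2), and for no s>1. -/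
theorem result :
    ¬ (∀ (α : ℝ), 0 < α → α < 1 →
  ∀ (Ω : Type) [MeasurableSpace Ω] (P : Measure Ω) [IsProbabilityMeasure P] (X : ℝ → Ω → ℝ),
    (∀ t : ℝ, Measurable (X t)) →
    (∀ᵐ ω ∂P, X 0 ω = 0) →
    (∀ᵐ ω ∂P, ∀ t : ℝ, 0 ≤ t →
        ContinuousWithinAt (fun s => X s ω) (Set.Ici t) t ∧
        (0 < t → ∃ l : ℝ, Tendsto (fun s => X s ω) (𝓝[<] t) (𝓝 l))) →
    (∀ (n : ℕ) (t : Fin (n + 1) → ℝ), 0 ≤ t 0 → StrictMono t →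
        ProbabilityTheory.iIndepFun
          (fun (i : Fin n) (ω : Ω) => X (t i.succ) ω - X (t i.castSucc) ω) P) →
    (∀ s t : ℝ, 0 ≤ s → s ≤ t → ∀ ξ : ℝ,
        ∫ ω, Complex.exp (((ξ * (X t ω - X s ω) : ℝ) : ℂ) * Complex.I) ∂P
          = ((Real.exp (-(t - s) * |ξ| ^ α) : ℝ) : ℂ)) →
    ∀ᵐ ω ∂P,
      (∀ s : ℝ, 0 < s → s < 1 →
        ∃ (μ : Measure (ℝ × ℝ)) (K : Set (ℝ × ℝ)),
          IsProbabilityMeasure μ ∧ IsCompact K ∧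
          K ⊆ {p : ℝ × ℝ | p.1 ∈ Set.Icc (0 : ℝ) 1 ∧ p.2 = X p.1 ω} ∧
          μ Kᶜ = 0 ∧
          ∃ C : ℝ, ∀ ξ : ℝ × ℝ, 1 ≤ ‖ξ‖ →
            ‖∫ p, Complex.exp (((ξ.1 * p.1 + ξ.2 * p.2 : ℝ) : ℂ) * Complex.I) ∂μ‖
              ≤ C * ‖ξ‖ ^ (-s / 2)) ∧
      (∀ s : ℝ, 1 < s →
        ¬ ∃ (μ : Measure (ℝ × ℝ)) (K : Set (ℝ × ℝ)),
          IsProbabilityMeasure μ ∧ IsCompact K ∧
          K ⊆ {p : ℝ × ℝ | p.1 ∈ Set.Icc (0 : ℝ) 1 ∧ p.2 = X p.1 ω} ∧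
          μ Kᶜ = 0 ∧
          ∃ C : ℝ, ∀ ξ : ℝ × ℝ, 1 ≤ ‖ξ‖ →
            ‖∫ p, Complex.exp (((ξ.1 * p.1 + ξ.2 * p.2 : ℝ) : ℂ) * Complex.I) ∂μ‖
              ≤ C * ‖ξ‖ ^ (-s / 2))) := by
  intro H
  have h1 := H (1 / 21) (by norm_num) (by norm_num) Pool.Agent.Y978.ST.Om
    (Pool.Agent.Y978.ST.PP Pool.Agent.Y978.ST.rt) Pool.Agent.Y978.ST.X
    Pool.Agent.Y978.ST.measurable_X (ae_of_all _ Pool.Agent.Y978.ST.X_zero)
    (ae_of_all _ (fun ω t _ => ⟨Pool.Agent.Y978.ST.X_right t ω,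
      fun _ => Pool.Agent.Y978.ST.X_left t ω⟩))
    (fun n t ht0 ht => Pool.Agent.Y978.ST.X_indep n t ht0 ht.monotone)
    (fun s t hs hst ξ => Pool.Agent.Y978.ST.single hs hst ξ)
  have h2 : ∀ᵐ ω ∂(Pool.Agent.Y978.ST.PP Pool.Agent.Y978.ST.rt), False := by
    filter_upwards [h1, Pool.Agent.Y978.ST.ae_G Pool.Agent.Y978.ST.rt] with ω hω hG
    obtain ⟨μ, K, hμ, _, hK, hK0, C, hC⟩ := hω.1 (1 / 2) (by norm_num) (by norm_num)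
    exact Pool.Agent.Y978.ST.no_measure hG μ K hK hK0 C hC
  obtain ⟨ω, hω⟩ := h2.exists
  exact hω

end Pool.Agent.S19240
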