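import Pool.Statements.S19249
import Pool.Agent.Y974.SV.Final

set_option autoImplicit false
open MeasureTheory ProbabilityTheory
open Pool Pool.MP_30e781_pr

namespace Pool.Agent.S19249

/-- For every n, real n×n matrix Abar, σ>0, x>0: if G has iid standard Gaussian entries, the probability that the spectral norm of (Abar+σG)⁻¹ is at least x is at most √n/(xσ). -/
theorem result :
    ∀ (n : ℕ) (Abar : Matrix (Fin n) (Fin n) ℝ) (σ x : ℝ), 0 < σ → 0 < x →
      (Measure.pi (fun _ : Fin n => Measure.pi (fun _ : Fin n => gaussianReal 0 1)))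
        {G : Fin n → Fin n → ℝ |
          ∃ v : Fin n → ℝ, (∑ i, v i ^ 2 ≤ 1) ∧
            x ^ 2 ≤ ∑ i, (Matrix.mulVec (Abar + σ • Matrix.of G)⁻¹ v) i ^ 2}
        ≤ ENNReal.ofReal (Real.sqrt n / (x * σ)) := by
  intro n Abar σ x hσ hx
  cases n with
  | zero =>
    refine le_trans (measure_mono (t := (∅ : Set (Fin 0 → Fin 0 → ℝ))) ?_) ?_
    · rintro G ⟨v, _, h⟩
      simp at h
      exact absurd h (by positivity)
    · simp
  | succ m =>
    have hy : 0 < 1 / (x * σ) := by positivity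
    have h := Pool.Agent.Y974.SV.tail m (σ⁻¹ • Abar) hy
    have e : Real.sqrt ((m + 1 : ℕ) : ℝ) * (1 / (x * σ))
        = Real.sqrt ((m + 1 : ℕ) : ℝ) / (x * σ) := by ring
    rw [e] at h
    refine le_trans (measure_mono ?_) h
    rintro G ⟨v, hv, hxv⟩
    have hsum : ∀ w : Fin (m + 1) → ℝ, ∑ i, w i ^ 2 = dotProduct w w := by
      intro w
      unfold dotProduct
      exact Finset.sum_congr rfl fun i _ => sq _
    rw [hsum] at hv hxv
    set M : Matrix (Fin (m + 1)) (Fin (m + 1)) ℝ := Abar + σ • Matrix.of G with hM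
    by_cases hdet : IsUnit M.det
    · have hMz : Matrix.mulVec M (Matrix.mulVec M⁻¹ v) = v := by
        rw [Matrix.mulVec_mulVec, Matrix.mul_nonsing_inv M hdet, Matrix.one_mulVec]
      have h1 := Pool.Agent.Y974.SV.qm_le_hom M (Matrix.mulVec M⁻¹ v)
      rw [hMz] at h1
      have hMs : M = σ • (σ⁻¹ • Abar + Matrix.of G) := by
        rw [hM, smul_add, smul_smul, mul_inv_cancel₀ hσ.ne', one_smul]
      have h2 : Pool.Agent.Y974.SV.qm M
          = σ ^ 2 * Pool.Agent.Y974.SV.qm (σ⁻¹ • Abar + Matrix.of G) := by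
        conv_lhs => rw [hMs]
        exact Pool.Agent.Y974.SV.qm_smul σ _
      have hq := Pool.Agent.Y974.SV.qm_nonneg (σ⁻¹ • Abar + Matrix.of G)
      change Pool.Agent.Y974.SV.qm (σ⁻¹ • Abar + Matrix.of G) ≤ (1 / (x * σ)) ^ 2
      rw [h2] at h1
      rw [div_pow, one_pow, le_div_iff₀ (by positivity)]
      calc Pool.Agent.Y974.SV.qm (σ⁻¹ • Abar + Matrix.of G) * (x * σ) ^ 2
          = (σ ^ 2 * Pool.Agent.Y974.SV.qm (σ⁻¹ • Abar + Matrix.of G)) * x ^ 2 := by ring
        _ ≤ (σ ^ 2 * Pool.Agent.Y974.SV.qm (σ⁻¹ • Abar + Matrix.of G))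
            * dotProduct (Matrix.mulVec M⁻¹ v) (Matrix.mulVec M⁻¹ v) :=
            mul_le_mul_of_nonneg_left hxv (by positivity)
        _ ≤ dotProduct v v := h1
        _ ≤ 1 := hv
    · exfalso
      rw [Matrix.nonsing_inv_apply_not_isUnit M hdet] at hxv
      simp at hxv
      exact absurd hxv (by positivity)

end Pool.Agent.S19249
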