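/-
Frozen statement S19281 (MP_402caf_pr): every graph of maximum degree at most `Δ` appears in `G(n,p)`
once `p` is above the threshold of a `K_{Δ+1}`-factor.

Outline (`r = Δ + 1`).
* `Y971.KF.Sham`: perfect matchings in the random `r`-partite `r`-uniform hypergraph of density
  `C log k / k ^ (r - 1)`, from the second Kahn-Kalai theorem for group actions with an exponential
  tail (`TH879.MS.action_tail`).
* `Y240.KF.Coup`: a coupling in the manner of Riordan: the `r`-cliques of the random graph contain a
  random hypergraph of density `c p ^ (r choose 2)`. Each clique is thinned by a fair coin, so that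
  cliques covered by the others cost only a constant factor, and `r = 3` is included. The bad event is
  controlled by the chain bound (`Y362.KF.Chain`) and the counts in `Y246.KF.Cnt2`.
* `Y240.KF.Factor`: the threshold of a partite `K_r`-factor.
* `Y367.KF.Dens`, `Y815.KF.Aut`, `Y31.KF.Rest`: the part of `H` without `K_r` appears at a polynomially
  smaller density, since its connected subgraphs have density below `r / 2`.
* `Y430.KF.Decomp`, `Y98.KF.Vtx`, `Y240.KF.Main`: the two parts are placed in two independent rounds,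
  the larger one last, on the vertices that remain.
-/
import Pool.Statements.S19281
import Pool.Agent.Y240.KF.Frozen
import Pool.Agent.Y362.KF.Chain
import Pool.Agent.Y246.KF.Cnt2
import Pool.Agent.Y98.KF.Vtx
import Pool.Agent.Y430.KF.Decomp
import Pool.Agent.Y815.KF.Aut
import Pool.Agent.Y367.KF.Dens
import Pool.Agent.Y971.KF.Sham
import Pool.Agent.Y31.KF.Rest

set_option autoImplicit false
open scoped Classical
open Pool Pool.MP_402caf_pr

namespace Pool.Agent.S19281

/-- For every Δ, every sequence of n-vertex graphs of max degree ≤ Δ and every p with p·n^{2/(Δ+1)}/(log n)^{1/C(Δ+1,2)} → ∞, the probability that G(n,p) contains a copy of H_n tends to 1. -/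
theorem result :
    ∀ (Δ : ℕ) (H : ∀ n : ℕ, SimpleGraph (Fin n)) (p : ℕ → ℝ),
      (∀ (n : ℕ) (v : Fin n), (H n).degree v ≤ Δ) →
      (∀ n : ℕ, 0 ≤ p n ∧ p n ≤ 1) →
      Filter.Tendsto
        (fun n : ℕ => p n * (n : ℝ) ^ ((2 : ℝ) / ((Δ : ℝ) + 1)) /
          (Real.log (n : ℝ)) ^ ((1 : ℝ) / (((Δ + 1).choose 2 : ℕ) : ℝ)))
        Filter.atTop Filter.atTop →
      Filter.Tendsto
        (fun n : ℕ => ∑ G : SimpleGraph (Fin n),
          if (∃ f : Fin n → Fin n, Function.Injective f ∧
                ∀ u v : Fin n, (H n).Adj u v → G.Adj (f u) (f v))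
          then p n ^ G.edgeFinset.card * (1 - p n) ^ (n.choose 2 - G.edgeFinset.card)
          else 0)
        Filter.atTop (nhds 1) :=
  Pool.Agent.Y240.KF.frozen Pool.Agent.Y98.KF.stGv
    (Pool.Agent.Y240.KF.main
      (Pool.Agent.Y240.KF.factor Pool.Agent.Y362.KF.chain Pool.Agent.Y246.KF.count
        Pool.Agent.Y971.KF.sham)
      Pool.Agent.Y98.KF.stGv Pool.Agent.Y98.KF.stMonoV Pool.Agent.Y98.KF.stTwo
      Pool.Agent.Y430.KF.decomp
      (Pool.Agent.Y31.KF.rest Pool.Agent.Y815.KF.aut Pool.Agent.Y367.KF.dens))

end Pool.Agent.S19281
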