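import Pool.Statements.S19332
import Pool.Agent.Y938.RD.Asm
import Pool.Agent.Y938.RD.Nf
import Pool.Agent.Y938.RD.Len
import Pool.Agent.Y938.RD.Mul
import Pool.Agent.Y938.RD.Key
import Pool.Agent.Y938.RD.Cls0
import Pool.Agent.Y938.RD.Cls1
import Pool.Agent.Y938.RD.FinC
import Pool.Agent.Y938.RD.Gr
import Pool.Agent.Y938.RD.NuC
import Pool.Agent.Y938.RD.FreeC
import Pool.Agent.Y938.RD.Walk
import Pool.Agent.Y938.RD.FGc
import Pool.Agent.Y938.RD.Bc
import Pool.Agent.Y568.RD.G0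
import Pool.Agent.Y938.RD.E2
import Pool.Agent.Y938.RD.Chi
import Pool.Agent.Y938.RD.An
import Pool.Agent.Y151.RD.Fc


set_option autoImplicit false
open Pool Pool.MP_5501f7_pr

namespace Pool.Agent.S19332

/-- The negation of the preceding statement: For every finitely generated group with property RD and every finitely supported symmetric probability ν on it, with ρ the ℓ² norm of convolution by ν, the return probability ν^(2n)(e) is asymptotic to c·n^(-d)·ρ^(2n) for some c>0 and real d. -/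
theorem result :
    ¬ (∀ (G : Type) [Group G],
      (∃ S : Finset G, Subgroup.closure (S : Set G) = ⊤ ∧
        ∃ (C : ℝ) (s : ℕ), ∀ f g : G →₀ ℝ, ∀ T : Finset G,
          ∑ x ∈ T, (f.sum (fun y a => a * g (y⁻¹ * x))) ^ 2 ≤
            C * (f.sum (fun x a => a ^ 2 *
                  (1 + ((sInf {n : ℕ | ∃ l : List G, l.length = n ∧
                      (∀ y ∈ l, y ∈ S ∨ y⁻¹ ∈ S) ∧ l.prod = x} : ℕ) : ℝ)) ^ (2 * s)))
              * g.sum (fun _ a => a ^ 2)) →
      ∀ ν : G →₀ ℝ,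
        (∀ x, 0 ≤ ν x) →
        ν.sum (fun _ a => a) = 1 →
        (∀ x, ν x⁻¹ = ν x) →
        ∀ ρ : ℝ, 0 ≤ ρ →
          (∀ g : G →₀ ℝ, ∀ T : Finset G,
            ∑ x ∈ T, (ν.sum (fun y a => a * g (y⁻¹ * x))) ^ 2 ≤
              ρ ^ 2 * g.sum (fun _ a => a ^ 2)) →
          (∀ r : ℝ, 0 ≤ r → r < ρ → ∃ g : G →₀ ℝ, ∃ T : Finset G,
            r ^ 2 * g.sum (fun _ a => a ^ 2) <
              ∑ x ∈ T, (ν.sum (fun y a => a * g (y⁻¹ * x))) ^ 2) →
          ∃ c d : ℝ, 0 < c ∧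
            Asymptotics.IsEquivalent Filter.atTop
              (fun n : ℕ =>
                ((fun (h : G → ℝ) (x : G) => ν.sum (fun y a => a * h (y⁻¹ * x)))^[2 * n]
                  (Set.indicator ({1} : Set G) (fun _ => (1 : ℝ)))) 1)
              (fun n : ℕ => c * (n : ℝ) ^ (-d) * ρ ^ (2 * n))) := by
  have hnf := Y938.RD.nf_spec
  have hlen := Y938.RD.len_spec hnf
  have hgen := Y938.RD.gen_spec hnf hlen
  have hmul := Y938.RD.mul_spec hnf
  have hKc := Y938.RD.FinC.Kc_spec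
  have hkey := Y938.RD.key_spec (Y938.RD.cls_spec hnf) (Y938.RD.cls0_spec hnf hmul)
    (Y938.RD.cls1_spec hnf hmul hlen) hKc
  have hRD := Y938.RD.FinC.RDfin_spec (Y938.RD.FinC.RD_spec hkey hKc hlen) hgen
  have hkap := Y938.RD.kap_spec
  have hpp := Y938.RD.pp_spec hkap
  have hgs := Y938.RD.gs_spec hkap hpp
  have hG0 := Y568.RD.G0_spec
  have hG1 := Y568.RD.G1_spec
  have hH2 := Y568.RD.H2_spec hG0
  have hFG := Y938.RD.FG_spec' hgs Y938.RD.b_spec' (Y938.RD.FreeC.free_spec hnf) Y938.RD.green_spec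
    Y938.RD.NuC.nu_spec hpp hG0
  have hchi := Y938.RD.chi_spec hG0 hG1 hH2 Y938.RD.E2_spec
  have hfin := Y151.RD.final_spec Y151.RD.fin0_spec Y151.RD.fin1_spec Y151.RD.fin2_spec
  exact Y938.RD.main_spec hRD Y938.RD.NuC.nu_spec Y938.RD.rho_spec Y938.RD.ret_spec
    (Y938.RD.NuC.odd_spec Y938.RD.NuC.nu_spec) hFG hpp hchi hG1 (Y938.RD.anal_spec hG0) hfin

end Pool.Agent.S19332
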