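import Pool.Statements.S19341
import Pool.Agent.Y977.DG.Lower

set_option autoImplicit false
open Pool Pool.MP_57c4e5_pr

namespace Pool.Agent.S19341

open Pool.Agent.Y977.DG in
lemma energy_eq (α β : ℝ) (N : ℕ) (φ : Om N) :
    Real.exp (-β * ∑' p : ℤ × ℤ,
      (if p.1 = p.2 then (0 : ℝ)
        else ((|p.1 - p.2| : ℤ) : ℝ) ^ (-α) * ((φ.1 p.1 : ℝ) - (φ.1 p.2 : ℝ)) ^ 2))
      = Real.exp (-(β * En α (re φ))) := by
  congr 1
  rw [neg_mul]
  congr 2
  unfold En h re
  refine tsum_congr (fun p => ?_)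
  by_cases hp : p.1 = p.2
  · rw [if_pos hp, if_pos (sub_eq_zero.2 hp), zero_mul]
  · rw [if_neg hp, if_neg (fun h => hp (sub_eq_zero.1 h))]

/-- For every α in (2,3) and every β>0, the integer-valued chain on [-N,N] with zero boundary and weight exp(-β Σ_{x≠y} ∣x-y∣^(-α)(φx-φy)²) has variance of φ at 0 tending to infinity as N grows. -/
theorem result :
    ∀ α : ℝ, 2 < α → α < 3 → ∀ β : ℝ, 0 < β →
      Filter.Tendsto
        (fun N : ℕ =>
          (∑' φ : {φ : ℤ → ℤ // ∀ x : ℤ, (N : ℤ) < |x| → φ x = 0},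
              ((φ.1 0 : ℝ)) ^ 2 *
                Real.exp (-β * ∑' p : ℤ × ℤ,
                  (if p.1 = p.2 then (0 : ℝ)
                   else ((|p.1 - p.2| : ℤ) : ℝ) ^ (-α) *
                     ((φ.1 p.1 : ℝ) - (φ.1 p.2 : ℝ)) ^ 2))) /
          (∑' φ : {φ : ℤ → ℤ // ∀ x : ℤ, (N : ℤ) < |x| → φ x = 0},
              Real.exp (-β * ∑' p : ℤ × ℤ,
                (if p.1 = p.2 then (0 : ℝ)
                 else ((|p.1 - p.2| : ℤ) : ℝ) ^ (-α) *
                   ((φ.1 p.1 : ℝ) - (φ.1 p.2 : ℝ)) ^ 2))))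
        Filter.atTop Filter.atTop := by
  intro α hα hα3 β hβ
  obtain ⟨N0, hN0⟩ := Pool.Agent.Y977.DG.lower_large hα hα3 hβ
  have hc : 0 < (α - 2) * (3 - α) / (96 * β) := by
    have h1 : 0 < α - 2 := by linarith
    have h2 : 0 < 3 - α := by linarith
    positivity
  have ht : Filter.Tendsto (fun N : ℕ => (α - 2) * (3 - α) / (96 * β) * ((N : ℝ) + 1) ^ (α - 2))
      Filter.atTop Filter.atTop :=
    Filter.Tendsto.const_mul_atTop hc ((tendsto_rpow_atTop (by linarith)).comp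
      (Filter.tendsto_atTop_add_const_right _ _ tendsto_natCast_atTop_atTop))
  refine Filter.tendsto_atTop_mono' _ ?_ ht
  filter_upwards [Filter.eventually_ge_atTop N0] with N hN
  refine (hN0 N hN).trans (le_of_eq ?_)
  unfold Pool.Agent.Y977.DG.Ms Pool.Agent.Y977.DG.Zs
  simp only [← energy_eq α β N]
  rfl

end Pool.Agent.S19341
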