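import Pool.Statements.S19353
import Pool.Agent.Results.MP_5fc11c_pr.KacConstant

set_option autoImplicit false
open MeasureTheory Filter Topology
open Pool Pool.MP_5fc11c_pr

namespace Pool.Agent.S19353

/-- restriction of an i.i.d. sequence to its first `n+1` terms has the product law -/
lemma map_restrict (μ : Measure ℝ) [IsProbabilityMeasure μ] (n : ℕ) :
    (Measure.infinitePi (fun _ : ℕ => μ)).map (fun (ξ : ℕ → ℝ) (k : Fin (n + 1)) => ξ (k : ℕ))
      = Measure.pi (fun _ : Fin (n + 1) => μ) := by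
  symm
  refine Measure.pi_eq (fun s hs => ?_)
  have hmeas : Measurable (fun (ξ : ℕ → ℝ) (k : Fin (n + 1)) => ξ (k : ℕ)) :=
    measurable_pi_lambda _ (fun k => measurable_pi_apply _)
  rw [Measure.map_apply hmeas (MeasurableSet.univ_pi hs)]
  have hset : ((fun (ξ : ℕ → ℝ) (k : Fin (n + 1)) => ξ (k : ℕ)) ⁻¹' (Set.univ.pi s))
      = Set.pi (Finset.range (n + 1) : Finset ℕ)
        (fun k => if h : k < n + 1 then s ⟨k, h⟩ else Set.univ) := by
    ext ξ
    simp only [Set.mem_preimage, Set.mem_pi, Set.mem_univ, true_imp_iff, Finset.coe_range,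
      Set.mem_Iio]
    constructor
    · intro h k hk
      rw [dif_pos hk]
      exact h ⟨k, hk⟩
    · intro h k
      have := h k k.2
      rw [dif_pos k.2] at this
      exact this
  rw [hset, Measure.infinitePi_pi]
  · rw [Finset.prod_range (fun k => μ (if h : k < n + 1 then s ⟨k, h⟩ else Set.univ))]
    refine Finset.prod_congr rfl (fun k _ => ?_)
    rw [dif_pos k.2]
  · intro k hk
    split_ifs with h
    · exact hs _
    · exact MeasurableSet.univ

/-- For every real law with mean 0 and variance 1, the expected number of distinct real roots of the degree-n polynomial with i.i.d. coefficients of that law, minus (2/π) log n, converges to a finite real limit. -/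
theorem result :
    ∀ (μ : Measure ℝ) [IsProbabilityMeasure μ],
      Integrable (fun x : ℝ => x ^ 2) μ →
      ∫ x, x ∂μ = 0 →
      ∫ x, x ^ 2 ∂μ = 1 →
      ∃ C : ℝ, Tendsto
        (fun n : ℕ =>
          (∫⁻ c : Fin (n + 1) → ℝ,
              (((∑ k : Fin (n + 1), Polynomial.C (c k) * Polynomial.X ^ (k : ℕ)).roots.toFinset.card : ℕ) : ENNReal)
              ∂(Measure.pi fun _ : Fin (n + 1) => μ)).toReal
            - 2 / Real.pi * Real.log (n : ℝ))
        atTop (𝓝 C) := by
  intro μ _ hint hmean hvar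
  obtain ⟨_, _, _, L, _, hL⟩ :=
    Pool.Agent.Results.MP_5fc11c_pr.KacConstant.result μ hint hmean hvar
  refine ⟨_, hL.congr (fun n => ?_)⟩
  congr 1
  -- measurability of the number of roots on the finite product
  set g : (Fin (n + 1) → ℝ) → ENNReal := fun c =>
    (((∑ k : Fin (n + 1), Polynomial.C (c k) * Polynomial.X ^ (k : ℕ)).roots.toFinset.card : ℕ) : ENNReal)
    with hg
  have hm : Measurable (fun ω : ℕ → ℝ => Kac764.nz (Kac764.kac n ω) Set.univ) :=
    Kac764.H4.measurable_nz_set n Set.univ (Or.inl rfl)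
  have hpoly : ∀ ξ : ℕ → ℝ,
      Pool.Agent.Results.MP_5fc11c_pr.KacConstant.kacPoly n ξ
        = ∑ k : Fin (n + 1), Polynomial.C (ξ (k : ℕ)) * Polynomial.X ^ (k : ℕ) := by
    intro ξ
    unfold Pool.Agent.Results.MP_5fc11c_pr.KacConstant.kacPoly
    rw [Finset.sum_range]
  have hgξ : ∀ ξ : ℕ → ℝ, g (fun k : Fin (n + 1) => ξ (k : ℕ))
      = ((Kac764.nz (Kac764.kac n ξ) Set.univ : ℕ) : ENNReal) := by
    intro ξ
    have h1 := Pool.Agent.Results.MP_5fc11c_pr.KacConstant.numRealRoots_eq
      (Pool.Agent.Results.MP_5fc11c_pr.KacConstant.kacPoly n ξ)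
    rw [Pool.Agent.Results.MP_5fc11c_pr.KacConstant.kacPoly_eq] at h1
    rw [← h1, ← Pool.Agent.Results.MP_5fc11c_pr.KacConstant.kacPoly_eq, hpoly]
    rfl
  have hgm : Measurable g := by
    let e : (Fin (n + 1) → ℝ) → (ℕ → ℝ) := fun c k => if h : k < n + 1 then c ⟨k, h⟩ else 0
    have he : Measurable e := by
      refine measurable_pi_lambda _ (fun k => ?_)
      by_cases h : k < n + 1
      · simp only [e, dif_pos h]
        exact measurable_pi_apply _
      · simp only [e, dif_neg h]
        exact measurable_const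
    have hge : g = fun c => ((Kac764.nz (Kac764.kac n (e c)) Set.univ : ℕ) : ENNReal) := by
      funext c
      rw [← hgξ (e c)]
      congr 1
      funext k
      simp only [e, dif_pos k.2]
    rw [hge]
    exact (measurable_from_top (f := fun m : ℕ => (m : ENNReal))).comp (hm.comp he)
  have hρ : Measurable (fun (ξ : ℕ → ℝ) (k : Fin (n + 1)) => ξ (k : ℕ)) :=
    measurable_pi_lambda _ (fun k => measurable_pi_apply _)
  rw [← map_restrict μ n, lintegral_map hgm hρ]
  unfold Pool.Agent.Results.MP_5fc11c_pr.KacConstant.expectedRoots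
    Pool.Agent.Results.MP_5fc11c_pr.KacConstant.iidLaw
  have hint' : ∀ ξ : ℕ → ℝ,
      ((Pool.Agent.Results.MP_5fc11c_pr.KacConstant.numRealRoots
        (Pool.Agent.Results.MP_5fc11c_pr.KacConstant.kacPoly n ξ) : ℕ) : ℝ)
      = ((Kac764.nz (Kac764.kac n ξ) Set.univ : ℕ) : ℝ) := by
    intro ξ
    rw [Pool.Agent.Results.MP_5fc11c_pr.KacConstant.numRealRoots_eq,
      Pool.Agent.Results.MP_5fc11c_pr.KacConstant.kacPoly_eq]
  simp only [hint']
  rw [integral_eq_lintegral_of_nonneg_ae (Eventually.of_forall (fun _ => Nat.cast_nonneg _))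
    ((measurable_from_top (f := fun m : ℕ => (m : ℝ))).comp hm).aestronglyMeasurable]
  congr 1
  refine lintegral_congr (fun ξ => ?_)
  rw [hgξ ξ, ENNReal.ofReal_natCast]

end Pool.Agent.S19353
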