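import Pool.Statements.S19462
import Pool.Agent.Y171.Precut2
-- import your own Pool.Agent.* helpers here

set_option autoImplicit false
open Filter Topology
open Pool Pool.MP_8aef71_pr

namespace Pool.Agent.S19462

/-- The negation of the preceding statement: Every sequence of random walks on finite groups with a precut-off (distance to uniform →0 at b·tₙ but eventually ≥ε at a·tₙ, tₙ→∞) has a cut-off: some sₙ→∞ with distance →0 at (1+ε)sₙ and →1 at (1−ε)sₙ for all ε in (0,1). -/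
theorem result :
    ¬ (∀ (G : ℕ → Type) [∀ n, Group (G n)] [∀ n, Fintype (G n)] [∀ n, DecidableEq (G n)]
    (p : ∀ n, G n → ℝ) (d : ℕ → ℕ → ℝ),
    (∀ n g, 0 ≤ p n g) → (∀ n, ∑ g, p n g = 1) →
    (∀ n k, d n k = (1 / 2 : ℝ) * ∑ g : G n,
        |(∑ f ∈ (Finset.univ : Finset (Fin k → G n)).filter (fun f => (List.ofFn f).prod = g),
            ∏ i, p n (f i)) - 1 / (Fintype.card (G n) : ℝ)|) →
    (∃ t : ℕ → ℝ, Tendsto t atTop atTop ∧ ∃ a b : ℝ, 0 < a ∧ a < b ∧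
        Tendsto (fun n => d n ⌊b * t n⌋₊) atTop (𝓝 0) ∧
        ∃ ε : ℝ, 0 < ε ∧ ∀ᶠ n in atTop, ε ≤ d n ⌊a * t n⌋₊) →
    ∃ s : ℕ → ℝ, Tendsto s atTop atTop ∧ ∀ ε : ℝ, 0 < ε → ε < 1 →
        Tendsto (fun n => d n ⌊(1 + ε) * s n⌋₊) atTop (𝓝 0) ∧
        Tendsto (fun n => d n ⌊(1 - ε) * s n⌋₊) atTop (𝓝 1)) := by
  intro hall
  obtain ⟨s, hs, hcut⟩ := hall Pool.Agent.Y171.Precut.Gr Pool.Agent.Y171.Precut.pp
    Pool.Agent.Y171.Precut.dd
    (fun n g => Pool.Agent.Y171.Precut.P_nonneg (Pool.Agent.Y171.Precut.xx_nonneg n)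
      (Pool.Agent.Y171.Precut.xx_le_one n) (by norm_num) (by norm_num) g)
    (fun n => Pool.Agent.Y171.Precut.sum_P _ _)
    (fun n k => (Pool.Agent.Y171.Precut.tv_eq (Pool.Agent.Y171.Precut.xx n) (1 / 2)
      (Pool.Agent.Y171.Precut.xx_nonneg n) k).symm)
    ⟨fun n => (n : ℝ), tendsto_natCast_atTop_atTop, 1 / 2, 2, by norm_num, by norm_num, by
      have h1 : ∀ n : ℕ, ⌊(2 : ℝ) * (n : ℝ)⌋₊ = 2 * n := by
        intro n
        have : (2 : ℝ) * (n : ℝ) = ((2 * n : ℕ) : ℝ) := by push_cast; ring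
        rw [this, Nat.floor_natCast]
      simp only [h1]
      exact squeeze_zero (fun n => Pool.Agent.Y171.Precut.dd_nonneg n _)
        (fun n => Pool.Agent.Y171.Precut.dd_le n)
        (tendsto_pow_atTop_nhds_zero_of_lt_one (by norm_num) (by norm_num)), 1 / 8, by norm_num, by
      filter_upwards [eventually_ge_atTop 2] with n hn
      apply Pool.Agent.Y171.Precut.le_dd n _ hn
      have h1 : ⌊(1 / 2 : ℝ) * (n : ℝ)⌋₊ ≤ n - 1 := by
        apply Nat.floor_le_of_le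
        have h2 : ((n - 1 : ℕ) : ℝ) = (n : ℝ) - 1 := by
          rw [Nat.cast_sub (by omega)]; norm_num
        rw [h2]
        have : (2 : ℝ) ≤ n := by exact_mod_cast hn
        linarith
      omega⟩
  obtain ⟨h0, h1⟩ := hcut (1 / 2) (by norm_num) (by norm_num)
  have e0 : ∀ᶠ n in atTop, Pool.Agent.Y171.Precut.dd n ⌊(1 + 1 / 2) * s n⌋₊ < 1 / 8 :=
    h0.eventually (gt_mem_nhds (by norm_num))
  have e1 : ∀ᶠ n in atTop, (16 : ℝ) / 17 < Pool.Agent.Y171.Precut.dd n ⌊(1 - 1 / 2) * s n⌋₊ :=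
    h1.eventually (lt_mem_nhds (by norm_num))
  obtain ⟨n, hn0, hn1, hn2⟩ := (e0.and (e1.and (eventually_ge_atTop 100))).exists
  have hb : n ≤ ⌊(1 + 1 / 2) * s n⌋₊ := by
    by_contra hcon
    push Not at hcon
    have := Pool.Agent.Y171.Precut.le_dd n _ (by omega) (Nat.succ_le_of_lt hcon)
    linarith
  have hb2 : (n : ℝ) ≤ (1 + 1 / 2) * s n := by
    by_cases hpos : 0 ≤ (1 + 1 / 2) * s n
    · exact (Nat.cast_le.mpr hb).trans (Nat.floor_le hpos)
    · rw [Nat.floor_of_nonpos (by linarith)] at hb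
      omega
  have hb3 : (n : ℝ) + 1 ≤ 8 * (⌊(1 - 1 / 2) * s n⌋₊ : ℝ) := by
    have h3 := Nat.lt_floor_add_one ((1 - 1 / 2) * s n)
    have h4 : (100 : ℝ) ≤ n := by exact_mod_cast hn2
    linarith
  have := Pool.Agent.Y171.Precut.dd_le_frac n _ hb3
  linarith

end Pool.Agent.S19462
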