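import Pool.Statements.S19664
import Pool.Agent.Y976.Kik.Fin

set_option autoImplicit false
open Matrix MeasureTheory ProbabilityTheory
open Pool Pool.MP_d47e08_pr

namespace Pool.Agent.S19664

theorem result :
    ¬ (∀ r : ℕ, 2 ≤ r → Even r →
    ∀ δ : ℝ, 0 < δ →
      ∀ᶠ ℓ : ℕ in Filter.atTop, ∀ μ : ℝ, δ < μ →
        ∃ ε : ℝ, 0 < ε ∧ ∀ᶠ n : ℕ in Filter.atTop,
          1 + ε ≤
            (∫ (Z : Finset (Fin n) → ℝ),
                sSup {t : ℝ | ∃ v : {K : Finset (Fin n) // K.card = ℓ} → ℝ,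
                  dotProduct v v = 1 ∧
                  t = dotProduct v (Matrix.mulVec
                    (Matrix.of fun I J : {K : Finset (Fin n) // K.card = ℓ} =>
                      if (symmDiff I.1 J.1).card = r
                      then μ * (n : ℝ) ^ (-(r : ℝ) / 4) + Z (symmDiff I.1 J.1)
                      else 0) v)}
              ∂(Measure.pi fun _ : Finset (Fin n) => gaussianReal 0 1))
            /
            (∫ (Z : Finset (Fin n) → ℝ),
                sSup {t : ℝ | ∃ v : {K : Finset (Fin n) // K.card = ℓ} → ℝ,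
                  dotProduct v v = 1 ∧
                  t = dotProduct v (Matrix.mulVec
                    (Matrix.of fun I J : {K : Finset (Fin n) // K.card = ℓ} =>
                      if (symmDiff I.1 J.1).card = r
                      then (0 : ℝ) + Z (symmDiff I.1 J.1)
                      else 0) v)}
              ∂(Measure.pi fun _ : Finset (Fin n) => gaussianReal 0 1))) := by
  intro h
  have h1 := (h 2 le_rfl even_two (1 / 4) (by norm_num)).and (Filter.eventually_ge_atTop 1)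
  obtain ⟨l, h2, hl⟩ := h1.exists
  obtain ⟨ε, hε, h3⟩ := h2 (1 / 2) (by norm_num)
  have h4 := Pool.Agent.Y976.Kik.FF_tendsto hl
  set Cst : ℝ := 2 * Real.exp ((2 * ((l : ℝ) + 1)) ^ 2) + (Pool.Agent.Y976.Kik.CX + 1) / 2 with hC
  have h5 := (h3.and (h4.eventually_gt_atTop (max 0 (Cst / ε)))).and
    (Filter.eventually_ge_atTop (l + 1))
  obtain ⟨n, ⟨h6, h7⟩, hn⟩ := h5.exists
  have hn0 : 0 < n := by omega
  have hn' : (0 : ℝ) < n := by exact_mod_cast hn0
  simp_rw [Pool.Agent.Y976.Kik.sSup_eq] at h6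
  set c : ℝ := 1 / 2 * (n : ℝ) ^ (-((2 : ℕ) : ℝ) / 4) with hc
  have hc2 : c ^ 2 = 1 / (4 * n) := by
    rw [hc, mul_pow, ← Real.rpow_natCast ((n : ℝ) ^ (-((2 : ℕ) : ℝ) / 4)) 2, ← Real.rpow_mul hn'.le]
    have : (-((2 : ℕ) : ℝ) / 4 * ((2 : ℕ) : ℝ)) = -1 := by norm_num
    rw [this, Real.rpow_neg_one]
    field_simp
    norm_num
  have h8 := Pool.Agent.Y976.Kik.spike_bound (show l ≤ n by omega) hn0 c hc2
  rw [← hC] at h8
  simp only [zero_add] at h6
  have e1 : (fun (Z : Finset (Fin n) → ℝ) => Pool.Agent.Y976.Kik.FF l (fun S => Z S)) =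
      fun Z => Pool.Agent.Y976.Kik.FF l Z := rfl
  change 1 + ε ≤ (∫ Z, Pool.Agent.Y976.Kik.FF l (fun S => c + Z S)
    ∂(Pool.Agent.H320R2.LD.gam (Finset (Fin n)))) /
    (∫ Z, Pool.Agent.Y976.Kik.FF l Z ∂(Pool.Agent.H320R2.LD.gam (Finset (Fin n)))) at h6
  have h9 : 0 < ∫ Z, Pool.Agent.Y976.Kik.FF l Z ∂(Pool.Agent.H320R2.LD.gam (Finset (Fin n))) :=
    lt_of_le_of_lt (le_max_left _ _) h7
  have h10 : Cst / ε < ∫ Z, Pool.Agent.Y976.Kik.FF l Z ∂(Pool.Agent.H320R2.LD.gam (Finset (Fin n))) :=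
    lt_of_le_of_lt (le_max_right _ _) h7
  rw [le_div_iff₀ h9] at h6
  rw [div_lt_iff₀ hε] at h10
  nlinarith

end Pool.Agent.S19664
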