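import Pool.Statements.S19735
-- import your own Pool.Agent.* helpers here
import Pool.Agent.W503.SAM.Ind
import Pool.Agent.W976.SAM.Bas
import Pool.Agent.W584.SAM.ADD
import Pool.Agent.W883.SAM.Key

set_option autoImplicit false
open Pool Pool.MP_f10e5d_pr

namespace Pool.Agent.S19735

/-- `(1 - 1/w)^(w-1) ≥ 1/e` -/
theorem exp_le (w : ℝ) (hw : 1 ≤ w) : Real.exp (-1) ≤ (1 - 1 / w) ^ (w - 1) := by
  rcases hw.eq_or_lt with rfl | h1
  · rw [sub_self, Real.rpow_zero]
    exact Real.exp_le_one_iff.2 (by norm_num)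
  · have hw0 : 0 < w := by linarith
    have hw1 : 0 < w - 1 := by linarith
    have h2 : 1 - 1 / w = ((1 : ℝ) + 1 / (w - 1))⁻¹ := by
      field_simp
      ring
    have h3 : 0 < 1 - 1 / w := by
      rw [h2]; positivity
    rw [Real.rpow_def_of_pos h3]
    apply Real.exp_le_exp.2
    rw [h2, Real.log_inv]
    have h4 : Real.log (1 + 1 / (w - 1)) ≤ 1 / (w - 1) := by
      have := Real.log_le_sub_one_of_pos (show (0 : ℝ) < 1 + 1 / (w - 1) by positivity)
      linarith
    have h5 : Real.log (1 + 1 / (w - 1)) * (w - 1) ≤ 1 / (w - 1) * (w - 1) :=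
      mul_le_mul_of_nonneg_right h4 hw1.le
    have h6 : 1 / (w - 1) * (w - 1) = 1 := by field_simp
    rw [h6] at h5
    linarith

/-- For all n and all p_i in (0,1), independent X_i equal to 0 with probability p_i and to 1/(1-p_i) otherwise satisfy P(X_1+...+X_n < n+1) ≥ 1/e, with the probability written as a finite sum over the set of nonzero X_i. -/
theorem result :
    ∀ n : ℕ, ∀ p : Fin n → ℝ, (∀ i, 0 < p i ∧ p i < 1) →
      Real.exp (-1) ≤
        ∑ S ∈ (Finset.univ : Finset (Finset (Fin n))).filter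
            (fun S => ∑ i ∈ S, 1 / (1 - p i) < (n : ℝ) + 1),
          (∏ i ∈ S, (1 - p i)) * ∏ i ∈ Sᶜ, p i := by
  intro n p hp
  set b : Fin n → ℝ := fun i => 1 / (1 - p i) with hb
  set q : Fin n → ℝ := fun i => 1 - p i with hq
  have hc : (0 : ℝ) < (n : ℝ) + 1 := by positivity
  have hbq : ∀ i ∈ (Finset.univ : Finset (Fin n)), 0 < b i ∧ 0 ≤ q i ∧ q i < 1 := by
    intro i _
    obtain ⟨h1, h2⟩ := hp i
    refine ⟨?_, ?_, ?_⟩
    · simp only [hb]
      exact one_div_pos.2 (by linarith)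
    · simp only [hq]; linarith
    · simp only [hq]; linarith
  have hm : ∀ i, b i * q i = 1 := by
    intro i
    obtain ⟨h1, h2⟩ := hp i
    have : (1 - p i) ≠ 0 := by linarith
    simp only [hb, hq]
    field_simp
  have hsum : ∑ i ∈ (Finset.univ : Finset (Fin n)), b i * q i = n := by
    rw [Finset.sum_congr rfl (fun i _ => hm i)]
    simp
  have B : Pool.Agent.W890.SF.S_BAS := Pool.Agent.W976.SAM.bas
  have A : Pool.Agent.W890.SF.S_ADD := Pool.Agent.W584.SAM.add
  have K : Pool.Agent.W890.SF.S_KEY := Pool.Agent.W883.SAM.key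
  have I : Pool.Agent.W890.SF.S_IND := Pool.Agent.W503.SAM.Ind.ind B A K
  obtain ⟨e1, e2, _, e4, e5⟩ := B (Fin n) b q ((n : ℝ) + 1) Finset.univ hc hbq
  set U := Pool.Agent.W890.SF.PU b q ((n : ℝ) + 1) Finset.univ with hU
  set G := Pool.Agent.W890.SF.PG b q ((n : ℝ) + 1) Finset.univ with hG
  have h1 : 1 ≤ G := by
    rw [hsum] at e4
    linarith
  have hw1 : 1 ≤ G / U := by
    rw [le_div_iff₀ e1]
    linarith
  have h2 := I (Fin n) b q ((n : ℝ) + 1) 1 (G / U) Finset.univ hc hbq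
    (fun i _ => (hm i).le) one_pos hw1 (by rw [← hU, ← hG, div_mul_cancel₀ _ e1.ne'])
    (by rw [hsum]; linarith)
  rw [hsum, ← hG] at h2
  have h3 : G / U * (1 - 1 / (G / U)) ^ (G / U - 1) ≤ G := by
    have e : ((G / U - ((n : ℝ) + 1 - n)) / 1) = G / U - 1 := by ring
    rw [e] at h2
    exact h2
  have h4 : (1 - 1 / (G / U)) ^ (G / U - 1) ≤ U := by
    have hG0 : 0 < G := by linarith
    have h5 : G * (1 - 1 / (G / U)) ^ (G / U - 1) ≤ G * U := by
      have h6 := mul_le_mul_of_nonneg_right h3 e1.le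
      have e : G / U * (1 - 1 / (G / U)) ^ (G / U - 1) * U = G * (1 - 1 / (G / U)) ^ (G / U - 1) := by
        field_simp
      rw [e] at h6
      exact h6
    exact le_of_mul_le_mul_left h5 hG0
  have h5 : Real.exp (-1) ≤ U := le_trans (exp_le _ hw1) h4
  refine h5.trans (le_of_eq ?_)
  rw [hU]
  unfold Pool.Agent.W890.SF.PU
  rw [Finset.powerset_univ, ← Finset.sum_filter]
  refine Finset.sum_congr rfl fun S _ => ?_
  unfold Pool.Agent.W890.SF.Wt
  congr 1
  rw [← Finset.compl_eq_univ_sdiff]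
  refine Finset.prod_congr rfl fun i _ => ?_
  simp only [hq]
  ring

end Pool.Agent.S19735
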