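import Pool.Statements.S19742
import Pool.Agent.Y782.FF.Final

set_option autoImplicit false
open MeasureTheory
open scoped ENNReal
open Pool Pool.MP_f41f70_pr

namespace Pool.Agent.S19742

/-- The negation of the preceding statement: There are d≥2 and a shift of finite type on Z^d with an ffiid solution (uniform iid source) whose coding radius has all moments finite, but no ffiid solution whose coding radius tail is at most 1/tower(r/K) for some K. -/
theorem result :
    ¬ (∃ d : ℕ, 2 ≤ d ∧ ∃ k : ℕ, ∃ F : Finset (Fin d → ℤ), ∃ A : Set (F → Fin k),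
      (∃ f : ((Fin d → ℤ) → unitInterval) → ((Fin d → ℤ) → Fin k),
        Measurable f ∧
        (∀ (y : (Fin d → ℤ) → unitInterval) (v : Fin d → ℤ),
          f (fun u => y (u + v)) = fun u => f y (u + v)) ∧
        (∀ᵐ y ∂(Measure.infinitePi fun _ : Fin d → ℤ => (volume : Measure unitInterval)),
          ∀ v : Fin d → ℤ, (fun u : F => f y ((u : Fin d → ℤ) + v)) ∈ A) ∧
        ∀ p : ℕ,
          ∫⁻ y, (⨅ (r : ℕ) (_ : ∀ y' : (Fin d → ℤ) → unitInterval,
                    (∀ u : Fin d → ℤ, (∀ i, |u i| ≤ (r : ℤ)) → y' u = y u) →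
                      f y' 0 = f y 0), (r : ℝ≥0∞)) ^ p
            ∂(Measure.infinitePi fun _ : Fin d → ℤ => (volume : Measure unitInterval)) < ⊤) ∧
      ¬ (∃ f : ((Fin d → ℤ) → unitInterval) → ((Fin d → ℤ) → Fin k),
        Measurable f ∧
        (∀ (y : (Fin d → ℤ) → unitInterval) (v : Fin d → ℤ),
          f (fun u => y (u + v)) = fun u => f y (u + v)) ∧
        (∀ᵐ y ∂(Measure.infinitePi fun _ : Fin d → ℤ => (volume : Measure unitInterval)),
          ∀ v : Fin d → ℤ, (fun u : F => f y ((u : Fin d → ℤ) + v)) ∈ A) ∧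
        ∃ K : ℕ, 1 ≤ K ∧ ∃ r₀ : ℕ, ∀ r : ℕ, r₀ ≤ r →
          (Measure.infinitePi fun _ : Fin d → ℤ => (volume : Measure unitInterval))
            {y | ¬ (∀ y' : (Fin d → ℤ) → unitInterval,
                    (∀ u : Fin d → ℤ, (∀ i, |u i| ≤ ((K * r : ℕ) : ℤ)) → y' u = y u) →
                      f y' 0 = f y 0)}
            ≤ 1 / ((Nat.iterate (fun n : ℕ => 2 ^ n) r 1 : ℕ) : ℝ≥0∞))) := by
  rintro ⟨d, -, k, F, A, ⟨f, hf, hsh, hA, hmom⟩, hnot⟩
  exact hnot (Pool.Agent.Y782.FF.main d k F A f hf hsh hA hmom)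

end Pool.Agent.S19742
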